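import Mathlib

set_option maxHeartbeats 400000

namespace Pool.Agent.Lib.H8.Arith

/-- The arithmetical hierarchy: `Sig n α A` says that `A` is `Σ⁰ₙ`. -/
def Sig : ℕ → ∀ (α : Type) [Primcodable α], (α → Prop) → Prop
  | 0, _, _, A => ComputablePred A
  | n + 1, α, _, A => ∃ B : α × ℕ → Prop, Sig n (α × ℕ) (fun p => ¬ B p) ∧ ∀ a, A a ↔ ∃ x, B (a, x)

variable {α β : Type} [Primcodable α] [Primcodable β]

lemma Sig.of_eq {n : ℕ} {A B : α → Prop} (h : Sig n α A) (e : ∀ a, A a ↔ B a) : Sig n α B :=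
  (funext fun a => propext (e a) : A = B) ▸ h

lemma Sig.comp : ∀ {n : ℕ} {α β : Type} [Primcodable α] [Primcodable β] {A : β → Prop},
    Sig n β A → ∀ {f : α → β}, Computable f → Sig n α fun a => A (f a)
  | 0, _, _, _, _, _, h, _, hf => by
    obtain ⟨i, h⟩ := h
    exact ⟨fun a => i _, h.comp hf⟩
  | n + 1, _, _, _, _, _, h, f, hf => by
    obtain ⟨B, hB, e⟩ := h
    exact ⟨fun p => B (f p.1, p.2),
      Sig.comp hB ((hf.comp Computable.fst).pair Computable.snd), fun a => e _⟩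

lemma Sig.of_neg {n : ℕ} {A : α → Prop} (h : Sig n α fun a => ¬ A a) : Sig (n + 1) α A :=
  ⟨fun p => A p.1, h.comp Computable.fst, fun a => by simp⟩

lemma Sig.neg_succ {n : ℕ} {A : α → Prop} (h : Sig n α A) : Sig (n + 1) α fun a => ¬ A a :=
  Sig.of_neg (h.of_eq fun a => by simp)

lemma Sig.succ : ∀ {n : ℕ} {α : Type} [Primcodable α] {A : α → Prop},
    Sig n α A → Sig (n + 1) α A
  | 0, _, _, _, h => Sig.of_neg (ComputablePred.not h)
  | _ + 1, _, _, _, h => by
    obtain ⟨B, hB, e⟩ := h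
    exact ⟨B, Sig.succ hB, e⟩

lemma Sig.mono {n m : ℕ} {A : α → Prop} (h : Sig n α A) (hnm : n ≤ m) : Sig m α A := by
  induction m, hnm using Nat.le_induction with
  | base => exact h
  | succ m _ ih => exact ih.succ

lemma Sig.prim {n : ℕ} {A : α → Prop} (h : PrimrecPred A) : Sig n α A :=
  Sig.mono (n := 0) h.computablePred (Nat.zero_le _)

lemma u1 : Computable fun z : ℕ => z.unpair.1 := (Primrec.fst.comp Primrec.unpair).to_comp
lemma u2 : Computable fun z : ℕ => z.unpair.2 := (Primrec.snd.comp Primrec.unpair).to_comp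

lemma and_or : ∀ (n : ℕ) {α : Type} [Primcodable α] {A B : α → Prop},
    Sig n α A → Sig n α B → (Sig n α fun a => A a ∧ B a) ∧ Sig n α fun a => A a ∨ B a
  | 0, _, _, A, B, hA, hB => by
    classical
    have h1 := ComputablePred.decide hA
    have h2 := ComputablePred.decide hB
    exact ⟨Computable.computablePred ((Primrec.and.to_comp.comp h1 h2).of_eq fun a => by simp),
      Computable.computablePred ((Primrec.or.to_comp.comp h1 h2).of_eq fun a => by simp)⟩
  | n + 1, α, _, A, B, hA, hB => by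
    obtain ⟨A', hA', eA⟩ := hA
    obtain ⟨B', hB', eB⟩ := hB
    refine ⟨⟨fun p => A' (p.1, p.2.unpair.1) ∧ B' (p.1, p.2.unpair.2), ?_, fun a => ?_⟩,
      ⟨fun p => A' p ∨ B' p, ((and_or n hA' hB').1).of_eq fun p => by tauto, fun a => ?_⟩⟩
    · exact ((and_or n (hA'.comp (Computable.fst.pair (u1.comp Computable.snd)))
        (hB'.comp (Computable.fst.pair (u2.comp Computable.snd)))).2).of_eq fun p => by tauto
    · beta_reduce
      rw [eA, eB]
      exact ⟨fun ⟨⟨x, hx⟩, ⟨y, hy⟩⟩ => ⟨Nat.pair x y, by simpa using ⟨hx, hy⟩⟩,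
        fun ⟨z, h1, h2⟩ => ⟨⟨_, h1⟩, ⟨_, h2⟩⟩⟩
    · beta_reduce
      rw [eA, eB, exists_or]

lemma Sig.and {n : ℕ} {A B : α → Prop} (hA : Sig n α A) (hB : Sig n α B) :
    Sig n α fun a => A a ∧ B a := (and_or n hA hB).1

lemma Sig.or {n : ℕ} {A B : α → Prop} (hA : Sig n α A) (hB : Sig n α B) :
    Sig n α fun a => A a ∨ B a := (and_or n hA hB).2

lemma Sig.ex {n : ℕ} {A : α × ℕ → Prop} (h : Sig (n + 1) (α × ℕ) A) :
    Sig (n + 1) α fun a => ∃ x, A (a, x) := by
  obtain ⟨B, hB, e⟩ := h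
  refine ⟨fun p => B ((p.1, p.2.unpair.1), p.2.unpair.2), hB.comp
    ((Computable.fst.pair (u1.comp Computable.snd)).pair (u2.comp Computable.snd)), fun a => ?_⟩
  simp only [e]
  exact ⟨fun ⟨x, y, h⟩ => ⟨Nat.pair x y, by simpa using h⟩, fun ⟨z, h⟩ => ⟨_, _, h⟩⟩

lemma Sig.exd {γ : Type} [Denumerable γ] {n : ℕ} {A : α × γ → Prop}
    (h : Sig (n + 1) (α × γ) A) : Sig (n + 1) α fun a => ∃ x, A (a, x) :=
  (Sig.ex (A := fun p : α × ℕ => A (p.1, Denumerable.ofNat γ p.2)) (h.comp (Computable.fst.pair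
    ((Primrec.ofNat γ).to_comp.comp Computable.snd)))).of_eq fun a =>
      ⟨fun ⟨_, hx⟩ => ⟨_, hx⟩, fun ⟨x, hx⟩ => ⟨Encodable.encode x, by simpa using hx⟩⟩

lemma bdd : ∀ (n : ℕ) {α : Type} [Primcodable α] {A : α × ℕ → Prop}, Sig n (α × ℕ) A →
    (Sig n (α × ℕ) fun p => ∀ i < p.2, A (p.1, i)) ∧ Sig n (α × ℕ) fun p => ∃ i < p.2, A (p.1, i)
  | 0, α, _, A, hA => by
    classical
    have key : ∀ {A : α × ℕ → Prop}, ComputablePred A →
        ComputablePred fun p : α × ℕ => ∀ i < p.2, A (p.1, i) := by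
      intro A hA
      have h1 := ComputablePred.decide hA
      have h2 : Computable fun p : α × ℕ =>
          (Nat.rec true (fun i acc => acc && decide (A (p.1, i))) p.2 : Bool) :=
        Computable.nat_rec (h := fun (p : α × ℕ) (q : ℕ × Bool) => q.2 && decide (A (p.1, q.1)))
          Computable.snd (Computable.const true) (Primrec.and.to_comp.comp
            (Computable.snd.comp Computable.snd) (h1.comp
              ((Computable.fst.comp Computable.fst).pair (Computable.fst.comp Computable.snd))))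
      refine Computable.computablePred (h2.of_eq fun p => ?_)
      obtain ⟨a, k⟩ := p
      induction k with
      | zero => simp
      | succ k ih =>
        simp only at ih ⊢
        rw [ih, ← Bool.decide_and]
        exact decide_eq_decide.2 Nat.forall_lt_succ_right.symm
    exact ⟨key hA, (ComputablePred.not (key (ComputablePred.not hA))).of_eq fun p => by simp⟩
  | n + 1, α, _, A, hA => by
    constructor
    · obtain ⟨B, hB, e⟩ := hA
      have h1 : Sig n (((α × ℕ) × List ℕ) × ℕ)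
          fun q => ¬ B ((q.1.1.1, q.2), q.1.2.getD q.2 0) :=
        hB.comp (((Computable.fst.comp (Computable.fst.comp Computable.fst)).pair
          Computable.snd).pair ((Primrec.list_getD 0).to_comp.comp
            (Computable.snd.comp Computable.fst) Computable.snd))
      have h2 := ((bdd n h1).2).comp (f := fun q : (α × ℕ) × List ℕ => (q, q.1.2))
        (Computable.id.pair (Computable.snd.comp Computable.fst))
      refine (Sig.exd h2.neg_succ).of_eq fun p => ?_
      simp only [not_exists, not_and, not_not, e]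
      refine ⟨fun ⟨l, hl⟩ i hi => ⟨_, hl i hi⟩, fun h => ?_⟩
      choose! g hg using h
      refine ⟨(List.range p.2).map g, fun i hi => ?_⟩
      rw [List.getD_eq_getElem _ _ (by simpa using hi)]
      simpa using hg i hi
    · have h1 : Sig (n + 1) ((α × ℕ) × ℕ) fun q => q.2 < q.1.2 ∧ A (q.1.1, q.2) :=
        (Sig.prim (Primrec.nat_lt.comp Primrec.snd (Primrec.snd.comp Primrec.fst))).and
          (hA.comp ((Computable.fst.comp Computable.fst).pair Computable.snd))
      exact h1.ex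

lemma Sig.ball {n : ℕ} {A : α × ℕ → Prop} (h : Sig n (α × ℕ) A) {f : α → ℕ} (hf : Computable f) :
    Sig n α fun a => ∀ i < f a, A (a, i) :=
  ((bdd n h).1).comp (Computable.id.pair hf)

open Nat.Partrec in
lemma smn {f : β × ℕ →. ℕ} (hf : Partrec f) :
    ∃ s : β → ℕ, Computable s ∧ ∀ b a, (Denumerable.ofNat Code (s b)).eval a = f (b, a) := by
  obtain ⟨c, hc⟩ := Code.exists_code.1 hf
  refine ⟨fun b => Encodable.encode (Code.curry c (Encodable.encode b)), (Primrec.encode.comp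
    (Code.primrec₂_curry.comp (Primrec.const c) Primrec.encode)).to_comp, fun b a => ?_⟩
  simp [hc, Part.map_id']

open Nat.Partrec in
lemma ev_sig : Sig 1 (ℕ × ℕ × ℕ) fun p => p.2.2 ∈ (Denumerable.ofNat Code p.1).eval p.2.1 := by
  have h : PrimrecPred fun q : (ℕ × ℕ × ℕ) × ℕ =>
      Code.evaln q.2 (Denumerable.ofNat Code q.1.1) q.1.2.1 = some q.1.2.2 :=
    Primrec.eq.comp (Code.primrec_evaln.comp ((Primrec.snd.pair ((Primrec.ofNat Code).comp
      (Primrec.fst.comp Primrec.fst))).pair (Primrec.fst.comp (Primrec.snd.comp Primrec.fst))))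
      (Primrec.option_some.comp (Primrec.snd.comp (Primrec.snd.comp Primrec.fst)))
  exact (Sig.ex (Sig.prim h)).of_eq fun p => by simp [Code.evaln_complete]

lemma universal : ∀ n : ℕ, ∃ U : ℕ × ℕ → Prop, Sig (n + 1) (ℕ × ℕ) U ∧
    ∀ (β : Type) [Primcodable β] (A : β × ℕ → Prop), Sig (n + 1) (β × ℕ) A →
      ∃ s : β → ℕ, Computable s ∧ ∀ b a, A (b, a) ↔ U (s b, a)
  | 0 => by
    classical
    refine ⟨fun p => ∃ y, y ∈ (Denumerable.ofNat Nat.Partrec.Code p.1).eval p.2,
      Sig.ex (A := fun q : (ℕ × ℕ) × ℕ => q.2 ∈ (Denumerable.ofNat Nat.Partrec.Code q.1.1).eval q.1.2)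
        (ev_sig.comp ((Computable.fst.comp Computable.fst).pair
          ((Computable.snd.comp Computable.fst).pair Computable.snd))), fun β _ A hA => ?_⟩
    obtain ⟨B, hB, e⟩ := hA
    have hB' : ComputablePred B := (ComputablePred.not hB).of_eq fun p => by simp
    have h : Partrec fun p : β × ℕ => Nat.rfind fun x => Part.some (decide (B (p, x))) :=
      Partrec.rfind hB'.decide.partrec
    obtain ⟨s, hs, es⟩ := smn h
    refine ⟨s, hs, fun b a => ?_⟩
    simp only [es, e]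
    refine ⟨fun hx => ⟨Nat.find hx, Nat.mem_rfind.2 ⟨by simpa using Nat.find_spec hx,
      fun hm => by simpa using Nat.find_min hx hm⟩⟩, fun ⟨y, hy⟩ => ⟨y, ?_⟩⟩
    simpa using Nat.rfind_spec hy
  | n + 1 => by
    obtain ⟨U, hU, hun⟩ := universal n
    refine ⟨fun p => ∃ x, ¬ U (p.1, Nat.pair p.2 x),
      Sig.ex (A := fun q : (ℕ × ℕ) × ℕ => ¬ U (q.1.1, Nat.pair q.1.2 q.2))
        (hU.comp ((Computable.fst.comp Computable.fst).pair (Primrec₂.natPair.to_comp.comp
          (Computable.snd.comp Computable.fst) Computable.snd))).neg_succ, fun β _ A hA => ?_⟩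
    obtain ⟨B, hB, e⟩ := hA
    obtain ⟨s, hs, es⟩ := hun β (fun p => ¬ B ((p.1, p.2.unpair.1), p.2.unpair.2))
      (hB.comp ((Computable.fst.pair (u1.comp Computable.snd)).pair (u2.comp Computable.snd)))
    refine ⟨s, hs, fun b a => ?_⟩
    simp [e, ← es]

lemma simple (n : ℕ) : ∃ S : ℕ → Prop, Sig (n + 1) ℕ S ∧ {a | ¬ S a}.Infinite ∧
    ∀ W : ℕ → Prop, Sig (n + 1) ℕ W → {a | W a}.Infinite → ∃ a, W a ∧ S a := by
  classical
  obtain ⟨U, ⟨B, hB, e⟩, hun⟩ := universal n
  let P : ℕ × ℕ → Prop := fun q => 2 * q.1 < q.2.unpair.1 ∧ B ((q.1, q.2.unpair.1), q.2.unpair.2)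
  have hP : Sig n (ℕ × ℕ) fun q => ¬ P q :=
    ((Sig.prim (Primrec.nat_lt.comp (Primrec.nat_mul.comp (Primrec.const 2) Primrec.fst)
      (Primrec.fst.comp (Primrec.unpair.comp Primrec.snd))).not).or (hB.comp
      ((Computable.fst.pair (u1.comp Computable.snd)).pair (u2.comp Computable.snd)))).of_eq
        fun q => by simp only [P]; tauto
  have h1 : Sig n (ℕ × ℕ) fun q => ∀ i < q.2, ¬ P (q.1, i) := (bdd n hP).1
  have h2 : Sig (n + 1) (ℕ × ℕ × ℕ) fun r =>
      r.2.2.unpair.1 = r.1 ∧ P r.2 ∧ ∀ i < r.2.2, ¬ P (r.2.1, i) :=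
    (Sig.prim (Primrec.eq.comp (Primrec.fst.comp (Primrec.unpair.comp
      (Primrec.snd.comp Primrec.snd))) Primrec.fst)).and
      ((hP.of_neg.and h1.succ).comp Computable.snd)
  refine ⟨_, h2.exd, fun hfin => ?_, fun W hW hinf => ?_⟩
  · let ch : ℕ → ℕ := fun e => if h : ∃ z, P (e, z) then (Nat.find h).unpair.1 else 0
    set c := hfin.toFinset.card with hc
    have hsub : Finset.range (2 * c + 1) ⊆ hfin.toFinset ∪ (Finset.range c).image ch := by
      intro a ha
      rw [Finset.mem_union, Set.Finite.mem_toFinset]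
      by_contra hcon
      obtain ⟨h3, h4⟩ := not_or.1 hcon
      obtain ⟨⟨e, z⟩, h5, h6, h7⟩ := not_not.1 h3
      have hex : ∃ z, P (e, z) := ⟨z, h6⟩
      have hz : Nat.find hex = z := (Nat.find_eq_iff hex).2 ⟨h6, h7⟩
      refine h4 (Finset.mem_image.2 ⟨e, ?_, by simp only [ch, dif_pos hex, hz]; exact h5⟩)
      have := h6.1
      have := Finset.mem_range.1 ha
      simp only at *
      rw [Finset.mem_range]
      omega
    have := (Finset.card_le_card hsub).trans (Finset.card_union_le _ _)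
    have h8 := Finset.card_image_le (s := Finset.range c) (f := ch)
    simp only [Finset.card_range] at this h8
    omega
  · obtain ⟨s, -, es⟩ := hun Unit (fun p => W p.2) (hW.comp Computable.snd)
    obtain ⟨a, ha, hlt⟩ := hinf.exists_gt (2 * s ())
    obtain ⟨x, hx⟩ := (e _).1 ((es () a).1 ha)
    have hex : ∃ z, P (s (), z) := ⟨Nat.pair a x, by simpa [P] using ⟨hlt, hx⟩⟩
    have hs := Nat.find_spec hex
    exact ⟨(Nat.find hex).unpair.1, (es () _).2 ((e _).2 ⟨_, hs.2⟩),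
      (s (), Nat.find hex), rfl, hs, fun i hi => Nat.find_min hex hi⟩

lemma incomplete (n : ℕ) {S : ℕ → Prop}
    (hS : ∀ W : ℕ → Prop, Sig (n + 1) ℕ W → {a | W a}.Infinite → ∃ a, W a ∧ S a) :
    ∃ C : ℕ → Prop, Sig (n + 1) ℕ C ∧ ∀ (Q : ℕ → Prop) (G : ℕ × ℕ → Prop), Sig (n + 1) ℕ Q →
      Sig (n + 1) (ℕ × ℕ) G → (∀ e m m', G (e, m) → G (e, m') → m = m') → (∀ e, Q e → ¬ C e) →
      (∀ e m, G (e, m) → ¬ S m → ¬ C e) → (∀ e, ¬ C e → ¬ Q e → ∃ m, G (e, m) ∧ ¬ S m) →
      False := by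
  obtain ⟨U, hU, hun⟩ := universal n
  refine ⟨fun e => U (e, e), hU.comp (Computable.id.pair Computable.id),
    fun Q G hQ hG hf h1 h2 h3 => ?_⟩
  have hmem : PrimrecRel fun (L : List ℕ) (m : ℕ) => m ∈ L :=
    (PrimrecRel.exists_mem_list Primrec.eq).of_eq fun L m => by simp
  have hV : Sig (n + 1) (List ℕ × ℕ) fun p => Q p.2 ∨ ∃ m, m ∈ p.1 ∧ G (p.2, m) :=
    (hQ.comp Computable.snd).or (Sig.ex
      (A := fun q : (List ℕ × ℕ) × ℕ => q.2 ∈ q.1.1 ∧ G (q.1.2, q.2))
      ((Sig.prim (hmem.comp (Primrec.fst.comp Primrec.fst) Primrec.snd)).and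
        (hG.comp ((Computable.snd.comp Computable.fst).pair Computable.snd))))
  obtain ⟨s, hs, es⟩ := hun _ _ hV
  have key : ∀ L : List ℕ, (∀ m ∈ L, ¬ S m) → ∃ m, G (s L, m) ∧ ¬ S m ∧ m ∉ L := by
    intro L hL
    have hn : ¬ U (s L, s L) := fun h => by
      rcases (es L (s L)).2 h with h' | ⟨m, hm, hg⟩
      · exact h1 _ h' h
      · exact h2 _ m hg (hL m hm) h
    have hv := fun h => hn ((es L (s L)).1 h)
    obtain ⟨m, hm, hm'⟩ := h3 _ hn fun h => hv (Or.inl h)
    exact ⟨m, hm, hm', fun h => hv (Or.inr ⟨m, h, hm⟩)⟩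
  let valid : List ℕ → Prop := fun L => ∀ i < L.length, G (s (L.drop (i + 1)), L.getD i 0)
  have hval : Sig (n + 1) (List ℕ) valid :=
    Sig.ball (A := fun q : List ℕ × ℕ => G (s (q.1.drop (q.2 + 1)), q.1.getD q.2 0))
      (hG.comp ((hs.comp (Primrec.list_drop.comp (Primrec.succ.comp Primrec.snd)
        Primrec.fst).to_comp).pair (Primrec.list_getD 0).to_comp)) Primrec.list_length.to_comp
  have vcons : ∀ a L, valid (a :: L) ↔ G (s L, a) ∧ valid L := fun a L => by
    simp only [valid, List.length_cons, Nat.forall_lt_succ_left]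
    simp
  have vS : ∀ L, valid L → ∀ m ∈ L, ¬ S m := by
    intro L
    induction L with
    | nil => simp
    | cons a L ih =>
      intro h m hm
      obtain ⟨ha, hL⟩ := (vcons a L).1 h
      rcases List.mem_cons.1 hm with rfl | hm
      · obtain ⟨m', hm', hs', -⟩ := key L (ih hL)
        rwa [hf _ _ _ ha hm']
      · exact ih hL m hm
  have vlong : ∀ k, ∃ L, valid L ∧ L.Nodup ∧ L.length = k := by
    intro k
    induction k with
    | zero => exact ⟨[], by simp [valid], by simp, rfl⟩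
    | succ k ih =>
      obtain ⟨L, hL, hnd, hlen⟩ := ih
      obtain ⟨m, hm, -, hm'⟩ := key L (vS L hL)
      exact ⟨m :: L, (vcons m L).2 ⟨hm, hL⟩, List.nodup_cons.2 ⟨hm', hnd⟩, by simp [hlen]⟩
  have hT : Sig (n + 1) ℕ fun m => ∃ L : List ℕ, m ∈ L ∧ valid L :=
    Sig.exd (A := fun q : ℕ × List ℕ => q.1 ∈ q.2 ∧ valid q.2)
      ((Sig.prim (hmem.comp Primrec.snd Primrec.fst)).and (hval.comp Computable.snd))
  obtain ⟨a, ⟨L, ha, hL⟩, hs'⟩ := hS _ hT fun hfin => by
    obtain ⟨L, hL, hnd, hlen⟩ := vlong (hfin.toFinset.card + 1)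
    have : L.toFinset ⊆ hfin.toFinset := fun x hx => by
      simpa using ⟨L, List.mem_toFinset.1 hx, hL⟩
    have := Finset.card_le_card this
    rw [List.toFinset_card_of_nodup hnd] at this
    omega
  exact vS L hL a ha hs'

end Pool.Agent.Lib.H8.Arith
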