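import Pool.Agent.Lib.H8.Bin2

set_option maxHeartbeats 400000

namespace Pool.Agent.Lib.H8.Bin11
open PowerSeries Pool.Agent.Lib.H8.Bin2
open Pool.Agent.Lib.H8.Col4 (itr)

def T : List (List ℤ) := [itr 16 [1],
    [1, 15, 26, 14, 21, 19, 0, 0, 0, 0, 0, 0, 0, 0, 0, 0, 0],
    [1, 16, 24, 16, 28, 16, 8, 16, 6, 16, 8, 16, 28, 16, 24, 16, 1],
    [1, 17, 5, 5, 3, 19, 23, 23, 0, 0, 0, 0, 0, 0, 0, 0, 0],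
    [1, 18, 1, 24, 2, 12, 10, 24, 29, 18, 21, 0, 0, 0, 0, 0, 0],
    [1, 25, 2, 26, 29, 13, 0, 0, 0, 0, 0, 0, 0, 0, 0, 0, 0],
    [1, 26, 23, 12, 31, 26, 9, 0, 0, 0, 0, 0, 0, 0, 0, 0, 0],
    [1, 31, 10, 30, 5, 19, 0, 0, 0, 0, 0, 0, 0, 0, 0, 0, 0],
    [2, 8, 28, 8, 18, 0, 0, 0, 0, 0, 0, 0, 0, 0, 0, 0, 0],
    [2, 24, 12, 24, 2, 0, 0, 0, 0, 0, 0, 0, 0, 0, 0, 0, 0],
    [4, 0, 8, 0, 20, 0, 0, 0, 0, 0, 0, 0, 0, 0, 0, 0, 0],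
    [4, 4, 8, 8, 20, 20, 0, 0, 0, 0, 0, 0, 0, 0, 0, 0, 0],
    [4, 16, 24, 16, 4, 0, 0, 0, 0, 0, 0, 0, 0, 0, 0, 0, 0],
    [4, 28, 8, 24, 20, 12, 0, 0, 0, 0, 0, 0, 0, 0, 0, 0, 0],
    [6, 8, 4, 8, 6, 0, 0, 0, 0, 0, 0, 0, 0, 0, 0, 0, 0],
    [6, 24, 20, 24, 22, 0, 0, 0, 0, 0, 0, 0, 0, 0, 0, 0, 0],
    [8, 0, 16, 0, 8, 0, 0, 0, 0, 0, 0, 0, 0, 0, 0, 0, 0],
    [10, 8, 12, 8, 26, 0, 0, 0, 0, 0, 0, 0, 0, 0, 0, 0, 0],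
    [10, 24, 28, 24, 10, 0, 0, 0, 0, 0, 0, 0, 0, 0, 0, 0, 0],
    [11, 5, 30, 26, 7, 17, 0, 0, 0, 0, 0, 0, 0, 0, 0, 0, 0],
    [11, 11, 23, 7, 1, 1, 29, 13, 0, 0, 0, 0, 0, 0, 0, 0, 0],
    [11, 14, 3, 8, 22, 20, 30, 8, 31, 14, 31, 0, 0, 0, 0, 0, 0],
    [11, 14, 13, 4, 21, 14, 19, 0, 0, 0, 0, 0, 0, 0, 0, 0, 0],
    [11, 19, 22, 30, 31, 15, 0, 0, 0, 0, 0, 0, 0, 0, 0, 0, 0],
    [11, 21, 14, 10, 23, 17, 0, 0, 0, 0, 0, 0, 0, 0, 0, 0, 0],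
    [12, 0, 24, 0, 28, 0, 0, 0, 0, 0, 0, 0, 0, 0, 0, 0, 0],
    [12, 12, 24, 24, 28, 28, 0, 0, 0, 0, 0, 0, 0, 0, 0, 0, 0],
    [12, 16, 8, 16, 12, 0, 0, 0, 0, 0, 0, 0, 0, 0, 0, 0, 0],
    [12, 20, 24, 8, 28, 4, 0, 0, 0, 0, 0, 0, 0, 0, 0, 0, 0],
    [13, 3, 18, 22, 17, 23, 0, 0, 0, 0, 0, 0, 0, 0, 0, 0, 0],
    [13, 5, 26, 18, 25, 9, 0, 0, 0, 0, 0, 0, 0, 0, 0, 0, 0],
    [13, 18, 11, 28, 19, 18, 21, 0, 0, 0, 0, 0, 0, 0, 0, 0, 0],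
    [13, 19, 2, 6, 1, 23, 0, 0, 0, 0, 0, 0, 0, 0, 0, 0, 0],
    [13, 29, 1, 1, 7, 23, 11, 11, 0, 0, 0, 0, 0, 0, 0, 0, 0],
    [14, 8, 20, 8, 14, 0, 0, 0, 0, 0, 0, 0, 0, 0, 0, 0, 0],
    [14, 24, 4, 24, 30, 0, 0, 0, 0, 0, 0, 0, 0, 0, 0, 0, 0],
    [16, 0, 0, 0, 16, 0, 0, 0, 0, 0, 0, 0, 0, 0, 0, 0, 0],
    [17, 1, 2, 10, 13, 21, 0, 0, 0, 0, 0, 0, 0, 0, 0, 0, 0],
    [17, 7, 26, 30, 5, 11, 0, 0, 0, 0, 0, 0, 0, 0, 0, 0, 0],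
    [17, 23, 10, 14, 21, 11, 0, 0, 0, 0, 0, 0, 0, 0, 0, 0, 0],
    [18, 8, 28, 8, 2, 0, 0, 0, 0, 0, 0, 0, 0, 0, 0, 0, 0],
    [18, 24, 12, 24, 18, 0, 0, 0, 0, 0, 0, 0, 0, 0, 0, 0, 0],
    [19, 3, 6, 30, 7, 31, 0, 0, 0, 0, 0, 0, 0, 0, 0, 0, 0],
    [19, 5, 30, 10, 31, 1, 0, 0, 0, 0, 0, 0, 0, 0, 0, 0, 0],
    [19, 21, 14, 26, 15, 1, 0, 0, 0, 0, 0, 0, 0, 0, 0, 0, 0],
    [20, 0, 8, 0, 4, 0, 0, 0, 0, 0, 0, 0, 0, 0, 0, 0, 0],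
    [20, 12, 8, 24, 4, 28, 0, 0, 0, 0, 0, 0, 0, 0, 0, 0, 0],
    [20, 16, 24, 16, 20, 0, 0, 0, 0, 0, 0, 0, 0, 0, 0, 0, 0],
    [20, 20, 8, 8, 4, 4, 0, 0, 0, 0, 0, 0, 0, 0, 0, 0, 0],
    [21, 3, 2, 22, 25, 23, 0, 0, 0, 0, 0, 0, 0, 0, 0, 0, 0],
    [21, 5, 10, 18, 1, 9, 0, 0, 0, 0, 0, 0, 0, 0, 0, 0, 0],
    [21, 19, 18, 6, 9, 23, 0, 0, 0, 0, 0, 0, 0, 0, 0, 0, 0],
    [22, 8, 4, 8, 22, 0, 0, 0, 0, 0, 0, 0, 0, 0, 0, 0, 0],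
    [22, 24, 20, 24, 6, 0, 0, 0, 0, 0, 0, 0, 0, 0, 0, 0, 0],
    [23, 1, 6, 2, 19, 13, 0, 0, 0, 0, 0, 0, 0, 0, 0, 0, 0],
    [23, 6, 1, 20, 9, 6, 31, 0, 0, 0, 0, 0, 0, 0, 0, 0, 0],
    [23, 7, 14, 6, 27, 19, 0, 0, 0, 0, 0, 0, 0, 0, 0, 0, 0],
    [23, 9, 6, 18, 19, 21, 0, 0, 0, 0, 0, 0, 0, 0, 0, 0, 0],
    [23, 17, 22, 18, 3, 13, 0, 0, 0, 0, 0, 0, 0, 0, 0, 0, 0],
    [23, 23, 19, 3, 5, 5, 17, 1, 0, 0, 0, 0, 0, 0, 0, 0, 0],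
    [23, 25, 22, 2, 3, 21, 0, 0, 0, 0, 0, 0, 0, 0, 0, 0, 0],
    [23, 31, 14, 22, 27, 11, 0, 0, 0, 0, 0, 0, 0, 0, 0, 0, 0],
    [24, 0, 16, 0, 24, 0, 0, 0, 0, 0, 0, 0, 0, 0, 0, 0, 0],
    [26, 8, 12, 8, 10, 0, 0, 0, 0, 0, 0, 0, 0, 0, 0, 0, 0],
    [26, 24, 28, 24, 26, 0, 0, 0, 0, 0, 0, 0, 0, 0, 0, 0, 0],
    [28, 0, 24, 0, 12, 0, 0, 0, 0, 0, 0, 0, 0, 0, 0, 0, 0],
    [28, 4, 24, 8, 12, 20, 0, 0, 0, 0, 0, 0, 0, 0, 0, 0, 0],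
    [28, 16, 8, 16, 28, 0, 0, 0, 0, 0, 0, 0, 0, 0, 0, 0, 0],
    [28, 28, 24, 24, 12, 12, 0, 0, 0, 0, 0, 0, 0, 0, 0, 0, 0],
    [30, 8, 20, 8, 30, 0, 0, 0, 0, 0, 0, 0, 0, 0, 0, 0, 0],
    [30, 24, 4, 24, 14, 0, 0, 0, 0, 0, 0, 0, 0, 0, 0, 0, 0]]

lemma hT : ∀ p ∈ T, p.length + 5 ≤ 2 * 17 ∧ ∀ r < 2, nxt 32 17 5 p r ∈ T := by decide +kernel

lemma hT2 : ∀ p ∈ T, p.getD 0 0 % 32 ≠ 0 := by decide +kernel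

lemma main (n : ℕ) : ¬ (2 : ℤ) ^ 5 ∣
    coeff n (∏ i ∈ Finset.range (n + 1), invOfUnit (1 - X ^ (2 ^ i) : ℤ⟦X⟧) 1 ^ 11) := by
  obtain ⟨F, hF, hS⟩ := exF 0 11
  have h1 := cong F 0 11 16 5 4 hF (by norm_num) (by norm_num) n
  obtain ⟨p, hp, h2⟩ := aut 32 17 5 T hT n (itr 16 [1]) (by simp [T])
  have h3 := hT2 p hp
  have h4 := hS n
  rw [pow_zero, one_mul] at h4
  rw [h4]
  norm_num at h1 ⊢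
  omega

lemma geo_eq (d : ℕ) (hd : d ≠ 0) :
    PowerSeries.map (Nat.castRingHom ℤ) (PowerSeries.mk fun j : ℕ => if d ∣ j then (1 : ℕ) else 0)
      = invOfUnit (1 - X ^ d : ℤ⟦X⟧) 1 := by
  have h1 : PowerSeries.map (Nat.castRingHom ℤ)
      (PowerSeries.mk fun j : ℕ => if d ∣ j then (1 : ℕ) else 0) * (1 - X ^ d) = 1 := by
    ext n
    rw [mul_sub, mul_one, map_sub, coeff_mul_X_pow', coeff_one]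
    simp only [coeff_map, coeff_mk]
    by_cases h0 : n = 0
    · subst h0
      have : ¬ d ≤ 0 := by omega
      simp [this]
    · rw [if_neg h0]
      by_cases h : d ≤ n
      · rw [if_pos h]
        have : d ∣ n - d ↔ d ∣ n := by
          constructor
          · intro h2
            have := dvd_add h2 (dvd_refl d)
            rwa [Nat.sub_add_cancel h] at this
          · intro h2; exact Nat.dvd_sub h2 (dvd_refl d)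
        simp [this]
      · rw [if_neg h, if_neg (fun h2 => h (Nat.le_of_dvd (by omega) h2))]
        simp
  have h2 := inv_mul d hd
  linear_combination (invOfUnit (1 - X ^ d : ℤ⟦X⟧) 1) * h1 - (PowerSeries.map (Nat.castRingHom ℤ)
      (PowerSeries.mk fun j : ℕ => if d ∣ j then (1 : ℕ) else 0)) * h2

theorem nat_main (n : ℕ) : ¬ 2 ^ 5 ∣ PowerSeries.coeff n ((∏ i ∈ Finset.range (n + 1),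
    PowerSeries.mk (fun j : ℕ => if 2 ^ i ∣ j then (1 : ℕ) else 0)) ^ 11) := by
  intro h
  apply main n
  have e : (∏ i ∈ Finset.range (n + 1), invOfUnit (1 - X ^ (2 ^ i) : ℤ⟦X⟧) 1 ^ 11)
      = PowerSeries.map (Nat.castRingHom ℤ) ((∏ i ∈ Finset.range (n + 1),
        PowerSeries.mk (fun j : ℕ => if 2 ^ i ∣ j then (1 : ℕ) else 0)) ^ 11) := by
    rw [map_pow, map_prod, ← Finset.prod_pow]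
    refine Finset.prod_congr rfl fun i _ => ?_
    rw [geo_eq _ (by positivity)]
  rw [e, coeff_map]
  have h2 := Int.natCast_dvd_natCast.2 h
  rw [Nat.cast_pow, Nat.cast_ofNat] at h2
  exact h2

end Pool.Agent.Lib.H8.Bin11
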