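import Pool.Agent.Lib.H8.Col4b

set_option maxHeartbeats 400000

namespace Pool.Agent.Lib.H8.Bin2
open PowerSeries
open Pool.Agent.Lib.H8.Col4 (ofL coeff_ofL sub1 itr ofL_itr len_itr dvd_iff C2 one_add_pow
  coeff_nat_mul coeff_pow2_mul)

noncomputable def ex : ℤ⟦X⟧ →ₐ[ℤ] ℤ⟦X⟧ := PowerSeries.expand 2 (by norm_num)

lemma ex_X : ex X = X ^ 2 := PowerSeries.expand_X 2 (by norm_num)

lemma coeff_ex (h : ℤ⟦X⟧) (n : ℕ) : coeff n (ex h) = if 2 ∣ n then coeff (n / 2) h else 0 :=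
  PowerSeries.coeff_expand 2 (by norm_num) h

lemma cx (h : ℤ⟦X⟧) (n r s : ℕ) (hr : r < 2) (hs : s < 2) :
    coeff (2 * n + r) (X ^ s * ex h) = if s = r then coeff n h else 0 := by
  rw [coeff_X_pow_mul', coeff_ex]
  by_cases h1 : s = r
  · subst h1
    have e : 2 * n + s - s = 2 * n := by omega
    simp [e]
  · rw [if_neg h1]
    split_ifs with h2 h3
    · exfalso; omega
    · rfl
    · rfl

noncomputable def sec (r : ℕ) (p : ℤ⟦X⟧) : ℤ⟦X⟧ := PowerSeries.mk fun n => coeff (2 * n + r) p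

lemma decomp (p : ℤ⟦X⟧) : p = X ^ 0 * ex (sec 0 p) + X ^ 1 * ex (sec 1 p) := by
  ext n
  obtain ⟨q, r, hr, rfl⟩ : ∃ q r, r < 2 ∧ n = 2 * q + r :=
    ⟨n / 2, n % 2, Nat.mod_lt _ (by norm_num), by omega⟩
  simp only [map_add]
  rw [cx _ _ _ _ hr (by norm_num), cx _ _ _ _ hr (by norm_num)]
  interval_cases r <;> simp [sec]

lemma coeff_mul_ex (p g : ℤ⟦X⟧) (n r : ℕ) (hr : r < 2) :
    coeff (2 * n + r) (p * ex g) = coeff n (sec r p * g) := by
  have e : p * ex g = X ^ 0 * ex (sec 0 p * g) + X ^ 1 * ex (sec 1 p * g) := by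
    conv_lhs => rw [decomp p]
    simp only [map_mul]; ring
  rw [e]
  simp only [map_add]
  rw [cx _ _ _ _ hr (by norm_num), cx _ _ _ _ hr (by norm_num)]
  interval_cases r <;> simp

def c (r : ℕ) : ℤ := if r = 0 then 1 else -1

def t (n : ℕ) : ℤ := if _h : n = 0 then 1 else c (n % 2) * t (n / 2)
decreasing_by omega

lemma t_zero : t 0 = 1 := by rw [t]; simp

lemma t_rec (q r : ℕ) (hr : r < 2) : t (2 * q + r) = c r * t q := by
  by_cases h : 2 * q + r = 0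
  · have h1 : q = 0 := by omega
    have h2 : r = 0 := by omega
    subst h1 h2; simp [c]
  · rw [t, dif_neg h]
    have e1 : (2 * q + r) % 2 = r := by omega
    have e2 : (2 * q + r) / 2 = q := by omega
    rw [e1, e2]

lemma t_odd (n : ℕ) : t n % 2 = 1 := by
  induction n using Nat.strong_induction_on with
  | _ n ih =>
    by_cases h : n = 0
    · subst h; rw [t_zero]; rfl
    · obtain ⟨q, r, hr, rfl⟩ : ∃ q r, r < 2 ∧ n = 2 * q + r :=
        ⟨n / 2, n % 2, Nat.mod_lt _ (by norm_num), by omega⟩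
      have := ih q (by omega)
      rw [t_rec q r hr]
      interval_cases r <;> simp [c] <;> omega

noncomputable def W : ℤ⟦X⟧ := PowerSeries.mk t

lemma W_eq : W = (1 - X) * ex W := by
  have e : (1 - X : ℤ⟦X⟧) = ofL [1, -1] := by
    simp only [ofL, map_neg, map_one]; ring
  ext n
  obtain ⟨q, r, hr, rfl⟩ : ∃ q r, r < 2 ∧ n = 2 * q + r :=
    ⟨n / 2, n % 2, Nat.mod_lt _ (by norm_num), by omega⟩
  rw [coeff_mul_ex _ _ _ _ hr]
  have e2 : sec r (1 - X) = C (c r) := by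
    ext k
    rw [e, sec, coeff_mk, coeff_ofL, coeff_C]
    cases k with
    | zero => interval_cases r <;> simp [c]
    | succ k =>
      rw [List.getD_eq_default _ _ (by simp; omega)]; simp
  rw [e2, coeff_C_mul, W, coeff_mk, coeff_mk, t_rec q r hr]

def nxt (N : ℤ) (L D : ℕ) (p : List ℤ) (r : ℕ) : List ℤ :=
  (List.range L).map fun n => (itr D p).getD (2 * n + r) 0 % N

lemma step (N : ℤ) (L D : ℕ) (p : List ℤ) (hp : p.length + D ≤ 2 * L) (n r : ℕ) (hr : r < 2) :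
    N ∣ coeff (2 * n + r) (ofL p * W ^ D) - coeff n (ofL (nxt N L D p r) * W ^ D) := by
  have e : ofL p * W ^ D = ofL (itr D p) * ex (W ^ D) := by
    conv_lhs => rw [W_eq]
    rw [ofL_itr, map_pow, mul_pow]; ring
  rw [e, coeff_mul_ex _ _ _ _ hr, ← map_sub, ← sub_mul]
  refine (dvd_iff N _).1 (Dvd.dvd.mul_right ((dvd_iff N _).2 fun k => ?_) _) n
  rw [map_sub, sec, coeff_mk, coeff_ofL, coeff_ofL]
  by_cases hk : k < L
  · have : (nxt N L D p r).getD k 0 = (itr D p).getD (2 * k + r) 0 % N := by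
      simp [nxt, List.getD_eq_getElem?_getD, hk]
    rw [this]
    exact Int.dvd_self_sub_emod
  · rw [List.getD_eq_default _ _ (by rw [len_itr]; omega),
      List.getD_eq_default _ _ (by simp [nxt]; omega)]
    simp

lemma W0 : constantCoeff W = 1 := by simp [W, t_zero]

lemma coeff0_W (D : ℕ) (p : List ℤ) : coeff 0 (ofL p * W ^ D) = p.getD 0 0 := by
  rw [← coeff_ofL]
  simp [W0]

lemma aut (N : ℤ) (L D : ℕ) (T : List (List ℤ))
    (hT : ∀ p ∈ T, p.length + D ≤ 2 * L ∧ ∀ r < 2, nxt N L D p r ∈ T) (n : ℕ) :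
    ∀ p ∈ T, ∃ p' ∈ T, N ∣ coeff n (ofL p * W ^ D) - p'.getD 0 0 := by
  induction n using Nat.strong_induction_on with
  | _ n ih =>
    intro p hp
    by_cases h : n = 0
    · subst h
      exact ⟨p, hp, by rw [coeff0_W]; simp⟩
    · obtain ⟨q, r, hr, rfl⟩ : ∃ q r, r < 2 ∧ n = 2 * q + r :=
        ⟨n / 2, n % 2, Nat.mod_lt _ (by norm_num), by omega⟩
      obtain ⟨p', hp', h2⟩ := ih q (by omega) _ ((hT p hp).2 r hr)
      refine ⟨p', hp', ?_⟩
      have := dvd_add (step N L D p (hT p hp).1 q r hr) h2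
      simpa using this

noncomputable def Phi : ℤ⟦X⟧ := (1 - X) * W

lemma coeff_Phi (n : ℕ) : coeff (n + 1) Phi = t (n + 1) - t n := by
  rw [Phi, sub_mul, one_mul, map_sub, coeff_succ_X_mul, W, coeff_mk, coeff_mk]

lemma Phi0 : constantCoeff Phi = 1 := by simp [Phi, W0]

lemma Phi_odd : ∃ h : ℤ⟦X⟧, Phi = 1 + 2 * h := by
  have : C (2 : ℤ) ∣ Phi - 1 := by
    rw [dvd_iff]
    intro n
    cases n with
    | zero => simp [Phi0]
    | succ n =>
      rw [map_sub, coeff_Phi, coeff_one, if_neg (by omega)]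
      have := t_odd n
      have := t_odd (n + 1)
      omega
  obtain ⟨h, hh⟩ := this
  exact ⟨h, by rw [← C2, ← hh]; ring⟩

lemma Phi_two_pow (j : ℕ) : ∃ h : ℤ⟦X⟧, Phi ^ (2 ^ j) = 1 + 2 ^ (j + 1) * h := by
  induction j with
  | zero => simpa using Phi_odd
  | succ j ih =>
    obtain ⟨h, hh⟩ := ih
    refine ⟨h + 2 ^ j * h ^ 2, ?_⟩
    rw [pow_succ 2 j, pow_mul, hh]; ring

lemma F_odd (F : ℤ⟦X⟧) (m : ℕ) (hF : F * Phi ^ m = 1) : ∃ h, F = 1 + 2 * h := by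
  obtain ⟨u, hu⟩ := Phi_odd
  obtain ⟨z, hz⟩ := one_add_pow 2 u m
  rw [hu, hz] at hF
  exact ⟨-(F * (m * u + 2 * z)), by linear_combination hF⟩

lemma W_prod (k : ℕ) : ∃ E : ℤ⟦X⟧, X ^ (2 ^ k) ∣ E - 1 ∧
    W = (∏ i ∈ Finset.range k, (1 - X ^ (2 ^ i))) * E := by
  induction k with
  | zero =>
    refine ⟨W, ?_, by simp⟩
    rw [X_pow_dvd_iff]
    intro n hn
    have : n = 0 := by omega
    subst this
    simp [W, t_zero]
  | succ k ih =>
    obtain ⟨E, h1, h2⟩ := ih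
    refine ⟨ex E, ?_, ?_⟩
    · have := map_dvd ex h1
      rw [map_pow, ex_X, ← pow_mul, map_sub, map_one] at this
      rwa [pow_succ, mul_comm]
    · rw [Finset.prod_range_succ']
      conv_lhs => rw [W_eq, h2]
      simp only [map_mul, map_prod, map_pow, map_sub, map_one, ex_X, ← pow_mul, pow_zero, pow_one]
      have : ∀ i, 2 * 2 ^ i = 2 ^ (i + 1) := fun i => by ring
      simp only [this]; ring

lemma inv_mul (d : ℕ) (hd : d ≠ 0) : invOfUnit (1 - X ^ d : ℤ⟦X⟧) 1 * (1 - X ^ d) = 1 := by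
  rw [mul_comm]
  exact mul_invOfUnit _ _ (by simp [hd])

lemma exF (a m : ℕ) : ∃ F : ℤ⟦X⟧, F * ((1 - X) ^ a * W ^ m) = 1 ∧ ∀ n,
    coeff n (invOfUnit (1 - X ^ 1 : ℤ⟦X⟧) 1 ^ a *
      ∏ i ∈ Finset.range (n + 1), invOfUnit (1 - X ^ (2 ^ i) : ℤ⟦X⟧) 1 ^ m) = coeff n F := by
  have hF : invOfUnit ((1 - X) ^ a * W ^ m) 1 * ((1 - X) ^ a * W ^ m) = 1 := by
    rw [mul_comm]
    exact mul_invOfUnit _ _ (by simp [W0])
  refine ⟨_, hF, fun n => ?_⟩
  generalize invOfUnit ((1 - X) ^ a * W ^ m) 1 = F at hF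
  obtain ⟨E, h1, h2⟩ := W_prod (n + 1)
  have hI : (invOfUnit (1 - X ^ 1 : ℤ⟦X⟧) 1 ^ a *
      ∏ i ∈ Finset.range (n + 1), invOfUnit (1 - X ^ (2 ^ i) : ℤ⟦X⟧) 1 ^ m) *
      ((1 - X) ^ a * W ^ m) = E ^ m := by
    rw [h2]
    have a1 : invOfUnit (1 - X ^ 1 : ℤ⟦X⟧) 1 * (1 - X) = 1 := by
      simpa using inv_mul 1 one_ne_zero
    have a2 : (∏ i ∈ Finset.range (n + 1), invOfUnit (1 - X ^ (2 ^ i) : ℤ⟦X⟧) 1 ^ m) *
        (∏ i ∈ Finset.range (n + 1), (1 - X ^ (2 ^ i))) ^ m = 1 := by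
      rw [← Finset.prod_pow, ← Finset.prod_mul_distrib]
      refine Finset.prod_eq_one fun i _ => ?_
      rw [← mul_pow, inv_mul _ (by positivity), one_pow]
    calc _ = (invOfUnit (1 - X ^ 1 : ℤ⟦X⟧) 1 * (1 - X)) ^ a *
        ((∏ i ∈ Finset.range (n + 1), invOfUnit (1 - X ^ (2 ^ i) : ℤ⟦X⟧) 1 ^ m) *
        (∏ i ∈ Finset.range (n + 1), (1 - X ^ (2 ^ i))) ^ m) * E ^ m := by
          simp only [mul_pow]; ring
      _ = E ^ m := by rw [a1, a2]; simp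
  generalize (invOfUnit (1 - X ^ 1 : ℤ⟦X⟧) 1 ^ a *
      ∏ i ∈ Finset.range (n + 1), invOfUnit (1 - X ^ (2 ^ i) : ℤ⟦X⟧) 1 ^ m) = I at hI
  have h3 : X ^ (2 ^ (n + 1)) ∣ I - F := by
    have e : I - F = (E ^ m - 1 ^ m) * F := by
      linear_combination F * hI - I * hF
    rw [e]
    exact (h1.trans (sub_dvd_pow_sub_pow E 1 m)).mul_right _
  have h4 := X_pow_dvd_iff.1 h3 n
    ((Nat.lt_succ_self n).trans (Nat.lt_pow_self (by norm_num)))
  rw [map_sub] at h4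
  linarith

lemma cong (F : ℤ⟦X⟧) (a m b D j : ℕ) (hF : F * ((1 - X) ^ a * W ^ m) = 1)
    (h : m + D = 2 ^ j) (h' : a + b = 2 ^ j) (n : ℕ) :
    (2 : ℤ) ^ (j + 1) ∣ coeff n F - coeff n (ofL (itr b [1]) * W ^ D) := by
  obtain ⟨u, hu⟩ := Phi_two_pow j
  have e : F * Phi ^ (2 ^ j) = ofL (itr b [1]) * W ^ D := by
    rw [Phi, mul_pow]
    nth_rewrite 1 [← h']
    rw [← h, ofL_itr]
    have : ofL [1] = 1 := by simp [ofL]
    rw [this]
    linear_combination ((1 - X) ^ b * W ^ D) * hF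
  rw [hu] at e
  rw [← map_sub]
  refine (dvd_iff _ _).1 ⟨-(F * u), ?_⟩ n
  rw [map_pow, C2, ← e]; ring

end Pool.Agent.Lib.H8.Bin2
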