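import Pool.Agent.Lib.H8.Bin2

set_option maxHeartbeats 400000

namespace Pool.Agent.Lib.H8.Bin2
open PowerSeries
open Pool.Agent.Lib.H8.Col4 (dvd_iff C2 one_add_pow coeff_nat_mul coeff_pow2_mul)

noncomputable def U : ℤ⟦X⟧ →+ ℤ⟦X⟧ where
  toFun := sec 0
  map_zero' := by ext n; simp [sec]
  map_add' a b := by ext n; simp [sec]

lemma coeff_U (f : ℤ⟦X⟧) (n : ℕ) : coeff n (U f) = coeff (2 * n) f := by
  simp [U, sec]

lemma U_mul_ex (p g : ℤ⟦X⟧) : U (p * ex g) = U p * g := by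
  ext n
  rw [coeff_U]
  exact coeff_mul_ex p g n 0 (by norm_num)

lemma U_split (a b : ℤ⟦X⟧) : U (ex a + X * ex b) = a := by
  ext n
  have h0 := cx a n 0 0 (by norm_num) (by norm_num)
  have h1 := cx b n 0 1 (by norm_num) (by norm_num)
  simp only [pow_zero, one_mul, pow_one, add_zero] at h0 h1
  rw [coeff_U, map_add, h0, h1]; simp

lemma coeff_iter (j : ℕ) (f : ℤ⟦X⟧) (n : ℕ) : coeff n (U^[j] f) = coeff (2 ^ j * n) f := by
  induction j generalizing n with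
  | zero => simp
  | succ j ih => rw [Function.iterate_succ_apply', coeff_U, ih]; congr 1; ring

noncomputable def xi : ℤ⟦X⟧ := PowerSeries.mk 1
lemma hxi : xi * (1 - X) = 1 := mk_one_mul_one_sub_eq_one ℤ
lemma hze : ex xi * (1 - X ^ 2) = 1 := by
  have := congrArg ex hxi
  rwa [map_mul, map_sub, map_one, ex_X] at this
lemma xi_eq : xi = (1 + X) * ex xi := by
  linear_combination (-xi) * hze + ((1 + X) * ex xi) * hxi

noncomputable def y : ℤ⟦X⟧ := (1 + X) * xi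
noncomputable def w : ℤ⟦X⟧ := X * xi ^ 2

lemma hy : y * y = 1 + 4 * w := by
  unfold y w
  linear_combination (1 + xi * (1 - X)) * hxi

lemma ex_y : ex y = (1 + X ^ 2) * ex xi := by simp [y, ex_X]
lemma ex_w : ex w = X ^ 2 * ex xi ^ 2 := by simp [w, ex_X]

lemma y_quad : y * y = 2 * y * ex y - 1 := by
  rw [ex_y]
  unfold y
  conv_lhs => rw [xi_eq]
  conv_rhs => rw [xi_eq]
  have e : ex ((1 + X) * ex xi) = ex xi := by rw [← xi_eq]
  simp only [e]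
  linear_combination (-(1 + ex xi * (1 - X ^ 2))) * hze

lemma w_sq : w * w = y * y * ex w := by
  rw [ex_w]
  unfold y w
  have := xi_eq
  linear_combination (X ^ 2 * xi ^ 2 * (xi + (1 + X) * ex xi)) * this

lemma U_one : U 1 = 1 := by simpa using U_split 1 0

lemma U_y : U y = y := by
  have : y = ex ((1 + X) * xi) + X * ex (2 * xi) := by
    simp only [map_mul, map_add, map_one, ex_X, map_ofNat]
    unfold y
    linear_combination (1 + X) * xi_eq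
  conv_lhs => rw [this]
  rw [U_split]; rfl

lemma w_split : w = ex (2 * w) + X * ex ((1 + X) * xi ^ 2) := by
  simp only [map_mul, map_add, map_one, ex_X, map_ofNat, ex_w, map_pow]
  unfold w
  linear_combination (X * (xi + (1 + X) * ex xi)) * xi_eq

lemma U_w : U w = 2 * w := by
  conv_lhs => rw [w_split]
  rw [U_split]

lemma U_wy : U (w * y) = 4 * w * y := by
  have : w * y = ex (4 * w * y) + X * ex ((1 + 6 * X + X ^ 2) * xi ^ 3) := by
    simp only [map_mul, map_add, map_one, ex_X, map_ofNat, ex_w, ex_y, map_pow]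
    unfold w y
    linear_combination (X * (1 + X) * (xi ^ 2 + xi * ((1 + X) * ex xi) + ((1 + X) * ex xi) ^ 2))
      * xi_eq
  conv_lhs => rw [this]
  rw [U_split]

noncomputable def tv : ℕ → ℤ⟦X⟧ × ℤ⟦X⟧
  | 0 => (1, 0)
  | n + 1 => (y * (tv n).1 + 4 * w * (tv n).2, (tv n).1 + y * (tv n).2)

noncomputable def tt (n : ℕ) : ℤ⟦X⟧ := (tv n).1
noncomputable def vv (n : ℕ) : ℤ⟦X⟧ := (tv n).2

lemma tt0 : tt 0 = 1 := rfl
lemma vv0 : vv 0 = 0 := rfl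
lemma tt_s (n : ℕ) : tt (n + 1) = y * tt n + 4 * w * vv n := rfl
lemma vv_s (n : ℕ) : vv (n + 1) = tt n + y * vv n := rfl
lemma tt1 : tt 1 = y := by rw [tt_s, tt0, vv0]; ring
lemma vv1 : vv 1 = 1 := by rw [vv_s, tt0, vv0]; ring
lemma vv2 : vv 2 = 2 * y := by rw [vv_s, tt1, vv1]; ring

lemma tt_rec (n : ℕ) : tt (n + 2) = 2 * y * tt (n + 1) - tt n := by
  rw [tt_s (n + 1), vv_s, tt_s]
  linear_combination (- tt n) * hy

lemma vv_rec (n : ℕ) : vv (n + 2) = 2 * y * vv (n + 1) - vv n := by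
  rw [vv_s (n + 1), vv_s, tt_s]
  linear_combination (- vv n) * hy

lemma U_rec (f : ℤ⟦X⟧) : U (f * (y * y)) = 2 * y * U (f * y) - U f := by
  have : f * (y * y) = (f * y) * ex (2 * y) - f := by
    rw [y_quad, map_mul, map_ofNat]; ring
  rw [this, map_sub, U_mul_ex]; ring

lemma U_pow (c : ℕ) : U (y ^ c) = tt c := by
  induction c using Nat.twoStepInduction with
  | zero => rw [pow_zero, U_one, tt0]
  | one => rw [pow_one, U_y, tt1]
  | more c h0 h1 =>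
    rw [show y ^ (c + 2) = y ^ c * (y * y) by ring, U_rec, ← pow_succ, h0, h1, tt_rec]

lemma U_wpow (c : ℕ) : U (w * y ^ c) = 2 * w * vv (c + 1) := by
  induction c using Nat.twoStepInduction with
  | zero => rw [pow_zero, mul_one, U_w, vv1, mul_one]
  | one => rw [pow_one, U_wy, vv2]; ring
  | more c h0 h1 =>
    rw [show w * y ^ (c + 2) = w * y ^ c * (y * y) by ring, U_rec, mul_assoc w, ← pow_succ, h0, h1,
      vv_rec (c + 1)]
    ring

lemma U_even (l a : ℕ) : U (w ^ (2 * l) * y ^ a) = w ^ l * tt (a + 2 * l) := by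
  have : w ^ (2 * l) * y ^ a = y ^ (a + 2 * l) * ex (w ^ l) := by
    rw [pow_mul, pow_two, w_sq, map_pow]; ring
  rw [this, U_mul_ex, U_pow]; ring

lemma U_odd (l a : ℕ) : U (w ^ (2 * l + 1) * y ^ a) = 2 * w ^ (l + 1) * vv (a + 2 * l + 1) := by
  have : w ^ (2 * l + 1) * y ^ a = w * y ^ (a + 2 * l) * ex (w ^ l) := by
    rw [pow_succ, pow_mul, pow_two, w_sq, map_pow]; ring
  rw [this, U_mul_ex, U_wpow]; ring

lemma U_const (k : ℤ) (f : ℤ⟦X⟧) : U ((k : ℤ⟦X⟧) * f) = k * U f := by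
  have : (k : ℤ⟦X⟧) * f = f * ex k := by rw [map_intCast]; ring
  rw [this, U_mul_ex]; ring

lemma U_pow2 (k : ℕ) (f : ℤ⟦X⟧) : U (2 ^ k * f) = 2 ^ k * U f := by
  have := U_const (2 ^ k) f
  push_cast at this; exact this

lemma F_eq (F : ℤ⟦X⟧) (m : ℕ) (hF : F * Phi ^ m = 1) : F = y ^ m * ex F := by
  have h1 : ex Phi = y * Phi := by
    unfold Phi y
    rw [map_mul, map_sub, map_one, ex_X]
    conv_rhs => rw [W_eq]
    linear_combination (-(1 + X) * (1 - X) * ex W) * hxi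
  have h2 := congrArg ex hF
  rw [map_mul, map_pow, h1, map_one, mul_pow] at h2
  linear_combination (-F) * h2 + (y ^ m * ex F) * hF

lemma U_F (F : ℤ⟦X⟧) (m : ℕ) (hF : F * Phi ^ m = 1) (g : ℤ⟦X⟧) :
    U (g * F) = U (g * y ^ m) * F := by
  conv_lhs => rw [F_eq F m hF, ← mul_assoc, U_mul_ex]

/-! the module M -/
def M : AddSubgroup ℤ⟦X⟧ := AddSubgroup.closure {f | ∃ i a : ℕ, f = 2 ^ i * w ^ (i + 1) * y ^ a}

lemma M_gen (i a : ℕ) : 2 ^ i * w ^ (i + 1) * y ^ a ∈ M := AddSubgroup.subset_closure ⟨i, a, rfl⟩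

lemma M_y {f : ℤ⟦X⟧} (hf : f ∈ M) : f * y ∈ M := by
  induction hf using AddSubgroup.closure_induction with
  | mem f h => obtain ⟨i, a, rfl⟩ := h; rw [mul_assoc, ← pow_succ]; exact M_gen _ _
  | zero => rw [zero_mul]; exact M.zero_mem
  | add a b _ _ h1 h2 => rw [add_mul]; exact M.add_mem h1 h2
  | neg a _ h1 => rw [neg_mul]; exact M.neg_mem h1

lemma M_ypow {f : ℤ⟦X⟧} (hf : f ∈ M) (a : ℕ) : f * y ^ a ∈ M := by
  induction a with
  | zero => simpa using hf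
  | succ a ih => rw [pow_succ, ← mul_assoc]; exact M_y ih

lemma M_int {f : ℤ⟦X⟧} (hf : f ∈ M) (k : ℤ) : (k : ℤ⟦X⟧) * f ∈ M := by
  rw [← zsmul_eq_mul]; exact M.zsmul_mem hf k

lemma M_pow2 {f : ℤ⟦X⟧} (hf : f ∈ M) (k : ℕ) : 2 ^ k * f ∈ M := by
  have := M_int hf (2 ^ k)
  push_cast at this; exact this

lemma M_tt {f : ℤ⟦X⟧} (hf : f ∈ M) (c : ℕ) : f * tt c ∈ M := by
  induction c using Nat.twoStepInduction with
  | zero => simpa [tt0] using hf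
  | one => rw [tt1]; exact M_y hf
  | more c h0 h1 =>
    have : f * tt (c + 2) = f * tt (c + 1) * y + f * tt (c + 1) * y - f * tt c := by
      rw [tt_rec]; ring
    rw [this]; exact M.sub_mem (M.add_mem (M_y h1) (M_y h1)) h0

lemma M_vv {f : ℤ⟦X⟧} (hf : f ∈ M) (c : ℕ) : f * vv c ∈ M := by
  induction c using Nat.twoStepInduction with
  | zero => rw [vv0, mul_zero]; exact M.zero_mem
  | one => rw [vv1, mul_one]; exact hf
  | more c h0 h1 =>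
    have : f * vv (c + 2) = f * vv (c + 1) * y + f * vv (c + 1) * y - f * vv c := by
      rw [vv_rec]; ring
    rw [this]; exact M.sub_mem (M.add_mem (M_y h1) (M_y h1)) h0

lemma M_U {f : ℤ⟦X⟧} (hf : f ∈ M) : ∃ g ∈ M, U f = 2 * g := by
  induction hf using AddSubgroup.closure_induction with
  | mem f h =>
    obtain ⟨i, a, rfl⟩ := h
    have hg : ∀ l, 2 ^ l * w ^ (l + 1) ∈ M := fun l => by simpa using M_gen l 0
    rcases Nat.even_or_odd' i with ⟨l, rfl | rfl⟩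
    · refine ⟨_, M_pow2 (M_vv (hg l) (a + 2 * l + 1)) l, ?_⟩
      rw [mul_assoc, U_pow2, U_odd]; ring
    · refine ⟨_, M_pow2 (M_tt (hg l) (a + 2 * (l + 1))) l, ?_⟩
      rw [mul_assoc, U_pow2, show 2 * l + 1 + 1 = 2 * (l + 1) by ring, U_even]; ring
  | zero => exact ⟨0, M.zero_mem, by simp⟩
  | add a b _ _ h1 h2 =>
    obtain ⟨g1, k1, e1⟩ := h1
    obtain ⟨g2, k2, e2⟩ := h2
    exact ⟨g1 + g2, M.add_mem k1 k2, by rw [map_add, e1, e2]; ring⟩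
  | neg a _ h1 =>
    obtain ⟨g1, k1, e1⟩ := h1
    exact ⟨-g1, M.neg_mem k1, by rw [map_neg, e1]; ring⟩

lemma M_iter (F : ℤ⟦X⟧) (m : ℕ) (hF : F * Phi ^ m = 1) (e : ℕ) {f : ℤ⟦X⟧} (hf : f ∈ M) (j : ℕ) :
    ∃ g ∈ M, U^[j] (2 ^ e * (f * F)) = 2 ^ (e + j) * (g * F) := by
  induction j with
  | zero => exact ⟨f, hf, rfl⟩
  | succ j ih =>
    obtain ⟨g, hg, h⟩ := ih
    obtain ⟨g', hg', h'⟩ := M_U (M_ypow hg m)
    refine ⟨g', hg', ?_⟩
    rw [Function.iterate_succ_apply', h, U_pow2, U_F F m hF, h']; ring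

lemma diff (F : ℤ⟦X⟧) (m : ℕ) (hF : F * Phi ^ m = 1) (n : ℕ) :
    coeff (4 * n) F - coeff n F = coeff n ((U (tt m * y ^ m) - 1) * F) := by
  have h1 := U_F F m hF 1
  rw [one_mul, one_mul, U_pow] at h1
  have h2 := U_F F m hF (tt m)
  rw [sub_mul, one_mul, ← h2, ← h1, map_sub, coeff_U, coeff_U]
  congr 2; ring

/-! even case -/
noncomputable def E : Subalgebra ℤ ℤ⟦X⟧ := (Polynomial.aeval (4 * w)).range

lemma E_s : 4 * w ∈ E := ⟨Polynomial.X, Polynomial.aeval_X _⟩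

lemma E_ind (p : ℤ⟦X⟧ → Prop) (h1 : ∀ a b, p a → p b → p (a + b))
    (h2 : ∀ (a : ℤ) (i : ℕ), p (a * (4 * w) ^ i)) {e : ℤ⟦X⟧} (he : e ∈ E) : p e := by
  obtain ⟨P, rfl⟩ := he
  induction P using Polynomial.induction_on' with
  | add a b ha hb => simpa using h1 _ _ ha hb
  | monomial i a => simpa [Polynomial.aeval_monomial] using h2 a i

lemma E_split {e : ℤ⟦X⟧} (he : e ∈ E) : ∃ c : ℤ, ∃ e2 ∈ E, e = c + 4 * w * e2 := by
  refine E_ind (fun e => ∃ c : ℤ, ∃ e2 ∈ E, e = c + 4 * w * e2) ?_ ?_ he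
  · rintro a b ⟨c1, e1, k1, rfl⟩ ⟨c2, e2, k2, rfl⟩
    exact ⟨c1 + c2, e1 + e2, E.add_mem k1 k2, by push_cast; ring⟩
  · intro a i
    cases i with
    | zero => exact ⟨a, 0, E.zero_mem, by ring⟩
    | succ i => exact ⟨0, a * (4 * w) ^ i, E.mul_mem (E.intCast_mem a) (E.pow_mem E_s i),
        by push_cast; ring⟩

lemma par (a : ℕ) : ∃ e1 ∈ E, ∃ e2 ∈ E, tt (2 * a) = 1 + 4 * w * e1 ∧
    vv (2 * a) = y * (2 * a + 4 * w * e2) := by
  induction a with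
  | zero => exact ⟨0, E.zero_mem, 0, E.zero_mem, by simp [tt0], by simp [vv0]⟩
  | succ a ih =>
    obtain ⟨e1, k1, e2, k2, h1, h2⟩ := ih
    have ha : (a : ℤ⟦X⟧) ∈ E := E.natCast_mem a
    have h2' : (2 : ℤ⟦X⟧) ∈ E := E.natCast_mem 2
    have hq : 2 * a + 4 * w * e2 ∈ E := E.add_mem (E.mul_mem h2' ha) (E.mul_mem E_s k2)
    refine ⟨2 + e1 + 2 * (4 * w) * e1 + 2 * (1 + 4 * w) * (2 * a + 4 * w * e2), ?_,
      2 * e1 + e2 + 2 * (2 * a + 4 * w * e2), ?_, ?_, ?_⟩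
    · exact E.add_mem (E.add_mem (E.add_mem h2' k1) (E.mul_mem (E.mul_mem h2' E_s) k1))
        (E.mul_mem (E.mul_mem h2' (E.add_mem E.one_mem E_s)) hq)
    · exact E.add_mem (E.add_mem (E.mul_mem h2' k1) k2) (E.mul_mem h2' hq)
    · rw [show 2 * (a + 1) = 2 * a + 1 + 1 by ring, tt_s, tt_s, vv_s, h1, h2]
      linear_combination (1 + 4 * w * e1 + 2 * (4 * w) * (2 * a + 4 * w * e2)) * hy
    · rw [show 2 * (a + 1) = 2 * a + 1 + 1 by ring, vv_s, tt_s, vv_s, h1, h2]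
      push_cast
      linear_combination (y * (2 * a + 4 * w * e2)) * hy

lemma E_tt (a : ℕ) : tt (2 * a) ∈ E := by
  obtain ⟨e1, k1, e2, k2, h1, h2⟩ := par a
  rw [h1]; exact E.add_mem E.one_mem (E.mul_mem E_s k1)

def J (f : ℤ⟦X⟧) : Prop := ∃ o : ℤ, o % 2 = 1 ∧ ∃ e ∈ E, f = o + 4 * w * e

lemma J_E {f : ℤ⟦X⟧} (h : J f) : f ∈ E := by
  obtain ⟨o, -, e, he, rfl⟩ := h
  exact E.add_mem (E.intCast_mem o) (E.mul_mem E_s he)

lemma J_mul {f g : ℤ⟦X⟧} (h : J f) (h' : J g) : J (f * g) := by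
  have hg := J_E h'
  obtain ⟨o, ho, e, he, rfl⟩ := h
  obtain ⟨o', ho', e', he', rfl⟩ := h'
  refine ⟨o * o', by rw [Int.mul_emod, ho, ho']; rfl, o * e' + e * (o' + 4 * w * e'),
    E.add_mem (E.mul_mem (E.intCast_mem o) he') (E.mul_mem he hg), by push_cast; ring⟩

lemma J_vv (a : ℕ) : J (vv (2 * a + 1)) := by
  obtain ⟨e1, k1, e2, k2, h1, h2⟩ := par a
  have ha : (a : ℤ⟦X⟧) ∈ E := E.natCast_mem a
  have h2' : (2 : ℤ⟦X⟧) ∈ E := E.natCast_mem 2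
  have hq : 2 * a + 4 * w * e2 ∈ E := E.add_mem (E.mul_mem h2' ha) (E.mul_mem E_s k2)
  refine ⟨2 * a + 1, by omega, e1 + e2 + (2 * a + 4 * w * e2), E.add_mem (E.add_mem k1 k2) hq, ?_⟩
  rw [vv_s, h1, h2]
  push_cast
  linear_combination (2 * a + 4 * w * e2) * hy

lemma norm (n : ℕ) : tt n ^ 2 = 1 + 4 * w * vv n ^ 2 := by
  induction n with
  | zero => simp [tt0, vv0]
  | succ n ih =>
    rw [tt_s, vv_s]
    linear_combination ih + (tt n ^ 2 - 4 * w * vv n ^ 2) * hy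

lemma addf (a b : ℕ) : tt (a + b) = tt a * tt b + 4 * w * vv a * vv b ∧
    vv (a + b) = tt a * vv b + vv a * tt b := by
  induction b with
  | zero => simp [tt0, vv0]
  | succ b ih =>
    rw [← add_assoc, tt_s (a + b), vv_s (a + b), tt_s b, vv_s b, ih.1, ih.2]
    constructor <;> ring

lemma vsq (a o : ℕ) : ∃ f, J f ∧ vv (2 ^ a * (2 * o + 1)) ^ 2 = 4 ^ a * f := by
  induction a with
  | zero => exact ⟨_, J_mul (J_vv o) (J_vv o), by simp [pow_two]⟩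
  | succ a ih =>
    obtain ⟨f, hf, h⟩ := ih
    have h4 : (4 : ℤ⟦X⟧) ∈ E := E.natCast_mem 4
    refine ⟨(1 + 4 * w * (4 ^ a * f)) * f, J_mul ⟨1, rfl, 4 ^ a * f,
      E.mul_mem (E.pow_mem h4 a) (J_E hf), by simp⟩ hf, ?_⟩
    rw [show 2 ^ (a + 1) * (2 * o + 1) = 2 ^ a * (2 * o + 1) + 2 ^ a * (2 * o + 1) by ring,
      (addf _ _).2]
    have := norm (2 ^ a * (2 * o + 1))
    rw [h] at this
    linear_combination (4 * vv (2 ^ a * (2 * o + 1)) ^ 2) * this + (4 * (1 + 4 * w * (4 ^ a * f))) * h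

lemma claimA {e : ℤ⟦X⟧} (he : e ∈ E) : ∃ e' ∈ E, U (4 * w ^ 2 * e) = 4 * w * e' := by
  refine E_ind (fun e => ∃ e' ∈ E, U (4 * w ^ 2 * e) = 4 * w * e') ?_ ?_ he
  · rintro a b ⟨e1, k1, h1⟩ ⟨e2, k2, h2⟩
    exact ⟨e1 + e2, E.add_mem k1 k2, by rw [mul_add, map_add, h1, h2]; ring⟩
  · intro a i
    have h4 : (4 : ℤ⟦X⟧) ∈ E := E.natCast_mem 4
    have h2 : (2 : ℤ⟦X⟧) ∈ E := E.natCast_mem 2
    rcases Nat.even_or_odd' i with ⟨l, rfl | rfl⟩
    · refine ⟨a * 4 ^ l * (4 * w) ^ l * tt (2 * (l + 1)), E.mul_mem (E.mul_mem (E.mul_mem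
        (E.intCast_mem a) (E.pow_mem h4 l)) (E.pow_mem E_s l)) (E_tt _), ?_⟩
      have : 4 * w ^ 2 * (a * (4 * w) ^ (2 * l))
          = ((a * 4 ^ (2 * l + 1) : ℤ) : ℤ⟦X⟧) * (w ^ (2 * (l + 1)) * y ^ 0) := by
        push_cast; ring
      rw [this, U_const, U_even, zero_add]; push_cast; ring
    · refine ⟨a * 4 ^ l * 2 * (4 * w) ^ (l + 1) * vv (2 * (l + 1) + 1), E.mul_mem (E.mul_mem
        (E.mul_mem (E.mul_mem (E.intCast_mem a) (E.pow_mem h4 l)) h2) (E.pow_mem E_s _))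
        (J_E (J_vv _)), ?_⟩
      have : 4 * w ^ 2 * (a * (4 * w) ^ (2 * l + 1))
          = ((a * 4 ^ (2 * l + 2) : ℤ) : ℤ⟦X⟧) * (w ^ (2 * (l + 1) + 1) * y ^ 0) := by
        push_cast; ring
      rw [this, U_const, U_odd, zero_add]; push_cast; ring

lemma E_y (k : ℕ) : y ^ (2 * k) ∈ E := by
  rw [pow_mul, pow_two, hy]
  exact E.pow_mem (E.add_mem E.one_mem E_s) k

lemma theta (k : ℕ) {f : ℤ⟦X⟧} (hf : J f) : ∃ g, J g ∧ U (w * f * y ^ (2 * k)) = 2 * (w * g) := by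
  obtain ⟨o, ho, e, he, rfl⟩ := hf
  obtain ⟨e', he', h1⟩ := claimA (E.mul_mem he (E_y k))
  obtain ⟨c, e2, he2, rfl⟩ := E_split he'
  obtain ⟨o', ho', e3, he3, h3⟩ := J_vv k
  have h2 : (2 : ℤ⟦X⟧) ∈ E := E.natCast_mem 2
  refine ⟨_, ⟨o * o' + 2 * c, by rw [Int.add_mul_emod_self_left, Int.mul_emod, ho, ho']; rfl,
    o * e3 + 2 * e2, E.add_mem (E.mul_mem (E.intCast_mem o) he3) (E.mul_mem h2 he2), rfl⟩, ?_⟩
  have : w * (o + 4 * w * e) * y ^ (2 * k) = o * (w * y ^ (2 * k)) + 4 * w ^ 2 * (e * y ^ (2 * k)) := by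
    ring
  rw [this, map_add, U_const, U_wpow, h1, h3]; push_cast; ring

lemma J_iter (F : ℤ⟦X⟧) (k : ℕ) (hF : F * Phi ^ (2 * k) = 1) (e : ℕ) {f : ℤ⟦X⟧} (hf : J f) (j : ℕ) :
    ∃ g, J g ∧ U^[j] (2 ^ e * (w * f * F)) = 2 ^ (e + j) * (w * g * F) := by
  induction j with
  | zero => exact ⟨f, hf, rfl⟩
  | succ j ih =>
    obtain ⟨g, hg, h⟩ := ih
    obtain ⟨g', hg', h'⟩ := theta k hg
    refine ⟨g', hg', ?_⟩
    rw [Function.iterate_succ_apply', h, U_pow2, U_F F _ hF, h']; ring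

lemma d0_even (a o : ℕ) : ∃ f, J f ∧
    U (tt (2 * (2 ^ a * (2 * o + 1))) * y ^ (2 * (2 ^ a * (2 * o + 1)))) - 1
      = 2 ^ (2 * a + 3) * (w * f) := by
  obtain ⟨f, hf, h⟩ := vsq a o
  generalize 2 ^ a * (2 * o + 1) = k at h
  obtain ⟨g, hg, h'⟩ := theta k hf
  have h1 : tt (2 * k) = 1 + 2 ^ (2 * a + 3) * (w * f) := by
    rw [two_mul k, (addf k k).1]
    have := norm k
    have e4 : (4 : ℤ⟦X⟧) ^ a = 2 ^ (2 * a) := by rw [pow_mul]; norm_num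
    rw [e4] at h
    linear_combination this + (8 * w) * h
  obtain ⟨o1, ho1, e1, he1, rfl⟩ := hf
  obtain ⟨o2, ho2, e2, he2, rfl⟩ := hg
  have h2 : (2 : ℤ⟦X⟧) ∈ E := E.natCast_mem 2
  refine ⟨_, ⟨o1 + 2 * o2, by omega, e1 + 2 * e2, E.add_mem he1 (E.mul_mem h2 he2), rfl⟩, ?_⟩
  conv_lhs => rw [h1]
  rw [add_mul, one_mul, map_add, U_pow, h1, mul_assoc (2 ^ (2 * a + 3)), U_pow2, h']
  push_cast; ring

lemma coeff_w_odd (q : ℕ) : coeff (2 * q + 1) w % 2 = 1 := by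
  have h0 := cx (2 * w) q 1 0 (by norm_num) (by norm_num)
  have h1 := cx ((1 + X) * xi ^ 2) q 1 1 (by norm_num) (by norm_num)
  simp only [pow_zero, one_mul, pow_one] at h0 h1
  have e : (1 + X) * xi ^ 2 = xi + 2 ^ 1 * w := by
    unfold w; linear_combination xi * hxi
  rw [w_split, map_add, h0, h1, e]
  simp only [if_true, map_add, coeff_pow2_mul, xi, coeff_mk, Pi.one_apply]
  simp

theorem even_val (F : ℤ⟦X⟧) (a o j q : ℕ) (hF : F * Phi ^ (2 * (2 ^ a * (2 * o + 1))) = 1) :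
    ∃ z : ℤ, z % 2 = 1 ∧ coeff (4 * (2 ^ j * (2 * q + 1))) F - coeff (2 ^ j * (2 * q + 1)) F
      = 2 ^ (2 * a + 3 + j) * z := by
  obtain ⟨f, hf, h⟩ := d0_even a o
  obtain ⟨g, ⟨o1, ho1, e1, he1, rfl⟩, hg⟩ := J_iter F _ hF (2 * a + 3) hf j
  obtain ⟨h', hh'⟩ := F_odd F _ hF
  rw [diff F _ hF, h, ← coeff_iter, mul_assoc, hg, coeff_pow2_mul]
  refine ⟨_, ?_, rfl⟩
  have e : w * (o1 + 4 * w * e1) * F = C o1 * w + 2 ^ 1 * (2 * w * w * e1 * F + o1 * w * h') := by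
    rw [eq_intCast]
    linear_combination (w * o1) * hh'
  rw [e, map_add, coeff_C_mul, coeff_pow2_mul, pow_one, Int.add_mul_emod_self_left, Int.mul_emod,
    ho1, coeff_w_odd]; rfl

end Pool.Agent.Lib.H8.Bin2
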