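import Pool.Agent.Lib.H8.Bin2b

set_option maxHeartbeats 400000

namespace Pool.Agent.Lib.H8.Bin2
open PowerSeries
open Pool.Agent.Lib.H8.Col4 (coeff_pow2_mul)

lemma ty2 : tt 2 = ((-1) * y ^ 0 + (2) * y ^ 2) := by
  rw [tt_rec 0, tt1, tt0]; ring

lemma ty3 : tt 3 = ((-3) * y ^ 1 + (4) * y ^ 3) := by
  rw [tt_rec 1, ty2, tt1]; ring

lemma ty4 : tt 4 = ((1) * y ^ 0 + (-8) * y ^ 2 + (8) * y ^ 4) := by
  rw [tt_rec 2, ty3, ty2]; ring

lemma ty5 : tt 5 = ((5) * y ^ 1 + (-20) * y ^ 3 + (16) * y ^ 5) := by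
  rw [tt_rec 3, ty4, ty3]; ring

lemma ty6 : tt 6 = ((-1) * y ^ 0 + (18) * y ^ 2 + (-48) * y ^ 4 + (32) * y ^ 6) := by
  rw [tt_rec 4, ty5, ty4]; ring

lemma ty7 : tt 7 = ((-7) * y ^ 1 + (56) * y ^ 3 + (-112) * y ^ 5 + (64) * y ^ 7) := by
  rw [tt_rec 5, ty6, ty5]; ring

lemma ty8 : tt 8 = ((1) * y ^ 0 + (-32) * y ^ 2 + (160) * y ^ 4 + (-256) * y ^ 6 + (128) * y ^ 8) := by
  rw [tt_rec 6, ty7, ty6]; ring

lemma ty9 : tt 9 = ((9) * y ^ 1 + (-120) * y ^ 3 + (432) * y ^ 5 + (-576) * y ^ 7 + (256) * y ^ 9) := by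
  rw [tt_rec 7, ty8, ty7]; ring

lemma ty10 : tt 10 = ((-1) * y ^ 0 + (50) * y ^ 2 + (-400) * y ^ 4 + (1120) * y ^ 6 + (-1280) * y ^ 8 + (512) * y ^ 10) := by
  rw [tt_rec 8, ty9, ty8]; ring

lemma ty11 : tt 11 = ((-11) * y ^ 1 + (220) * y ^ 3 + (-1232) * y ^ 5 + (2816) * y ^ 7 + (-2816) * y ^ 9 + (1024) * y ^ 11) := by
  rw [tt_rec 9, ty10, ty9]; ring

lemma ty12 : tt 12 = ((1) * y ^ 0 + (-72) * y ^ 2 + (840) * y ^ 4 + (-3584) * y ^ 6 + (6912) * y ^ 8 + (-6144) * y ^ 10 + (2048) * y ^ 12) := by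
  rw [tt_rec 10, ty11, ty10]; ring

lemma ty13 : tt 13 = ((13) * y ^ 1 + (-364) * y ^ 3 + (2912) * y ^ 5 + (-9984) * y ^ 7 + (16640) * y ^ 9 + (-13312) * y ^ 11 + (4096) * y ^ 13) := by
  rw [tt_rec 11, ty12, ty11]; ring

lemma ty14 : tt 14 = ((-1) * y ^ 0 + (98) * y ^ 2 + (-1568) * y ^ 4 + (9408) * y ^ 6 + (-26880) * y ^ 8 + (39424) * y ^ 10 + (-28672) * y ^ 12 + (8192) * y ^ 14) := by
  rw [tt_rec 12, ty13, ty12]; ring

lemma ty15 : tt 15 = ((-15) * y ^ 1 + (560) * y ^ 3 + (-6048) * y ^ 5 + (28800) * y ^ 7 + (-70400) * y ^ 9 + (92160) * y ^ 11 + (-61440) * y ^ 13 + (16384) * y ^ 15) := by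
  rw [tt_rec 13, ty14, ty13]; ring

lemma tw2 : tt 2 = ((1) * w ^ 0 + (8) * w ^ 1) := by
  rw [tt_rec 0, tt1, tt0]; linear_combination (2 * ((1) * w ^ 0)) * hy

lemma tw3 : tt 3 = y * ((1) * w ^ 0 + (16) * w ^ 1) := by
  rw [tt_rec 1, tw2, tt1]; ring

lemma tw4 : tt 4 = ((1) * w ^ 0 + (32) * w ^ 1 + (128) * w ^ 2) := by
  rw [tt_rec 2, tw3, tw2]; linear_combination (2 * ((1) * w ^ 0 + (16) * w ^ 1)) * hy

lemma tw5 : tt 5 = y * ((1) * w ^ 0 + (48) * w ^ 1 + (256) * w ^ 2) := by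
  rw [tt_rec 3, tw4, tw3]; ring

lemma tw6 : tt 6 = ((1) * w ^ 0 + (72) * w ^ 1 + (768) * w ^ 2 + (2048) * w ^ 3) := by
  rw [tt_rec 4, tw5, tw4]; linear_combination (2 * ((1) * w ^ 0 + (48) * w ^ 1 + (256) * w ^ 2)) * hy

lemma tw7 : tt 7 = y * ((1) * w ^ 0 + (96) * w ^ 1 + (1280) * w ^ 2 + (4096) * w ^ 3) := by
  rw [tt_rec 5, tw6, tw5]; ring

lemma tw8 : tt 8 = ((1) * w ^ 0 + (128) * w ^ 1 + (2560) * w ^ 2 + (16384) * w ^ 3 + (32768) * w ^ 4) := by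
  rw [tt_rec 6, tw7, tw6]; linear_combination (2 * ((1) * w ^ 0 + (96) * w ^ 1 + (1280) * w ^ 2 + (4096) * w ^ 3)) * hy

lemma tw9 : tt 9 = y * ((1) * w ^ 0 + (160) * w ^ 1 + (3840) * w ^ 2 + (28672) * w ^ 3 + (65536) * w ^ 4) := by
  rw [tt_rec 7, tw8, tw7]; ring

lemma tw10 : tt 10 = ((1) * w ^ 0 + (200) * w ^ 1 + (6400) * w ^ 2 + (71680) * w ^ 3 + (327680) * w ^ 4 + (524288) * w ^ 5) := by
  rw [tt_rec 8, tw9, tw8]; linear_combination (2 * ((1) * w ^ 0 + (160) * w ^ 1 + (3840) * w ^ 2 + (28672) * w ^ 3 + (65536) * w ^ 4)) * hy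

lemma tw11 : tt 11 = y * ((1) * w ^ 0 + (240) * w ^ 1 + (8960) * w ^ 2 + (114688) * w ^ 3 + (589824) * w ^ 4 + (1048576) * w ^ 5) := by
  rw [tt_rec 9, tw10, tw9]; ring

lemma tw12 : tt 12 = ((1) * w ^ 0 + (288) * w ^ 1 + (13440) * w ^ 2 + (229376) * w ^ 3 + (1769472) * w ^ 4 + (6291456) * w ^ 5 + (8388608) * w ^ 6) := by
  rw [tt_rec 10, tw11, tw10]; linear_combination (2 * ((1) * w ^ 0 + (240) * w ^ 1 + (8960) * w ^ 2 + (114688) * w ^ 3 + (589824) * w ^ 4 + (1048576) * w ^ 5)) * hy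

lemma tw13 : tt 13 = y * ((1) * w ^ 0 + (336) * w ^ 1 + (17920) * w ^ 2 + (344064) * w ^ 3 + (2949120) * w ^ 4 + (11534336) * w ^ 5 + (16777216) * w ^ 6) := by
  rw [tt_rec 11, tw12, tw11]; ring

lemma tw14 : tt 14 = ((1) * w ^ 0 + (392) * w ^ 1 + (25088) * w ^ 2 + (602112) * w ^ 3 + (6881280) * w ^ 4 + (40370176) * w ^ 5 + (117440512) * w ^ 6 + (134217728) * w ^ 7) := by
  rw [tt_rec 12, tw13, tw12]; linear_combination (2 * ((1) * w ^ 0 + (336) * w ^ 1 + (17920) * w ^ 2 + (344064) * w ^ 3 + (2949120) * w ^ 4 + (11534336) * w ^ 5 + (16777216) * w ^ 6)) * hy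

lemma tw15 : tt 15 = y * ((1) * w ^ 0 + (448) * w ^ 1 + (32256) * w ^ 2 + (860160) * w ^ 3 + (10813440) * w ^ 4 + (69206016) * w ^ 5 + (218103808) * w ^ 6 + (268435456) * w ^ 7) := by
  rw [tt_rec 13, tw14, tw13]; ring

lemma tw16 : tt 16 = ((1) * w ^ 0 + (512) * w ^ 1 + (43008) * w ^ 2 + (1376256) * w ^ 3 + (21626880) * w ^ 4 + (184549376) * w ^ 5 + (872415232) * w ^ 6 + (2147483648) * w ^ 7 + (2147483648) * w ^ 8) := by
  rw [tt_rec 14, tw15, tw14]; linear_combination (2 * ((1) * w ^ 0 + (448) * w ^ 1 + (32256) * w ^ 2 + (860160) * w ^ 3 + (10813440) * w ^ 4 + (69206016) * w ^ 5 + (218103808) * w ^ 6 + (268435456) * w ^ 7)) * hy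

lemma tw17 : tt 17 = y * ((1) * w ^ 0 + (576) * w ^ 1 + (53760) * w ^ 2 + (1892352) * w ^ 3 + (32440320) * w ^ 4 + (299892736) * w ^ 5 + (1526726656) * w ^ 6 + (4026531840) * w ^ 7 + (4294967296) * w ^ 8) := by
  rw [tt_rec 15, tw16, tw15]; ring

lemma tw18 : tt 18 = ((1) * w ^ 0 + (648) * w ^ 1 + (69120) * w ^ 2 + (2838528) * w ^ 3 + (58392576) * w ^ 4 + (674758656) * w ^ 5 + (4580179968) * w ^ 6 + (18119393280) * w ^ 7 + (38654705664) * w ^ 8 + (34359738368) * w ^ 9) := by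
  rw [tt_rec 16, tw17, tw16]; linear_combination (2 * ((1) * w ^ 0 + (576) * w ^ 1 + (53760) * w ^ 2 + (1892352) * w ^ 3 + (32440320) * w ^ 4 + (299892736) * w ^ 5 + (1526726656) * w ^ 6 + (4026531840) * w ^ 7 + (4294967296) * w ^ 8)) * hy

lemma tw19 : tt 19 = y * ((1) * w ^ 0 + (720) * w ^ 1 + (84480) * w ^ 2 + (3784704) * w ^ 3 + (84344832) * w ^ 4 + (1049624576) * w ^ 5 + (7633633280) * w ^ 6 + (32212254720) * w ^ 7 + (73014444032) * w ^ 8 + (68719476736) * w ^ 9) := by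
  rw [tt_rec 17, tw18, tw17]; ring

lemma tw20 : tt 20 = ((1) * w ^ 0 + (800) * w ^ 1 + (105600) * w ^ 2 + (5406720) * w ^ 3 + (140574720) * w ^ 4 + (2099249152) * w ^ 5 + (19084083200) * w ^ 6 + (107374182400) * w ^ 7 + (365072220160) * w ^ 8 + (687194767360) * w ^ 9 + (549755813888) * w ^ 10) := by
  rw [tt_rec 18, tw19, tw18]; linear_combination (2 * ((1) * w ^ 0 + (720) * w ^ 1 + (84480) * w ^ 2 + (3784704) * w ^ 3 + (84344832) * w ^ 4 + (1049624576) * w ^ 5 + (7633633280) * w ^ 6 + (32212254720) * w ^ 7 + (73014444032) * w ^ 8 + (68719476736) * w ^ 9)) * hy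

lemma tw21 : tt 21 = y * ((1) * w ^ 0 + (880) * w ^ 1 + (126720) * w ^ 2 + (7028736) * w ^ 3 + (196804608) * w ^ 4 + (3148873728) * w ^ 5 + (30534533120) * w ^ 6 + (182536110080) * w ^ 7 + (657129996288) * w ^ 8 + (1305670057984) * w ^ 9 + (1099511627776) * w ^ 10) := by
  rw [tt_rec 19, tw20, tw19]; ring

lemma tw22 : tt 22 = ((1) * w ^ 0 + (968) * w ^ 1 + (154880) * w ^ 2 + (9664512) * w ^ 3 + (309264384) * w ^ 4 + (5772935168) * w ^ 5 + (67175972864) * w ^ 6 + (501974302720) * w ^ 7 + (2409476653056) * w ^ 8 + (7181185318912) * w ^ 9 + (12094627905536) * w ^ 10 + (8796093022208) * w ^ 11) := by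
  rw [tt_rec 20, tw21, tw20]; linear_combination (2 * ((1) * w ^ 0 + (880) * w ^ 1 + (126720) * w ^ 2 + (7028736) * w ^ 3 + (196804608) * w ^ 4 + (3148873728) * w ^ 5 + (30534533120) * w ^ 6 + (182536110080) * w ^ 7 + (657129996288) * w ^ 8 + (1305670057984) * w ^ 9 + (1099511627776) * w ^ 10)) * hy

lemma tw23 : tt 23 = y * ((1) * w ^ 0 + (1056) * w ^ 1 + (183040) * w ^ 2 + (12300288) * w ^ 3 + (421724160) * w ^ 4 + (8396996608) * w ^ 5 + (103817412608) * w ^ 6 + (821412495360) * w ^ 7 + (4161823309824) * w ^ 8 + (13056700579840) * w ^ 9 + (23089744183296) * w ^ 10 + (17592186044416) * w ^ 11) := by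
  rw [tt_rec 21, tw22, tw21]; ring

lemma tw24 : tt 24 = ((1) * w ^ 0 + (1152) * w ^ 1 + (219648) * w ^ 2 + (16400384) * w ^ 3 + (632586240) * w ^ 4 + (14394851328) * w ^ 5 + (207634825216) * w ^ 6 + (1971389988864) * w ^ 7 + (12485469929472) * w ^ 8 + (52226802319360) * w ^ 9 + (138538465099776) * w ^ 10 + (211106232532992) * w ^ 11 + (140737488355328) * w ^ 12) := by
  rw [tt_rec 22, tw23, tw22]; linear_combination (2 * ((1) * w ^ 0 + (1056) * w ^ 1 + (183040) * w ^ 2 + (12300288) * w ^ 3 + (421724160) * w ^ 4 + (8396996608) * w ^ 5 + (103817412608) * w ^ 6 + (821412495360) * w ^ 7 + (4161823309824) * w ^ 8 + (13056700579840) * w ^ 9 + (23089744183296) * w ^ 10 + (17592186044416) * w ^ 11)) * hy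

lemma tw25 : tt 25 = y * ((1) * w ^ 0 + (1248) * w ^ 1 + (256256) * w ^ 2 + (20500480) * w ^ 3 + (843448320) * w ^ 4 + (20392706048) * w ^ 5 + (311452237824) * w ^ 6 + (3121367482368) * w ^ 7 + (20809116549120) * w ^ 8 + (91396904058880) * w ^ 9 + (253987186016256) * w ^ 10 + (404620279021568) * w ^ 11 + (281474976710656) * w ^ 12) := by
  rw [tt_rec 23, tw24, tw23]; ring

lemma tw26 : tt 26 = ((1) * w ^ 0 + (1352) * w ^ 1 + (302848) * w ^ 2 + (26650624) * w ^ 3 + (1218314240) * w ^ 4 + (33138147328) * w ^ 5 + (578411298816) * w ^ 6 + (6762962878464) * w ^ 7 + (54103703027712) * w ^ 8 + (297039938191360) * w ^ 9 + (1100611139403776) * w ^ 10 + (2630031813640192) * w ^ 11 + (3659174697238528) * w ^ 12 + (2251799813685248) * w ^ 13) := by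
  rw [tt_rec 24, tw25, tw24]; linear_combination (2 * ((1) * w ^ 0 + (1248) * w ^ 1 + (256256) * w ^ 2 + (20500480) * w ^ 3 + (843448320) * w ^ 4 + (20392706048) * w ^ 5 + (311452237824) * w ^ 6 + (3121367482368) * w ^ 7 + (20809116549120) * w ^ 8 + (91396904058880) * w ^ 9 + (253987186016256) * w ^ 10 + (404620279021568) * w ^ 11 + (281474976710656) * w ^ 12)) * hy

lemma tw27 : tt 27 = y * ((1) * w ^ 0 + (1456) * w ^ 1 + (349440) * w ^ 2 + (32800768) * w ^ 3 + (1593180160) * w ^ 4 + (45883588608) * w ^ 5 + (845370359808) * w ^ 6 + (10404558274560) * w ^ 7 + (87398289506304) * w ^ 8 + (502682972323840) * w ^ 9 + (1947235092791296) * w ^ 10 + (4855443348258816) * w ^ 11 + (7036874417766400) * w ^ 12 + (4503599627370496) * w ^ 13) := by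
  rw [tt_rec 25, tw26, tw25]; ring

lemma tw28 : tt 28 = ((1) * w ^ 0 + (1568) * w ^ 1 + (407680) * w ^ 2 + (41746432) * w ^ 3 + (2230452224) * w ^ 4 + (71374471168) * w ^ 5 + (1479398129664) * w ^ 6 + (20809116549120) * w ^ 7 + (203929342181376) * w ^ 8 + (1407512322506752) * w ^ 9 + (6815322824769536) * w ^ 10 + (22658735625207808) * w ^ 11 + (49258120924364800) * w ^ 12 + (63050394783186944) * w ^ 13 + (36028797018963968) * w ^ 14) := by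
  rw [tt_rec 26, tw27, tw26]; linear_combination (2 * ((1) * w ^ 0 + (1456) * w ^ 1 + (349440) * w ^ 2 + (32800768) * w ^ 3 + (1593180160) * w ^ 4 + (45883588608) * w ^ 5 + (845370359808) * w ^ 6 + (10404558274560) * w ^ 7 + (87398289506304) * w ^ 8 + (502682972323840) * w ^ 9 + (1947235092791296) * w ^ 10 + (4855443348258816) * w ^ 11 + (7036874417766400) * w ^ 12 + (4503599627370496) * w ^ 13)) * hy

lemma tw29 : tt 29 = y * ((1) * w ^ 0 + (1680) * w ^ 1 + (465920) * w ^ 2 + (50692096) * w ^ 3 + (2867724288) * w ^ 4 + (96865353728) * w ^ 5 + (2113425899520) * w ^ 6 + (31213674823680) * w ^ 7 + (320460394856448) * w ^ 8 + (2312341672689664) * w ^ 9 + (11683410556747776) * w ^ 10 + (40462027902156800) * w ^ 11 + (91479367430963200) * w ^ 12 + (121597189939003392) * w ^ 13 + (72057594037927936) * w ^ 14) := by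
  rw [tt_rec 27, tw28, tw27]; ring

lemma tw30 : tt 30 = ((1) * w ^ 0 + (1800) * w ^ 1 + (537600) * w ^ 2 + (63365120) * w ^ 3 + (3910533120) * w ^ 4 + (145298030592) * w ^ 5 + (3522376499200) * w ^ 6 + (58525640294400) * w ^ 7 + (686700846120960) * w ^ 8 + (5780854181724160) * w ^ 9 + (35050231670243328) * w ^ 10 + (151732604633088000) * w ^ 11 + (457396837154816000) * w ^ 12 + (911978924542525440) * w ^ 13 + (1080863910568919040) * w ^ 14 + (576460752303423488) * w ^ 15) := by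
  rw [tt_rec 28, tw29, tw28]; linear_combination (2 * ((1) * w ^ 0 + (1680) * w ^ 1 + (465920) * w ^ 2 + (50692096) * w ^ 3 + (2867724288) * w ^ 4 + (96865353728) * w ^ 5 + (2113425899520) * w ^ 6 + (31213674823680) * w ^ 7 + (320460394856448) * w ^ 8 + (2312341672689664) * w ^ 9 + (11683410556747776) * w ^ 10 + (40462027902156800) * w ^ 11 + (91479367430963200) * w ^ 12 + (121597189939003392) * w ^ 13 + (72057594037927936) * w ^ 14)) * hy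

lemma d15 : ∃ g ∈ M, U (tt 15 * y ^ 15) - 1 = 2 ^ 7 * g := by
  refine ⟨((375 : ℤ) : ℤ⟦X⟧) * (2 ^ 0 * w ^ (0 + 1) * y ^ 0) + ((263160 : ℤ) : ℤ⟦X⟧) * (2 ^ 1 * w ^ (1 + 1) * y ^ 0) + ((42997760 : ℤ) : ℤ⟦X⟧) * (2 ^ 2 * w ^ (2 + 1) * y ^ 0) + ((2798782080 : ℤ) : ℤ⟦X⟧) * (2 ^ 3 * w ^ (3 + 1) * y ^ 0) + ((92709433344 : ℤ) : ℤ⟦X⟧) * (2 ^ 4 * w ^ (4 + 1) * y ^ 0) + ((1788839936000 : ℤ) : ℤ⟦X⟧) * (2 ^ 5 * w ^ (5 + 1) * y ^ 0) + ((21811321896960 : ℤ) : ℤ⟦X⟧) * (2 ^ 6 * w ^ (6 + 1) * y ^ 0) + ((176752603299840 : ℤ) : ℤ⟦X⟧) * (2 ^ 7 * w ^ (7 + 1) * y ^ 0) + ((980745631825920 : ℤ) : ℤ⟦X⟧) * (2 ^ 8 * w ^ (8 + 1) * y ^ 0) + ((3777370855047168 : ℤ) : ℤ⟦X⟧) * (2 ^ 9 * w ^ (9 + 1) * y ^ 0) + ((10083079972454400 : ℤ) : ℤ⟦X⟧) * (2 ^ 10 * w ^ (10 + 1) * y ^ 0) + ((18291063122821120 : ℤ) : ℤ⟦X⟧) * (2 ^ 11 * w ^ (11 + 1) * y ^ 0) + ((21506447439298560 : ℤ) : ℤ⟦X⟧) * (2 ^ 12 * w ^ (12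 + 1) * y ^ 0) + ((14777436277309440 : ℤ) : ℤ⟦X⟧) * (2 ^ 13 * w ^ (13 + 1) * y ^ 0) + ((4503599627370496 : ℤ) : ℤ⟦X⟧) * (2 ^ 14 * w ^ (14 + 1) * y ^ 0), M.add_mem (M.add_mem (M.add_mem (M.add_mem (M.add_mem (M.add_mem (M.add_mem (M.add_mem (M.add_mem (M.add_mem (M.add_mem (M.add_mem (M.add_mem (M.add_mem (M_int (M_gen _ _) _) (M_int (M_gen _ _) _)) (M_int (M_gen _ _) _)) (M_int (M_gen _ _) _)) (M_int (M_gen _ _) _)) (M_int (M_gen _ _) _)) (M_int (M_gen _ _) _)) (M_int (M_gen _ _) _)) (M_int (M_gen _ _) _)) (M_int (M_gen _ _) _)) (M_int (M_gen _ _) _)) (M_int (M_gen _ _) _)) (M_int (M_gen _ _) _)) (M_int (M_gen _ _) _)) (M_int (M_gen _ _) _), ?_⟩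
  have e : tt 15 * y ^ 15 = ((-15 : ℤ) : ℤ⟦X⟧) * y ^ 16 + ((560 : ℤ) : ℤ⟦X⟧) * y ^ 18 + ((-6048 : ℤ) : ℤ⟦X⟧) * y ^ 20 + ((28800 : ℤ) : ℤ⟦X⟧) * y ^ 22 + ((-70400 : ℤ) : ℤ⟦X⟧) * y ^ 24 + ((92160 : ℤ) : ℤ⟦X⟧) * y ^ 26 + ((-61440 : ℤ) : ℤ⟦X⟧) * y ^ 28 + ((16384 : ℤ) : ℤ⟦X⟧) * y ^ 30 := by
    rw [ty15]; push_cast; ring
  rw [e]
  simp only [map_add, U_const, U_pow, tw16, tw18, tw20, tw22, tw24, tw26, tw28, tw30]
  push_cast; ring

theorem div15 (F : ℤ⟦X⟧) (hF : F * Phi ^ 15 = 1) (j q : ℕ) :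
    (2 : ℤ) ^ (7 + j) ∣ coeff (4 * (2 ^ j * q)) F - coeff (2 ^ j * q) F := by
  obtain ⟨g, hg, h⟩ := d15
  obtain ⟨g', -, h'⟩ := M_iter F 15 hF 7 hg j
  rw [diff F _ hF, h, ← coeff_iter, mul_assoc, h', coeff_pow2_mul]
  exact dvd_mul_right _ _

end Pool.Agent.Lib.H8.Bin2
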