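import Mathlib

/-!
Zero positions of generalized Baum-Sweet sequences.
-/

set_option maxHeartbeats 400000

namespace Pool.Agent.Lib.H8.Bs

open Classical Finset

theorem notreg {u : ℕ → ℤ} {ψ : ℕ → ZMod 2}
    (R : ∀ M T ρ : ℕ, 0 < M → ∃ P, P ≡ ρ [MOD M] ∧ ∀ j < T, (u (P + j) : ZMod 2) = ψ j)
    (N : ∀ i d, ∃ j, 0 < d → ψ (i + j) ≠ ψ (i + d + j)) {k : ℕ} (hk : 2 ≤ k) :
    ¬ (Submodule.span ℤ {f : ℕ → ℤ | ∃ i j, j < k ^ i ∧ f = fun n => u (k ^ i * n + j)}).FG := by
  rintro ⟨S, hS⟩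
  choose J N using N
  let C := Fintype.card (S → ZMod 2)
  let e := (range (C + 1) ×ˢ range (C + 1)).sup fun q => J q.1 q.2
  have k0 : 0 < k ^ e := by positivity
  choose P p q using fun i => R (k ^ e) (i + k ^ e) ((k ^ e - 1) * i) k0
  have d (i) : k ^ e * ((i + P i) / k ^ e) = i + P i := Nat.mul_div_cancel' (Nat.modEq_zero_iff_dvd.1
    (((p i).add_left i).trans (Nat.modEq_zero_iff_dvd.2 ⟨i, by zify [k0]; ring⟩)))
  have key (i i' : Fin (C + 1)) (l : i < i') (o : (fun z : S => (z.1 ((i + P i) / k ^ e) : ZMod 2)) =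
      fun z => (z.1 ((i' + P i') / k ^ e) : ZMod 2)) : False := by
    have j : J i (i' - i) < k ^ e := lt_of_le_of_lt (le_sup (f := fun q : ℕ × ℕ => J q.1 q.2)
      (b := (i, i' - i)) (by simp; omega)) (Nat.lt_pow_self (by omega))
    have (z) (h : z ∈ Submodule.span ℤ (S : Set (ℕ → ℤ))) :
        (z ((i + P i) / k ^ e) : ZMod 2) = z ((i' + P i') / k ^ e) := by
      induction h using Submodule.span_induction with
      | mem x h => exact congrFun o ⟨x, h⟩
      | zero => rfl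
      | add x y _ _ a b => simp [a, b]
      | smul c x _ a => simp [a]
    have := this (fun n => u (k ^ e * n + J i (i' - i)))
      (by rw [hS]; exact Submodule.subset_span ⟨e, _, j, rfl⟩)
    simp only [d] at this
    rw [add_comm _ (P i), add_comm _ (P i'), add_assoc, add_assoc, q _ _ (by omega),
      q _ _ (by omega)] at this
    exact N i (i' - i) (by omega) (by rwa [show (i : ℕ) + (i' - i) = i' by omega])
  obtain ⟨i, i', n, o⟩ := Fintype.exists_ne_map_eq_of_card_lt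
    (fun (i : Fin (C + 1)) (z : S) => (z.1 ((i + P i) / k ^ e) : ZMod 2)) (by simp [C])
  exact n.lt_or_gt.elim (key _ _ · o) (key _ _ · o.symm)

/-- All blocks of zeros have length divisible by `r`. -/
def B (r n : ℕ) : Prop := ∀ z ∈ (Nat.digits 2 n).splitOn 1, r ∣ z.length

variable {r : ℕ}

lemma K (j m : ℕ) : B r (2 ^ j * (2 * m + 1)) ↔ r ∣ j ∧ B r m := by
  rw [B, Nat.digits_base_pow_mul one_lt_two (by omega), add_comm,
    Nat.digits_add 2 one_lt_two 1 m one_lt_two (by simp), List.splitOn_eq_splitOnP,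
    List.splitOnP_append_cons_of_forall_mem (by simp) _ (by simp), ← List.splitOn_eq_splitOnP]
  simp [B]

lemma b0 : B r 0 := by simp [B]

lemma bp (j : ℕ) : B r (2 ^ j) ↔ r ∣ j := by simpa [b0] using K (r := r) j 0

lemma od {i : ℕ} (h : i ≠ 0) : ∃ j m, i = 2 ^ j * (2 * m + 1) := by
  obtain ⟨j, _, ⟨m, rfl⟩, e⟩ := Nat.exists_eq_two_pow_mul_odd h
  exact ⟨j, m, e⟩

lemma lw (x a i : ℕ) (l : i < 2 ^ a) (h : B r (2 ^ a * x + i)) :
    ∃ j, B r (2 ^ j * x) ∧ ∀ y, B r (2 ^ j * y) → B r (2 ^ a * y + i) := by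
  induction a using Nat.strong_induction_on generalizing i with | _ a ih
  by_cases z : i = 0
  · exact ⟨a, by simpa [z] using h, fun y k => by simpa [z] using k⟩
  obtain ⟨j, m, rfl⟩ := od z
  obtain ⟨c, rfl⟩ := Nat.exists_eq_add_of_lt ((Nat.pow_lt_pow_iff_right one_lt_two).1
    (lt_of_le_of_lt (Nat.le_mul_of_pos_right _ (by omega)) l))
  have e (x) : 2 ^ (j + c + 1) * x + 2 ^ j * (2 * m + 1) = 2 ^ j * (2 * (2 ^ c * x + m) + 1) := by
    ring
  rw [add_assoc, pow_add, mul_lt_mul_iff_right₀ (by positivity), pow_succ] at l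
  simp only [e, K] at h ⊢
  obtain ⟨t, u, v⟩ := ih c (by omega) m (by omega) h.2
  exact ⟨t, u, fun y k => ⟨h.1, v y k⟩⟩

lemma lw' {x y : ℕ} (h : ∀ j, B r (2 ^ j * x) ↔ B r (2 ^ j * y)) {a i : ℕ} (l : i < 2 ^ a) :
    B r (2 ^ a * x + i) ↔ B r (2 ^ a * y + i) :=
  ⟨fun k => let ⟨_, u, v⟩ := lw x a i l k; v _ ((h _).1 u),
    fun k => let ⟨_, u, v⟩ := lw y a i l k; v _ ((h _).2 u)⟩

lemma lp {a b i : ℕ} (h : a ≡ b [MOD r]) {c : ℕ} (l : i < 2 ^ c) (u : c ≤ a) (v : c ≤ b) :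
    B r (2 ^ a + i) ↔ B r (2 ^ b + i) := by
  obtain ⟨a, rfl⟩ := Nat.exists_eq_add_of_le u
  obtain ⟨b, rfl⟩ := Nat.exists_eq_add_of_le v
  rw [pow_add, pow_add]
  refine lw' (fun j => ?_) l
  rw [← pow_add, ← pow_add, bp, bp]
  exact ((Nat.ModEq.add_left_cancel' c h).add_left j).dvd_iff dvd_rfl

lemma lq {A p i : ℕ} (h : p + 1 ≡ A [MOD r]) (u : p < A) (l : i < 2 ^ p) :
    B r (2 ^ A + (2 ^ p + i)) ↔ B r (2 ^ p + i) := by
  obtain ⟨c, rfl⟩ := Nat.exists_eq_add_of_lt u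
  have : r ∣ c := by simpa [add_right_comm p c] using (Nat.modEq_iff_dvd' (by omega)).1 h
  have := lw' (r := r) (x := 2 * 2 ^ c + 1) (y := 2 * 0 + 1) (fun j => by simp only [K, bp, b0, this]) l
  rwa [mul_add, add_assoc, mul_one, mul_zero, zero_add, mul_one, ← pow_succ', ← pow_add,
    ← add_assoc p] at this

lemma cc {p q : ℕ → Prop} [DecidablePred p] [DecidablePred q] {n : ℕ} (h : ∀ i < n, p i ↔ q i) : Nat.count p n = Nat.count q n := by
  rw [Nat.count_eq_card_filter_range, Nat.count_eq_card_filter_range,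
    filter_congr fun i l => h i (mem_range.1 l)]

lemma cn (p : ℕ → Prop) (n : ℕ) : Nat.count (fun i => ¬ p i) n + Nat.count p n = n := by
  induction n with
  | zero => simp
  | succ n i => by_cases h : p n <;> simp [Nat.count_succ, h] <;> omega

lemma nr (s y : ℕ) : Nat.count (B (s + 1)) (2 ^ (s + 1) * y) =
    Nat.count (B (s + 1)) (2 ^ s * y) + Nat.count (B (s + 1)) y := by
  have a (n) : Nat.count (B (s + 1)) (2 * n) =
      Nat.count (B (s + 1)) n + Nat.count (fun i => B (s + 1) (2 * i)) n := by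
    induction n with
    | zero => simp
    | succ n i =>
      have := K (r := s + 1) 0 n
      simp only [pow_zero, one_mul, dvd_zero, true_and] at this
      simp only [mul_add, mul_one, Nat.count_succ, i, this]
      omega
  have b (i) : B (s + 1) (2 ^ (s + 1) * i) ↔ B (s + 1) i := by
    by_cases z : i = 0
    · simp [z]
    obtain ⟨j, m, rfl⟩ := od z
    simp [← mul_assoc, ← pow_add, K]
  rw [pow_succ', mul_assoc, a, Nat.count_eq_card_filter_range, Nat.count_eq_card_filter_range,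
    Nat.count_eq_card_filter_range, add_right_inj]
  symm
  refine card_bij (fun i _ => 2 ^ s * i) (fun i h => ?_) (fun _ _ _ _ h => by simpa using h)
    fun i h => ?_
  · simpa [← mul_assoc, ← pow_succ', b] using h
  obtain ⟨i, rfl⟩ : 2 ^ s ∣ i := by
    by_cases z : i = 0
    · simp [z]
    obtain ⟨j, m, rfl⟩ := od z
    rw [mem_filter, ← mul_assoc, ← pow_succ', K] at h
    exact (pow_dvd_pow 2 (by have := Nat.le_of_dvd (by omega) h.2.1; omega)).mul_right _
  exact ⟨i, by simpa [← mul_assoc, ← pow_succ', b] using h, rfl⟩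

/-- The number of zeros below `n`. -/
noncomputable def Z (r n : ℕ) : ℕ := Nat.count (fun i => ¬ B r i) n

/-- The local word. -/
def y (r i : ℕ) : Prop := B r (2 ^ (r * i) + i)

lemma reach (s : ℕ) (hs : 0 < s) (M L ρ : ℕ) (hM : 0 < M) : ∃ m, 2 ∣ m ∧
    Z (s + 1) m ≡ ρ [MOD M] ∧ ∀ i < L, B (s + 1) (m + i) ↔ y (s + 1) i := by
  have : NeZero M := ⟨hM.ne'⟩
  let G (a : ℕ) := Nat.count (fun i => ¬ B (s + 1) (2 ^ (a + 1) + i)) (2 ^ a)
  let g (a : ℕ) : ZMod M := G a
  let R (p : ℕ) (x : ZMod M) := ∃ t v : ℕ, t + L ≤ 2 ^ p ∧ 2 ∣ t ∧ 0 < p ∧ x = v + g p ∧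
    (∀ i < L, B (s + 1) (2 ^ p + (t + i)) ↔ y (s + 1) i) ∧
      Z (s + 1) (2 ^ p + t) = Z (s + 1) (2 ^ p) + v
  have st {p x A} (h : R p x) (u : p < A) (c : p + 1 ≡ A [MOD s + 1]) : ∃ t v : ℕ, t + L ≤ 2 ^ A ∧
      2 ∣ t ∧ x = v ∧ (∀ i < L, B (s + 1) (2 ^ A + (t + i)) ↔ y (s + 1) i) ∧
        Z (s + 1) (2 ^ A + t) = Z (s + 1) (2 ^ A) + v := by
    obtain ⟨t, v, a, b, p0, rfl, e, f⟩ := h
    have : 2 ^ (p + 1) ≤ 2 ^ A := by gcongr <;> omega
    refine ⟨2 ^ p + t, v + G p, by omega, (dvd_pow_self 2 p0.ne').add b, by simp [g],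
      fun i l => ?_, ?_⟩
    · rw [add_assoc, lq c u (by omega), e i l]
    rw [Z, Z, Nat.count_add, add_right_inj] at f ⊢
    rw [Nat.count_add, add_comm, ← f]
    exact congrArg₂ _ (cc fun i l => not_congr (lq c u (by omega)))
      (cc fun i l => not_congr (lp c.symm l u.le (by omega)))
  have st' {p x A} (h : R p x) (u : p < A) (c : p + 1 ≡ A [MOD s + 1]) : R A (x + g A) := by
    obtain ⟨t, v, a, b, rfl, e⟩ := st h u c
    exact ⟨t, v, a, b, by omega, rfl, e⟩
  obtain ⟨σ, hσ⟩ := Finite.exists_infinite_fiber fun a : ℕ =>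
    ((a : ZMod (s + 1)), (Z (s + 1) (2 ^ a) : ZMod M), fun j : Fin (4 * (s + 1)) => g (a + j))
  have hσ (N) := (Set.infinite_coe_iff.1 hσ).exists_gt N
  obtain ⟨a0, rfl, a1⟩ := hσ s
  replace hσ (N) : ∃ a, N < a ∧ a0 ≡ a [MOD s + 1] ∧ (Z (s + 1) (2 ^ a) : ZMod M) =
      Z (s + 1) (2 ^ a0) ∧ ∀ j < 4 * (s + 1), g (a + j) = g (a0 + j) := by
    obtain ⟨a, h, l⟩ := hσ N
    simp only [Set.mem_preimage, Set.mem_singleton_iff, Prod.mk.injEq] at h
    exact ⟨a, l, ((ZMod.natCast_eq_natCast_iff _ _ _).1 h.1).symm, h.2.1,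
      fun j l => congrFun h.2.2 ⟨j, l⟩⟩
  let Q (x) := ∃ p, p + 1 ≡ a0 [MOD s + 1] ∧ R p x
  have ns {d} (h : ∀ x, Q x → Q (x + d)) (n : ℕ) (x) (k : Q x) : Q (x + n • d) := by
    induction n with
    | zero => simpa
    | succ n i => simpa only [succ_nsmul, add_assoc] using h _ i
  let H : AddSubgroup (ZMod M) :=
    { carrier := {d | ∀ x, Q x → Q (x + d)}
      add_mem' := fun a b x k => add_assoc x _ _ ▸ b _ (a x k)
      zero_mem' := fun x k => by simpa
      neg_mem' := fun {d} h x k => by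
        simpa [Nat.cast_sub hM] using ns h (M - 1) x k }
  have k1 (c j : ℕ) (hc : c ≤ 1) (hj : j ≤ s + 1) : ∑ i ∈ range (s + 1),
      g (a0 + ((s + 1) * c + i + if j ≤ i then s + 1 else 0)) ∈ H := by
    rintro x ⟨p, u, v⟩
    obtain ⟨a, a1, a2, -, a3⟩ := hσ p
    have (n : ℕ) : ∃ p', p' < a + ((s + 1) * c + n + if j ≤ n then s + 1 else 0) ∧
        p' + 1 ≡ a + n [MOD s + 1] ∧ R p' (x + ∑ i ∈ range n,
          g (a + ((s + 1) * c + i + if j ≤ i then s + 1 else 0))) := by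
      have w (n : ℕ) : a + ((s + 1) * c + n + if j ≤ n then s + 1 else 0) ≡ a + n [MOD s + 1] := by
        refine (Nat.modEq_iff_dvd' (by omega)).2 ?_ |>.symm
        rw [show ∀ z, a + ((s + 1) * c + n + z) - (a + n) = (s + 1) * c + z by omega]
        split_ifs <;> simp
      induction n with
      | zero => exact ⟨p, by omega, u.trans a2, by simpa⟩
      | succ n i =>
        obtain ⟨p', b1, b2, b3⟩ := i
        exact ⟨_, by split_ifs <;> omega, (w n).add_right 1, by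
          rw [sum_range_succ, ← add_assoc x]; exact st' b3 b1 (b2.trans (w n).symm)⟩
    obtain ⟨p', -, b2, b3⟩ := this (s + 1)
    refine ⟨p', b2.trans ((show a + (s + 1) ≡ a [MOD s + 1] by simp).trans a2.symm), ?_⟩
    rwa [sum_congr rfl fun i l => a3 _ ?_] at b3
    have := mem_range.1 l
    split_ifs <;> nlinarith
  have k2 (c j : ℕ) (hc : c ≤ 1) (hj : j ≤ s) :
      g (a0 + ((s + 1) * c + j) + (s + 1)) - g (a0 + ((s + 1) * c + j)) ∈ H := by
    have := H.sub_mem (k1 c j hc (by omega)) (k1 c (j + 1) hc (by omega))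
    rw [← sum_sub_distrib, sum_eq_single_of_mem j (by simp; omega) fun i _ n => by
      simp [show j + 1 ≤ i ↔ j ≤ i by omega]] at this
    simpa [add_assoc] using this
  let T (a : ℕ) := Nat.count (fun i => B (s + 1) (2 ^ a + i)) (2 ^ a)
  have t1 (a) : Nat.count (B (s + 1)) (2 ^ (a + 1)) = Nat.count (B (s + 1)) (2 ^ a) + T a := by
    rw [pow_succ, mul_two, Nat.count_add]
  have t2 (a) : T (a + s + 1) = T (a + s) + T a := by
    have u := nr s (2 ^ a)
    have v := nr s (2 ^ (a + 1))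
    rw [← pow_add, ← pow_add, add_comm s a, show s + 1 + a = a + s + 1 by ring] at u
    rw [← pow_add, ← pow_add, show s + (a + 1) = a + s + 1 by ring,
      show s + 1 + (a + 1) = a + s + 1 + 1 by ring] at v
    have := t1 a
    have := t1 (a + s)
    have := t1 (a + s + 1)
    omega
  have t3 (a) : T (a + 1) + G a = 2 ^ a + T a := by
    have := cn (fun i => B (s + 1) (2 ^ (a + 1) + i)) (2 ^ a)
    have e : T (a + 1) = Nat.count (fun i => B (s + 1) (2 ^ (a + 1) + i)) (2 ^ a) + T a := by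
      have := Nat.count_add (fun i => B (s + 1) (2 ^ (a + 1) + i)) (2 ^ a) (2 ^ a)
      rwa [← mul_two, ← pow_succ, cc fun i l => lq (r := s + 1) (A := a + 1) rfl (by omega) l] at this
    simp only [G]
    omega
  have k3 (b : ℕ) : g (b + s + 1 + (s + 1)) - g (b + s + 1) - 2 • (g (b + s + (s + 1)) - g (b + s)) =
      2 * T (b + s) - T (b + s + 1) := by
    have e (a) : g a = 2 ^ a + T a - T (a + 1) := by
      have := congrArg (Nat.cast : ℕ → ZMod M) (t3 a)
      push_cast at this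
      simp only [g]
      linear_combination this
    have u (a) := congrArg (Nat.cast : ℕ → ZMod M) (t2 a)
    have u1 := u (b + s + 1)
    have u2 := u (b + s + 2)
    have u3 := u b
    have u4 := u (b + 1)
    simp only [e]
    push_cast at u1 u2 u3 u4
    ring_nf at u1 u2 u3 u4 ⊢
    linear_combination 2 * u1 - u2
  have k4 (a n : ℕ) (h : ∀ j ≤ s, (2 * T (a + n + j) - T (a + n + j + 1) : ZMod M) ∈ H) (j)
      (l : j ≤ s) : (2 * T (a + j) - T (a + j + 1) : ZMod M) ∈ H := by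
    induction n generalizing j with
    | zero => exact h j l
    | succ n i =>
      refine i (fun j l => ?_) j l
      rcases j with _ | j
      · obtain ⟨s, rfl⟩ := Nat.exists_eq_add_of_lt hs
        have u (a) := congrArg (Nat.cast : ℕ → ZMod M) (t2 a)
        have u1 := u (a + n)
        have u2 := u (a + n + 1)
        convert H.sub_mem (h _ le_rfl) (h s (by omega)) using 1
        push_cast at u1 u2
        ring_nf at u1 u2 ⊢
        linear_combination u2 - 2 * u1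
      simpa [add_assoc, add_comm 1] using h j (by omega)
  have k5 : (1 : ZMod M) ∈ H := by
    obtain ⟨b, rfl⟩ := Nat.exists_eq_add_of_le' a1.le
    have k (j) (l : j ≤ s + 1) : g (b + j + s + (s + 1)) - g (b + j + s) ∈ H := by
      rcases l.lt_or_eq with l | rfl
      · simpa [add_right_comm b j] using k2 0 j (by omega) (by omega)
      simpa [add_right_comm b (s + 1)] using k2 1 0 (by omega) (by omega)
    have := k4 0 (b + s) (fun j l => by
      have := H.sub_mem (k (j + 1) (by omega)) (H.nsmul_mem (k j (by omega)) 2)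
      rw [show b + (j + 1) + s = b + j + s + 1 by ring, k3] at this
      simpa [add_right_comm b j] using this) 0 (by omega)
    have b1 : B (s + 1) 1 := by simpa using (bp (r := s + 1) 0).2 (by simp)
    have b2 : ¬ B (s + 1) 2 := by simpa using (bp (r := s + 1) 1).not.2 (by simp; omega)
    have b3 : B (s + 1) 3 := by simpa [b1] using K (r := s + 1) 0 1
    have t0 : T 0 = 1 := by simp [T, Nat.count_one, b1]
    have t4 : T 1 = 1 := by simp [T, Nat.count_succ, b2, b3]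
    rw [t0, t4] at this
    convert this using 1
    norm_num
  have q0 (n : ℕ) : ∃ x, R ((s + 1) * (L + 1) + n) x := by
    induction n with
    | zero =>
      have w (i : ℕ) : i < 2 ^ ((s + 1) * i) := i.lt_two_pow_self.trans_le (by gcongr <;> nlinarith)
      refine ⟨_, 0, 0, ?_, by simp, by simp, rfl, fun i l => ?_, rfl⟩
      · have := w (L + 1)
        simp only [add_zero]; omega
      rw [zero_add]
      exact lp (by simp [Nat.ModEq]) (w i) (by nlinarith) le_rfl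
    | succ n i => exact i.elim fun x h => ⟨_, st' h (by omega) rfl⟩
  obtain ⟨x, h⟩ := q0 (a0 + s)
  obtain ⟨p, u, v⟩ := ns k5 (ρ - Z (s + 1) (2 ^ a0) - x : ZMod M).val x ⟨_, by
    rw [show (s + 1) * (L + 1) + (a0 + s) + 1 = a0 + (s + 1) * (L + 2) by ring]
    simp [Nat.ModEq], h⟩
  obtain ⟨a, a1, a2, a3, -⟩ := hσ p
  obtain ⟨t, w, -, b, e, c, d⟩ := st v a1 (u.trans a2)
  refine ⟨2 ^ a + t, (dvd_pow_self 2 (by omega)).add b, (ZMod.natCast_eq_natCast_iff _ _ _).1 ?_,
    by simpa only [add_assoc] using c⟩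
  rw [d, Nat.cast_add, a3, ← e]
  simp

theorem main (hr : 2 ≤ r) : {m | ¬ B r m}.Infinite ∧ ∀ k, 2 ≤ k → ¬ (Submodule.span ℤ
    {f : ℕ → ℤ | ∃ i j, j < k ^ i ∧ f = fun n => ((Nat.nth (¬ B r ·) (k ^ i * n + j) : ℕ) : ℤ)}).FG := by
  obtain ⟨s, rfl⟩ := Nat.exists_eq_add_of_lt hr
  generalize e : 1 + s = s' at *
  have s0 : 0 < s' := by omega
  have y1 (q i) (l : i < 2 ^ ((s' + 1) * q)) : y (s' + 1) i ↔ B (s' + 1) (2 ^ ((s' + 1) * q) + i) := by
    have w : i < 2 ^ ((s' + 1) * i) := i.lt_two_pow_self.trans_le (by gcongr <;> nlinarith)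
    exact lp (c := min _ _) (by simp [Nat.ModEq]) (by rw [min_def]; split_ifs <;> assumption)
      (min_le_left _ _) (min_le_right _ _)
  have y2 (q i) (l : i < 2 ^ ((s' + 1) * q)) : ¬ y (s' + 1) (2 ^ ((s' + 1) * q) + i) := fun h => by
    rw [y1 (q + 1) _ (by rw [mul_add_one, pow_add, pow_succ]; nlinarith [s'.two_pow_pos]),
      show 2 ^ ((s' + 1) * (q + 1)) + (2 ^ ((s' + 1) * q) + i) =
        2 ^ ((s' + 1) * q) * (2 * 2 ^ s' + 1) + i by ring] at h
    obtain ⟨j, u, -⟩ := lw _ _ _ l h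
    have := Nat.le_of_dvd s0 ((bp _).1 ((K _ _).1 u).2)
    omega
  have w (q : ℕ) : q < 2 ^ ((s' + 1) * q) := q.lt_two_pow_self.trans_le (by gcongr <;> nlinarith)
  have inf : {i | ¬ y (s' + 1) i}.Infinite := Set.infinite_of_forall_exists_gt fun q =>
    ⟨_, y2 q 0 (by positivity), w q⟩
  refine ⟨Set.infinite_of_forall_exists_gt fun q => ⟨2 ^ 1 * (2 * q + 1), fun h => by
    have := Nat.le_of_dvd one_pos ((K _ _).1 h).1
    omega, by omega⟩, fun k => notreg (u := fun n => (Nat.nth (¬ B (s' + 1) ·) n : ℕ))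
    (ψ := fun j => (Nat.nth (¬ y (s' + 1) ·) j : ℕ)) (fun M T ρ h => ?_) fun i d => ?_⟩
  · obtain ⟨m, ⟨m, rfl⟩, a, b⟩ := reach s' s0 M (Nat.nth (¬ y (s' + 1) ·) T) ρ h
    refine ⟨_, a, fun j l => ?_⟩
    have l := Nat.nth_strictMono inf l
    have := Nat.nth_count (p := (¬ B (s' + 1) ·)) ((b _ l).not.2 (Nat.nth_mem_of_infinite inf j))
    rw [Nat.count_add, cc fun i o => (b i (o.trans l)).not, Nat.count_nth_of_infinite inf] at this
    rw [Z, this]
    simp [show (2 : ZMod 2) = 0 from rfl]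
  by_contra! n
  have p (c j : ℕ) : (Nat.nth (¬ y (s' + 1) ·) (i + j + c * d) : ZMod 2) =
      Nat.nth (¬ y (s' + 1) ·) (i + j) := by
    induction c with
    | zero => simp
    | succ c k => rw [← k, add_assoc i j (c * d), (n _).2]; congr 2; ring
  have d0 := (n 0).1
  obtain ⟨q, q1, q2⟩ : ∃ q, Nat.nth (¬ y (s' + 1) ·) i + 2 * d + 2 ≤ 2 ^ ((s' + 1) * q) ∧
      ∃ c, (s' + 1) * q = c + 1 := ⟨_ + 1, (w _).le, _, (Nat.succ_pred_eq_of_pos (by positivity)).symm⟩
  obtain ⟨c, hc⟩ := q2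
  have o (n : ℕ) : B (s' + 1) (2 ^ n - 1) := by
    induction n with
    | zero => exact b0
    | succ n k =>
      have := (K (r := s' + 1) 0 _).2 ⟨by simp, k⟩
      rwa [show 2 ^ 0 * (2 * (2 ^ n - 1) + 1) = 2 ^ (n + 1) - 1 by have := n.two_pow_pos; omega] at this
  obtain ⟨t, ht⟩ : ∃ t, 2 ^ c = t + 1 := ⟨_, (Nat.succ_pred_eq_of_pos (by positivity)).symm⟩
  have e2 : 2 ^ ((s' + 1) * q) = 2 * t + 1 + 1 := by rw [hc, pow_succ]; omega
  have z1 : ¬ y (s' + 1) (2 * t) := fun h => by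
    rw [y1 q _ (by omega), e2, show 2 * t + 1 + 1 + 2 * t = 2 ^ 1 * (2 * t + 1) by ring, K] at h
    have := Nat.le_of_dvd one_pos h.1
    omega
  have z2 : y (s' + 1) (2 * t + 1) := by
    rw [y1 q _ (by omega)]
    convert o ((s' + 1) * q + 1) using 1
    omega
  obtain ⟨j, hj⟩ := Nat.exists_eq_add_of_le (show i ≤ Nat.count (¬ y (s' + 1) ·) (2 * t) by
    simpa [Nat.count_nth_of_infinite inf] using Nat.count_monotone (¬ y (s' + 1) ·)
      (show Nat.nth (¬ y (s' + 1) ·) i ≤ 2 * t by omega))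
  obtain ⟨d, rfl⟩ := Nat.exists_eq_add_of_lt d0
  have u := Nat.nth_count (p := (¬ y (s' + 1) ·)) (y2 q (2 * d + 1) (by omega))
  rw [Nat.count_add, cc (p := fun i => ¬ y _ (_ + i)) (q := fun _ => True)
    fun i l => iff_true_intro (y2 q i (by omega)), e2,
    Nat.count_succ, Nat.count_succ, if_pos z1, if_neg (not_not.2 z2), hj, Nat.count_true] at u
  have := p 2 j
  rw [show i + j + 2 * (0 + d + 1) = i + j + 1 + 0 + (2 * d + 1) by ring, u, ← hj,
    Nat.nth_count z1] at this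
  simp [show (2 : ZMod 2) = 0 from rfl] at this
  exact absurd this (by decide)

end Pool.Agent.Lib.H8.Bs
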