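import Mathlib

/-!
Closure of computable functions and predicates under list operations.
-/

namespace Pool.Agent.Lib.H8.CList

variable {α β γ : Type} [Primcodable α] [Primcodable β] [Primcodable γ]

theorem cmap {L : α → List β} {f : α → β → γ} (hL : Computable L) (hf : Computable₂ f) :
    Computable fun a => (L a).map (f a) := by
  have h1 : Computable fun q : α × ℕ × List γ =>
      ((L q.1)[q.2.1]?.map fun b => q.2.2 ++ [f q.1 b]).getD q.2.2 :=
    Computable.option_getD (Computable.option_map
      (Computable.list_getElem?.comp (hL.comp Computable.fst) (Computable.fst.comp Computable.snd))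
      (Computable.list_concat.comp (Computable.snd.comp (Computable.snd.comp Computable.fst))
        (hf.comp (Computable.fst.comp Computable.fst) Computable.snd)).to₂)
      (Computable.snd.comp Computable.snd)
  have h2 : Computable fun a => (Nat.rec [] (fun k acc =>
      ((L a)[k]?.map fun b => acc ++ [f a b]).getD acc) (L a).length : List γ) :=
    Computable.nat_rec (h := fun a (q : ℕ × List γ) =>
      ((L a)[q.1]?.map fun b => q.2 ++ [f a b]).getD q.2)
      (Computable.list_length.comp hL) (Computable.const []) h1.to₂
  refine h2.of_eq fun a => ?_
  have : ∀ n, (Nat.rec [] (fun k acc => ((L a)[k]?.map fun b => acc ++ [f a b]).getD acc) n :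
      List γ) = ((L a).take n).map (f a) := by
    intro n
    induction n with
    | zero => simp
    | succ n ih =>
      simp only [ih, List.take_add_one, List.map_append]
      cases (L a)[n]? <;> simp
  rw [this, List.take_length]

theorem cp {p : β → Prop} {f : α → β} (hp : ComputablePred p) (hf : Computable f) :
    ComputablePred fun x => p (f x) := by
  classical
  exact (hp.decide.comp hf).computablePred

theorem cite {p : α → Prop} [DecidablePred p] {f g : α → β} (hp : ComputablePred p)
    (hf : Computable f) (hg : Computable g) : Computable fun a => if p a then f a else g a :=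
  (Computable.cond hp.decide hf hg).of_eq fun a => by by_cases h : p a <;> simp [h]

theorem cand {p q : α → Prop} (hp : ComputablePred p) (hq : ComputablePred q) :
    ComputablePred fun a => p a ∧ q a := by
  classical
  exact ((cite hp hq.decide (Computable.const false)).of_eq fun a => by
    by_cases h : p a <;> simp [h]).computablePred

theorem cor {p q : α → Prop} (hp : ComputablePred p) (hq : ComputablePred q) :
    ComputablePred fun a => p a ∨ q a :=
  (cand hp.not hq.not).not.of_eq fun a => by tauto

theorem cimp {p q : α → Prop} (hp : ComputablePred p) (hq : ComputablePred q) :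
    ComputablePred fun a => p a → q a :=
  (cor hp.not hq).of_eq fun a => by tauto

theorem ceq {f g : α → β} (hf : Computable f) (hg : Computable g) :
    ComputablePred fun a => f a = g a :=
  cp (p := fun q : β × β => q.1 = q.2) Primrec.eq.computablePred (hf.pair hg)

theorem cfilter {L : α → List β} {p : α → β → Prop} [∀ a, DecidablePred (p a)] (hL : Computable L)
    (hp : ComputablePred fun q : α × β => p q.1 q.2) :
    Computable fun a => (L a).filter fun b => p a b := by
  have h1 : Computable fun a => (L a).map fun b => if p a b then [b] else [] :=
    cmap hL (cite hp (Computable.list_cons.comp Computable.snd (Computable.const []))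
      (Computable.const [])).to₂
  refine (Primrec.list_flatten.to_comp.comp h1).of_eq fun a => ?_
  induction L a with
  | nil => rfl
  | cons b l ih => by_cases h : p a b <;> simp [h, ih]

theorem call {L : α → List β} {p : α → β → Prop} (hL : Computable L)
    (hp : ComputablePred fun q : α × β => p q.1 q.2) :
    ComputablePred fun a => ∀ b ∈ L a, p a b := by
  classical
  exact (ceq (Computable.list_length.comp (cfilter hL hp))
    (Computable.list_length.comp hL)).of_eq fun a => by simp

theorem csum : Primrec fun l : List ℕ => l.sum :=
  (Primrec.list_foldr Primrec.id (Primrec.const 0) (Primrec.nat_add.comp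
    (Primrec.fst.comp Primrec.snd) (Primrec.snd.comp Primrec.snd)).to₂).of_eq
      fun l => by simp [List.sum_eq_foldr]

/-- A computable selector for a computable total relation. -/
theorem csel [Inhabited β] {P : α → β → Prop} (hP : ComputablePred fun q : α × β => P q.1 q.2)
    (hex : ∀ a, ∃ b, P a b) : ∃ f : α → β, Computable f ∧ ∀ a, P a (f a) := by
  classical
  let dec : ℕ → β := fun n => (Encodable.decode n).getD default
  have hd : Computable dec :=
    (Primrec.option_getD.comp Primrec.decode (Primrec.const default)).to_comp
  have h1 : ∀ a, ∃ n, P a (dec n) := fun a => by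
    obtain ⟨b, hb⟩ := hex a
    exact ⟨Encodable.encode b, by simpa [dec] using hb⟩
  exact ⟨fun a => dec (Nat.find (h1 a)), hd.comp (Computable.find (P := fun a n => P a (dec n))
    (cp hP (Computable.fst.pair (hd.comp Computable.snd))) h1), fun a => Nat.find_spec (h1 a)⟩

end Pool.Agent.Lib.H8.CList
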