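import Pool.Agent.Lib.H8.Arith
import Pool.Agent.Lib.H8.CList

/-!
C.e. sets, their indices, and closure under computable binary rules.
-/

namespace Pool.Agent.Lib.H8.CeAlg

open Arith CList Nat.Partrec

/-- The `e`-th c.e. set. -/
def W (e : ℕ) : Set ℕ := {x | ((Denumerable.ofNat Code e).eval x).Dom}

/-- Computable reducibility of binary relations on the naturals. -/
def Red (E F : ℕ → ℕ → Prop) : Prop :=
  ∃ h : ℕ → ℕ, Computable h ∧ ∀ x y, E x y ↔ F (h x) (h y)

variable {α β : Type} [Primcodable α] [Primcodable β]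

theorem w_sig {e x : α → ℕ} (he : Computable e) (hx : Computable x) :
    Sig 1 α fun a => x a ∈ W (e a) :=
  (Sig.ex (A := fun q : α × ℕ => q.2 ∈ (Denumerable.ofNat Code (e q.1)).eval (x q.1))
    (ev_sig.comp ((he.comp Computable.fst).pair
      ((hx.comp Computable.fst).pair Computable.snd)))).of_eq fun a =>
        (Part.dom_iff_mem (o := (Denumerable.ofNat Code (e a)).eval (x a))).symm

theorem w_idx {A : β × ℕ → Prop} (hA : Sig 1 (β × ℕ) A) :
    ∃ s : β → ℕ, Computable s ∧ ∀ b a, a ∈ W (s b) ↔ A (b, a) := by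
  classical
  obtain ⟨B, hB, e⟩ := hA
  have hB' : ComputablePred B := (ComputablePred.not hB).of_eq fun p => by simp
  have h : Partrec fun p : β × ℕ => Nat.rfind fun x => Part.some (decide (B (p, x))) :=
    Partrec.rfind hB'.decide.partrec
  obtain ⟨s, hs, es⟩ := smn h
  refine ⟨s, hs, fun b a => ?_⟩
  rw [W, Set.mem_ofPred_eq, es, e]
  refine Nat.rfind_dom.trans ⟨fun ⟨t, ht, _⟩ => ⟨t, by simpa using ht⟩,
    fun ⟨t, ht⟩ => ⟨t, by simpa using ht, by intros; trivial⟩⟩

theorem diag (n : ℕ) : ∃ A : ℕ → Prop, Sig (n + 1) ℕ A ∧ ¬ Sig (n + 1) ℕ fun a => ¬ A a := by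
  obtain ⟨U, h1, h2⟩ := universal n
  refine ⟨fun a => U (a, a), h1.comp (Computable.id.pair Computable.id), fun h => ?_⟩
  obtain ⟨s, -, e⟩ := h2 ℕ _ (h.comp Computable.snd)
  exact iff_not_self (e 0 (s 0)).symm

theorem cs {p : α → Prop} {n : ℕ} (h : ComputablePred p) : Sig n α p :=
  Sig.mono (n := 0) h (Nat.zero_le _)

inductive Cl (Ax : α → Prop) (R : α → α → α → Prop) : α → Prop
  | ax {a} : Ax a → Cl Ax R a
  | st {p q a} : Cl Ax R p → Cl Ax R q → R p q a → Cl Ax R a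

omit [Primcodable α] in
theorem cl_iff {Ax : α → Prop} {R : α → α → α → Prop} {a : α} : Cl Ax R a ↔
    ∃ D : List (α × ℕ), (¬ ∀ z ∈ D, ¬ z.1 = a) ∧ ∀ z ∈ D, Ax z.1 ∨
      ¬ ∀ y ∈ D, ∀ w ∈ D, ¬ (y.2 < z.2 ∧ w.2 < z.2 ∧ R y.1 w.1 z.1) := by
  simp only [not_forall, not_not, exists_prop]
  constructor
  · intro h
    induction h with
    | ax h => exact ⟨[(_, 0)], ⟨_, List.mem_singleton_self _, rfl⟩, by simpa using h⟩
    | @st p q a _ _ r i1 i2 =>
      obtain ⟨D, ⟨y, y1, rfl⟩, d⟩ := i1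
      obtain ⟨D', ⟨w, w1, rfl⟩, d'⟩ := i2
      refine ⟨(a, y.2 + w.2 + 1) :: (D ++ D'), ⟨_, List.mem_cons_self, rfl⟩, fun z hz => ?_⟩
      rcases List.mem_cons.1 hz with rfl | hz
      · exact Or.inr ⟨y, by simp [y1], w, by simp [w1], by simp, by simp, r⟩
      rcases List.mem_append.1 hz with hz | hz
      · exact (d z hz).imp id fun ⟨u, u1, v, v1, k⟩ => ⟨u, by simp [u1], v, by simp [v1], k⟩
      · exact (d' z hz).imp id fun ⟨u, u1, v, v1, k⟩ => ⟨u, by simp [u1], v, by simp [v1], k⟩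
  · rintro ⟨D, ⟨z, hz, rfl⟩, d⟩
    induction h : z.2 using Nat.strong_induction_on generalizing z with
    | _ n ih =>
      rcases d z hz with a | ⟨y, y1, w, w1, k1, k2, k3⟩
      · exact Cl.ax a
      · exact Cl.st (ih _ (h ▸ k1) y y1 rfl) (ih _ (h ▸ k2) w w1 rfl) k3

theorem cl_sig {γ : Type} [Denumerable γ] {Ax : β → γ → Prop} {R : γ → γ → γ → Prop}
    (h1 : Sig 1 (β × γ) fun q => Ax q.1 q.2)
    (h2 : ComputablePred fun q : γ × γ × γ => R q.1 q.2.1 q.2.2) :
    Sig 1 (β × γ) fun q => Cl (Ax q.1) R q.2 := by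
  let d : γ × ℕ := (Denumerable.ofNat γ 0, 0)
  have a0 : Computable fun q : ((β × γ) × List (γ × ℕ)) × ℕ => q.1.2.getD q.2 d :=
    (Primrec.list_getD d).to_comp.comp (Computable.snd.comp Computable.fst) Computable.snd
  have lt : ComputablePred fun q : ℕ × ℕ => q.1 < q.2 := Primrec.nat_lt.computablePred
  have a1 : ComputablePred fun q : ((List (γ × ℕ) × γ × ℕ) × γ × ℕ) × γ × ℕ =>
      q.1.2.2 < q.1.1.2.2 ∧ q.2.2 < q.1.1.2.2 ∧ R q.1.2.1 q.2.1 q.1.1.2.1 := by
    have b1 : Computable fun q : ((List (γ × ℕ) × γ × ℕ) × γ × ℕ) × γ × ℕ => q.1.1.2 :=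
      Computable.snd.comp (Computable.fst.comp Computable.fst)
    have b2 : Computable fun q : ((List (γ × ℕ) × γ × ℕ) × γ × ℕ) × γ × ℕ => q.1.2 :=
      Computable.snd.comp Computable.fst
    exact cand (cp lt ((Computable.snd.comp b2).pair (Computable.snd.comp b1)))
      (cand (cp lt ((Computable.snd.comp Computable.snd).pair (Computable.snd.comp b1)))
        (cp h2 ((Computable.fst.comp b2).pair
          ((Computable.fst.comp Computable.snd).pair (Computable.fst.comp b1)))))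
  have a2 : ComputablePred fun q : List (γ × ℕ) × γ × ℕ =>
      ¬ ∀ y ∈ q.1, ∀ w ∈ q.1, ¬ (y.2 < q.2.2 ∧ w.2 < q.2.2 ∧ R y.1 w.1 q.2.1) :=
    (call Computable.fst (call (Computable.fst.comp Computable.fst) a1.not)).not
  have a3 := ((h1.comp ((Computable.fst.comp (Computable.fst.comp Computable.fst)).pair
    (Computable.fst.comp a0))).or (cs (cp a2 ((Computable.snd.comp Computable.fst).pair a0)))).ball
      (Computable.list_length.comp Computable.snd)
  have a4 : ComputablePred fun q : (β × γ) × List (γ × ℕ) => ¬ ∀ z ∈ q.2, ¬ z.1 = q.1.2 :=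
    (call Computable.snd (ceq (Computable.fst.comp Computable.snd)
      (Computable.snd.comp (Computable.fst.comp Computable.fst))).not).not
  refine (Sig.exd ((cs a4).and a3)).of_eq fun q => ?_
  rw [cl_iff]
  refine exists_congr fun D => and_congr_right fun _ => ⟨fun h z hz => ?_, fun h i hi => ?_⟩
  · obtain ⟨i, hi, rfl⟩ := List.getElem_of_mem hz
    simpa only [List.getD_eq_getElem _ _ hi] using h i hi
  · simp only [List.getD_eq_getElem _ _ hi]
    exact h _ (List.getElem_mem hi)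

/-- No `Π⁰₂` relation is complete for `Σ⁰₃` equivalence relations. -/
theorem not_complete {I : ℕ → ℕ → Prop} (h : Sig 2 (ℕ × ℕ) fun p => ¬ I p.1 p.2) :
    ∃ E : ℕ → ℕ → Prop, Equivalence E ∧ Sig 3 (ℕ × ℕ) (fun p => E p.1 p.2) ∧ ¬ Red E I := by
  obtain ⟨A, a1, a2⟩ := diag 1
  have b : Sig 2 ℕ fun x => x = 0 ∨ A (x - 1) := (cs (ceq Computable.id (Computable.const 0))).or
    (a1.comp (Primrec.nat_sub.comp Primrec.id (Primrec.const 1)).to_comp)
  refine ⟨fun x y => x = y ∨ (x = 0 ∨ A (x - 1)) ∧ (y = 0 ∨ A (y - 1)),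
    ⟨fun _ => Or.inl rfl, by grind, by grind⟩, ((cs (ceq Computable.fst Computable.snd)).or
      ((b.comp Computable.fst).and (b.comp Computable.snd))).succ, fun ⟨g, g1, g2⟩ => a2 ?_⟩
  refine (h.comp ((g1.comp Computable.succ).pair (Computable.const (g 0)))).of_eq fun x => ?_
  simp [← g2]

/-- A monotonicity principle in the style of Rice and Shapiro. -/
theorem rice {P : ℕ → Prop} (h : Sig 1 ℕ P) {i j : ℕ} (hij : W i ⊆ W j)
    (h1 : ∀ e, W e = W i → P e) (h2 : ∀ e, W e = W j → P e → P j) : P j := by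
  obtain ⟨A, a1, a2⟩ := diag 0
  obtain ⟨s, s1, s2⟩ := w_idx (A := fun q : ℕ × ℕ => q.2 ∈ W i ∨ A q.1 ∧ q.2 ∈ W j)
    ((w_sig (Computable.const i) Computable.snd).or
      ((a1.comp Computable.fst).and (w_sig (Computable.const j) Computable.snd)))
  by_contra k
  refine a2 ((h.comp s1).of_eq fun x => ⟨fun p a => k (h2 _ (Set.ext fun y => ?_) p),
    fun a => h1 _ (Set.ext fun y => by simp [s2, a])⟩)
  simpa [s2, a] using @hij y

end Pool.Agent.Lib.H8.CeAlg
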