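import Pool.Agent.Lib.H8.CeAlg

/-!
C.e. presented algebras in a signature consisting of constants, with no laws.
-/

namespace Pool.Agent.Lib.H8.CeConst

open Arith CList CeAlg

/-- Terms in `n` generators and constants indexed by the set `C`. -/
abbrev Tm (n : ℕ) (C : Set ℕ) := Fin n ⊕ C

/-- The coding of terms. -/
def enc {n : ℕ} {C : Set ℕ} : Tm n C → ℕ
  | .inl j => j
  | .inr c => n + c

/-- The congruence generated by the pairs coded in `W e`. -/
def Th (n : ℕ) (C : Set ℕ) (e : ℕ) : Tm n C → Tm n C → Prop :=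
  Relation.EqvGen fun s t => Nat.pair (enc s) (enc t) ∈ W e

/-- The presented algebras are isomorphic. -/
def Iso (n : ℕ) (C : Set ℕ) (e i : ℕ) : Prop :=
  ∃ φ : Quot (Th n C e) ≃ Quot (Th n C i), ∀ c : C, φ (Quot.mk _ (.inr c)) = Quot.mk _ (.inr c)

variable {n : ℕ} {C : Set ℕ} {e i : ℕ}

theorem th_eqv : Equivalence (Th n C e) := Relation.EqvGen.is_equivalence _

theorem mk_eq {s t : Tm n C} : Quot.mk (Th n C e) s = Quot.mk _ t ↔ Th n C e s t :=
  Quot.eq.trans th_eqv.eqvGen_iff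

theorem enc_inj : Function.Injective (enc : Tm n C → ℕ) := by
  rintro (⟨a, ha⟩ | ⟨a, ha⟩) (⟨b, hb⟩ | ⟨b, hb⟩) h <;> simp [enc] at h ⊢ <;> omega

theorem th_of_ker {π : Tm n C → ℕ} (h : ∀ s t, Nat.pair (enc s) (enc t) ∈ W e ↔ π s = π t)
    (s t : Tm n C) : Th n C e s t ↔ π s = π t := by
  refine ⟨fun k => ?_, fun k => .rel _ _ ((h s t).2 k)⟩
  induction k with
  | rel _ _ k => exact (h _ _).1 k
  | refl => rfl
  | symm _ _ _ i => exact i.symm
  | trans _ _ _ _ _ i j => exact i.trans j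

def Vd (n : ℕ) (C : Set ℕ) (a : ℕ) : Prop := a < n ∨ a - n ∈ C

theorem vd_iff {a : ℕ} : Vd n C a ↔ ∃ s : Tm n C, enc s = a := by
  constructor
  · intro h
    by_cases l : a < n
    · exact ⟨.inl ⟨a, l⟩, rfl⟩
    · exact ⟨.inr ⟨a - n, h.resolve_left l⟩, by simp [enc]; omega⟩
  · rintro ⟨j | c, rfl⟩
    · exact Or.inl j.2
    · exact Or.inr (by simp [enc])

def TN (n : ℕ) (C : Set ℕ) (e a b : ℕ) : Prop :=
  Cl (fun p : ℕ × ℕ => Vd n C p.1 ∧ Vd n C p.2 ∧ (Nat.pair p.1 p.2 ∈ W e ∨ p.1 = p.2))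
    (fun p q r => r = (p.2, p.1) ∨ p.2 = q.1 ∧ r = (p.1, q.2)) (a, b)

theorem tn_iff {s t : Tm n C} : TN n C e (enc s) (enc t) ↔ Th n C e s t := by
  constructor
  · have : ∀ p, Cl (fun p : ℕ × ℕ => Vd n C p.1 ∧ Vd n C p.2 ∧
        (Nat.pair p.1 p.2 ∈ W e ∨ p.1 = p.2))
        (fun p q r => r = (p.2, p.1) ∨ p.2 = q.1 ∧ r = (p.1, q.2)) p →
        ∃ s t, p = (enc s, enc t) ∧ Th n C e s t := fun p h => by
      induction h with
      | @ax p h =>
        obtain ⟨s, hs⟩ := vd_iff.1 h.1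
        obtain ⟨t, ht⟩ := vd_iff.1 h.2.1
        refine ⟨s, t, by rw [hs, ht], ?_⟩
        rcases h.2.2 with k | k
        · exact .rel _ _ (by rwa [hs, ht])
        · rw [enc_inj (hs.trans (k.trans ht.symm))]
          exact .refl _
      | st _ _ r i j =>
        obtain ⟨s, t, rfl, i⟩ := i
        obtain ⟨s', t', rfl, j⟩ := j
        rcases r with rfl | ⟨r, rfl⟩
        exacts [⟨_, _, rfl, th_eqv.symm i⟩, ⟨_, _, rfl, th_eqv.trans i (enc_inj r ▸ j)⟩]
    intro h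
    obtain ⟨s', t', k, h⟩ := this _ h
    rwa [enc_inj (Prod.mk.inj k).1, enc_inj (Prod.mk.inj k).2]
  · intro h
    induction h with
    | rel s t h => exact .ax ⟨vd_iff.2 ⟨s, rfl⟩, vd_iff.2 ⟨t, rfl⟩, Or.inl h⟩
    | refl s => exact .ax ⟨vd_iff.2 ⟨s, rfl⟩, vd_iff.2 ⟨s, rfl⟩, Or.inr rfl⟩
    | symm _ _ _ i => exact .st i i (Or.inl rfl)
    | trans _ _ _ _ _ i j => exact .st i j (Or.inr ⟨rfl, rfl⟩)

theorem tn_sig {α : Type} [Primcodable α] (hC : ComputablePred (· ∈ C)) {e a b : α → ℕ}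
    (he : Computable e) (ha : Computable a) (hb : Computable b) :
    Sig 1 α fun x => TN n C (e x) (a x) (b x) := by
  have v : ComputablePred (Vd n C) :=
    cor (Primrec.nat_lt.comp Primrec.id (Primrec.const n)).computablePred
      (cp hC (Primrec.nat_sub.comp Primrec.id (Primrec.const n)).to_comp)
  have p1 : Computable fun z : ℕ × ℕ × ℕ => z.2.1 := Computable.fst.comp Computable.snd
  have p2 : Computable fun z : ℕ × ℕ × ℕ => z.2.2 := Computable.snd.comp Computable.snd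
  have r : Computable fun z : (ℕ × ℕ) × (ℕ × ℕ) × ℕ × ℕ => z.2.2 :=
    Computable.snd.comp Computable.snd
  have a1 : Computable fun z : (ℕ × ℕ) × (ℕ × ℕ) × ℕ × ℕ => z.1.1 :=
    Computable.fst.comp Computable.fst
  have b1 : Computable fun z : (ℕ × ℕ) × (ℕ × ℕ) × ℕ × ℕ => z.1.2 :=
    Computable.snd.comp Computable.fst
  have c1 : Computable fun z : (ℕ × ℕ) × (ℕ × ℕ) × ℕ × ℕ => z.2.1.1 :=
    Computable.fst.comp (Computable.fst.comp Computable.snd)
  have d1 : Computable fun z : (ℕ × ℕ) × (ℕ × ℕ) × ℕ × ℕ => z.2.1.2 :=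
    Computable.snd.comp (Computable.fst.comp Computable.snd)
  exact (cl_sig (β := ℕ) (Ax := fun e (p : ℕ × ℕ) => Vd n C p.1 ∧ Vd n C p.2 ∧
    (Nat.pair p.1 p.2 ∈ W e ∨ p.1 = p.2))
    (R := fun p q r => r = (p.2, p.1) ∨ p.2 = q.1 ∧ r = (p.1, q.2))
    ((cs (cp v p1)).and ((cs (cp v p2)).and ((w_sig Computable.fst
      (Primrec₂.natPair.to_comp.comp p1 p2)).or (cs (ceq p1 p2)))))
    (cor (ceq r (b1.pair a1)) (cand (ceq b1 c1) (ceq r (a1.pair d1))))).comp (he.pair (ha.pair hb))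

/-- The classes that contain no constant. -/
def Ex (n : ℕ) (C : Set ℕ) (e : ℕ) : Set (Quot (Th n C e)) := {q | ∀ c, q ≠ Quot.mk _ (.inr c)}

theorem ex_fin : (Ex n C e).Finite := by
  refine (Set.finite_range fun j : Fin n => Quot.mk (Th n C e) (.inl j)).subset fun q hq => ?_
  obtain ⟨j | c, rfl⟩ := Quot.exists_rep q
  · exact ⟨j, rfl⟩
  · exact absurd rfl (hq c)

theorem iso_iff : Iso n C e i ↔
    (∀ c d : C, Th n C e (.inr c) (.inr d) ↔ Th n C i (.inr c) (.inr d)) ∧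
      (Ex n C e).ncard = (Ex n C i).ncard := by
  classical
  constructor
  · rintro ⟨φ, h⟩
    refine ⟨fun c d => by rw [← mk_eq, ← mk_eq, ← h, ← h, φ.apply_eq_iff_eq], ?_⟩
    refine Set.ncard_congr (fun q _ => φ q) (fun q hq c k => hq c (φ.injective (k.trans (h c).symm)))
      (fun _ _ _ _ k => φ.injective k) fun q hq => ⟨φ.symm q, fun c k => hq c ?_, by simp⟩
    rw [← h, ← k, φ.apply_symm_apply]
  · rintro ⟨h1, h2⟩
    have := ex_fin (n := n) (C := C) (e := e).to_subtype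
    have := ex_fin (n := n) (C := C) (e := i).to_subtype
    obtain ⟨ψ⟩ : Nonempty (Ex n C e ≃ Ex n C i) := Finite.card_eq.1 h2
    have k : ∀ {e} (q : ((Ex n C e)ᶜ : Set _)), ∃ c, q.1 = Quot.mk _ (.inr c) := fun q => by
      simpa [Ex] using q.2
    choose k hk using @k
    have m : ∀ e c, Quot.mk (Th n C e) (.inr c) ∈ (Ex n C e)ᶜ := fun e c h => h c rfl
    let χ : ((Ex n C e)ᶜ : Set _) ≃ ((Ex n C i)ᶜ : Set _) :=
      { toFun := fun q => ⟨_, m i (k q)⟩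
        invFun := fun q => ⟨_, m e (k q)⟩
        left_inv := fun q => Subtype.ext ((mk_eq.2 ((h1 _ _).2 (mk_eq.1 (hk ⟨_, m i (k q)⟩)))).symm.trans
          (hk q).symm)
        right_inv := fun q => Subtype.ext ((mk_eq.2 ((h1 _ _).1 (mk_eq.1 (hk ⟨_, m e (k q)⟩)))).symm.trans
          (hk q).symm) }
    refine ⟨(Equiv.Set.sumCompl _).symm.trans ((ψ.sumCongr χ).trans (Equiv.Set.sumCompl _)),
      fun c => ?_⟩
    rw [Equiv.trans_apply, Equiv.Set.sumCompl_symm_apply_of_notMem (m e c)]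
    exact (mk_eq.2 ((h1 _ _).1 (mk_eq.1 (hk ⟨_, m e c⟩)))).symm

end Pool.Agent.Lib.H8.CeConst
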