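import Mathlib

set_option maxHeartbeats 400000

namespace Pool.Agent.Lib.H8.Col4
open PowerSeries

noncomputable def ex : ℤ⟦X⟧ →ₐ[ℤ] ℤ⟦X⟧ := PowerSeries.expand 4 (by norm_num)

lemma ex_X : ex X = X ^ 4 := PowerSeries.expand_X 4 (by norm_num)

lemma coeff_ex (h : ℤ⟦X⟧) (n : ℕ) : coeff n (ex h) = if 4 ∣ n then coeff (n / 4) h else 0 :=
  PowerSeries.coeff_expand 4 (by norm_num) h

lemma cx (h : ℤ⟦X⟧) (n r s : ℕ) (hr : r < 4) (hs : s < 4) :
    coeff (4 * n + r) (X ^ s * ex h) = if s = r then coeff n h else 0 := by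
  rw [coeff_X_pow_mul', coeff_ex]
  by_cases h1 : s = r
  · subst h1
    have e : 4 * n + s - s = 4 * n := by omega
    simp [e]
  · rw [if_neg h1]
    split_ifs with h2 h3
    · exfalso; omega
    · rfl
    · rfl

noncomputable def sec (r : ℕ) (p : ℤ⟦X⟧) : ℤ⟦X⟧ := PowerSeries.mk fun n => coeff (4 * n + r) p

lemma decomp (p : ℤ⟦X⟧) : p = X ^ 0 * ex (sec 0 p) + X ^ 1 * ex (sec 1 p) + X ^ 2 * ex (sec 2 p)
    + X ^ 3 * ex (sec 3 p) := by
  ext n
  obtain ⟨q, r, hr, rfl⟩ : ∃ q r, r < 4 ∧ n = 4 * q + r :=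
    ⟨n / 4, n % 4, Nat.mod_lt _ (by norm_num), by omega⟩
  simp only [map_add]
  rw [cx _ _ _ _ hr (by norm_num), cx _ _ _ _ hr (by norm_num), cx _ _ _ _ hr (by norm_num),
    cx _ _ _ _ hr (by norm_num)]
  interval_cases r <;> simp [sec]

lemma coeff_mul_ex (p g : ℤ⟦X⟧) (n r : ℕ) (hr : r < 4) :
    coeff (4 * n + r) (p * ex g) = coeff n (sec r p * g) := by
  have e : p * ex g = X ^ 0 * ex (sec 0 p * g) + X ^ 1 * ex (sec 1 p * g) + X ^ 2 * ex (sec 2 p * g)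
    + X ^ 3 * ex (sec 3 p * g) := by
    conv_lhs => rw [decomp p]
    simp only [map_mul]; ring
  rw [e]
  simp only [map_add]
  rw [cx _ _ _ _ hr (by norm_num), cx _ _ _ _ hr (by norm_num), cx _ _ _ _ hr (by norm_num),
    cx _ _ _ _ hr (by norm_num)]
  interval_cases r <;> simp

def c (r : ℕ) : ℤ := if r = 0 then 1 else if r = 1 then -3 else if r = 2 then 3 else -1

def w (n : ℕ) : ℤ := if h : n = 0 then 1 else c (n % 4) * w (n / 4)
decreasing_by omega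

lemma w_zero : w 0 = 1 := by rw [w]; simp

lemma w_rec (q r : ℕ) (hr : r < 4) : w (4 * q + r) = c r * w q := by
  by_cases h : 4 * q + r = 0
  · have h1 : q = 0 := by omega
    have h2 : r = 0 := by omega
    subst h1 h2; simp [c]
  · rw [w, dif_neg h]
    have e1 : (4 * q + r) % 4 = r := by omega
    have e2 : (4 * q + r) / 4 = q := by omega
    rw [e1, e2]

lemma w_odd (n : ℕ) : w n % 2 = 1 := by
  induction n using Nat.strong_induction_on with
  | _ n ih =>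
    by_cases h : n = 0
    · subst h; rw [w_zero]; rfl
    · obtain ⟨q, r, hr, rfl⟩ : ∃ q r, r < 4 ∧ n = 4 * q + r :=
        ⟨n / 4, n % 4, Nat.mod_lt _ (by norm_num), by omega⟩
      have := ih q (by omega)
      rw [w_rec q r hr]
      interval_cases r <;> simp [c] <;> omega

noncomputable def W : ℤ⟦X⟧ := PowerSeries.mk w

noncomputable def ofL : List ℤ → ℤ⟦X⟧
  | [] => 0
  | a :: l => C a + X * ofL l

lemma coeff_ofL (l : List ℤ) (n : ℕ) : coeff n (ofL l) = l.getD n 0 := by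
  induction l generalizing n with
  | nil => simp [ofL]
  | cons a l ih =>
    cases n with
    | zero => simp [ofL]
    | succ n =>
      rw [ofL, map_add, coeff_succ_X_mul, ih, coeff_C, if_neg (by omega), zero_add]; rfl

def sub1 : List ℤ → ℤ → List ℤ
  | [], c => [-c]
  | a :: l, c => (a - c) :: sub1 l a

lemma ofL_sub1 (l : List ℤ) (c : ℤ) : ofL (sub1 l c) = (1 - X) * ofL l - C c := by
  induction l generalizing c with
  | nil => simp [sub1, ofL]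
  | cons a l ih => simp only [sub1, ofL, ih, map_sub]; ring

lemma len_sub1 (l : List ℤ) (c : ℤ) : (sub1 l c).length = l.length + 1 := by
  induction l generalizing c with
  | nil => simp [sub1]
  | cons a l ih => simp [sub1, ih]

def itr : ℕ → List ℤ → List ℤ
  | 0, l => l
  | k + 1, l => itr k (sub1 l 0)

lemma ofL_itr (k : ℕ) (l : List ℤ) : ofL (itr k l) = (1 - X) ^ k * ofL l := by
  induction k generalizing l with
  | zero => simp [itr]
  | succ k ih => simp only [itr, ih, ofL_sub1, map_zero]; ring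

lemma len_itr (k : ℕ) (l : List ℤ) : (itr k l).length = l.length + k := by
  induction k generalizing l with
  | zero => simp [itr]
  | succ k ih => simp only [itr, ih, len_sub1]; ring

lemma W_eq : W = (1 - X) ^ 3 * ex W := by
  have e : ((1 - X) ^ 3 : ℤ⟦X⟧) = ofL [1, -3, 3, -1] := by
    simp only [ofL, map_neg, map_one, map_ofNat]; ring
  ext n
  obtain ⟨q, r, hr, rfl⟩ : ∃ q r, r < 4 ∧ n = 4 * q + r :=
    ⟨n / 4, n % 4, Nat.mod_lt _ (by norm_num), by omega⟩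
  rw [coeff_mul_ex _ _ _ _ hr]
  have e2 : sec r ((1 - X) ^ 3) = C (c r) := by
    ext k
    rw [e, sec, coeff_mk, coeff_ofL, coeff_C]
    cases k with
    | zero => interval_cases r <;> simp [c]
    | succ k =>
      rw [List.getD_eq_default _ _ (by simp; omega)]; simp
  rw [e2, coeff_C_mul, W, coeff_mk, coeff_mk, w_rec q r hr]

lemma dvd_iff (N : ℤ) (a : ℤ⟦X⟧) : C N ∣ a ↔ ∀ n, N ∣ coeff n a := by
  constructor
  · rintro ⟨b, rfl⟩ n
    rw [coeff_C_mul]; exact dvd_mul_right _ _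
  · intro h
    refine ⟨PowerSeries.mk fun n => coeff n a / N, ?_⟩
    ext n
    rw [coeff_C_mul, coeff_mk, Int.mul_ediv_cancel' (h n)]

def nxt (N : ℤ) (D : ℕ) (p : List ℤ) (r : ℕ) : List ℤ :=
  (List.range (D + 1)).map fun n => (itr (3 * D) p).getD (4 * n + r) 0 % N

lemma len_nxt (N : ℤ) (D : ℕ) (p : List ℤ) (r : ℕ) : (nxt N D p r).length = D + 1 := by
  simp [nxt]

lemma step (N : ℤ) (D : ℕ) (p : List ℤ) (hp : p.length ≤ D + 1) (n r : ℕ) (hr : r < 4) :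
    N ∣ coeff (4 * n + r) (ofL p * W ^ D) - coeff n (ofL (nxt N D p r) * W ^ D) := by
  have e : ofL p * W ^ D = ofL (itr (3 * D) p) * ex (W ^ D) := by
    conv_lhs => rw [W_eq]
    rw [ofL_itr, map_pow, mul_pow, ← pow_mul]; ring
  rw [e, coeff_mul_ex _ _ _ _ hr, ← map_sub, ← sub_mul]
  refine (dvd_iff N _).1 (Dvd.dvd.mul_right ((dvd_iff N _).2 fun k => ?_) _) n
  rw [map_sub, sec, coeff_mk, coeff_ofL, coeff_ofL]
  by_cases hk : k < D + 1
  · have : (nxt N D p r).getD k 0 = (itr (3 * D) p).getD (4 * k + r) 0 % N := by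
      simp [nxt, List.getD_eq_getElem?_getD, hk]
    rw [this]
    exact Int.dvd_self_sub_emod
  · rw [List.getD_eq_default _ _ (by rw [len_itr]; omega),
      List.getD_eq_default _ _ (by rw [len_nxt]; omega)]
    simp

lemma coeff0_W (D : ℕ) (p : List ℤ) : coeff 0 (ofL p * W ^ D) = p.getD 0 0 := by
  rw [← coeff_ofL]
  have : constantCoeff W = 1 := by simp [W, w_zero]
  simp [this]

lemma aut (N : ℤ) (D : ℕ) (T : List (List ℤ))
    (hT : ∀ p ∈ T, p.length ≤ D + 1 ∧ ∀ r < 4, nxt N D p r ∈ T) (n : ℕ) :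
    ∀ p ∈ T, ∃ p' ∈ T, N ∣ coeff n (ofL p * W ^ D) - p'.getD 0 0 := by
  induction n using Nat.strong_induction_on with
  | _ n ih =>
    intro p hp
    by_cases h : n = 0
    · subst h
      exact ⟨p, hp, by rw [coeff0_W]; simp⟩
    · obtain ⟨q, r, hr, rfl⟩ : ∃ q r, r < 4 ∧ n = 4 * q + r :=
        ⟨n / 4, n % 4, Nat.mod_lt _ (by norm_num), by omega⟩
      obtain ⟨p', hp', h2⟩ := ih q (by omega) _ ((hT p hp).2 r hr)
      refine ⟨p', hp', ?_⟩
      have := dvd_add (step N D p (hT p hp).1 q r hr) h2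
      simpa using this

noncomputable def Phi : ℤ⟦X⟧ := (1 - X) * W

lemma Phi_pow (D : ℕ) : Phi ^ D = ofL (itr D [1]) * W ^ D := by
  rw [ofL_itr, Phi, mul_pow]; simp [ofL]

lemma notdvd (N : ℤ) (D : ℕ) (T : List (List ℤ))
    (hT : ∀ p ∈ T, p.length ≤ D + 1 ∧ ∀ r < 4, nxt N D p r ∈ T) (h0 : itr D [1] ∈ T)
    (h1 : ∀ p ∈ T, p.getD 0 0 % N ≠ 0) (n : ℕ) : ¬ N ∣ coeff n (Phi ^ D) := by
  intro h
  obtain ⟨p', hp', h2⟩ := aut N D T hT n _ h0
  rw [← Phi_pow] at h2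
  apply h1 p' hp'
  apply Int.emod_eq_zero_of_dvd
  have := dvd_sub h h2
  simpa using this

lemma n3 (n : ℕ) : ¬ (8 : ℤ) ∣ coeff n (Phi ^ 3) :=
  notdvd 8 3 [itr 3 [1], [1, 5, 3, 7], [1, 7, 7, 1], [2, 4, 2, 0], [4, 0, 4, 0], [6, 4, 6, 0]]
    (by decide +kernel) (by decide +kernel) (by decide +kernel) n

lemma n4 (n : ℕ) : ¬ (32 : ℤ) ∣ coeff n (Phi ^ 4) :=
  notdvd 32 4 [itr 4 [1], [1, 28, 6, 28, 1], [8, 8, 24, 24, 0], [16, 16, 16, 16, 0],
    [24, 8, 8, 24, 0], [24, 24, 8, 8, 0]]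
    (by decide +kernel) (by decide +kernel) (by decide +kernel) n

lemma n6 (n : ℕ) : ¬ (32 : ℤ) ∣ coeff n (Phi ^ 6) :=
  notdvd 32 6 [itr 6 [1], [1, 2, 15, 28, 15, 2, 1], [1, 26, 15, 12, 15, 26, 1],
    [4, 20, 8, 8, 20, 4, 0], [4, 28, 8, 24, 20, 12, 0], [8, 24, 16, 16, 8, 24, 0],
    [12, 20, 24, 8, 28, 4, 0], [16, 16, 0, 0, 16, 16, 0], [20, 4, 8, 8, 4, 20, 0],
    [20, 12, 8, 24, 4, 28, 0], [24, 8, 16, 16, 24, 8, 0], [28, 4, 24, 8, 12, 20, 0]]
    (by decide +kernel) (by decide +kernel) (by decide +kernel) n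

lemma n14 (n : ℕ) : ¬ (32 : ℤ) ∣ coeff n (Phi ^ 14) :=
  notdvd 32 14 [itr 14 [1], [1, 18, 27, 20, 9, 14, 27, 24, 27, 14, 9, 20, 27, 18, 1],
    [1, 26, 27, 4, 9, 6, 27, 24, 27, 6, 9, 4, 27, 26, 1],
    [4, 20, 24, 24, 12, 28, 16, 16, 28, 12, 24, 24, 20, 4, 0],
    [4, 28, 24, 8, 12, 20, 16, 16, 28, 4, 24, 8, 20, 12, 0],
    [8, 24, 16, 16, 24, 8, 0, 0, 24, 8, 16, 16, 8, 24, 0],
    [12, 20, 8, 24, 4, 28, 16, 16, 20, 12, 8, 24, 28, 4, 0],
    [16, 16, 0, 0, 16, 16, 0, 0, 16, 16, 0, 0, 16, 16, 0],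
    [20, 4, 24, 24, 28, 12, 16, 16, 12, 28, 24, 24, 4, 20, 0],
    [20, 12, 24, 8, 28, 4, 16, 16, 12, 20, 24, 8, 4, 28, 0],
    [24, 8, 16, 16, 8, 24, 0, 0, 8, 24, 16, 16, 24, 8, 0],
    [28, 4, 8, 24, 20, 12, 16, 16, 4, 28, 8, 24, 12, 20, 0]]
    (by decide +kernel) (by decide +kernel) (by decide +kernel) n

end Pool.Agent.Lib.H8.Col4
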