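import Pool.Agent.Lib.H8.Col4

set_option maxHeartbeats 400000

namespace Pool.Agent.Lib.H8.Col4
open PowerSeries

lemma coeff_Phi (n : ℕ) : coeff (n + 1) Phi = w (n + 1) - w n := by
  rw [Phi, sub_mul, one_mul, map_sub, coeff_succ_X_mul, W, coeff_mk, coeff_mk]

lemma coeff0_Phi : coeff 0 Phi = 1 := by
  have := coeff0_W 1 (itr 1 [1])
  rw [← Phi_pow, pow_one] at this
  rw [this]; decide

lemma C2 : (C (2 : ℤ) : ℤ⟦X⟧) = 2 := map_ofNat _ 2

lemma Phi_odd : ∃ h : ℤ⟦X⟧, Phi = 1 + 2 * h := by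
  have : C (2 : ℤ) ∣ Phi - 1 := by
    rw [dvd_iff]
    intro n
    cases n with
    | zero => rw [map_sub, coeff0_Phi]; simp
    | succ n =>
      rw [map_sub, coeff_Phi, coeff_one, if_neg (by omega)]
      have := w_odd n
      have := w_odd (n + 1)
      omega
  obtain ⟨h, hh⟩ := this
  exact ⟨h, by rw [← C2, ← hh]; ring⟩

lemma Phi_two_pow (j : ℕ) : ∃ h : ℤ⟦X⟧, Phi ^ (2 ^ j) = 1 + 2 ^ (j + 1) * h := by
  induction j with
  | zero => simpa using Phi_odd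
  | succ j ih =>
    obtain ⟨h, hh⟩ := ih
    refine ⟨h + 2 ^ j * h ^ 2, ?_⟩
    rw [pow_succ 2 j, pow_mul, hh]; ring

lemma one_add_pow (a u : ℤ⟦X⟧) (t : ℕ) : ∃ z, (1 + a * u) ^ t = 1 + a * (t * u + a * z) := by
  induction t with
  | zero => exact ⟨0, by simp⟩
  | succ t ih =>
    obtain ⟨z, hz⟩ := ih
    refine ⟨z + t * u ^ 2 + a * z * u, ?_⟩
    rw [pow_succ, hz]; push_cast; ring

lemma cong (F : ℤ⟦X⟧) (m D j t : ℕ) (hF : F * Phi ^ m = 1) (h : m + D = 2 ^ j * t) (n : ℕ) :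
    (2 : ℤ) ^ (j + 1) ∣ coeff n F - coeff n (Phi ^ D) := by
  obtain ⟨u, hu⟩ := Phi_two_pow j
  obtain ⟨z, hz⟩ := one_add_pow (2 ^ (j + 1)) u t
  have e : F * Phi ^ (m + D) = Phi ^ D := by rw [pow_add, ← mul_assoc, hF, one_mul]
  rw [h, pow_mul, hu, hz] at e
  rw [← map_sub]
  refine (dvd_iff _ _).1 ⟨-(F * (t * u + 2 ^ (j + 1) * z)), ?_⟩ n
  rw [map_pow, C2, ← e]; ring

lemma struct (u : ℤ⟦X⟧) (t : ℕ) (ht : 0 < t) :
    ∃ (b o : ℕ) (z : ℤ⟦X⟧), o % 2 = 1 ∧ (1 + 8 * u) ^ t = 1 + 2 ^ (b + 3) * (o * u + 4 * z) := by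
  induction t using Nat.strong_induction_on with
  | _ t ih =>
    by_cases h : t % 2 = 1
    · obtain ⟨z, hz⟩ := one_add_pow 8 u t
      exact ⟨0, t, 2 * z, h, by rw [hz]; ring⟩
    · obtain ⟨s, rfl⟩ : ∃ s, t = s * 2 := ⟨t / 2, by omega⟩
      obtain ⟨b, o, z, ho, hz⟩ := ih s (by omega) (by omega)
      refine ⟨b + 1, o, z + 2 ^ b * (o * u + 4 * z) ^ 2, ho, ?_⟩
      rw [pow_mul, hz]; ring

def Q (n : ℕ) : Prop := (16 : ℤ) ∣ coeff n (Phi ^ 4) - 8

lemma p1_cong (n : ℕ) :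
    (16 : ℤ) ∣ coeff n (ofL [1, 12, 6, 12, 1] * W ^ 4) - coeff n (Phi ^ 4) := by
  rw [← map_sub]
  refine (dvd_iff _ _).1 ⟨(X + X ^ 3) * W ^ 4, ?_⟩ n
  simp only [ofL, Phi, map_one, map_ofNat]; ring

lemma Q2 (q : ℕ) : Q (4 * q + 2) := by
  have h1 := p1_cong (4 * q + 2)
  have h2 := step 16 4 [1, 12, 6, 12, 1] (by decide) q 2 (by norm_num)
  have e : nxt 16 4 [1, 12, 6, 12, 1] 2 = [8, 8, 8, 8, 0] := by decide +kernel
  rw [e] at h2
  obtain ⟨p', hp', h3⟩ := aut 16 4 [[8, 8, 8, 8, 0]] (by decide +kernel) q [8, 8, 8, 8, 0] (by simp)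
  have : p' = [8, 8, 8, 8, 0] := by simpa using hp'
  subst this
  have e3 : ([8, 8, 8, 8, 0] : List ℤ).getD 0 0 = 8 := rfl
  rw [e3] at h3
  unfold Q
  omega

lemma Q0 (q : ℕ) (h : Q q) : Q (4 * q + 0) := by
  have h1 := p1_cong (4 * q + 0)
  have h1' := p1_cong q
  have h2 := step 16 4 [1, 12, 6, 12, 1] (by decide) q 0 (by norm_num)
  have e : nxt 16 4 [1, 12, 6, 12, 1] 0 = [1, 12, 6, 12, 1] := by decide +kernel
  rw [e] at h2
  unfold Q at h ⊢
  omega

lemma factA (n : ℕ) :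
    (¬ (8 : ℤ) ∣ w (n + 1) - w n ∨ (w (n + 1) - w n = 0 ∧ Q (n + 1))) ∧
    (¬ (8 : ℤ) ∣ w (n + 1) + w n ∨ (w (n + 1) + w n = 0 ∧ Q (n + 1))) := by
  induction n using Nat.strong_induction_on with
  | _ n ih =>
    obtain ⟨q, r, hr, rfl⟩ : ∃ q r, r < 4 ∧ n = 4 * q + r :=
      ⟨n / 4, n % 4, Nat.mod_lt _ (by norm_num), by omega⟩
    have ho := w_odd q
    have a0 := w_rec q 0 (by norm_num)
    have a1 := w_rec q 1 (by norm_num)
    have a2 := w_rec q 2 (by norm_num)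
    have a3 := w_rec q 3 (by norm_num)
    have a4 := w_rec (q + 1) 0 (by norm_num)
    simp only [c] at a0 a1 a2 a3 a4
    norm_num at a0 a1 a2 a3 a4
    interval_cases r
    · rw [add_zero, a1, a0]
      exact ⟨Or.inl (by omega), Or.inl (by omega)⟩
    · rw [show 4 * q + 1 + 1 = 4 * q + 2 by ring, a2, a1]
      exact ⟨Or.inl (by omega), Or.inr ⟨by ring, Q2 q⟩⟩
    · rw [show 4 * q + 2 + 1 = 4 * q + 3 by ring, a3, a2]
      exact ⟨Or.inl (by omega), Or.inl (by omega)⟩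
    · rw [show 4 * q + 3 + 1 = 4 * (q + 1) by ring, a4, a3]
      obtain ⟨i1, i2⟩ := ih q (by omega)
      have hQ : Q (q + 1) → Q (4 * (q + 1)) := fun h => by
        have := Q0 _ h
        rwa [add_zero] at this
      constructor
      · rcases i2 with i | ⟨i, j⟩
        · left; intro h; apply i; simpa using h
        · right; exact ⟨by linarith, hQ j⟩
      · rcases i1 with i | ⟨i, j⟩
        · left; intro h; apply i; simpa [sub_eq_add_neg] using h
        · right; exact ⟨by linarith, hQ j⟩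

lemma coeff_nat_mul (o : ℕ) (u : ℤ⟦X⟧) (n : ℕ) : coeff n ((o : ℤ⟦X⟧) * u) = o * coeff n u := by
  rw [← map_natCast (C (R := ℤ)) o, coeff_C_mul]

lemma coeff_pow2_mul (b : ℕ) (u : ℤ⟦X⟧) (n : ℕ) : coeff n (2 ^ b * u) = 2 ^ b * coeff n u := by
  rw [← C2, ← map_pow, coeff_C_mul]

lemma coeff0_F (F : ℤ⟦X⟧) (m : ℕ) (hF : F * Phi ^ m = 1) : coeff 0 F = 1 := by
  have h := congrArg constantCoeff hF
  have h0 : constantCoeff Phi = 1 := by simpa using coeff0_Phi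
  simpa [h0] using h

theorem bounded (F : ℤ⟦X⟧) (m : ℕ) (hm : 0 < m) (h6 : m % 8 ≠ 6) (hF : F * Phi ^ m = 1) :
    ∃ K : ℕ, ∀ n, ¬ (2 : ℤ) ^ K ∣ coeff n F := by
  obtain ⟨u, hu⟩ := Phi_two_pow 2
  norm_num at hu
  have hun : ∀ n, coeff (n + 1) (Phi ^ 4) = 8 * coeff (n + 1) u := by
    intro n
    have := coeff_pow2_mul 3 u (n + 1)
    norm_num at this
    rw [hu, map_add, coeff_one, if_neg (by omega), this, zero_add]
  have F0 := coeff0_F F m hF
  have h4 : m % 4 = 0 ∨ m % 4 = 1 ∨ m % 16 = 2 ∨ m % 16 = 10 ∨ m % 4 = 3 := by omega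
  rcases h4 with h | h | h | h | h
  · obtain ⟨t, rfl⟩ : ∃ t, m = 4 * t := ⟨m / 4, by omega⟩
    obtain ⟨b, o, z, ho, hz⟩ := struct u t (by omega)
    rw [pow_mul, hu, hz] at hF
    refine ⟨b + 5, fun n hn => ?_⟩
    cases n with
    | zero =>
      rw [F0] at hn
      have : (2 : ℤ) ∣ 1 := (dvd_pow_self 2 (by omega)).trans hn
      omega
    | succ n =>
      have e : F = 1 + 2 ^ (b + 3) * (-(o * u) + 2 ^ 2 *
          (-z + 2 ^ (b + 1) * (o * u + 4 * z) ^ 2 * F)) := by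
        linear_combination (1 - 2 ^ (b + 3) * (o * u + 4 * z)) * hF
      rw [e, map_add, coeff_one, if_neg (by omega), zero_add, coeff_pow2_mul, map_add, map_neg,
        coeff_nat_mul, coeff_pow2_mul, show b + 5 = (b + 3) + 2 by ring, pow_add] at hn
      have h2 := (mul_dvd_mul_iff_left (by positivity)).1 hn
      have h3 : (2 : ℤ) ^ 2 ∣ o * coeff (n + 1) u := by
        exact dvd_neg.1 ((dvd_add_left (dvd_mul_right _ _)).1 h2)
      have h5 : IsCoprime ((2 : ℤ) ^ 2) (o : ℤ) := by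
        apply IsCoprime.pow_left
        exact ⟨-((o / 2 : ℕ) : ℤ), 1, by omega⟩
      have h7 := h5.dvd_of_dvd_mul_left h3
      apply n4 (n + 1)
      rw [hun]
      omega
  · refine ⟨3, fun n hn => n3 n ?_⟩
    have := cong F m 3 2 ((m + 3) / 4) hF (by omega) n
    norm_num at this hn
    omega
  · refine ⟨5, fun n hn => n14 n ?_⟩
    have := cong F m 14 4 ((m + 14) / 16) hF (by omega) n
    norm_num at this hn
    omega
  · refine ⟨5, fun n hn => n6 n ?_⟩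
    have := cong F m 6 4 ((m + 6) / 16) hF (by omega) n
    norm_num at this hn
    omega
  · obtain ⟨t, ht⟩ : ∃ t, m + 1 = 4 * t := ⟨(m + 1) / 4, by omega⟩
    obtain ⟨b, o, z, ho, hz⟩ := struct u t (by omega)
    have e1 : F * Phi ^ (m + 1) = Phi := by rw [pow_succ, ← mul_assoc, hF, one_mul]
    rw [ht, pow_mul, hu, hz] at e1
    obtain ⟨h, hh⟩ := Phi_odd
    refine ⟨b + 4, fun n hn => ?_⟩
    cases n with
    | zero =>
      rw [F0] at hn
      have : (2 : ℤ) ∣ 1 := (dvd_pow_self 2 (by omega)).trans hn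
      omega
    | succ n =>
      have e : F = Phi + 2 ^ (b + 3) * (-(o * u) + 2 ^ 1 *
          (-(o * u * h) - 2 * z * Phi + 2 ^ (b + 2) * (o * u + 4 * z) ^ 2 * F)) := by
        linear_combination (1 - 2 ^ (b + 3) * (o * u + 4 * z)) * e1 - 2 ^ (b + 3) * (o * u) * hh
      rw [e, map_add, coeff_Phi, coeff_pow2_mul, map_add, map_neg,
        coeff_nat_mul, coeff_pow2_mul] at hn
      rcases (factA n).1 with i | ⟨i, j⟩
      · apply i
        have h8 : (8 : ℤ) ∣ 2 ^ (b + 3) := ⟨2 ^ b, by ring⟩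
        have h9 : (8 : ℤ) ∣ 2 ^ (b + 4) := ⟨2 ^ (b + 1), by ring⟩
        exact (dvd_add_left (h8.mul_right _)).1 (h9.trans hn)
      · rw [i, zero_add, show b + 4 = (b + 3) + 1 by ring, pow_add] at hn
        have h2 := (mul_dvd_mul_iff_left (by positivity)).1 hn
        have h3 : (2 : ℤ) ^ 1 ∣ o * coeff (n + 1) u := by
          exact dvd_neg.1 ((dvd_add_left (dvd_mul_right _ _)).1 h2)
        have h5 : IsCoprime ((2 : ℤ) ^ 1) (o : ℤ) := by
          apply IsCoprime.pow_left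
          exact ⟨-((o / 2 : ℕ) : ℤ), 1, by omega⟩
        have h7 := h5.dvd_of_dvd_mul_left h3
        unfold Q at j
        rw [hun] at j
        omega

lemma fin_lists (N : ℤ) (L : ℕ) : {l : List ℤ | l.length = L ∧ ∀ a ∈ l, 0 ≤ a ∧ a < N}.Finite := by
  induction L with
  | zero => exact (Set.finite_singleton []).subset fun l hl => List.length_eq_zero_iff.1 hl.1
  | succ L ih =>
    refine ((Set.finite_Ico (0 : ℤ) N).image2 List.cons ih).subset ?_
    rintro l ⟨h1, h2⟩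
    cases l with
    | nil => simp at h1
    | cons a l =>
      exact ⟨a, h2 a (by simp), l, ⟨by simpa using h1, fun b hb => h2 b (by simp [hb])⟩, rfl⟩

theorem kernel (N : ℤ) (hN : 0 < N) (D : ℕ) (a : ℕ → ℤ)
    (ha : ∀ n, N ∣ a n - coeff n (Phi ^ D)) :
    ∃ T : Set (ℕ → ℤ), T.Finite ∧ ∀ i j, j < 4 ^ i → ∃ f ∈ T, ∀ n, N ∣ a (4 ^ i * n + j) - f n := by
  refine ⟨(fun p n => coeff n (ofL p * W ^ D)) '' (insert (itr D [1])
    {l : List ℤ | l.length = D + 1 ∧ ∀ a ∈ l, 0 ≤ a ∧ a < N}),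
    ((fin_lists N (D + 1)).insert _).image _, ?_⟩
  intro i
  induction i with
  | zero =>
    intro j hj
    have : j = 0 := by omega
    subst this
    refine ⟨_, ⟨itr D [1], Set.mem_insert _ _, rfl⟩, fun n => ?_⟩
    have := ha n
    rw [Phi_pow] at this
    simpa using this
  | succ i ih =>
    intro j hj
    have hp : 0 < 4 ^ i := by positivity
    obtain ⟨f, ⟨p, hp1, rfl⟩, hf⟩ := ih (j % 4 ^ i) (Nat.mod_lt _ hp)
    have hr : j / 4 ^ i < 4 := by
      rw [Nat.div_lt_iff_lt_mul hp]; rw [pow_succ] at hj; omega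
    have hl : p.length ≤ D + 1 := by
      rcases hp1 with rfl | h
      · rw [len_itr]; simp; omega
      · exact h.1.le
    refine ⟨_, ⟨nxt N D p (j / 4 ^ i), Set.mem_insert_of_mem _ ⟨len_nxt _ _ _ _, ?_⟩, rfl⟩,
      fun n => ?_⟩
    · intro b hb
      simp only [nxt, List.mem_map] at hb
      obtain ⟨k, -, rfl⟩ := hb
      exact ⟨Int.emod_nonneg _ hN.ne', Int.emod_lt_of_pos _ hN⟩
    · have e : 4 ^ (i + 1) * n + j = 4 ^ i * (4 * n + j / 4 ^ i) + j % 4 ^ i := by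
        have := Nat.div_add_mod j (4 ^ i)
        rw [pow_succ]; linarith
      rw [e]
      have := dvd_add (hf (4 * n + j / 4 ^ i)) (step N D p hl n _ hr)
      simpa using this

lemma W_prod (k : ℕ) : ∃ E : ℤ⟦X⟧, X ^ (4 ^ k) ∣ E - 1 ∧
    W = (∏ i ∈ Finset.range k, (1 - X ^ (4 ^ i)) ^ 3) * E := by
  induction k with
  | zero =>
    refine ⟨W, ?_, by simp⟩
    rw [X_pow_dvd_iff]
    intro n hn
    have : n = 0 := by omega
    subst this
    simp [W, w_zero]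
  | succ k ih =>
    obtain ⟨E, h1, h2⟩ := ih
    refine ⟨ex E, ?_, ?_⟩
    · have := map_dvd ex h1
      rw [map_pow, ex_X, ← pow_mul, map_sub, map_one] at this
      rwa [pow_succ, mul_comm]
    · rw [Finset.prod_range_succ']
      conv_lhs => rw [W_eq, h2]
      simp only [map_mul, map_prod, map_pow, map_sub, map_one, ex_X, ← pow_mul, pow_zero, pow_one]
      have : ∀ i, 4 * 4 ^ i = 4 ^ (i + 1) := fun i => by ring
      simp only [this]; ring

end Pool.Agent.Lib.H8.Col4
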