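import Pool.Agent.Lib.H8.Om1

/-!
A power of a pointed extension of a perfect space: axioms, separation and generic points.
-/

namespace Pool.Agent.Lib.H8.Cot

open Arith CList Qm Kc Om Classical

/-- Models of a family of implications between open sets. -/
def Mod (U V : ℕ × List ℕ → Prop) (X : Set ℕ) : Prop :=
  ∀ i : ℕ, (∃ l : List ℕ, U (i, l) ∧ ∀ k ∈ l, k ∈ X) → ∃ l : List ℕ, V (i, l) ∧ ∀ k ∈ l, k ∈ X

/-- Effectively axiomatized properties. -/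
def Ax (P : Set ℕ → Prop) : Prop := ∃ U V, Sig 1 _ U ∧ Sig 1 _ V ∧ ∀ X, Mod U V X ↔ P X

lemma Ax.and {P Q : Set ℕ → Prop} (h : Ax P) (h' : Ax Q) : Ax fun X => P X ∧ Q X := by
  obtain ⟨U, V, a, b, c⟩ := h
  obtain ⟨U', V', a', b', c'⟩ := h'
  have u : Computable fun z : ℕ × List ℕ => (z.1.unpair.2, z.2) :=
    (u2.comp Computable.fst).pair Computable.snd
  have v : ComputablePred fun z : ℕ × List ℕ => z.1.unpair.1 = 0 :=
    ceq (u1.comp Computable.fst) (Computable.const 0)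
  refine ⟨_, _, ((CeAlg.cs v).and (a.comp u)).or ((CeAlg.cs v.not).and (a'.comp u)),
    ((CeAlg.cs v).and (b.comp u)).or ((CeAlg.cs v.not).and (b'.comp u)), fun X => ?_⟩
  simp only [← c, ← c']
  refine ⟨fun h => ⟨fun i => by simpa using h (Nat.pair 0 i),
    fun i => by simpa using h (Nat.pair 1 i)⟩, fun h i => ?_⟩
  by_cases e : i.unpair.1 = 0
  · simpa [e] using h.1 i.unpair.2
  · simpa [e] using h.2 i.unpair.2

lemma Ax.base {p : ℕ × ℕ × ℕ × ℕ → List ℕ} {V : (ℕ × ℕ × ℕ × ℕ) × List ℕ → Prop}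
    (hp : Computable p) (hV : Sig 1 _ V) :
    Ax fun X => ∀ i, (∀ k ∈ p i, k ∈ X) → ∃ l, V (i, l) ∧ ∀ k ∈ l, k ∈ X := by
  have u := (Primrec.ofNat (ℕ × ℕ × ℕ × ℕ)).to_comp.comp (Computable.fst (β := List ℕ))
  refine ⟨_, _, CeAlg.cs (ceq Computable.snd (hp.comp u)), hV.comp (u.pair Computable.snd),
    fun X => ⟨fun h i => ?_, fun h i => by simpa using h _⟩⟩
  simpa only [Denumerable.ofNat_encode, exists_eq_left] using h (Encodable.encode i)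

/-- The axioms for one coordinate. -/
def One (R : Set ℕ) : Prop :=
  (∀ i, ∃ m, (3 * i ∈ R ∨ 3 * i + 1 ∈ R) ∧ 3 * m + 2 ∈ R) ∧ (∀ i, 3 * i ∈ R → 3 * i + 1 ∉ R) ∧
    (∀ m d k, 3 * m + 2 ∈ R → 3 * (m + d + 1) + 2 ∈ R → ∃ e, 3 * k + 2 ∈ R ∧ 3 * (k + e) + 1 ∈ R) ∧
    ∀ m d, 3 * m + 2 ∈ R → 3 * (m + d) + 1 ∈ R → 3 * (m + 1) + 2 ∈ R

/-- The points of the space. -/
def Md (X : Set ℕ) : Prop := ∀ n, One {r | Nat.pair n r ∈ X}

lemma md_ax : Ax Md := by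
  have f := @Computable.fst
  have s := @Computable.snd
  have t : ∀ {α : Type} [Primcodable α] {n x : α → ℕ} (c : ℕ), Computable n → Computable x →
      Computable fun a => Nat.pair (n a) (3 * x a + c) := fun c hn hx =>
    Primrec₂.natPair.to_comp.comp hn (ad (ml (Computable.const 3) hx) (Computable.const c))
  have w : ∀ {α : Type} [Primcodable α] {x y : α → ℕ}, Computable x → Computable y →
      Computable fun a => [x a, y a] := fun hx hy =>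
    Computable.list_cons.comp hx (Computable.list_cons.comp hy (Computable.const []))
  have n : Computable fun z : ℕ × ℕ × ℕ × ℕ => z.1 := f
  have a : Computable fun z : ℕ × ℕ × ℕ × ℕ => z.2.1 := f.comp s
  have b : Computable fun z : ℕ × ℕ × ℕ × ℕ => z.2.2.1 := f.comp (s.comp s)
  have c : Computable fun z : ℕ × ℕ × ℕ × ℕ => z.2.2.2 := s.comp (s.comp s)
  have g : Computable fun z : ((ℕ × ℕ × ℕ × ℕ) × List ℕ) × ℕ => z.1.1 := f.comp f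
  have l : Computable fun z : ((ℕ × ℕ × ℕ × ℕ) × List ℕ) × ℕ => z.1.2 := s.comp f
  obtain ⟨U, V, h1, h2, h⟩ := (Ax.base (Computable.const []) (Sig.ex (CeAlg.cs (cor
    (ceq l (w (t 0 (n.comp g) (a.comp g)) (t 2 (n.comp g) s)))
    (ceq l (w (t 1 (n.comp g) (a.comp g)) (t 2 (n.comp g) s))))))).and
    ((Ax.base (w (t 0 n a) (t 1 n a)) (CeAlg.cs (ceq (Computable.const 0) (Computable.const 1)))).and
    ((Ax.base (w (t 2 n a) (t 2 n (Computable.succ.comp (ad a b)))) (Sig.ex (CeAlg.cs (ceq l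
      (w (t 2 (n.comp g) (c.comp g)) (t 1 (n.comp g) (ad (c.comp g) s))))))).and
    (Ax.base (w (t 2 n a) (t 1 n (ad a b))) (CeAlg.cs (ceq s (Computable.list_cons.comp
      ((t 2 n (Computable.succ.comp a)).comp f) (Computable.const [])))))))
  dsimp only at h
  refine ⟨U, V, h1, h2, fun X => (h X).trans ⟨fun ⟨p, q, r, s⟩ n => ⟨fun i => ?_, fun i u v => ?_,
    fun m d k u v => ?_, fun m d u v => ?_⟩, fun h => ⟨fun i _ => ?_, fun i u => ?_, fun i u => ?_,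
    fun i u => ?_⟩⟩⟩
  · obtain ⟨_, ⟨m, rfl | rfl⟩, y⟩ := p (n, i, 0, 0) (by simp)
    · exact ⟨m, Or.inl (y _ (by simp)), y _ (by simp)⟩
    · exact ⟨m, Or.inr (y _ (by simp)), y _ (by simp)⟩
  · simpa using q (n, i, 0, 0) (by simpa using ⟨u, v⟩)
  · obtain ⟨_, ⟨e, rfl⟩, y⟩ := r (n, m, d, k) (by simpa using ⟨u, v⟩)
    exact ⟨e, y _ (by simp), y _ (by simp)⟩
  · simpa using s (n, m, d, 0) (by simpa using ⟨u, v⟩)
  · obtain ⟨m, u | u, v⟩ := (h i.1).1 i.2.1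
    · exact ⟨_, ⟨m, Or.inl rfl⟩, by simpa using ⟨u, v⟩⟩
    · exact ⟨_, ⟨m, Or.inr rfl⟩, by simpa using ⟨u, v⟩⟩
  · exact ((h i.1).2.1 i.2.1 (u _ (by simp)) (u _ (by simp))).elim
  · obtain ⟨e, v⟩ := (h i.1).2.2.1 i.2.1 i.2.2.1 i.2.2.2 (u _ (by simp)) (u _ (by simp))
    exact ⟨_, ⟨e, rfl⟩, by simpa using v⟩
  · exact ⟨_, rfl, by simpa using (h i.1).2.2.2 i.2.1 i.2.2.1 (u _ (by simp)) (u _ (by simp))⟩

lemma One.sep {R S : Set ℕ} (h : One R) (h' : One S) (l : R ⊆ S) : S ⊆ R := fun r hr => by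
  have b : ∀ i, 3 * i + 1 ∈ S → 3 * i + 1 ∈ R := fun i u =>
    (h.1 i).elim fun _ v => v.1.resolve_left fun w => h'.2.1 i (l w) u
  obtain ⟨i, rfl | rfl | rfl⟩ : ∃ i, r = 3 * i ∨ r = 3 * i + 1 ∨ r = 3 * i + 2 :=
    ⟨r / 3, by omega⟩
  · exact (h.1 i).elim fun _ v => v.1.resolve_right fun w => h'.2.1 i hr (l w)
  · exact b i hr
  obtain ⟨m, -, hm⟩ := h.1 0
  by_contra z
  have z : i ≠ m := fun e => z (e ▸ hm)
  obtain ⟨e, -, he⟩ : ∃ e, 3 * m + 2 ∈ S ∧ 3 * (m + e) + 1 ∈ S := by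
    rcases Nat.lt_or_gt_of_ne z with z | z <;> obtain ⟨d, rfl⟩ := Nat.exists_eq_add_of_lt z
    exacts [h'.2.2.1 _ _ _ hr (l hm), h'.2.2.1 _ _ _ (l hm) hr]
  exact (h.2.2.1 m 0 i hm (h.2.2.2 m e hm (b _ he))).elim fun _ k => ‹¬ _› k.1

lemma Md.sep {X Y : Set ℕ} (h : Md X) (h' : Md Y) (l : X ⊆ Y) : X = Y :=
  l.antisymm fun k hk => by
    rw [← Nat.pair_unpair k] at hk ⊢
    exact (h _).sep (h' _) (fun _ u => l u) hk

/-- Keep `m` bits, then continue with zeros as an added point. -/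
def fn (R : Set ℕ) (m : ℕ) : Set ℕ :=
  {r | if r % 3 = 2 then r / 3 = m else if r / 3 < m then r ∈ R else r % 3 = 0}

/-- Keep `m` bits, then continue with ones. -/
def nf (R : Set ℕ) (m : ℕ) : Set ℕ := {r | r % 3 = 2 ∨ if r / 3 < m then r ∈ R else r % 3 = 1}

lemma d0 (i : ℕ) : 3 * i % 3 = 0 ∧ 3 * i / 3 = i ∧ (3 * i + 1) % 3 = 1 ∧ (3 * i + 1) / 3 = i ∧
    (3 * i + 2) % 3 = 2 ∧ (3 * i + 2) / 3 = i := by omega

lemma One.fn {R : Set ℕ} (h : One R) (m : ℕ) : One (fn R m) := by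
  simp only [One, Cot.fn, Set.mem_ofPred_eq, d0]
  refine ⟨fun i => ⟨m, ?_⟩, fun i => ?_, fun a d k => ?_, fun a d => ?_⟩
  · by_cases z : i < m
    · simpa [z] using (h.1 i).elim fun _ k => k.1
    · simp [z]
  · by_cases z : i < m
    · simpa [z] using h.2.1 i
    · simp [z]
  · simp only [if_true]
    omega
  · rintro rfl
    simp

lemma One.nf {R : Set ℕ} (h : One R) (m : ℕ) : One (nf R m) := by
  simp only [One, Cot.nf, Set.mem_ofPred_eq, d0]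
  refine ⟨fun i => ⟨m, ?_⟩, fun i => ?_, fun a d k _ _ => ⟨m, by simp⟩, by simp⟩
  · by_cases z : i < m
    · simpa [z] using (h.1 i).elim fun _ k => k.1
    · simp [z]
  · by_cases z : i < m
    · simpa [z] using h.2.1 i
    · simp [z]

/-- Replace one coordinate. -/
def rp (X : Set ℕ) (n : ℕ) (R : Set ℕ) : Set ℕ :=
  {k | if k.unpair.1 = n then k.unpair.2 ∈ R else k ∈ X}

lemma rp_at {X R : Set ℕ} {n r : ℕ} : Nat.pair n r ∈ rp X n R ↔ r ∈ R := by simp [rp]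

lemma rp_ne {X R : Set ℕ} {n k : ℕ} (h : k.unpair.1 ≠ n) : k ∈ rp X n R ↔ k ∈ X := by simp [rp, h]

lemma Md.rp {X R : Set ℕ} (h : Md X) (n : ℕ) (hR : One R) : Md (rp X n R) := fun m => by
  by_cases e : m = n
  · simp only [e, rp_at]
    exact hR
  · simpa [Cot.rp, e] using h m

lemma md_ex : ∃ X, Md X := ⟨{k | k.unpair.2 % 3 ≠ 0}, fun n => by simp [One, d0]⟩

/-- Agreement below a bound. -/
def Ag (N : ℕ) (X Y : Set ℕ) : Prop := ∀ k < N, k ∈ X ↔ k ∈ Y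

lemma bound (l : List ℕ) : ∃ N, ∀ k ∈ l, k < N :=
  ⟨l.sum + 1, fun _ h => Nat.lt_succ_of_le (List.le_sum_of_mem h)⟩

lemma gen {ι : Type} [Countable ι] [Nonempty ι] {U V : ℕ × List ℕ → Prop} (G : ι → Set ℕ → Prop)
    (h0 : ∃ X, Mod U V X) (h : ∀ j X N, Mod U V X → ∃ Y N', Mod U V Y ∧ Ag N X Y ∧
      ∀ Z, Mod U V Z → Ag N' Y Z → G j Z) : ∃ A, Mod U V A ∧ ∀ j, G j A := by
  obtain ⟨e, he⟩ := exists_surjective_nat (ι × ℕ × List ℕ)
  have st : ∀ (t : ℕ) (p : {p : ℕ × Set ℕ // Mod U V p.2}), ∃ q : {p : ℕ × Set ℕ // Mod U V p.2},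
      p.1.1 < q.1.1 ∧ Ag p.1.1 p.1.2 q.1.2 ∧ (∀ Z, Mod U V Z → Ag q.1.1 q.1.2 Z → G (e t).1 Z) ∧
      ∀ Z, Ag q.1.1 q.1.2 Z → U (e t).2 → (∀ k ∈ (e t).2.2, k ∈ Z) →
        ∃ l, V ((e t).2.1, l) ∧ ∀ k ∈ l, k ∈ Z := fun t p => by
    obtain ⟨Y, N, y1, y2, y3⟩ := h (e t).1 _ p.1.1 p.2
    obtain ⟨a, ha⟩ := bound (e t).2.2
    obtain ⟨l, hl⟩ : ∃ l, U (e t).2 → (∀ k ∈ (e t).2.2, k ∈ Y) →
        V ((e t).2.1, l) ∧ ∀ k ∈ l, k ∈ Y := by
      by_cases z : U (e t).2 ∧ ∀ k ∈ (e t).2.2, k ∈ Y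
      · exact (y1 _ ⟨_, z⟩).imp fun _ k _ _ => k
      · exact ⟨[], fun u v => (z ⟨u, v⟩).elim⟩
    obtain ⟨b, hb⟩ := bound l
    refine ⟨⟨(N + a + b + p.1.1 + 1, Y), y1⟩, by dsimp only; omega, y2,
      fun Z z w => y3 Z z fun k u => w k (by dsimp only; omega), fun Z w u v => ?_⟩
    have := hl u fun k z => (w k (by have := ha k z; dsimp only; omega)).2 (v k z)
    exact ⟨l, this.1, fun k z => (w k (by have := hb k z; dsimp only; omega)).1 (this.2 k z)⟩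
  choose F f1 f2 f3 f4 using st
  obtain ⟨X, hX⟩ := h0
  let p : ℕ → {p : ℕ × Set ℕ // Mod U V p.2} := fun t => Nat.rec ⟨(0, X), hX⟩ F t
  have m : StrictMono fun t => (p t).1.1 := strictMono_nat_of_lt_succ fun t => f1 t _
  have a : ∀ s t, s ≤ t → Ag (p s).1.1 (p s).1.2 (p t).1.2 := fun s t l => by
    induction t, l using Nat.le_induction with
    | base => exact fun _ _ => Iff.rfl
    | succ t l ih => exact fun k u => (ih k u).trans (f2 t _ k (u.trans_le (m.monotone l)))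
  have b : ∀ t, Ag (p t).1.1 (p t).1.2 {k | k ∈ (p (k + 1)).1.2} := fun t k u =>
    (a t (t + k + 1) (by omega) k u).trans
      (a (k + 1) (t + k + 1) (by omega) k (m.id_le (k + 1))).symm
  have c : Mod U V {k | k ∈ (p (k + 1)).1.2} := fun i ⟨l, u, v⟩ => by
    obtain ⟨t, ht⟩ := he (Classical.arbitrary _, i, l)
    have := f4 t (p t) _ (b (t + 1))
    rw [ht] at this
    exact this u v
  refine ⟨_, c, fun j => ?_⟩
  obtain ⟨t, ht⟩ := he (j, 0, [])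
  have := f3 t (p t) _ c (b (t + 1))
  rwa [ht] at this

/-- The list is disjoint from the enumerated set. -/
def Dj (Γ : ℕ × List ℕ → Prop) (F : List ℕ) (Z : Set ℕ) : Prop :=
  ∀ k ∈ F, ¬ ∃ l, Γ (k, l) ∧ ∀ j ∈ l, j ∈ Z

/-- Disjointness holds in a neighbourhood. -/
def Fo (Γ : ℕ × List ℕ → Prop) (F : List ℕ) (Y : Set ℕ) : Prop :=
  ∃ N, ∀ Z, Md Z → Ag N Y Z → Dj Γ F Z

lemma dense1 (Γ : ℕ × List ℕ → Prop) (F : List ℕ) (X : Set ℕ) (N : ℕ) (h : Md X) :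
    ∃ Y N', Md Y ∧ Ag N X Y ∧ ∀ Z, Md Z → Ag N' Y Z → Dj Γ F Z → Fo Γ F Z := by
  by_cases z : ∀ Z, Md Z → Ag N X Z → Dj Γ F Z
  · exact ⟨X, N, h, fun _ _ => Iff.rfl, fun Z _ a _ =>
      ⟨N, fun W b c => z W b fun k u => (a k u).trans (c k u)⟩⟩
  · simp only [Dj, not_forall, not_not] at z
    obtain ⟨Y, a, b, k, c, l, d, e⟩ := z
    obtain ⟨M, hM⟩ := bound l
    exact ⟨Y, M, a, b, fun Z _ u v => (v k c ⟨l, d, fun j w => (u j (hM j w)).1 (e j w)⟩).elim⟩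

lemma dense2 (Γ Θ : ℕ × List ℕ → Prop) (X : Set ℕ) (n : ℕ) (h : Md X) :
    ∃ Y N', Md Y ∧ Ag n X Y ∧ ∀ Z, Md Z → Ag N' Y Z → ∃ s,
      (s ∉ Z ∧ ∃ F, Θ (s, F) ∧ Dj Γ F Z) ∨ (s ∈ Z ∧ ∀ F, Θ (s, F) → ¬ Fo Γ F Z) := by
  have h1 := h.rp n ((h n).nf 0)
  have ne : ∀ k < n, k.unpair.1 ≠ n := fun k u => by have := k.unpair_left_le; omega
  obtain ⟨N, n1, n2, n3⟩ : ∃ N, n ≤ N ∧ Nat.pair n 2 < N ∧ Nat.pair n 5 < N :=
    ⟨n + Nat.pair n 2 + Nat.pair n 5 + 1, by omega, by omega, by omega⟩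
  by_cases z : ∃ Y F, Md Y ∧ Ag N (rp X n (nf {r | Nat.pair n r ∈ X} 0)) Y ∧
    Θ (Nat.pair n 2, F) ∧ Fo Γ F Y
  · obtain ⟨Y, F, y1, y2, y3, K, y4⟩ := z
    have all : ∀ i, Nat.pair n (3 * i + 2) ∈ Y := fun i => ((y1 n).2.2.1 0 0 i
      ((y2 _ n2).1 (rp_at.2 (Or.inl rfl))) ((y2 _ n3).1 (rp_at.2 (Or.inl rfl)))).elim fun _ k => k.1
    refine ⟨_, K + N, y1.rp n ((y1 n).fn (K + 1)), fun k u => ((rp_ne (ne k u)).symm.trans
      (y2 k (by omega))).trans (rp_ne (ne k u)).symm, fun Z a b => ⟨_, Or.inl ⟨fun c => ?_, F, y3,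
        fun k c ⟨l, d, e⟩ => ?_⟩⟩⟩
    · simpa [fn] using rp_at.1 ((b _ (by omega)).2 c)
    obtain ⟨M, hM⟩ := bound l
    refine y4 _ (a.rp n ((a n).nf (M + K))) (fun j u => ?_) k c ⟨l, d, fun j u => ?_⟩
    · by_cases v : j.unpair.1 = n
      · obtain ⟨r, rfl⟩ : ∃ r, j = Nat.pair n r := ⟨j.unpair.2, by rw [← v, Nat.pair_unpair]⟩
        have := Nat.right_le_pair n r
        have w := b _ (by omega : Nat.pair n r < K + N)
        rw [rp_at] at w ⊢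
        by_cases x : r % 3 = 2
        · exact iff_of_true (by rw [show r = 3 * (r / 3) + 2 by omega]; exact all _) (Or.inl x)
        · simpa [fn, nf, x, show r / 3 ≤ K by omega, show r / 3 < M + K by omega] using w
      · exact ((rp_ne v).symm.trans (b j (by omega))).trans (rp_ne v).symm
    · by_cases v : j.unpair.1 = n
      · obtain ⟨r, rfl⟩ : ∃ r, j = Nat.pair n r := ⟨j.unpair.2, by rw [← v, Nat.pair_unpair]⟩
        have := Nat.right_le_pair n r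
        have := hM _ u
        exact rp_at.2 (Or.inr (by rw [if_pos (by omega)]; exact e _ u))
      · exact (rp_ne v).2 (e j u)
  · exact ⟨_, N, h1, fun k u => (rp_ne (ne k u)).symm, fun Z a b => ⟨_, Or.inr
      ⟨(b _ n2).1 (rp_at.2 (Or.inl rfl)), fun F c d => z ⟨Z, F, a, b, c, d⟩⟩⟩⟩

end Pool.Agent.Lib.H8.Cot
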