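import Mathlib

/-! Helpers: cycles from vertex lists, edge counting, connectivity by bit masks. -/

set_option autoImplicit false

namespace Pool.Agent.Lib.H8.Cyc

theorem cyc_of_list {V : Type} (G : SimpleGraph V) (a : V) (l : List V)
    (hc : List.IsChain G.Adj (a :: (l ++ [a]))) (hn : (l ++ [a]).Nodup) (hl : 2 ≤ l.length) :
    ∃ p : G.Walk a a, p.IsCycle ∧ p.support = a :: (l ++ [a]) := by
  let q := SimpleGraph.Walk.ofSupport (a :: (l ++ [a])) (List.cons_ne_nil _ _) hc
  have hq : q.support = a :: (l ++ [a]) := SimpleGraph.Walk.support_ofSupport _ _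
  let p : G.Walk a a := q.copy rfl (by simp)
  have hp : p.support = a :: (l ++ [a]) := (SimpleGraph.Walk.support_copy _ _ _).trans hq
  have hlen : p.length = l.length + 1 := by
    have := p.length_support
    rw [hp] at this
    simp at this
    omega
  refine ⟨p, ?_, hp⟩
  rw [SimpleGraph.Walk.isCycle_iff_isPath_tail_and_le_length]
  have hnil : ¬ p.Nil := by
    rw [← SimpleGraph.Walk.length_eq_zero_iff]; omega
  refine ⟨?_, by omega⟩
  rw [SimpleGraph.Walk.isPath_def, SimpleGraph.Walk.support_tail_of_not_nil _ hnil, hp]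
  exact hn

theorem countP_eq_sum {α : Type} (q : α → Bool) (l : List α) :
    l.countP q = ∑ j : Fin l.length, if q l[j.val] = true then 1 else 0 := by
  rw [Fin.sum_univ_fun_getElem l (fun a => if q a = true then 1 else 0)]
  induction l with
  | nil => rfl
  | cons a l ih =>
    rw [List.countP_cons, ih, List.map_cons, List.sum_cons, add_comm]

/-- counting the edges of a trail through an enumeration of the edges of the graph -/
theorem countP_edges {V : Type} [DecidableEq V] {m : ℕ} (ends : Fin m → Sym2 V)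
    (hinj : Function.Injective ends) (L : List (Sym2 V)) (hL : L.Nodup)
    (hsur : ∀ e ∈ L, ∃ i, ends i = e) (Q : Sym2 V → Bool) :
    L.countP Q = ∑ i : Fin m, if Q (ends i) = true then (if ends i ∈ L then 1 else 0) else 0 := by
  rw [List.countP_eq_length_filter, ← List.toFinset_card_of_nodup (hL.filter _)]
  have : ∀ i : Fin m, (if Q (ends i) = true then (if ends i ∈ L then 1 else 0) else 0) =
      if (Q (ends i) = true ∧ ends i ∈ L) then 1 else 0 := fun i => by
    by_cases h1 : Q (ends i) = true <;> by_cases h2 : ends i ∈ L <;> simp [h1, h2]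
  simp only [this]
  rw [Finset.sum_boole, Nat.cast_id]
  symm
  refine Finset.card_bij (fun i _ => ends i) ?_ (fun _ _ _ _ h => hinj h) ?_
  · intro i hi
    simp only [Finset.mem_filter, Finset.mem_univ, true_and] at hi
    simp [hi.1, hi.2]
  · intro e he
    simp only [List.mem_toFinset, List.mem_filter] at he
    obtain ⟨i, rfl⟩ := hsur e he.1
    exact ⟨i, by simp [he.1, he.2], rfl⟩

theorem sum_ite_eq_list {m : ℕ} (P : Fin m → Prop) [DecidablePred P] (l : List (Fin m))
    (hl : l.Nodup) (h : ∀ i, P i ↔ i ∈ l) (x : Fin m → ℕ) :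
    (∑ i : Fin m, if P i then x i else 0) = (l.map x).sum := by
  rw [← List.sum_toFinset _ hl, ← Finset.sum_filter]
  refine Finset.sum_congr ?_ (fun _ _ => rfl)
  ext i
  simp [h]

/-- one step of the reachability closure on bit masks -/
def step (mask R : ℕ) (p : ℕ × ℕ) : ℕ := if R.testBit p.1 then R ||| (p.2 &&& mask) else R

theorem conn {n : ℕ} (G : SimpleGraph (Fin n)) (S : Set (Fin n)) (mask : ℕ)
    (hm : ∀ y : Fin n, mask.testBit y = true ↔ y ∉ S) (hm' : ∀ y, mask.testBit y = true → y < n)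
    (root : Fin n) (hroot : root ∉ S) (L : List (ℕ × ℕ))
    (hL : ∀ p ∈ L, ∀ x y : Fin n, x.val = p.1 → p.2.testBit y = true → G.Adj x y)
    (h : L.foldl (step mask) (2 ^ root.val) = mask) : (G.induce Sᶜ).Connected := by
  let P : ℕ → Prop := fun R => ∀ y, R.testBit y = true → ∃ (hy : y < n) (hs : (⟨y, hy⟩ : Fin n) ∈ Sᶜ),
    (G.induce Sᶜ).Reachable ⟨root, hroot⟩ ⟨⟨y, hy⟩, hs⟩
  have key : ∀ (L : List (ℕ × ℕ)),
      (∀ p ∈ L, ∀ x y : Fin n, x.val = p.1 → p.2.testBit y = true → G.Adj x y) →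
      ∀ R, P R → P (L.foldl (step mask) R) := by
    intro L
    induction L with
    | nil => intro _ R hR; exact hR
    | cons p L ih =>
      intro hL R hR
      rw [List.foldl_cons]
      refine ih (fun q hq => hL q (List.mem_cons_of_mem _ hq)) _ ?_
      unfold step
      split_ifs with hb
      · intro y hy
        rw [Nat.testBit_or, Bool.or_eq_true, Nat.testBit_and, Bool.and_eq_true] at hy
        rcases hy with hy | ⟨hy1, hy2⟩
        · exact hR y hy
        · obtain ⟨hx, hxs, hr⟩ := hR p.1 hb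
          have hyn := hm' y hy2
          have hys : (⟨y, hyn⟩ : Fin n) ∉ S := (hm ⟨y, hyn⟩).1 hy2
          refine ⟨hyn, hys, hr.trans (SimpleGraph.Adj.reachable ?_)⟩
          exact hL p List.mem_cons_self ⟨p.1, hx⟩ ⟨y, hyn⟩ rfl hy1
      · exact hR
  have h0 : P (2 ^ root.val) := by
    intro y hy
    rw [Nat.testBit_two_pow, decide_eq_true_eq] at hy
    subst hy
    exact ⟨root.2, hroot, SimpleGraph.Reachable.refl _⟩
  have h1 := key L hL _ h0
  rw [h] at h1
  have h2 : ∀ y : (Sᶜ : Set (Fin n)), (G.induce Sᶜ).Reachable ⟨root, hroot⟩ y := by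
    rintro ⟨y, hy⟩
    obtain ⟨_, _, hr⟩ := h1 y ((hm y).2 hy)
    exact hr
  have : Nonempty (Sᶜ : Set (Fin n)) := ⟨⟨root, hroot⟩⟩
  exact ⟨fun a b => (h2 a).symm.trans (h2 b)⟩

/-- mask of `Fin n` with the bits `u`, `v` cleared -/
def mask2 (n u v : ℕ) : ℕ := (2 ^ n - 1) &&& ((2 ^ (n + 1) - 1) ^^^ (2 ^ u ||| 2 ^ v))

def root2 (u v : ℕ) : ℕ := if u ≠ 0 ∧ v ≠ 0 then 0 else if u ≠ 1 ∧ v ≠ 1 then 1 else 2

theorem mask2_bit (n u v y : ℕ) :
    (mask2 n u v).testBit y = true ↔ y < n ∧ y ≠ u ∧ y ≠ v := by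
  unfold mask2
  simp only [Nat.testBit_and, Nat.testBit_xor, Nat.testBit_or, Nat.testBit_two_pow_sub_one,
    Nat.testBit_two_pow]
  by_cases h1 : y < n
  · have h2 : y < n + 1 := by omega
    by_cases h3 : u = y <;> by_cases h4 : v = y <;> simp [h1, h2, h3, h4, eq_comm]
  · simp [h1]

noncomputable def force (x : ℕ) (f : ℕ → ℕ) : ℕ :=
  Nat.rec (motive := fun _ => ℕ) (f 0) (fun n _ => f (Nat.succ n)) x

theorem force_eq (x : ℕ) (f : ℕ → ℕ) : force x f = f x := by cases x <;> rfl

noncomputable def run (mask : ℕ) (L : List (ℕ × ℕ)) : ℕ → ℕ :=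
  List.rec (motive := fun _ => ℕ → ℕ) (fun R => R)
    (fun p _ ih R => Bool.rec (motive := fun _ => ℕ)
      (force (Nat.lor R (Nat.land p.2 mask)) ih) (ih R)
      (Nat.beq (Nat.land 1 (Nat.shiftRight R p.1)) 0)) L

theorem run_eq (mask : ℕ) (L : List (ℕ × ℕ)) : ∀ R, run mask L R = L.foldl (step mask) R := by
  induction L with
  | nil => intro R; rfl
  | cons p L ih =>
    intro R
    rw [List.foldl_cons, ← ih]
    change Bool.rec (motive := fun _ => ℕ)
      (force (Nat.lor R (Nat.land p.2 mask)) (run mask L)) (run mask L R)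
      (Nat.beq (Nat.land 1 (Nat.shiftRight R p.1)) 0) = _
    unfold step
    have h : R.testBit p.1 = !(Nat.beq (Nat.land 1 (Nat.shiftRight R p.1)) 0) := by
      unfold Nat.testBit
      change ((1 &&& (R >>> p.1)) != 0) = !(Nat.beq (1 &&& (R >>> p.1)) 0)
      generalize (1 &&& (R >>> p.1)) = z
      cases z <;> rfl
    rw [h]
    cases Nat.beq (Nat.land 1 (Nat.shiftRight R p.1)) 0
    · rw [force_eq]; rfl
    · rfl

noncomputable def check1 (L : List (ℕ × ℕ)) (mask r : ℕ) : ℕ :=
  force mask (fun mask => Nat.xor (run mask L r) mask)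

noncomputable def check3 (n : ℕ) (L : List (ℕ × ℕ)) (u : ℕ) : Bool :=
  (List.range (u + 1)).all (fun v => Nat.beq (check1 L (mask2 n u v) (2 ^ root2 u v)) 0)

theorem three_conn {n : ℕ} (hn : 3 ≤ n) (G : SimpleGraph (Fin n)) (L : List (ℕ × ℕ))
    (hL : ∀ p ∈ L, ∀ x y : Fin n, x.val = p.1 → p.2.testBit y = true → G.Adj x y)
    (h : ∀ u, u < n + 1 → check3 n L u = true) (S : Finset (Fin n)) (hS : S.card < 3) :
    (G.induce ((↑S : Set (Fin n))ᶜ)).Connected := by
  obtain ⟨u, v, hu, hv, huv⟩ : ∃ u v : ℕ, u < n + 1 ∧ v < u + 1 ∧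
      ∀ y : Fin n, y ∈ S ↔ (y.val = u ∨ y.val = v) := by
    have : S.card = 0 ∨ S.card = 1 ∨ S.card = 2 := by omega
    rcases this with h0 | h1 | h2
    · rw [Finset.card_eq_zero] at h0
      subst h0
      exact ⟨n, n, by omega, by omega, fun y => by have := y.2; simp; omega⟩
    · obtain ⟨a, rfl⟩ := Finset.card_eq_one.1 h1
      exact ⟨a, a, by omega, by omega, fun y => by simp [Fin.ext_iff]⟩
    · obtain ⟨a, b, -, rfl⟩ := Finset.card_eq_two.1 h2
      rcases le_total a.val b.val with hab | hab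
      · exact ⟨b, a, by omega, by omega, fun y => by simp [Fin.ext_iff, or_comm]⟩
      · exact ⟨a, b, by omega, by omega, fun y => by simp [Fin.ext_iff]⟩
  have h1 := h u hu
  unfold check3 at h1
  rw [List.all_eq_true] at h1
  have h2 := h1 v (List.mem_range.2 hv)
  unfold check1 at h2
  rw [force_eq, run_eq] at h2
  replace h2 : L.foldl (step (mask2 n u v)) (2 ^ root2 u v) = mask2 n u v :=
    Nat.eq_of_xor_eq_zero (Nat.eq_of_beq_eq_true h2)
  have hr : root2 u v < n ∧ root2 u v ≠ u ∧ root2 u v ≠ v := by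
    unfold root2; split_ifs <;> omega
  refine conn G _ (mask2 n u v) (fun y => ?_) (fun y hy => ((mask2_bit n u v y).1 hy).1)
    ⟨root2 u v, hr.1⟩ ?_ L hL h2
  · rw [mask2_bit, Finset.mem_coe, huv]
    have := y.2
    tauto
  · rw [Finset.mem_coe, huv]
    simp [hr.2.1, hr.2.2]

end Pool.Agent.Lib.H8.Cyc
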