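import Pool.Agent.Lib.H8.VdC

set_option autoImplicit false
set_option maxHeartbeats 400000

namespace Pool.Agent.H8.Dautov

open Complex Set Pool.Agent.H8.VdC
open scoped ENNReal

noncomputable def R : Polynomial ℝ :=
  Polynomial.C (3 / 8) + Polynomial.C (3 / 4) * Polynomial.X -
    Polynomial.C (1 / 8) * Polynomial.X ^ 2

theorem R_eval (z : ℂ) : Polynomial.aeval z R = (3 + 6 * z - z ^ 2) / 8 := by
  simp [R]
  ring

theorem R_exp (x : ℝ) : Polynomial.aeval (exp (I * x)) R = exp (I * x) * u x := by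
  rw [R_eval, mul_comm I, exp_mul_I, u, ofReal_cos, ofReal_sin]
  linear_combination (3 / 8) * (1 - 2 : ℂ) * Complex.sin_sq_add_cos_sq x +
    (3 / 8 * Complex.sin x ^ 2) * I_mul_I

theorem R_bound (z : ℂ) (hz : ‖z‖ ≤ 1) :
    ‖Polynomial.aeval z R‖ ^ 2 ≤ 1 - 3 / 64 * ‖1 - z‖ ^ 4 := by
  have h1 : z.re ^ 2 + z.im ^ 2 ≤ 1 := by
    have := pow_le_one₀ (norm_nonneg z) hz (n := 2)
    rw [Complex.sq_norm, normSq_apply] at this
    linarith
  have h2 : z.re ≤ 1 := (re_le_norm z).trans hz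
  have h3 : ‖1 - z‖ ^ 4 = ((1 - z.re) ^ 2 + z.im ^ 2) ^ 2 := by
    rw [show ‖1 - z‖ ^ 4 = (‖1 - z‖ ^ 2) ^ 2 by ring, Complex.sq_norm, normSq_apply]
    simp
    ring
  rw [R_eval, h3, Complex.sq_norm, normSq_apply]
  have h4 : ((3 + 6 * z - z ^ 2) / 8).re = (3 + 6 * z.re - (z.re ^ 2 - z.im ^ 2)) / 8 := by
    simp [sq]
  have h5 : ((3 + 6 * z - z ^ 2) / 8).im = (6 * z.im - 2 * z.re * z.im) / 8 := by
    simp [sq]
    ring
  rw [h4, h5]
  have h6 := mul_nonneg (sub_nonneg.2 h1)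
    (show 0 ≤ 52 + 4 * (z.re ^ 2 + z.im ^ 2) - 24 * z.re by nlinarith)
  nlinarith

noncomputable def L (f : Polynomial ℝ) : ℝ := ∑ i ∈ Finset.range (f.natDegree + 1), |f.coeff i|

theorem L_ge (t : ℕ) (ht : 2 ≤ t) : (t : ℝ) / 108 ≤ L (R ^ (t ^ 8)) := by
  have hu : Continuous u := by unfold u; fun_prop
  have ht' : (2 : ℝ) ≤ t := by exact_mod_cast ht
  set k := t ^ 8 with hk
  have e1 : ∀ x : ℝ, (((‖u x‖ ^ 2) ^ k : ℝ) : ℂ) = ∑ j ∈ Finset.range ((R ^ k).natDegree + 1),
      ((R ^ k).coeff j : ℂ) * (u x ^ k * exp (I * (k - j : ℝ) * x)) := by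
    intro x
    have h1 := Polynomial.aeval_eq_sum_range (p := R ^ k) (exp (I * (-x : ℝ)))
    rw [map_pow, R_exp] at h1
    have h2 : u (-x) * u x = (‖u x‖ ^ 2 : ℝ) := by
      rw [Complex.sq_norm, Complex.normSq_eq_conj_mul_self]
      congr 1
      simp [u, -ofReal_cos, -ofReal_sin, map_ofNat]
    have h3 : exp (I * (-x : ℝ)) ^ k * exp (I * k * x) = 1 := by
      rw [← Complex.exp_nat_mul, ← Complex.exp_add]
      push_cast
      rw [show (k : ℂ) * (I * -x) + I * k * x = 0 by ring, Complex.exp_zero]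
    have h4 : ∀ j : ℕ, exp (I * (k - j : ℝ) * x) = exp (I * (-x : ℝ)) ^ j * exp (I * k * x) := by
      intro j
      rw [← Complex.exp_nat_mul, ← Complex.exp_add]
      congr 1
      push_cast
      ring
    rw [ofReal_pow, ← h2]
    calc (u (-x) * u x) ^ k = (exp (I * (-x : ℝ)) * u (-x)) ^ k * (u x ^ k * exp (I * k * x)) := by
          rw [mul_pow, mul_pow]
          linear_combination (-(u (-x) ^ k * u x ^ k)) * h3
      _ = _ := by
          rw [h1, Finset.sum_mul]
          refine Finset.sum_congr rfl fun j _ => ?_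
          rw [h4, real_smul]
          ring
  have hab : (1 / t ^ 2 : ℝ) ≤ 2 / t ^ 2 := by gcongr; norm_num
  have e2 : (1 / 4 : ℝ) / t ^ 2 ≤ ∫ x in (1 / t ^ 2 : ℝ)..(2 / t ^ 2), (‖u x‖ ^ 2) ^ k := by
    have := intervalIntegral.integral_mono_on (μ := MeasureTheory.volume) hab
      (f := fun _ => (1 / 4 : ℝ)) (g := fun x => (‖u x‖ ^ 2) ^ k) (by simp)
      (Continuous.intervalIntegrable (by fun_prop) _ _) (fun x hx => ?_)
    · refine le_trans (le_of_eq ?_) this
      simp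
      ring
    · have h0 : 0 < x := lt_of_lt_of_le (by positivity) hx.1
      have h2 : 0 ≤ 1 - Real.cos x := by linarith [Real.cos_le_one x]
      have h3 : 1 - Real.cos x ≤ (2 / t ^ 2) ^ 2 / 2 :=
        (show 1 - Real.cos x ≤ x ^ 2 / 2 by
          linarith [Real.one_sub_sq_div_two_le_cos (x := x)]).trans (by gcongr; exact hx.2)
      have h4 : (k : ℝ) * (3 * (1 - Real.cos x) ^ 2 / 16) ≤ 3 / 4 := by
        calc (k : ℝ) * (3 * (1 - Real.cos x) ^ 2 / 16)
            ≤ k * (3 * ((2 / t ^ 2) ^ 2 / 2) ^ 2 / 16) := by gcongr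
          _ = _ := by
            rw [hk]
            push_cast
            field_simp
            ring
      have h5 := one_add_mul_le_pow (a := -(3 * (1 - Real.cos x) ^ 2 / 16))
        (by nlinarith [Real.neg_one_le_cos x]) k
      rw [normSq_u, sub_eq_add_neg]
      linarith
  have e3 : ‖∫ x in (1 / t ^ 2 : ℝ)..(2 / t ^ 2), (((‖u x‖ ^ 2) ^ k : ℝ) : ℂ)‖ ≤
      L (R ^ k) * (27 / t ^ 3) := by
    simp only [e1]
    rw [intervalIntegral.integral_finsetSum fun j _ =>
      Continuous.intervalIntegrable (by fun_prop) _ _, L, Finset.sum_mul]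
    refine (norm_sum_le _ _).trans (Finset.sum_le_sum fun j _ => ?_)
    rw [intervalIntegral.integral_const_mul, norm_mul, Complex.norm_real, Real.norm_eq_abs]
    exact mul_le_mul_of_nonneg_left (osc t ht _) (abs_nonneg _)
  rw [intervalIntegral.integral_ofReal, Complex.norm_real] at e3
  have e4 := (e2.trans (Real.le_norm_self _)).trans e3
  rw [← mul_div_assoc, div_le_div_iff₀ (by positivity) (by positivity)] at e4
  have e5 : (0 : ℝ) < t ^ 2 := by positivity
  refine le_of_mul_le_mul_right ?_ e5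
  nlinarith

theorem L_ge' (k : ℕ) (hk : 1 ≤ k) :
    1 / (64 * (k : ℝ) ^ 5) ≤ L ((1 - Polynomial.X) ^ 5 * R ^ k) := by
  have hk' : (1 : ℝ) ≤ k := by exact_mod_cast hk
  set x : ℝ := 1 - 1 / (2 * k) with hx
  have h0 : 1 / (2 * (k : ℝ)) ≤ 1 / 2 := by gcongr; linarith
  have h0' : 0 < 1 / (2 * (k : ℝ)) := by positivity
  have h1 : ((1 - Polynomial.X) ^ 5 * R ^ k).eval x ≤ L ((1 - Polynomial.X) ^ 5 * R ^ k) := by
    rw [Polynomial.eval_eq_sum_range, L]
    refine Finset.sum_le_sum fun j _ => (le_abs_self _).trans ?_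
    rw [abs_mul, abs_pow]
    exact mul_le_of_le_one_right (abs_nonneg _)
      (pow_le_one₀ (abs_nonneg _) (abs_le.2 ⟨by linarith, by linarith⟩))
  refine le_trans ?_ h1
  have h2 : x ≤ R.eval x := by
    simp only [R, Polynomial.eval_sub, Polynomial.eval_add, Polynomial.eval_mul, Polynomial.eval_C,
      Polynomial.eval_X, Polynomial.eval_pow]
    nlinarith [mul_nonneg (show 0 ≤ 1 - x by linarith) (show 0 ≤ 3 + x by linarith)]
  have h3 : 1 / 2 ≤ x ^ k := by
    have := one_add_mul_le_pow (a := -(1 / (2 * (k : ℝ)))) (by linarith) k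
    rw [← sub_eq_add_neg] at this
    refine le_trans (le_of_eq ?_) this
    field_simp
    ring
  rw [Polynomial.eval_mul, Polynomial.eval_pow, Polynomial.eval_pow, Polynomial.eval_sub,
    Polynomial.eval_one, Polynomial.eval_X]
  calc 1 / (64 * (k : ℝ) ^ 5) = (1 - x) ^ 5 * (1 / 2) := by
        rw [hx]
        field_simp
        ring
    _ ≤ _ := mul_le_mul_of_nonneg_left (h3.trans (pow_le_pow_left₀ (by linarith) h2 k))
        (pow_nonneg (by linarith) 5)

open MvPolynomial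

noncomputable def T {n : ℕ} (f : Polynomial ℝ) (g : MvPolynomial (Fin n) ℝ) :
    MvPolynomial (Fin (n + 1)) ℝ :=
  Polynomial.aeval (X 0) f * rename Fin.succ g

theorem T_mul {n : ℕ} (f f' : Polynomial ℝ) (g g' : MvPolynomial (Fin n) ℝ) :
    T f g * T f' g' = T (f * f') (g * g') := by
  simp only [T, map_mul]
  ring

theorem T_pow {n : ℕ} (f : Polynomial ℝ) (g : MvPolynomial (Fin n) ℝ) (k : ℕ) :
    T f g ^ k = T (f ^ k) (g ^ k) := by
  simp only [T, map_pow, mul_pow]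

theorem T_equiv {n : ℕ} (f : Polynomial ℝ) (g : MvPolynomial (Fin n) ℝ) :
    finSuccEquiv ℝ n (T f g) = f.map C * Polynomial.C g := by
  have h1 : finSuccEquiv ℝ n (rename Fin.succ g) = Polynomial.C g := by
    induction g using MvPolynomial.induction_on with
    | C a => simp [finSuccEquiv_apply]
    | add p q hp hq => simp only [map_add, hp, hq]
    | mul_X p i hp => simp only [map_mul, hp, rename_X, finSuccEquiv_X_succ]
  have h2 : finSuccEquiv ℝ n (Polynomial.aeval (X 0) f) = f.map C := by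
    induction f using Polynomial.induction_on' with
    | add p q hp hq => simp only [map_add, hp, hq, Polynomial.map_add]
    | monomial i a =>
      simp [finSuccEquiv_apply, ← Polynomial.C_mul_X_pow_eq_monomial]
  rw [T, map_mul, h1, h2]

theorem T_coeff {n : ℕ} (f : Polynomial ℝ) (g : MvPolynomial (Fin n) ℝ) (i : ℕ)
    (m : Fin n →₀ ℕ) : coeff (m.cons i) (T f g) = f.coeff i * coeff m g := by
  rw [← finSuccEquiv_coeff_coeff, T_equiv, Polynomial.coeff_mul_C, Polynomial.coeff_map,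
    coeff_C_mul]

theorem T_eval {n : ℕ} (f : Polynomial ℝ) (g : MvPolynomial (Fin n) ℝ) (z : Fin (n + 1) → ℂ) :
    aeval z (T f g) = Polynomial.aeval (z 0) f * aeval (fun i => z i.succ) g := by
  rw [T, map_mul, aeval_rename, ← Polynomial.aeval_algHom_apply, aeval_X]
  rfl

/-- exponents in `n + 1` variables as pairs -/
noncomputable def ce (n : ℕ) : ℕ × (Fin n →₀ ℕ) ≃ (Fin (n + 1) →₀ ℕ) where
  toFun p := p.2.cons p.1
  invFun t := (t 0, t.tail)
  left_inv p := by simp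
  right_inv t := by simp

noncomputable def N {n : ℕ} (g : MvPolynomial (Fin n) ℝ) : ℝ≥0∞ := ∑' m, ‖coeff m g‖ₑ

theorem N_T {n : ℕ} (f : Polynomial ℝ) (g : MvPolynomial (Fin n) ℝ) :
    ENNReal.ofReal (L f) * N g ≤ N (T f g) := by
  have h1 : ENNReal.ofReal (L f) ≤ ∑' i, ‖f.coeff i‖ₑ := by
    rw [L, ENNReal.ofReal_sum_of_nonneg fun _ _ => abs_nonneg _]
    simp only [← Real.enorm_eq_ofReal_abs]
    exact ENNReal.sum_le_tsum _
  rw [N, N, ← (ce n).tsum_eq, ENNReal.tsum_prod']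
  refine (mul_le_mul_left h1 _).trans (le_of_eq ?_)
  rw [← ENNReal.tsum_mul_right]
  refine tsum_congr fun i => ?_
  rw [← ENNReal.tsum_mul_left]
  refine tsum_congr fun m => ?_
  rw [← enorm_mul, ← T_coeff]
  rfl

noncomputable def W : (m : ℕ) → MvPolynomial (Fin m) ℝ
  | 0 => 1
  | m + 1 => T R (W m)

theorem N_W (m k : ℕ) : ENNReal.ofReal (L (R ^ k)) ^ m ≤ N (W m ^ k) := by
  induction m with
  | zero =>
    rw [W, one_pow, pow_zero, N]
    refine le_trans ?_ (ENNReal.le_tsum 0)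
    simp
  | succ m ih =>
    rw [W, T_pow, pow_succ']
    exact (mul_le_mul_right ih _).trans (N_T _ _)

theorem R_le (z : ℂ) (hz : ‖z‖ ≤ 1) : ‖Polynomial.aeval z R‖ ≤ 1 - 3 / 128 * ‖1 - z‖ ^ 4 := by
  nlinarith [R_bound z hz, sq_nonneg (‖Polynomial.aeval z R‖ - 1)]

theorem W_eval (m : ℕ) (z : Fin m → ℂ) (hz : ∀ i, ‖z i‖ ≤ 1) :
    ‖aeval z (W m)‖ ≤ 1 ∧ (‖aeval z (W m)‖ = 1 → z = 1 ∧ aeval z (W m) = 1) := by
  induction m with
  | zero => exact ⟨by simp [W], fun _ => ⟨Subsingleton.elim _ _, by simp [W]⟩⟩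
  | succ m ih =>
    obtain ⟨h1, h2⟩ := ih (fun i => z i.succ) fun i => hz _
    have h3 := R_le _ (hz 0)
    have h4 : 0 ≤ ‖1 - z 0‖ ^ 4 := by positivity
    rw [W, T_eval, norm_mul]
    refine ⟨mul_le_one₀ (by linarith) (norm_nonneg _) h1, fun h => ?_⟩
    have h5 := mul_le_of_le_one_right (norm_nonneg (Polynomial.aeval (z 0) R)) h1
    have h6 : z 0 = 1 := by
      have : ‖1 - z 0‖ ^ 4 = 0 := by linarith
      exact (sub_eq_zero.1 (norm_eq_zero.1 (pow_eq_zero_iff (by norm_num) |>.1 this))).symm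
    have h7 : Polynomial.aeval (z 0) R = 1 := by
      rw [h6, R_eval]
      norm_num
    rw [h7, norm_one, one_mul] at h
    obtain ⟨h8, h9⟩ := h2 h
    refine ⟨funext fun i => Fin.cases h6 (fun j => congrFun h8 j) i, by rw [h7, h9, one_mul]⟩

noncomputable def P0 : MvPolynomial (Fin 42) ℝ := T ((1 - Polynomial.X) ^ 5) 1

noncomputable def P : MvPolynomial (Fin 43) ℝ := T 1 P0

noncomputable def G : MvPolynomial (Fin 43) ℝ := T Polynomial.X (W 42)

theorem P_eval (z : Fin 43 → ℂ) : aeval z P = (1 - z 1) ^ 5 := by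
  simp [P, P0, T_eval]

theorem G_eval (z : Fin 43 → ℂ) : aeval z G = z 0 * aeval (fun i => z i.succ) (W 42) := by
  simp [G, T_eval]

theorem relPrime : IsRelPrime P (1 - G) := by
  intro d h1 h2
  have h3 := map_dvd (finSuccEquiv ℝ 42) h1
  have h4 := map_dvd (finSuccEquiv ℝ 42) h2
  rw [P, T_equiv, Polynomial.map_one, one_mul] at h3
  rw [map_sub, map_one, G, T_equiv, Polynomial.map_X] at h4
  have h5 : P0 ≠ 0 := by
    intro h
    have := P_eval 0
    rw [P, h] at this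
    simp [T] at this
  have h6 := Polynomial.natDegree_le_of_dvd h3 (Polynomial.C_ne_zero.2 h5)
  rw [Polynomial.natDegree_C, Nat.le_zero] at h6
  rw [Polynomial.eq_C_of_natDegree_eq_zero h6, Polynomial.C_dvd_iff_dvd_coeff] at h4
  have h7 := h4 0
  simp only [Polynomial.coeff_sub, Polynomial.coeff_one_zero, Polynomial.mul_coeff_zero,
    Polynomial.coeff_X_zero, zero_mul, sub_zero] at h7
  have h8 : IsUnit (finSuccEquiv ℝ 42 d) := by
    rw [Polynomial.eq_C_of_natDegree_eq_zero h6]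
    exact Polynomial.isUnit_C.2 (isUnit_of_dvd_one h7)
  simpa using h8.map (finSuccEquiv ℝ 42).symm

theorem const : constantCoeff (1 - G) ≠ 0 := by
  simp [G, T]

theorem fin : {z : Fin 43 → ℂ | (∀ i, ‖z i‖ = 1) ∧ aeval z P = 0 ∧ aeval z (1 - G) = 0}.Finite := by
  refine (finite_singleton 1).subset ?_
  rintro z ⟨h1, -, h2⟩
  rw [map_sub, map_one, G_eval, sub_eq_zero] at h2
  have h3 := congrArg norm h2
  rw [norm_one, norm_mul, h1, one_mul] at h3
  obtain ⟨h4, h5⟩ := (W_eval 42 _ fun i => (h1 _).le).2 h3.symm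
  rw [h5, mul_one] at h2
  exact funext fun i => Fin.cases h2.symm (fun j => congrFun h4 j) i

theorem cont : ContinuousOn (fun z : Fin 43 → ℂ => aeval z P / aeval z (1 - G))
    {z | ∀ i, ‖z i‖ ≤ 1} := by
  intro z hz
  have hc : ∀ p : MvPolynomial (Fin 43) ℝ, Continuous fun z : Fin 43 → ℂ => aeval z p := by
    intro p
    induction p using MvPolynomial.induction_on with
    | C a => simp only [aeval_C]; fun_prop
    | add p q hp hq => simp only [map_add]; fun_prop
    | mul_X p i hp => simp only [map_mul, aeval_X]; fun_prop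
  have hb : ∀ z : Fin 43 → ℂ, (∀ i, ‖z i‖ ≤ 1) →
      3 / 128 * ‖1 - z 1‖ ^ 4 ≤ ‖aeval z (1 - G)‖ := by
    intro z hz
    have h1 := R_le _ (hz 1)
    have h2 := (W_eval 41 (fun i => z i.succ.succ) fun i => hz _).1
    have h3 : ‖aeval z G‖ ≤ ‖Polynomial.aeval (z 1) R‖ := by
      rw [G_eval, W, T_eval, norm_mul, norm_mul]
      exact (mul_le_of_le_one_left (by positivity) (hz 0)).trans
        (mul_le_of_le_one_right (norm_nonneg _) h2)
    have h4 := norm_sub_norm_le (1 : ℂ) (aeval z G)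
    rw [norm_one] at h4
    rw [map_sub, map_one]
    linarith
  by_cases h : z 1 = 1
  · have h0 : aeval z P / aeval z (1 - G) = 0 := by rw [P_eval, h]; simp
    rw [ContinuousWithinAt, h0]
    refine squeeze_zero_norm' (a := fun z => 128 / 3 * ‖1 - z 1‖) ?_ ?_
    · filter_upwards [self_mem_nhdsWithin] with y hy
      have h1 := hb y hy
      rw [norm_div, P_eval, norm_pow]
      refine div_le_of_le_mul₀ (norm_nonneg _) (by positivity) ?_
      calc ‖1 - y 1‖ ^ 5 = 128 / 3 * ‖1 - y 1‖ * (3 / 128 * ‖1 - y 1‖ ^ 4) := by ring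
        _ ≤ _ := mul_le_mul_of_nonneg_left h1 (by positivity)
    · exact (Continuous.tendsto' (by fun_prop) z 0 (by simp [h])).mono_left nhdsWithin_le_nhds
  · refine ((hc P).continuousAt.div (hc _).continuousAt ?_).continuousWithinAt
    have h1 : 0 < ‖1 - z 1‖ := norm_pos_iff.2 (sub_ne_zero.2 (Ne.symm h))
    exact norm_pos_iff.1 (lt_of_lt_of_le (by positivity) (hb z hz))

theorem coeff_H (k : ℕ) (m : Fin 42 →₀ ℕ) :
    MvPowerSeries.coeff (m.cons k) ((P : MvPowerSeries (Fin 43) ℝ) *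
      ((1 - G : MvPolynomial (Fin 43) ℝ) : MvPowerSeries (Fin 43) ℝ)⁻¹) =
      coeff m (P0 * W 42 ^ k) := by
  have h1 := MvPowerSeries.mul_inv_cancel
    ((1 - G : MvPolynomial (Fin 43) ℝ) : MvPowerSeries (Fin 43) ℝ) (by
      rw [← MvPowerSeries.coeff_zero_eq_constantCoeff_apply, coeff_coe]
      exact const)
  generalize ((1 - G : MvPolynomial (Fin 43) ℝ) : MvPowerSeries (Fin 43) ℝ)⁻¹ = J at *
  have h2 := congrArg coeToMvPowerSeries.ringHom (mul_neg_geom_sum G (k + 1))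
  have h3 : (P : MvPowerSeries (Fin 43) ℝ) * J =
      ((P * ∑ i ∈ Finset.range (k + 1), G ^ i : MvPolynomial (Fin 43) ℝ) :
        MvPowerSeries (Fin 43) ℝ) + MvPowerSeries.X 0 ^ (k + 1) *
        (((P * rename Fin.succ (W 42) ^ (k + 1) : MvPolynomial (Fin 43) ℝ) :
          MvPowerSeries (Fin 43) ℝ) * J) := by
    have h4 : coeToMvPowerSeries.ringHom G = MvPowerSeries.X 0 *
        coeToMvPowerSeries.ringHom (rename Fin.succ (W 42) : MvPolynomial (Fin 43) ℝ) := by
      simp [G, T]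
    simp only [← coeToMvPowerSeries.ringHom_apply, map_mul, map_sub, map_pow, map_one] at *
    rw [h4] at h2 h1
    linear_combination (coeToMvPowerSeries.ringHom P * coeToMvPowerSeries.ringHom
      (∑ i ∈ Finset.range (k + 1), G ^ i)) * h1 - (coeToMvPowerSeries.ringHom P * J) * h2
  rw [h3, map_add, MvPowerSeries.X_pow_dvd_iff.1 (dvd_mul_right _ _) _ (by simp), add_zero,
    coeff_coe, Finset.mul_sum, coeff_sum, Finset.sum_eq_single k]
  · rw [P, G, T_pow, T_mul, T_coeff]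
    simp
  · intro i _ hi
    rw [P, G, T_pow, T_mul, T_coeff]
    simp [Polynomial.coeff_X_pow, hi.symm]
  · simp

theorem not_summable : ¬ Summable (fun k : Fin 43 →₀ ℕ =>
    |MvPowerSeries.coeff k ((P : MvPowerSeries (Fin 43) ℝ) *
      ((1 - G : MvPolynomial (Fin 43) ℝ) : MvPowerSeries (Fin 43) ℝ)⁻¹)|) := by
  intro h
  have h1 := ENNReal.ofReal_tsum_of_nonneg (fun _ => abs_nonneg _) h
  generalize (∑' k : Fin 43 →₀ ℕ, |MvPowerSeries.coeff k ((P : MvPowerSeries (Fin 43) ℝ) *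
      ((1 - G : MvPolynomial (Fin 43) ℝ) : MvPowerSeries (Fin 43) ℝ)⁻¹)|) = M at h1
  rw [← (ce 42).tsum_eq, ENNReal.tsum_prod'] at h1
  have h2 : ∀ k, N (P0 * W 42 ^ k) ≤ ENNReal.ofReal M := by
    intro k
    rw [h1]
    refine le_trans (le_of_eq (tsum_congr fun m => ?_)) (ENNReal.le_tsum k)
    rw [Real.enorm_eq_ofReal_abs, ← coeff_H]
    rfl
  obtain ⟨s, hs⟩ := exists_nat_gt (64 * 108 ^ 41 * |M|)
  have h3 := h2 ((s + 2) ^ 8)
  have h4 := L_ge (s + 2) (by omega)
  have h5 := L_ge' ((s + 2) ^ 8) (Nat.one_le_pow _ _ (by omega))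
  rw [P0, W, T_pow, T_mul, one_mul] at h3
  have h6 := ((mul_le_mul' (ENNReal.ofReal_le_ofReal h5) ((pow_le_pow_left'
    (ENNReal.ofReal_le_ofReal h4) 41).trans (N_W 41 _))).trans (N_T _ _)).trans
    (h3.trans (ENNReal.ofReal_le_ofReal (le_abs_self M)))
  rw [← ENNReal.ofReal_pow (by positivity), ← ENNReal.ofReal_mul (by positivity),
    ENNReal.ofReal_le_ofReal_iff (abs_nonneg _)] at h6
  have h7 : 1 / (64 * (((s + 2) ^ 8 : ℕ) : ℝ) ^ 5) * (((s + 2 : ℕ) : ℝ) / 108) ^ 41 =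
      (s + 2) / (64 * 108 ^ 41) := by
    push_cast
    field_simp
  rw [h7, div_le_iff₀ (by positivity)] at h6
  linarith

end Pool.Agent.H8.Dautov
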