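import Pool.Agent.Lib.H8.Low

/-!
Infinite systems of equations in groups of computable permutations.
-/

namespace Pool.Agent.Lib.H8.Dud

open Arith CList Wei Qm Rnd Kc Om Gen Low Filter
open Equiv (Perm)

variable {α β γ : Type} [Primcodable α] [Primcodable β] [Primcodable γ]

lemma cfoldl {L : α → List β} {x : α → γ} {f : α → γ → β → γ} (hL : Computable L)
    (hx : Computable x) (hf : Computable fun q : (α × γ) × β => f q.1.1 q.1.2 q.2) :
    Computable fun a => (L a).foldl (f a) (x a) := by
  have u := @Computable.fst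
  have v := @Computable.snd
  have h1 : Computable fun q : α × ℕ × γ =>
      ((L q.1)[q.2.1]?.map fun b => f q.1 q.2.2 b).getD q.2.2 :=
    Computable.option_getD (Computable.option_map
      (Computable.list_getElem?.comp (hL.comp u) (u.comp v))
      (hf.comp (((u.comp u).pair (v.comp (v.comp u))).pair v)).to₂) (v.comp v)
  refine (Computable.nat_rec (h := fun a (q : ℕ × γ) =>
    ((L a)[q.1]?.map fun b => f a q.2 b).getD q.2)
      (Computable.list_length.comp hL) hx h1.to₂).of_eq fun a => ?_
  have : ∀ n, (Nat.rec (x a) (fun k y => ((L a)[k]?.map fun b => f a y b).getD y) n : γ) =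
      ((L a).take n).foldl (f a) (x a) := by
    intro n
    induction n with
    | zero => simp
    | succ n ih =>
      simp only [ih, List.take_add_one, List.foldl_append]
      cases (L a)[n]? <;> simp
  rw [this, List.take_length]

lemma cfoldr {L : α → List β} {x : α → γ} {f : α → β → γ → γ} (hL : Computable L)
    (hx : Computable x) (hf : Computable fun q : (α × γ) × β => f q.1.1 q.2 q.1.2) :
    Computable fun a => (L a).foldr (f a) (x a) :=
  (cfoldl (f := fun a y b => f a b y) (Computable.list_reverse.comp hL) hx hf).of_eq fun a => by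
    simp

/-- Uniformly computable families of permutations. -/
def UC (g : α → Perm ℕ) : Prop :=
  Computable (fun q : α × ℕ => g q.1 q.2) ∧ Computable fun q : α × ℕ => (g q.1)⁻¹ q.2

variable {g h : α → Perm ℕ}

lemma UC.ap (a : UC g) {i : β → α} {x : β → ℕ} (hi : Computable i) (hx : Computable x) :
    Computable fun b => g (i b) (x b) := a.1.comp (hi.pair hx)

lemma UC.inv (a : UC g) : UC fun i => (g i)⁻¹ := ⟨a.2, a.1⟩

lemma UC.comp (a : UC g) {i : β → α} (hi : Computable i) : UC fun b => g (i b) :=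
  ⟨a.ap (hi.comp Computable.fst) Computable.snd, a.inv.ap (hi.comp Computable.fst) Computable.snd⟩

lemma UC.mul (a : UC g) (b : UC h) : UC fun i => g i * h i :=
  ⟨a.ap Computable.fst b.1, b.inv.ap Computable.fst a.2⟩

lemma UC.prod (a : UC g) : UC fun l : List α => (l.map g).prod := by
  have u := @Computable.fst
  have v := @Computable.snd
  refine ⟨(cfoldr (f := fun _ i y => g i y) u v (a.ap v (v.comp u))).of_eq fun ⟨l, x⟩ => ?_,
    (cfoldl (f := fun _ y i => (g i)⁻¹ y) u v (a.inv.ap v (v.comp u))).of_eq fun ⟨l, x⟩ => ?_⟩ <;>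
  dsimp only
  · induction l <;> simp [*]
  · induction l generalizing x with
    | nil => rfl
    | cons i l j => rw [List.foldl_cons, j, List.map_cons, List.prod_cons, mul_inv_rev]; rfl

lemma crep {k : α → ℕ} {w : α → β} (hk : Computable k) (hw : Computable w) :
    Computable fun a => List.replicate (k a) (w a) :=
  (cmap (f := fun a _ => w a) (Primrec.list_range.to_comp.comp hk)
    (hw.comp Computable.fst).to₂).of_eq fun a => by simp

lemma UC.pow (a : UC g) {k : α → ℕ} (hk : Computable k) : UC fun i => g i ^ k i := by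
  simpa using a.prod.comp (crep hk Computable.id)

lemma UC.of {σ : Perm ℕ} (h : Computable (σ : ℕ → ℕ)) : UC fun _ : α => σ := by
  obtain ⟨f, a, b⟩ := csel (P := fun y x => σ x = y)
    (ceq (h.comp Computable.snd) Computable.fst) σ.surjective
  exact ⟨h.comp Computable.snd,
    (a.comp Computable.snd).of_eq fun q => Perm.eq_inv_iff_eq.2 (b _)⟩

/-- Pointwise convergence. -/
def Td (a : ℕ → Perm ℕ) (b : Perm ℕ) : Prop := ∀ x, ∀ᶠ m in atTop, a m x = b x

section
variable {a a' : ℕ → Perm ℕ} {b b' : Perm ℕ}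

lemma Td.mul (h : Td a b) (k : Td a' b') : Td (fun m => a m * a' m) (b * b') := fun x =>
  ((k x).and (h (b' x))).mono fun m e => by simp [e.1, e.2]

lemma Td.inv (h : Td a b) : Td (fun m => (a m)⁻¹) b⁻¹ := fun x =>
  (h (b⁻¹ x)).mono fun m e => Perm.inv_eq_iff_eq.2 (by simpa using e.symm)

lemma Td.const : Td (fun _ => b) b := fun _ => .of_forall fun _ => rfl

lemma Td.pow (h : Td a b) (k : ℕ) : Td (fun m => a m ^ k) (b ^ k) := by
  induction k with
  | zero => simpa using Td.const
  | succ k i => simpa only [pow_succ] using i.mul h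

lemma Td.all (h : Td a b) (n : ℕ) : ∀ᶠ m in atTop, ∀ x < n, a m x = b x :=
  (eventually_all_finite (Set.finite_lt_nat n)).2 fun x _ => h x

end

theorem dudley {g : ℕ → Perm ℕ} (hg : UC g) {D : ℕ → Prop} (hD : ComputablePred D)
    (hs : ∀ m, ∃ i, m ≤ i ∧ D i ∧ ∀ x < m, g i x = x) {k : ℕ → ℕ} (hk : Computable k) :
    ∃ (e : ℕ → ℕ) (h : ℕ → Perm ℕ), ∀ n, (n ≤ e n ∧ D (e n) ∧ ∀ x < n, g (e n) x = x) ∧
      Computable (h n : ℕ → ℕ) ∧ h n = g (e n) * h (n + 1) ^ k (e n) ∧
        ∀ m, ∃ σ ∈ Subgroup.closure (Set.range g), ∀ x < m, h n x = σ x := by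
  have u := @Computable.fst
  have v := @Computable.snd
  obtain ⟨H, c, H0, H1⟩ : ∃ H : List ℕ → Perm ℕ, UC H ∧ H [] = 1 ∧
      ∀ i l, H (i :: l) = g i * H l ^ k i := by
    refine ⟨_, hg.prod.comp (cfoldr (f := fun _ i w => i :: (List.replicate (k i) w).flatten)
      Computable.id (Computable.const []) (Computable.list_cons.comp v
        (Primrec.list_flatten.to_comp.comp (crep (hk.comp v) (v.comp u))))), rfl, fun i l => ?_⟩
    simp [List.prod_flatten]
  have hc (l) : H l ∈ Subgroup.closure (Set.range g) := by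
    induction l with
    | nil => exact H0 ▸ one_mem _
    | cons i l j => exact H1 i l ▸ mul_mem (Subgroup.subset_closure ⟨i, rfl⟩) (pow_mem j _)
  choose s s1 s2 s3 using hs
  have t (l) : Td (fun m => H (l ++ [s m])) (H l) := by
    induction l with
    | nil => exact fun x => (eventually_gt_atTop x).mono fun m e => by simp [H0, H1, s3 m x e]
    | cons i l j => simpa only [List.cons_append, H1] using Td.const.mul (j.pow _)
  have ln : Computable fun q : List ℕ × ℕ => q.1.length := Computable.list_length.comp u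
  have d1 : Computable fun q : ((List ℕ × ℕ) × ℕ) × ℕ => q.1.1.1.drop q.1.2 :=
    Primrec.list_drop.to_comp.comp (v.comp u) (u.comp (u.comp u))
  have d2 : Computable fun q : ((List ℕ × ℕ) × ℕ) × ℕ => q.1.1.1.drop q.1.2 ++ [q.1.1.2] :=
    Computable.list_concat.comp d1 (v.comp (u.comp u))
  have p1 : ComputablePred fun q : (List ℕ × ℕ) × ℕ => ∀ x < q.1.1.length,
      H (q.1.1.drop q.2 ++ [q.1.2]) x = H (q.1.1.drop q.2) x ∧
      (H (q.1.1.drop q.2 ++ [q.1.2]))⁻¹ x = (H (q.1.1.drop q.2))⁻¹ x :=
    cball (ln.comp u) (cand (ceq (c.ap d2 v) (c.ap d1 v)) (ceq (c.inv.ap d2 v) (c.inv.ap d1 v)))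
  have p2 : ComputablePred fun q : List ℕ × ℕ => ∀ x < q.1.length, g q.2 x = x :=
    cball ln (ceq (hg.ap (v.comp u) v) v)
  obtain ⟨F, f1, f2⟩ := csel (P := fun (l : List ℕ) i => (l.length ≤ i ∧ D i ∧
      ∀ x < l.length, g i x = x) ∧ ∀ n < l.length, ∀ x < l.length,
        H (l.drop n ++ [i]) x = H (l.drop n) x ∧ (H (l.drop n ++ [i]))⁻¹ x = (H (l.drop n))⁻¹ x)
    (cand (cand (cle ln v) (cand (cp hD v) p2)) (cball ln p1)) fun l => by
      obtain ⟨m, m1, m2⟩ := ((eventually_ge_atTop l.length).and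
        ((eventually_all_finite (Set.finite_lt_nat l.length)).2 fun n _ =>
          ((t (l.drop n)).all l.length).and ((t (l.drop n)).inv.all l.length))).exists
      exact ⟨s m, ⟨m1.trans (s1 m), s2 m, fun x e => s3 m x (by omega)⟩,
        fun n e x y => ⟨(m2 n e).1 x y, (m2 n e).2 x y⟩⟩
  obtain ⟨L, l1, l0, l2⟩ : ∃ L : ℕ → List ℕ, Computable L ∧ L 0 = [] ∧
      ∀ m, L (m + 1) = L m ++ [F (L m)] :=
    ⟨_, Computable.nat_rec (h := fun _ (q : ℕ × List ℕ) => q.2 ++ [F q.2]) Computable.id
      (Computable.const []) (Computable.list_concat.comp (v.comp v) (f1.comp (v.comp v))).to₂,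
      rfl, fun _ => rfl⟩
  have l3 (m) : L m = pre (fun n => F (L n)) m := by
    induction m with
    | zero => exact l0
    | succ m i => rw [l2, pre, List.range_succ, List.map_append, ← pre, ← i]; rfl
  have l4 (m) : (L m).length = m := by rw [l3, pre_len]
  have z (n x) : ∀ᶠ m in atTop, H ((L m).drop n) x = H ((L (n + x + 1)).drop n) x ∧
      (H ((L m).drop n))⁻¹ x = (H ((L (n + x + 1)).drop n))⁻¹ x := by
    refine (eventually_ge_atTop (n + x + 1)).mono fun m e => ?_
    induction m, e using Nat.le_induction with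
    | base => exact ⟨rfl, rfl⟩
    | succ m e i =>
      have := (f2 (L m)).2 n (by rw [l4]; omega) x (by rw [l4]; omega)
      rw [l2, List.drop_append_of_le_length (by rw [l4]; omega), this.1, this.2]
      exact i
  obtain ⟨h, h1, h2⟩ : ∃ h : ℕ → Perm ℕ, (∀ n, Computable (h n : ℕ → ℕ)) ∧
      ∀ n, Td (fun m => H ((L m).drop n)) (h n) := by
    refine ⟨fun n => ⟨fun x => H ((L (n + x + 1)).drop n) x,
      fun x => (H ((L (n + x + 1)).drop n))⁻¹ x, fun x => ?_, fun x => ?_⟩, fun n =>
      c.ap (Primrec.list_drop.to_comp.comp (Computable.const n) (l1.comp (Computable.succ.comp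
        (ad (Computable.const n) Computable.id)))) Computable.id,
      fun n x => (z n x).mono fun _ e => e.1⟩
    · obtain ⟨m, a, b⟩ := ((z n x).and (z n (H ((L (n + x + 1)).drop n) x))).exists
      dsimp only
      rw [← b.2, ← a.1]; simp
    · obtain ⟨m, a, b⟩ := ((z n x).and (z n ((H ((L (n + x + 1)).drop n))⁻¹ x))).exists
      dsimp only
      rw [← b.1, ← a.2]; simp
  refine ⟨fun n => F (L n), h, fun n => ⟨by simpa only [l4] using (f2 (L n)).1, h1 n, Perm.ext fun x => ?_,
    fun m => ?_⟩⟩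
  · obtain ⟨m, a, b, c⟩ := ((eventually_gt_atTop n).and ((h2 n x).and
      ((Td.const (b := g (F (L n)))).mul ((h2 (n + 1)).pow (k (F (L n)))) x))).exists
    rw [← b, ← c]
    dsimp only
    rw [← H1, List.drop_eq_getElem_cons (by rwa [l4])]
    congr 3
    simp [l3 m, pre]
  · obtain ⟨j, a⟩ := ((h2 n).all m).exists
    exact ⟨_, hc _, fun x y => (a x y).symm⟩

end Pool.Agent.Lib.H8.Dud
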