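import Pool.Agent.Lib.H8.Dud1

/-!
Free products and infinite systems of equations; a residually finite group of computable
permutations with an undecidable word problem.
-/

namespace Pool.Agent.Lib.H8.Dud

open Arith CList Wei Qm Rnd Kc Om Gen Low Filter Monoid Classical
open Equiv (Perm swap)

/-- The commutator of elements of the two factors. -/
def cm {G : Type} [Group G] (x t : G) : Coprod G G :=
  Coprod.inl x * Coprod.inr t * (Coprod.inl x)⁻¹ * (Coprod.inr t)⁻¹

theorem alg {G : Type} [Group G] {k : ℕ → ℕ} (hk : ∀ n, 2 ≤ k n)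
    (rf : ∀ u : ℕ → G, (∀ n, u n = u (n + 1) ^ k n) → ∀ n, u n = 1) {t : G} (ht : t ≠ 1)
    {w : ℕ → G} (hw : ∀ n, w n ≠ 1) {y : ℕ → Coprod G G}
    (h : ∀ n, y n = cm (w n) t * y (n + 1) ^ k n)
    (f : ∀ x, (∃ᶠ n in atTop, w n = x) → cm x t = 1) : False := by
  let d : Multiplicative ℤ ≀ᵣ (G × G) := ⟨fun p => .ofAdd (if p = 1 then 1 else 0), 1⟩
  let P : Coprod G G →* Multiplicative ℤ ≀ᵣ (G × G) := Coprod.lift
    ((MulAut.conj d).toMonoidHom.comp (RegularWreathProduct.inl.comp (.inl G G)))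
    (RegularWreathProduct.inl.comp (.inr G G))
  have p1 (x) : (P (cm x t)).right = 1 := by
    simp [P, d, cm]
  have p2 (x z) (e : z ≠ 1) : ((P (cm x t)).left (z, 1)).toAdd =
      if z = x then -1 else 0 := by
    simp [P, d, cm, e, ht, inv_mul_eq_one, Prod.ext_iff, @eq_comm _ x]
    split_ifs <;> simp
  have p3 (x) : {p | (P x).left p ≠ 1}.Finite := by
    induction x using Coprod.induction_on with
    | inl x =>
      refine (Set.toFinite {1, (x, 1)}).subset fun p e => ?_
      by_contra n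
      obtain ⟨p, q⟩ := p
      simp only [Set.mem_insert_iff, Set.mem_singleton_iff, not_or, Prod.ext_iff] at n
      simp [P, d, inv_mul_eq_one, Prod.ext_iff, @eq_comm _ x] at e n
      rw [if_neg (fun k => n.1 k.1 k.2), if_neg (fun k => n.2 k.1 k.2)] at e
      simp at e
    | inr x => simp [P]
    | mul a b i j =>
      refine (i.union (j.preimage (f := fun p => (P a).right⁻¹ * p)
        (mul_right_injective _).injOn)).subset fun p e => ?_
      by_contra n
      simp only [Set.mem_union, Set.mem_preimage, Set.mem_ofPred_eq, not_or, not_not] at n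
      simp [n.1, n.2] at e
  have r (n) : (P (y n)).right = 1 := by
    have q (n) : (P (y n)).right = (P (y (n + 1))).right ^ k n := by
      rw [h n, map_mul, RegularWreathProduct.mul_right, p1, one_mul, map_pow]
      exact map_pow RegularWreathProduct.rightHom _ _
    exact Prod.ext (rf _ (fun n => congrArg Prod.fst (q n)) n)
      (rf _ (fun n => congrArg Prod.snd (q n)) n)
  have l (n z) (e : z ≠ 1) : ((P (y n)).left (z, 1)).toAdd =
      (if z = w n then -1 else 0) + k n * ((P (y (n + 1))).left (z, 1)).toAdd := by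
    rw [h n, map_mul, RegularWreathProduct.mul_left, Pi.mul_apply, toAdd_mul, p2 _ _ e, p1, map_pow]
    congr 1
    induction k n with
    | zero => simp
    | succ j i => simp [pow_succ', r, add_mul, add_comm] at i ⊢; exact i
  have o (n j) (e : j ≤ n) : ((P (y j)).left (w n, 1)).toAdd ≠ 0 := by
    have s (j) (z : ℤ) : -1 + k j * z ≠ 0 := fun e => by
      have := Int.isUnit_iff.1 (IsUnit.of_mul_eq_one z (by omega : (k j : ℤ) * z = 1))
      have := hk j
      omega
    induction e using Nat.decreasingInduction with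
    | self => rw [l _ _ (hw n), if_pos rfl]; exact s _ _
    | of_succ j _ i =>
      rw [l _ _ (hw n)]
      split_ifs
      · exact s _ _
      · have := hk j
        simp [i]; omega
  have q (x) : ∀ᶠ n in atTop, ¬ w n = x := not_frequently.1 fun e => by
    have := p2 x x (e.exists.elim fun n e => e ▸ hw n)
    simp [f x e] at this
  obtain ⟨n, e⟩ := ((eventually_all_finite (p3 (y 0))).2 fun p _ => q p.1).exists
  exact e (w n, 1) (fun e => o n 0 n.zero_le (by rw [e]; rfl)) rfl

/-- The computable automorphisms of a structure. -/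
def Ac (d : ℕ → Bool) (r : ℕ → List ℕ → Bool) (σ : Perm ℕ) : Prop :=
  Computable (σ : ℕ → ℕ) ∧ (∀ n, d n = false → σ n = n) ∧ (∀ n, d n = true → d (σ n) = true) ∧
    ∀ (i : ℕ) (l : List ℕ), (∀ x ∈ l, d x = true) → r i (l.map σ) = r i l

lemma Ac.lim {d : ℕ → Bool} {r : ℕ → List ℕ → Bool} {h : Perm ℕ} (c : Computable (h : ℕ → ℕ))
    (a : ∀ m, ∃ σ, Ac d r σ ∧ ∀ x < m, h x = σ x) : Ac d r h := by
  refine ⟨c, fun n e => ?_, fun n e => ?_, fun i l e => ?_⟩
  · obtain ⟨σ, p, q⟩ := a (n + 1)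
    rw [q n (by omega), p.2.1 n e]
  · obtain ⟨σ, p, q⟩ := a (n + 1)
    rw [q n (by omega), p.2.2.1 n e]
  · obtain ⟨σ, p, q⟩ := a (l.sum + 1)
    rw [List.map_congr_left fun x y => q x (Nat.lt_succ_of_le (List.le_sum_of_mem y)),
      p.2.2.2 i l e]

/-- The computable permutations that preserve a colouring. -/
def Gp (b : ℕ → ℕ) : Subgroup (Perm ℕ) where
  carrier := {σ | Computable (σ : ℕ → ℕ) ∧ ∀ x, b (σ x) = b x}
  mul_mem' p q := ⟨p.1.comp q.1, fun x => (p.2 _).trans (q.2 x)⟩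
  one_mem' := ⟨Computable.id, fun _ => rfl⟩
  inv_mem' p := ⟨(UC.of (α := ℕ) p.1).inv.ap Computable.id Computable.id,
    fun x => by rw [← p.2]; simp⟩

lemma gp_ac {b : ℕ → ℕ} (σ : Perm ℕ) : σ ∈ (Gp b).subtype.range ↔
    Ac (fun _ => true) (fun i l => decide (l.map b = [i])) σ := by
  rw [Subgroup.range_subtype]
  refine and_congr_right fun _ => ⟨fun h => ⟨by simp, by simp, fun i l _ => ?_⟩, fun h x => ?_⟩
  · simp only [List.map_map, show b ∘ σ = b from funext h]
  · simpa using h.2.2 (b x) [x] (by simp)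

lemma gp_rf {b : ℕ → ℕ} (hb : ∀ x, x ≤ b x) {e : ℕ → ℕ} (he : ∀ n, n ≤ e n) (u : ℕ → Gp b)
    (h : ∀ n, u n = u (n + 1) ^ (e n + 2).factorial) (n : ℕ) : u n = 1 := by
  have p (j) : ∃ r, u n = u (n + j) ^ r := by
    induction j with
    | zero => exact ⟨1, by simp⟩
    | succ j i => exact i.elim fun r i => ⟨_, by rw [i, h (n + j), ← pow_mul]; rfl⟩
  refine Subtype.ext (Perm.ext fun x => ?_)
  have : Finite {y // b y = b x} :=
    ((Set.finite_le_nat (b x)).subset fun y (e : b y = b x) => e ▸ hb y).to_subtype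
  obtain ⟨r, q⟩ := p (Nat.card (Perm {y // b y = b x}))
  obtain ⟨c, z⟩ := Nat.dvd_factorial (Nat.card_pos (α := Perm {y // b y = b x}))
    (n := e (n + Nat.card (Perm {y // b y = b x})) + 2) (by have := he (n + Nat.card (Perm {y // b y = b x})); omega)
  rw [q, h, z, ← pow_mul, mul_assoc]
  generalize u _ = v
  have := congrArg (fun s => (s ⟨x, rfl⟩).1) (show (v.1.subtypePerm (p := fun y => b y = b x)
    fun y => by rw [v.2.2]) ^ (Nat.card (Perm {y // b y = b x}) * (c * r)) = 1 by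
      rw [pow_mul, pow_card_eq_one', one_pow])
  simpa [Perm.subtypePerm_pow] using this

/-- Act on the second coordinate. -/
def fib : (ℕ → Perm ℕ) →* Perm ℕ := MonoidHom.mk'
  (fun f => Nat.pairEquiv.permCongr (Equiv.prodCongrRight f)) fun f g => by
    ext; simp [Equiv.prodCongrRight]

lemma fib_ap (f : ℕ → Perm ℕ) (x : ℕ) :
    fib f x = Nat.pair x.unpair.1 (f x.unpair.1 x.unpair.2) := rfl

/-- A cycle on an initial segment. -/
def cyc (N : ℕ) : Perm ℕ where
  toFun y := if y < N then y + 1 else if y = N then 0 else y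
  invFun y := if y = 0 then N else if y ≤ N then y - 1 else y
  left_inv y := by dsimp only; split_ifs <;> first | omega | contradiction
  right_inv y := by dsimp only; split_ifs <;> omega

lemma cyc_pow {N y : ℕ} (j : ℕ) :
    (cyc N ^ j) y = if y ≤ N then (y + j) % (N + 1) else y := by
  split_ifs with h
  · induction j with
    | zero => simp [Nat.mod_eq_of_lt (Nat.lt_succ_of_le h)]
    | succ j i =>
      rw [pow_succ', Perm.mul_apply, i, ← add_assoc, ← Nat.mod_add_mod (y + j)]
      have : (y + j) % (N + 1) < N + 1 := Nat.mod_lt _ N.succ_pos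
      generalize (y + j) % (N + 1) = z at *
      change ite _ _ _ = _
      split_ifs
      · rw [Nat.mod_eq_of_lt (by omega)]
      · simp [*]
      · omega
  · refine Perm.pow_apply_eq_self_of_apply_eq_self ?_ j
    change ite _ _ _ = _
    split_ifs <;> omega

lemma two_dvd {e j : ℕ} : (2 ^ e + 2 ^ j) % 2 ^ (e + 1) = 0 ↔ e = j := by
  refine ⟨fun h => ?_, by rintro rfl; rw [← two_mul, pow_succ', Nat.mod_self]⟩
  have := Nat.two_pow_pos e
  have := Nat.two_pow_pos j
  rcases lt_trichotomy e j with l | l | l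
  · rw [Nat.add_mod, Nat.mod_eq_zero_of_dvd (pow_dvd_pow 2 l), add_zero, Nat.mod_mod,
      Nat.mod_eq_of_lt (by omega)] at h
    omega
  · exact l
  · have := Nat.pow_lt_pow_right (a := 2) (by omega) l
    rw [Nat.mod_eq_of_lt (by omega)] at h
    omega

/-- The colouring by finite blocks. -/
def blk (x : ℕ) : ℕ := Nat.pair x.unpair.1 (max x.unpair.2 (2 ^ (x.unpair.1.unpair.1 + 1) + 1))

lemma le_blk (x : ℕ) : x ≤ blk x :=
  (Nat.pair_unpair x).ge.trans (StrictMono.monotone (f := Nat.pair _)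
    (fun _ _ => Nat.pair_lt_pair_right _) (le_max_left _ _))

lemma fib_mem {f : ℕ → Perm ℕ} (hf : Computable fun q : ℕ × ℕ => f q.1 q.2)
    (h : ∀ c y, max (f c y) (2 ^ (c.unpair.1 + 1) + 1) = max y (2 ^ (c.unpair.1 + 1) + 1)) :
    fib f ∈ Gp blk :=
  ⟨Primrec₂.natPair.to_comp.comp u1 (hf.comp (u1.pair u2)), fun x => by simp [blk, fib_ap, h]⟩

lemma swap_c {α : Type} [Primcodable α] {a b y : α → ℕ} (ha : Computable a) (hb : Computable b)
    (hy : Computable y) : Computable fun x => swap (a x) (b x) (y x) :=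
  (cite (ceq hy ha) hb (cite (ceq hy hb) ha hy)).of_eq fun _ => (Equiv.swap_apply_def _ _ _).symm

theorem word {B : ℕ × ℕ → Prop} (hB : ComputablePred B) : ∃ a b t : Gp blk, a ≠ 1 ∧ ∀ e,
    a * (t ^ 2 ^ e * b * (t ^ 2 ^ e)⁻¹) * a⁻¹ * (t ^ 2 ^ e * b * (t ^ 2 ^ e)⁻¹)⁻¹ = 1 ↔
      ¬ ∃ s, B (e, s) := by
  have u := Computable.fst (α := ℕ) (β := ℕ)
  have v := Computable.snd (α := ℕ) (β := ℕ)
  have m := pow_c.comp (Computable.succ.comp (u1.comp u))
  have n := sb m (Computable.const 1)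
  have p (c : ℕ) : 0 < 2 ^ c := c.two_pow_pos
  refine ⟨⟨fib fun c => swap 0 (2 ^ (c.unpair.1 + 1)), fib_mem (swap_c (Computable.const 0) m v)
    fun c y => ?_⟩, ⟨fib fun c => if B c.unpair then swap (2 ^ c.unpair.1)
      (2 ^ (c.unpair.1 + 1) + 1) else 1, fib_mem ((cite (cp hB ((u1.comp u).pair (u2.comp u)))
        (swap_c (pow_c.comp (u1.comp u)) (Computable.succ.comp m) v) v).of_eq fun q => ?_)
    fun c y => ?_⟩, ⟨fib fun c => cyc (2 ^ (c.unpair.1 + 1) - 1), fib_mem (cite (clt v n)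
      (Computable.succ.comp v) (cite (ceq v n) (Computable.const 0) v)) fun c y => ?_⟩,
    fun h => ?_, fun e => ?_⟩
  · have := p c.unpair.1
    rw [Equiv.swap_apply_def]; split_ifs <;> omega
  · rw [Prod.mk.eta]; split_ifs <;> rfl
  · split_ifs
    · rw [Equiv.swap_apply_def]; split_ifs <;> omega
    · rfl
  · have := p c.unpair.1
    change max (ite _ _ _) _ = _
    split_ifs <;> omega
  · simpa [fib_ap] using congrArg (fun s => (s.1 0).unpair.2) h
  have k (c : ℕ) (h : B c.unpair) : cyc (2 ^ (c.unpair.1 + 1) - 1) ^ 2 ^ e * (if B c.unpair then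
      swap (2 ^ c.unpair.1) (2 ^ (c.unpair.1 + 1) + 1) else 1) *
        (cyc (2 ^ (c.unpair.1 + 1) - 1) ^ 2 ^ e)⁻¹ =
      swap ((2 ^ c.unpair.1 + 2 ^ e) % 2 ^ (c.unpair.1 + 1)) (2 ^ (c.unpair.1 + 1) + 1) := by
    have := p c.unpair.1
    rw [if_pos h, ← Equiv.swap_apply_apply, cyc_pow, cyc_pow, if_pos (by omega), if_neg (by omega),
      Nat.sub_add_cancel (p _)]
  rw [Subtype.ext_iff]
  simp only [Subgroup.coe_mul, Subgroup.coe_inv, Subgroup.coe_pow, Subgroup.coe_one, ← map_pow,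
    ← map_inv, ← map_mul]
  refine ⟨fun h ⟨s, q⟩ => ?_, fun h => (congrArg fib (funext fun c => ?_)).trans (map_one _)⟩
  · have := congrArg (fun f : Perm ℕ => (f (Nat.pair (Nat.pair e s) (2 ^ (e + 1)))).unpair.2) h
    simp only [fib_ap, Nat.unpair_pair, Pi.mul_apply, Pi.inv_apply, Pi.pow_apply] at this
    have k := k (Nat.pair e s) (by simpa using q)
    simp only [Nat.unpair_pair] at k
    rw [k, two_dvd.2 rfl] at this
    simp [Equiv.swap_apply_def] at this
  · simp only [Pi.mul_apply, Pi.inv_apply, Pi.pow_apply, Pi.one_apply]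
    by_cases q : B c.unpair
    · have z : _ ≠ 0 := mt two_dvd.1 fun (r : c.unpair.1 = e) => h ⟨c.unpair.2, r ▸ q⟩
      rw [k c q, ← Equiv.swap_apply_apply, Equiv.swap_apply_of_ne_of_ne z (Nat.mod_lt _ (p _)).ne,
        Equiv.swap_apply_of_ne_of_ne (by omega) (by omega), mul_inv_cancel]
    · simp [q]

theorem main (d : ℕ → Bool) (r : ℕ → List ℕ → Bool) (φ : Coprod (Gp blk) (Gp blk) →* Perm ℕ)
    (i : Function.Injective φ) (h : ∀ σ, σ ∈ φ.range ↔ Ac d r σ) : False := by
  obtain ⟨A, a1, a2⟩ := CeAlg.diag 0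
  obtain ⟨B, hB, eB⟩ := sig_nf a1
  obtain ⟨a, b, t, ha, hw⟩ := word hB
  obtain ⟨w, ew⟩ : ∃ w : ℕ → Gp blk, ∀ e, w e =
    a * (t ^ 2 ^ e * b * (t ^ 2 ^ e)⁻¹) * a⁻¹ * (t ^ 2 ^ e * b * (t ^ 2 ^ e)⁻¹)⁻¹ := ⟨_, fun _ => rfl⟩
  simp only [← ew, ← eB] at hw
  have c (x) : UC fun _ : ℕ => φ x := UC.of ((h _).1 ⟨x, rfl⟩).1
  have p := (c (.inl t)).pow pow_c
  have p := (p.mul (c (.inl b))).mul p.inv
  have p := (((c (.inl a)).mul p).mul (c (.inl a)).inv).mul p.inv
  have p := ((p.mul (c (.inr a))).mul p.inv).mul (c (.inr a)).inv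
  have p : UC fun e => φ (cm (w e) a) := by
    simpa only [cm, ew, map_mul, map_inv, map_pow] using p
  have f : Computable fun n : ℕ => (n + 2).factorial :=
    (Primrec.nat_rec₁ 2 (Primrec.nat_mul.comp (Primrec.nat_add.comp Primrec.fst (Primrec.const 3))
      Primrec.snd).to₂).to_comp.of_eq fun n => by
        induction n with
        | zero => rfl
        | succ n j => exact congrArg _ j
  obtain ⟨e, s, z⟩ := dudley (p.comp u1) (D := fun n => B (n.unpair.1, n.unpair.2.unpair.1))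
    (cp hB (u1.pair (u1.comp u2))) (fun m => by
      by_contra o
      refine a2 ((CeAlg.cs (cball (p := fun e x => φ (cm (w e) a) x = x) (Computable.const m)
        (ceq p.1 Computable.snd))).of_eq fun e => ⟨fun k l => ?_, fun k => ?_⟩)
      · obtain ⟨s, l⟩ := (eB e).1 l
        exact o ⟨Nat.pair e (Nat.pair s m), (Nat.right_le_pair _ _).trans (Nat.right_le_pair _ _),
          by simpa using l, by simpa using k⟩
      · simp [(hw e).2 k, cm]) f
  have y (n) : s n ∈ φ.range := (h _).2 (Ac.lim (z n).2.1 fun m => by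
    obtain ⟨σ, p, q⟩ := (z n).2.2.2 m
    exact ⟨σ, (h _).1 ((Subgroup.closure_le _).2 (by rintro _ ⟨j, rfl⟩; exact ⟨_, rfl⟩) p), q⟩)
  choose y q using y
  refine alg (k := fun n => (e n + 2).factorial)
    (fun n => le_trans (by omega) (Nat.self_le_factorial _))
    (gp_rf le_blk fun n => (z n).1.1) ha (w := fun n => w (e n).unpair.1)
    (fun n l => (hw _).1 l ((eB _).2 ⟨_, (z n).1.2.1⟩)) (y := y)
    (fun n => i (by rw [map_mul, map_pow, q, q]; exact (z n).2.2.1)) fun x l => i ?_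
  ext j
  obtain ⟨n, rfl, o⟩ := (l.and_eventually (eventually_gt_atTop j)).exists
  simpa using (z n).1.2.2 j o

lemma gp_ok : ∃ (d : ℕ → Bool) (r : ℕ → List ℕ → Bool), Computable d ∧ Computable₂ r ∧
    ∃ φ : Gp blk →* Perm ℕ, Function.Injective φ ∧ ∀ σ, σ ∈ φ.range ↔ Ac d r σ := by
  have b : Computable blk := Primrec₂.natPair.to_comp.comp u1 (Primrec.nat_max.to_comp.comp u2
    (Computable.succ.comp (pow_c.comp (Computable.succ.comp (u1.comp u1)))))
  have c : ComputablePred fun q : ℕ × List ℕ => q.2.map blk = [q.1] :=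
    ceq (cmap Computable.snd (b.comp Computable.snd).to₂)
      (Computable.list_cons.comp Computable.fst (Computable.const []))
  exact ⟨_, fun i l => decide (l.map blk = [i]), Computable.const _, c.decide, _, Subgroup.subtype_injective _, gp_ac⟩

end Pool.Agent.Lib.H8.Dud
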