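import Mathlib

set_option maxHeartbeats 400000

namespace Pool.Agent.Lib.H8.EffBK

open Primrec

/-- all lists with entries `< t` and length `≤ L` -/
def allL (t : ℕ) : ℕ → List (List ℕ)
  | 0 => [[]]
  | L + 1 => [] :: (allL t L).flatMap fun l => (List.range t).map fun j => j :: l

lemma mem_allL {t : ℕ} : ∀ {L : ℕ} {e : List ℕ}, e ∈ allL t L ↔ (∀ j ∈ e, j < t) ∧ e.length ≤ L
  | 0, e => by cases e <;> simp [allL]
  | L + 1, [] => by simp [allL]
  | L + 1, j :: l => by
    simp only [allL, List.mem_cons, List.mem_flatMap, List.mem_map, List.mem_range,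
      List.cons.injEq, List.length_cons, reduceCtorEq, false_or, forall_eq_or_imp]
    constructor
    · rintro ⟨l', hl', j', hj', rfl, rfl⟩
      have := mem_allL.1 hl'
      exact ⟨⟨hj', this.1⟩, by omega⟩
    · rintro ⟨⟨h1, h2⟩, h3⟩
      exact ⟨l, mem_allL.2 ⟨h2, by omega⟩, j, h1, rfl, rfl⟩

lemma allL_prim : Primrec₂ allL := by
  have h : Primrec₂ fun (t : ℕ) (p : ℕ × List (List ℕ)) =>
      [] :: p.2.flatMap fun l => (List.range t).map fun j => j :: l := by
    refine list_cons.comp (const []) (list_flatMap (snd.comp snd) ?_)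
    exact list_map (list_range.comp (fst.comp fst)) (list_cons.comp snd (snd.comp fst))
  refine (nat_rec (const [[]]) h).of_eq fun t L => ?_
  induction L with
  | zero => rfl
  | succ L ih => simp only [allL, ← ih]

/-- weight of an expression -/
def wt (b e : List ℕ) : ℕ := (e.map fun j => b.getD j 0).sum

lemma wt_prim : Primrec₂ wt := by
  have h : Primrec fun p : List ℕ × List ℕ =>
      p.2.foldr (fun j acc => p.1.getD j 0 + acc) 0 :=
    list_foldr (h := fun (p : List ℕ × List ℕ) (q : ℕ × ℕ) => p.1.getD q.1 0 + q.2) snd (const 0)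
      (nat_add.comp ((list_getD 0).comp (fst.comp fst) (fst.comp snd)) (snd.comp snd))
  refine h.of_eq fun p => ?_
  unfold wt
  induction p.2 with
  | nil => rfl
  | cons j l ih => simp only [List.foldr_cons, List.map_cons, List.sum_cons, ih]

lemma imp_prim {α} [Primcodable α] {p q : α → Prop} (hp : PrimrecPred p) (hq : PrimrecPred q) :
    PrimrecPred fun a => p a → q a :=
  (hp.not.or hq).of_eq fun a => by tauto

variable (DD : List ℕ × ℕ → ℕ → Prop)

def Good (p : List ℕ × ℕ) : Prop :=
  ∀ i ∈ List.range p.1.length, 1 ≤ p.1.getD i 0 ∧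
    ∀ e ∈ allL p.1.length (p.1.getD i 0), wt p.1 e + 2 ≤ p.1.getD i 0 → DD (e, i) p.2

def Rel (b b' : List ℕ) : Prop :=
  b'.length = b.length + 1 ∧ ∀ i ∈ List.range b.length,
    2 * b.getD i 0 ≤ b'.getD i 0 + 1 ∧ b'.getD i 0 ≤ 2 * b.getD i 0 ∧
      (DD ([], i) b.length → 2 ≤ b'.getD i 0)

variable {DD}

lemma good_prim (hD : PrimrecRel DD) : PrimrecPred (Good DD) := by
  have gb : Primrec fun q : ℕ × List ℕ × ℕ => q.2.1.getD q.1 0 :=
    (list_getD 0).comp (fst.comp snd) fst
  have h1 : PrimrecRel fun (e : List ℕ) (q : ℕ × List ℕ × ℕ) =>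
      wt q.2.1 e + 2 ≤ q.2.1.getD q.1 0 → DD (e, q.1) q.2.2 := by
    refine imp_prim (nat_le.comp (nat_add.comp (wt_prim.comp (fst.comp (snd.comp snd)) fst)
      (const 2)) (gb.comp snd)) ?_
    exact hD.comp (pair fst (fst.comp snd)) (snd.comp (snd.comp snd))
  have h2 : PrimrecPred fun q : ℕ × List ℕ × ℕ =>
      ∀ e ∈ allL q.2.1.length (q.2.1.getD q.1 0),
        wt q.2.1 e + 2 ≤ q.2.1.getD q.1 0 → DD (e, q.1) q.2.2 :=
    h1.forall_mem_list.comp (allL_prim.comp (list_length.comp (fst.comp snd)) gb) Primrec.id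
  have h3 : PrimrecRel fun (i : ℕ) (p : List ℕ × ℕ) => 1 ≤ p.1.getD i 0 ∧
      ∀ e ∈ allL p.1.length (p.1.getD i 0), wt p.1 e + 2 ≤ p.1.getD i 0 → DD (e, i) p.2 :=
    (nat_le.comp (const 1) gb).and h2
  exact h3.forall_mem_list.comp (list_range.comp (list_length.comp fst)) Primrec.id

lemma rel_prim (hD : PrimrecRel DD) : PrimrecRel (Rel DD) := by
  have g1 : Primrec fun q : ℕ × List ℕ × List ℕ => q.2.1.getD q.1 0 :=
    (list_getD 0).comp (fst.comp snd) fst
  have g2 : Primrec fun q : ℕ × List ℕ × List ℕ => q.2.2.getD q.1 0 :=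
    (list_getD 0).comp (snd.comp snd) fst
  have h3 : PrimrecRel fun (i : ℕ) (p : List ℕ × List ℕ) =>
      2 * p.1.getD i 0 ≤ p.2.getD i 0 + 1 ∧ p.2.getD i 0 ≤ 2 * p.1.getD i 0 ∧
      (DD ([], i) p.1.length → 2 ≤ p.2.getD i 0) :=
    (nat_le.comp (nat_mul.comp (const 2) g1) (nat_add.comp g2 (const 1))).and
      ((nat_le.comp g2 (nat_mul.comp (const 2) g1)).and
        (imp_prim (hD.comp (pair (const []) fst) (list_length.comp (fst.comp snd)))
          (nat_le.comp (const 2) g2)))
  exact (Primrec.eq.comp (list_length.comp snd) (succ.comp (list_length.comp fst))).and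
    (h3.forall_mem_list.comp (list_range.comp (list_length.comp fst)) Primrec.id)

variable {G : Type} [Group G] (π : ℕ → G)

def Inv (b : List ℕ) : Prop :=
  ∀ i < b.length, 1 ≤ b.getD i 0 ∧
    ∀ e : List ℕ, (∀ j ∈ e, j < b.length) → (e.map π).prod = π i → b.getD i 0 ≤ wt b e + 1

variable {π}

lemma len_le_wt {b : List ℕ} (h : ∀ i < b.length, 1 ≤ b.getD i 0) :
    ∀ e : List ℕ, (∀ j ∈ e, j < b.length) → e.length ≤ wt b e
  | [], _ => by simp
  | j :: l, he => by
    have h1 := len_le_wt h l fun x hx => he x (List.mem_cons_of_mem _ hx)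
    have h2 := h j (he j List.mem_cons_self)
    simp only [wt, List.map_cons, List.sum_cons, List.length_cons] at h1 ⊢
    omega

lemma good_inv (hs : ∀ e i, (∃ s, DD (e, i) s) ↔ (e.map π).prod ≠ π i) {p : List ℕ × ℕ}
    (h : Good DD p) : Inv π p.1 := by
  have h1 : ∀ i < p.1.length, 1 ≤ p.1.getD i 0 := fun i hi => (h i (List.mem_range.2 hi)).1
  refine fun i hi => ⟨h1 i hi, fun e he hp => ?_⟩
  by_contra hlt
  have := len_le_wt h1 e he
  exact (hs e i).1 ⟨_, (h i (List.mem_range.2 hi)).2 e (mem_allL.2 ⟨he, by omega⟩) (by omega)⟩ hp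

lemma inv_good (hs : ∀ e i, (∃ s, DD (e, i) s) ↔ (e.map π).prod ≠ π i)
    (hm : ∀ x s s', s ≤ s' → DD x s → DD x s') {b : List ℕ} (h : Inv π b) :
    ∃ s, Good DD (b, s) := by
  have : ∀ᶠ s in Filter.atTop, ∀ i ∈ {i | i ∈ List.range b.length},
      ∀ e ∈ {e | e ∈ allL b.length (b.getD i 0)}, wt b e + 2 ≤ b.getD i 0 → DD (e, i) s := by
    refine (Filter.eventually_all_finite (List.finite_toSet _)).2 fun i hi => ?_
    refine (Filter.eventually_all_finite (List.finite_toSet _)).2 fun e he => ?_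
    by_cases hw : wt b e + 2 ≤ b.getD i 0
    · have hne : (e.map π).prod ≠ π i := fun hp => by
        have := (h i (List.mem_range.1 hi)).2 e (mem_allL.1 he).1 hp
        omega
      obtain ⟨s, hs'⟩ := (hs e i).2 hne
      exact (Filter.eventually_ge_atTop s).mono fun s' h' _ => hm _ _ _ h' hs'
    · exact Filter.Eventually.of_forall fun _ h' => absurd h' hw
  obtain ⟨s, hs'⟩ := this.exists
  exact ⟨s, fun i hi => ⟨(h i (List.mem_range.1 hi)).1, fun e he => hs' i hi e he⟩⟩

lemma wt_append (b e e' : List ℕ) : wt b (e ++ e') = wt b e + wt b e' := by simp [wt]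

lemma step (hs : ∀ e i, (∃ s, DD (e, i) s) ↔ (e.map π).prod ≠ π i) {b : List ℕ} (h : Inv π b) :
    ∃ b', Inv π b' ∧ Rel DD b b' := by
  classical
  set t := b.length with ht
  set M := b.sum + 1 with hM
  let S : G → Set ℕ := fun g =>
    {m | m = M ∨ ∃ e : List ℕ, (∀ j ∈ e, j < t) ∧ (e.map π).prod = g ∧ wt b e = m}
  have hne : ∀ g, (S g).Nonempty := fun g => ⟨M, Or.inl rfl⟩
  let l : G → ℕ := fun g => sInf (S g)
  have l1 : ∀ g, l g ≤ M := fun g => Nat.sInf_le (Or.inl rfl)
  have l2 : ∀ e : List ℕ, (∀ j ∈ e, j < t) → l (e.map π).prod ≤ wt b e :=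
    fun e he => Nat.sInf_le (Or.inr ⟨e, he, rfl, rfl⟩)
  have l3 : ∀ g g', l (g * g') ≤ l g + l g' := by
    intro g g'
    rcases Nat.sInf_mem (hne g) with h1 | ⟨e, he, hp, hw⟩
    · have := l1 (g * g'); change l g = M at h1; omega
    rcases Nat.sInf_mem (hne g') with h2 | ⟨e', he', hp', hw'⟩
    · have := l1 (g * g'); change l g' = M at h2; omega
    have := l2 (e ++ e') (fun j hj => (List.mem_append.1 hj).elim (he j) (he' j))
    rw [List.map_append, List.prod_append, hp, hp', wt_append] at this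
    change wt b e = l g at hw; change wt b e' = l g' at hw'
    omega
  have l0 : l 1 = 0 := by simpa [wt] using l2 [] (by simp)
  have l4 : ∀ g, g ≠ 1 → 1 ≤ l g := by
    intro g hg
    rcases Nat.sInf_mem (hne g) with h1 | ⟨e, he, hp, hw⟩
    · change l g = M at h1; omega
    · change wt b e = l g at hw
      have := len_le_wt (fun i hi => (h i hi).1) e he
      cases e with
      | nil => exact absurd hp.symm (by simpa using hg)
      | cons j e => simp only [List.length_cons] at this; omega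
  have l5 : ∀ i < t, l (π i) ≤ b.getD i 0 := fun i hi => by
    simpa [wt] using l2 [i] (by simpa using hi)
  have l6 : ∀ i < t, b.getD i 0 ≤ l (π i) + 1 := by
    intro i hi
    rcases Nat.sInf_mem (hne (π i)) with h1 | ⟨e, he, hp, hw⟩
    · change l (π i) = M at h1
      have : b.getD i 0 ≤ b.sum := by
        rw [List.getD_eq_getElem _ _ hi]
        exact List.single_le_sum (by simp) _ (List.getElem_mem hi)
      omega
    · change wt b e = l (π i) at hw
      have := (h i hi).2 e he hp
      omega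
  let f : ℕ → ℕ := fun i => if i < t then min (2 * b.getD i 0) (2 * l (π i) + 1) else 2 * l (π i) + 1
  let b' := (List.range (t + 1)).map f
  have hlen : b'.length = t + 1 := by simp [b']
  have hget : ∀ i < t + 1, b'.getD i 0 = f i := fun i hi => by
    rw [List.getD_eq_getElem _ _ (by rw [hlen]; exact hi)]; simp [b']
  have f1 : ∀ i, 2 * l (π i) ≤ f i ∧ f i ≤ 2 * l (π i) + 1 ∧ 1 ≤ f i := by
    intro i
    by_cases hi : i < t
    · have := l5 i hi; have := (h i hi).1
      simp only [f, if_pos hi]; omega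
    · simp only [f, if_neg hi]; omega
  have key : ∀ e : List ℕ, (∀ j ∈ e, j < t + 1) → 2 * l (e.map π).prod ≤ wt b' e := by
    intro e
    induction e with
    | nil => intro _; simp [l0]
    | cons j e ih =>
      intro he
      have h1 := ih fun x hx => he x (List.mem_cons_of_mem _ hx)
      have h2 := hget j (he j List.mem_cons_self)
      have h3 := l3 (π j) (e.map π).prod
      have h4 := (f1 j).1
      simp only [wt, List.map_cons, List.sum_cons, List.prod_cons] at h1 ⊢
      omega
  refine ⟨b', fun i hi => ?_, hlen, fun i hi => ?_⟩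
  · rw [hlen] at hi ⊢
    rw [hget i hi]
    refine ⟨(f1 i).2.2, fun e he hp => ?_⟩
    have := key e he
    rw [hp] at this
    have := (f1 i).2.1
    omega
  · have hi' : i < t := List.mem_range.1 hi
    rw [hget i (by omega)]
    have h1 := l6 i hi'
    refine ⟨by simp only [f, if_pos hi']; omega, by simp only [f, if_pos hi']; omega, fun hd => ?_⟩
    have := l4 (π i) (fun h0 => (hs [] i).1 ⟨_, hd⟩ (by simp [h0]))
    have := (f1 i).1
    omega

theorem core (hD : PrimrecRel DD) (hs : ∀ e i, (∃ s, DD (e, i) s) ↔ (e.map π).prod ≠ π i)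
    (hm : ∀ x s s', s ≤ s' → DD x s → DD x s') :
    ∃ B : ℕ → List ℕ, Computable B ∧ ∀ t, (B t).length = t ∧ Inv π (B t) ∧
      Rel DD (B t) (B (t + 1)) := by
  classical
  let dec : ℕ → List ℕ × ℕ := Denumerable.ofNat (List ℕ × ℕ)
  let P : List ℕ × ℕ → ℕ → Prop := fun p n => Good DD p → Good DD (dec n) ∧ Rel DD p.1 (dec n).1
  have hdec : Primrec dec := Primrec.ofNat _
  have hP : PrimrecPred fun q : (List ℕ × ℕ) × ℕ => P q.1 q.2 :=
    imp_prim ((good_prim hD).comp fst) (((good_prim hD).comp (hdec.comp snd)).and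
      ((rel_prim hD).comp (fst.comp fst) (fst.comp (hdec.comp snd))))
  have hex : ∀ p, ∃ n, P p n := by
    intro p
    by_cases hg : Good DD p
    · obtain ⟨b', h1, h2⟩ := step hs (good_inv hs hg)
      obtain ⟨s, h3⟩ := inv_good hs hm h1
      refine ⟨Encodable.encode (b', s), fun _ => ?_⟩
      simp only [dec, Denumerable.ofNat_encode]
      exact ⟨h3, h2⟩
    · exact ⟨0, fun h => absurd h hg⟩
  have hF : Computable fun p => dec (Nat.find (hex p)) :=
    hdec.to_comp.comp (Computable.find hP.computablePred hex)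
  let A : ℕ → List ℕ × ℕ := fun t => Nat.rec ([], 0) (fun _ p => dec (Nat.find (hex p))) t
  have hA : Computable A :=
    Computable.nat_rec (h := fun _ (q : ℕ × List ℕ × ℕ) => dec (Nat.find (hex q.2)))
      Computable.id (Computable.const ([], 0)) (hF.comp (Computable.snd.comp Computable.snd))
  have hG : ∀ t, Good DD (A t) ∧ (A t).1.length = t := by
    intro t
    induction t with
    | zero => exact ⟨fun i hi => by simp [A] at hi, rfl⟩
    | succ t ih =>
      have := Nat.find_spec (hex (A t)) ih.1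
      exact ⟨this.1, this.2.1.trans (by rw [ih.2])⟩
  exact ⟨fun t => (A t).1, Computable.fst.comp hA, fun t =>
    ⟨(hG t).2, good_inv hs (hG t).1, (Nat.find_spec (hex (A t)) (hG t).1).2⟩⟩

end Pool.Agent.Lib.H8.EffBK
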