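import Mathlib
import Pool.Agent.Lib.H8.EffBK

set_option maxHeartbeats 400000

namespace Pool.Agent.Lib.H8.EffBK

variable {DD : List ℕ × ℕ → ℕ → Prop} {G : Type} [Group G] {π : ℕ → G}

theorem limit (hs : ∀ e i, (∃ s, DD (e, i) s) ↔ (e.map π).prod ≠ π i)
    (hm : ∀ x s s', s ≤ s' → DD x s → DD x s') {B : ℕ → List ℕ}
    (hB : ∀ t, (B t).length = t ∧ Inv π (B t) ∧ Rel DD (B t) (B (t + 1))) :
    ∃ v : ℕ → ℝ, (∀ t i, i < t → v i ≤ ((B t).getD i 0 : ℝ) / 2 ^ t ∧
        ((B t).getD i 0 : ℝ) / 2 ^ t ≤ v i + 1 / 2 ^ t) ∧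
      (∀ (e : List ℕ) i, (e.map π).prod = π i → v i ≤ (e.map v).sum) ∧
      (∀ i, 0 ≤ v i) ∧ ∀ i, π i ≠ 1 → 0 < v i := by
  let x : ℕ → ℕ → ℝ := fun i t => ((B t).getD i 0 : ℝ) / 2 ^ t
  let y : ℕ → ℕ → ℝ := fun i t => (((B t).getD i 0 : ℝ) - 1) / 2 ^ t
  have hr : ∀ t i, i < t → 2 * (B t).getD i 0 ≤ (B (t + 1)).getD i 0 + 1 ∧
      (B (t + 1)).getD i 0 ≤ 2 * (B t).getD i 0 ∧ (DD ([], i) t → 2 ≤ (B (t + 1)).getD i 0) := by
    intro t i hi
    have := (hB t).2.2.2 i (List.mem_range.2 (by rw [(hB t).1]; exact hi))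
    rwa [(hB t).1] at this
  have hx : ∀ i t s, i < t → t ≤ s → x i s ≤ x i t := by
    intro i t s hi hts
    induction s, hts using Nat.le_induction with
    | base => exact le_rfl
    | succ s hs' ih =>
      refine le_trans ?_ ih
      have h1 : ((B (s + 1)).getD i 0 : ℝ) ≤ 2 * (B s).getD i 0 := by
        exact_mod_cast (hr s i (by omega)).2.1
      simp only [x]
      rw [div_le_div_iff₀ (by positivity) (by positivity), pow_succ]
      nlinarith [pow_pos (two_pos : (0 : ℝ) < 2) s]
  have hy : ∀ i t s, i < t → t ≤ s → y i t ≤ y i s := by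
    intro i t s hi hts
    induction s, hts using Nat.le_induction with
    | base => exact le_rfl
    | succ s hs' ih =>
      refine le_trans ih ?_
      have h1 : 2 * ((B s).getD i 0 : ℝ) ≤ (B (s + 1)).getD i 0 + 1 := by
        exact_mod_cast (hr s i (by omega)).1
      simp only [y]
      rw [div_le_div_iff₀ (by positivity) (by positivity), pow_succ]
      nlinarith [pow_pos (two_pos : (0 : ℝ) < 2) s]
  have hyx : ∀ i t s, i < t → i < s → y i t ≤ x i s := by
    intro i t s ht hs'
    refine (hy i t (max t s) ht (le_max_left _ _)).trans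
      (le_trans ?_ (hx i s (max t s) hs' (le_max_right _ _)))
    simp only [x, y]
    gcongr
    linarith
  have hx0 : ∀ i t, 0 ≤ x i t := fun i t => by simp only [x]; positivity
  let v : ℕ → ℝ := fun i => ⨅ k : ℕ, x i (i + 1 + k)
  have hv1 : ∀ t i, i < t → v i ≤ x i t := by
    intro t i hi
    have : v i ≤ x i (i + 1 + (t - (i + 1))) :=
      ciInf_le ⟨0, by rintro _ ⟨k, rfl⟩; exact hx0 _ _⟩ (t - (i + 1))
    rwa [show i + 1 + (t - (i + 1)) = t by omega] at this
  have hv2 : ∀ t i, i < t → y i t ≤ v i := fun t i hi =>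
    le_ciInf fun k => hyx i t _ hi (by omega)
  have hap : ∀ t i, i < t → x i t ≤ v i + 1 / 2 ^ t := by
    intro t i hi
    have := hv2 t i hi
    simp only [x, y, sub_div] at this ⊢
    linarith
  refine ⟨v, fun t i hi => ⟨hv1 t i hi, hap t i hi⟩, fun e i hp => ?_,
    fun i => le_ciInf fun k => hx0 _ _, fun i hi => ?_⟩
  · have key : ∀ t, i < t → (∀ j ∈ e, j < t) →
        v i ≤ (e.map v).sum + ((e.length : ℝ) + 1) * (1 / 2) ^ t := by
      intro t hi he
      have h1 := ((hB t).2.1 i (by rw [(hB t).1]; exact hi)).2 e (by rw [(hB t).1]; exact he) hp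
      have h2 : ∀ e' : List ℕ, (∀ j ∈ e', j < t) →
          (wt (B t) e' : ℝ) / 2 ^ t ≤ (e'.map v).sum + (e'.length : ℝ) * (1 / 2 ^ t) := by
        intro e'
        induction e' with
        | nil => intro _; simp [wt]
        | cons j l ih =>
          intro he'
          have h3 := ih fun z hz => he' z (List.mem_cons_of_mem _ hz)
          have h4 := hap t j (he' j List.mem_cons_self)
          simp only [wt, List.map_cons, List.sum_cons, List.length_cons, x] at h3 h4 ⊢
          push_cast at h3 h4 ⊢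
          rw [add_div]
          linarith
      have h3 := h2 e he
      have h4 := hv1 t i hi
      have h5 : x i t ≤ (wt (B t) e : ℝ) / 2 ^ t + 1 / 2 ^ t := by
        simp only [x]
        rw [← add_div]
        gcongr
        exact_mod_cast h1
      rw [one_div_pow]
      linarith
    have hlim : Filter.Tendsto (fun t : ℕ => (e.map v).sum + ((e.length : ℝ) + 1) * (1 / 2) ^ t)
        Filter.atTop (nhds ((e.map v).sum + ((e.length : ℝ) + 1) * 0)) :=
      tendsto_const_nhds.add (tendsto_const_nhds.mul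
        (tendsto_pow_atTop_nhds_zero_of_lt_one (by norm_num) (by norm_num)))
    rw [mul_zero, add_zero] at hlim
    refine ge_of_tendsto hlim ?_
    filter_upwards [Filter.eventually_gt_atTop (i + e.sum)] with t ht
    refine key t (by omega) fun j hj => ?_
    have := List.single_le_sum (l := e) (by simp) j hj
    omega
  · obtain ⟨s, hs'⟩ := (hs [] i).2 (by simpa using hi.symm)
    have h1 := (hr (s + i + 1) i (by omega)).2.2 (hm _ _ _ (by omega) hs')
    have h2 := hv2 (s + i + 1 + 1) i (by omega)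
    refine lt_of_lt_of_le ?_ h2
    have h3 : (2 : ℝ) ≤ (B (s + i + 1 + 1)).getD i 0 := by exact_mod_cast h1
    simp only [y]
    apply div_pos (by linarith) (by positivity)

/-- type synonym carrying the invariant pseudometric -/
structure Wrap (Γ : Type) where
  val : Γ

theorem space {Γ : Type} [Group Γ] (ν : Γ → ℝ) (h1 : ν 1 = 0) (hi : ∀ g, ν g⁻¹ = ν g)
    (hsub : ∀ g h, ν (g * h) ≤ ν g + ν h) :
    ∃ (X : Type) (_ : MetricSpace X) (_ : CompleteSpace X) (ι : Γ → X), DenseRange ι ∧
      (∀ g h, dist (ι g) (ι h) = ν (g⁻¹ * h)) ∧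
      ∃ φ : Γ →* (X ≃ᵢ X), ∀ g h, φ g (ι h) = ι (g * h) := by
  letI : PseudoMetricSpace (Wrap Γ) :=
    { dist := fun a b => ν (a.val⁻¹ * b.val)
      dist_self := fun a => by simp [h1]
      dist_comm := fun a b => by rw [← hi]; simp
      dist_triangle := fun a b c => by
        have := hsub (a.val⁻¹ * b.val) (b.val⁻¹ * c.val)
        simpa [mul_assoc] using this }
  have hd : ∀ a b : Wrap Γ, dist a b = ν (a.val⁻¹ * b.val) := fun _ _ => rfl
  let L : Γ → Wrap Γ → Wrap Γ := fun g a => ⟨g * a.val⟩
  have hL : ∀ g, Isometry (L g) := fun g => Isometry.of_dist_eq fun a b => by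
    simp [hd, L, mul_assoc]
  let X := UniformSpace.Completion (Wrap Γ)
  let T : Γ → X → X := fun g => UniformSpace.Completion.map (L g)
  have hT : ∀ g, Isometry (T g) := fun g => (hL g).completion_map
  have hTc : ∀ g (a : Wrap Γ), T g a = (L g a : X) := fun g a =>
    UniformSpace.Completion.map_coe (hL g).uniformContinuous a
  have hmul : ∀ g h x, T (g * h) x = T g (T h x) := by
    intro g h x
    refine UniformSpace.Completion.induction_on x
      (isClosed_eq (hT _).continuous ((hT g).continuous.comp (hT h).continuous)) fun a => ?_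
    simp only [hTc, L, mul_assoc]
  have hone : ∀ x, T 1 x = x := by
    intro x
    refine UniformSpace.Completion.induction_on x
      (isClosed_eq (hT _).continuous continuous_id) fun a => ?_
    simp only [hTc, L, one_mul]
  let E : Γ → X ≃ᵢ X := fun g =>
    { toFun := T g
      invFun := T g⁻¹
      left_inv := fun x => by rw [← hmul, inv_mul_cancel, hone]
      right_inv := fun x => by rw [← hmul, mul_inv_cancel, hone]
      isometry_toFun := hT g }
  refine ⟨X, inferInstance, inferInstance, fun g => ((⟨g⟩ : Wrap Γ) : X), ?_, fun g h => ?_,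
    MonoidHom.mk' E fun g h => IsometryEquiv.ext fun x => hmul g h x, fun g h => hTc g ⟨h⟩⟩
  · have hsurj : Function.Surjective (fun g : Γ => (⟨g⟩ : Wrap Γ)) := fun a => ⟨a.val, rfl⟩
    exact UniformSpace.Completion.denseRange_coe.comp hsurj.denseRange
      (UniformSpace.Completion.continuous_coe _)
  · exact (UniformSpace.Completion.dist_eq _ _).trans (hd _ _)

theorem re_approx {α : Type} [Primcodable α] {p : α → Prop} (hp : REPred p) :
    ∃ D : α → ℕ → Prop, PrimrecRel D ∧ (∀ a, (∃ s, D a s) ↔ p a) ∧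
      ∀ a s s', s ≤ s' → D a s → D a s' := by
  obtain ⟨c, hc⟩ := Nat.Partrec.Code.exists_code.1 hp
  refine ⟨fun a s => (Nat.Partrec.Code.evaln s c (Encodable.encode a)).isSome = true, ?_, ?_, ?_⟩
  · have h1 : Primrec fun q : α × ℕ => Nat.Partrec.Code.evaln q.2 c (Encodable.encode q.1) :=
      Nat.Partrec.Code.primrec_evaln.comp
        ((Primrec.snd.pair (Primrec.const c)).pair (Primrec.encode.comp Primrec.fst))
    exact Primrec.eq.comp (Primrec.option_isSome.comp h1) (Primrec.const true)
  · intro a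
    have : (∃ s, (Nat.Partrec.Code.evaln s c (Encodable.encode a)).isSome = true) ↔
        ∃ x, x ∈ Nat.Partrec.Code.eval c (Encodable.encode a) := by
      simp only [Option.isSome_iff_exists, Nat.Partrec.Code.evaln_complete, Option.mem_def]
      exact exists_comm
    rw [this, hc]
    simp
  · intro a s s' h hd
    obtain ⟨x, hx⟩ := Option.isSome_iff_exists.1 hd
    exact Option.isSome_iff_exists.2 ⟨x, Nat.Partrec.Code.evaln_mono h hx⟩

end Pool.Agent.Lib.H8.EffBK
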