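import Mathlib

/-!
A combinatorial downcrossing inequality in the style of Bishop for supermodular arrays.
-/

namespace Pool.Agent.Lib.H8.Erg

open Classical Finset

/-- Counting alternations in the `k` times from `w` on: the first component counts pairs
(high, then low), the second one counts lows in alternations that may start with a low. -/
noncomputable def N (H L : ℕ → Prop) : ℕ → ℕ → ℕ × ℕ
  | _, 0 => (0, 0)
  | w, k + 1 => (if H w then max (N H L (w + 1) k).1 (N H L (w + 1) k).2 else (N H L (w + 1) k).1,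
      if L w then max (N H L (w + 1) k).2 ((N H L (w + 1) k).1 + 1) else (N H L (w + 1) k).2)

variable {H L H' L' : ℕ → Prop}

lemma N_mono {k k' w w' : ℕ} (hk : k ≤ k') (hH : ∀ n < k, H (w + n) → H' (w' + n))
    (hL : ∀ n < k, L (w + n) → L' (w' + n)) :
    (N H L w k).1 ≤ (N H' L' w' k').1 ∧ (N H L w k).2 ≤ (N H' L' w' k').2 := by
  induction k generalizing k' w w' with
  | zero => simp [N]
  | succ k ih =>
    obtain ⟨k', rfl⟩ : ∃ j, k' = j + 1 := ⟨k' - 1, by omega⟩
    obtain ⟨a, b⟩ := ih (k' := k') (w := w + 1) (w' := w' + 1) (by omega)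
      (fun n hn h => by
        have := hH (n + 1) (by omega) (by rwa [← add_assoc, add_right_comm])
        rwa [← add_assoc, add_right_comm] at this)
      (fun n hn h => by
        have := hL (n + 1) (by omega) (by rwa [← add_assoc, add_right_comm])
        rwa [← add_assoc, add_right_comm] at this)
    have c : H w → H' w' := hH 0 (by omega)
    have d : L w → L' w' := hL 0 (by omega)
    simp only [N]
    constructor <;> split_ifs <;> first | omega | tauto

lemma N_skip (w d k : ℕ) :
    (N H L (w + d) k).1 ≤ (N H L w (k + d)).1 ∧ (N H L (w + d) k).2 ≤ (N H L w (k + d)).2 := by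
  induction d generalizing w with
  | zero => simp
  | succ d ih =>
    have := ih (w + 1)
    rw [add_right_comm, add_assoc] at this
    rw [← add_assoc k, N]
    constructor <;> split_ifs <;> omega

lemma N_inf (hH : ∀ w, ∃ u ≥ w, H u) (hL : ∀ w, ∃ v ≥ w, L v) (j w : ℕ) :
    ∃ k, j ≤ (N H L w k).1 := by
  induction j generalizing w with
  | zero => exact ⟨0, Nat.zero_le _⟩
  | succ j ih =>
    obtain ⟨u, u1, u2⟩ := hH w
    obtain ⟨v, v1, v2⟩ := hL (u + 1)
    obtain ⟨k, hk⟩ := ih (v + 1)
    obtain ⟨a, rfl⟩ := Nat.exists_eq_add_of_le u1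
    obtain ⟨b, rfl⟩ := Nat.exists_eq_add_of_le v1
    have h1 := (N_skip (H := H) (L := L) (w + a + 1) b (k + 1)).2
    have h2 := (N_skip (H := H) (L := L) w a (k + 1 + b + 1)).1
    refine ⟨_, le_trans ?_ h2⟩
    simp only [N, if_pos u2, if_pos v2] at h1 ⊢
    omega

lemma N_bd (w k : ℕ) : (N H L w k).1 ≤ (N H L w k).2 ∧ (N H L w k).2 ≤ (N H L w k).1 + 1 := by
  induction k generalizing w with
  | zero => simp [N]
  | succ k ih =>
    have := ih (w + 1)
    simp only [N]
    constructor <;> split_ifs <;> omega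

/-- Optimal gains of a trader with a bonus `d` for each transaction. -/
def V (A B : ℕ → ℤ) (d : ℤ) : ℕ → ℕ → ℤ × ℤ
  | w, 0 => (0, A w + d)
  | w, k + 1 => (max (V A B d (w + 1) k).1 ((V A B d (w + 1) k).2 - B w),
      max (V A B d (w + 1) k).2 (A w + d + (V A B d (w + 1) k).1))

variable {A B A' B' : ℕ → ℤ} {d : ℤ}

lemma V_cmp (hH : ∀ t, H t ↔ B t < 0) (hL : ∀ t, L t ↔ 0 < A t) {w : ℕ}
    (hd : ∀ t ≥ w, A t ≤ B t) (k : ℕ) :
    ((N H L w (k + 1)).1 < (N H L w (k + 1)).2 → (V A B 0 w k).1 ≤ (V A B 0 w k).2) ∧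
    (max 1 (N H L w (k + 1)).2 ≤ (N H L w (k + 1)).1 → (V A B 0 w k).2 ≤ (V A B 0 w k).1) := by
  induction k generalizing w with
  | zero =>
    have := hL w
    simp only [N, V]
    constructor <;> split_ifs <;> simp_all <;> omega
  | succ k ih =>
    have a := ih (w := w + 1) fun t ht => hd t (by omega)
    have b := N_bd (H := H) (L := L) (w + 1) (k + 1)
    have c := hH w
    have e := hL w
    have f := hd w le_rfl
    rw [N, V]
    by_cases h : H w <;> by_cases l : L w <;> simp only [h, l, true_iff, false_iff, if_true,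
      if_false] at c e ⊢ <;> omega

lemma V_bonus (hH : ∀ t, H t ↔ B t < 0) (hL : ∀ t, L t ↔ 0 < A t) (h0 : 0 ≤ d) {w : ℕ}
    (hd : ∀ t ≥ w, A t ≤ B t) (k : ℕ) :
    (V A B 0 w k).1 + d * (N H L w (k + 1)).1 ≤ (V A B d w k).1 ∧
    (V A B 0 w k).2 + d * (max 1 (N H L w (k + 1)).2 : ℕ) ≤ (V A B d w k).2 := by
  induction k generalizing w with
  | zero =>
    simp only [N, V]
    constructor <;> split_ifs <;> simp
  | succ k ih =>
    obtain ⟨a1, a2⟩ := ih (w := w + 1) fun t ht => hd t (by omega)
    obtain ⟨g1, g2⟩ := V_cmp hH hL (w := w + 1) (fun t ht => hd t (by omega)) k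
    have b := N_bd (H := H) (L := L) (w + 1) (k + 1)
    have c := hH w
    have e := hL w
    have f := hd w le_rfl
    rw [N, V, V]
    generalize (N H L (w + 1) (k + 1)).1 = x at *
    generalize (N H L (w + 1) (k + 1)).2 = y at *
    have m0 : 0 ≤ d * x := by positivity
    obtain rfl | rfl : y = x ∨ y = x + 1 := by omega
    · rcases Nat.eq_zero_or_pos y with rfl | p
      · constructor <;> split_ifs <;> simp at * <;> omega
      · replace p : 1 ≤ y := p
        rw [max_eq_right p] at a2 g2
        by_cases l : L w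
        · simp only [l, true_iff, if_true, max_self, ite_self] at e ⊢
          rw [max_eq_right (by omega : y ≤ y + 1), max_eq_right (by omega : 1 ≤ y + 1)]
          push_cast
          rw [mul_add]
          omega
        · simp only [l, false_iff, if_false, max_self, ite_self, max_eq_right p] at e ⊢
          omega
    · rw [max_eq_right (by omega : 1 ≤ x + 1)] at a2
      simp only [max_self, ite_self, max_eq_right (by omega : 1 ≤ x + 1),
        max_eq_right (by omega : x ≤ x + 1)]
      push_cast at a2 ⊢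
      rw [mul_add] at a2 ⊢
      by_cases h : H w
      · simp only [h, true_iff, if_true] at c ⊢
        rw [mul_add]
        omega
      · simp only [h, false_iff, if_false] at c ⊢
        omega

lemma V_shift {a b : ℤ} {e : ℕ → ℤ} {w : ℕ} (hA : ∀ t ≥ w, A t = A' t + a - e t)
    (hB : ∀ t ≥ w, B t = B' t + b - e t) (he : ∀ t ≥ w, e t ≤ e (t + 1)) (k : ℕ) :
    (V A B (b - a) w k).1 ≤ (V A' B' 0 w k).1 ∧
    (V A B (b - a) w k).2 ≤ (V A' B' 0 w k).2 + b - e w := by
  induction k generalizing w with
  | zero => have := hA w le_rfl; simp only [V]; omega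
  | succ k ih =>
    have := ih (w := w + 1) (fun t ht => hA t (by omega)) (fun t ht => hB t (by omega))
      fun t ht => he t (by omega)
    have := hA w le_rfl
    have := hB w le_rfl
    have := he w le_rfl
    simp only [V]
    omega

lemma V_nonneg (w k : ℕ) : 0 ≤ (V A B d w k).1 := by
  induction k generalizing w with
  | zero => simp [V]
  | succ k ih => have := ih (w + 1); simp only [V]; omega

lemma V_start {b : ℤ} {w : ℕ} (h0 : B w = 0) (hb : 0 ≤ b) (hA : A (w + 1) ≤ b)
    (hB : B (w + 1) ≤ b) (k : ℕ) : (V A B 0 w (k + 1)).1 ≤ (V A B 0 (w + 1) k).1 + b := by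
  cases k <;> simp only [V] <;> omega

/-- The downcrossing inequality. -/
theorem bishop (G : ℕ → ℕ → ℕ) (a b : ℕ) (hab : a ≤ b) (h0 : ∀ x, G x 0 = 0)
    (hm : ∀ x n, G x (n + 1) + G (x + 1) (n + 1) ≤ G x (n + 2) + G (x + 1) n) (p K : ℕ) :
    (b - a) * ∑ i ∈ range K, (N (fun n => b * n < G (p + i) n) (fun n => G (p + i) n < a * n)
      1 (K - i)).1 ≤ b * K := by
  let A : ℕ → ℕ → ℤ := fun x t => a * (t - x : ℕ) - G x (t - x)
  let B : ℕ → ℕ → ℤ := fun x t => b * (t - x : ℕ) - G x (t - x)
  have key : ∀ x k, ((b : ℤ) - a) * (N (fun n => b * n < G x n) (fun n => G x n < a * n)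
      1 (k + 1)).1 + (V (A x) (B x) 0 x (k + 1)).1 ≤
      (V (A (x + 1)) (B (x + 1)) 0 (x + 1) k).1 + b := fun x k => by
    have h1 := (V_bonus (H := fun t => B x t < 0) (L := fun t => 0 < A x t) (d := (b : ℤ) - a)
      (fun _ => Iff.rfl) (fun _ => Iff.rfl) (by omega) (w := x + 1)
      (fun t _ => by simp only [A, B]; gcongr) k).1
    have h2 := (V_shift (A := A x) (B := B x) (A' := A (x + 1)) (B' := B (x + 1)) (a := a)
      (b := b) (e := fun t => (G x (t - x) : ℤ) - G (x + 1) (t - (x + 1))) (w := x + 1)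
      (fun t ht => by
        obtain ⟨n, rfl⟩ := Nat.exists_eq_add_of_le ht
        simp only [A, show x + 1 + n - x = n + 1 by omega, Nat.add_sub_cancel_left]
        push_cast; ring)
      (fun t ht => by
        obtain ⟨n, rfl⟩ := Nat.exists_eq_add_of_le ht
        simp only [B, show x + 1 + n - x = n + 1 by omega, Nat.add_sub_cancel_left]
        push_cast; ring)
      (fun t ht => by
        obtain ⟨n, rfl⟩ := Nat.exists_eq_add_of_le ht
        have := hm x n
        simp only [show x + 1 + n - x = n + 1 by omega, Nat.add_sub_cancel_left,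
          show x + 1 + n + 1 - x = n + 2 by omega, show x + 1 + n + 1 - (x + 1) = n + 1 by omega]
        omega) k).1
    have h3 := V_start (A := A x) (B := B x) (b := b) (w := x) (by simp [B, h0]) (by omega)
      (by simp only [A, Nat.add_sub_cancel_left]; omega)
      (by simp only [B, Nat.add_sub_cancel_left]; omega) k
    have h4 := (N_mono (H := fun n => b * n < G x n) (L := fun n => G x n < a * n)
      (H' := fun t => B x t < 0) (L' := fun t => 0 < A x t) (k := k + 1) (w := 1) (w' := x + 1)
      le_rfl (fun n _ h => by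
        simp only [B, show x + 1 + n - x = 1 + n by omega]; zify at h; push_cast; omega)
      fun n _ h => by
        simp only [A, show x + 1 + n - x = 1 + n by omega]; zify at h; push_cast; omega).1
    have h5 : ((b : ℤ) - a) * _ ≤ ((b : ℤ) - a) * _ :=
      mul_le_mul_of_nonneg_left (Int.ofNat_le.2 h4) (by omega)
    omega
  have main : ∀ K p, ((b : ℤ) - a) * (∑ i ∈ range K, (N (fun n => b * n < G (p + i) n)
      (fun n => G (p + i) n < a * n) 1 (K - i)).1 : ℕ) + (V (A p) (B p) 0 p K).1 ≤ b * K := by
    intro K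
    induction K with
    | zero => simp [V]
    | succ K ih =>
      intro p
      have h1 := ih (p + 1)
      have h2 := key p K
      rw [sum_range_succ']
      simp only [Nat.add_sub_add_right, add_zero, Nat.sub_zero, ← add_assoc]
      simp only [add_right_comm p 1] at h1
      push_cast at h1 ⊢
      linarith
  have h1 := main K p
  have h2 := V_nonneg (A := A p) (B := B p) (d := 0) p K
  refine Int.ofNat_le.1 ?_
  rw [Nat.cast_mul, Nat.cast_mul, Nat.cast_sub hab]
  linarith

end Pool.Agent.Lib.H8.Erg
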