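import Pool.Agent.Lib.H8.Erg1

/-!
A charging argument on dyadic cells for arrays that increase in stages.
-/

namespace Pool.Agent.Lib.H8.Erg

open Classical Finset

variable (F : ℕ → ℕ → ℕ) (a b j : ℕ)

/-- The mass at stage `s` of the interval of length `m` starting at `y`. -/
def S (s y m : ℕ) : ℕ := ∑ i ∈ range m, F s (y + i)

/-- There are `j` downcrossings at `x` before `e`, highs seen at stage `q`, lows at stage `σ`. -/
def Pat (q σ x e : ℕ) : Prop :=
  ∃ k, x + k ≤ e ∧ j ≤ (N (fun n => b * n < S F q x n) (fun n => S F σ x n < a * n) 1 k).1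

/-- A long light interval in the cell gains much mass between the stages `q` and `σ`. -/
def Act (q p σ : ℕ) : Prop :=
  3 ≤ q ∧ ∃ y m, p ≤ y ∧ y + m ≤ p + 2 ^ q ∧ 2 ^ q ≤ 4 * m ∧ m + S F q y m < S F σ y m ∧
    S F σ y m ≤ 2 * b * m

/-- Points of the cell with a pattern at the stage of the cell. -/
noncomputable def PS (q p : ℕ) : Finset ℕ :=
  (Ico p (p + 2 ^ q)).filter fun x => Pat F a b j q q x (p + 2 ^ q)

/-- Points caught by a subcell before the deadline `t`. -/
noncomputable def Bad (t : ℕ) : ℕ → ℕ → Finset ℕ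
  | 0, _ => ∅
  | q + 1, p => ((Ico p (p + 2 ^ (q + 1))).filter fun x => ∃ σ < t, q + 1 ≤ σ ∧
      Act F b (q + 1) p σ ∧ Pat F a b j (q + 1) σ x (p + 2 ^ (q + 1))) ∪
      (Bad t q p ∪ Bad t q (p + 2 ^ q))

lemma S_add (s y m n : ℕ) : S F s y (m + n) = S F s y m + S F s (y + m) n := by
  simp [S, sum_range_add, add_assoc]

variable {F a b j}

lemma PS_card (hab : a < b) (q p : ℕ) : j * #(PS F a b j q p) ≤ b * 2 ^ q := by
  have h := bishop (S F q) a b hab.le (fun x => by simp [S]) (fun x n => by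
    have h1 := S_add F q x 1 n
    have h2 := S_add F q x 1 (n + 1)
    rw [add_comm 1] at h1 h2
    rw [h1, h2]
    omega) p (2 ^ q)
  refine le_trans ?_ ((Nat.le_mul_of_pos_left _ (by omega)).trans h)
  have := sum_Ico_eq_sum_range (fun x => (N (fun n => b * n < S F q x n)
    (fun n => S F q x n < a * n) 1 (p + 2 ^ q - x)).1) p (p + 2 ^ q)
  simp only [Nat.add_sub_cancel_left, Nat.add_sub_add_left] at this
  rw [← this, mul_comm, ← smul_eq_mul]
  refine (card_nsmul_le_sum _ _ _ fun x hx => ?_).trans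
    (sum_le_sum_of_subset (filter_subset _ _))
  obtain ⟨-, k, k1, k2⟩ := mem_filter.1 hx
  exact k2.trans (N_mono (by omega) (fun _ _ h => h) fun _ _ h => h).1

lemma Bad_mem {t q p x : ℕ} (h : x ∈ Bad F a b j t q p) : x ∈ Ico p (p + 2 ^ q) := by
  induction q generalizing p with
  | zero => simp [Bad] at h
  | succ q ih =>
    simp only [Bad, mem_union] at h
    rcases h with h | h | h
    · exact (mem_filter.1 h).1
    all_goals
      have := ih h
      simp only [mem_Ico, pow_succ] at this ⊢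
      omega

lemma step0 {t q p : ℕ} (h : ¬ ∃ σ < t, q + 1 ≤ σ ∧ Act F b (q + 1) p σ) :
    #(Bad F a b j t (q + 1) p) ≤ #(Bad F a b j t q p) + #(Bad F a b j t q (p + 2 ^ q)) := by
  rw [Bad, filter_false_of_mem fun x _ ⟨σ, u, v, w, _⟩ => h ⟨σ, u, v, w⟩, empty_union]
  exact card_union_le _ _

variable (hF : ∀ i, Monotone fun s => F s i)
include hF

lemma S_mono {s t : ℕ} (h : s ≤ t) (y m : ℕ) : S F s y m ≤ S F t y m :=
  sum_le_sum fun _ _ => hF _ h

lemma Pat_mono {q σ x e q' σ' e' : ℕ} (h : Pat F a b j q σ x e) (h1 : q ≤ q') (h2 : σ' ≤ σ)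
    (h3 : e ≤ e') : Pat F a b j q' σ' x e' := by
  obtain ⟨k, k1, k2⟩ := h
  refine ⟨k, by omega, k2.trans (N_mono le_rfl (fun _ _ h => ?_) fun _ _ h => ?_).1⟩
  exacts [lt_of_lt_of_le h (S_mono hF h1 _ _), (S_mono hF h2 _ _).trans_lt h]

lemma Bad_split {t q p x Q e : ℕ} (h1 : q ≤ Q) (h2 : p + 2 ^ q ≤ e)
    (h : x ∈ Bad F a b j t q p) : Pat F a b j Q Q x e ∨ x ∈ Bad F a b j Q q p := by
  induction q generalizing p with
  | zero => simp [Bad] at h
  | succ q ih =>
    simp only [Bad, mem_union, mem_filter] at h ⊢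
    rcases h with ⟨u, σ, -, v, w, z⟩ | h | h
    · by_cases k : σ < Q
      · exact Or.inr (Or.inl ⟨u, σ, k, v, w, z⟩)
      · exact Or.inl (Pat_mono hF z h1 (by omega) h2)
    · exact (ih (by omega) (by rw [pow_succ] at h2; omega) h).imp_right fun k => by tauto
    · exact (ih (by omega) (by rw [pow_succ] at h2; omega) h).imp_right fun k => by tauto

lemma step1 (hab : a < b) (t q p : ℕ) {p' : ℕ} (e : p' = p + 2 ^ q) :
    j * #(Bad F a b j t (q + 1) p) ≤
      b * 2 ^ (q + 1) + (j * #(Bad F a b j t q p) + j * #(Bad F a b j t q p')) := by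
  have : Bad F a b j t (q + 1) p ⊆
      PS F a b j (q + 1) p ∪ (Bad F a b j t q p ∪ Bad F a b j t q p') := by
    rw [Bad, e]
    refine union_subset_union_left fun x hx => ?_
    obtain ⟨u, σ, -, v, -, z⟩ := mem_filter.1 hx
    exact mem_filter.2 ⟨u, Pat_mono hF z le_rfl v le_rfl⟩
  have h1 := (card_le_card this).trans ((card_union_le _ _).trans
    (Nat.add_le_add_left (card_union_le _ _) _))
  have h2 := PS_card (F := F) (j := j) hab (q + 1) p
  have h3 := Nat.mul_le_mul_left j h1
  linarith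

lemma step2 (hab : a < b) (t q p : ℕ) {p' : ℕ} (e : p' = p + 2 ^ q) :
    j * #(Bad F a b j t (q + 1) p) ≤ b * 2 ^ (q + 1) +
      (j * #(Bad F a b j (q + 1) q p) + j * #(Bad F a b j (q + 1) q p')) := by
  have : Bad F a b j t (q + 1) p ⊆
      PS F a b j (q + 1) p ∪ (Bad F a b j (q + 1) q p ∪ Bad F a b j (q + 1) q p') := by
    intro x hx
    rcases Bad_split hF le_rfl le_rfl hx with h | h
    · exact mem_union_left _ (mem_filter.2 ⟨Bad_mem hx, h⟩)
    · rw [Bad, filter_false_of_mem fun x _ ⟨σ, u, v, _⟩ => by omega, empty_union] at h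
      exact mem_union_right _ (e ▸ h)
  have h1 := (card_le_card this).trans ((card_union_le _ _).trans
    (Nat.add_le_add_left (card_union_le _ _) _))
  have h2 := PS_card (F := F) (j := j) hab (q + 1) p
  have h3 := Nat.mul_le_mul_left j h1
  linarith

lemma claim1 (hab : a < b) (t q p : ℕ) :
    j * #(Bad F a b j t q p) ≤ 4 * b * S F t p (2 ^ q) := by
  induction q generalizing t p with
  | zero => simp [Bad]
  | succ q ih =>
    have e : ∀ s, S F s p (2 ^ (q + 1)) = S F s p (2 ^ q) + S F s (p + 2 ^ q) (2 ^ q) := fun s => by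
      rw [pow_succ, mul_two, S_add]
    by_cases h : ∃ σ < t, q + 1 ≤ σ ∧ Act F b (q + 1) p σ
    · obtain ⟨σ, u, v, -, y, m, h1, h2, h3, h4, -⟩ := h
      obtain ⟨c, rfl⟩ := Nat.exists_eq_add_of_le h1
      obtain ⟨d, hd⟩ : ∃ d, 2 ^ (q + 1) = c + m + d := ⟨2 ^ (q + 1) - c - m, by omega⟩
      have h5 : S F (q + 1) p (2 ^ (q + 1)) + m ≤ S F t p (2 ^ (q + 1)) := by
        have := S_mono hF u.le p (2 ^ (q + 1))
        have := S_mono hF v p c
        have := S_mono hF v (p + (c + m)) d
        rw [hd] at *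
        simp only [S_add] at *
        omega
      have h6 := step2 (j := j) hF hab t q p rfl
      have h7 := ih (q + 1) p
      have h8 := ih (q + 1) (p + 2 ^ q)
      rw [e (q + 1)] at h5
      have h9 := Nat.mul_le_mul_left (4 * b) h5
      have h10 := Nat.mul_le_mul_left b h3
      linarith
    · have h6 := Nat.mul_le_mul_left j (step0 (a := a) (j := j) h)
      have h7 := ih t p
      have h8 := ih t (p + 2 ^ q)
      rw [e]
      linarith

theorem claim2 (hab : a < b) (t q p : ℕ) :
    j * #(Bad F a b j t q p) ≤ b * (24 + 64 * b) * 2 ^ q := by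
  induction q using Nat.strong_induction_on generalizing t p with
  | _ q ih =>
    cases q with
    | zero => simp [Bad]
    | succ q =>
      by_cases h : ∃ σ < t, q + 1 ≤ σ ∧ Act F b (q + 1) p σ
      · obtain ⟨σ, u, v, w, y, m, h1, h2, h3, -, h4⟩ := h
        obtain ⟨r, rfl⟩ : ∃ r, q = r + 2 := ⟨q - 2, by omega⟩
        obtain ⟨c, hc⟩ : ∃ c, c = 2 ^ r := ⟨_, rfl⟩
        have c0 : 0 < c := hc ▸ Nat.two_pow_pos r
        have e1 : 2 ^ (r + 1) = 2 * c := by rw [hc]; ring
        have e2 : 2 ^ (r + 1 + 1) = 4 * c := by rw [hc]; ring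
        have e3 : 2 ^ (r + 2 + 1) = 8 * c := by rw [hc]; ring
        have g0 := step2 (j := j) hF hab t (r + 2) (p + 0 * c) (p' := p + 4 * c) (by rw [hc]; ring)
        have g1 := fun i => step1 (j := j) hF hab (r + 2 + 1) (r + 1) (p + i * c)
          (p' := p + (i + 2) * c) (by rw [hc]; ring)
        have g2 := fun i => step1 (j := j) hF hab (r + 2 + 1) r (p + i * c)
          (p' := p + (i + 1) * c) (by rw [hc]; ring)
        have g3 := fun i => ih r (by omega) (r + 2 + 1) (p + i * c)
        obtain ⟨i, i1, i2⟩ : ∃ i < 8,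
            j * #(Bad F a b j (r + 2 + 1) r (p + i * c)) ≤ 64 * (b * b * c) := by
          obtain ⟨z, rfl⟩ := Nat.exists_eq_add_of_le h1
          have k1 := Nat.div_add_mod z c
          have k2 := Nat.mod_lt z c0
          refine ⟨z / c + 1, ?_, (claim1 hF hab _ _ _).trans ?_⟩
          · have : c * (z / c) ≤ c * 6 := by omega
            have := Nat.le_of_mul_le_mul_left this c0
            omega
          · obtain ⟨d, hd⟩ : ∃ d, m = (c - z % c) + c + d := ⟨m - (c - z % c) - c, by omega⟩
            have k3 := S_mono hF v (p + z) m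
            have k4 : S F (r + 2 + 1) (p + (z / c + 1) * c) c ≤ S F (r + 2 + 1) (p + z) m := by
              rw [hd, S_add, S_add, show p + z + (c - z % c) = p + (z / c + 1) * c by
                rw [add_mul, mul_comm (z / c)]; omega]
              omega
            have k5 : 2 * b * m ≤ 2 * b * (8 * c) := Nat.mul_le_mul_left _ (by omega)
            rw [← hc]
            have k6 := Nat.mul_le_mul_left (4 * b) (k4.trans (k3.trans (h4.trans k5)))
            linarith
        have a0 := g1 0
        have a4 := g1 4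
        have b0 := g2 0
        have b2 := g2 2
        have b4 := g2 4
        have b6 := g2 6
        have := g3 0; have := g3 1; have := g3 2; have := g3 3
        have := g3 4; have := g3 5; have := g3 6; have := g3 7
        clear g1 g2 g3 ih
        simp only [e1, e2, e3, ← hc, zero_mul, add_zero, Nat.reduceAdd] at *
        interval_cases i <;> (try simp only [zero_mul, add_zero] at i2) <;> linarith
      · have h6 := Nat.mul_le_mul_left j (step0 (a := a) (j := j) h)
        have h7 := ih q (by omega) t p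
        have h8 := ih q (by omega) t (p + 2 ^ q)
        rw [pow_succ]
        linarith

omit hF in
lemma Bad_of {t q R p x σ : ℕ} (h1 : q ≤ R) (h2 : x < 2 ^ R) (h3 : σ < t) (h4 : q ≤ σ)
    (h5 : Act F b q (p + x / 2 ^ q * 2 ^ q) σ)
    (h6 : Pat F a b j q σ (p + x) (p + x / 2 ^ q * 2 ^ q + 2 ^ q)) :
    p + x ∈ Bad F a b j t R p := by
  induction R, h1 using Nat.le_induction generalizing p x with
  | base =>
    obtain ⟨q, rfl⟩ : ∃ r, q = r + 1 := ⟨q - 1, by have := h5.1; omega⟩
    rw [Nat.div_eq_of_lt h2, zero_mul, add_zero] at h5 h6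
    exact mem_union_left _ (mem_filter.2 ⟨by simpa using h2, σ, h3, h4, h5, h6⟩)
  | succ R h1 ih =>
    refine mem_union_right _ (mem_union.2 ?_)
    by_cases k : x < 2 ^ R
    · exact Or.inl (ih k h5 h6)
    · obtain ⟨z, rfl⟩ := Nat.exists_eq_add_of_le (not_lt.1 k)
      obtain ⟨d, rfl⟩ := Nat.exists_eq_add_of_le h1
      have e : (2 ^ (q + d) + z) / 2 ^ q * 2 ^ q = 2 ^ (q + d) + z / 2 ^ q * 2 ^ q := by
        rw [pow_add, Nat.mul_add_div (Nat.two_pow_pos q)]; ring
      rw [e, ← add_assoc] at h5 h6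
      rw [← add_assoc] at h6 ⊢
      exact Or.inr (ih (by rw [pow_succ] at h2; omega) h5 h6)

end Pool.Agent.Lib.H8.Erg
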