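import Mathlib

set_option maxHeartbeats 400000

namespace Pool.Agent.Lib.H8.Orc

/-- the total function `f` is recursive in the total oracle `w` -/
def R (w f : ℕ → ℕ) : Prop := Nat.RecursiveIn {fun n => Part.some (w n)} fun n => Part.some (f n)

variable {w f g : ℕ → ℕ}

lemma R.tur (h : R w f) : TuringReducible (fun n => Part.some (f n)) fun n => Part.some (w n) :=
  RecursiveIn.iff_nat.2 h

lemma R.of_tur (h : TuringReducible (fun n => Part.some (f n)) fun n => Part.some (w n)) : R w f :=
  RecursiveIn.iff_nat.1 h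

lemma R.of_eq (h : R w f) (e : ∀ n, f n = g n) : R w g := (funext e : f = g) ▸ h

lemma R.self : R w w := Nat.RecursiveIn.oracle _ rfl

lemma R.comput (h : Computable f) : R w f := (Partrec.nat_iff.1 h).recursiveIn

lemma R.comp (hf : R w f) (hg : R w g) : R w fun n => f (g n) :=
  (Nat.RecursiveIn.comp hf hg).of_eq fun n => by simp

lemma R.pair (hf : R w f) (hg : R w g) : R w fun n => Nat.pair (f n) (g n) :=
  (Nat.RecursiveIn.pair hf hg).of_eq fun n => by simp [Seq.seq]

lemma R.trans {v : ℕ → ℕ} (h : R w f) (h' : R v w) : R v f :=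
  Nat.RecursiveIn.subst h fun g hg => by rw [Set.mem_singleton_iff.1 hg]; exact h'

lemma u1 : Computable fun z : ℕ => z.unpair.1 := (Primrec.fst.comp Primrec.unpair).to_comp
lemma u2 : Computable fun z : ℕ => z.unpair.2 := (Primrec.snd.comp Primrec.unpair).to_comp

lemma R.rec (a : ℕ) {h : ℕ → ℕ} (hh : R w h) :
    R w fun n => (Nat.rec a (fun y i => h (Nat.pair y i)) n : ℕ) := by
  have h1 := Nat.RecursiveIn.prec (R.comput (w := w) (Computable.const a)) (hh.comp (R.comput u2))
  have h2 : R w fun n => Nat.pair 0 n := (R.comput (Computable.const 0)).pair (R.comput Computable.id)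
  refine (Nat.RecursiveIn.comp h1 h2).of_eq fun n => ?_
  simp only [Part.bind_eq_bind, Part.bind_some, Nat.unpair_pair]
  induction n with
  | zero => rfl
  | succ n ih => simp only [ih, Part.bind_some]

lemma R.pre : R w fun n => Encodable.encode ((List.range n).map w) := by
  have hc : Computable fun m : ℕ =>
      Encodable.encode (Denumerable.ofNat (List ℕ) m.unpair.1 ++ [m.unpair.2]) :=
    (Primrec.encode.comp (Primrec.list_concat.comp ((Primrec.ofNat _).comp
      (Primrec.fst.comp Primrec.unpair)) (Primrec.snd.comp Primrec.unpair))).to_comp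
  have h1 := ((R.comput (w := w) hc).comp ((R.comput u2).pair (R.self.comp (R.comput u1)))).rec
    (Encodable.encode ([] : List ℕ))
  refine h1.of_eq fun n => ?_
  induction n with
  | zero => rfl
  | succ n ih =>
    simp only [Nat.unpair_pair] at ih ⊢
    rw [ih, Denumerable.ofNat_encode, List.range_succ, List.map_append]
    rfl

lemma R.find {t : ℕ → ℕ} (ht : R w t) (hex : ∀ a, ∃ s, t (Nat.pair a s) = 0) :
    R w fun a => Nat.find (hex a) :=
  (Nat.RecursiveIn.rfind ht).of_eq_tot fun a => Nat.mem_rfind.2
    ⟨by simpa using Nat.find_spec (hex a), fun hm => by simpa using Nat.find_min (hex a) hm⟩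

/-- normal form criterion: read longer and longer prefixes of the oracle -/
theorem tt {G : ℕ × List ℕ → Option ℕ} (hG : Computable G)
    (h1 : ∀ a, ∃ s y, G (a, (List.range s).map w) = some y)
    (h2 : ∀ a s y, G (a, (List.range s).map w) = some y → y = f a) : R w f := by
  have hc : Computable fun m : ℕ =>
      Encodable.encode (G (m.unpair.1, Denumerable.ofNat (List ℕ) m.unpair.2)) :=
    Computable.encode.comp (hG.comp (u1.pair ((Primrec.ofNat _).to_comp.comp u2)))
  have h3 : R w fun m : ℕ => Encodable.encode (G (m.unpair.1, (List.range m.unpair.2).map w)) :=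
    ((R.comput hc).comp ((R.comput u1).pair (R.pre.comp (R.comput u2)))).of_eq fun m => by simp
  have h4 := (R.comput (Primrec.nat_sub.comp (Primrec.const 1) Primrec.id).to_comp).comp h3
  have hex : ∀ a, ∃ s, (fun m : ℕ => 1 - id (Encodable.encode
      (G (m.unpair.1, (List.range m.unpair.2).map w)))) (Nat.pair a s) = 0 := fun a => by
    obtain ⟨s, y, h⟩ := h1 a
    exact ⟨s, by simp [h]⟩
  refine ((R.comput Primrec.pred.to_comp).comp (h3.comp
    ((R.comput Computable.id).pair (h4.find hex)))).of_eq fun a => ?_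
  have h5 := Nat.find_spec (hex a)
  generalize Nat.find (hex a) = s at h5 ⊢
  simp only [Nat.unpair_pair, id] at h5 ⊢
  cases h6 : G (a, (List.range s).map w) with
  | none => simp [h6] at h5
  | some y => simp [h2 _ _ _ h6]

lemma pow_prim : Primrec fun m : ℕ => 2 ^ m :=
  (Primrec₂.unpaired'.1 Nat.Primrec.pow).comp (Primrec.const 2) Primrec.id

lemma testBit_prim : PrimrecRel fun u y : ℕ => u.testBit y = true :=
  (Primrec.eq.comp (Primrec.nat_mod.comp (Primrec.nat_div.comp Primrec.fst
    (pow_prim.comp Primrec.snd)) (Primrec.const 2)) (Primrec.const 1)).of_eq fun p => by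
      simp [Nat.testBit_eq_decide_div_mod_eq]

lemma ex_prim {α : Type} [Primcodable α] {R : ℕ × α → Prop} (h : PrimrecPred R) {f : α → ℕ}
    (hf : Primrec f) : PrimrecPred fun a => ∃ i < f a, R (i, a) :=
  (PrimrecRel.exists_mem_list (R := fun i a => R (i, a)) h |>.comp
    (Primrec.list_range.comp hf) Primrec.id).of_eq fun a => by simp

lemma all_prim {α : Type} [Primcodable α] {R : ℕ × α → Prop} (h : PrimrecPred R) {f : α → ℕ}
    (hf : Primrec f) : PrimrecPred fun a => ∀ i < f a, R (i, a) :=
  (PrimrecRel.forall_mem_list (R := fun i a => R (i, a)) h |>.comp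
    (Primrec.list_range.comp hf) Primrec.id).of_eq fun a => by simp

lemma imp_prim {α} [Primcodable α] {p q : α → Prop} (hp : PrimrecPred p) (hq : PrimrecPred q) :
    PrimrecPred fun a => p a → q a :=
  (hp.not.or hq).of_eq fun a => by tauto

/-- course-of-values recursion -/
noncomputable def cov {α : Type} [Inhabited α] (Φ : ℕ → (ℕ → α) → α) (j : ℕ) : α :=
  Φ j fun i => if _h : i < j then cov Φ i else default
termination_by j

lemma cov_eq {α : Type} [Inhabited α] (Φ : ℕ → (ℕ → α) → α) (j : ℕ) :
    cov Φ j = Φ j fun i => if i < j then cov Φ i else default := by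
  rw [cov]; simp

end Pool.Agent.Lib.H8.Orc
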