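import Pool.Agent.Lib.H8.Qm1
import Pool.Agent.Lib.H8.Orc

/-!
Effectively open sets, lower semicomputable functions and the uniform measure on Cantor space.
-/

namespace Pool.Agent.Lib.H8.Rnd

open MeasureTheory ProbabilityTheory ENNReal Arith CList Qm Classical

/-- The uniform measure on Cantor space. -/
noncomputable def mu : Measure (ℕ → Bool) := Measure.infinitePi fun _ => uniformOn Set.univ

instance : IsProbabilityMeasure mu := by unfold mu; infer_instance

/-- The prefix of length `k`. -/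
def pr (ω : ℕ → Bool) (k : ℕ) : List Bool := (List.range k).map ω

/-- Lower semicomputable functions: suprema of computable dyadic lower approximations, the `s`-th
of which depends on the first `s` bits. -/
def LSC (f : (ℕ → Bool) → ℝ≥0∞) : Prop :=
  ∃ a : List Bool → ℕ, Computable a ∧ ∀ ω, f ω = ⨆ s, (a (pr ω s) : ℝ≥0∞) / 2 ^ s

/-- The cylinder of a string. -/
def cyl (σ : List Bool) : Set (ℕ → Bool) := {ω | pr ω σ.length = σ}

@[simp] lemma pr_len (p : ℕ → Bool) (k : ℕ) : (pr p k).length = k := by simp [pr]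

lemma pr_take (p : ℕ → Bool) {j k : ℕ} (h : j ≤ k) : (pr p k).take j = pr p j := by
  simp [pr, ← List.map_take, List.take_range, h]

lemma pr_eq {p q : ℕ → Bool} {k : ℕ} : pr p k = pr q k ↔ ∀ i < k, p i = q i := by
  simp [pr]

lemma pr_getD (σ : List Bool) : pr (fun i => σ.getD i false) σ.length = σ :=
  List.ext_getElem (by simp) fun i h1 h2 => by simp [pr, h2]

lemma cyl_pr (p : ℕ → Bool) (k : ℕ) :
    cyl (pr p k) = Set.pi (Finset.range k) fun i => {p i} := by
  ext ω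
  simp [cyl, pr_eq]

lemma cyl_meas (σ : List Bool) : MeasurableSet (cyl σ) := by
  rw [← pr_getD σ, cyl_pr]
  exact MeasurableSet.pi (Finset.countable_toSet _) fun _ _ => measurableSet_singleton _

lemma mu_cyl (σ : List Bool) : mu (cyl σ) = 2⁻¹ ^ σ.length := by
  rw [← pr_getD σ, cyl_pr, mu, Measure.infinitePi_pi _ fun _ _ => measurableSet_singleton _]
  simp only [uniformOn_univ]
  simp

lemma mu_clopen (R : List Bool → Prop) (s : ℕ) : mu {ω | R (pr ω s)} =
    ((List.range (2 ^ s)).filter fun u => R (pr u.testBit s)).length * 2⁻¹ ^ s := by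
  have : {ω | R (pr ω s)} = ⋃ u ∈ (Finset.range (2 ^ s)).filter fun u => R (pr u.testBit s),
      cyl (pr u.testBit s) := by
    ext ω
    simp only [cyl, pr_len, Set.mem_iUnion, Finset.mem_filter, Finset.mem_range, Set.mem_ofPred_eq]
    refine ⟨fun h => ?_, fun ⟨u, ⟨_, a⟩, b⟩ => b ▸ a⟩
    have e : pr ω s = pr (Nat.ofBits fun i : Fin s => ω i).testBit s :=
      pr_eq.2 fun i hi => by rw [Nat.testBit_ofBits_lt _ _ hi]
    exact ⟨_, ⟨Nat.ofBits_lt_two_pow _, e ▸ h⟩, e⟩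
  rw [this, measure_biUnion_finset ?_ fun _ _ => cyl_meas _]
  · simp only [mu_cyl, pr_len, Finset.sum_const, nsmul_eq_mul]
    rfl
  · intro u hu v hv h
    simp only [Finset.coe_filter, Finset.mem_range, Set.mem_ofPred_eq] at hu hv
    refine Set.disjoint_left.2 fun ω a b => h (Nat.eq_of_testBit_eq fun i => ?_)
    simp only [cyl, pr_len, Set.mem_ofPred_eq] at a b
    by_cases k : i < s
    · exact pr_eq.1 (a.symm.trans b) i k
    · have := Nat.pow_le_pow_right (by norm_num : 0 < 2) (not_lt.1 k)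
      rw [Nat.testBit_lt_two_pow (by omega), Nat.testBit_lt_two_pow (by omega)]

variable {α β : Type} [Primcodable α] [Primcodable β]

/-- Uniformly effectively open families. -/
def EO (P : α → Set (ℕ → Bool)) : Prop :=
  ∃ E : α × List Bool → Prop, Sig 1 _ E ∧ ∀ a ω, ω ∈ P a ↔ ∃ s, E (a, pr ω s)

variable {P Q : α → Set (ℕ → Bool)}

lemma EO.meas (h : EO P) (a : α) : MeasurableSet (P a) := by
  obtain ⟨E, -, e⟩ := h
  have : P a = ⋃ σ, ⋃ _ : E (a, σ), cyl σ := by
    ext ω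
    simp only [e, Set.mem_iUnion, cyl, Set.mem_ofPred_eq]
    exact ⟨fun ⟨s, h⟩ => ⟨_, h, by simp⟩, fun ⟨σ, h, k⟩ => ⟨_, k ▸ h⟩⟩
  rw [this]
  exact .iUnion fun _ => .iUnion fun _ => cyl_meas _

lemma EO.of_eq (h : EO P) (e : ∀ a, P a = Q a) : EO Q := (funext e : P = Q) ▸ h

lemma EO.comp {P : β → Set (ℕ → Bool)} (h : EO P) {f : α → β} (hf : Computable f) :
    EO fun a => P (f a) := by
  obtain ⟨E, a, c⟩ := h
  exact ⟨_, a.comp ((hf.comp Computable.fst).pair Computable.snd), fun p x => c _ _⟩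

/-- Normal form with a computable, monotone stage predicate. -/
lemma EO.nf (h : EO P) : ∃ E : α × List Bool → Prop, ComputablePred E ∧
    (∀ a ω, Monotone fun s => E (a, pr ω s)) ∧ ∀ a ω, ω ∈ P a ↔ ∃ s, E (a, pr ω s) := by
  obtain ⟨E, ⟨B, hB, b⟩, c⟩ := h
  have hB' : ComputablePred B := (ComputablePred.not hB).of_eq fun p => by simp
  have f := @Computable.fst
  have s := @Computable.snd
  have L : Computable fun q : α × List Bool => q.2.length + 1 :=
    Computable.succ.comp (Computable.list_length.comp s)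
  refine ⟨fun q => ∃ t < q.2.length + 1, ∃ w < q.2.length + 1, B ((q.1, q.2.take t), w),
    cbex L (cbex (L.comp f) (cp hB' (((f.comp (f.comp f)).pair
      (Primrec.list_take.to_comp.comp (s.comp f) (s.comp (f.comp f)))).pair s))),
    fun a ω i j l ⟨t, t1, w, w1, k⟩ => ?_, fun a ω => ?_⟩
  · simp only [pr_len] at t1 w1 ⊢
    rw [pr_take _ (by omega)] at k
    exact ⟨t, by omega, w, by omega, by rwa [pr_take _ (by omega)]⟩
  · simp only [c, b, pr_len]
    exact ⟨fun ⟨t, w, k⟩ => ⟨t + w, t, by omega, w, by omega, by rwa [pr_take _ (by omega)]⟩,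
      fun ⟨s, t, t1, w, _, k⟩ => ⟨t, w, by rwa [pr_take _ (by omega)] at k⟩⟩

lemma EO.inter (h : EO P) (h' : EO Q) : EO fun a => P a ∩ Q a := by
  obtain ⟨E, a, b, c⟩ := h.nf
  obtain ⟨E', a', b', c'⟩ := h'.nf
  refine ⟨_, CeAlg.cs (cand a a'), fun p x => ?_⟩
  rw [Set.mem_inter_iff, c, c']
  exact ⟨fun ⟨⟨j, u⟩, k, v⟩ => ⟨j + k, b _ _ (by omega) u, b' _ _ (by omega) v⟩,
    fun ⟨k, u, v⟩ => ⟨⟨k, u⟩, k, v⟩⟩

lemma EO.sig {A : α → Prop} (h : Sig 1 α A) : EO fun a => {_ω | A a} :=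
  ⟨_, h.comp Computable.fst, fun _ _ => by simp⟩

lemma EO.cyl {σ : α → List Bool} (h : Computable σ) : EO fun a => cyl (σ a) :=
  ⟨_, CeAlg.cs (ceq Computable.snd (h.comp Computable.fst)), fun a ω =>
    ⟨fun k => ⟨_, k⟩, fun ⟨s, (k : pr ω s = σ a)⟩ => by
      change pr ω (σ a).length = σ a
      rw [← k, pr_len]⟩⟩

lemma EO.iUnion {γ : Type} [Denumerable γ] {P : α × γ → Set (ℕ → Bool)} (h : EO P) :
    EO fun a => ⋃ x, P (a, x) := by
  obtain ⟨E, a, c⟩ := h
  refine ⟨fun q => ∃ x, E ((q.1, x), q.2), Sig.exd (a.comp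
    (((Computable.fst.comp Computable.fst).pair Computable.snd).pair
      (Computable.snd.comp Computable.fst))), fun p x => ?_⟩
  simp only [Set.mem_iUnion, c]
  exact exists_comm

lemma pow_c : Computable fun m : ℕ => 2 ^ m := Orc.pow_prim.to_comp

lemma bits_c {u s : α → ℕ} (hu : Computable u) (hs : Computable s) :
    Computable fun a => pr (u a).testBit (s a) := by
  have : Computable fun q : α × ℕ => (u q.1).testBit q.2 :=
    (cp (p := fun q : ℕ × ℕ => q.1.testBit q.2 = true) Orc.testBit_prim.computablePred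
      ((hu.comp Computable.fst).pair Computable.snd)).decide.of_eq fun _ => by simp
  exact cmap (Primrec.list_range.to_comp.comp hs) this.to₂

lemma dy_lt (a b m s : ℕ) : (a : ℝ≥0∞) * 2⁻¹ ^ m < b * 2⁻¹ ^ s ↔ a * 2 ^ s < b * 2 ^ m := by
  rw [← ENNReal.inv_pow, ← ENNReal.inv_pow, ← div_eq_mul_inv, ← div_eq_mul_inv,
    ENNReal.div_lt_iff (by simp) (by simp), ← ENNReal.mul_div_right_comm,
    ENNReal.lt_div_iff_mul_lt (by simp) (by simp)]
  norm_cast

lemma EO.lt_mu (h : EO P) {N M : α → ℕ} (hN : Computable N) (hM : Computable M) :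
    Sig 1 α fun a => (N a : ℝ≥0∞) * 2⁻¹ ^ M a < mu (P a) := by
  obtain ⟨E, a, b, c⟩ := h.nf
  have f := @Computable.fst
  have s := @Computable.snd
  have m := Primrec.nat_mul.to_comp
  refine (Sig.ex (A := fun q : α × ℕ => N q.1 * 2 ^ q.2 < ((List.range (2 ^ q.2)).filter
    fun u => E (q.1, pr u.testBit q.2)).length * 2 ^ M q.1) (CeAlg.cs (clt
      (m.comp (hN.comp f) (pow_c.comp s)) (m.comp (Computable.list_length.comp (cfilter
        (p := fun (q : α × ℕ) (u : ℕ) => E (q.1, pr u.testBit q.2))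
        (Primrec.list_range.to_comp.comp (pow_c.comp s))
        (cp a ((f.comp f).pair (bits_c s (s.comp f)))))) (pow_c.comp (hM.comp f)))))).of_eq
    fun x => ?_
  have : P x = ⋃ s, {ω | E (x, pr ω s)} := by
    ext ω
    simp [c]
  rw [this, Monotone.measure_iUnion (s := fun s => {ω | E (x, pr ω s)})
    fun i j l ω => b x ω l, lt_iSup_iff]
  exact exists_congr fun s => by rw [mu_clopen (fun σ => E (x, σ)), dy_lt]

lemma LSC.eo {f : (ℕ → Bool) → ℝ≥0∞} (h : LSC f) : EO fun k : ℕ => {ω | 2 ^ k < f ω} := by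
  obtain ⟨a, ha, e⟩ := h
  refine ⟨fun q => 2 ^ (q.1 + q.2.length) < a q.2, CeAlg.cs (clt (pow_c.comp
    (Primrec.nat_add.to_comp.comp Computable.fst (Computable.list_length.comp Computable.snd)))
    (ha.comp Computable.snd)), fun k ω => ?_⟩
  simp only [Set.mem_ofPred_eq, e, lt_iSup_iff, pr_len]
  refine exists_congr fun s => ?_
  rw [ENNReal.lt_div_iff_mul_lt (by simp) (by simp), ← pow_add]
  norm_cast

lemma LSC.meas {f : (ℕ → Bool) → ℝ≥0∞} (h : LSC f) : Measurable f := by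
  obtain ⟨a, -, e⟩ := h
  rw [funext e]
  refine .iSup fun s t _ => ?_
  have : (fun ω => (a (pr ω s) : ℝ≥0∞) / 2 ^ s) ⁻¹' t =
      ⋃ σ, ⋃ _ : σ.length = s ∧ (a σ : ℝ≥0∞) / 2 ^ s ∈ t, cyl σ := by
    ext ω
    simp only [Set.mem_iUnion, cyl, Set.mem_ofPred_eq, Set.mem_preimage]
    exact ⟨fun h => ⟨_, ⟨by simp, h⟩, by simp⟩, fun ⟨σ, ⟨h, h'⟩, k⟩ => by rwa [← h, k, h]⟩
  rw [this]
  exact .iUnion fun _ => .iUnion fun _ => cyl_meas _

lemma EO.lsc1 {P : ℕ → Set (ℕ → Bool)} (h : EO P) :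
    LSC fun ω => ⨆ n, (P n).indicator (fun _ => (n : ℝ≥0∞)) ω := by
  obtain ⟨E, a, b, c⟩ := h.nf
  refine ⟨fun σ => Nat.findGreatest (fun n => E (n, σ)) σ.length * 2 ^ σ.length,
    Primrec.nat_mul.to_comp.comp (cfg (p := fun σ n => E (n, σ)) Computable.list_length
      (cp a (Computable.snd.pair Computable.fst))) (pow_c.comp Computable.list_length),
    fun ω => ?_⟩
  simp only [pr_len, Nat.cast_mul, Nat.cast_pow, Nat.cast_ofNat]
  simp only [ENNReal.mul_div_cancel_right (pow_ne_zero _ two_ne_zero) (pow_ne_top ofNat_ne_top)]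
  refine le_antisymm (iSup_le fun n => Set.indicator_apply_le' (fun k => ?_) fun _ => zero_le)
    (iSup_le fun s => ?_)
  · obtain ⟨s, hs⟩ := (c _ _).1 k
    exact le_iSup_of_le (s + n) (Nat.cast_le.2
      (Nat.le_findGreatest (by omega) (b _ _ (by omega) hs)))
  · rcases eq_or_ne (Nat.findGreatest (fun n => E (n, pr ω s)) s) 0 with z | z
    · simp [z]
    · exact le_iSup_of_le _ (by
        rw [Set.indicator_of_mem ((c _ _).2 ⟨s, Nat.findGreatest_of_ne_zero rfl z⟩)])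

lemma EO.lsc {γ : Type} [Denumerable γ] {P : γ → Set (ℕ → Bool)} (h : EO P) {t : γ → ℕ}
    (ht : Computable t) : LSC fun ω => ⨆ i, (P i).indicator (fun _ => (t i : ℝ≥0∞)) ω := by
  have : LSC fun ω => ⨆ n : ℕ, (⋃ i, {_ω | t i = n} ∩ P i).indicator (fun _ => (n : ℝ≥0∞)) ω :=
    (((EO.sig (CeAlg.cs (ceq (ht.comp Computable.snd) (Computable.fst (α := ℕ))))).inter
      (h.comp Computable.snd)).iUnion).lsc1
  convert this using 2 with ω
  refine le_antisymm (iSup_le fun i => Set.indicator_apply_le' (fun k => ?_) fun _ => zero_le)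
    (iSup_le fun n => Set.indicator_apply_le' (fun k => ?_) fun _ => zero_le)
  · exact le_iSup_of_le (t i) (by
      rw [Set.indicator_of_mem (Set.mem_iUnion.2 ⟨i, by simpa using k⟩)])
  · obtain ⟨i, rfl, l⟩ := Set.mem_iUnion.1 k
    exact le_iSup_of_le i (by rw [Set.indicator_of_mem l])

lemma int_sup {γ : Type} [Countable γ] {P : γ → Set (ℕ → Bool)} (h : ∀ i, MeasurableSet (P i))
    (t : γ → ℝ≥0∞) :
    ∫⁻ ω, ⨆ i, (P i).indicator (fun _ => t i) ω ∂mu ≤ ∑' i, t i * mu (P i) := by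
  simp only [← lintegral_indicator_const (h _)]
  rw [← lintegral_tsum fun i => (measurable_const.indicator (h i)).aemeasurable]
  exact lintegral_mono fun ω => iSup_le fun i => ENNReal.le_tsum i

lemma reduce {A B : α → Prop} (hA : Sig 1 α A) (hB : Sig 1 α B) :
    ∃ A' B' : α → Prop, Sig 1 α A' ∧ Sig 1 α B' ∧ (∀ a, A' a → A a) ∧ (∀ a, B' a → B a) ∧
      (∀ a, A' a → ¬ B' a) ∧ ∀ a, A a ∨ B a → A' a ∨ B' a := by
  obtain ⟨A, a, rfl⟩ : ∃ C : α × ℕ → Prop, ComputablePred C ∧ A = fun a => ∃ x, C (a, x) := by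
    obtain ⟨C, c, e⟩ := hA
    exact ⟨C, (ComputablePred.not c).of_eq fun p => by simp, funext fun a => propext (e a)⟩
  obtain ⟨B, b, rfl⟩ : ∃ C : α × ℕ → Prop, ComputablePred C ∧ B = fun a => ∃ x, C (a, x) := by
    obtain ⟨C, c, e⟩ := hB
    exact ⟨C, (ComputablePred.not c).of_eq fun p => by simp, funext fun a => propext (e a)⟩
  have c : Computable fun q : (α × ℕ) × ℕ => (q.1.1, q.2) :=
    (Computable.fst.comp Computable.fst).pair Computable.snd
  have c1 : ComputablePred fun q : α × ℕ => A q ∧ ∀ v < q.2, ¬ B (q.1, v) :=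
    cand a (cball Computable.snd (cp b c).not)
  have c2 : ComputablePred fun q : α × ℕ => B q ∧ ∀ v < q.2 + 1, ¬ A (q.1, v) :=
    cand b (cball (Computable.succ.comp Computable.snd) (cp a c).not)
  refine ⟨fun x => ∃ w, A (x, w) ∧ ∀ v < w, ¬ B (x, v), fun x => ∃ w, B (x, w) ∧
    ∀ v < w + 1, ¬ A (x, v), Sig.ex (CeAlg.cs c1), Sig.ex (CeAlg.cs c2),
    fun x ⟨w, h, _⟩ => ⟨w, h⟩, fun x ⟨w, h, _⟩ => ⟨w, h⟩, fun x ⟨w, h, k⟩ ⟨v, h', k'⟩ => ?_,
    fun x h => ?_⟩
  · by_cases l : v < w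
    exacts [k v l h', k' w (by omega) h]
  · have h' : ∃ w, A (x, w) ∨ B (x, w) := exists_or.2 h
    have m := fun v => Nat.find_min h' (m := v)
    by_cases k : A (x, Nat.find h')
    · exact Or.inl ⟨_, k, fun v l u => m v l (Or.inr u)⟩
    · refine Or.inr ⟨_, (Nat.find_spec h').resolve_left k, fun v l u => ?_⟩
      rcases (Nat.lt_succ_iff.1 l).eq_or_lt with rfl | l
      exacts [k u, m v l (Or.inl u)]

end Pool.Agent.Lib.H8.Rnd
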