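import Pool.Agent.Lib.H8.Erg2
import Pool.Agent.Lib.H8.Rnd1

/-!
Two effective tests for the convergence of ergodic averages of lower semicomputable functions.
-/

namespace Pool.Agent.Lib.H8.Erg

open MeasureTheory ENNReal Classical Finset Arith CList Qm Rnd

/-- The left shift. -/
def sh (ω : ℕ → Bool) (n : ℕ) : Bool := ω (n + 1)

lemma sh_iter (i : ℕ) (ω : ℕ → Bool) : sh^[i] ω = fun n => ω (n + i) := by
  induction i generalizing ω with
  | zero => rfl
  | succ i ih => rw [Function.iterate_succ_apply, ih]; rfl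

/-- The array of approximations along the orbit. -/
def arr (c : List Bool → ℕ) (ω : ℕ → Bool) (s i : ℕ) : ℕ := c (pr (fun n => ω (n + i)) s)

/-- Sums with stages given by the distance to the right end. -/
def G (F : ℕ → ℕ → ℕ) (x n : ℕ) : ℕ := ∑ i ∈ range n, F (n - i) (x + i)

/-- A slow high together with an old pattern. -/
def Yc (F : ℕ → ℕ → ℕ) (a b : ℕ) (j q σ m k : ℕ) : Prop :=
  (3 ≤ q ∧ q ≤ σ ∧ 2 ^ q ≤ 4 * m ∧ 2 * m ≤ 2 ^ q ∧ 2 * k ≤ 2 ^ q) ∧
    m + S F q 0 m < S F σ 0 m ∧ S F σ 0 m ≤ 2 * b * m ∧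
    j ≤ (N (fun n => b * n < S F q 0 n) (fun n => S F σ 0 n < a * n) 1 k).1

/-- Many downcrossings of the diagonal sums. -/
def Zc (F : ℕ → ℕ → ℕ) (a b : ℕ) (j k : ℕ) : Prop :=
  j ≤ (N (fun n => b * n < G F 0 n) (fun n => G F 0 n < a * n) 1 k).1

section
variable {α : Type} [Primcodable α]

lemma N_c {H L : α → ℕ → Prop} {k : α → ℕ} (hH : ComputablePred fun q : α × ℕ => H q.1 q.2)
    (hL : ComputablePred fun q : α × ℕ => L q.1 q.2) (hk : Computable k) :
    Computable fun x => (N (H x) (L x) 1 (k x)).1 := by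
  have f := @Computable.fst
  have s := @Computable.snd
  have w : Computable fun q : α × ℕ × ℕ × ℕ => (q.1, k q.1 - q.2.1) :=
    f.pair (Primrec.nat_sub.to_comp.comp (hk.comp f) (f.comp s))
  have u : Computable fun q : α × ℕ × ℕ × ℕ => q.2.2.1 := f.comp (s.comp s)
  have v : Computable fun q : α × ℕ × ℕ × ℕ => q.2.2.2 := s.comp (s.comp s)
  have m := Primrec.nat_max.to_comp
  refine (f.comp (Computable.nat_rec (g := fun _ => ((0, 0) : ℕ × ℕ))
    (h := fun x (q : ℕ × ℕ × ℕ) => (if H x (k x - q.1) then max q.2.1 q.2.2 else q.2.1,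
      if L x (k x - q.1) then max q.2.2 (q.2.1 + 1) else q.2.2)) hk (Computable.const _)
    ((cite (cp hH w) (m.comp u v) u).pair
      (cite (cp hL w) (m.comp v (Computable.succ.comp u)) v)).to₂)).of_eq fun x => ?_
  have : ∀ i ≤ k x, (Nat.rec (0, 0) (fun y (p : ℕ × ℕ) =>
      (if H x (k x - y) then max p.1 p.2 else p.1,
        if L x (k x - y) then max p.2 (p.1 + 1) else p.2)) i : ℕ × ℕ) =
      N (H x) (L x) (k x + 1 - i) i := fun i hi => by
    induction i with
    | zero => rfl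
    | succ i ih =>
      rw [N, show k x + 1 - (i + 1) + 1 = k x + 1 - i by omega, ← ih (by omega),
        show k x + 1 - (i + 1) = k x - i by omega]
  simp only [this _ le_rfl, Nat.add_sub_cancel_left]

lemma sum_c {g : α → ℕ → ℕ} {n : α → ℕ} (hg : Computable₂ g) (hn : Computable n) :
    Computable fun x => ∑ i ∈ range (n x), g x i :=
  csum.to_comp.comp (cmap (Primrec.list_range.to_comp.comp hn) hg)

variable {c : List Bool → ℕ} (hc : Computable c)
include hc

lemma arr_c {τ : α → List Bool} {s i : α → ℕ} (hτ : Computable τ) (hs : Computable s)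
    (hi : Computable i) : Computable fun x => arr c (fun n => (τ x).getD n false) (s x) (i x) :=
  hc.comp (cmap (Primrec.list_range.to_comp.comp hs) ((Primrec.list_getD false).to_comp.comp
    (hτ.comp Computable.fst) (Primrec.nat_add.to_comp.comp Computable.snd
      (hi.comp Computable.fst))).to₂)

lemma S_c {τ : α → List Bool} {s n : α → ℕ} (hτ : Computable τ) (hs : Computable s)
    (hn : Computable n) :
    Computable fun x => S (arr c fun n => (τ x).getD n false) (s x) 0 (n x) :=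
  sum_c (arr_c hc (hτ.comp Computable.fst) (hs.comp Computable.fst)
    (Primrec.nat_add.to_comp.comp (Computable.const 0) Computable.snd)).to₂ hn

lemma G_c {τ : α → List Bool} {n : α → ℕ} (hτ : Computable τ) (hn : Computable n) :
    Computable fun x => G (arr c fun n => (τ x).getD n false) 0 (n x) :=
  sum_c (arr_c hc (hτ.comp Computable.fst)
    (Primrec.nat_sub.to_comp.comp (hn.comp Computable.fst) Computable.snd)
    (Primrec.nat_add.to_comp.comp (Computable.const 0) Computable.snd)).to₂ hn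

omit hc in
lemma eo_loc {Φ : α → (ℕ → ℕ → ℕ) → Prop} {M : α → ℕ} (hM : Computable M)
    (hΦ : ComputablePred fun q : α × List Bool => Φ q.1 (arr c fun n => q.2.getD n false))
    (loc : ∀ x F F', (∀ s i, s + i ≤ M x → F s i = F' s i) → Φ x F → Φ x F') :
    EO fun x => {ω | Φ x (arr c ω)} := by
  refine ⟨_, CeAlg.cs (cand (ceq (Computable.list_length.comp Computable.snd)
    (hM.comp Computable.fst)) hΦ), fun x ω => ?_⟩
  have e : ∀ s i, s + i ≤ M x → arr c ω s i = arr c (fun n => (pr ω (M x)).getD n false) s i :=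
    fun s i h => congrArg c (pr_eq.2 fun n hn => by simp [pr, show n + i < M x by omega])
  refine ⟨fun h => ⟨M x, by simp, loc _ _ _ e h⟩, fun ⟨s, u, v⟩ => ?_⟩
  obtain rfl : s = M x := by simpa using u
  exact loc _ _ _ (fun s i h => (e s i h).symm) v

lemma Yc_c (a b : ℕ) {τ : α → List Bool} {j q σ m l : α → ℕ} (hτ : Computable τ)
    (hj : Computable j) (hq : Computable q) (hσ : Computable σ) (hm : Computable m)
    (hl : Computable l) : ComputablePred fun x =>
      Yc (arr c fun n => (τ x).getD n false) a b (j x) (q x) (σ x) (m x) (l x) := by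
  have f := @Computable.fst
  have s := @Computable.snd
  have mu := Primrec.nat_mul.to_comp
  have k := @Computable.const
  have p := pow_c.comp hq
  have h3 := N_c (H := fun x n => b * n < S (arr c fun n => (τ x).getD n false) (q x) 0 n)
    (L := fun x n => S (arr c fun n => (τ x).getD n false) (σ x) 0 n < a * n)
    (clt (mu.comp (k b) s) (S_c hc (hτ.comp f) (hq.comp f) s))
    (clt (S_c hc (hτ.comp f) (hσ.comp f) s) (mu.comp (k a) s)) hl
  exact cand (cand (cle (k 3) hq) (cand (cle hq hσ) (cand (cle p (mu.comp (k 4) hm))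
    (cand (cle (mu.comp (k 2) hm) p) (cle (mu.comp (k 2) hl) p)))))
    (cand (clt (Primrec.nat_add.to_comp.comp hm (S_c hc hτ hq hm)) (S_c hc hτ hσ hm))
      (cand (cle (S_c hc hτ hσ hm) (mu.comp (k (2 * b)) hm)) (cle hj h3)))

lemma Y_eo (a b : ℕ) : EO fun x : (ℕ × ℕ × ℕ) × ℕ × ℕ =>
    {ω | Yc (arr c ω) a b x.1.1 x.1.2.1 x.1.2.2 x.2.1 x.2.2} := by
  have f := @Computable.fst
  have s := @Computable.snd
  have ad := Primrec.nat_add.to_comp
  have h1 : Computable fun x : (ℕ × ℕ × ℕ) × ℕ × ℕ => x.1.2.2 + (x.2.1 + x.2.2) :=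
    ad.comp (s.comp (s.comp f)) (ad.comp (f.comp s) (s.comp s))
  have h2 : ComputablePred fun x : ((ℕ × ℕ × ℕ) × ℕ × ℕ) × List Bool =>
      Yc (arr c fun n => x.2.getD n false) a b x.1.1.1 x.1.1.2.1 x.1.1.2.2 x.1.2.1 x.1.2.2 :=
    Yc_c hc a b s (f.comp (f.comp f)) (f.comp (s.comp (f.comp f))) (s.comp (s.comp (f.comp f)))
      (f.comp (s.comp f)) (s.comp (s.comp f))
  refine eo_loc (Φ := fun (x : (ℕ × ℕ × ℕ) × ℕ × ℕ) F =>
    Yc F a b x.1.1 x.1.2.1 x.1.2.2 x.2.1 x.2.2) h1 h2 ?_
  rintro ⟨⟨j, q, σ⟩, m, k⟩ F F' h ⟨u, v, w, z⟩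
  have e : ∀ s ≤ σ, ∀ n ≤ m + k, S F s 0 n = S F' s 0 n := fun s hs n hn =>
    sum_congr rfl fun i hi => h _ _ (by have := mem_range.1 hi; simp only; omega)
  have hq : q ≤ σ := u.2.1
  simp only at v w z
  rw [e σ le_rfl m (by omega)] at v w
  rw [e q hq m (by omega)] at v
  refine ⟨u, v, w, z.trans (N_mono le_rfl (fun n hn h => ?_) fun n hn h => ?_).1⟩
  · rwa [← e q hq _ (by omega)]
  · rwa [← e σ le_rfl _ (by omega)]

lemma Z_eo (a b : ℕ) : EO fun x : ℕ × ℕ => {ω | Zc (arr c ω) a b x.1 x.2} := by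
  have f := @Computable.fst
  have s := @Computable.snd
  have mu := Primrec.nat_mul.to_comp
  have g : Computable fun x : ((ℕ × ℕ) × List Bool) × ℕ =>
    G (arr c fun n => x.1.2.getD n false) 0 x.2 := G_c hc (s.comp f) s
  refine eo_loc (Φ := fun x F => Zc F a b x.1 x.2) s (cle (f.comp f) (N_c
    (clt (mu.comp (Computable.const b) s) g) (clt g (mu.comp (Computable.const a) s))
    (s.comp f))) ?_
  rintro ⟨j, k⟩ F F' h z
  have e : ∀ n ≤ k, G F 0 n = G F' 0 n := fun n hn =>
    sum_congr rfl fun i hi => h _ _ (by have := mem_range.1 hi; simp only; omega)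
  refine z.trans (N_mono le_rfl (fun n hn h => ?_) fun n hn h => ?_).1
  · rwa [← e _ (by simp only at hn; omega)]
  · rwa [← e _ (by simp only at hn; omega)]

end

variable {P : Measure (ℕ → Bool)} [IsProbabilityMeasure P] (hP : MeasurePreserving sh P P)
include hP

lemma transfer {B : ℕ → Set (ℕ → Bool)} (hB : ∀ x, MeasurableSet (B x)) {j L c : ℕ}
    (h : ∀ ω : ℕ → Bool, j * #((range L).filter fun x => (fun n => ω (n + x)) ∈ B x) ≤ c) :
    j * ∑ x ∈ range L, P (B x) ≤ c := by
  have m : ∀ x, MeasurableSet (sh^[x] ⁻¹' B x) := fun x => (hP.iterate x).measurable (hB x)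
  calc j * ∑ x ∈ range L, P (B x)
      = ∫⁻ ω, j * ∑ x ∈ range L, (sh^[x] ⁻¹' B x).indicator 1 ω ∂P := by
        rw [lintegral_const_mul _ (measurable_sum _ fun x _ => measurable_one.indicator (m x)),
          lintegral_finsetSum _ fun x _ => measurable_one.indicator (m x)]
        simp only [lintegral_indicator_one (m _),
          (hP.iterate _).measure_preimage (hB _).nullMeasurableSet]
    _ ≤ ∫⁻ _, c ∂P := lintegral_mono fun ω => by
        simp only [Set.indicator_apply, Set.mem_preimage, sh_iter, Pi.one_apply, sum_boole]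
        exact_mod_cast h ω
    _ = c := by simp

variable {c : List Bool → ℕ} (hc : Computable c)
  (hm : ∀ ω, Monotone fun s => c (pr ω s)) {a b : ℕ} (hab : a < b)
include hc hm hab

theorem Z_le (j : ℕ) : j * P (⋃ k, {ω | Zc (arr c ω) a b j k}) ≤ (2 * b : ℕ) := by
  rw [Monotone.measure_iUnion (s := fun k => {ω | Zc (arr c ω) a b j k}) fun k l h ω z =>
    le_trans z (N_mono h (fun _ _ h => h) fun _ _ h => h).1, ENNReal.mul_iSup]
  refine iSup_le fun k => ?_
  have := transfer hP (B := fun _ => {ω | Zc (arr c ω) a b j k})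
    (fun _ => (Z_eo hc a b).meas (j, k)) (j := j) (L := k + 1) (c := 2 * b * (k + 1)) fun ω => by
      have h := bishop (G (arr c ω)) a b hab.le (fun x => by simp [G]) (fun x n => by
        have e : ∀ n, G (arr c ω) x (n + 1) = G (arr c ω) (x + 1) n + arr c ω (n + 1) x :=
          fun n => by simp [G, sum_range_succ', add_assoc, add_comm 1]
        have : arr c ω (n + 1) x ≤ arr c ω (n + 1 + 1) x := hm _ (by omega)
        rw [e n, e (n + 1)]
        omega) 0 (k + 1 + (k + 1))
      refine le_trans ?_ (((Nat.le_mul_of_pos_left _ (by omega)).trans h).trans (by nlinarith))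
      rw [mul_comm, ← smul_eq_mul]
      refine (card_nsmul_le_sum _ _ _ fun x hx => ?_).trans (sum_le_sum_of_subset
        ((filter_subset _ _).trans (range_subset_range.2 (by omega))))
      obtain ⟨u, v⟩ := mem_filter.1 hx
      have e : ∀ n, G (arr c fun n => ω (n + x)) 0 n = G (arr c ω) (0 + x) n := fun n => by
        simp [G, arr, add_assoc, add_comm x]
      have := mem_range.1 u
      exact le_trans v (N_mono (by omega) (fun _ _ h => by rwa [← e]) fun _ _ h => by rwa [← e]).1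
  rw [sum_const, card_range, nsmul_eq_mul, mul_left_comm, Nat.cast_mul, mul_comm] at this
  exact (ENNReal.mul_le_mul_iff_left (by simp) (by simp)).1 this

omit hP hc hm hab in
lemma good_card {q R : ℕ} (h : q + 1 ≤ R) :
    2 * #((range (2 ^ R)).filter fun x => 2 * (x % 2 ^ (q + 1)) < 2 ^ (q + 1)) = 2 ^ R := by
  induction R, h using Nat.le_induction with
  | base =>
    have : ((range (2 ^ (q + 1))).filter fun x => 2 * (x % 2 ^ (q + 1)) < 2 ^ (q + 1)) =
        range (2 ^ q) := by
      ext x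
      simp only [mem_filter, mem_range]
      refine ⟨fun ⟨u, v⟩ => ?_, fun u => ?_⟩
      · rw [Nat.mod_eq_of_lt u, pow_succ] at v; omega
      · have : x < 2 ^ (q + 1) := by rw [pow_succ]; omega
        exact ⟨this, by rw [Nat.mod_eq_of_lt this, pow_succ]; omega⟩
    rw [this, card_range, pow_succ']
  | succ R h ih =>
    obtain ⟨d, rfl⟩ := Nat.exists_eq_add_of_le h
    rw [card_filter] at ih ⊢
    rw [pow_succ 2 (q + 1 + d), mul_two (2 ^ (q + 1 + d)), sum_range_add, mul_add, ih]
    simp only [pow_add 2 (q + 1) d, Nat.mul_add_mod] at ih ⊢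
    rw [ih]

theorem Y_le (j : ℕ) : j * P (⋃ x : ℕ × ℕ, ⋃ y : ℕ × ℕ, {ω | Yc (arr c ω) a b j x.1 x.2 y.1 y.2}) ≤
    (2 * (b * (24 + 64 * b)) : ℕ) := by
  let A : ℕ → ℕ → Set (ℕ → Bool) := fun R q =>
    ⋃ σ ∈ range R, ⋃ y : ℕ × ℕ, {ω | Yc (arr c ω) a b j (q + 1) σ y.1 y.2}
  have mA : ∀ R q, MeasurableSet (A R q) := fun R q =>
    .biUnion (countable_toSet _) fun σ _ => .iUnion fun y => (Y_eo hc a b).meas ((j, q + 1, σ), y)
  have e : (⋃ x : ℕ × ℕ, ⋃ y : ℕ × ℕ, {ω | Yc (arr c ω) a b j x.1 x.2 y.1 y.2}) =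
      ⋃ R, ⋃ q ∈ range R, A R q := by
    ext ω
    simp only [A, Set.mem_iUnion, mem_range, Set.mem_ofPred_eq]
    refine ⟨fun ⟨⟨q, σ⟩, y, h⟩ => ?_, fun ⟨_, q, _, σ, _, y, h⟩ => ⟨(q + 1, σ), y, h⟩⟩
    obtain ⟨q, rfl⟩ : ∃ r, q = r + 1 := ⟨q - 1, by have := h.1.1; simp only at this; omega⟩
    exact ⟨q + σ + 1, q, by omega, σ, by omega, y, h⟩
  rw [e, Monotone.measure_iUnion (s := fun R => ⋃ q ∈ range R, A R q) fun R R' h ω z => by
    simp only [A, Set.mem_iUnion, mem_range] at z ⊢
    obtain ⟨q, u, σ, v, w⟩ := z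
    exact ⟨q, by omega, σ, by omega, w⟩, ENNReal.mul_iSup]
  refine iSup_le fun R => ?_
  have md := MeasurableSet.disjointed (mA R)
  have := transfer hP (B := fun x => ⋃ q ∈ (range R).filter fun q =>
      2 * (x % 2 ^ (q + 1)) < 2 ^ (q + 1), disjointed (A R) q)
    (fun _ => .biUnion (countable_toSet _) fun q _ => md q) (j := j) (L := 2 ^ R)
    (c := b * (24 + 64 * b) * 2 ^ R) fun ω => by
      refine le_trans (Nat.mul_le_mul_left _ (card_le_card fun x hx => ?_))
        (claim2 (F := arr c ω) (fun i => hm _) hab R R 0)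
      obtain ⟨u, v⟩ := mem_filter.1 hx
      simp only [Set.mem_iUnion, mem_filter, mem_range] at u v
      obtain ⟨q, ⟨q1, q2⟩, v⟩ := v
      have v := disjointed_subset _ _ v
      simp only [A, Set.mem_iUnion, mem_range, Set.mem_ofPred_eq] at v
      obtain ⟨σ, σ1, ⟨m, k⟩, ⟨h1, h2, h3, h4, h5⟩, h6, h7, h8⟩ := v
      have e : ∀ s n, S (arr c fun n => ω (n + x)) s 0 n = S (arr c ω) s x n := fun s n => by
        simp [S, arr, add_assoc, add_comm x]
      simp only [e] at h3 h4 h5 h6 h7 h8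
      have := Nat.div_add_mod' x (2 ^ (q + 1))
      have := Bad_of (F := arr c ω) (a := a) (b := b) (j := j) (p := 0) (by omega : q + 1 ≤ R) u σ1
        h2 ⟨h1, x, m, by omega, by omega, h3, h6, h7⟩ ⟨k, by omega, by simpa using h8⟩
      simpa using this
  have h2 : (2 ^ R : ℕ) * P (⋃ q ∈ range R, A R q) ≤ 2 * ∑ x ∈ range (2 ^ R),
      P (⋃ q ∈ (range R).filter fun q => 2 * (x % 2 ^ (q + 1)) < 2 ^ (q + 1),
        disjointed (A R) q) := by
    have d : ∀ s : Finset ℕ, P (⋃ q ∈ s, disjointed (A R) q) = ∑ q ∈ s, P (disjointed (A R) q) :=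
      fun s => measure_biUnion_finset (fun _ _ _ _ h => disjoint_disjointed _ h) fun q _ => md q
    have h3 : ⋃ q ∈ range R, A R q ⊆ ⋃ q ∈ range R, disjointed (A R) q := fun ω z => by
      simp only [Set.mem_iUnion, mem_range] at z ⊢
      obtain ⟨q, u, v⟩ := z
      have w : ∃ q, ω ∈ A R q := ⟨q, v⟩
      exact ⟨Nat.find w, (Nat.find_min' w v).trans_lt u, by
        rw [disjointed_eq_inter_compl]
        exact ⟨Nat.find_spec w, by simpa using fun i hi => Nat.find_min w hi⟩⟩
    refine (mul_le_mul_right (measure_mono h3) _).trans (le_of_eq ?_)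
    simp only [d, sum_filter]
    rw [sum_comm, mul_sum, mul_sum]
    refine sum_congr rfl fun q hq => ?_
    rw [← sum_filter, sum_const, nsmul_eq_mul, ← mul_assoc]
    congr 1
    exact_mod_cast (good_card (q := q) (mem_range.1 hq)).symm
  have h4 := (mul_le_mul_right h2 j).trans ((mul_left_comm _ _ _).le.trans
    (mul_le_mul_right this 2))
  rw [mul_left_comm, mul_comm, Nat.cast_mul, ← mul_assoc] at h4
  exact_mod_cast (ENNReal.mul_le_mul_iff_left (by simp) (by simp)).1 h4

end Pool.Agent.Lib.H8.Erg
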