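import Pool.Agent.Lib.H8.Shc1

/-!
A computable copy of the algebra of finite and cofinite sets with undecidable finiteness.
-/

namespace Pool.Agent.Lib.H8.Fcf

open Arith CList Wei Qm Kc Gen Low Filter Finset Classical

variable (a : ℕ → ℕ)

/-- Stage `s` looks true at stage `t`. -/
def G (s t : ℕ) : Prop := s ≤ t ∧ ∀ r < t + 1, s < r → a s ≤ a r

/-- Sums of the basic sets. -/
noncomputable def f (n x : ℕ) : ZMod 2 := ∑ s ∈ range n, if n.testBit s ∧ G a s x then 1 else 0

/-- Eventually constant sets. -/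
def FC : BooleanSubalgebra (Set ℕ) where
  carrier := {X | (∀ᶠ x in atTop, x ∈ X) ∨ ∀ᶠ x in atTop, x ∉ X}
  supClosed' := by
    rintro X (h | h) Y (k | k)
    exacts [.inl (h.mono fun _ => .inl), .inl (h.mono fun _ => .inl), .inl (k.mono fun _ => .inr),
      .inr ((h.and k).mono fun _ e => not_or.2 e)]
  infClosed' := by
    rintro X (h | h) Y (k | k)
    exacts [.inl (h.and k), .inr (k.mono fun _ e f => e f.2), .inr (h.mono fun _ e f => e f.1),
      .inr (h.mono fun _ e f => e f.1)]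
  compl_mem' h := h.symm.imp id fun k => k.mono fun _ e f => f e
  bot_mem' := .inr (by simp)

variable {a}

lemma f_eq {n M : ℕ} (h : n ≤ M) (x : ℕ) :
    f a n x = ∑ s ∈ range M, if n.testBit s ∧ G a s x then 1 else 0 :=
  sum_subset (range_subset_range.2 h) fun s _ k => by
    rw [Nat.testBit_lt_two_pow ((not_lt.1 (mt mem_range.2 k)).trans_lt s.lt_two_pow_self)]; simp

lemma f_xor (n m : ℕ) : f a (n ^^^ m) = f a n + f a m := by
  funext x
  rw [Pi.add_apply, f_eq (M := n + m + (n ^^^ m)) (by omega), f_eq (M := n + m + (n ^^^ m))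
    (by omega), f_eq (M := n + m + (n ^^^ m)) (by omega), ← sum_add_distrib]
  refine sum_congr rfl fun s _ => ?_
  rw [Nat.testBit_xor]
  by_cases G a s x <;> cases n.testBit s <;> cases m.testBit s <;> simp [*]
  rfl

lemma f_pow (s x : ℕ) : f a (2 ^ s) x = if G a s x then 1 else 0 := by
  rw [f, sum_eq_single_of_mem s (mem_range.2 s.lt_two_pow_self) fun t _ e => by
    simp [e.symm]]
  simp

lemma f_inj : Function.Injective (f a) := fun n m h => by
  by_contra e
  obtain ⟨i, hi⟩ := Nat.exists_testBit_of_ne_zero (mt Nat.xor_eq_zero_iff.1 e)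
  have ex : ∃ i, (n ^^^ m).testBit i = true := ⟨i, hi⟩
  have := congrFun (f_xor (a := a) n m) (Nat.find ex)
  rw [h, Pi.add_apply, CharTwo.add_self_eq_zero, f_eq (M := (n ^^^ m) + Nat.find ex + 1) (by omega),
    sum_eq_single_of_mem (Nat.find ex) (mem_range.2 (by omega)) fun t _ e => if_neg fun k =>
      Nat.find_min ex (k.2.1.lt_of_ne e) k.1,
    if_pos ⟨Nat.find_spec ex, le_rfl, fun _ _ _ => by omega⟩] at this
  exact one_ne_zero this

lemma f_sur {h : ℕ → ZMod 2} {N : ℕ} (k : ∀ x ≥ N, h x = h N) : ∃ n, f a n = h := by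
  have ad {u v} : (∃ n, f a n = u) → (∃ n, f a n = v) → ∃ n, f a n = u + v := by
    rintro ⟨n, rfl⟩ ⟨m, rfl⟩; exact ⟨_, f_xor n m⟩
  have I (s) : ∃ n, f a n = fun x => if s ≤ x then 1 else 0 := by
    generalize e : a s = v
    induction v using Nat.strong_induction_on generalizing s with
    | _ v i =>
      by_cases q : ∃ r, s < r ∧ a r < a s
      · have p := Nat.find_spec q
        convert ad ⟨2 ^ s, rfl⟩ (i _ (e ▸ p.2) (Nat.find q) rfl) using 3 with n
        funext x
        rw [Pi.add_apply, f_pow]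
        by_cases l : Nat.find q ≤ x
        · rw [if_pos l, if_pos (by omega), if_neg fun k : G a s x =>
            (k.2 _ (by omega) p.1).not_gt p.2, zero_add]
        · rw [if_neg l, add_zero]
          exact if_congr ⟨fun o => ⟨o, fun r _ _ => not_lt.1 fun z =>
            Nat.find_min q (by omega) ⟨‹_›, z⟩⟩, fun o => o.1⟩ rfl rfl
      · exact ⟨_, funext fun x => (f_pow s x).trans (if_congr ⟨fun o => o.1,
          fun o => ⟨o, fun r _ _ => not_lt.1 fun z => q ⟨r, ‹_›, z⟩⟩⟩ rfl rfl)⟩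
  have two (z : ZMod 2) : z = 0 ∨ z = 1 := by revert z; decide
  induction N generalizing h with
  | zero =>
    rcases two (h 0) with e | e
    · exact ⟨0, funext fun x => by simp [f, k x x.zero_le, e]⟩
    · exact (I 0).imp fun n p => p.trans (funext fun x => by simp [k x x.zero_le, e])
  | succ N i =>
    by_cases e : h N = h (N + 1)
    · exact i fun x l => l.eq_or_lt.elim (fun o => o ▸ rfl) fun o => (k x o).trans e.symm
    · convert ad (i (h := fun x => if x = N then h (N + 1) else h x) fun x l => by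
        split_ifs <;> first | rfl | contradiction | exact k x (by omega))
        (ad (I N) (I (N + 1))) using 3 with n
      funext x
      simp only [Pi.add_apply]
      rcases lt_trichotomy x N with l | rfl | l
      · simp [l.ne, l.not_ge, (l.trans N.lt_succ_self).not_ge]
      · rcases two (h x) with p | p <;> rcases two (h (x + 1)) with q | q <;> simp_all
        rfl
      · simp [l.ne', l.le, Nat.succ_le_of_lt l, CharTwo.add_self_eq_zero]

lemma f_ev (n : ℕ) : ∃ N, ∀ x ≥ N, f a n x = f a n N := by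
  have (s : ℕ) : ∃ p : Prop, ∀ᶠ x in atTop, G a s x ↔ p := by
    by_cases q : ∃ r, s < r ∧ a r < a s
    · obtain ⟨r, p, q⟩ := q
      exact ⟨False, (eventually_ge_atTop r).mono fun x l =>
        iff_false_intro fun k => (k.2 r (by omega) p).not_gt q⟩
    · exact ⟨True, (eventually_ge_atTop s).mono fun x l =>
        iff_true_intro ⟨l, fun r _ _ => not_lt.1 fun z => q ⟨r, ‹_›, z⟩⟩⟩
  choose p q using this
  obtain ⟨N, k⟩ := eventually_atTop.1 ((eventually_all_finset (range n)).2 fun s _ => q s)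
  exact ⟨N, fun x l => sum_congr rfl fun s e => by simp only [k x l s e, k N le_rfl s e]⟩

lemma rep (h : a 0 = 0) (N x : ℕ) : ∃ y < N + 1, ∀ n ≤ N, f a n x = f a n y := by
  have p : G a (Nat.findGreatest (G a · x) N) x :=
    Nat.findGreatest_spec (P := (G a · x)) N.zero_le ⟨x.zero_le, fun _ _ _ => by omega⟩
  refine ⟨_, Nat.lt_succ_of_le (Nat.findGreatest_le (P := (G a · x)) N), fun n l =>
    sum_congr rfl fun s e => if_congr (and_congr_right fun _ => ⟨fun k => ⟨Nat.le_findGreatest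
      (by have := mem_range.1 e; omega) k, fun r u => k.2 r (by have := p.1; omega)⟩, fun k =>
        ⟨k.1.trans p.1, fun r u v => ?_⟩⟩) rfl rfl⟩
  rcases le_or_gt r (Nat.findGreatest (G a · x) N) with o | o
  · exact k.2 r (by omega) v
  · exact le_trans (k.1.eq_or_lt.elim (fun z => (congrArg a z).le) (k.2 _ (by omega))) (p.2 r u o)

lemma mem_FC {X : Set ℕ} : X ∈ FC ↔ ∃ n, X = {x | f a n x = 1} := by
  constructor
  · intro h
    obtain ⟨N, k⟩ : ∃ N, ∀ x ≥ N, (x ∈ X ↔ N ∈ X) := by
      rcases h with h | h <;> obtain ⟨N, k⟩ := eventually_atTop.1 h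
      exacts [⟨N, fun x l => iff_of_true (k x l) (k N le_rfl)⟩,
        ⟨N, fun x l => iff_of_false (k x l) (k N le_rfl)⟩]
    obtain ⟨n, e⟩ := f_sur (a := a) (h := fun x => if x ∈ X then 1 else 0) (N := N) fun x l => by
      simp only [k x l]
    exact ⟨n, Set.ext fun x => by simp [e]⟩
  · rintro ⟨n, rfl⟩
    obtain ⟨N, k⟩ := f_ev (a := a) n
    exact (Classical.em (f a n N = 1)).imp (fun e => eventually_atTop.2 ⟨N, fun x l => (k x l).trans e⟩)
      fun e => eventually_atTop.2 ⟨N, fun x l z => e ((k x l).symm.trans z)⟩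

lemma range_FC : Set.range (Subtype.val : FC → Set ℕ) = {X : Set ℕ | ∃ S : Finset ℕ, ∃ b : Bool,
    X = {x | Xor' (b = true) (Odd (S.filter (fun s => s ≤ x)).card)}} := by
  rw [Subtype.range_coe]
  refine Set.ext fun X => ⟨fun h => ?_, ?_⟩
  · obtain ⟨n, rfl⟩ := (mem_FC (a := fun _ => 0)).1 h
    refine ⟨(range n).filter fun s => n.testBit s, false, Set.ext fun x => ?_⟩
    simp [f, G, filter_filter, ZMod.natCast_eq_one_iff_odd, Xor', Xor]
  · rintro ⟨S, b, rfl⟩
    have : ∀ᶠ x in atTop, S.filter (· ≤ x) = S := (eventually_ge_atTop (S.sup id)).mono fun x l =>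
      filter_true_of_mem fun s e => (le_sup (f := id) e).trans l
    exact (Classical.em (Xor' (b = true) (Odd #S))).imp (fun e => this.mono fun x l => by simpa [l] using e)
      fun e => this.mono fun x l => by simpa only [Set.mem_ofPred_eq, l] using e

/-- The numbering of the algebra. -/
noncomputable def num (a : ℕ → ℕ) : ℕ ≃ FC := .ofBijective
  (fun n => ⟨{x | f a n x = 1}, mem_FC.2 ⟨n, rfl⟩⟩) ⟨fun n m h => f_inj (funext fun x => by
    have := Set.ext_iff.1 (congrArg Subtype.val h) x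
    simp only [Set.mem_ofPred_eq] at this
    revert this
    generalize f a n x = u, f a m x = v
    revert u v; decide), fun X => (mem_FC.1 X.2).imp fun _ e => Subtype.ext e.symm⟩

lemma mem_c (h : Computable a) : ComputablePred fun q : ℕ × ℕ => q.2 ∈ (num a q.1).1 := by
  have u := @Computable.fst
  have v := @Computable.snd
  have p : ComputablePred fun z : ((ℕ × ℕ) × ℕ) × ℕ => z.1.2 < z.2 → a z.1.2 ≤ a z.2 :=
    cimp (clt (v.comp u) v) (cle (h.comp (v.comp u)) (h.comp v))
  have p : ComputablePred fun z : (ℕ × ℕ) × ℕ => z.1.1.testBit z.2 ∧ G a z.2 z.1.2 :=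
    cand (cp (p := fun q : ℕ × ℕ => q.1.testBit q.2 = true) Orc.testBit_prim.computablePred
      ((u.comp u).pair v)) (cand (cle v (v.comp u)) (cball (Computable.succ.comp (v.comp u)) p))
  refine (ceq (md (Shc.csumr u (cite p (Computable.const 1) (Computable.const 0)).to₂) 2)
    (Computable.const 1)).of_eq fun q => ?_
  rw [← Nat.odd_iff, ← ZMod.natCast_eq_one_iff_odd]
  simp only [Nat.cast_sum, Nat.cast_ite, Nat.cast_one, Nat.cast_zero]
  rfl

lemma op_c (h : Computable a) (h0 : a 0 = 0) {R : Prop → Prop → Prop}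
    (hR : ∀ {p q : ((ℕ × ℕ) × ℕ) × ℕ → Prop}, ComputablePred p → ComputablePred q →
      ComputablePred fun z => R (p z) (q z)) {F : FC → FC → FC}
    (hF : ∀ X Y x, x ∈ (F X Y).1 ↔ R (x ∈ X.1) (x ∈ Y.1)) :
    Computable₂ fun m n => (num a).symm (F (num a m) (num a n)) := by
  have u := @Computable.fst
  have v := @Computable.snd
  have p := hR (cp (mem_c h) ((u.comp (u.comp u)).pair v)) (cp (mem_c h) ((v.comp (u.comp u)).pair v))
  have q : ComputablePred fun z : ((ℕ × ℕ) × ℕ) × ℕ => z.2 ∈ (num a z.1.2).1 :=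
    cp (mem_c h) ((v.comp u).pair v)
  obtain ⟨g, g1, g2⟩ := csel (P := fun (z : ℕ × ℕ) k => ∀ x < z.1 + z.2 + k + 1,
      (x ∈ (num a k).1 → R (x ∈ (num a z.1).1) (x ∈ (num a z.2).1)) ∧
      (R (x ∈ (num a z.1).1) (x ∈ (num a z.2).1) → x ∈ (num a k).1))
    (cball (Computable.succ.comp (ad (ad (u.comp u) (v.comp u)) v)) (cand (cimp q p) (cimp p q)))
    fun z => ⟨(num a).symm (F (num a z.1) (num a z.2)), fun x _ => by simp [hF]⟩
  refine g1.of_eq fun z => (num a).eq_symm_apply.2 (Subtype.ext (Set.ext fun x => ?_))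
  obtain ⟨y, l, e⟩ := rep h0 (z.1 + z.2 + g z) x
  have k (n) (o : n ≤ z.1 + z.2 + g z) : (x ∈ (num a n).1) = (y ∈ (num a n).1) :=
    congrArg (· = 1) (e n o)
  rw [hF, k _ (by omega), k z.1 (by omega), k z.2 (by omega)]
  exact ⟨(g2 z y l).1, (g2 z y l).2⟩

lemma hard : ∃ a : ℕ → ℕ, Computable a ∧ a 0 = 0 ∧
    ¬ ComputablePred fun s => ∀ r, s < r → a s ≤ a r := by
  have u := @Computable.fst
  have v := @Computable.snd
  obtain ⟨A, a1, a2⟩ := CeAlg.diag 0
  obtain ⟨B, hB, eB⟩ := sig_nf a1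
  have p : ComputablePred fun z : ℕ × ℕ => ¬ B (z.1.unpair.1, z.2) :=
    (cp hB ((u1.comp u).pair v)).not
  obtain ⟨a, c, e⟩ : ∃ a : ℕ → ℕ, Computable a ∧ ∀ s, a s = if B (s.unpair.1, s.unpair.2) ∧
      ∀ t < s.unpair.2, ¬ B (s.unpair.1, t) then s.unpair.1 else s :=
    ⟨_, cite (cand (cp hB (u1.pair u2)) (cball u2 p)) u1 Computable.id, fun _ => rfl⟩
  refine ⟨a, c, by simp [e], fun h => a2 ?_⟩
  have q : ComputablePred fun z : (ℕ × ℕ) × ℕ => ¬ B (z.1.1, z.2) := (cp hB ((u.comp u).pair v)).not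
  refine (CeAlg.cs (n := 1) (cand (cp h v) (cand (clt u (c.comp v))
    (cball (p := fun (z : ℕ × ℕ) t => ¬ B (z.1, t)) (Computable.succ.comp v) q)))).ex.of_eq
      fun n => ⟨fun ⟨s, s1, s2, s3⟩ k => ?_, fun k => ?_⟩
  · have k := (eB n).1 k
    have := e (Nat.pair n (Nat.find k))
    rw [Nat.unpair_pair, if_pos ⟨Nat.find_spec k, fun t => Nat.find_min k⟩] at this
    have := mt (s1 (Nat.pair n (Nat.find k))) (by simp only at *; omega)
    have := Nat.right_le_pair n (Nat.find k)
    exact s3 _ (by simp only at *; omega) (Nat.find_spec k)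
  · have w (m) : ∀ᶠ r in atTop, a r ≠ m := by
      by_cases k : ∃ t, B (m, t)
      · refine (eventually_gt_atTop (m + Nat.pair m (Nat.find k))).mono fun r l z => ?_
        rw [e] at z
        split_ifs at z with o
        · have : r.unpair.2 = Nat.find k := ((Nat.find_eq_iff k).2 (z ▸ o)).symm
          have := r.pair_unpair
          simp_all
        · omega
      · refine (eventually_gt_atTop m).mono fun r l z => ?_
        rw [e] at z
        split_ifs at z with o
        exacts [k ⟨_, z ▸ o.1⟩, by omega]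
    obtain ⟨N, w⟩ := eventually_atTop.1
      ((eventually_all_finite (Set.finite_le_nat n)).2 fun m _ => w m)
    obtain ⟨s, s1, s2⟩ := (measure a).wf.has_min {r | N ≤ r} ⟨N, le_refl N⟩
    exact ⟨s, fun r l => not_lt.1 (s2 r (s1.trans l.le)), not_le.1 fun l => w s s1 _ l rfl,
      fun t _ b => k ((eB n).2 ⟨t, b⟩)⟩

lemma fin_pres {ψ : FC → Set ℕ} (i : Function.Injective ψ) (h : ∀ X Y, ψ (X ⊔ Y) = ψ X ∪ ψ Y)
    (r : Set.range ψ = Set.range (Subtype.val : FC → Set ℕ)) {X : FC}
    (k : ∀ᶠ x in atTop, x ∉ X.1) : ∀ᶠ x in atTop, x ∉ ψ X := by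
  rw [← Nat.cofinite_eq_atTop, eventually_cofinite] at *
  simp only [not_not, Set.ofPred_mem_eq] at *
  have (x : ℕ) : ∃ Y, ψ Y = {x} := (Set.ext_iff.1 r _).2
    ⟨⟨{x}, .inr ((eventually_gt_atTop x).mono fun _ e => e.ne')⟩, rfl⟩
  choose Y e using this
  refine Set.Finite.of_injOn (f := fun x => (Y x).1) (fun x p => ?_) (fun x _ y _ p => ?_)
    k.finite_subsets
  · exact (sup_eq_right.1 (i (by rw [h, e, Set.union_eq_right.2 (Set.singleton_subset_iff.2 p)])) :
      Y x ≤ X)
  · exact Set.singleton_injective (by rw [← e, ← e, Subtype.ext p])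

end Pool.Agent.Lib.H8.Fcf
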