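import Mathlib

/-!
Sign patterns of iterates of `x ^ 2 - 2` at transcendental reals; towers of square roots.
-/

namespace Pool.Agent.Lib.H8.FR

open Polynomial

def f (x : ℝ) : ℝ := x ^ 2 - 2

def sg (b : Bool) : ℝ := if b then 1 else -1

theorem signs_fin (N : ℕ) : ∀ e : ℕ → Bool, ∃ r ∈ Set.Icc (-2 : ℝ) 2,
    ∀ n < N, 0 ≤ sg (e n) * f^[n] r := by
  induction N with
  | zero => exact fun _ => ⟨0, by norm_num, by simp⟩
  | succ N ih =>
    intro e
    obtain ⟨r, ⟨h1, h2⟩, h3⟩ := ih fun n => e (n + 1)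
    have k1 : 0 ≤ √(2 + r) := Real.sqrt_nonneg _
    have k2 : √(2 + r) ^ 2 = 2 + r := Real.sq_sqrt (by linarith)
    have k3 : √(2 + r) ≤ 2 := by nlinarith
    have k4 : sg (e 0) ^ 2 = 1 := by unfold sg; split_ifs <;> norm_num
    refine ⟨sg (e 0) * √(2 + r), ?_, fun n hn => ?_⟩
    · unfold sg; split_ifs <;> constructor <;> linarith
    · cases n with
      | zero =>
        simp only [Function.iterate_zero, id]
        rw [← mul_assoc, ← sq, k4]
        linarith
      | succ n =>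
        have : f (sg (e 0) * √(2 + r)) = r := by rw [f, mul_pow, k2, k4]; ring
        rw [Function.iterate_succ_apply, this]
        exact h3 n (by omega)

theorem signs (e : ℕ → Bool) : ∃ r, ∀ n, 0 ≤ sg (e n) * f^[n] r := by
  have hc : Continuous f := by unfold f; fun_prop
  let C : ℕ → Set ℝ := fun N => Set.Icc (-2) 2 ∩ ⋂ n < N, {r | 0 ≤ sg (e n) * f^[n] r}
  have cl : ∀ N, IsClosed (C N) := fun N => isClosed_Icc.inter (isClosed_biInter fun n _ =>
    isClosed_le continuous_const (continuous_const.mul (hc.iterate n)))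
  obtain ⟨r, hr⟩ := IsCompact.nonempty_iInter_of_sequence_nonempty_isCompact_isClosed C
    (fun N r hr => ⟨hr.1, Set.mem_iInter₂.2 fun n hn => Set.mem_iInter₂.1 hr.2 n (by omega)⟩)
    (fun N => by
      obtain ⟨r, h1, h2⟩ := signs_fin N e
      exact ⟨r, h1, Set.mem_iInter₂.2 h2⟩)
    (isCompact_Icc.of_isClosed_subset (cl 0) Set.inter_subset_left) cl
  exact ⟨r, fun n => Set.mem_iInter₂.1 (Set.mem_iInter.1 hr (n + 1)).2 n (by omega)⟩

theorem two_of_zero {r : ℝ} {n : ℕ} (h : f^[n] r = 0) (k : ℕ) : f^[n + 2 + k] r = 2 := by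
  induction k with
  | zero =>
    rw [add_zero, Function.iterate_succ_apply', Function.iterate_succ_apply', h]
    norm_num [f]
  | succ k ih =>
    rw [← add_assoc, Function.iterate_succ_apply', ih]
    norm_num [f]

theorem trans (e : ℕ → Bool) : ∃ r, Transcendental ℤ r ∧ ∀ n, 0 < sg (e n) * f^[3 * n] r := by
  let E : (ℕ → Bool) → ℕ → Bool := fun d j =>
    if j % 3 = 0 then e (j / 3) else if j % 3 = 1 then false else d (j / 3)
  choose ρ hρ using fun d => signs (E d)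
  have ne : ∀ d j, f^[j] (ρ d) ≠ 0 := fun d j h => by
    have h1 := hρ d (j + 2 + (2 * j + 2))
    rw [two_of_zero h] at h1
    have : (j + 2 + (2 * j + 2)) % 3 = 1 := by omega
    norm_num [E, this, sg] at h1
  have inj : Function.Injective ρ := fun d d' h => by
    funext n
    have h1 := hρ d (3 * n + 2)
    have h2 := hρ d' (3 * n + 2)
    have h3 := ne d (3 * n + 2)
    have e1 : (3 * n + 2) % 3 = 2 := by omega
    have e2 : (3 * n + 2) / 3 = n := by omega
    rw [← h] at h2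
    simp only [E, e1, e2] at h1 h2
    generalize f^[3 * n + 2] (ρ d) = y at *
    cases hd : d n <;> cases hd' : d' n <;> simp [hd, hd', sg] at h1 h2 ⊢ <;>
      exact h3 (le_antisymm ‹_› ‹_›)
  obtain ⟨d, hd⟩ : ∃ d, Transcendental ℤ (ρ d) := by
    by_contra hh
    push Not at hh
    have h1 : (Set.univ : Set (ℕ → Bool)).Countable :=
      ((Algebraic.countable ℤ ℝ).preimage inj).mono fun d _ => not_not.1 (hh d)
    have := Set.countable_univ_iff.1 h1
    obtain ⟨g, hg⟩ := exists_surjective_nat (ℕ → Bool)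
    obtain ⟨n, hn⟩ := hg fun n => !g n n
    simpa using congrFun hn n
  refine ⟨ρ d, hd, fun n => lt_of_le_of_ne ?_ (mul_ne_zero ?_ (ne d _)).symm⟩
  · simpa [E] using hρ d (3 * n)
  · unfold sg; split_ifs <;> norm_num

noncomputable def V : ℕ → ℤ[X]
  | 0 => X
  | n + 1 => V n ^ 2 - 2

theorem aeval_V (r : ℝ) (n : ℕ) : aeval r (V n) = f^[n] r := by
  induction n with
  | zero => simp [V]
  | succ n ih =>
    rw [V, Function.iterate_succ_apply', f, map_sub, map_pow, ih, map_ofNat]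

theorem ext_mem (L : Subfield ℝ) {s : ℝ} (hs : s ^ 2 ∈ L) {y : ℝ}
    (hy : y ∈ Subfield.closure (insert s (L : Set ℝ))) : ∃ a ∈ L, ∃ b ∈ L, y = a + b * s := by
  induction hy using Subfield.closure_induction with
  | mem y hy =>
    rcases hy with rfl | hy
    exacts [⟨0, zero_mem _, 1, one_mem _, by ring⟩, ⟨y, hy, 0, zero_mem _, by ring⟩]
  | one => exact ⟨1, one_mem _, 0, zero_mem _, by ring⟩
  | add _ _ _ _ h1 h2 =>
    obtain ⟨a, ha, b, hb, rfl⟩ := h1
    obtain ⟨c, hc, d, hd, rfl⟩ := h2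
    exact ⟨a + c, add_mem ha hc, b + d, add_mem hb hd, by ring⟩
  | neg _ _ h1 =>
    obtain ⟨a, ha, b, hb, rfl⟩ := h1
    exact ⟨-a, neg_mem ha, -b, neg_mem hb, by ring⟩
  | mul _ _ _ _ h1 h2 =>
    obtain ⟨a, ha, b, hb, rfl⟩ := h1
    obtain ⟨c, hc, d, hd, rfl⟩ := h2
    exact ⟨a * c + b * d * s ^ 2, add_mem (mul_mem ha hc) (mul_mem (mul_mem hb hd) hs),
      a * d + b * c, add_mem (mul_mem ha hd) (mul_mem hb hc), by ring⟩
  | inv _ _ h1 =>
    obtain ⟨a, ha, b, hb, rfl⟩ := h1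
    by_cases h0 : a + b * s = 0
    · exact ⟨0, zero_mem _, 0, zero_mem _, by simp [h0]⟩
    by_cases h1 : a - b * s = 0
    · exact ⟨(a + a)⁻¹, inv_mem (add_mem ha ha), 0, zero_mem _, by
        rw [show b * s = a by linarith]; simp⟩
    have hD : a ^ 2 - b ^ 2 * s ^ 2 ∈ L := sub_mem (pow_mem ha 2) (mul_mem (pow_mem hb 2) hs)
    refine ⟨a / _, div_mem ha hD, -b / _, div_mem (neg_mem hb) hD, ?_⟩
    rw [show a ^ 2 - b ^ 2 * s ^ 2 = (a + b * s) * (a - b * s) by ring]
    field_simp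
    ring

noncomputable def K (x : ℕ → ℝ) : ℕ → Subfield ℝ
  | 0 => Subfield.closure {x 0}
  | k + 1 => Subfield.closure (insert (x (k + 1)) (K x k : Set ℝ))

theorem K_succ (x : ℕ → ℝ) (k : ℕ) : K x k ≤ K x (k + 1) := fun _ h =>
  Subfield.subset_closure (Or.inr h)

theorem K_mono (x : ℕ → ℝ) : Monotone (K x) := monotone_nat_of_le_succ (K_succ x)

theorem x_mem (x : ℕ → ℝ) {i k : ℕ} (h : i ≤ k) : x i ∈ K x k := by
  refine K_mono x h ?_
  cases i with
  | zero => exact Subfield.subset_closure rfl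
  | succ i => exact Subfield.subset_closure (Or.inl rfl)

theorem sq_desc {x : ℕ → ℝ} (hx : ∀ k, x (k + 1) ^ 2 ∈ K x 0) (k : ℕ) : ∀ v ∈ K x 0,
    ∀ y ∈ K x k, v = y ^ 2 → ∃ I : Finset ℕ, (∀ i ∈ I, i < k) ∧
      ∃ z ∈ K x 0, v * ∏ i ∈ I, x (i + 1) ^ 2 = z ^ 2 := by
  induction k with
  | zero => exact fun v _ y hy e => ⟨∅, by simp, y, hy, by simpa using e⟩
  | succ k ih =>
    intro v hv y hy e
    have hs := K_mono x (Nat.zero_le k) (hx k)
    obtain ⟨a, ha, b, hb, rfl⟩ := ext_mem _ hs hy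
    have easy : ∀ y ∈ K x k, v = y ^ 2 → ∃ I : Finset ℕ, (∀ i ∈ I, i < k + 1) ∧
        ∃ z ∈ K x 0, v * ∏ i ∈ I, x (i + 1) ^ 2 = z ^ 2 := fun y hy e => by
      obtain ⟨I, h1, h2⟩ := ih v hv y hy e
      exact ⟨I, fun i hi => (h1 i hi).trans (by omega), h2⟩
    by_cases h0 : a = 0
    · obtain ⟨I, h1, z, hz, h2⟩ := ih (v * x (k + 1) ^ 2) (mul_mem hv (hx k))
        (b * x (k + 1) ^ 2) (mul_mem hb hs) (by rw [e, h0]; ring)
      refine ⟨insert k I, fun i hi => ?_, z, hz, ?_⟩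
      · rcases Finset.mem_insert.1 hi with rfl | hi
        exacts [by omega, (h1 i hi).trans (by omega)]
      · rw [Finset.prod_insert fun h => lt_irrefl _ (h1 k h), ← mul_assoc, h2]
    by_cases h1 : b = 0
    · exact easy a ha (by rw [e, h1]; ring)
    refine easy _ (add_mem ha (mul_mem hb ?_)) e
    have : x (k + 1) = (v - a ^ 2 - b ^ 2 * x (k + 1) ^ 2) / (a * b + a * b) := by
      rw [e, ← two_mul]
      field_simp
      ring
    rw [this]
    exact div_mem (sub_mem (sub_mem (K_mono x (Nat.zero_le k) hv) (pow_mem ha 2))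
      (mul_mem (pow_mem hb 2) hs)) (add_mem (mul_mem ha hb) (mul_mem ha hb))

theorem aeval_mem (x : ℕ → ℝ) (P : ℤ[X]) : aeval (x 0) P ∈ K x 0 := by
  induction P using Polynomial.induction_on' with
  | add p q hp hq => rw [map_add]; exact add_mem hp hq
  | monomial n a =>
    rw [aeval_monomial]
    exact mul_mem (by simp) (pow_mem (x_mem x le_rfl) n)

theorem K_zero {x : ℕ → ℝ} {z : ℝ} (hz : z ∈ K x 0) :
    ∃ P Q : ℤ[X], z = aeval (x 0) P / aeval (x 0) Q := by
  obtain ⟨a, ha, b, hb, rfl⟩ := Subfield.mem_closure_iff.1 hz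
  have : ∀ a ∈ Subring.closure {x 0}, ∃ P : ℤ[X], aeval (x 0) P = a := fun a ha => by
    have : a ∈ Algebra.adjoin ℤ {x 0} := by
      rw [Algebra.adjoin_int]
      exact ha
    rwa [Algebra.adjoin_singleton_eq_range_aeval] at this
  obtain ⟨P, rfl⟩ := this a ha
  obtain ⟨Q, rfl⟩ := this b hb
  exact ⟨P, Q, rfl⟩

/-- Independence of the square roots. -/
theorem not_mem {x : ℕ → ℝ} {m : ℕ → ℕ} {σ : ℕ → Bool} (hm : Function.Injective m)
    (ht : Transcendental ℤ (x 0)) (hx : ∀ k, x (k + 1) ^ 2 = sg (σ k) * f^[3 * m k] (x 0))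
    (hp : ∀ k, x (k + 1) ≠ 0) (k : ℕ) : x (k + 1) ∉ K x k := by
  classical
  intro h
  let U : ℕ → ℤ[X] := fun k => (if σ k then 1 else -1) * V (3 * m k)
  have hU : ∀ (r : ℝ) k, aeval r (U k) = sg (σ k) * f^[3 * m k] r := fun r k => by
    simp only [U, map_mul, aeval_V, sg]
    split_ifs <;> simp
  have h0 : ∀ k, x (k + 1) ^ 2 ∈ K x 0 := fun k => by rw [hx, ← hU]; exact aeval_mem x _
  obtain ⟨I, h1, z, hz, h2⟩ := sq_desc h0 k _ (h0 k) _ h rfl
  obtain ⟨P, Q, rfl⟩ := K_zero hz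
  have hQ : aeval (x 0) Q ≠ 0 := fun e => by
    rw [e, div_zero] at h2
    exact mul_ne_zero (pow_ne_zero 2 (hp k)) (Finset.prod_ne_zero_iff.2 fun i _ =>
      pow_ne_zero 2 (hp i)) (by simpa using h2)
  have h3 : U k * (∏ i ∈ I, U i) * Q ^ 2 = P ^ 2 := by
    apply transcendental_iff_injective.1 ht
    simp only [map_mul, map_prod, map_pow, hU, ← hx, h2]
    field_simp
  obtain ⟨r, hr, hs⟩ := trans fun j => if j = m k then !σ k else σ (Function.invFun m j)
  have h4 := congrArg (aeval r) h3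
  simp only [map_mul, map_prod, map_pow, hU] at h4
  have k1 : sg (σ k) * f^[3 * m k] r < 0 := by
    have := hs (m k)
    simp only [if_true] at this
    cases hσ : σ k <;> simp [hσ, sg] at this ⊢ <;> exact this
  have k2 : 0 < ∏ i ∈ I, sg (σ i) * f^[3 * m i] r := Finset.prod_pos fun i hi => by
    have := hs (m i)
    rwa [if_neg (hm.ne (h1 i hi).ne), Function.leftInverse_invFun hm] at this
  have k3 : aeval r Q ≠ 0 := fun e => hQ (by
    rw [transcendental_iff.1 hr Q e, map_zero])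
  have k4 := mul_neg_of_neg_of_pos (mul_neg_of_neg_of_pos k1 k2) (pow_pos (sq_pos_of_ne_zero k3) 1)
  rw [pow_one, h4] at k4
  exact absurd k4 (not_lt.2 (sq_nonneg _))

end Pool.Agent.Lib.H8.FR
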