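import Pool.Agent.Lib.H8.FR1

/-!
Polynomials as lists of signed monomials; a primitive recursive zero test in a square root tower.
-/

namespace Pool.Agent.Lib.H8.FR

open Polynomial

abbrev Mon := ℕ × List ℕ
abbrev Pol := List Mon

def evM (x : ℕ → ℝ) (m : Mon) : ℝ := (-1) ^ m.1 * (m.2.map x).prod
def ev (x : ℕ → ℝ) (p : Pol) : ℝ := (p.map (evM x)).sum
def mul (p q : Pol) : Pol := p.flatMap fun m => q.map fun n => (m.1 + n.1, m.2 ++ n.2)
def Bd (k : ℕ) (p : Pol) : Prop := ∀ m ∈ p, ∀ i ∈ m.2, i ≤ k

variable {x : ℕ → ℝ}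

theorem ev_append (p q : Pol) : ev x (p ++ q) = ev x p + ev x q := by simp [ev]

theorem ev_cons (m : Mon) (q : Pol) : ev x (m :: q) = evM x m + ev x q := by simp [ev]

theorem ev_nil : ev x [] = 0 := rfl

theorem ev_one (m : Mon) : ev x [m] = evM x m := by simp [ev]

theorem ev_mul (p q : Pol) : ev x (mul p q) = ev x p * ev x q := by
  induction p with
  | nil => simp [mul, ev]
  | cons m p ih =>
    have : mul (m :: p) q = (q.map fun n => (m.1 + n.1, m.2 ++ n.2)) ++ mul p q := by simp [mul]
    rw [this, ev_append, ih, ev_cons, add_mul]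
    congr 1
    clear ih this
    induction q with
    | nil => simp [ev]
    | cons n q ih =>
      rw [List.map_cons, ev_cons, ev_cons, ih, mul_add]
      congr 1
      simp only [evM, List.map_append, List.prod_append, pow_add]
      ring

theorem Bd.mul {k : ℕ} {p q : Pol} (hp : Bd k p) (hq : Bd k q) : Bd k (mul p q) := by
  intro m hm i hi
  simp only [FR.mul, List.mem_flatMap, List.mem_map] at hm
  obtain ⟨a, ha, b, hb, rfl⟩ := hm
  rcases List.mem_append.1 hi with h | h
  exacts [hp a ha i h, hq b hb i h]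

theorem Bd.mono {k l : ℕ} {p : Pol} (hp : Bd k p) (h : k ≤ l) : Bd l p :=
  fun m hm i hi => (hp m hm i hi).trans h

theorem ev_mem {k : ℕ} {p : Pol} (hp : Bd k p) : ev x p ∈ K x k := by
  refine list_sum_mem fun y hy => ?_
  obtain ⟨m, hm, rfl⟩ := List.mem_map.1 hy
  refine mul_mem (pow_mem (neg_mem (one_mem _)) _) (list_prod_mem fun y hy => ?_)
  obtain ⟨i, hi, rfl⟩ := List.mem_map.1 hy
  exact x_mem x (hp m hm i hi)

def spM (U : Pol) (k : ℕ) (m : Mon) : Pol × Pol :=
  m.2.foldr (fun i ab => if i = k then (mul ab.2 U, ab.1)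
    else (mul [(0, [i])] ab.1, mul [(0, [i])] ab.2)) ([(m.1, [])], [])

theorem spM_ev {U : Pol} {k : ℕ} (hU : ev x U = x k ^ 2) (m : Mon) :
    ev x (spM U k m).1 + ev x (spM U k m).2 * x k = evM x m := by
  obtain ⟨s, l⟩ := m
  unfold spM
  induction l with
  | nil => simp [ev]
  | cons i l ih =>
    simp only [List.foldr_cons] at ih ⊢
    have : evM x (s, i :: l) = x i * evM x (s, l) := by simp [evM]; ring
    rw [this, ← ih]
    split_ifs with h
    · simp only [ev_mul, hU, h]; ring
    · simp only [ev_mul, ev_one, evM]; simp; ring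

theorem spM_bd {U : Pol} {k : ℕ} (hU : Bd 0 U) (m : Mon) (hm : ∀ i ∈ m.2, i ≤ k + 1) :
    Bd k (spM U (k + 1) m).1 ∧ Bd k (spM U (k + 1) m).2 := by
  obtain ⟨s, l⟩ := m
  unfold spM
  induction l with
  | nil => simp [Bd]
  | cons i l ih =>
    simp only [List.foldr_cons] at ih ⊢
    have ih := ih fun j hj => hm j (List.mem_cons_of_mem _ hj)
    have hi := hm i List.mem_cons_self
    split_ifs with h
    · exact ⟨ih.2.mul (hU.mono (Nat.zero_le _)), ih.1⟩
    · have : Bd k [(0, [i])] := by simp [Bd]; omega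
      exact ⟨this.mul ih.1, this.mul ih.2⟩

def spA (U : Pol) (k : ℕ) (p : Pol) : Pol := p.flatMap fun m => (spM U k m).1
def spB (U : Pol) (k : ℕ) (p : Pol) : Pol := p.flatMap fun m => (spM U k m).2

theorem sp_ev {U : Pol} {k : ℕ} (hU : ev x U = x k ^ 2) (p : Pol) :
    ev x (spA U k p) + ev x (spB U k p) * x k = ev x p := by
  induction p with
  | nil => simp [spA, spB, ev]
  | cons m p ih =>
    simp only [spA, spB, List.flatMap_cons, ev_append, ev_cons] at ih ⊢
    rw [← ih, ← spM_ev hU m]
    ring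

theorem sp_bd {U : Pol} {k : ℕ} (hU : Bd 0 U) {p : Pol} (hp : Bd (k + 1) p) :
    Bd k (spA U (k + 1) p) ∧ Bd k (spB U (k + 1) p) := by
  constructor <;> intro n hn <;> obtain ⟨m, hm, h⟩ := List.mem_flatMap.1 hn
  exacts [(spM_bd hU m (hp m hm)).1 n h, (spM_bd hU m (hp m hm)).2 n h]

def cnt (p : Pol) (b j : ℕ) : ℕ := (p.filter fun n => n.1 % 2 = b ∧ n.2.length = j).length

def Z0 (p : Pol) : Prop := ∀ m ∈ p, cnt p 0 m.2.length = cnt p 1 m.2.length

noncomputable def poly (p : Pol) : ℤ[X] := (p.map fun m => monomial m.2.length ((-1) ^ m.1)).sum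

theorem poly_ev {p : Pol} (hp : Bd 0 p) : aeval (x 0) (poly p) = ev x p := by
  induction p with
  | nil => simp [poly, ev]
  | cons m p ih =>
    have ih := ih fun n hn => hp n (List.mem_cons_of_mem _ hn)
    simp only [poly, List.map_cons, List.sum_cons, map_add, ev_cons] at ih ⊢
    rw [ih, aeval_monomial, evM]
    have : m.2.map x = List.replicate m.2.length (x 0) := by
      rw [List.eq_replicate_iff]
      refine ⟨by simp, fun y hy => ?_⟩
      obtain ⟨i, hi, rfl⟩ := List.mem_map.1 hy
      rw [Nat.le_zero.1 (hp m List.mem_cons_self i hi)]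
    simp [this]

theorem poly_coeff (p : Pol) (j : ℕ) : (poly p).coeff j = (cnt p 0 j : ℤ) - cnt p 1 j := by
  induction p with
  | nil => simp [poly, cnt]
  | cons m p ih =>
    simp only [poly, List.map_cons, List.sum_cons, coeff_add, coeff_monomial, cnt,
      List.filter_cons] at ih ⊢
    rw [ih]
    rcases Nat.even_or_odd m.1 with h | h
    · have := Nat.even_iff.1 h
      by_cases e : m.2.length = j <;> simp [h.neg_one_pow, this, e]
      ring
    · have := Nat.odd_iff.1 h
      by_cases e : m.2.length = j <;> simp [h.neg_one_pow, this, e]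
      ring

theorem Z0_iff (ht : Transcendental ℤ (x 0)) {p : Pol} (hp : Bd 0 p) : Z0 p ↔ ev x p = 0 := by
  rw [← poly_ev hp]
  constructor
  · intro h
    have : poly p = 0 := by
      ext j
      rw [poly_coeff, coeff_zero, sub_eq_zero, Nat.cast_inj]
      by_cases e : ∃ m ∈ p, m.2.length = j
      · obtain ⟨m, hm, rfl⟩ := e
        exact h m hm
      · push Not at e
        have : ∀ b, cnt p b j = 0 := fun b => by
          simp only [cnt, List.length_eq_zero_iff, List.filter_eq_nil_iff]
          intro m hm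
          simp [e m hm]
        rw [this, this]
    rw [this, map_zero]
  · intro h m _
    have := poly_coeff p m.2.length
    rw [transcendental_iff.1 ht _ h, coeff_zero] at this
    omega

def red (U : ℕ → Pol) (k : ℕ) (L : List Pol) : List Pol :=
  (List.range k).foldr
    (fun i L => L.flatMap fun p => [spA (U i) (i + 1) p, spB (U i) (i + 1) p]) L

theorem red_iff {U : ℕ → Pol} (ht : Transcendental ℤ (x 0)) (hU : ∀ k, ev x (U k) = x (k + 1) ^ 2)
    (hb : ∀ k, Bd 0 (U k)) (hK : ∀ k, x (k + 1) ∉ K x k) (k : ℕ) : ∀ L : List Pol,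
    (∀ p ∈ L, Bd k p) → ((∀ q ∈ red U k L, Z0 q) ↔ ∀ p ∈ L, ev x p = 0) := by
  induction k with
  | zero => exact fun L h => forall₂_congr fun p hp => Z0_iff ht (h p hp)
  | succ k ih =>
    intro L h
    have : red U (k + 1) L =
        red U k (L.flatMap fun p => [spA (U k) (k + 1) p, spB (U k) (k + 1) p]) := by
      simp [red, List.range_succ]
    rw [this, ih]
    · simp only [List.mem_flatMap, List.mem_cons, List.not_mem_nil, or_false]
      constructor
      · intro g p hp
        rw [← sp_ev (hU k), g _ ⟨p, hp, Or.inl rfl⟩, g _ ⟨p, hp, Or.inr rfl⟩]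
        simp
      · rintro g q ⟨p, hp, hq⟩
        have h1 := sp_ev (hU k) p
        rw [g p hp] at h1
        have h2 := sp_bd (hb k) (h p hp)
        have h3 : ev x (spB (U k) (k + 1) p) = 0 := by
          by_contra e
          refine hK k ?_
          rw [show x (k + 1) = -ev x (spA (U k) (k + 1) p) / ev x (spB (U k) (k + 1) p) by
            field_simp; linarith]
          exact div_mem (neg_mem (ev_mem h2.1)) (ev_mem h2.2)
        rcases hq with rfl | rfl
        · simpa [h3] using h1
        · exact h3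
    · intro q hq
      simp only [List.mem_flatMap, List.mem_cons, List.not_mem_nil, or_false] at hq
      obtain ⟨p, hp, rfl | rfl⟩ := hq
      exacts [(sp_bd (hb k) (h p hp)).1, (sp_bd (hb k) (h p hp)).2]

def bd (p : Pol) : ℕ := (p.flatMap Prod.snd).sum

theorem bd_bd (p : Pol) : Bd (bd p) p := fun m hm _ hi =>
  List.le_sum_of_mem (List.mem_flatMap.2 ⟨m, hm, hi⟩)

open Primrec

theorem mul_prim : Primrec₂ mul := by
  unfold mul
  refine list_flatMap fst (Primrec₂.mk ?_)
  refine list_map (snd.comp fst) (Primrec₂.mk ?_)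
  exact (nat_add.comp (fst.comp (snd.comp fst)) (fst.comp snd)).pair
    (list_append.comp (snd.comp (snd.comp fst)) (snd.comp snd))

theorem spM_prim : Primrec fun q : (Pol × ℕ) × Mon => spM q.1.1 q.1.2 q.2 := by
  have h0 : Primrec fun q : ((Pol × ℕ) × Mon) × ℕ × Pol × Pol => ([(0, [q.2.1])] : Pol) :=
    list_cons.comp ((const 0).pair (list_cons.comp (fst.comp snd) (const []))) (const [])
  have h1 : Primrec fun q : ((Pol × ℕ) × Mon) × ℕ × Pol × Pol =>
      if q.2.1 = q.1.1.2 then (mul q.2.2.2 q.1.1.1, q.2.2.1)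
      else (mul [(0, [q.2.1])] q.2.2.1, mul [(0, [q.2.1])] q.2.2.2) :=
    Primrec.ite (Primrec.eq.comp (fst.comp snd) (snd.comp (fst.comp fst)))
      ((mul_prim.comp (snd.comp (snd.comp snd)) (fst.comp (fst.comp fst))).pair
        (fst.comp (snd.comp snd)))
      ((mul_prim.comp h0 (fst.comp (snd.comp snd))).pair
        (mul_prim.comp h0 (snd.comp (snd.comp snd))))
  have h2 : Primrec fun q : (Pol × ℕ) × Mon => (([(q.2.1, [])], []) : Pol × Pol) :=
    (list_cons.comp ((fst.comp snd).pair (const [])) (const [])).pair (const [])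
  exact list_foldr (snd.comp snd) h2 h1.to₂

theorem spA_prim : Primrec fun q : (Pol × ℕ) × Pol => spA q.1.1 q.1.2 q.2 :=
  list_flatMap snd (fst.comp (spM_prim.comp ((fst.comp fst).pair snd))).to₂

theorem spB_prim : Primrec fun q : (Pol × ℕ) × Pol => spB q.1.1 q.1.2 q.2 :=
  list_flatMap snd (snd.comp (spM_prim.comp ((fst.comp fst).pair snd))).to₂

theorem cnt_prim (b : ℕ) : Primrec₂ fun p j => cnt p b j := by
  have : PrimrecRel fun (n : Mon) (j : ℕ) => n.1 % 2 = b ∧ n.2.length = j :=
    (Primrec.eq.comp (nat_mod.comp (fst.comp fst) (const 2)) (const b)).and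
      (Primrec.eq.comp (list_length.comp (snd.comp fst)) snd)
  exact list_length.comp this.listFilter

theorem Z0_prim : PrimrecPred Z0 := by
  have : PrimrecRel fun (m : Mon) (p : Pol) => cnt p 0 m.2.length = cnt p 1 m.2.length :=
    Primrec.eq.comp ((cnt_prim 0).comp snd (list_length.comp (snd.comp fst)))
      ((cnt_prim 1).comp snd (list_length.comp (snd.comp fst)))
  exact this.forall_mem_list.comp Primrec.id Primrec.id

theorem red_prim {U : ℕ → Pol} (hU : Primrec U) : Primrec₂ (red U) := by
  have h0 : Primrec fun q : (ℕ × List Pol) × Pol => ((U q.1.1, q.1.1 + 1), q.2) :=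
    ((hU.comp (fst.comp fst)).pair (succ.comp (fst.comp fst))).pair snd
  have h1 : Primrec fun q : ℕ × List Pol =>
      q.2.flatMap fun p => [spA (U q.1) (q.1 + 1) p, spB (U q.1) (q.1 + 1) p] :=
    list_flatMap snd (list_cons.comp (spA_prim.comp h0)
      (list_cons.comp (spB_prim.comp h0) (const []))).to₂
  exact list_foldr (list_range.comp fst) snd (h1.comp snd).to₂

theorem zero_prim {U : ℕ → Pol} (hp : Primrec U) (ht : Transcendental ℤ (x 0))
    (hU : ∀ k, ev x (U k) = x (k + 1) ^ 2) (hb : ∀ k, Bd 0 (U k))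
    (hK : ∀ k, x (k + 1) ∉ K x k) : PrimrecPred fun p => ev x p = 0 := by
  have h0 : Primrec fun l : List ℕ => l.sum :=
    (list_foldr Primrec.id (const 0) (nat_add.comp (fst.comp snd) (snd.comp snd)).to₂).of_eq
      fun l => by simp [List.sum_eq_foldr]
  have h1 : Primrec bd := h0.comp (list_flatMap Primrec.id (snd.comp snd).to₂)
  refine (Z0_prim.forall_mem_list.comp
    ((red_prim hp).comp h1 (list_cons.comp Primrec.id (const [])))).of_eq fun p => ?_
  exact (red_iff ht hU hb hK (bd p) [p] (by simpa using bd_bd p)).trans (by simp)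

def W : ℕ → Pol
  | 0 => [(0, [0])]
  | n + 1 => mul (W n) (W n) ++ [(1, []), (1, [])]

theorem W_ev (n : ℕ) : ev x (W n) = f^[n] (x 0) := by
  induction n with
  | zero => simp [W, ev, evM]
  | succ n ih =>
    rw [W, ev_append, ev_mul, ih, Function.iterate_succ_apply', f]
    simp [ev, evM]
    ring

theorem W_bd (n : ℕ) : Bd 0 (W n) := by
  induction n with
  | zero => simp [W, Bd]
  | succ n ih =>
    intro m hm
    rcases List.mem_append.1 hm with h | h
    · exact ih.mul ih m h
    · simp only [List.mem_cons, List.not_mem_nil, or_false, or_self] at h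
      simp [h]

theorem W_prim : Primrec W := by
  have : Primrec fun n : ℕ =>
      (Nat.rec [(0, [0])] (fun _ p => mul p p ++ [(1, []), (1, [])]) n : Pol) :=
    nat_rec₁ _ (list_append.comp (mul_prim.comp snd snd) (const _)).to₂
  refine this.of_eq fun n => ?_
  induction n with
  | zero => rfl
  | succ n ih => rw [W, ← ih]

end Pool.Agent.Lib.H8.FR
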