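import Mathlib

/-!
A numbered infinite structure with computable equality has a computable bijective numbering.
-/

namespace Pool.Agent.Lib.H8.Pres

theorem cp {α β} [Primcodable α] [Primcodable β] {p : β → Prop} {f : α → β}
    (hp : ComputablePred p) (hf : Computable f) : ComputablePred fun x => p (f x) := by
  classical
  exact (hp.decide.comp hf).computablePred

theorem present_nat {F : Type} [Infinite F] (val : ℕ → F) (hs : Function.Surjective val)
    (he : ComputablePred fun p : ℕ × ℕ => val p.1 = val p.2) :
    ∃ (e : ℕ ≃ F) (g h : ℕ → ℕ), Computable g ∧ Computable h ∧ (∀ n, e n = val (g n)) ∧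
      ∀ c, e.symm (val c) = h c := by
  classical
  have hex : ∀ a, ∃ b, val a = val b := fun a => ⟨a, rfl⟩
  obtain ⟨rep, hrep, r1, r2⟩ : ∃ rep : ℕ → ℕ, Computable rep ∧ (∀ a, val a = val (rep a)) ∧
      ∀ a b, val a = val b → rep a = rep b :=
    ⟨fun a => Nat.find (hex a), Computable.find he hex, fun a => Nat.find_spec (hex a),
      fun a b h => by simp only [h]⟩
  let S : ℕ → Prop := fun a => rep a = a
  have r3 : ∀ a, S (rep a) := fun a => (r2 _ _ (r1 a)).symm
  have hc : Computable fun n => Nat.count S n := by
    have : Computable fun n : ℕ =>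
        (Nat.rec 0 (fun k p => p + if rep k = k then 1 else 0) n : ℕ) :=
      Computable.nat_rec (h := fun _ (q : ℕ × ℕ) => q.2 + if rep q.1 = q.1 then 1 else 0)
        Computable.id (Computable.const 0) (by
          have h1 : Primrec fun q : ℕ × ℕ × ℕ => q.2.2 + if q.1 = q.2.1 then 1 else 0 :=
            Primrec.nat_add.comp (Primrec.snd.comp Primrec.snd)
              (Primrec.ite (Primrec.eq.comp Primrec.fst (Primrec.fst.comp Primrec.snd))
                (Primrec.const 1) (Primrec.const 0))
          exact (h1.to_comp.comp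
            ((hrep.comp (Computable.fst.comp Computable.snd)).pair Computable.snd)).to₂)
    refine this.of_eq fun n => ?_
    induction n with
    | zero => rfl
    | succ n ih => rw [Nat.count_succ, ← ih]
  let h : ℕ → ℕ := fun a => Nat.count S (rep a)
  have hh : Computable h := hc.comp hrep
  have hinf : (Set.ofPred S).Infinite := by
    intro hf
    refine Set.infinite_univ (α := F) ((hf.image val).subset fun y _ => ?_)
    obtain ⟨a, rfl⟩ := hs y
    exact ⟨rep a, r3 a, (r1 a).symm⟩
  have h1 : ∀ a b, h a = h b ↔ val a = val b := fun a b =>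
    ⟨fun e => by rw [r1 a, r1 b, Nat.count_injective (r3 a) (r3 b) e],
      fun e => by simp only [h, r2 a b e]⟩
  have h2 : ∀ n, ∃ a, h a = n := fun n =>
    ⟨Nat.nth S n, by
      have : rep (Nat.nth S n) = Nat.nth S n := Nat.nth_mem_of_infinite hinf n
      simp only [h, this]
      exact Nat.count_nth_of_infinite hinf n⟩
  let g : ℕ → ℕ := fun n => Nat.find (h2 n)
  have hg : Computable g := Computable.find (P := fun n a => h a = n)
    (cp (p := fun q : ℕ × ℕ => q.1 = q.2) Primrec.eq.computablePred
      ((hh.comp Computable.snd).pair Computable.fst)) h2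
  have g1 : ∀ n, h (g n) = n := fun n => Nat.find_spec (h2 n)
  let e : ℕ ≃ F := Equiv.ofBijective (fun n => val (g n))
    ⟨fun a b e => by rw [← g1 a, ← g1 b]; exact (h1 _ _).2 e, fun y => by
      obtain ⟨a, rfl⟩ := hs y
      exact ⟨h a, (h1 _ _).1 (g1 _)⟩⟩
  refine ⟨e, g, h, hg, hh, fun _ => rfl, fun c => ?_⟩
  rw [Equiv.symm_apply_eq]
  exact (h1 _ _).1 (g1 _).symm

theorem present {C F : Type} [Primcodable C] [Inhabited C] [Infinite F] (val : C → F)
    (hs : Function.Surjective val) (he : ComputablePred fun p : C × C => val p.1 = val p.2) :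
    ∃ (e : ℕ ≃ F) (g : ℕ → C) (h : C → ℕ), Computable g ∧ Computable h ∧
      (∀ n, e n = val (g n)) ∧ ∀ c, e.symm (val c) = h c := by
  let dec : ℕ → C := fun n => (Encodable.decode n).getD default
  have hd : Computable dec :=
    (Primrec.option_getD.comp Primrec.decode (Primrec.const default)).to_comp
  have d1 : ∀ c, dec (Encodable.encode c) = c := fun c => by simp [dec]
  obtain ⟨e, g, h, h1, h2, h3, h4⟩ := present_nat (val ∘ dec)
    (fun y => by obtain ⟨c, rfl⟩ := hs y; exact ⟨Encodable.encode c, by simp [d1]⟩)
    (cp he ((hd.comp Computable.fst).pair (hd.comp Computable.snd)))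
  exact ⟨e, dec ∘ g, fun c => h (Encodable.encode c), hd.comp h1, h2.comp Computable.encode, h3,
    fun c => by beta_reduce; rw [← h4]; simp [d1]⟩

end Pool.Agent.Lib.H8.Pres
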