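import Pool.Agent.Lib.H8.FR2
import Pool.Agent.Lib.H8.Pres

/-!
A computable real field none of whose computable copies has a computable ordering.
-/

namespace Pool.Agent.Lib.H8.FR

open Primrec Nat.Partrec.Code
open Nat.Partrec (Code)

def run (s n : ℕ) : Option ℕ := evaln s (Denumerable.ofNat Code n) n

theorem run_prim : Primrec₂ run :=
  primrec_evaln.comp ((fst.pair ((Primrec.ofNat Code).comp snd)).pair snd)

def act (k : ℕ) : Prop :=
  run k.unpair.2 k.unpair.1 = none ∧ ¬ run (k.unpair.2 + 1) k.unpair.1 = none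

instance : DecidablePred act := fun k => by unfold act; infer_instance

def mi (k : ℕ) : ℕ := if act k then 2 * k.unpair.1 else 2 * k + 1
def si (k : ℕ) : Bool := if act k then decide (run (k.unpair.2 + 1) k.unpair.1 = some 0) else true

theorem run_mono {s t n : ℕ} (h : s ≤ t) (h1 : run t n = none) : run s n = none := by
  cases e : run s n with
  | none => rfl
  | some v => exact absurd (h1.symm.trans (evaln_mono h e)) (by simp)

theorem mi_inj : Function.Injective mi := by
  intro a b h
  unfold mi at h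
  split_ifs at h with h1 h2 h2
  · have e : a.unpair.1 = b.unpair.1 := by omega
    have : a.unpair.2 = b.unpair.2 := by
      rcases lt_trichotomy a.unpair.2 b.unpair.2 with g | g | g
      · exact absurd (run_mono g (e ▸ h2.1)) h1.2
      · exact g
      · exact absurd (run_mono g (e ▸ h1.1)) h2.2
    rw [← Nat.pair_unpair a, ← Nat.pair_unpair b, e, this]
  all_goals omega

theorem r1 : Primrec fun k : ℕ => run (k.unpair.2 + 1) k.unpair.1 :=
  run_prim.comp (succ.comp (snd.comp unpair)) (fst.comp unpair)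

theorem act_prim : PrimrecPred act :=
  (Primrec.eq.comp (run_prim.comp (snd.comp unpair) (fst.comp unpair)) (const none)).and
    (Primrec.eq.comp r1 (const none)).not

theorem mi_prim : Primrec mi :=
  Primrec.ite act_prim (nat_mul.comp (const 2) (fst.comp unpair))
    (succ.comp (nat_mul.comp (const 2) Primrec.id))

theorem si_prim : Primrec si :=
  Primrec.ite act_prim (Primrec.eq.comp r1 (const (some 0))).decide (const true)

theorem insep {C : ℕ → Prop} (hC : ComputablePred C) :
    ∃ k n, mi k = 2 * n ∧ ¬ (C n ↔ si k = true) := by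
  classical
  have h1 : Computable fun n => if C n then 1 else 0 :=
    (Computable.cond hC.decide (Computable.const 1) (Computable.const 0)).of_eq fun n => by
      by_cases h : C n <;> simp [h]
  obtain ⟨c, hc⟩ := exists_code.1 (Partrec.nat_iff.1 h1)
  set n := Encodable.encode c with hn
  have h2 : ∃ s, run s n = some (if C n then 1 else 0) := by
    simp only [run, hn, Denumerable.ofNat_encode]
    exact evaln_complete.1 (by simp [hc])
  have h3 : ∃ s, ¬ run s n = none := by
    obtain ⟨s, hs⟩ := h2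
    exact ⟨s, by simp [hs]⟩
  have h4 := Nat.find_spec h3
  have h5 := fun s => Nat.find_min h3 (m := s)
  generalize Nat.find h3 = s at h4 h5
  cases s with
  | zero => exact absurd (by simp [run, evaln]) h4
  | succ s =>
    have h6 : act (Nat.pair n s) := by
      simp only [act, Nat.unpair_pair]
      exact ⟨not_not.1 (h5 s (by omega)), h4⟩
    refine ⟨Nat.pair n s, n, by simp [mi, h6], ?_⟩
    have h7 : run (s + 1) n = some (if C n then 1 else 0) := by
      obtain ⟨t, ht⟩ := h2
      obtain ⟨v, hv⟩ := Option.ne_none_iff_exists'.1 h4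
      rw [hv]
      exact congrArg some (Part.mem_unique (evaln_sound hv) (evaln_sound ht))
    by_cases h : C n <;> simp [si, h6, h7, h]

theorem tower : ∃ x : ℕ → ℝ, (PrimrecPred fun p => ev x p = 0) ∧ ∀ k, x (k + 1) ≠ 0 ∧
    x (k + 1) ^ 2 = sg (si k) * f^[3 * mi k] (x 0) := by
  obtain ⟨r, hr, hs⟩ := trans fun j => si (Function.invFun mi j)
  have h1 : ∀ k, 0 < sg (si k) * f^[3 * mi k] r := fun k => by
    simpa only [Function.leftInverse_invFun mi_inj k] using hs (mi k)
  let x : ℕ → ℝ := fun i => Nat.casesOn i r fun k => √(sg (si k) * f^[3 * mi k] r)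
  have h2 : ∀ k, x (k + 1) ≠ 0 := fun k => (Real.sqrt_pos.2 (h1 k)).ne'
  have h3 : ∀ k, x (k + 1) ^ 2 = sg (si k) * f^[3 * mi k] (x 0) := fun k => Real.sq_sqrt (h1 k).le
  refine ⟨x, zero_prim (U := fun k => mul [(if si k then 0 else 1, [])] (W (3 * mi k))) ?_ hr
    (fun k => ?_) (fun k => Bd.mul (by simp [Bd]) (W_bd _)) (not_mem mi_inj hr h3 h2),
    fun k => ⟨h2 k, h3 k⟩⟩
  · exact mul_prim.comp (list_cons.comp ((Primrec.ite (Primrec.eq.comp si_prim (const true))
      (const 0) (const 1)).pair (const [])) (const []))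
      (W_prim.comp (nat_mul.comp (const 3) mi_prim))
  · rw [h3, ev_mul, W_ev, ev_one]
    cases si k <;> simp [evM, sg]

open Classical in
noncomputable def addc (x : ℕ → ℝ) (a b : Pol × Pol) : Pol × Pol :=
  if ev x a.2 = 0 then b else if ev x b.2 = 0 then a
  else (mul a.1 b.2 ++ mul a.2 b.1, mul a.2 b.2)

def mulc (a b : Pol × Pol) : Pol × Pol := (mul a.1 b.1, mul a.2 b.2)
def negc (a : Pol × Pol) : Pol × Pol := (mul [(1, [])] a.1, a.2)
noncomputable def val (x : ℕ → ℝ) (a : Pol × Pol) : ℝ := ev x a.1 / ev x a.2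

variable {x : ℕ → ℝ}

theorem val_add (a b) : val x (addc x a b) = val x a + val x b := by
  unfold addc val
  split_ifs with h1 h2
  · simp [h1]
  · simp [h2]
  · simp only [ev_append, ev_mul]
    field_simp

theorem val_mul (a b) : val x (mulc a b) = val x a * val x b := by
  simp only [val, mulc, ev_mul, mul_div_mul_comm]

theorem val_neg (a) : val x (negc a) = -val x a := by
  simp [val, negc, ev_mul, ev_one, evM, neg_div]

theorem val_inv (a : Pol × Pol) : val x a.swap = (val x a)⁻¹ := by
  simp [val]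

theorem val_x (i : ℕ) : val x ([(0, [i])], [(0, [])]) = x i := by
  simp [val, ev, evM]

def FF (x : ℕ → ℝ) : Subfield ℝ where
  carrier := Set.range (val x)
  mul_mem' := by rintro _ _ ⟨a, rfl⟩ ⟨b, rfl⟩; exact ⟨_, val_mul a b⟩
  one_mem' := ⟨([(0, [])], [(0, [])]), by simp [val, ev, evM]⟩
  add_mem' := by rintro _ _ ⟨a, rfl⟩ ⟨b, rfl⟩; exact ⟨_, val_add a b⟩
  zero_mem' := ⟨([], []), by simp [val, ev]⟩
  neg_mem' := by rintro _ ⟨a, rfl⟩; exact ⟨_, val_neg a⟩
  inv_mem' := by rintro _ ⟨a, rfl⟩; exact ⟨_, val_inv a⟩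

theorem addc_prim (hz : PrimrecPred fun p => ev x p = 0) : Primrec₂ (addc x) := by
  classical
  unfold addc
  exact Primrec.ite (hz.comp (snd.comp fst)) snd (Primrec.ite (hz.comp (snd.comp snd)) fst
    ((list_append.comp (mul_prim.comp (fst.comp fst) (snd.comp snd))
      (mul_prim.comp (snd.comp fst) (fst.comp snd))).pair
      (mul_prim.comp (snd.comp fst) (snd.comp snd))))

theorem mulc_prim : Primrec₂ mulc :=
  (mul_prim.comp (fst.comp fst) (fst.comp snd)).pair (mul_prim.comp (snd.comp fst) (snd.comp snd))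

theorem negc_prim : Primrec negc := (mul_prim.comp (const _) fst).pair snd

theorem pres (hz : PrimrecPred fun p => ev x p = 0) : ∃ e : ℕ ≃ FF x,
    Computable₂ (fun a b : ℕ => e.symm (e a + e b)) ∧
    Computable₂ (fun a b : ℕ => e.symm (e a * e b)) ∧
    Computable (fun a : ℕ => e.symm (-(e a))) ∧ Computable (fun a : ℕ => e.symm ((e a)⁻¹)) := by
  have h0 : PrimrecPred fun a => val x a = 0 :=
    ((hz.comp fst).or (hz.comp snd)).of_eq fun a => by simp [val]
  have h1 := h0.comp ((addc_prim hz).comp fst (negc_prim.comp snd))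
  obtain ⟨e, g, h, hg, hh, k1, k2⟩ := Pres.present (fun a => (⟨val x a, a, rfl⟩ : FF x))
    (by rintro ⟨_, a, rfl⟩; exact ⟨a, rfl⟩)
    (h1.of_eq fun p => by
      rw [val_add, val_neg, add_neg_eq_zero]
      exact ⟨fun h => Subtype.ext h, fun h => congrArg Subtype.val h⟩).computablePred
  refine ⟨e, ?_, ?_, ?_, ?_⟩
  · refine (hh.comp ((addc_prim hz).to_comp.comp (hg.comp Computable.fst)
      (hg.comp Computable.snd))).of_eq fun p => ?_
    beta_reduce
    rw [← k2, k1, k1]
    exact congrArg _ (Subtype.ext (val_add _ _))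
  · refine (hh.comp (mulc_prim.to_comp.comp (hg.comp Computable.fst)
      (hg.comp Computable.snd))).of_eq fun p => ?_
    beta_reduce
    rw [← k2, k1, k1]
    exact congrArg _ (Subtype.ext (val_mul _ _))
  · refine (hh.comp (negc_prim.to_comp.comp hg)).of_eq fun p => ?_
    rw [← k2, k1]
    exact congrArg _ (Subtype.ext (val_neg _))
  · refine (hh.comp ((snd.pair fst).to_comp.comp hg)).of_eq fun p => ?_
    rw [← k2, k1]
    exact congrArg _ (Subtype.ext (val_inv _))

theorem no_order (hx : ∀ k, x (k + 1) ≠ 0 ∧ x (k + 1) ^ 2 = sg (si k) * f^[3 * mi k] (x 0))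
    (e : ℕ ≃ FF x) (ha : Computable₂ fun a b : ℕ => e.symm (e a + e b))
    (hm : Computable₂ fun a b : ℕ => e.symm (e a * e b)) (P : Set (FF x))
    (hP : ComputablePred fun a : ℕ => e a ∈ P) (h0 : 0 ∉ P)
    (h1 : ∀ a b, a ∈ P → b ∈ P → a + b ∈ P) (h2 : ∀ a b, a ∈ P → b ∈ P → a * b ∈ P)
    (h3 : ∀ a, a ≠ 0 → a ∈ P ∨ -a ∈ P) : False := by
  let y : ℕ → FF x := fun i => ⟨x i, _, val_x i⟩
  obtain ⟨F, hF, hF'⟩ : ∃ F : ℕ → ℕ, Computable F ∧ ∀ a, (e (F a) : ℝ) = f (e a) :=
    ⟨_, ha.comp (hm.comp Computable.id Computable.id) (Computable.const (e.symm (-2))),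
      fun a => by
        simp only [id, Equiv.apply_symm_apply, f]
        push_cast
        rw [show ((2 : FF x) : ℝ) = 2 from rfl]
        ring⟩
  let w : ℕ → ℕ := fun n => Nat.rec (e.symm (y 0)) (fun _ p => F p) n
  have hw : Computable w :=
    Computable.nat_rec (h := fun _ (q : ℕ × ℕ) => F q.2) Computable.id (Computable.const _)
      (hF.comp (Computable.snd.comp Computable.snd)).to₂
  have hw' : ∀ n, (e (w n) : ℝ) = f^[n] (x 0) := fun n => by
    induction n with
    | zero => simp [w, y]
    | succ n ih => rw [Function.iterate_succ_apply', ← ih, ← hF']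
  obtain ⟨k, n, k1, k2⟩ := insep (Pres.cp hP
    (hw.comp (nat_mul.comp (const 3) (nat_mul.comp (const 2) Primrec.id)).to_comp))
  have k3 : y (k + 1) * y (k + 1) ∈ P := by
    rcases h3 (y (k + 1)) (fun h => (hx k).1 (congrArg Subtype.val h)) with h | h
    · exact h2 _ _ h h
    · simpa using h2 _ _ h h
  have k4 := (hx k).2
  rw [k1, ← hw', sq] at k4
  simp only [id] at k2
  cases hs : si k
  · have : y (k + 1) * y (k + 1) = -e (w (3 * (2 * n))) := Subtype.ext (by simpa [hs, sg] using k4)
    refine k2 ⟨fun h => absurd ?_ h0, by simp [hs]⟩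
    simpa [this] using h1 _ _ h k3
  · have : y (k + 1) * y (k + 1) = e (w (3 * (2 * n))) := Subtype.ext (by simpa [hs, sg] using k4)
    exact k2 ⟨fun _ => hs, fun _ => this ▸ k3⟩

end Pool.Agent.Lib.H8.FR
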