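import Mathlib

/-! Fitting classes: radicals, and a Fitting class containing a group of order `p` contains
every finite `p`-group. -/

set_option autoImplicit false

namespace Pool.Agent.Lib.H8.FitP

abbrev Cls : Type 1 := (G : Type) → [Group G] → Prop

def IsFit (C : Cls) : Prop :=
  (∀ (G K : Type) [Group G] [Group K], Nonempty (G ≃* K) → C G → C K) ∧
  (∀ (G : Type) [Group G] [Finite G] (N : Subgroup G), N.Normal → C G → C ↥N) ∧
  (∀ (G : Type) [Group G] [Finite G] (N K : Subgroup G),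
    N.Normal → K.Normal → C ↥N → C ↥K → C ↥(N ⊔ K))

variable {C : Cls}

theorem IsFit.down (hC : IsFit C) {G : Type} [Group G] [Finite G] {A B : Subgroup G} (h : A ≤ B)
    (hn : (A.subgroupOf B).Normal) (hB : C B) : C A :=
  hC.1 _ _ ⟨Subgroup.subgroupOfEquivOfLe h⟩ (hC.2.1 B _ hn hB)

theorem IsFit.join (hC : IsFit C) {G : Type} [Group G] [Finite G] {A A' B : Subgroup G}
    (h : A ≤ B) (h' : A' ≤ B) (hn : (A.subgroupOf B).Normal) (hn' : (A'.subgroupOf B).Normal)
    (hA : C A) (hA' : C A') : C ↥(A ⊔ A') := by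
  have := hC.2.2 B _ _ hn hn' (hC.1 _ _ ⟨(Subgroup.subgroupOfEquivOfLe h).symm⟩ hA)
    (hC.1 _ _ ⟨(Subgroup.subgroupOfEquivOfLe h').symm⟩ hA')
  rw [← Subgroup.subgroupOf_sup h h'] at this
  exact hC.1 _ _ ⟨Subgroup.subgroupOfEquivOfLe (sup_le h h')⟩ this

theorem IsFit.triv (hC : IsFit C) (hne : ∃ (K : Type) (_ : Group K) (_ : Finite K), C K)
    (G : Type) [Group G] [Subsingleton G] : C G := by
  obtain ⟨K, _, _, hK⟩ := hne
  have h := hC.2.1 K ⊥ inferInstance hK
  let _ : Unique G := ⟨⟨1⟩, fun _ => Subsingleton.elim _ _⟩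
  exact hC.1 _ _ ⟨MulEquiv.ofUnique⟩ h

theorem IsFit.radical (hC : IsFit C) (hne : ∃ (K : Type) (_ : Group K) (_ : Finite K), C K)
    (G : Type) [Group G] [Finite G] :
    ∃ N : Subgroup G, N.Normal ∧ C N ∧ ∀ K : Subgroup G, K.Normal → C K → K ≤ N := by
  obtain ⟨N, ⟨hN, hCN⟩, hmax⟩ := Set.Finite.exists_maximal
    (s := {N : Subgroup G | N.Normal ∧ C N}) (Set.toFinite _)
    ⟨⊥, inferInstance, hC.triv hne _⟩
  refine ⟨N, hN, hCN, fun K hK hCK => ?_⟩
  have := hmax (y := N ⊔ K) ⟨Subgroup.sup_normal N K, hC.2.2 G N K hN hK hCN hCK⟩ le_sup_left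
  exact le_sup_right.trans this

theorem IsFit.sub (hC : IsFit C) {G : Type} [Group G] [Finite G] [Group.IsNilpotent G]
    (hG : C G) (A : Subgroup G) : C A := by
  induction A using WellFoundedGT.induction with
  | ind A ih =>
    by_cases h : A = ⊤
    · subst h
      exact hC.1 _ _ ⟨Subgroup.topEquiv.symm⟩ hG
    · have h1 := Group.normalizerCondition_of_isNilpotent (G := G) A (lt_top_iff_ne_top.2 h)
      exact hC.down h1.le Subgroup.normal_in_normalizer (ih _ h1)

theorem IsFit.max_normal (hC : IsFit C) {G : Type} [Group G] [Finite G] [Group.IsNilpotent G]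
    (A : Subgroup G) (hA : C A) (hmax : ∀ B : Subgroup G, C B → A ≤ B → B ≤ A) : A.Normal := by
  by_contra hn
  have h0 : Subgroup.normalizer (A : Set G) < ⊤ := by
    rw [lt_top_iff_ne_top]
    intro h
    exact hn (Subgroup.normalizer_eq_top_iff.1 h)
  obtain ⟨g, hg, hg'⟩ := SetLike.exists_of_lt
    (Group.normalizerCondition_of_isNilpotent (G := G) _ h0)
  set N := Subgroup.normalizer (A : Set G) with hN
  let A' : Subgroup G := A.map (MulAut.conj g).toMonoidHom
  have hA' : C A' := hC.1 _ _ ⟨A.equivMapOfInjective _ (MulAut.conj g).injective⟩ hA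
  have hle : A ≤ N := Subgroup.le_normalizer
  have hgN := Subgroup.mem_normalizer_iff.1 hg
  have hle' : A' ≤ N := by
    rintro _ ⟨a, ha, rfl⟩
    exact (hgN a).1 (hle ha)
  have hn' : (A'.subgroupOf N).Normal := by
    constructor
    rintro ⟨_, hx⟩ ⟨a, ha, rfl⟩ ⟨n, hn⟩
    have h1 : g⁻¹ * n * g ∈ N := by
      rw [hgN]
      simpa [mul_assoc] using hn
    refine ⟨(g⁻¹ * n * g) * a * (g⁻¹ * n * g)⁻¹, (Subgroup.mem_normalizer_iff.1 h1 a).1 ha, ?_⟩
    simp [mul_assoc]
  have h2 := hmax _ (hC.join hle hle' Subgroup.normal_in_normalizer hn' hA hA') le_sup_left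
  have h3 : A' ≤ A := le_sup_right.trans h2
  have h4 : A' = A := by
    apply Subgroup.eq_of_le_of_card_ge h3
    exact (Nat.card_congr (A.equivMapOfInjective _ (MulAut.conj g).injective).toEquiv).le
  apply hg'
  rw [hN, Subgroup.mem_normalizer_iff_map_conj_eq]
  exact h4

theorem IsFit.top (hC : IsFit C) {G : Type} [Group G] [Finite G] [Group.IsNilpotent G]
    (hne : ∃ (K : Type) (_ : Group K) (_ : Finite K), C K) :
    ∃ R : Subgroup G, C R ∧ ∀ A : Subgroup G, C A → A ≤ R := by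
  obtain ⟨N, hN, hCN, hmax⟩ := hC.radical hne G
  refine ⟨N, hCN, fun A hA => ?_⟩
  obtain ⟨B, hAB, hB, hBmax⟩ := Set.Finite.exists_le_maximal
    (s := {B : Subgroup G | C B}) (Set.toFinite _) hA
  exact hAB.trans (hmax B (hC.max_normal B hB fun B' h1 h2 => hBmax h1 h2) hB)

theorem IsFit.wreath (hC : IsFit C) (p : ℕ) [Fact p.Prime] (D Q : Type) [Group D] [Group Q]
    [Finite D] [Finite Q] (hD : IsPGroup p D) (hQ : IsPGroup p Q) (hCD : C D) (hCQ : C Q) :
    IsPGroup p (D ≀ᵣ Q) ∧ C (D ≀ᵣ Q) := by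
  classical
  have hW : IsPGroup p (D ≀ᵣ Q) := by
    obtain ⟨a, ha⟩ := IsPGroup.iff_card.1 hD
    obtain ⟨b, hb⟩ := IsPGroup.iff_card.1 hQ
    refine IsPGroup.iff_card.2 ⟨a * p ^ b + b, ?_⟩
    rw [RegularWreathProduct.card, ha, hb, ← pow_mul, ← pow_add]
  refine ⟨hW, ?_⟩
  have := hW.isNilpotent
  obtain ⟨R, hR, hmax⟩ := hC.top (G := D ≀ᵣ Q) ⟨D, _, inferInstance, hCD⟩
  let base : (Q → D) →* D ≀ᵣ Q :=
    { toFun := fun f => ⟨f, 1⟩
      map_one' := rfl
      map_mul' := fun f g => by ext <;> simp }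
  have hbase : Function.Injective base := fun f g h => congrArg RegularWreathProduct.left h
  have h1 : ∀ f, base f ∈ R := by
    intro f
    have : (⊤ : Subgroup (Q → D)) ≤ R.comap base := by
      rw [← Subgroup.pi_top Set.univ, Subgroup.pi_le_iff]
      intro q
      rintro _ ⟨d, -, rfl⟩
      have hi : Function.Injective (base.comp (MonoidHom.mulSingle (fun _ : Q => D) q)) :=
        hbase.comp (Pi.mulSingle_injective (M := fun _ : Q => D) q)
      exact hmax _ (hC.1 _ _ ⟨MonoidHom.ofInjective hi⟩ hCD) ⟨d, rfl⟩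
    exact this (Subgroup.mem_top f)
  have h2 : ∀ q : Q, (RegularWreathProduct.inl q : D ≀ᵣ Q) ∈ R := by
    intro q
    have hi : Function.Injective (RegularWreathProduct.inl : Q →* D ≀ᵣ Q) :=
      fun a b h => congrArg RegularWreathProduct.right h
    exact hmax _ (hC.1 _ _ ⟨MonoidHom.ofInjective hi⟩ hCQ) ⟨q, rfl⟩
  have h3 : R = ⊤ := by
    rw [eq_top_iff]
    intro w _
    have : w = base w.left * RegularWreathProduct.inl w.right := by
      ext <;> simp [base]
    rw [this]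
    exact mul_mem (h1 _) (h2 _)
  subst h3
  exact hC.1 _ _ ⟨Subgroup.topEquiv⟩ hR

theorem IsFit.pgroup (hC : IsFit C) (p : ℕ) [Fact p.Prime] (Q : Type) [Group Q] [Finite Q]
    (hQ : Nat.card Q = p) (hCQ : C Q) (P : Type) [Group P] [Finite P] (hP : IsPGroup p P) :
    C P := by
  have hQ' : IsPGroup p Q := IsPGroup.of_card (n := 1) (by simpa using hQ)
  have hW : ∀ n, IsPGroup p (IteratedWreathProduct Q n) ∧ C (IteratedWreathProduct Q n) := by
    intro n
    induction n with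
    | zero =>
      have : Subsingleton (IteratedWreathProduct Q 0) := inferInstanceAs (Subsingleton PUnit)
      exact ⟨fun g => ⟨0, Subsingleton.elim _ _⟩, hC.triv ⟨Q, _, inferInstance, hCQ⟩ _⟩
    | succ n ih => exact hC.wreath p _ Q ih.1 hQ' ih.2 hCQ
  obtain ⟨n, hn⟩ := IsPGroup.iff_card.1 hP
  have hi : Function.Injective (MulAction.toPermHom P P) := MulAction.toPerm_injective
  have h1 : IsPGroup p (MulAction.toPermHom P P).range :=
    hP.of_equiv (MonoidHom.ofInjective hi)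
  obtain ⟨S, hS⟩ := h1.exists_le_sylow
  have h2 : C S := hC.1 _ _ ⟨(Sylow.mulEquivIteratedWreathProduct p n P hn Q hQ S).symm⟩ (hW n).2
  have := S.isPGroup'.isNilpotent
  have h3 := hC.sub h2 ((MulAction.toPermHom P P).range.subgroupOf S)
  exact hC.1 _ _ ⟨(Subgroup.subgroupOfEquivOfLe hS).trans (MonoidHom.ofInjective hi).symm⟩ h3

end Pool.Agent.Lib.H8.FitP
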