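import Mathlib
import Pool.Agent.Lib.H8.FitP

/-! The class of 3-by-2 groups, and the subclass where the centre of the Sylow 3-subgroup is
central. -/

set_option autoImplicit false

namespace Pool.Agent.Lib.H8.FitZ

open Pool.Agent.Lib.H8.FitP

def E3 {G : Type} [Group G] (x : G) : Prop := ∃ k : ℕ, x ^ 3 ^ k = 1

def FF : Cls := fun G _ =>
  ∃ P : Subgroup G, P.Normal ∧ (∀ x ∈ P, E3 x) ∧ ∀ g : G, ∃ k : ℕ, g ^ 2 ^ k ∈ P

def HH : Cls := fun G _ =>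
  FF G ∧ ∀ z : G, E3 z → (∀ x : G, E3 x → x * z = z * x) → ∀ g : G, g * z = z * g

def MM : Cls := fun G _ => IsPGroup 3 G

section
variable {G K : Type} [Group G] [Group K]

theorem mem_of_coprime (S : Subgroup G) {g : G} {a b : ℕ} (h : Nat.Coprime a b)
    (ha : g ^ a ∈ S) (hb : g ^ b ∈ S) : g ∈ S := by
  obtain ⟨x, y, hxy⟩ := Nat.isCoprime_iff_coprime.2 h
  have : g = (g ^ a) ^ x * (g ^ b) ^ y := by
    rw [← zpow_natCast, ← zpow_natCast, ← zpow_mul, ← zpow_mul, ← zpow_add, mul_comm (a : ℤ),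
      mul_comm (b : ℤ), hxy, zpow_one]
  rw [this]
  exact mul_mem (zpow_mem ha x) (zpow_mem hb y)

theorem cop (k l : ℕ) : Nat.Coprime (2 ^ k) (3 ^ l) := Nat.Coprime.pow _ _ (by norm_num)

theorem mem_of_E3 (S : Subgroup G) {g : G} (h : E3 g) (h2 : ∃ k : ℕ, g ^ 2 ^ k ∈ S) : g ∈ S := by
  obtain ⟨l, hl⟩ := h
  obtain ⟨k, hk⟩ := h2
  exact mem_of_coprime S (cop k l) hk (hl ▸ S.one_mem)

theorem E3.map {x : G} (h : E3 x) (φ : G →* K) : E3 (φ x) := by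
  obtain ⟨k, hk⟩ := h
  exact ⟨k, by rw [← map_pow, hk, map_one]⟩

theorem E3.of_map {x : G} (φ : G →* K) (hφ : Function.Injective φ) (h : E3 (φ x)) : E3 x := by
  obtain ⟨k, hk⟩ := h
  exact ⟨k, hφ (by rw [map_pow, hk, map_one])⟩

theorem E3.conj {x : G} (h : E3 x) (g : G) : E3 (g * x * g⁻¹) := h.map (MulAut.conj g).toMonoidHom

theorem pg {P : Subgroup G} (h : ∀ x ∈ P, E3 x) : IsPGroup 3 P := fun x =>
  E3.of_map P.subtype P.subtype_injective (h x.1 x.2)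

theorem pg' {P : Subgroup G} (h : IsPGroup 3 P) : ∀ x ∈ P, E3 x := fun x hx =>
  E3.map (x := (⟨x, hx⟩ : P)) (h _) P.subtype

theorem FF.comap (φ : K →* G) (hφ : Function.Injective φ) (h : FF G) : FF K := by
  obtain ⟨P, hP, h1, h2⟩ := h
  refine ⟨P.comap φ, inferInstance, fun x hx => E3.of_map φ hφ (h1 _ hx), fun g => ?_⟩
  obtain ⟨k, hk⟩ := h2 (φ g)
  exact ⟨k, by rwa [Subgroup.mem_comap, map_pow]⟩

theorem FF.map (φ : G →* K) (hφ : Function.Surjective φ) (h : FF G) : FF K := by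
  obtain ⟨P, hP, h1, h2⟩ := h
  refine ⟨P.map φ, hP.map φ hφ, ?_, fun g => ?_⟩
  · rintro _ ⟨x, hx, rfl⟩
    exact (h1 x hx).map φ
  · obtain ⟨g, rfl⟩ := hφ g
    obtain ⟨k, hk⟩ := h2 g
    exact ⟨k, _, hk, map_pow _ _ _⟩

theorem FF.ext (N : Subgroup G) [N.Normal] (hN : IsPGroup 3 N) (P : Subgroup (G ⧸ N))
    (hP : P.Normal) (h1 : ∀ x ∈ P, E3 x) (h2 : ∀ g : G ⧸ N, ∃ k : ℕ, g ^ 2 ^ k ∈ P) : FF G := by
  refine ⟨P.comap (QuotientGroup.mk' N), inferInstance, fun x hx => ?_, fun g => ?_⟩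
  · obtain ⟨k, hk⟩ := h1 _ hx
    rw [← map_pow, QuotientGroup.mk'_apply, QuotientGroup.eq_one_iff] at hk
    obtain ⟨l, hl⟩ := pg' hN _ hk
    exact ⟨k + l, by rw [pow_add, pow_mul, hl]⟩
  · obtain ⟨k, hk⟩ := h2 (QuotientGroup.mk' N g)
    exact ⟨k, by rwa [Subgroup.mem_comap, map_pow]⟩

theorem HH.iso (e : G ≃* K) (h : HH G) : HH K := by
  refine ⟨h.1.map e.toMonoidHom e.surjective, fun z hz hc g => ?_⟩
  obtain ⟨z, rfl⟩ := e.surjective z
  obtain ⟨g, rfl⟩ := e.surjective g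
  rw [← map_mul, ← map_mul, h.2 z (E3.of_map e.toMonoidHom e.injective hz)]
  intro x hx
  apply e.injective
  rw [map_mul, map_mul]
  exact hc _ (hx.map e.toMonoidHom)

theorem comm_trivial {z n : G} {k : ℕ} (hn : n ^ 2 ^ k = 1) (hb : E3 (z * n * z⁻¹ * n⁻¹))
    (hc : n * (z * n * z⁻¹ * n⁻¹) = (z * n * z⁻¹ * n⁻¹) * n) : n * z = z * n := by
  have h1 : (z * n * z⁻¹) ^ 2 ^ k = 1 := by rw [conj_pow, hn]; group
  have h2 : z * n * z⁻¹ = (z * n * z⁻¹ * n⁻¹) * n := by group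
  have h3 : Commute (z * n * z⁻¹ * n⁻¹) n := hc.symm
  rw [h2, h3.mul_pow, hn, mul_one] at h1
  have h4 := mem_of_E3 ⊥ hb ⟨k, h1⟩
  rw [Subgroup.mem_bot] at h4
  calc n * z = (z * n * z⁻¹ * n⁻¹) * (n * z) := by rw [h4, one_mul]
    _ = z * n := by group

/-- the centraliser of the 3-elements of `N` -/
def cen (N : Subgroup G) : Subgroup G := Subgroup.centralizer {r | r ∈ N ∧ E3 r}

theorem cen_normal (N : Subgroup G) (hN : N.Normal) : (cen N).Normal := by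
  constructor
  intro a ha g r hr
  have := ha (g⁻¹ * r * g⁻¹⁻¹) ⟨hN.conj_mem _ hr.1 _, hr.2.conj _⟩
  calc r * (g * a * g⁻¹) = g * (g⁻¹ * r * g⁻¹⁻¹ * a) * g⁻¹ := by group
    _ = g * a * g⁻¹ * r := by rw [this]; group

theorem reduce {N : Subgroup G} (hF : FF N) {z : G} (hz : z ∈ cen N)
    (h2 : ∀ n ∈ N, ∀ k : ℕ, n ^ 2 ^ k = 1 → n * z = z * n) : ∀ n ∈ N, n * z = z * n := by
  intro n hn
  obtain ⟨P, -, h1, h3⟩ := hF
  obtain ⟨k, hk⟩ := h3 ⟨n, hn⟩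
  have h4 : E3 (n ^ 2 ^ k) := (h1 _ hk).map N.subtype
  have h5 := h4
  obtain ⟨l, hl⟩ := h5
  have : n ∈ Subgroup.centralizer {z} := by
    refine mem_of_coprime _ (cop k l) ?_ ?_
    · rintro _ rfl
      exact (hz _ ⟨pow_mem hn _, h4⟩).symm
    · rintro _ rfl
      exact (h2 _ (pow_mem hn _) k (by rw [← pow_mul, mul_comm, pow_mul, hl])).symm
  exact (this z rfl).symm

theorem HH.normal [Finite G] (N : Subgroup G) (hN : N.Normal) (h : HH G) : HH N := by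
  have hFN : FF N := h.1.comap N.subtype N.subtype_injective
  obtain ⟨⟨P, hP, h1, h2⟩, hZ⟩ := h
  have hmem : ∀ x, E3 x → x ∈ P := fun x hx => mem_of_E3 P hx (h2 x)
  have hc := cen_normal N hN
  have : Fact (Nat.Prime 3) := ⟨by norm_num⟩
  obtain ⟨m, hm⟩ := (pg h1).isNilpotent.nilpotent'
  have key : ∀ (i : ℕ) (a : P), a ∈ Subgroup.upperCentralSeries P i → a.1 ∈ N → a.1 ∈ cen N →
      ∀ n ∈ N, n * a.1 = a.1 * n := by
    intro i
    induction i with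
    | zero =>
      intro a ha _ _ n _
      rw [Subgroup.upperCentralSeries_zero, Subgroup.mem_bot] at ha
      simp [ha]
    | succ i ih =>
      rintro ⟨a, haP⟩ ha haN haC
      refine reduce hFN haC fun n hn k hk => ?_
      have hbP : a * n * a⁻¹ * n⁻¹ ∈ P := by
        have := mul_mem haP (hP.conj_mem _ (inv_mem haP) n)
        simpa only [mul_assoc] using this
      refine comm_trivial hk (h1 _ hbP) (hZ _ (h1 _ hbP) (fun x hx => ?_) n)
      have hxP := hmem x hx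
      have c1 := ih _ (Subgroup.mem_upperCentralSeries_succ_iff.1 ha ⟨x, hxP⟩)
        (by
          have := mul_mem haN (hN.conj_mem _ (inv_mem haN) x)
          change a * x * a⁻¹ * x⁻¹ ∈ N
          simpa only [mul_assoc] using this)
        (by
          have := mul_mem haC (hc.conj_mem _ (inv_mem haC) x)
          change a * x * a⁻¹ * x⁻¹ ∈ cen N
          simpa only [mul_assoc] using this)
      replace c1 : ∀ n ∈ N, n * (a * x * a⁻¹ * x⁻¹) = (a * x * a⁻¹ * x⁻¹) * n := c1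
      have hr : x * n * x⁻¹ * n⁻¹ ∈ N ∧ E3 (x * n * x⁻¹ * n⁻¹) := by
        refine ⟨mul_mem (hN.conj_mem _ hn x) (inv_mem hn), h1 _ ?_⟩
        have := mul_mem hxP (hP.conj_mem _ (inv_mem hxP) n)
        simpa only [mul_assoc] using this
      have c2 : (x * n * x⁻¹ * n⁻¹) * a = a * (x * n * x⁻¹ * n⁻¹) := haC _ hr
      have c3 : (x * n * x⁻¹ * n⁻¹) * (n * a⁻¹ * n⁻¹) = (n * a⁻¹ * n⁻¹) * (x * n * x⁻¹ * n⁻¹) :=
        hc.conj_mem _ (inv_mem haC) n _ hr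
      have c4 := c1 (a * (x * n * x⁻¹ * n⁻¹) * n * a⁻¹)
        (mul_mem (mul_mem (mul_mem haN hr.1) hn) (inv_mem haN))
      generalize hc' : a * x * a⁻¹ * x⁻¹ = c at c4
      generalize hr' : x * n * x⁻¹ * n⁻¹ = r at c2 c3 c4
      calc x * (a * n * a⁻¹ * n⁻¹)
          = c⁻¹ * ((a * r * n * a⁻¹) * c) * n⁻¹ * r⁻¹ * x := by rw [← hc', ← hr']; group
        _ = a * (r * (n * a⁻¹ * n⁻¹)) * r⁻¹ * x := by rw [c4]; group
        _ = a * n * a⁻¹ * n⁻¹ * x := by rw [c3]; group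
  refine ⟨hFN, fun z hz hzc g => Subtype.ext ?_⟩
  have hz' : E3 z.1 := hz.map N.subtype
  refine key m ⟨z.1, hmem _ hz'⟩ (hm ▸ Subgroup.mem_top _) z.2 (fun r hr => ?_) g.1 g.2
  exact congrArg Subtype.val (hzc ⟨r, hr.1⟩ (E3.of_map N.subtype N.subtype_injective hr.2))

theorem part3 (N : Subgroup G) (hN : N.Normal) (h : FF N) :
    ∃ P : Subgroup G, P.Normal ∧ IsPGroup 3 P ∧ ∀ g ∈ N, ∃ k : ℕ, g ^ 2 ^ k ∈ P := by
  obtain ⟨P, -, h1, h2⟩ := h
  refine ⟨P.map N.subtype, ⟨?_⟩, pg ?_, fun g hg => ?_⟩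
  · rintro _ ⟨x, hx, rfl⟩ g
    refine ⟨⟨_, hN.conj_mem _ x.2 g⟩, mem_of_E3 P ?_ (h2 _), rfl⟩
    exact E3.of_map N.subtype N.subtype_injective (((h1 x hx).map N.subtype).conj g)
  · rintro _ ⟨x, hx, rfl⟩
    exact (h1 x hx).map _
  · obtain ⟨k, hk⟩ := h2 ⟨g, hg⟩
    exact ⟨k, _, hk, rfl⟩

theorem FF.join (N L : Subgroup G) (hN : N.Normal) (hL : L.Normal) (h : N ⊔ L = ⊤)
    (h1 : FF N) (h2 : FF L) : FF G := by
  obtain ⟨P, hP, p1, p2⟩ := part3 N hN h1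
  obtain ⟨Q, hQ, q1, q2⟩ := part3 L hL h2
  have hs : Function.Surjective (QuotientGroup.mk' (P ⊔ Q)) := QuotientGroup.mk'_surjective _
  have aux : ∀ (A B : Subgroup G), B ≤ P ⊔ Q → (∀ g ∈ A, ∃ k : ℕ, g ^ 2 ^ k ∈ B) →
      IsPGroup 2 (A.map (QuotientGroup.mk' (P ⊔ Q))) := by
    rintro A B hB hA ⟨_, g, hg, rfl⟩
    obtain ⟨k, hk⟩ := hA g hg
    refine ⟨k, Subtype.ext ?_⟩
    change (QuotientGroup.mk' (P ⊔ Q) g) ^ 2 ^ k = 1
    rw [← map_pow, QuotientGroup.mk'_apply, QuotientGroup.eq_one_iff]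
    exact hB hk
  have := hL.map _ hs
  have h3 := (aux N P le_sup_left p2).to_sup_of_normal_right (aux L Q le_sup_right q2)
  rw [← Subgroup.map_sup, h] at h3
  refine ⟨P ⊔ Q, inferInstance, pg' (p1.to_sup_of_normal_right q1), fun g => ?_⟩
  obtain ⟨k, hk⟩ := h3 ⟨_, g, Subgroup.mem_top g, rfl⟩
  have hk' : (QuotientGroup.mk' (P ⊔ Q) g) ^ 2 ^ k = 1 := congrArg Subtype.val hk
  rw [← map_pow, QuotientGroup.mk'_apply, QuotientGroup.eq_one_iff] at hk'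
  exact ⟨k, hk'⟩

theorem half (N : Subgroup G) (hN : N.Normal) (h1 : HH N) {z : G} (hz : E3 z)
    (hc : z ∈ cen (⊤ : Subgroup G)) : N ≤ Subgroup.centralizer {z} := by
  have hcn := cen_normal (⊤ : Subgroup G) inferInstance
  have := reduce h1.1 (z := z) (fun r hr => hc r ⟨trivial, hr.2⟩) fun n hn k hk => by
    have hb : z * n * z⁻¹ * n⁻¹ ∈ cen (⊤ : Subgroup G) := by
      have := mul_mem hc (hcn.conj_mem _ (inv_mem hc) n)
      simpa only [mul_assoc] using this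
    have hbN : z * n * z⁻¹ * n⁻¹ ∈ N := mul_mem (hN.conj_mem _ hn z) (inv_mem hn)
    have hE : E3 (z * n * z⁻¹ * n⁻¹) := by
      have h3 : Commute (n * z * n⁻¹) z := hc _ ⟨trivial, hz.conj n⟩
      obtain ⟨l, hl⟩ := hz
      refine ⟨l, ?_⟩
      have h4 : z * n * z⁻¹ * n⁻¹ = z * (n * z * n⁻¹)⁻¹ := by group
      rw [h4, h3.symm.inv_right.mul_pow, hl, inv_pow, conj_pow, hl]
      group
    refine comm_trivial hk hE ?_
    exact congrArg Subtype.val (h1.2 ⟨_, hbN⟩ (E3.of_map N.subtype N.subtype_injective hE)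
      (fun x hx => Subtype.ext (hb x.1 ⟨trivial, hx.map N.subtype⟩)) ⟨n, hn⟩)
  rintro n hn _ rfl
  exact (this n hn).symm

theorem HH.join (N L : Subgroup G) (hN : N.Normal) (hL : L.Normal) (h : N ⊔ L = ⊤)
    (h1 : HH N) (h2 : HH L) : HH G := by
  refine ⟨FF.join N L hN hL h h1.1 h2.1, fun z hz hc g => ?_⟩
  have hc' : z ∈ cen (⊤ : Subgroup G) := fun r hr => hc r hr.2
  have := sup_le (half N hN h1 hz hc') (half L hL h2 hz hc')
  rw [h] at this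
  exact (this (Subgroup.mem_top g) z rfl).symm

end

theorem fit_HH : IsFit HH := by
  refine ⟨fun G K _ _ ⟨e⟩ h => h.iso e, fun G _ _ N hN h => h.normal N hN,
    fun G _ _ N K hN hK h1 h2 => ?_⟩
  refine HH.join (N.subgroupOf (N ⊔ K)) (K.subgroupOf (N ⊔ K)) (hN.subgroupOf _)
    (hK.subgroupOf _) ?_ (h1.iso (Subgroup.subgroupOfEquivOfLe le_sup_left).symm)
    (h2.iso (Subgroup.subgroupOfEquivOfLe le_sup_right).symm)
  rw [← Subgroup.subgroupOf_sup le_sup_left le_sup_right, Subgroup.subgroupOf_self]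

theorem fit_MM : IsFit MM :=
  ⟨fun _ _ _ _ ⟨e⟩ h => IsPGroup.of_equiv h e, fun _ _ _ N _ h => IsPGroup.to_subgroup h N,
    fun _ _ _ _ _ _ _ h1 h2 => IsPGroup.to_sup_of_normal_right h1 h2⟩

def PProd (C D : Cls) (G : Type) [Group G] : Prop :=
  ∀ (N : Subgroup G) [N.Normal],
    (C ↥N ∧ ∀ K : Subgroup G, K.Normal → C ↥K → K ≤ N) → D (G ⧸ N)

def Cl (p : ℕ) : Cls := fun (Q : Type) [Group Q] =>
  ∃ P : Subgroup Q, P.Normal ∧ IsPGroup p ↥P ∧ Nat.Coprime P.index p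

def IsLoc (C : Cls) : Prop :=
  ∃ f : ℕ → Cls, (∀ p, IsFit (f p)) ∧
    ∀ (G : Type) [Group G] [Finite G], C G ↔
      ((∀ p : ℕ, p.Prime → p ∣ Nat.card G →
          ∃ (K : Type) (_ : Group K) (_ : Finite K), f p K) ∧
       ∀ p : ℕ, p.Prime → (∃ (K : Type) (_ : Group K) (_ : Finite K), f p K) →
         PProd (f p) (Cl p) G)

section
variable {G : Type} [Group G] [Finite G]

theorem FF.primes (h : FF G) {p : ℕ} (hp : p.Prime) (hd : p ∣ Nat.card G) : p = 2 ∨ p = 3 := by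
  have : Fact p.Prime := ⟨hp⟩
  obtain ⟨g, hg⟩ := exists_prime_orderOf_dvd_card' p hd
  obtain ⟨P, -, h1, h2⟩ := h
  obtain ⟨k, hk⟩ := h2 g
  obtain ⟨l, hl⟩ := h1 _ hk
  rw [← pow_mul, ← orderOf_dvd_iff_pow_eq_one, hg, hp.dvd_mul] at hl
  rcases hl with h | h
  · exact Or.inl ((Nat.prime_dvd_prime_iff_eq hp Nat.prime_two).1 (hp.dvd_of_dvd_pow h))
  · exact Or.inr ((Nat.prime_dvd_prime_iff_eq hp Nat.prime_three).1 (hp.dvd_of_dvd_pow h))

omit [Finite G] in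
theorem quot2 (P N : Subgroup G) [N.Normal] (h : P ≤ N) (h2 : ∀ g : G, ∃ k : ℕ, g ^ 2 ^ k ∈ P) :
    IsPGroup 2 (G ⧸ N) := by
  intro g
  obtain ⟨g, rfl⟩ := QuotientGroup.mk'_surjective N g
  obtain ⟨k, hk⟩ := h2 g
  refine ⟨k, ?_⟩
  rw [← map_pow, QuotientGroup.mk'_apply, QuotientGroup.eq_one_iff]
  exact h hk

theorem FF.cl3 (h : FF G) : Cl 3 G := by
  obtain ⟨P, hP, h1, h2⟩ := h
  refine ⟨P, hP, pg h1, ?_⟩
  obtain ⟨k, hk⟩ := IsPGroup.iff_card.1 (quot2 P P le_rfl h2)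
  rw [Subgroup.index_eq_card, hk]
  exact cop k 1

omit [Finite G] in
theorem cl2 (h : IsPGroup 2 G) : Cl 2 G :=
  ⟨⊤, inferInstance, h.to_subgroup ⊤, by simp⟩

theorem FF.solv (h : FF G) : Group.IsSolvable G := by
  obtain ⟨P, hP, h1, h2⟩ := h
  have : Fact (Nat.Prime 3) := ⟨by norm_num⟩
  have := (pg h1).isNilpotent
  have := (quot2 P P le_rfl h2).isNilpotent
  exact Group.isSolvable_of_ker_le_range P.subtype (QuotientGroup.mk' P) (by simp)

theorem FF.prod : FF G ↔ PProd MM HH G := by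
  constructor
  · intro h N _ hN
    refine ⟨h.map _ (QuotientGroup.mk'_surjective N), fun z hz _ g => ?_⟩
    obtain ⟨P, hP, h1, h2⟩ := h
    have := mem_of_E3 ⊥ hz (quot2 P N (hN.2 P hP (pg h1)) h2 z)
    rw [Subgroup.mem_bot] at this
    simp [this]
  · intro h
    obtain ⟨N, hN, h1, h2⟩ := fit_MM.radical ⟨PUnit, inferInstance, inferInstance, fun _ => ⟨0, rfl⟩⟩ G
    obtain ⟨⟨P, hP, h3, h4⟩, -⟩ := h N ⟨h1, h2⟩
    exact FF.ext N h1 P hP h3 h4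

end

theorem loc_FF : IsLoc FF := by
  have hne : ∀ p : ℕ, p = 2 ∨ p = 3 →
      ∃ (K : Type) (_ : Group K) (_ : Finite K), (p = 2 ∨ p = 3) ∧ IsPGroup 3 K :=
    fun p hp => ⟨PUnit, inferInstance, inferInstance, hp, fun _ => ⟨0, rfl⟩⟩
  have hfit : ∀ p : ℕ, IsFit (fun G _ => (p = 2 ∨ p = 3) ∧ IsPGroup 3 G) := fun p =>
    ⟨fun G K _ _ e h => ⟨h.1, fit_MM.1 G K e h.2⟩,
      fun G _ _ N hN h => ⟨h.1, fit_MM.2.1 G N hN h.2⟩,
      fun G _ _ N K hN hK h1 h2 => ⟨h1.1, fit_MM.2.2 G N K hN hK h1.2 h2.2⟩⟩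
  refine ⟨fun p G _ => (p = 2 ∨ p = 3) ∧ IsPGroup 3 G, hfit, fun G _ _ => ⟨fun h => ?_, ?_⟩⟩
  · refine ⟨fun p hp hd => hne p (h.primes hp hd), ?_⟩
    rintro p - ⟨-, -, -, rfl | rfl, -⟩ N _ hN
    · obtain ⟨P, hP, h1, h2⟩ := h
      exact cl2 (quot2 P N (hN.2 P hP ⟨Or.inl rfl, pg h1⟩) h2)
    · exact (h.map _ (QuotientGroup.mk'_surjective N)).cl3
  · rintro ⟨h1, h2⟩
    obtain ⟨N, hN, h3, h4⟩ := (hfit 3).radical (hne 3 (Or.inr rfl)) G
    obtain ⟨P, hP, h5, h6⟩ := h2 3 Nat.prime_three (hne 3 (Or.inr rfl)) N ⟨h3, h4⟩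
    refine FF.ext N h3.2 P hP (pg' h5) fun g => ?_
    have h7 := Nat.eq_prime_pow_of_unique_prime_dvd (p := 2) (n := P.index)
      Subgroup.FiniteIndex.index_ne_zero (fun {d} hd hdd => by
        obtain ⟨-, -, -, h | h, -⟩ := h1 d hd
          (hdd.trans (P.index_dvd_card.trans N.card_quotient_dvd_card))
        · exact h
        · subst h
          exact absurd (Nat.Coprime.eq_one_of_dvd h6.symm hdd) (by norm_num))
    exact ⟨_, h7 ▸ P.pow_index_mem g⟩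

theorem loc_sup {C : Cls} (hC : IsLoc C) (E : Type) [Group E] [Finite E] (hE : C E) (hF : FF E)
    (h6 : 6 ∣ Nat.card E) (t x : E) (ht : t ^ 2 = 1) (hx : x ^ 3 = 1) (hx1 : x ≠ 1)
    (htx : t * x * t⁻¹ * x⁻¹ = x) (G : Type) [Group G] [Finite G] (hG : FF G) : C G := by
  obtain ⟨f, hf, hC⟩ := hC
  obtain ⟨e1, e2⟩ := (hC E).1 hE
  have ne2 := e1 2 Nat.prime_two (Dvd.dvd.trans (by norm_num) h6)
  have ne3 := e1 3 Nat.prime_three (Dvd.dvd.trans (by norm_num) h6)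
  have : Fact (Nat.Prime 3) := ⟨by norm_num⟩
  have all3 : ∀ (P : Type) [Group P] [Finite P], IsPGroup 3 P → f 2 P := by
    obtain ⟨N, hN, h3, h4⟩ := (hf 2).radical ne2 E
    obtain ⟨Q, hQ, h5, h7⟩ := e2 2 Nat.prime_two ne2 N ⟨h3, h4⟩
    have a1 : QuotientGroup.mk' N t ∈ Q :=
      mem_of_coprime Q h7 (Q.pow_index_mem _) (by rw [← map_pow, ht, map_one]; exact Q.one_mem)
    have a2 : QuotientGroup.mk' N x ∈ Q := by
      have := mul_mem a1 (hQ.conj_mem _ (inv_mem a1) (QuotientGroup.mk' N x))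
      rw [← htx]
      simpa only [map_mul, map_inv, mul_assoc, htx] using this
    have a3 : QuotientGroup.mk' N x ∈ (⊥ : Subgroup (E ⧸ N)) := by
      obtain ⟨k, hk⟩ := h5 ⟨_, a2⟩
      exact mem_of_E3 ⊥ (E3.map ⟨1, by simpa using hx⟩ _) ⟨k, congrArg Subtype.val hk⟩
    rw [Subgroup.mem_bot, QuotientGroup.mk'_apply, QuotientGroup.eq_one_iff] at a3
    obtain ⟨P, hP, h1, h2⟩ := hF
    have a4 : x ∈ P ⊓ N := ⟨mem_of_E3 P ⟨1, by simpa using hx⟩ (h2 x), a3⟩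
    have a5 : f 2 ↥(P ⊓ N) := (hf 2).down inf_le_right (Subgroup.Normal.subgroupOf inferInstance _) h3
    have := (pg (P := P ⊓ N) fun y hy => h1 y hy.1).isNilpotent
    have a6 := (hf 2).sub a5 (Subgroup.zpowers ⟨x, a4⟩)
    refine (hf 2).pgroup 3 _ ?_ a6
    rw [Nat.card_zpowers]
    exact orderOf_eq_prime (Subtype.ext hx) (fun h => hx1 (congrArg Subtype.val h))
  refine (hC G).2 ⟨fun p hp hd => ?_, fun p hp _ N _ hN => ?_⟩
  · rcases hG.primes hp hd with rfl | rfl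
    · exact ne2
    · exact ne3
  · by_cases h2 : p = 2
    · subst h2
      obtain ⟨P, hP, h1, h2⟩ := hG
      exact cl2 (quot2 P N (hN.2 P hP (all3 P (pg h1))) h2)
    by_cases h3 : p = 3
    · subst h3
      exact (hG.map _ (QuotientGroup.mk'_surjective N)).cl3
    refine ⟨⊥, inferInstance, IsPGroup.of_bot, ?_⟩
    rw [Subgroup.index_bot]
    refine ((Nat.Prime.coprime_iff_not_dvd hp).2 fun hd => ?_).symm
    rcases hG.primes hp (hd.trans N.card_quotient_dvd_card) with h | h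
    · exact h2 h
    · exact h3 h

theorem FF_of_cube {G : Type} [Group G] (h1 : ∀ x y : G, x ^ 3 = 1 → y ^ 3 = 1 → (x * y) ^ 3 = 1)
    (h2 : ∀ g : G, (g ^ 2) ^ 3 = 1) : FF G ∧ ∀ x : G, E3 x ↔ x ^ 3 = 1 := by
  let P : Subgroup G :=
    { carrier := {x | x ^ 3 = 1}
      mul_mem' := fun {a b} ha hb => h1 a b ha hb
      one_mem' := one_pow 3
      inv_mem' := fun {a} ha => by
        change a⁻¹ ^ 3 = 1
        rw [inv_pow, show a ^ 3 = 1 from ha, inv_one] }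
  refine ⟨⟨P, ⟨fun a ha g => ?_⟩, fun x hx => ⟨1, hx⟩, fun g => ⟨1, h2 g⟩⟩,
    fun x => ⟨fun hx => mem_of_E3 P hx ⟨1, h2 x⟩, fun hx => ⟨1, hx⟩⟩⟩
  change (g * a * g⁻¹) ^ 3 = 1
  rw [conj_pow, show a ^ 3 = 1 from ha]
  group

/-- the group of order 54 -/
@[ext] structure E where
  a : ZMod 3
  b : ZMod 3
  c : ZMod 3
  e : Bool
  deriving DecidableEq, Fintype

def sg (e : Bool) : ZMod 3 := if e then -1 else 1

instance : Mul E :=
  ⟨fun g h => ⟨h.a + g.a * sg h.e, g.b + sg g.e * h.b, g.c + h.c + g.a * h.b, xor g.e h.e⟩⟩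
instance : One E := ⟨⟨0, 0, 0, false⟩⟩
instance : Inv E := ⟨fun g => ⟨-g.a * sg g.e, -sg g.e * g.b, -g.c + g.a * sg g.e * g.b, g.e⟩⟩

theorem mul_def (g h : E) : g * h =
    ⟨h.a + g.a * sg h.e, g.b + sg g.e * h.b, g.c + h.c + g.a * h.b, xor g.e h.e⟩ := rfl

instance : Group E := Group.ofLeftAxioms
  (by
    rintro ⟨a, b, c, e⟩ ⟨a', b', c', e'⟩ ⟨a'', b'', c'', e''⟩
    cases e <;> cases e' <;> cases e'' <;> ext <;> simp [mul_def, sg] <;> ring)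
  (by decide +kernel) (by decide +kernel)

theorem E_cube : FF E ∧ ∀ x : E, E3 x ↔ x ^ 3 = 1 :=
  FF_of_cube (by decide +kernel) (by decide +kernel)

theorem HH_E : HH E := by
  refine ⟨E_cube.1, ?_⟩
  simp only [E_cube.2]
  decide +kernel

theorem S_cube : FF (DihedralGroup 3) ∧ ∀ x : DihedralGroup 3, E3 x ↔ x ^ 3 = 1 :=
  FF_of_cube (by decide +kernel) (by decide +kernel)

theorem not_HH_S : ¬ HH (DihedralGroup 3) := by
  rintro ⟨-, h⟩
  simp only [S_cube.2] at h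
  revert h
  decide +kernel

theorem loc_E {C : Cls} (hC : IsLoc C) (hE : C E) (G : Type) [Group G] [Finite G] (hG : FF G) :
    C G :=
  loc_sup hC E hE E_cube.1 (by rw [Nat.card_eq_fintype_card]; decide +kernel)
    ⟨0, 0, 0, true⟩ ⟨1, 0, 0, false⟩ (by decide +kernel) (by decide +kernel) (by decide +kernel)
    (by decide +kernel) G hG

theorem not_MM_E : ¬ MM E := by
  intro h
  have := (E_cube.2 ⟨0, 0, 0, true⟩).1 (h _)
  revert this
  decide +kernel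

end Pool.Agent.Lib.H8.FitZ
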