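import Mathlib
import Pool.Agent.Lib.H8.Orc

set_option maxHeartbeats 400000

/-! Turing functionals with function oracles (coding as in helper5's `Use`), use principle,
and a fusion lemma in Baire space. -/

namespace Pool.Agent.Lib.H8.Fnl

open Nat.Partrec

/-- evaluation of a code relative to an oracle -/
def ev (O : ℕ → Part ℕ) : Code → ℕ → Part ℕ
  | .zero => O
  | .succ => fun n => Part.some (n + 1)
  | .left => fun n => Part.some (Nat.unpair n).1
  | .right => fun n => Part.some (Nat.unpair n).2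
  | .pair f h => fun n => Nat.pair <$> ev O f n <*> ev O h n
  | .comp f h => fun n => ev O h n >>= ev O f
  | .prec f h => fun p => (Nat.unpair p).2.rec (ev O f (Nat.unpair p).1) fun y IH => do
      let i ← IH
      ev O h (Nat.pair (Nat.unpair p).1 (Nat.pair y i))
  | .rfind' f => fun a => Nat.rfind fun n => (fun m => m = 0) <$> ev O f (Nat.pair a n)

lemma exists_code {O f : ℕ →. ℕ} (h : Nat.RecursiveIn {O} f) : ∃ c, ev O c = f := by
  induction h with
  | zero =>
    refine ⟨.comp .left (.comp (.rfind' .right) .succ), funext fun n => ?_⟩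
    have : (0 : ℕ) ∈ ev O (.rfind' .right) (n + 1) := Nat.mem_rfind.2 ⟨by simp [ev], by simp⟩
    exact Part.eq_some_iff.2 (Part.mem_bind_iff.2 ⟨0, Part.mem_bind_iff.2
      ⟨n + 1, Part.mem_some _, this⟩, by simp [ev]⟩)
  | succ => exact ⟨.succ, rfl⟩
  | left => exact ⟨.left, rfl⟩
  | right => exact ⟨.right, rfl⟩
  | oracle g hg => exact ⟨.zero, hg.symm⟩
  | pair _ _ a b => obtain ⟨c, rfl⟩ := a; obtain ⟨d, rfl⟩ := b; exact ⟨.pair c d, rfl⟩
  | comp _ _ a b => obtain ⟨c, rfl⟩ := a; obtain ⟨d, rfl⟩ := b; exact ⟨.comp c d, rfl⟩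
  | prec _ _ a b => obtain ⟨c, rfl⟩ := a; obtain ⟨d, rfl⟩ := b; exact ⟨.prec c d, rfl⟩
  | rfind _ a => obtain ⟨c, rfl⟩ := a; exact ⟨.rfind' c, rfl⟩

lemma ev_rec (O : ℕ →. ℕ) (c : Code) : Nat.RecursiveIn {O} (ev O c) := by
  induction c with
  | zero => exact .oracle _ rfl
  | succ => exact .succ
  | left => exact .left
  | right => exact .right
  | pair f g a b => exact .pair a b
  | comp f g a b => exact .comp a b
  | prec f g a b => exact .prec a b
  | rfind' f a => exact .rfind a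

/-- `P` holds for all oracles extending a finite part of `O` -/
def Near (O : ℕ → Part ℕ) (P : (ℕ → Part ℕ) → Prop) : Prop :=
  ∃ m, ∀ O', (∀ i < m, ∀ y ∈ O i, y ∈ O' i) → P O'

lemma Near.mono {O} {P Q : (ℕ → Part ℕ) → Prop} (h : Near O P) (e : ∀ O', P O' → Q O') :
    Near O Q := let ⟨m, hm⟩ := h; ⟨m, fun O' h' => e _ (hm O' h')⟩

lemma Near.and {O} {P Q : (ℕ → Part ℕ) → Prop} (h : Near O P) (h' : Near O Q) :
    Near O fun O' => P O' ∧ Q O' := by
  obtain ⟨m, hm⟩ := h
  obtain ⟨k, hk⟩ := h'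
  exact ⟨m + k, fun O' e => ⟨hm O' fun i hi => e i (by omega), hk O' fun i hi => e i (by omega)⟩⟩

lemma Near.ball {O} {P : ℕ → (ℕ → Part ℕ) → Prop} :
    ∀ n, (∀ m < n, Near O (P m)) → Near O fun O' => ∀ m < n, P m O'
  | 0, _ => ⟨0, fun _ _ _ h => absurd h (Nat.not_lt_zero _)⟩
  | n + 1, h => ((Near.ball n fun m hm => h m (by omega)).and (h n (by omega))).mono
      fun _ h' => Nat.forall_lt_succ_right.2 h'

theorem use (O : ℕ → Part ℕ) (c : Code) : ∀ x y, y ∈ ev O c x →
    Near O fun O' => y ∈ ev O' c x := by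
  induction c with
  | zero => exact fun x y h => ⟨x + 1, fun O' h' => h' x (by omega) y h⟩
  | succ => exact fun x y h => ⟨0, fun _ _ => h⟩
  | left => exact fun x y h => ⟨0, fun _ _ => h⟩
  | right => exact fun x y h => ⟨0, fun _ _ => h⟩
  | pair f g a b =>
    intro x y h
    simp only [ev, Seq.seq, Part.map_eq_map, Part.mem_bind_iff,
      Part.mem_map_iff] at *
    obtain ⟨_, ⟨u, hu, rfl⟩, v, hv, rfl⟩ := h
    exact ((a x u hu).and (b x v hv)).mono fun H' h' => ⟨_, ⟨u, h'.1, rfl⟩, v, h'.2, rfl⟩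
  | comp f g a b =>
    intro x y h
    simp only [ev, Part.bind_eq_bind, Part.mem_bind_iff] at *
    obtain ⟨u, hu, hv⟩ := h
    exact ((b x u hu).and (a u y hv)).mono fun H' h' => ⟨u, h'.1, h'.2⟩
  | prec f g a b =>
    intro x
    simp only [ev]
    generalize (Nat.unpair x).2 = n
    induction n with
    | zero => exact fun y h => a _ y h
    | succ n ih =>
      intro y h
      simp only [Part.bind_eq_bind, Part.mem_bind_iff] at *
      obtain ⟨u, hu, hv⟩ := h
      exact ((ih u hu).and (b _ y hv)).mono fun H' h' => ⟨u, h'.1, h'.2⟩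
  | rfind' f a =>
    intro x y h
    obtain ⟨h1, h2⟩ := Nat.mem_rfind.1 h
    obtain ⟨u, hu, e⟩ := (Part.mem_map_iff _).1 h1
    refine ((a _ u hu).and (Near.ball (P := fun m O' => ∃ v ∈ ev O' f (Nat.pair x m),
      decide (v = 0) = false) y fun m hm => ?_)).mono
      fun H' h' => Nat.mem_rfind.2 ⟨(Part.mem_map_iff _).2 ⟨u, h'.1, e⟩,
        fun {m} hm => (Part.mem_map_iff _).2 (h'.2 m hm)⟩
    obtain ⟨v, hv, e'⟩ := (Part.mem_map_iff _).1 (h2 hm)
    exact (a _ v hv).mono fun H' h' => ⟨v, h', e'⟩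

/-- use principle for total oracles, finitely many arguments -/
theorem use_tot (f : ℕ → ℕ) (c : Code) (n : ℕ) (t : ℕ → ℕ)
    (h : ∀ x < n, t x ∈ ev (PFun.lift f) c x) :
    ∃ m, ∀ f' : ℕ → ℕ, (∀ i < m, f' i = f i) → ∀ x < n, t x ∈ ev (PFun.lift f') c x := by
  obtain ⟨m, hm⟩ := Near.ball (P := fun x O' => t x ∈ ev O' c x) n fun x hx => use _ c x _ (h x hx)
  refine ⟨m, fun f' h' => hm _ fun i hi y hy => ?_⟩
  have : y = f i := by simpa [PFun.lift] using hy
  simp [PFun.lift, this, h' i hi]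

/-- fusion: nested nonempty closed sets with shrinking diameter -/
theorem fusion {β : Type} {C : ℕ → Set (ℕ → β)} (hne : ∀ j, (C j).Nonempty)
    (hnest : ∀ j, C (j + 1) ⊆ C j)
    (hsmall : ∀ j, ∀ f ∈ C j, ∀ g ∈ C j, ∀ i < j, f i = g i)
    (hcl : ∀ j f, (∀ m, ∃ g ∈ C j, ∀ i < m, g i = f i) → f ∈ C j) : ∃ f, ∀ j, f ∈ C j := by
  choose g hg using hne
  have hanti : Antitone C := antitone_nat_of_succ_le hnest
  refine ⟨fun n => g (n + 1) n, fun j => hcl j _ fun m => ⟨g (j + m), hanti (by omega) (hg _),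
    fun i hi => hsmall (i + 1) _ (hanti (by omega) (hg _)) _ (hg _) i (by omega)⟩⟩

end Pool.Agent.Lib.H8.Fnl
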