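import Mathlib

/-!
A Golod-Shafarevich count in dual form, and the resulting infinite groups.
-/

namespace Pool.Agent.Lib.H8.GS

open Module

/-- Words in eight letters. -/
abbrev Wd := List (Fin 8)

/-- The sum of `φ` over the members of `F` of length `m`. -/
def cmp (F : List Wd) (m : ℕ) (φ : Wd → ZMod 2) : ZMod 2 := ((F.filter (·.length = m)).map φ).sum

lemma cmp_add (F m) (φ ψ : Wd → ZMod 2) : cmp F m (fun w => φ w + ψ w) = cmp F m φ + cmp F m ψ :=
  List.sum_map_add

lemma cmp_mul (F m c) (φ : Wd → ZMod 2) : cmp F m (fun w => c * φ w) = c * cmp F m φ :=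
  List.sum_map_mul_left ..

lemma cmp_zero {F m} {φ : Wd → ZMod 2} (h : ∀ w, w.length = m → φ w = 0) : cmp F m φ = 0 :=
  List.sum_eq_zero fun _ u => by
    obtain ⟨w, a, rfl⟩ := List.mem_map.1 u
    exact h w (by simpa using (List.mem_filter.1 a).2)

lemma cmp_comm (F G m n) (φ : Wd → Wd → ZMod 2) :
    cmp F m (fun u => cmp G n (φ u)) = cmp G n fun v => cmp F m fun u => φ u v := by
  unfold cmp
  induction F.filter (·.length = m) with
  | nil => simp
  | cons a l ih => simp [ih, List.sum_map_add]

variable (F : ℕ → List Wd)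

/-- The functions killing the ideal generated by the homogeneous parts of the relations. -/
def M : Submodule (ZMod 2) (Wd → ZMod 2) where
  carrier := {φ | ∀ t m u v, cmp (F t) m (fun w => φ (u ++ (w ++ v))) = 0}
  zero_mem' _ _ _ _ := cmp_zero fun _ _ => rfl
  add_mem' a b t m u v := (cmp_add ..).trans (by rw [a, b, add_zero])
  smul_mem' c _ a t m u v := (cmp_mul ..).trans (by rw [a, mul_zero])

/-- The homogeneous part. -/
def K (n : ℕ) : Submodule (ZMod 2) (Wd → ZMod 2) where
  carrier := {φ | φ ∈ M F ∧ ∀ w, w.length ≠ n → φ w = 0}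
  zero_mem' := ⟨zero_mem _, fun _ _ => rfl⟩
  add_mem' a b := ⟨add_mem a.1 b.1, fun w h => by simp [a.2 w h, b.2 w h]⟩
  smul_mem' c _ a := ⟨(M F).smul_mem c a.1, fun w h => by simp [a.2 w h]⟩

instance (n : ℕ) : Finite (K F n) := by
  have := (List.finite_length_eq (Fin 8) n).to_subtype
  refine Finite.of_injective (fun (φ : K F n) (w : {w : Wd | w.length = n}) => φ.1 w) fun φ ψ h =>
    Subtype.ext (funext fun w => ?_)
  by_cases e : w.length = n
  · exact congrFun h ⟨w, e⟩
  · rw [φ.2.2 w e, ψ.2.2 w e]

/-- Assemble a function from its sections. -/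
def gl {n : ℕ} (Φ : Fin 8 → K F n) : Wd → ZMod 2
  | [] => 0
  | i :: w => (Φ i).1 w

variable {F}

lemma gl_len {n : ℕ} (Φ : Fin 8 → K F n) : ∀ w, w.length ≠ n + 1 → gl F Φ w = 0
  | [], _ => rfl
  | i :: w, h => (Φ i).2.2 w (by simpa using h)

lemma gl_rel {n : ℕ} (Φ : Fin 8 → K F n) (t m v) :
    ∀ u, u ≠ [] → cmp (F t) m (fun w => gl F Φ (u ++ (w ++ v))) = 0
  | [], h => (h rfl).elim
  | i :: u, _ => (Φ i).2.1 t m u v

lemma gl_lin {n : ℕ} : IsLinearMap (ZMod 2) (gl F (n := n)) :=
  ⟨fun _ _ => funext fun w => by cases w <;> simp [gl],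
    fun _ _ => funext fun w => by cases w <;> simp [gl]⟩

lemma step (h : ∀ t m φ, m + 7 ≤ t ∨ m ≤ 1 → cmp (F t) m φ = 0) (n : ℕ) :
    8 * finrank (ZMod 2) (K F n) ≤ finrank (ZMod 2) (K F (n + 1)) +
      ∑ i ∈ Finset.range n, (n - i + 8) * finrank (ZMod 2) (K F i) := by
  let L : (Fin 8 → K F n) →ₗ[ZMod 2] ∀ i : Fin n, Fin (n - i + 8) → K F i :=
    { toFun := fun Φ i t => ⟨fun v => cmp (F t) (n + 1 - i) fun w => gl F Φ (w ++ v),
        fun s m u v => (cmp_comm ..).trans (cmp_zero fun w a => by
          simpa using gl_rel Φ s m v (w ++ u) fun e => by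
            have := i.2; simp only [List.append_eq_nil_iff] at e; simp [e.1] at a; omega),
        fun v e => cmp_zero fun w a => gl_len Φ _ (by have := i.2; simp; omega)⟩
      map_add' := fun Φ Ψ => by
        ext i t v
        simp only [gl_lin.map_add]
        exact cmp_add ..
      map_smul' := fun c Φ => by
        ext i t v
        simp only [gl_lin.map_smul]
        exact cmp_mul .. }
  let J : LinearMap.ker L →ₗ[ZMod 2] K F (n + 1) :=
    (gl_lin.mk' _ ∘ₗ (LinearMap.ker L).subtype).codRestrict _ fun Φ => ⟨fun t m u v => by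
      by_cases e : u = []
      swap
      · exact gl_rel Φ.1 t m v u e
      by_cases a : m + v.length = n + 1
      swap
      · exact cmp_zero fun w b => gl_len _ _ (by simp [e]; omega)
      by_cases b : m + 7 ≤ t ∨ m ≤ 1
      · exact h _ _ _ b
      obtain rfl : m = n + 1 - v.length := by omega
      subst e
      exact congrArg (fun x => (x ⟨v.length, by omega⟩ ⟨t, by dsimp only; omega⟩).1 v)
        (LinearMap.mem_ker.1 Φ.2), gl_len Φ.1⟩
  have j : Function.Injective J := fun Φ Ψ e => Subtype.ext (funext fun i => Subtype.ext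
    (funext fun w => congrFun (congrArg Subtype.val e) (i :: w)))
  have a := L.finrank_range_add_finrank_ker
  have b := LinearMap.finrank_le_finrank_of_injective j
  have c := (LinearMap.range L).finrank_le
  simp only [finrank_pi_fintype, Finset.sum_const, Finset.card_univ, Fintype.card_fin,
    smul_eq_mul] at a c
  rw [Fin.sum_univ_eq_sum_range fun i => (n - i + 8) * finrank (ZMod 2) (K F i)] at c
  omega

lemma inf (h : ∀ t m φ, m + 7 ≤ t ∨ m ≤ 1 → cmp (F t) m φ = 0) : Infinite (M F) := by
  have k : ∀ n, 0 < finrank (ZMod 2) (K F n) ∧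
      2 * ∑ i ∈ Finset.range n, finrank (ZMod 2) (K F i) ≤ finrank (ZMod 2) (K F n) ∧
      ∑ i ∈ Finset.range n, (n - i + 8) * finrank (ZMod 2) (K F i) ≤
        5 * finrank (ZMod 2) (K F n) := fun n => by
    induction n with
    | zero =>
      refine ⟨finrank_pos_iff_exists_ne_zero.2 ⟨⟨fun w => if w = [] then 1 else 0,
        fun t m u v => ?_, fun w e => if_neg (by simpa using e)⟩,
        fun e => by simpa using congrFun (congrArg Subtype.val e) []⟩, by simp, by simp⟩
      by_cases b : m ≤ 1
      · exact h _ _ _ (Or.inr b)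
      · exact cmp_zero fun w a => if_neg fun e => by
          simp only [List.append_eq_nil_iff] at e; simp [e.2.1] at a; omega
    | succ n ih =>
      have := step h n
      have e : ∑ i ∈ Finset.range n, (n + 1 - i + 8) * finrank (ZMod 2) (K F i) =
          ∑ i ∈ Finset.range n, (n - i + 8) * finrank (ZMod 2) (K F i) +
            ∑ i ∈ Finset.range n, finrank (ZMod 2) (K F i) := by
        rw [← Finset.sum_add_distrib]
        exact Finset.sum_congr rfl fun i u => by
          rw [Nat.sub_add_comm (Finset.mem_range.1 u).le]; ring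
      simp only [Finset.sum_range_succ, e, Nat.add_sub_cancel_left]
      omega
  choose φ p using fun n => finrank_pos_iff_exists_ne_zero.1 (k n).1
  refine .of_injective (fun n => ⟨(φ n).1, (φ n).2.1⟩) fun m n e => by_contra fun a =>
    p m (Subtype.ext (funext fun w => ?_))
  by_cases b : w.length = m
  · exact (congrFun (congrArg Subtype.val e) w).trans ((φ n).2.2 w (b ▸ a))
  · exact (φ m).2.2 w b

lemma fib {β : Type} [DecidableEq β] (k : Wd → β) (φ : Wd → ZMod 2) (L : List Wd)
    (h : ∀ b, ((L.filter (k · = b)).map φ).sum = 0) : (L.map φ).sum = 0 := by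
  induction e : L.length using Nat.strong_induction_on generalizing L with | _ n ih
  rcases L with _ | ⟨a, L⟩
  · rfl
  rw [← List.sum_map_filter_add_sum_map_filter_not (k · = k a), h, zero_add]
  refine ih _ (by simpa [← e, Nat.lt_succ_iff] using List.length_filter_le _ _) _ (fun b => ?_) rfl
  rw [List.filter_filter]
  by_cases c : b = k a
  · simp [c]
  · rw [← h b, List.filter_congr fun x _ => ?_]
    by_cases d : k x = b <;> simp [d, c]

/-- The number of occurrences. -/
def ct (L : List Wd) (w : Wd) : ℕ := (L.filter (· = w)).length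

lemma cmp_even {L : List Wd} {m : ℕ} (h : ∀ w, w.length = m → ct L w % 2 = 0) (φ) :
    cmp L m φ = 0 := fib id _ _ fun w => by
  rw [List.filter_filter, List.sum_eq_card_nsmul _ (φ w) (by simp +contextual), List.length_map]
  by_cases e : w.length = m
  · rw [List.filter_congr (q := (· = w)) fun x _ => by by_cases d : x = w <;> simp [d, e],
      nsmul_eq_mul, ← ct, (ZMod.natCast_eq_zero_iff _ 2).2 (Nat.dvd_of_mod_eq_zero (h w e)), zero_mul]
  · rw [List.filter_eq_nil_iff.2 (by simp +contextual [e])]
    simp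

/-- The words `u` and `v` have the same subword counts modulo two below length `n`. -/
def Cg (n : ℕ) (u v : Wd) : Prop :=
  ∀ w ∈ u.sublists' ++ v.sublists', w.length < n → ct (u.sublists' ++ v.sublists') w % 2 = 0

theorem grp (U V : ℕ → Wd) (h : ∀ c, Cg (c + 2) (U c) (V c)) :
    ∃ (X : Type) (g : Fin 8 → Equiv.Perm X), (∀ i, g i * g i = 1) ∧
      (∀ c, ((U c).map g).prod = ((V c).map g).prod) ∧
      (Set.range fun u : Wd => (u.map g).prod).Infinite := by
  let F : ℕ → List Wd := fun t =>
    if h : t < 8 then [[⟨t, h⟩, ⟨t, h⟩]] else (U (t - 8)).sublists' ++ (V (t - 8)).sublists'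
  have := inf (F := F) fun t m φ a => by
    simp only [F]
    split_ifs with e
    · simp [cmp, show ¬ 2 = m by omega]
    · refine cmp_even (fun w b => by_contra fun c => c (h _ w ?_ (by omega))) φ
      exact by_contra fun d => c (by
        rw [ct, List.filter_eq_nil_iff.2 fun x y z => d (by simp at z; rwa [← z])]; rfl)
  let s : Fin 8 → M F → M F := fun i φ => φ + ⟨fun w => φ.1 (w ++ [i]), fun t m u v => by
    simpa using φ.2 t m u (v ++ [i])⟩
  have s2 : ∀ i, Function.Involutive (s i) := fun i φ => Subtype.ext (funext fun w => by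
    have := φ.2 i 2 w []
    simp only [F, cmp, i.2, dif_pos] at this
    simp only [s, Submodule.coe_add, Pi.add_apply]
    rw [add_assoc, ← add_assoc (φ.1 (w ++ [i])), CharTwo.add_self_eq_zero]
    simpa using this)
  have p : ∀ (u : Wd) φ w, ((u.map fun i => (s2 i).toPerm).prod φ).1 w =
      (u.sublists'.map fun m => φ.1 (w ++ m)).sum := fun u φ => by
    induction u with
    | nil => simp
    | cons i u ih => simp [s, ih, Function.comp_def]
  refine ⟨_, fun i => (s2 i).toPerm, fun i => Equiv.ext (s2 i), fun c => Equiv.ext fun φ =>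
    Subtype.ext (funext fun w => ?_), fun f => ?_⟩
  · rw [p, p, ← CharTwo.add_eq_zero, ← List.sum_append, ← List.map_append]
    exact fib List.length _ _ fun m => by simpa [F, cmp] using φ.2 (c + 8) m w []
  have := f.to_subtype
  refine not_finite_iff_infinite.2 ‹Infinite (M F)› (Finite.of_injective (fun φ (x : Set.range
    fun u : Wd => (u.map fun i => (s2 i).toPerm).prod) => (x.1 φ).1 []) fun φ ψ e => ?_)
  replace e : ∀ u : Wd, _ := fun u => congrFun e ⟨_, u, rfl⟩
  dsimp only at e
  refine Subtype.ext (funext fun w => ?_)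
  induction w using List.reverseRecOn generalizing φ ψ with
  | nil => exact e []
  | append_singleton w i ih =>
    simpa [s, ih φ ψ e] using ih (s i φ) (s i ψ) fun u => by simpa using e (u ++ [i])

lemma Cg.rfl (n : ℕ) (u : Wd) : Cg n u u := fun w _ _ => by
  simp only [ct, List.filter_append, List.length_append]; omega

lemma Cg.mono {m n : ℕ} {u v : Wd} (h : Cg n u v) (l : m ≤ n) : Cg m u v :=
  fun w a b => h w a (b.trans_le l)

lemma reps (n : ℕ) : ∃ R : List Wd, ∀ u, ∃ r ∈ R, Cg n u r := by
  have := (List.finite_length_lt (Fin 8) n).to_subtype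
  let c : Wd → {w : Wd | w.length < n} → Fin 2 := fun u w =>
    ⟨ct u.sublists' w % 2, Nat.mod_lt _ two_pos⟩
  refine ⟨(Set.finite_range (Function.invFun c)).toFinset.toList, fun u =>
    ⟨Function.invFun c (c u), by simp, fun w _ a => ?_⟩⟩
  have := congrArg Fin.val (congrFun (Function.invFun_eq (f := c) ⟨u, rfl⟩) ⟨w, a⟩)
  simp only [ct, List.filter_append, List.length_append, c] at this ⊢
  omega

end Pool.Agent.Lib.H8.GS
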