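import Pool.Agent.Lib.H8.Om1

/-!
Generic points of Baire space.
-/

namespace Pool.Agent.Lib.H8.Gen

open Set

/-- The property holds on a whole cylinder around the point. -/
def In (P : (ℕ → ℕ) → Prop) (v : ℕ → ℕ) : Prop := ∃ k, ∀ w : ℕ → ℕ, (∀ i < k, w i = v i) → P w

lemma in_iff {P : (ℕ → ℕ) → Prop} {v : ℕ → ℕ} : In P v ↔ v ∈ interior {w | P w} := by
  rw [mem_interior_iff_mem_nhds, (PiNat.isTopologicalBasis_cylinders fun _ => ℕ).mem_nhds_iff]
  refine ⟨fun ⟨k, h⟩ => ⟨_, ⟨v, k, rfl⟩, PiNat.self_mem_cylinder v k, fun w z => h w z⟩, ?_⟩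
  rintro ⟨_, ⟨x, k, rfl⟩, a, b⟩
  exact ⟨k, fun w z => b fun i u => (z i u).trans (a i u)⟩

lemma gen {ι : Type} [Countable ι] (P : ι → (ℕ → ℕ) → Prop) :
    ∃ G, ∀ j, In (P j) G ∨ In (fun v => ¬ In (P j) v) G := by
  obtain ⟨G, h⟩ := (dense_iInter_of_isOpen
    (f := fun j => (frontier (interior {w | P j w}))ᶜ) (fun j => isClosed_frontier.isOpen_compl)
    fun j => by
      rw [← interior_eq_empty_iff_dense_compl, ← frontier_compl]
      exact interior_frontier isOpen_interior.isClosed_compl).nonempty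
  refine ⟨G, fun j => ?_⟩
  have := mem_iInter.1 h j
  rw [compl_frontier_eq_union_interior, interior_interior] at this
  simp only [in_iff]
  exact this

variable {α : Type} [Primcodable α]

instance cnt : Countable {p : α → Prop // REPred p} := by
  have : ∀ p : {p : α → Prop // REPred p}, ∃ c : ℕ, ∀ a, p.1 a ↔ Encodable.encode a ∈ CeAlg.W c :=
    fun p => by
    obtain ⟨c, hc⟩ := Nat.Partrec.Code.exists_code.1 p.2
    exact ⟨Encodable.encode c, fun a => by simp [CeAlg.W, hc, Part.dom_iff_mem]⟩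
  choose f hf using this
  exact Function.Injective.countable (f := f) fun p q e =>
    Subtype.ext (funext fun a => propext (by rw [hf, hf, e]))

lemma re_iff {p : α → Prop} :
    (∃ f : α →. ℕ, Partrec f ∧ ∀ a, (f a).Dom ↔ p a) ↔ REPred p :=
  ⟨fun ⟨_, a, b⟩ => a.dom_re.of_eq b, fun h =>
    ⟨_, Partrec.map h (Computable.const (0 : ℕ)).to₂, fun a => by simp [Part.dom_iff_mem]⟩⟩

lemma dv {f : α → ℕ} (hf : Computable f) (c : ℕ) : Computable fun a => f a / c :=
  Primrec.nat_div.to_comp.comp hf (Computable.const c)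

lemma md {f : α → ℕ} (hf : Computable f) (c : ℕ) : Computable fun a => f a % c :=
  Primrec.nat_mod.to_comp.comp hf (Computable.const c)

end Pool.Agent.Lib.H8.Gen
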