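import Pool.Agent.Lib.H8.Dud1

/-!
Small sets of words that hit most strings of a weighted family.
-/

namespace Pool.Agent.Lib.H8.Shc

open Rnd Om Finset Classical

variable {ι : Type}

lemma greedy {β : Type} [DecidableEq β] {I : Finset ι} {a : ι → ℝ} (ha : ∀ x, 0 ≤ a x) {B : ι → Finset β}
    {C : Finset β} {t q : ℕ} (ht : 0 < t) (hq : 0 < q) (h : ∀ x ∈ I, B x ⊆ C ∧ t ≤ #(B x))
    (hC : #C ≤ q * t) (m : ℕ) : ∃ S ⊆ C, #S ≤ m ∧
      ∑ x ∈ I with Disjoint (B x) S, a x ≤ (1 - 1 / q) ^ m * ∑ x ∈ I, a x := by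
  have q0 : (0 : ℝ) < q := by positivity
  have q1 : (0 : ℝ) ≤ 1 - 1 / q := by
    rw [sub_nonneg, div_le_one q0]; exact_mod_cast hq
  rcases I.eq_empty_or_nonempty with rfl | ⟨x, hx⟩
  · exact ⟨∅, by simp⟩
  have ne : C.Nonempty := (card_pos.1 (ht.trans_le (h x hx).2)).mono (h x hx).1
  induction m with
  | zero => exact ⟨∅, by simp⟩
  | succ m i =>
    obtain ⟨S, s1, s2, s3⟩ := i
    generalize e : I.filter (fun x => Disjoint (B x) S) = J at s3
    have j (x) (k : x ∈ J) := h x (mem_filter.1 (e ▸ k)).1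
    have z : 0 ≤ ∑ x ∈ J, a x := sum_nonneg fun x _ => ha x
    obtain ⟨c, c1, c2⟩ := exists_le_of_sum_le ne (f := fun _ => (∑ x ∈ J, a x) / q)
      (g := fun c => ∑ x ∈ J with c ∈ B x, a x) (by
        rw [sum_const, nsmul_eq_mul]
        simp only [sum_filter]
        rw [sum_comm]
        calc _ ≤ (q * t : ℕ) * ((∑ x ∈ J, a x) / q) := by gcongr
          _ = ∑ x ∈ J, t * a x := by rw [← mul_sum]; push_cast; field_simp
          _ ≤ _ := sum_le_sum fun x k => by
            rw [← sum_filter, filter_mem_eq_inter, inter_eq_right.2 (j x k).1, sum_const,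
              nsmul_eq_mul]
            have := ha x
            gcongr
            exact (j x k).2)
    refine ⟨insert c S, insert_subset c1 s1, (card_insert_le _ _).trans (by omega), ?_⟩
    have := sum_filter_add_sum_filter_not J (fun x => c ∈ B x) a
    rw [show I.filter (fun x => Disjoint (B x) (insert c S)) = J.filter fun x => ¬ c ∈ B x by
      rw [← e, filter_filter]; exact filter_congr fun x _ => by simp [and_comm], pow_succ', mul_assoc]
    refine le_trans ?_ (mul_le_mul_of_nonneg_left s3 q1)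
    rw [sub_mul, one_mul, one_div, inv_mul_eq_div]
    linarith

lemma decay {q : ℕ} (hq : 0 < q) (k : ℕ) : (1 - 1 / q : ℝ) ^ (q * k) ≤ 2⁻¹ ^ k := by
  have q0 : (0 : ℝ) < q := by positivity
  have q1 : (0 : ℝ) ≤ 1 - 1 / q := by
    rw [sub_nonneg, div_le_one q0]; exact_mod_cast hq
  rw [pow_mul]
  gcongr
  refine (Real.one_sub_div_pow_le_exp_neg (t := 1) (by exact_mod_cast hq)).trans ?_
  rw [Real.exp_neg]
  gcongr
  linarith [Real.add_one_le_exp 1]

lemma pr_add (x : ℕ → Bool) (m n : ℕ) : pr x (m + n) = pr x m ++ pr (fun i => x (m + i)) n := by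
  simp [pr, List.range_add]

/-- An aligned block. -/
def blk (l : ℕ) (x : ℕ → Bool) (b : ℕ) : List Bool := pr (fun i => x (b * l + i)) l

lemma blk_inf {l h b : ℕ} (x : ℕ → Bool) (e : b < h / l) : blk l x b <:+: pr x h := by
  obtain ⟨r, rfl⟩ := Nat.exists_eq_add_of_le
    ((Nat.mul_le_mul_right l e).trans (Nat.div_mul_le_self h l))
  exact ⟨_, _, by rw [pr_add, Nat.succ_mul, pr_add]; rfl⟩

lemma blk_mul (r l b : ℕ) (x : ℕ → Bool) :
    blk (r * l) x b = (List.ofFn fun i : Fin r => blk l x (b * r + i)).flatten := by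
  suffices ∀ s, pr (fun i => x (b * (r * l) + i)) (s * l) =
    (List.ofFn fun i : Fin s => blk l x (b * r + i)).flatten from this r
  intro s
  induction s with
  | zero => simp [pr]
  | succ s i =>
    rw [Nat.succ_mul, pr_add, i, List.ofFn_succ']
    simp [blk, add_mul, mul_assoc, add_assoc]

lemma card_len {C : Finset (List Bool)} {l : ℕ} (h : ∀ y ∈ C, y.length = l) : #C ≤ 2 ^ l := by
  refine (card_le_card fun y k => ?_).trans
    ((card_image_le (f := fun u : ℕ => pr u.testBit l)).trans (card_range _).le)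
  obtain ⟨u, a, b⟩ := pr_sur (fun i => y.getD i false) l
  exact mem_image.2 ⟨u, mem_range.2 a, by rw [← b, ← h y k, pr_getD]⟩

/-- The next scale. -/
def nx (D u : ℕ) : ℕ := 2 ^ (D * u) * u

lemma lt_nx {D u : ℕ} (hD : 0 < D) (hu : 0 < u) : u < nx D u :=
  lt_mul_of_one_lt_left hu (Nat.one_lt_two_pow (by positivity))

lemma le_it (D j u : ℕ) : u ≤ (nx D)^[j] u :=
  Function.id_le_iterate_of_id_le (fun u => Nat.le_mul_of_pos_left u (by positivity)) j u

theorem lev {D h : ℕ} (k : ℕ) (hD : 0 < D) {a : ι → ℝ} (ha : ∀ x, 0 ≤ a x) (X : ι → ℕ → Bool)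
    (j : ℕ) {u : ℕ} (hu : 0 < u) {C : Finset (List Bool)} {I : Finset ι}
    (c1 : #C ≤ 2 ^ ((j + 2) * u)) (c2 : ∀ y ∈ C, y.length = D * u)
    (c3 : ∀ x ∈ I, ∀ b < h / (D * u), blk (D * u) (X x) b ∈ C) (hh : D * (nx D)^[j] u ≤ h) :
    ∃ S : Finset (List Bool), (∀ s ∈ S, ∃ v, u ≤ v ∧ v ≤ (nx D)^[j] u ∧ s.length = D * v) ∧
      (∀ v, #{s ∈ S | s.length = D * v} ≤ 2 ^ (2 * v) * k) ∧
      ∑ x ∈ I with ∀ s ∈ S, ¬ s <:+: pr (X x) h, a x ≤ 2⁻¹ ^ k * ∑ x ∈ I, a x := by
  have R (j) {u} {C : Finset (List Bool)} {I : Finset ι} (c1 : #C ≤ 2 ^ ((j + 2) * u))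
      (c3 : ∀ x ∈ I, ∀ b < h / (D * u), blk (D * u) (X x) b ∈ C)
      (c4 : ∀ x ∈ I, 2 ^ (j * u) ≤ #((range (h / (D * u))).image (blk (D * u) (X x)))) :
      ∃ S ⊆ C, #S ≤ 2 ^ (2 * u) * k ∧
        ∑ x ∈ I with ∀ s ∈ S, ¬ s <:+: pr (X x) h, a x ≤ 2⁻¹ ^ k * ∑ x ∈ I, a x := by
    obtain ⟨S, s1, s2, s3⟩ := greedy ha (q := 2 ^ (2 * u)) (by positivity) (by positivity)
      (fun x e => ⟨image_subset_iff.2 fun b f => c3 x e b (mem_range.1 f), c4 x e⟩)
      (c1.trans_eq (by ring)) (2 ^ (2 * u) * k)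
    refine ⟨S, s1, s2, le_trans (sum_le_sum_of_subset_of_nonneg (monotone_filter_right _
      fun x _ e => disjoint_left.2 fun s f g => ?_) fun x _ _ => ha x) (s3.trans
        (mul_le_mul_of_nonneg_right (decay (by positivity) k) (sum_nonneg fun x _ => ha x)))⟩
    obtain ⟨b, p, rfl⟩ := mem_image.1 f
    exact e _ g (blk_inf _ (mem_range.1 p))
  have L {u v} {S : Finset (List Bool)} (s : ∀ y ∈ S, y.length = D * u) (e : u ≠ v) :
      S.filter (·.length = D * v) = ∅ :=
    filter_eq_empty_iff.2 fun y f g => e (Nat.eq_of_mul_eq_mul_left hD ((s y f).symm.trans g))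
  induction j generalizing u C I with
  | zero =>
    obtain ⟨S, s1, s2, s3⟩ := R 0 c1 c3 fun x _ => by
      simpa using (Nat.div_pos hh (by positivity)).ne'
    refine ⟨S, fun s e => ⟨u, le_rfl, le_rfl, c2 s (s1 e)⟩, fun v => ?_, s3⟩
    by_cases e : u = v
    · exact (card_filter_le _ _).trans (e ▸ s2)
    · simp [L (fun y f => c2 y (s1 f)) e]
  | succ j i =>
    let P x := 2 ^ ((j + 1) * u) ≤ #((range (h / (D * u))).image (blk (D * u) (X x)))
    obtain ⟨S, s1, s2, s3⟩ := R (j + 1) (I := I.filter P) c1 (fun x e => c3 x (mem_filter.1 e).1)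
      fun x e => (mem_filter.1 e).2
    have n : D * nx D u = 2 ^ (D * u) * (D * u) := by rw [nx]; ring
    obtain ⟨T, t1, t2, t3⟩ := i ((lt_nx hD hu).trans' hu) (I := I.filter (¬ P ·))
      (C := (C.powerset.filter (#· ≤ 2 ^ ((j + 1) * u))).biUnion fun T =>
        (Fintype.piFinset fun _ : Fin (2 ^ (D * u)) => T).image fun g => (List.ofFn g).flatten)
      (by
        refine (card_biUnion_le_card_mul _ _ ((2 ^ ((j + 1) * u)) ^ 2 ^ (D * u)) fun T e =>
          card_image_le.trans ?_).trans ?_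
        · rw [Fintype.card_piFinset_const]
          exact Nat.pow_le_pow_left (mem_filter.1 e).2 _
        · calc _ ≤ 2 ^ nx D u * _ := Nat.mul_le_mul_right _ ((card_filter_le _ _).trans (by
              rw [card_powerset]
              exact Nat.pow_le_pow_right two_pos ((card_len c2).trans
                (Nat.le_mul_of_pos_right _ hu))))
            _ = _ := by rw [← pow_mul, ← pow_add, nx]; congr 1; ring)
      (fun y e => by
        obtain ⟨T, p, f⟩ := mem_biUnion.1 e
        obtain ⟨g, q, rfl⟩ := mem_image.1 f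
        have := fun i => c2 _ (mem_powerset.1 (mem_filter.1 p).1 (Fintype.mem_piFinset.1 q i))
        simp [List.length_flatten, List.sum_ofFn, this, n])
      (fun x e b f => by
        refine mem_biUnion.2 ⟨_, mem_filter.2 ⟨mem_powerset.2 (image_subset_iff.2 fun b f =>
          c3 x (mem_filter.1 e).1 b (mem_range.1 f)), (not_le.1 (mem_filter.1 e).2).le⟩,
          mem_image.2 ⟨fun i => blk (D * u) (X x) (b * 2 ^ (D * u) + i), Fintype.mem_piFinset.2
            fun i => mem_image_of_mem _ (mem_range.2 ?_), by rw [n, blk_mul]⟩⟩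
        rw [n, mul_comm, ← Nat.div_div_eq_div_mul] at f
        have := (Nat.le_div_iff_mul_le (by positivity)).1 (Nat.succ_le_of_lt f)
        have := i.2
        rw [Nat.succ_mul] at *
        omega) hh
    refine ⟨S ∪ T, fun s e => (mem_union.1 e).elim (fun e => ⟨u, le_rfl, le_it _ _ _, c2 s (s1 e)⟩)
      fun e => (t1 s e).imp fun v f => ⟨(lt_nx hD hu).le.trans f.1, f.2⟩, fun v => ?_, ?_⟩
    · rw [filter_union]
      by_cases e : u = v
      · rw [(filter_eq_empty_iff (s := T)).2 fun y f g => ?_, union_empty]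
        · exact (card_filter_le _ _).trans (e ▸ s2)
        · obtain ⟨w, w1, -, w2⟩ := t1 y f
          have := lt_nx hD hu
          have := Nat.eq_of_mul_eq_mul_left hD (w2.symm.trans g)
          omega
      · simpa [L (fun y f => c2 y (s1 f)) e] using t2 v
    · rw [← sum_filter_add_sum_filter_not I P, mul_add, ← sum_filter_add_sum_filter_not _ P,
        filter_comm, filter_comm _ (¬ P ·)]
      exact add_le_add (le_trans (sum_le_sum_of_subset_of_nonneg (monotone_filter_right _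
        fun x _ e s f => e s (mem_union_left _ f)) fun x _ _ => ha x) s3)
        (le_trans (sum_le_sum_of_subset_of_nonneg (monotone_filter_right _
          fun x _ e s f => e s (mem_union_right _ f)) fun x _ _ => ha x) t3)

lemma inf_pr {s : List Bool} {X : ℕ → Bool} {h : ℕ} (e : s <:+: pr X h) :
    ∃ i, s = pr (fun j => X (i + j)) s.length := by
  obtain ⟨p, r, e⟩ := e
  obtain rfl : h = p.length + s.length + r.length := by
    simpa [add_assoc] using (congrArg List.length e).symm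
  rw [pr_add, pr_add] at e
  exact ⟨_, (List.append_inj (List.append_inj' e (by simp)).1 (by simp)).2⟩

lemma level {M : List Bool → ℝ} (h : ∀ s, M (s ++ [false]) + M (s ++ [true]) ≤ M s) (n : ℕ) :
    ∑ u ∈ range (2 ^ n), M (pr u.testBit n) ≤ M [] := by
  induction n with
  | zero => simp [pr]
  | succ n i =>
    rw [pow_succ, mul_two, sum_range_add, ← sum_add_distrib]
    refine le_trans (sum_le_sum fun u e => ?_) i
    have e := Nat.testBit_lt_two_pow (mem_range.1 e)
    rw [pr_succ, pr_succ, Nat.testBit_two_pow_add_eq, e,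
      pr_eq.2 fun i l => Nat.testBit_two_pow_add_gt l u]
    exact h _

lemma csumr {α : Type} [Primcodable α] {n : α → ℕ} {g : α → ℕ → ℕ} (hn : Computable n)
    (hg : Computable₂ g) : Computable fun a => ∑ i ∈ range (n a), g a i :=
  CList.csum.to_comp.comp (Qm.cpre hn hg)

lemma cinf {α : Type} [Primcodable α] {s t : α → List Bool} (hs : Computable s)
    (ht : Computable t) : ComputablePred fun a => s a <:+: t a :=
  (Qm.cbex (p := fun a i => s a <+: (t a).drop i) (Computable.succ.comp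
    (Computable.list_length.comp ht)) (Qm.cpfx (hs.comp Computable.fst)
      (Primrec.list_drop.to_comp.comp Computable.snd (ht.comp Computable.fst)))).of_eq fun a =>
    ⟨fun ⟨_, _, e⟩ => e.isInfix.trans (List.drop_suffix _ _).isInfix, fun ⟨p, r, e⟩ =>
      ⟨p.length, by simp [← e], by simp [← e]⟩⟩

open Kc Arith CList in
lemma dbl {V W : List Bool →. List Bool} (hV : OptP V) (hW : Partrec W) (h : Opt W) :
    ∃ c, ∀ x, cx V x ≤ 2 * cx W x + c := by
  have f := @Computable.fst
  have s := @Computable.snd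
  obtain ⟨M, m1, m2, m3⟩ := unif (sig_ex (A := fun z : (List Bool × List Bool) × List Bool =>
    z.1.1 = tag z.2.length z.2 ∧ z.1.2 ∈ W z.2) ((CeAlg.cs (ceq (f.comp f) (tag_c
      (Computable.list_length.comp s) s))).and ((graph hW).comp (s.pair (s.comp f)))))
  dsimp only at m2 m3
  obtain ⟨c, hc⟩ := hV M m1 fun p q a b k => by
    obtain ⟨x, hx⟩ := Part.dom_iff_mem.1 a
    obtain ⟨y, hy⟩ := Part.dom_iff_mem.1 b
    obtain ⟨u, rfl, -⟩ := m2 _ _ hx
    obtain ⟨v, rfl, -⟩ := m2 _ _ hy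
    rw [(tag_pre k).2.eq_of_length (tag_pre k).1]
  refine ⟨c + 1, fun x => ?_⟩
  obtain ⟨q, q1, q2⟩ := cx_spec h.sur x
  obtain ⟨y, hy⟩ := m3 (tag q.length q) x ⟨q, rfl, q2⟩
  obtain ⟨v, l, r⟩ := m2 _ _ hy
  obtain rfl := (tag_inj l).2
  obtain ⟨p, p1, p2⟩ := hc _ _ (Part.mem_unique r q2 ▸ hy)
  have := cx_le p2
  rw [tag_len] at p1
  omega

end Pool.Agent.Lib.H8.Shc
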