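import Pool.Agent.Lib.H8.Pool2
import Pool.Agent.Lib.H8.Shc1

/-!
A generic sequence built from the halting problem; codes for rational functions.
-/

namespace Pool.Agent.Lib.H8.Gk

open Arith CList Wei Qm Rnd Kc Om Gen Low Classical Filter Topology

/-- The characteristic function of the halting problem. -/
noncomputable def kc (e : ℕ) : ℕ := if e ∈ CeAlg.W e then 1 else 0

lemma ind {A : ℕ → Prop} (h : Sig 1 ℕ A) : Orc.R kc fun n => if A n then 1 else 0 := by
  obtain ⟨s, a, b⟩ := CeAlg.w_idx (A := fun q : ℕ × ℕ => A q.1) (h.comp Computable.fst)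
  exact (Orc.R.self.comp (Orc.R.comput a)).of_eq fun n => by simp [kc, b]

lemma pick {A : ℕ × ℕ → Prop} (h : Sig 1 _ A) {d : ℕ → ℕ} (hd : Computable d) :
    ∃ F, Orc.R kc F ∧ ∀ m, A (m, F m) ∨ ((¬ ∃ y, A (m, y)) ∧ F m = d m) := by
  obtain ⟨B, b, e⟩ := sig_nf h
  have v := u2.comp u2
  have c : Computable fun z : ℕ => if (z.unpair.1 = 0 ∧ z.unpair.2.unpair.2.unpair.1 =
      d z.unpair.2.unpair.1) ∨ B ((z.unpair.2.unpair.1, z.unpair.2.unpair.2.unpair.1),
        z.unpair.2.unpair.2.unpair.2) then 0 else 1 :=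
    cite (cor (cand (ceq u1 (Computable.const 0)) (ceq (u1.comp v) (hd.comp (u1.comp u2))))
      (cp b (((u1.comp u2).pair (u1.comp v)).pair (u2.comp v)))) (Computable.const 0)
      (Computable.const 1)
  have c := (Orc.R.comput c).comp (((ind h.ex).comp (Orc.R.comput u1)).pair
    (Orc.R.comput Computable.id))
  generalize eT : (fun n => _) = T at c
  have p (m s) : T (Nat.pair m s) = 0 ↔ ((¬ ∃ y, A (m, y)) ∧ s.unpair.1 = d m) ∨
      B ((m, s.unpair.1), s.unpair.2) := by
    rw [← eT]; simp only [Nat.unpair_pair, id, ite_eq_left_iff, one_ne_zero, imp_false, not_not,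
      ite_eq_right_iff]
  have x (m) : ∃ s, T (Nat.pair m s) = 0 := by
    by_cases k : ∃ y, A (m, y)
    · obtain ⟨y, k⟩ := k
      obtain ⟨t, k⟩ := (e _).1 k
      exact ⟨Nat.pair y t, (p _ _).2 (.inr (by simpa using k))⟩
    · exact ⟨Nat.pair (d m) 0, (p _ _).2 (.inl ⟨k, by simp⟩)⟩
  exact ⟨_, (Orc.R.comput u1).comp (c.find x), fun m =>
    ((p _ _).1 (Nat.find_spec (x m))).symm.imp_left fun k => (e _).2 ⟨_, k⟩⟩

theorem generic : ∃ a : ℕ → Bool,
    (∀ D : List Bool → Prop, Sig 1 _ D → (∀ s, ∃ t, D (s ++ t)) → (∀ s b, D s → D (s ++ [b])) →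
      ∃ k, D (pr a k)) ∧
    ∀ E : ℕ × List Bool → Prop, Sig 1 _ E → (∀ x k, E (x, pr a k) → E (x, pr a (k + 1))) →
      Orc.R kc fun x => if ∃ k, E (x, pr a k) then 1 else 0 := by
  have f := @Computable.fst
  have s := @Computable.snd
  let d : ℕ → List Bool := fun n => (Encodable.decode n).getD []
  have hd : Computable d := Computable.option_getD Computable.decode (Computable.const [])
  have de (l) : d (Encodable.encode l) = l := by simp [d]
  have A : Sig 1 _ fun z : ℕ × ℕ => (d z.1.unpair.2 <+: d z.2 ∧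
      (d z.1.unpair.2).length < (d z.2).length) ∧ Encodable.encode (d z.2) ∈ CeAlg.W z.1.unpair.1 :=
    (CeAlg.cs (cand (cpfx (hd.comp (u2.comp f)) (hd.comp s)) (clt (Computable.list_length.comp
      (hd.comp (u2.comp f))) (Computable.list_length.comp (hd.comp s))))).and
      (CeAlg.w_sig (u1.comp f) (Computable.encode.comp (hd.comp s)))
  obtain ⟨F, f1, f2⟩ := pick A (Computable.encode.comp
    (Computable.list_concat.comp (hd.comp u2) (Computable.const false)))
  obtain ⟨G, g1, g0, g2⟩ : ∃ G, Orc.R kc G ∧ G 0 = 0 ∧ ∀ n, G (n + 1) = F (Nat.pair n (G n)) :=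
    ⟨_, f1.rec 0, rfl, fun _ => rfl⟩
  have st (n) : d (G n) <+: d (G (n + 1)) ∧ (d (G n)).length < (d (G (n + 1))).length := by
    rcases f2 (Nat.pair n (G n)) with k | k
    · simpa [g2] using k.1
    · simp [g2, k.2, de]
  have ln (n) : n ≤ (d (G n)).length := by
    induction n with
    | zero => omega
    | succ n i => have := (st n).2; omega
  have ch {m n} (l : m ≤ n) : d (G m) <+: d (G n) := by
    induction n, l using Nat.le_induction with
    | base => rfl
    | succ n _ i => exact i.trans (st n).1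
  have gd {x y : List Bool} (p : x <+: y) {i} (l : i < x.length) :
      x.getD i false = y.getD i false := by
    obtain ⟨t, rfl⟩ := p
    rw [List.getD_append _ _ _ _ l]
  let a i := (d (G (i + 1))).getD i false
  have pa (n) : pr a (d (G n)).length = d (G n) := (pr_eq.2 fun i l =>
    (gd (ch (Nat.le_add_right _ n)) (ln _)).trans (gd (ch (Nat.le_add_left _ _)) l).symm).trans
      (pr_getD _)
  have q (n) (k : ∃ y, (d (G n) <+: d y ∧ (d (G n)).length < (d y).length) ∧
      Encodable.encode (d y) ∈ CeAlg.W n) : Encodable.encode (d (G (n + 1))) ∈ CeAlg.W n := by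
    rcases f2 (Nat.pair n (G n)) with l | l
    · simpa [g2] using l.2
    · exact (l.1 (by simpa using k)).elim
  refine ⟨a, fun D h u v => ?_, fun E h m => ?_⟩
  · obtain ⟨i, -, e⟩ := CeAlg.w_idx (A := fun q : ℕ × ℕ => D (d q.2)) (h.comp (hd.comp s))
    obtain ⟨t, k⟩ := u (d (G (i 0)))
    have := q (i 0) ⟨Encodable.encode (d (G (i 0)) ++ t ++ [false]), by simp [de],
      by simpa only [e, de] using v _ _ k⟩
    exact ⟨(d (G (i 0 + 1))).length, by rw [pa]; simpa only [e, de] using this⟩
  · obtain ⟨i, c, e⟩ := CeAlg.w_idx (A := fun q : ℕ × ℕ => E (q.1, d q.2))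
      (h.comp (f.pair (hd.comp s)))
    refine ((ind A.ex).comp ((Orc.R.comput c).pair (g1.comp (Orc.R.comput c)))).of_eq fun x =>
      if_congr ⟨fun k => ?_, fun ⟨k, l⟩ => ?_⟩ rfl rfl <;> simp only [Nat.unpair_pair] at *
    · exact ⟨(d (G (i x + 1))).length, by rw [pa]; simpa only [e, de] using q _ k⟩
    · have (j : ℕ) : E (x, pr a (k + j)) := by
        induction j with
        | zero => exact l
        | succ j i => exact m _ _ i
      refine ⟨Encodable.encode (pr a (k + ((d (G (i x))).length + 1))), ⟨?_, by simp [de]; omega⟩,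
        by simpa only [e, de] using this _⟩
      rw [de]
      generalize hn : (d (G (i x))).length = n
      rw [← pa, hn, ← pr_take a (show n ≤ k + (n + 1) by omega)]
      exact List.take_prefix _ _

/-- A sum of powers. -/
noncomputable def sv (r : ℝ) (l : List ℕ) : ℝ := (l.map (r ^ ·)).sum

/-- Product of sums of powers. -/
def mu (l m : List ℕ) : List ℕ := l.flatMap fun i => m.map (i + ·)

@[simp] lemma sv_app (r : ℝ) (l m : List ℕ) : sv r (l ++ m) = sv r l + sv r m := by simp [sv]

@[simp] lemma sv_mu (r : ℝ) (l m : List ℕ) : sv r (mu l m) = sv r l * sv r m := by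
  induction l with
  | nil => simp [sv, mu]
  | cons i l j =>
    simp only [mu, List.flatMap_cons, sv_app] at j ⊢
    rw [j]
    simp [sv, add_mul, Function.comp_def, pow_add, List.sum_map_mul_left]

lemma mu_c {α : Type} [Primcodable α] {l m : α → List ℕ} (hl : Computable l) (hm : Computable m) :
    Computable fun a => mu (l a) (m a) :=
  (Primrec.list_flatMap (f := Prod.fst) Primrec.fst (Primrec.list_map (Primrec.snd.comp Primrec.fst)
    (Primrec.nat_add.comp (Primrec.snd.comp Primrec.fst) Primrec.snd).to₂).to₂).to_comp.comp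
      (hl.pair hm)

lemma sv_mono {x y : ℝ} (h : 0 ≤ x) (k : x ≤ y) (l : List ℕ) : sv x l ≤ sv y l :=
  List.sum_le_sum fun _ _ => pow_le_pow_left₀ h k _

lemma sv_cont (l : List ℕ) : Continuous (sv · l) := by
  induction l with
  | nil => exact continuous_const
  | cons i l j => exact (continuous_pow i).add j

lemma val_le (w : ℕ → Bool) (s : ℕ) :
    (num (pr w s) : ℝ) / 2 ^ s ≤ val w ∧ val w ≤ (num (pr w s) + 1) / 2 ^ s := by
  refine ⟨not_lt.1 fun h => h.ne ?_, le_of_tendsto (val_lim w)
    ((eventually_ge_atTop s).mono fun t l => ?_)⟩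
  · exact h.le.antisymm (le_of_forall_lt fun q k => (lt_val _ _).2 ⟨s, k⟩)
  · obtain ⟨k, rfl⟩ := Nat.exists_eq_add_of_le l
    have := Nat.lt_mul_div_succ (num (pr w (s + k))) (k.two_pow_pos)
    rw [num_div] at this
    rw [div_le_div_iff₀ (by positivity) (by positivity), pow_add]
    have : (num (pr w (s + k)) : ℝ) ≤ 2 ^ k * (num (pr w s) + 1) := by exact_mod_cast this.le
    nlinarith [show (0 : ℝ) < 2 ^ s by positivity]

/-- The comparison is already decided by the finite string. -/
def Lt (t : List Bool) (l m : List ℕ) : Prop :=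
  sv ((num t + 1) / 2 ^ t.length) l < sv (num t / 2 ^ t.length) m

lemma lt_iff (w : ℕ → Bool) (l m : List ℕ) : sv (val w) l < sv (val w) m ↔ ∃ k, Lt (pr w k) l m := by
  refine ⟨fun h => ?_, fun ⟨k, h⟩ => ?_⟩
  · have : Tendsto (fun s => ((num (pr w s) : ℝ) + 1) / 2 ^ s) atTop (𝓝 (val w)) := by
      simpa [add_div] using (val_lim w).add (tendsto_inv_atTop_zero.comp
        (tendsto_pow_atTop_atTop_of_one_lt (one_lt_two (α := ℝ))))
    simpa [Lt] using ((((sv_cont l).tendsto _).comp this).eventually_lt
      (((sv_cont m).tendsto _).comp (val_lim w)) h).exists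
  · rw [Lt, pr_len] at h
    exact ((sv_mono ((val_le w k).1.trans' (by positivity)) (val_le w k).2 l).trans_lt h).trans_le
      (sv_mono (by positivity) (val_le w k).1 m)

lemma lt_c {α : Type} [Primcodable α] {t : α → List Bool} {l m : α → List ℕ} (ht : Computable t)
    (hl : Computable l) (hm : Computable m) : ComputablePred fun a => Lt (t a) (l a) (m a) := by
  have f := Computable.fst (α := α) (β := ℕ)
  have s := Computable.snd (α := α) (β := ℕ)
  have pw := (Primrec₂.unpaired'.1 Nat.Primrec.pow).to_comp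
  have D := ad (csum.to_comp.comp hl) (csum.to_comp.comp hm)
  have y := pw.comp (pow_c.comp (Computable.list_length.comp (ht.comp f))) (sb (D.comp f) s)
  have n := num_c.comp (ht.comp f)
  have e (x y D : ℕ) (h : 0 < y) (l : List ℕ) (k : l.sum ≤ D) :
      ((l.map fun i => x ^ i * y ^ (D - i)).sum : ℕ) = y ^ D * sv (x / y) l := by
    rw [sv, ← List.sum_map_mul_left, Nat.cast_list_sum, List.map_map]
    refine congrArg _ (List.map_congr_left fun i o => ?_)
    obtain ⟨j, rfl⟩ := Nat.exists_eq_add_of_le ((List.le_sum_of_mem o).trans k)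
    simp [div_pow, pow_add]
    field_simp
  refine (clt (csum.to_comp.comp (cmap hl (ml (pw.comp (Computable.succ.comp n) s) y).to₂))
    (csum.to_comp.comp (cmap hm (ml (pw.comp n s) y).to₂))).of_eq fun a => ?_
  dsimp only
  rw [← Nat.cast_lt (α := ℝ), e _ _ _ (by positivity) _ (by omega),
    e _ _ _ (by positivity) _ (by omega), mul_lt_mul_iff_right₀ (by positivity)]
  simp [Lt]

lemma lt_step {t : List Bool} {l m : List ℕ} (b : Bool) (h : Lt t l m) : Lt (t ++ [b]) l m := by
  have e : (num (t ++ [b]) : ℝ) = 2 * num t + b.toNat := by simp [num]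
  have : (b.toNat : ℝ) ≤ 1 := by cases b <;> simp
  have z : (0 : ℝ) ≤ b.toNat := by positivity
  refine ((sv_mono (by positivity) ?_ l).trans_lt h).trans_le (sv_mono (by positivity) ?_ m) <;>
    rw [e, List.length_append, List.length_singleton, pow_succ,
      div_le_div_iff₀ (by positivity) (by positivity)] <;>
    nlinarith [show (0 : ℝ) < 2 ^ t.length by positivity]

lemma dense {l m : List ℕ} (h : ¬ l.Perm m) (s : List Bool) :
    ∃ t, Lt (s ++ t) l m ∨ Lt (s ++ t) m l := by
  let P (l : List ℕ) : Polynomial ℝ := (l.map (Polynomial.X ^ ·)).sum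
  have c (l : List ℕ) (i) : (P l).coeff i = l.count i := by
    induction l with
    | nil => simp [P]
    | cons j l k =>
      simp only [P, List.map_cons, List.sum_cons, Polynomial.coeff_add] at k ⊢
      rw [k, Polynomial.coeff_X_pow, List.count_cons]
      by_cases e : j = i
      · simp [e, add_comm]
      · simp [e, Ne.symm e]
  have v (l : List ℕ) (x) : (P l).eval x = sv x l := by
    induction l with
    | nil => simp [P, sv]
    | cons j l k =>
      simp only [P, sv, List.map_cons, List.sum_cons, Polynomial.eval_add] at k ⊢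
      simp [k]
  let w (k i : ℕ) : Bool := if i < s.length then s.getD i false else i = s.length + k
  have p (k j) : pr (w k) (s.length + j) = s ++ pr (fun i => i = k) j := by
    rw [Shc.pr_add, pr_eq.2 fun i o => if_pos o, pr_getD]; simp [w]
  by_contra n
  refine h (List.perm_iff_count.2 fun i => ?_)
  rw [← Nat.cast_inj (R := ℝ), ← c, ← c, Polynomial.eq_of_infinite_eval_eq (P l) (P m)
    (Set.infinite_of_injective_forall_mem (f := fun k => val (w k))
      (strictAnti_nat_of_succ_lt fun k => ?_).injective fun k => ?_)]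
  · have a := (val_le (w (k + 1)) (s.length + (k + 1 + 1 + 1))).2
    have b := (val_le (w k) (s.length + (k + 1 + 1 + 1))).1
    have e (j) (o : k ≤ j) : pr (fun i => decide (i = j)) k = pr (fun _ => false) k :=
      pr_eq.2 fun i _ => by simp; omega
    rw [p, pr_succ, pr_succ, pr_succ, e _ (by omega)] at a b
    refine a.trans_lt (lt_of_lt_of_le ?_ b)
    gcongr
    simp [num]
    linarith
  · simp only [Set.mem_ofPred_eq, v]
    by_contra o
    rcases lt_or_gt_of_ne o with o | o <;> obtain ⟨j, o⟩ := (lt_iff _ _ _).1 o <;>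
      refine n ⟨pr (fun i => i = k) j, ?_⟩ <;> [left; right] <;> rw [← p, add_comm] <;>
      induction s.length with
      | zero => exact o
      | succ _ i => exact pr_succ _ _ ▸ lt_step _ i

end Pool.Agent.Lib.H8.Gk
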