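import Pool.Agent.Lib.H8.Gk

/-!
Rational functions of a real number, given by computable codes.
-/

set_option maxHeartbeats 400000

namespace Pool.Agent.Lib.H8.Gk

open Arith CList Wei Qm Rnd Kc Om Gen Low Classical

variable {α β : Type} [Primcodable α] [Primcodable β] {r : ℝ}

lemma perm_c {l m : α → List ℕ} (hl : Computable l) (hm : Computable m) :
    ComputablePred fun a => (l a).Perm (m a) := by
  have c {l : α → List ℕ} (hl : Computable l) : Computable fun q : α × ℕ => (l q.1).count q.2 :=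
    (Computable.list_length.comp (cfilter (p := fun q : α × ℕ => fun i => i = q.2)
      (hl.comp Computable.fst) (ceq Computable.snd (Computable.snd.comp Computable.fst)))).of_eq
        fun q => by rw [List.count_eq_length_filter]; congr
  refine (call (p := fun a i => (l a).count i = (m a).count i) (Computable.list_append.comp hl hm)
    (ceq (c hl) (c hm))).of_eq fun a => ?_
  rw [List.perm_iff_count]
  refine ⟨fun h i => ?_, fun h i _ => h i⟩
  by_cases k : i ∈ l a ++ m a
  · exact h i k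
  · rw [List.mem_append, not_or] at k
    rw [List.count_eq_zero.2 k.1, List.count_eq_zero.2 k.2]

/-- An integer polynomial at `r`. -/
noncomputable def pv (r : ℝ) (u : List ℕ × List ℕ) : ℝ := sv r u.1 - sv r u.2

/-- Functions given by computable codes of rational functions of `r`. -/
def Cf (r : ℝ) (g : α → ℝ) : Prop := ∃ u v : α → List ℕ × List ℕ, Computable u ∧ Computable v ∧
  ∀ a, pv r (v a) ≠ 0 ∧ g a = pv r (u a) / pv r (v a)

variable {g h : α → ℝ}

lemma pm {u v : α → List ℕ × List ℕ} (hu : Computable u) (hv : Computable v) :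
    ∃ w, Computable w ∧ ∀ a, pv r (w a) = pv r (u a) * pv r (v a) := by
  have f := @Computable.fst
  have s := @Computable.snd
  have p := Computable.list_append (α := ℕ)
  exact ⟨_, (p.comp (mu_c (f.comp hu) (f.comp hv)) (mu_c (s.comp hu) (s.comp hv))).pair
    (p.comp (mu_c (f.comp hu) (s.comp hv)) (mu_c (s.comp hu) (f.comp hv))), fun a => by
      simp only [pv, sv_app, sv_mu]; ring⟩

lemma Cf.comp (k : Cf r g) {f : β → α} (hf : Computable f) : Cf r fun b => g (f b) := by
  obtain ⟨u, v, a, b, c⟩ := k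
  exact ⟨_, _, a.comp hf, b.comp hf, fun _ => c _⟩

lemma Cf.mul (k : Cf r g) (k' : Cf r h) : Cf r fun a => g a * h a := by
  obtain ⟨u, v, a, b, c⟩ := k
  obtain ⟨u', v', a', b', c'⟩ := k'
  obtain ⟨x, x1, x2⟩ := pm (r := r) a a'
  obtain ⟨y, y1, y2⟩ := pm (r := r) b b'
  exact ⟨x, y, x1, y1, fun z => by
    dsimp only
    rw [x2, y2, (c z).2, (c' z).2]; exact ⟨mul_ne_zero (c z).1 (c' z).1, div_mul_div_comm ..⟩⟩

lemma Cf.sub (k : Cf r g) (k' : Cf r h) : Cf r fun a => g a - h a := by
  have f := @Computable.fst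
  have s := @Computable.snd
  have p := Computable.list_append (α := ℕ)
  obtain ⟨u, v, a, b, c⟩ := k
  obtain ⟨u', v', a', b', c'⟩ := k'
  obtain ⟨x, x1, x2⟩ := pm (r := r) a b'
  obtain ⟨w, w1, w2⟩ := pm (r := r) b a'
  obtain ⟨y, y1, y2⟩ := pm (r := r) b b'
  refine ⟨_, y, (p.comp (f.comp x1) (s.comp w1)).pair (p.comp (s.comp x1) (f.comp w1)), y1,
    fun z => ?_⟩
  dsimp only
  rw [y2, (c z).2, (c' z).2, div_sub_div _ _ (c z).1 (c' z).1, ← x2, ← w2]
  exact ⟨mul_ne_zero (c z).1 (c' z).1, by simp only [pv, sv_app]; ring⟩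

lemma Cf.lt (k : Cf r g) (k' : Cf r h) : ∃ l m : α → List ℕ, Computable l ∧ Computable m ∧
    ∀ a, (g a < h a ↔ sv r (l a) < sv r (m a)) ∧ (g a = h a ↔ sv r (l a) = sv r (m a)) := by
  obtain ⟨u, v, a, b, c⟩ := k'.sub k
  obtain ⟨x, x1, x2⟩ := pm (r := r) a b
  dsimp only at c
  refine ⟨_, _, Computable.snd.comp x1, Computable.fst.comp x1, fun z => ⟨?_, ?_⟩⟩
  · rw [← sub_pos, (c z).2, div_pos_iff, ← mul_pos_iff, ← x2, pv, sub_pos]
  · rw [eq_comm, ← sub_eq_zero, (c z).2, div_eq_zero_iff, ← mul_eq_zero, ← x2, pv, sub_eq_zero,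
      eq_comm]

lemma cf_pow (i : ℕ) : Cf r fun _ : α => r ^ i :=
  ⟨_, _, Computable.const ([i], []), Computable.const ([0], []), fun _ => by simp [pv, sv]⟩

lemma cf_zero : Cf r fun _ : α => 0 := by simpa using (cf_pow (r := r) 0).sub (cf_pow 0)

lemma Cf.add (k : Cf r g) (k' : Cf r h) : Cf r fun a => g a + h a := by
  simpa using k.sub (cf_zero.sub k')

/-- The field generated by `r`. -/
def fld (r : ℝ) : Subfield ℝ where
  carrier := {x | Cf r fun _ : ℕ => x}
  mul_mem' := Cf.mul
  one_mem' := by simpa using cf_pow (α := ℕ) (r := r) 0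
  add_mem' := Cf.add
  zero_mem' := cf_zero
  neg_mem' k := by simpa using cf_zero.sub k
  inv_mem' x k := by
    by_cases e : x = 0
    · simpa [e] using cf_zero
    obtain ⟨u, v, a, b, c⟩ := k
    exact ⟨v, u, b, a, fun z => ⟨fun o => e (by simpa [o] using (c z).2), by simp [(c z).2]⟩⟩

lemma enum (pe : ∀ l m, sv r l = sv r m ↔ l.Perm m) :
    ∃ e : ℕ → fld r, Function.Surjective e ∧ Cf r fun n => e n := by
  have f := @Computable.fst
  have s := @Computable.snd
  let o := Denumerable.ofNat ((List ℕ × List ℕ) × List ℕ × List ℕ)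
  have ho : Computable o := Computable.ofNat _
  let d n := if (o n).2.1.Perm (o n).2.2 then ([0], []) else (o n).2
  have z (n) : pv r (d n) ≠ 0 := by
    simp only [d]
    split_ifs with k
    · simp [pv, sv]
    · rwa [pv, sub_ne_zero, Ne, pe]
  refine ⟨fun n => ⟨_, _, _, Computable.const (o n).1, Computable.const (d n),
    fun _ => ⟨z n, rfl⟩⟩, fun ⟨x, u, v, _, _, c⟩ => ⟨Encodable.encode (u 0, v 0), Subtype.ext ?_⟩,
    _, d, f.comp ho, cite (perm_c (f.comp (s.comp ho)) (s.comp (s.comp ho))) (Computable.const _)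
      (s.comp ho), fun n => ⟨z n, rfl⟩⟩
  have := (c 0).1
  rw [pv, sub_ne_zero, Ne, pe] at this
  simp only [o, d, Denumerable.ofNat_encode, this, if_false, (c 0).2]

lemma nocomp {a : ℕ → Bool} (g : ∀ D : List Bool → Prop, Sig 1 _ D → (∀ s, ∃ t, D (s ++ t)) →
    (∀ s b, D s → D (s ++ [b])) → ∃ k, D (pr a k))
    (h : ComputablePred fun q : ℕ × ℕ => (q.1 : ℝ) < q.2 * val a)
    (h' : ComputablePred fun q : ℕ × ℕ => q.2 * val a < (q.1 : ℝ)) : False := by
  have l := pow_c.comp (Computable.list_length (α := Bool))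
  obtain ⟨k, o⟩ := g _ (CeAlg.cs (cor (cp h' (num_c.pair l))
    (cp h ((Computable.succ.comp num_c).pair l)))) (fun s => by
      by_cases e : (4 * num s + 1 : ℝ) < 4 * 2 ^ s.length * val a
      · exact ⟨[false, false], .inr (by simp [num, pow_add] at e ⊢; linarith)⟩
      · exact ⟨[true, true], .inl (by simp [num, pow_add] at e ⊢; linarith)⟩) fun s b o => by
      cases b <;> simp [num, pow_add] at o ⊢ <;> rcases o with o | o <;> [left; right; left; right] <;>
        linarith
  have := val_le a k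
  rw [div_le_iff₀ (by positivity), le_div_iff₀ (by positivity)] at this
  simp at o
  rcases o with o | o <;> linarith

lemma low {a : ℕ → Bool} (g : ∀ E : ℕ × List Bool → Prop, Sig 1 _ E →
    (∀ x k, E (x, pr a k) → E (x, pr a (k + 1))) →
      Orc.R kc fun x => if ∃ k, E (x, pr a k) then 1 else 0)
    {R S : ℕ → Prop} (hR : ComputablePred R) {l m : ℕ → List ℕ} (hl : Computable l)
    (hm : Computable m) (pe : ∀ l m, sv (val a) l = sv (val a) m ↔ l.Perm m)
    (e : ∀ n, S n ↔ R n ∧ sv (val a) (l n) < sv (val a) (m n)) {F : ℕ →. ℕ}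
    (h : Nat.RecursiveIn {fun n => Part.some (if S n then 1 else 0)} F) :
    Orc.R kc fun x => if (F x).Dom then 1 else 0 := by
  have f := @Computable.fst
  have s := @Computable.snd
  have t : Computable fun z : List ℕ × ℕ × ℕ => z.1.map fun i => decide (i = 1) :=
    (Primrec.list_map Primrec.fst (Primrec.eq.comp Primrec.snd (Primrec.const 1)).decide.to₂).to_comp
  have L {l m : ℕ → List ℕ} (hl : Computable l) (hm : Computable m) :
      Op fun p (q : ℕ × ℕ) => ∃ k, Lt ((pre p k).map (· = 1)) (l q.1) (m q.1) := by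
    have := lt_c t (hl.comp (f.comp s)) (hm.comp (f.comp s))
    exact Op.mk' (CeAlg.cs this) fun _ _ => Iff.rfl
  have p1 (k) : ((pre (fun i => (a i).toNat) k).map fun i => decide (i = 1)) = pr a k := by
    simp [pre, pr]
  have p2 (k) : (pr a k).map Bool.toNat = pre (fun i => (a i).toNat) k := by
    simp [pre, pr]
  obtain ⟨G, g1, g2⟩ := Pl.op_of_rec h
  have o1 : ComputablePred fun q : ℕ × ℕ => q.2 = 1 ∧ R q.1 :=
    cand (ceq s (Computable.const 1)) (cp hR f)
  have o2 : ComputablePred fun q : ℕ × ℕ => q.2 = 0 := ceq s (Computable.const 0)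
  have o3 : ComputablePred fun q : ℕ × ℕ => ¬ R q.1 ∨ (l q.1).Perm (m q.1) :=
    cor (cp hR f).not (perm_c (hl.comp f) (hm.comp f))
  have c : Cm fun p q => (p = fun i => (a i).toNat) ∧ q = fun n => if S n then 1 else 0 :=
    ⟨_, ((Op.cp o1).and (L hl hm)).or ((Op.cp o2).and ((Op.cp o3).or (L hm hl))), by
      rintro _ _ ⟨rfl, rfl⟩ n y
      simp only [p1, ← lt_iff, ← pe, e]
      rcases lt_trichotomy (sv (val a) (l n)) (sv (val a) (m n)) with o | o | o <;>
        by_cases k : R n <;> first | simp [k, o, o.ne, o.not_gt] | simp [k, o]⟩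
  have g3 : Op fun p n => ∃ y, G p (n, y) := g1.exd
  obtain ⟨P, ⟨E, e1, e2, e3⟩, e4⟩ := g3.sub c
  have e5 : Sig 1 _ fun z : ℕ × List Bool => E (z.2.map Bool.toNat, z.1) :=
    e1.comp ((cmap (f := fun _ b => Bool.toNat b) s
      ((Primrec.dom_finite Bool.toNat).to_comp.comp s).to₂).pair f)
  refine (g _ e5 fun x k => by simpa only [p2] using e2 _ _ _).of_eq fun x => if_congr ?_ rfl rfl
  simp only [p2, ← e3, e4 _ _ ⟨rfl, rfl⟩, g2, Part.dom_iff_mem]

end Pool.Agent.Lib.H8.Gk
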