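import Mathlib
import Pool.Agent.Lib.H8.Fnl

set_option maxHeartbeats 400000

namespace Pool.Agent.Lib.H8.Hechler

open Nat.Partrec Fnl

def seg (f : ℕ → ℕ) (n : ℕ) : List ℕ := (List.range n).map f

lemma seg_succ (f : ℕ → ℕ) (n : ℕ) : seg f (n + 1) = seg f n ++ [f n] := by
  simp [seg, List.range_succ]

@[simp] lemma seg_len (f : ℕ → ℕ) (n : ℕ) : (seg f n).length = n := by simp [seg]

lemma seg_congr {f g : ℕ → ℕ} {n : ℕ} : seg f n = seg g n ↔ ∀ i < n, f i = g i := by
  simp [seg]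

inductive Reach (c : Code) (n : ℕ) (t : ℕ → Bool) : List ℕ → Prop
  | base (σ : List ℕ) : (∀ f, seg f σ.length = σ → ∀ x < n, (t x).toNat ∈ ev (PFun.lift f) c x) →
      Reach c n t σ
  | step (σ : List ℕ) (S : Set ℕ) : S.Infinite → (∀ k ∈ S, Reach c n t (σ ++ [k])) → Reach c n t σ

lemma Reach.mono {c n m t t' σ} (h : Reach c n t σ) (hm : m ≤ n) (e : ∀ x < m, t x = t' x) :
    Reach c m t' σ := by
  induction h with
  | base σ h => exact .base σ fun f hf x hx => e x hx ▸ h f hf x (by omega)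
  | step σ S hS _ ih => exact .step σ S hS ih

def Obey (σ : List ℕ) (G : List ℕ → ℕ) : Set (ℕ → ℕ) :=
  {f | seg f σ.length = σ ∧ ∀ n, σ.length ≤ n → G (seg f n) ≤ f n}

lemma obey_ne (σ : List ℕ) (G : List ℕ → ℕ) : (Obey σ G).Nonempty := by
  let f := Orc.cov fun n κ => if n < σ.length then σ.getD n 0 else G (seg κ n)
  have hf : ∀ n, f n = if n < σ.length then σ.getD n 0 else G (seg f n) := fun n => by
    have h1 : f n = _ := Orc.cov_eq _ n
    rw [h1, (seg_congr (g := f)).2 fun i hi => if_pos hi]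
  refine ⟨f, List.ext_getElem (by simp) fun i h1 h2 => ?_, fun n hn => ?_⟩
  · simp only [seg, List.getElem_map, List.getElem_range]
    rw [hf, if_pos h2, List.getD_eq_getElem _ _ h2]
  · rw [hf n, if_neg (by omega)]

lemma obey_snoc {σ : List ℕ} {G : List ℕ → ℕ} {k : ℕ} (hk : G σ ≤ k) :
    Obey (σ ++ [k]) G ⊆ Obey σ G := by
  rintro f ⟨h1, h2⟩
  rw [List.length_append, List.length_singleton] at h1 h2
  rw [seg_succ] at h1
  obtain ⟨h3, h4⟩ := List.append_inj h1 (by simp)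
  refine ⟨h3, fun n hn => ?_⟩
  rcases hn.eq_or_lt with rfl | h
  · rw [h3, (List.cons.inj h4).1]; exact hk
  · exact h2 n h

lemma reach_ext {c n t σ} (h : Reach c n t σ) (G : List ℕ → ℕ) : ∃ σ' : List ℕ,
    σ.length ≤ σ'.length ∧ Obey σ' G ⊆ Obey σ G ∧
      ∀ f ∈ Obey σ' G, ∀ x < n, (t x).toNat ∈ ev (PFun.lift f) c x := by
  induction h with
  | base σ h => exact ⟨σ, le_rfl, subset_rfl, fun f hf => h f hf.1⟩
  | step σ S hS _ ih =>
    obtain ⟨k, hk, hlt⟩ := hS.exists_gt (G σ)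
    obtain ⟨σ', h1, h2, h3⟩ := ih k hk
    exact ⟨σ', by simp at h1; omega, h2.trans (obey_snoc hlt.le), h3⟩

lemma avoid {c n σ} (h : ∀ t, ¬ Reach c n t σ) (G : List ℕ → ℕ) : ∃ G', Obey σ G' ⊆ Obey σ G ∧
    ∀ f ∈ Obey σ G', ∀ t : ℕ → Bool, ¬ ∀ x < n, (t x).toNat ∈ ev (PFun.lift f) c x := by
  have key : ∀ ρ : List ℕ, ∃ b, (∀ t, ¬ Reach c n t ρ) → ∀ k, b ≤ k →
      ∀ t, ¬ Reach c n t (ρ ++ [k]) := by
    intro ρ
    by_cases hρ : ∀ t, ¬ Reach c n t ρ
    · let ext : (Fin n → Bool) → ℕ → Bool := fun s x => if h : x < n then s ⟨x, h⟩ else false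
      have hfin : (⋃ s : Fin n → Bool, {k | Reach c n (ext s) (ρ ++ [k])}).Finite :=
        Set.finite_iUnion fun s => by
          by_contra hinf
          exact hρ _ (.step ρ _ hinf fun k hk => hk)
      obtain ⟨b, hb⟩ := hfin.bddAbove
      refine ⟨b + 1, fun _ k hk t ht => ?_⟩
      have := hb (Set.mem_iUnion.2 ⟨fun i => t i, ht.mono le_rfl fun x hx => by simp [ext, hx]⟩)
      omega
    · exact ⟨0, fun h => absurd h hρ⟩
  choose b hb using key
  refine ⟨fun ρ => G ρ + b ρ, fun f hf => ⟨hf.1, fun m hm => le_trans (by simp) (hf.2 m hm)⟩,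
    fun f hf t ht => ?_⟩
  have hall : ∀ m, σ.length ≤ m → ∀ t, ¬ Reach c n t (seg f m) := by
    intro m hm
    induction m, hm using Nat.le_induction with
    | base => rw [hf.1]; exact h
    | succ m hm ih =>
      rw [seg_succ]
      exact hb _ ih _ (le_trans (by simp) (hf.2 m hm))
  obtain ⟨m, hm⟩ := use_tot f c n _ ht
  refine hall (σ.length + m) (by omega) t (.base _ fun f' hf' => hm f' fun i hi => ?_)
  rw [seg_len] at hf'
  exact seg_congr.1 hf' i (by omega)

lemma path {c σ} (h : ∀ n, ∃ t, Reach c n t σ) : ∃ t, ∀ n, Reach c n t σ := by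
  have hcl : ∀ n, IsClosed {t | Reach c n t σ} := fun n => by
    refine ⟨isOpen_iff_mem_nhds.2 fun t ht => ?_⟩
    have : ∀ᶠ t' in nhds t, ∀ x ∈ Finset.range n, t' x = t x :=
      (Filter.eventually_all_finset _).2 fun x _ =>
        (continuous_apply x).continuousAt.eventually (isOpen_discrete {t x} |>.mem_nhds rfl)
    exact this.mono fun t' h' h'' => ht (h''.mono le_rfl fun x hx => h' x (Finset.mem_range.2 hx))
  obtain ⟨t, ht⟩ := IsCompact.nonempty_iInter_of_sequence_nonempty_isCompact_isClosed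
    (fun n => {t | Reach c n t σ}) (fun n t ht => Reach.mono ht (by omega) fun _ _ => rfl) h
    (hcl 0).isCompact hcl
  exact ⟨t, fun n => Set.mem_iInter.1 ht n⟩

theorem main : ∃ q : Code → List ℕ → ℕ → Bool, ∀ (h : ℕ → ℕ) (Q : Set (ℕ → Bool)), IsClosed Q →
    (∀ c σ, q c σ ∉ Q) → ∃ f : ℕ → ℕ, (∀ n, h n ≤ f n) ∧
      ∀ c, ∀ y ∈ Q, ev (PFun.lift f) c ≠ PFun.lift fun n => (y n).toNat := by
  have hq : ∀ c σ, ∃ t, (∀ n, ∃ t, Reach c n t σ) → ∀ n, Reach c n t σ := fun c σ => by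
    by_cases h : ∀ n, ∃ t, Reach c n t σ
    · exact (path h).imp fun t ht _ => ht
    · exact ⟨fun _ => false, fun h' => absurd h' h⟩
  choose q hq using hq
  refine ⟨q, fun h Q hQ hnot => ?_⟩
  have step : ∀ (c : Code) (p : List ℕ × (List ℕ → ℕ)), ∃ p' : List ℕ × (List ℕ → ℕ),
      p.1.length < p'.1.length ∧ Obey p'.1 p'.2 ⊆ Obey p.1 p.2 ∧ ∀ f ∈ Obey p'.1 p'.2, ∀ y ∈ Q,
        ev (PFun.lift f) c ≠ PFun.lift fun n => (y n).toNat := by
    rintro c ⟨σ, G⟩
    suffices H : ∃ σ' G', σ.length ≤ List.length σ' ∧ Obey σ' G' ⊆ Obey σ G ∧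
        ∀ f ∈ Obey σ' G', ∀ y ∈ Q, ev (PFun.lift f) c ≠ PFun.lift fun n => (y n).toNat by
      obtain ⟨σ', G', h1, h2, h3⟩ := H
      exact ⟨(σ' ++ [G' σ'], G'), by simp; omega, (obey_snoc le_rfl).trans h2,
        fun f hf => h3 f (obey_snoc le_rfl hf)⟩
    by_cases hr : ∀ n, ∃ t, Reach c n t σ
    · obtain ⟨n, hn⟩ : ∃ n, ∀ y ∈ Q, ¬ ∀ x < n, y x = q c σ x := by
        by_contra hcon
        push Not at hcon
        choose y hy1 hy2 using hcon
        refine hnot c σ (hQ.mem_of_tendsto (f := y) (b := Filter.atTop) (tendsto_pi_nhds.2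
          fun x => tendsto_const_nhds.congr' ?_) (Filter.Eventually.of_forall hy1))
        filter_upwards [Filter.eventually_gt_atTop x] with n hn using (hy2 n x hn).symm
      obtain ⟨σ', h1, h2, h3⟩ := reach_ext (hq c σ hr n) G
      refine ⟨σ', G, h1, h2, fun f hf y hy e => hn y hy fun x hx => ?_⟩
      have := h3 f hf x hx
      rw [e] at this
      have h4 : (q c σ x).toNat = (y x).toNat := by simpa [PFun.lift] using this
      revert h4
      cases q c σ x <;> cases y x <;> simp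
    · push Not at hr
      obtain ⟨n, hn⟩ := hr
      obtain ⟨G', h1, h2⟩ := avoid hn G
      exact ⟨σ, G', le_rfl, h1, fun f hf y _ e => h2 f hf y fun x _ => by simp [e, PFun.lift]⟩
  choose nx h1 h2 h3 using step
  let p : ℕ → List ℕ × (List ℕ → ℕ) := fun j =>
    Nat.rec ([], fun ρ => h ρ.length) (fun j p => nx (Denumerable.ofNat Code j) p) j
  have hlen : ∀ j, j ≤ (p j).1.length := fun j => by
    induction j with
    | zero => omega
    | succ j ih => exact Nat.succ_le_of_lt (ih.trans_lt (h1 _ _))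
  obtain ⟨f, hf⟩ := fusion (C := fun j => Obey (p j).1 (p j).2) (fun j => obey_ne _ _)
    (fun j => h2 _ _) (fun j f hf g hg i hi =>
      seg_congr.1 (hf.1.trans hg.1.symm) i (hi.trans_le (hlen j))) (fun j f hf => by
      constructor
      · obtain ⟨g, hg, e⟩ := hf (p j).1.length
        exact (seg_congr.2 e).symm.trans hg.1
      · intro n hn
        obtain ⟨g, hg, e⟩ := hf (n + 1)
        rw [← e n (by omega), ← seg_congr.2 fun i hi => e i (by omega)]
        exact hg.2 n hn)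
  refine ⟨f, fun n => by simpa [p] using (hf 0).2 n (by simp [p]), fun c => ?_⟩
  have := h3 _ _ f (hf (Encodable.encode c + 1))
  rwa [Denumerable.ofNat_encode] at this

end Pool.Agent.Lib.H8.Hechler
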