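import Mathlib

set_option maxHeartbeats 400000

namespace Pool.Agent.Lib.H8.Hyp2
open PowerSeries Finset

def A : Subring ℚ where
  carrier := {q | Odd q.den}
  mul_mem' {a b} ha hb := Odd.of_dvd_nat (Odd.mul ha hb) (Rat.mul_den_dvd a b)
  add_mem' {a b} ha hb := Odd.of_dvd_nat (Odd.mul ha hb) (Rat.add_den_dvd a b)
  one_mem' := by simp
  zero_mem' := by simp
  neg_mem' {a} ha := by simpa using ha

lemma A_inv (o : ℤ) (ho : Odd o) : (o : ℚ)⁻¹ ∈ A := by
  have h0 : o ≠ 0 := by rintro rfl; simp at ho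
  show Odd ((o : ℚ)⁻¹).den
  rw [Rat.inv_intCast_den, if_neg h0]
  exact Int.natAbs_odd.2 ho

lemma A_div (o : ℤ) (ho : Odd o) (q : ℚ) (h : o * q ∈ A) : q ∈ A := by
  have h0 : (o : ℚ) ≠ 0 := by
    have : o ≠ 0 := by rintro rfl; simp at ho
    exact_mod_cast this
  have := A.mul_mem (A_inv o ho) h
  rwa [← mul_assoc, inv_mul_cancel₀ h0, one_mul] at this

def R : Subring ℚ⟦X⟧ where
  carrier := {f | ∀ n, coeff n f ∈ A}
  mul_mem' {a b} ha hb n := by
    rw [coeff_mul]; exact A.sum_mem fun p _ => A.mul_mem (ha _) (hb _)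
  add_mem' {a b} ha hb n := by rw [map_add]; exact A.add_mem (ha n) (hb n)
  one_mem' n := by rw [coeff_one]; split_ifs; exacts [A.one_mem, A.zero_mem]
  zero_mem' n := by rw [map_zero]; exact A.zero_mem
  neg_mem' {a} ha n := by rw [map_neg]; exact A.neg_mem (ha n)

lemma R_X : (X : ℚ⟦X⟧) ∈ R := fun n => by
  rw [coeff_X]; split_ifs; exacts [A.one_mem, A.zero_mem]

lemma R_C (q : ℚ) (h : q ∈ A) : C q ∈ R := fun n => by
  rw [coeff_C]; split_ifs; exacts [h, A.zero_mem]

noncomputable def th (f : ℚ⟦X⟧) : ℚ⟦X⟧ := X * d⁄dX ℚ f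

lemma coeff_th (f : ℚ⟦X⟧) (n : ℕ) : coeff n (th f) = n * coeff n f := by
  cases n with
  | zero => simp [th]
  | succ n => rw [th, coeff_succ_X_mul, coeff_derivative]; push_cast; ring

lemma th_mul (f g : ℚ⟦X⟧) : th (f * g) = th f * g + f * th g := by
  simp only [th, Derivation.leibniz, smul_eq_mul]; ring

lemma th_add (f g : ℚ⟦X⟧) : th (f + g) = th f + th g := by simp only [th, map_add]; ring
lemma th_sub (f g : ℚ⟦X⟧) : th (f - g) = th f - th g := by simp only [th, map_sub]; ring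
lemma th_X : th X = X := by simp [th]
lemma th_C (q : ℚ) : th (C q) = 0 := by simp [th]
lemma th_nat (k : ℕ) [k.AtLeastTwo] : th (ofNat(k) : ℚ⟦X⟧) = 0 := by
  rw [← map_ofNat (C (R := ℚ)) k, th_C]
lemma th_one : th 1 = 0 := by simp [th]

lemma R_th {f : ℚ⟦X⟧} (h : f ∈ R) : th f ∈ R := fun n => by
  rw [coeff_th]; exact A.mul_mem (natCast_mem A n) (h n)

lemma cn (k : ℕ) [k.AtLeastTwo] (f : ℚ⟦X⟧) (n : ℕ) :
    coeff n ((ofNat(k) : ℚ⟦X⟧) * f) = (ofNat(k) : ℚ) * coeff n f := by
  rw [← map_ofNat (C (R := ℚ)) k, coeff_C_mul]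

lemma solve (k o : ℤ) (ho : Odd o) (μ g : ℚ⟦X⟧) (hμ : μ ∈ R) (h0 : coeff 0 μ = 0)
    (h : C (2 * k : ℚ) * th g + μ * g + C (o : ℚ) * g ∈ R) : g ∈ R := by
  intro n
  induction n using Nat.strong_induction_on with
  | _ n ih =>
    have h1 := h n
    rw [map_add, map_add, coeff_C_mul, coeff_C_mul, coeff_th] at h1
    have h2 : coeff n (μ * g) ∈ A := by
      rw [coeff_mul]
      refine A.sum_mem fun p hp => ?_
      have hp' := mem_antidiagonal.1 hp
      by_cases h3 : p.1 = 0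
      · rw [h3, h0, zero_mul]; exact A.zero_mem
      · exact A.mul_mem (hμ _) (ih _ (by omega))
    apply A_div (2 * (k * n) + o) (by exact Even.add_odd (even_two_mul _) ho)
    have := A.sub_mem h1 h2
    convert this using 1
    push_cast; ring

lemma R_div {f g : ℚ⟦X⟧} (hf : f ∈ R) (h0 : coeff 0 f = 1) (h : f * g ∈ R) : g ∈ R := by
  refine solve 0 1 odd_one (f - 1) g (R.sub_mem hf R.one_mem) (by rw [map_sub, h0]; simp) ?_
  convert h using 1
  simp; ring

def poch (x : ℚ) (n : ℕ) : ℚ := ∏ i ∈ range n, (x + i)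

noncomputable def F (α β γ : ℚ) : ℚ⟦X⟧ :=
  PowerSeries.mk fun n => poch α n * poch β n / (poch γ n * n.factorial) * 4 ^ n

lemma poch_s (x : ℚ) (n : ℕ) : poch x (n + 1) = poch x n * (x + n) := prod_range_succ _ _
lemma poch_s' (x : ℚ) (n : ℕ) : x * poch (x + 1) n = poch x n * (x + n) := by
  rw [← poch_s, poch, poch, prod_range_succ']
  simp only [Nat.cast_zero, add_zero, Nat.cast_add, Nat.cast_one]
  rw [mul_comm]
  congr 1
  exact prod_congr rfl fun i _ => by ring
lemma poch_pos (x : ℚ) (hx : 0 < x) (n : ℕ) : 0 < poch x n :=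
  prod_pos fun i _ => by positivity

lemma F0 (α β γ : ℚ) : coeff 0 (F α β γ) = 1 := by simp [F, poch]

lemma Frec (α β γ : ℚ) (hγ : 0 < γ) (n : ℕ) :
    coeff (n + 1) (F α β γ) * ((γ + n) * (n + 1)) = 4 * (α + n) * (β + n) * coeff n (F α β γ) := by
  have h1 := (poch_pos γ hγ n).ne'
  have h2 : (n.factorial : ℚ) ≠ 0 := by positivity
  have h3 : γ + n ≠ 0 := by positivity
  have h4 : (n : ℚ) + 1 ≠ 0 := by positivity
  simp only [F, coeff_mk, poch_s, Nat.factorial_succ]
  push_cast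
  field_simp
  ring

lemma F_comm (α β γ : ℚ) : F α β γ = F β α γ := by
  ext n; simp only [F, coeff_mk]; ring

lemma F_up (α β γ : ℚ) : C α * F (α + 1) β γ = C α * F α β γ + th (F α β γ) := by
  ext n
  rw [map_add, coeff_C_mul, coeff_C_mul, coeff_th]
  simp only [F, coeff_mk]
  linear_combination (poch β n / (poch γ n * n.factorial) * 4 ^ n) * poch_s' α n

lemma F_upc (α β γ : ℚ) (hγ : 0 < γ) :
    C γ * F α β γ = C γ * F α β (γ + 1) + th (F α β (γ + 1)) := by
  ext n
  rw [map_add, coeff_C_mul, coeff_C_mul, coeff_th]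
  simp only [F, coeff_mk]
  have h1 := (poch_pos γ hγ n).ne'
  have h2 : (n.factorial : ℚ) ≠ 0 := by positivity
  have h3 := (poch_pos (γ + 1) (by positivity) n).ne'
  have h4 := poch_s' γ n
  field_simp
  linear_combination (poch α n * poch β n) * h4

noncomputable def D : ℚ⟦X⟧ := F (1 / 4) (1 / 4) (1 / 2)
noncomputable def N : ℚ⟦X⟧ := F (3 / 4) (3 / 4) (3 / 2)

lemma odeD : 4 * th (th D) - 2 * th D = X * (16 * th (th D) + 8 * th D + D) := by
  ext n
  cases n with
  | zero => simp [th]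
  | succ n =>
    have := Frec (1 / 4) (1 / 4) (1 / 2) (by norm_num) n
    simp only [map_sub, map_add, cn, coeff_succ_X_mul, coeff_th, D]
    push_cast
    linear_combination 4 * this

lemma odeN : 4 * th (th N) + 2 * th N = X * (16 * th (th N) + 24 * th N + 9 * N) := by
  ext n
  cases n with
  | zero => simp [th]
  | succ n =>
    have := Frec (3 / 4) (3 / 4) (3 / 2) (by norm_num) n
    simp only [map_sub, map_add, cn, coeff_succ_X_mul, coeff_th, N]
    push_cast
    linear_combination 4 * this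

lemma odeS : 2 * th (th (th (D * D))) - 3 * th (th (D * D)) + th (D * D)
    = X * (16 * th (th (th (D * D))) + 2 * th (D * D)
      - X * (32 * th (th (th (D * D))) + 48 * th (th (D * D)) + 24 * th (D * D) + 4 * (D * D))) := by
  have h1 := odeD
  have h2 := congrArg th odeD
  simp only [th_mul, th_add, th_sub, th_nat, th_X] at h2 ⊢
  linear_combination ((1 - 4 * X) * D) * h2 + (3 * (1 - 4 * X) * th D - D) * h1

lemma D0 : coeff 0 D = 1 := F0 _ _ _

lemma S_int : D * D ∈ R := by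
  have hT : ∀ n : ℕ, coeff n (D * D) * n.factorial * 2 / 2 ^ n ∈ A := by
    intro n
    induction n using Nat.twoStepInduction with
    | zero =>
      have : coeff 0 (D * D) = 1 := by rw [coeff_mul]; simp [← coeff_zero_eq_constantCoeff_apply, D0]
      rw [this]; norm_num
    | one =>
      have h1 := Frec (1 / 4) (1 / 4) (1 / 2) (by norm_num) 0
      rw [F0] at h1
      have h2 : coeff 1 D = 1 / 2 := by
        norm_num at h1; rw [D]; linarith
      have : coeff 1 (D * D) = 1 := by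
        rw [coeff_mul, Nat.antidiagonal_succ]; simp [h2, ← coeff_zero_eq_constantCoeff_apply, D0]
        norm_num
      rw [this]; norm_num
    | more n h0 h1 =>
      have h := congrArg (coeff (n + 2)) odeS
      simp only [map_sub, map_add, cn, coeff_succ_X_mul, coeff_th] at h
      apply A_div (2 * (n + 1) + 1) (odd_two_mul_add_one _)
      have := A.sub_mem (A.mul_mem (natCast_mem A (8 * (n + 1) ^ 2 + 1)) h1)
        (A.mul_mem (natCast_mem A ((2 * n + 1) ^ 3)) h0)
      convert this using 1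
      simp only [Nat.factorial_succ]
      push_cast at h ⊢
      linear_combination ((n.factorial : ℚ) / 2 ^ n / 2) * h
  intro n
  by_cases hn : n = 0
  · subst hn
    have : coeff 0 (D * D) = 1 := by rw [coeff_mul]; simp [← coeff_zero_eq_constantCoeff_apply, D0]
    rw [this]; exact A.one_mem
  · obtain ⟨j, o, ho, h⟩ := Nat.exists_eq_two_pow_mul_odd (Nat.factorial_ne_zero n)
    have hj : j < n := by
      by_contra hc
      have h1 : 2 ^ n ∣ n.factorial := by
        rw [h]; exact (pow_dvd_pow 2 (by omega)).mul_right _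
      exact emultiplicity_lt_iff_not_dvd.1 (Nat.emultiplicity_two_factorial_lt hn) h1
    obtain ⟨e, rfl⟩ : ∃ e, n = j + e + 1 := ⟨n - j - 1, by omega⟩
    apply A_div o (by exact_mod_cast ho)
    have := A.mul_mem (A.pow_mem (natCast_mem A 2) e) (hT (j + e + 1))
    convert this using 1
    rw [h]; push_cast; field_simp; ring

lemma D_ne : constantCoeff D ≠ 0 := by
  rw [← coeff_zero_eq_constantCoeff_apply, D0]; exact one_ne_zero

lemma D_inv : D * D⁻¹ = 1 := PowerSeries.mul_inv_cancel _ D_ne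

lemma SS0 : coeff 0 (D * D) = 1 := by
  rw [coeff_mul]; simp [← coeff_zero_eq_constantCoeff_apply, D0]

lemma mu : ∃ μ ∈ R, coeff 0 μ = 0 ∧ 2 * th D = μ * D := by
  refine ⟨2 * th D * D⁻¹, R_div S_int SS0 ?_, by simp [th], ?_⟩
  · have : D * D * (2 * th D * D⁻¹) = th (D * D) := by
      rw [th_mul]; linear_combination (2 * D * th D) * D_inv
    rw [this]; exact R_th S_int
  · linear_combination (-2 * th D) * D_inv

def M (f : ℚ⟦X⟧) : Prop := ∃ g ∈ R, f = g * D

lemma M_N : M N := by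
  have h1 := odeD
  have h2 := odeN
  have hw : th ((1 - 4 * X) * (D * (2 * th N + N) - 2 * N * th D)) = 0 := by
    have h3 : 2 * th ((1 - 4 * X) * (D * (2 * th N + N) - 2 * N * th D)) = 0 := by
      simp only [th_mul, th_add, th_sub, th_nat, th_X, th_one]
      linear_combination D * h2 - N * h1
    have h4 : C (1 / 2 : ℚ) * (2 : ℚ⟦X⟧) = 1 := by
      rw [← map_ofNat (C (R := ℚ)) 2, ← map_mul]; norm_num
    linear_combination C (1 / 2 : ℚ) * h3
      - th ((1 - 4 * X) * (D * (2 * th N + N) - 2 * N * th D)) * h4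
  have hw1 : (1 - 4 * X) * (D * (2 * th N + N) - 2 * N * th D) = 1 := by
    ext n
    cases n with
    | zero =>
      have a1 : constantCoeff D = 1 := by rw [← coeff_zero_eq_constantCoeff_apply, D0]
      have a2 : constantCoeff N = 1 := by rw [← coeff_zero_eq_constantCoeff_apply]; exact F0 _ _ _
      simp [a1, a2, th]
    | succ n =>
      have := congrArg (coeff (n + 1)) hw
      rw [coeff_th, map_zero] at this
      rw [coeff_one, if_neg (by omega)]
      exact (mul_eq_zero.1 this).resolve_left (by positivity)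
  obtain ⟨Q, hQ⟩ : ∃ Q, N = Q * D := ⟨N * D⁻¹, by linear_combination (-N) * D_inv⟩
  refine ⟨Q, ?_, hQ⟩
  rw [hQ, th_mul] at hw1
  have h4 : (1 - 4 * X) * (D * D) ∈ R :=
    R.mul_mem (R.sub_mem R.one_mem (R.mul_mem (natCast_mem R 4) R_X)) S_int
  have h5 : 2 * th Q + Q ∈ R := by
    refine R_div h4 ?_ ?_
    · have a1 : constantCoeff D = 1 := by rw [← coeff_zero_eq_constantCoeff_apply, D0]
      simp [a1]
    · have : (1 - 4 * X) * (D * D) * (2 * th Q + Q) = 1 := by linear_combination hw1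
      rw [this]; exact R.one_mem
  refine solve 1 1 odd_one 0 Q R.zero_mem (by simp) ?_
  convert h5 using 1
  simp [map_ofNat]

lemma M_up (α β γ : ℚ) (o : ℤ) (ho : Odd o) (hα : 4 * α = o) (h : M (F α β γ)) :
    M (F (α + 1) β γ) := by
  obtain ⟨μ, hμ, -, h2⟩ := mu
  obtain ⟨g, hg, h1⟩ := h
  have h0 : (o : ℚ) ≠ 0 := by
    have : o ≠ 0 := by rintro rfl; simp at ho
    exact_mod_cast this
  have h3 := F_up α β γ
  rw [h1, th_mul] at h3
  have h4 : C (o : ℚ)⁻¹ * (4 * C α) = (1 : ℚ⟦X⟧) := by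
    rw [← map_ofNat (C (R := ℚ)) 4, ← map_mul, ← map_mul, hα, inv_mul_cancel₀ h0, map_one]
  refine ⟨g + C (o : ℚ)⁻¹ * (4 * th g + 2 * (μ * g)), R.add_mem hg (R.mul_mem (R_C _ (A_inv o ho))
    (R.add_mem (R.mul_mem (natCast_mem R 4) (R_th hg)) (R.mul_mem (natCast_mem R 2)
      (R.mul_mem hμ hg)))), ?_⟩
  linear_combination (4 * C (o : ℚ)⁻¹) * h3 + (2 * C (o : ℚ)⁻¹ * g) * h2
    + (g * D - F (α + 1) β γ) * h4

lemma M_upc (α β γ : ℚ) (o : ℤ) (ho : Odd o) (hγ : 0 < γ) (hα : 2 * γ = o) (h : M (F α β γ)) :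
    M (F α β (γ + 1)) := by
  obtain ⟨μ, hμ, hμ0, h2⟩ := mu
  obtain ⟨g, hg, h1⟩ := h
  obtain ⟨Q, hQ⟩ : ∃ Q, F α β (γ + 1) = Q * D :=
    ⟨F α β (γ + 1) * D⁻¹, by linear_combination (-F α β (γ + 1)) * D_inv⟩
  refine ⟨Q, solve 1 o ho μ Q hμ hμ0 ?_, hQ⟩
  have h3 := F_upc α β γ hγ
  rw [h1, hQ, th_mul] at h3
  have h4 : C (o : ℚ) = (2 * C γ : ℚ⟦X⟧) := by rw [← hα, map_mul, map_ofNat]
  have : C (2 * ((1 : ℤ) : ℚ)) * th Q + μ * Q + C (o : ℚ) * Q = C (o : ℚ) * g := by
    rw [h4, Int.cast_one, mul_one, map_ofNat]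
    linear_combination (-2 * D⁻¹) * h3 - (Q * D⁻¹) * h2
      - (2 * th Q + μ * Q + 2 * C γ * Q - 2 * C γ * g) * D_inv
  rw [this]
  exact R.mul_mem (R_C _ (intCast_mem A o)) hg

lemma M_all (α γ : ℚ) (o p : ℤ) (ho : Odd o) (hp : Odd p) (h1 : 4 * α = o) (h2 : 2 * γ = p)
    (hγ : 0 < γ) (h : M (F α α γ)) (a b c : ℕ) : M (F (α + a) (α + b) (γ + c)) := by
  induction c with
  | zero =>
    induction b with
    | zero =>
      induction a with
      | zero => simpa using h
      | succ a ih =>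
        have := M_up _ _ _ (o + 2 * (2 * a)) (ho.add_even (even_two_mul _))
          (by push_cast; linarith) ih
        rwa [Nat.cast_succ, ← add_assoc]
    | succ b ih =>
      rw [F_comm] at ih
      have := M_up _ _ _ (o + 2 * (2 * b)) (ho.add_even (even_two_mul _))
        (by push_cast; linarith) ih
      rwa [Nat.cast_succ b, ← add_assoc, F_comm]
  | succ c ih =>
    have := M_upc _ _ _ (p + 2 * c) (hp.add_even (even_two_mul _)) (by positivity)
      (by push_cast; linarith) ih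
    rwa [Nat.cast_succ c, ← add_assoc]

theorem main (a b c d e f : ℕ) (Q : ℚ⟦X⟧)
    (h : Q * F (1 / 4 + d) (1 / 4 + e) (1 / 2 + f) = F (3 / 4 + a) (3 / 4 + b) (3 / 2 + c)) :
    Q ∈ R := by
  obtain ⟨g1, k1, e1⟩ := M_all (3 / 4) (3 / 2) 3 3 (by decide) (by decide) (by norm_num)
    (by norm_num) (by norm_num) M_N a b c
  obtain ⟨g2, k2, e2⟩ := M_all (1 / 4) (1 / 2) 1 1 odd_one odd_one (by norm_num)
    (by norm_num) (by norm_num) ⟨1, R.one_mem, by rw [one_mul]; rfl⟩ d e f
  have h0 : coeff 0 g2 = 1 := by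
    have := F0 (1 / 4 + d) (1 / 4 + e) (1 / 2 + f)
    rw [e2, coeff_mul, Nat.antidiagonal_zero, sum_singleton, D0, mul_one] at this
    exact this
  refine R_div k2 h0 ?_
  have : g2 * Q = g1 := by
    rw [e1, e2] at h
    linear_combination D⁻¹ * h - (g2 * Q - g1) * D_inv
  rw [this]; exact k1

end Pool.Agent.Lib.H8.Hyp2
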