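import Pool.Agent.Lib.H8.Rnd1

/-!
Basic tools for plain and prefix-free description machines.
-/

namespace Pool.Agent.Lib.H8.Kc

open MeasureTheory Arith CList Qm Rnd Finset Nat.Partrec Nat.Partrec.Code Classical

section
variable {α β : Type} [Primcodable α] [Primcodable β]

lemma sig_nf {A : α → Prop} (h : Sig 1 α A) :
    ∃ B : α × ℕ → Prop, ComputablePred B ∧ ∀ a, A a ↔ ∃ t, B (a, t) := by
  obtain ⟨B, b, e⟩ := h
  exact ⟨B, (ComputablePred.not b).of_eq fun p => by simp, e⟩

lemma sig_ex {A : α × β → Prop} (h : Sig 1 _ A) : Sig 1 α fun a => ∃ b, A (a, b) := by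
  have c : Computable fun q : α × ℕ => (Encodable.decode q.2 : Option β) :=
    Computable.decode.comp Computable.snd
  obtain ⟨B, b, e⟩ := sig_nf h
  have d : Computable fun q : (α × ℕ) × ℕ =>
      (Encodable.decode (α := β) q.1.2).map fun y => decide (B ((q.1.1, y), q.2)) :=
    Computable.option_map (c.comp Computable.fst) (b.decide.comp
      (((Computable.fst.comp (Computable.fst.comp Computable.fst)).pair Computable.snd).pair
        (Computable.snd.comp Computable.fst))).to₂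
  refine (Sig.ex (Sig.ex (CeAlg.cs (ceq d (Computable.const (some true)))))).of_eq fun a => ?_
  simp only [Option.map_eq_some_iff, decide_eq_true_eq, e]
  exact ⟨fun ⟨_, t, y, _, k⟩ => ⟨y, t, k⟩,
    fun ⟨y, t, k⟩ => ⟨Encodable.encode y, t, y, by simp, k⟩⟩

lemma graph {f : α →. β} (hf : Partrec f) : Sig 1 (α × β) fun q => q.2 ∈ f q.1 := by
  obtain ⟨c, hc⟩ := exists_code.1 hf
  refine (ev_sig.comp (f := fun q : α × β => (Encodable.encode c, Encodable.encode q.1,
    Encodable.encode q.2)) ((Computable.const _).pair ((Computable.encode.comp Computable.fst).pair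
      (Computable.encode.comp Computable.snd)))).of_eq fun q => ?_
  simp [hc]

/-- Uniformization of semidecidable relations. -/
lemma unif {R : α × β → Prop} (h : Sig 1 _ R) : ∃ f : α →. β, Partrec f ∧
    (∀ a b, b ∈ f a → R (a, b)) ∧ ∀ a b, R (a, b) → ∃ b', b' ∈ f a := by
  obtain ⟨B, b, e⟩ := sig_nf h
  let g : α → ℕ → Option β := fun a n => (Encodable.decode (α := β × ℕ) n).bind fun y =>
    if B ((a, y.1), y.2) then some y.1 else none
  have hg : Computable₂ g := Computable.option_bind (Computable.decode.comp Computable.snd)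
    (cite (cp b (((Computable.fst.comp Computable.fst).pair (Computable.fst.comp
      Computable.snd)).pair (Computable.snd.comp Computable.snd))) (Computable.option_some.comp
        (Computable.fst.comp Computable.snd)) (Computable.const none)).to₂
  refine ⟨fun a => Nat.rfindOpt (g a), Partrec.rfindOpt hg, fun a y k => ?_, fun a y k => ?_⟩
  · obtain ⟨n, hn⟩ := Nat.rfindOpt_spec k
    simp only [g, Option.mem_def, Option.bind_eq_some_iff, Option.ite_none_right_eq_some,
      Option.some.injEq] at hn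
    obtain ⟨z, -, h1, rfl⟩ := hn
    exact (e _).2 ⟨_, h1⟩
  · obtain ⟨t, ht⟩ := (e _).1 k
    exact Part.dom_iff_mem.1 (Nat.rfindOpt_dom.2 ⟨Encodable.encode (y, t), y, by simp [g, ht]⟩)

lemma cnt_sig {A : α × ℕ → Prop} (h : Sig 1 _ A) {N m k : α → ℕ} (hN : Computable N)
    (hm : Computable m) (hk : Computable k) :
    Sig 1 α fun a => m a ≤ k a * #{i ∈ range (N a) | A (a, i)} := by
  obtain ⟨B, b, e⟩ := sig_nf h
  have f := @Computable.fst
  have s := @Computable.snd
  have c : ComputablePred fun q : (α × ℕ) × ℕ => ∃ u < q.1.2, B ((q.1.1, q.2), u) :=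
    cbex (s.comp f) (cp b ((((f.comp f).comp f).pair (s.comp f)).pair s))
  refine (Sig.ex (CeAlg.cs (cle (hm.comp f) (Primrec.nat_mul.to_comp.comp (hk.comp f)
    (Computable.list_length.comp (cfilter (p := fun (q : α × ℕ) i => ∃ u < q.2, B ((q.1, i), u))
      (Primrec.list_range.to_comp.comp (hN.comp f)) c)))))).of_eq fun a => ?_
  change (∃ t, m a ≤ k a * #{i ∈ range (N a) | ∃ u < t, B ((a, i), u)}) ↔ _
  refine ⟨fun ⟨t, ht⟩ => ht.trans (Nat.mul_le_mul_left _ (card_le_card fun i => ?_)), fun z => ?_⟩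
  · simp only [mem_filter, e]
    exact And.imp_right fun ⟨u, _, k⟩ => ⟨u, k⟩
  · have : ∀ i, ∃ u, A (a, i) → B ((a, i), u) := fun i => by
      by_cases y : A (a, i)
      · exact ((e _).1 y).imp fun _ k _ => k
      · exact ⟨0, fun k => (y k).elim⟩
    choose u hu using this
    refine ⟨(range (N a)).sup u + 1, z.trans (Nat.mul_le_mul_left _ (card_le_card fun i => ?_))⟩
    simp only [mem_filter]
    exact fun ⟨k, l⟩ => ⟨k, _, Nat.lt_succ_of_le (le_sup k), hu i l⟩

end

/-- A self-delimiting numeral in front of a string. -/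
def tag (e : ℕ) (q : List Bool) : List Bool := List.replicate e false ++ true :: q

@[simp] lemma tag_len (e : ℕ) (q : List Bool) : (tag e q).length = q.length + e + 1 := by
  simp [tag]; omega

lemma tag_pre : ∀ {e e' : ℕ} {q q' : List Bool}, tag e q <+: tag e' q' → e = e' ∧ q <+: q'
  | 0, 0, _, _, h => by simpa [tag] using h
  | 0, _ + 1, _, _, h => by simp [tag, List.replicate_succ] at h
  | _ + 1, 0, _, _, h => by simp [tag, List.replicate_succ] at h
  | _ + 1, _ + 1, _, _, h => by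
    simp only [tag, List.replicate_succ, List.cons_append, List.cons_prefix_cons, true_and] at h
    simpa using tag_pre h

lemma tag_inj {e e' : ℕ} {q q' : List Bool} (h : tag e q = tag e' q') : e = e' ∧ q = q' := by
  obtain ⟨rfl, -⟩ := tag_pre (h ▸ List.prefix_rfl : tag e q <+: tag e' q')
  simpa [tag] using h

lemma tag_c {α : Type} [Primcodable α] {e : α → ℕ} {q : α → List Bool} (he : Computable e)
    (hq : Computable q) : Computable fun a => tag (e a) (q a) :=
  (Computable.list_append.comp (cmap (Primrec.list_range.to_comp.comp he)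
    (Computable.const false).to₂) (Computable.list_cons.comp (Computable.const true) hq)).of_eq
      fun a => by simp [tag]

lemma bits_inj {i j n : ℕ} (hi : i < 2 ^ n) (hj : j < 2 ^ n)
    (h : pr i.testBit n = pr j.testBit n) : i = j :=
  Nat.eq_of_testBit_eq fun k => by
    by_cases l : k < n
    · exact pr_eq.1 h k l
    · have := Nat.pow_le_pow_right (show 0 < 2 by norm_num) (not_lt.1 l)
      rw [Nat.testBit_lt_two_pow (by omega), Nat.testBit_lt_two_pow (by omega)]

lemma kraft {ι : Type} (F : Finset ι) (c : ι → List Bool)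
    (h : ∀ i ∈ F, ∀ j ∈ F, c i <+: c j → i = j) : ∑ i ∈ F, (2⁻¹ : ℝ) ^ (c i).length ≤ 1 := by
  have k : ∀ i j ω, ω ∈ cyl (c i) → ω ∈ cyl (c j) → (c i).length ≤ (c j).length → c i <+: c j :=
    fun i j ω a b l => by
      rw [← a, ← b, ← pr_take ω l]
      exact List.take_prefix _ _
  have := measure_biUnion_finset (μ := mu) (s := F) (f := fun i => cyl (c i))
    (fun i hi j hj ij => Set.disjoint_left.2 fun ω a b => ij <| by
      rcases le_total (c i).length (c j).length with l | l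
      · exact h i hi j hj (k i j ω a b l)
      · exact (h j hj i hi (k j i ω b a l)).symm) fun _ _ => cyl_meas _
  have e := ENNReal.toReal_mono ENNReal.one_ne_top (this.symm.trans_le prob_le_one)
  rw [ENNReal.toReal_sum fun _ _ => measure_ne_top _ _] at e
  simpa [mu_cyl] using e

/-- The length of a shortest program. -/
noncomputable def cx (W : List Bool →. List Bool) (x : List Bool) : ℕ :=
  sInf {m : ℕ | ∃ q : List Bool, q.length = m ∧ x ∈ W q}

lemma cx_le {W : List Bool →. List Bool} {x q : List Bool} (h : x ∈ W q) : cx W x ≤ q.length :=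
  Nat.sInf_le ⟨q, rfl, h⟩

lemma cx_spec {W : List Bool →. List Bool} (h : ∀ x, ∃ q, x ∈ W q) (x : List Bool) :
    ∃ q : List Bool, q.length = cx W x ∧ x ∈ W q :=
  Nat.sInf_mem (s := {m : ℕ | ∃ q : List Bool, q.length = m ∧ x ∈ W q})
    ((h x).elim fun q k => ⟨_, q, rfl, k⟩)

lemma cx_sig {W : List Bool →. List Bool} (hW : Partrec W) (h : ∀ x, ∃ q, x ∈ W q) :
    Sig 1 (List Bool × ℕ) fun z => cx W z.1 ≤ z.2 := by
  refine (sig_ex (A := fun z : (List Bool × ℕ) × List Bool => z.1.1 ∈ W z.2 ∧ z.2.length ≤ z.1.2)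
    (((graph hW).comp (Computable.snd.pair (Computable.fst.comp Computable.fst))).and
      (CeAlg.cs (cle (Computable.list_length.comp Computable.snd)
        (Computable.snd.comp Computable.fst))))).of_eq fun z => ?_
  exact ⟨fun ⟨q, a, b⟩ => (cx_le a).trans b, fun k => (cx_spec h z.1).imp fun q l =>
    ⟨l.2, l.1.trans_le k⟩⟩

lemma cx_card {W : List Bool →. List Bool} (h : ∀ x, ∃ q, x ∈ W q) (F : Finset (List Bool))
    (l : ℕ) (hF : ∀ x ∈ F, cx W x ≤ l) : #F ≤ 2 ^ (l + 1) := by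
  choose q q1 q2 using cx_spec h
  have e : ∀ x ∈ F, (tag (l - cx W x) (q x)).length = l + 1 := fun x hx => by
    have := hF x hx
    rw [tag_len, q1]
    omega
  have := kraft F (fun x => tag (l - cx W x) (q x)) fun x hx y hy k =>
    Part.mem_unique (q2 x) ((tag_inj (k.eq_of_length ((e x hx).trans (e y hy).symm))).2 ▸ q2 y)
  rw [sum_congr rfl fun x hx => by rw [e x hx], sum_const, nsmul_eq_mul, inv_pow,
    mul_inv_le_iff₀ (by positivity), one_mul] at this
  exact_mod_cast this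

lemma cx_kraft {V : List Bool →. List Bool} (h : ∀ x, ∃ q, x ∈ V q)
    (hV : ∀ p q : List Bool, (V p).Dom → (V q).Dom → p <+: q → p = q) (F : Finset (List Bool)) :
    ∑ x ∈ F, (2⁻¹ : ℝ) ^ cx V x ≤ 1 := by
  choose q q1 q2 using cx_spec h
  simpa [q1] using kraft F q fun x _ y _ k => Part.mem_unique (q2 x)
    (hV _ _ (Part.dom_iff_mem.2 ⟨_, q2 x⟩) (Part.dom_iff_mem.2 ⟨_, q2 y⟩) k ▸ q2 y)

/-- Optimality among all machines. -/
def Opt (W : List Bool →. List Bool) : Prop :=
  ∀ M : List Bool →. List Bool, Partrec M →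
    ∃ c : ℕ, ∀ p z : List Bool, z ∈ M p → ∃ q : List Bool, q.length ≤ p.length + c ∧ z ∈ W q

/-- Optimality among prefix-free machines. -/
def OptP (V : List Bool →. List Bool) : Prop :=
  ∀ M : List Bool →. List Bool, Partrec M →
    (∀ p q : List Bool, (M p).Dom → (M q).Dom → p <+: q → p = q) →
    ∃ c : ℕ, ∀ p z : List Bool, z ∈ M p → ∃ q : List Bool, q.length ≤ p.length + c ∧ z ∈ V q

lemma Opt.sur {W : List Bool →. List Bool} (h : Opt W) (x : List Bool) : ∃ q, x ∈ W q := by
  obtain ⟨c, hc⟩ := h _ Computable.id.partrec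
  exact (hc x x (by simp)).imp fun _ k => k.2

lemma OptP.bound {V : List Bool →. List Bool} (h : OptP V) {P : ℕ × List Bool → Prop}
    (hP : Sig 1 _ P) (pf : ∀ e x y, P (e, x) → P (e, y) → x <+: y → x = y) :
    ∃ c, ∀ e x, P (e, x) → ∃ q : List Bool, q.length ≤ x.length + e + c ∧ x ∈ V q := by
  obtain ⟨M, m1, m2, m3⟩ := unif (R := fun z : List Bool × List Bool =>
    ∃ e, P (e, z.2) ∧ z.1 = tag e z.2) (Sig.ex ((hP.comp (Computable.snd.pair
      (Computable.snd.comp Computable.fst))).and (CeAlg.cs (ceq (Computable.fst.comp Computable.fst)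
        (tag_c Computable.snd (Computable.snd.comp Computable.fst))))))
  obtain ⟨c, hc⟩ := h M m1 fun p q a b k => by
    obtain ⟨x, hx⟩ := Part.dom_iff_mem.1 a
    obtain ⟨y, hy⟩ := Part.dom_iff_mem.1 b
    obtain ⟨e, a1, (rfl : p = tag e x)⟩ := m2 _ _ hx
    obtain ⟨e', b1, (rfl : q = tag e' y)⟩ := m2 _ _ hy
    obtain ⟨rfl, l⟩ := tag_pre k
    rw [pf e x y a1 b1 l]
  refine ⟨c + 1, fun e x k => ?_⟩
  obtain ⟨y, hy⟩ := m3 (tag e x) x ⟨e, k, rfl⟩
  obtain ⟨e', -, l⟩ := m2 _ _ hy
  obtain rfl := (tag_inj l).2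
  exact (hc _ _ hy).imp fun q l => ⟨by have := l.1; rw [tag_len] at this; omega, l.2⟩

lemma OptP.sur {V : List Bool →. List Bool} (h : OptP V) (x : List Bool) : ∃ q, x ∈ V q := by
  obtain ⟨c, hc⟩ := h.bound (P := fun z => z.2.length = z.1) (CeAlg.cs (ceq
    (Computable.list_length.comp Computable.snd) Computable.fst))
    fun e x y a b k => k.eq_of_length (a.trans b.symm)
  exact (hc x.length x rfl).imp fun _ k => k.2

lemma Opt.bound {W : List Bool →. List Bool} (h : Opt W) {S : (ℕ × ℕ) × List Bool → Prop}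
    (hS : Sig 1 _ S) : ∃ c, ∀ e l x, S ((e, l), x) →
      (∀ F : Finset (List Bool), (∀ y ∈ F, S ((e, l), y)) → #F ≤ 2 ^ l) → cx W x ≤ l + e + c := by
  obtain ⟨B, b, hB⟩ := sig_nf hS
  have f := @Computable.fst
  have s := @Computable.snd
  let d : ℕ → List Bool × ℕ := fun n => (Encodable.decode n).getD default
  have hd : Computable d := Computable.option_getD Computable.decode (Computable.const _)
  obtain ⟨A, eA⟩ : ∃ A : ℕ × ℕ → ℕ → Prop, ∀ a n, A a n ↔ B ((a, (d n).1), (d n).2) :=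
    ⟨_, fun _ _ => Iff.rfl⟩
  have hA : ComputablePred fun q : (ℕ × ℕ) × ℕ => A q.1 q.2 :=
    (cp b ((f.pair (f.comp (hd.comp s))).pair (s.comp (hd.comp s)))).of_eq fun _ => (eA _ _).symm
  have h1 : ComputablePred fun z : ((ℕ × ℕ) × ℕ) × ℕ => A z.1.1 z.2 := cp hA ((f.comp f).pair s)
  have h2 : ComputablePred fun z : ((ℕ × ℕ) × ℕ) × ℕ => (d z.2).1 = (d z.1.2).1 :=
    ceq (f.comp (hd.comp s)) (f.comp (hd.comp (s.comp f)))
  obtain ⟨G, eG⟩ : ∃ G : ℕ × ℕ → ℕ → Prop,
      ∀ a n, G a n ↔ A a n ∧ ∀ m < n, A a m → (d m).1 ≠ (d n).1 := ⟨_, fun _ _ => Iff.rfl⟩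
  have hG : ComputablePred fun q : (ℕ × ℕ) × ℕ => G q.1 q.2 :=
    (cand hA (cball (p := fun (q : (ℕ × ℕ) × ℕ) m => A q.1 m → (d m).1 ≠ (d q.2).1) s
      (cimp h1 h2.not))).of_eq fun _ => (eG _ _).symm
  have h3 : ComputablePred fun z : ((ℕ × ℕ) × ℕ) × ℕ => G z.1.1 z.2 := cp hG ((f.comp f).pair s)
  have hc : Computable fun q : (ℕ × ℕ) × ℕ => Nat.count (G q.1) q.2 :=
    (Computable.list_length.comp (cfilter (p := fun (q : (ℕ × ℕ) × ℕ) n => G q.1 n)
      (Primrec.list_range.to_comp.comp s) h3)).of_eq fun q => by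
        rw [Nat.count, List.countP_eq_length_filter]
  have ht : Computable fun q : (ℕ × ℕ) × ℕ => tag q.1.1 (pr (Nat.count (G q.1) q.2).testBit q.1.2) :=
    tag_c (f.comp f) (bits_c hc (s.comp f))
  have h4 : ComputablePred fun z : (List Bool × List Bool) × (ℕ × ℕ) × ℕ => G z.2.1 z.2.2 ∧
      z.1.1 = tag z.2.1.1 (pr (Nat.count (G z.2.1) z.2.2).testBit z.2.1.2) ∧ z.1.2 = (d z.2.2).1 :=
    cand (cp hG s) (cand (ceq (f.comp f) (ht.comp s))
      (ceq (s.comp f) (f.comp (hd.comp (s.comp s)))))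
  obtain ⟨M, m1, m2, m3⟩ := unif (sig_ex (CeAlg.cs h4))
  obtain ⟨c, hc⟩ := h M m1
  refine ⟨c + 1, fun e l x k hF => ?_⟩
  have ct : ∀ n, G (e, l) n → Nat.count (G (e, l)) n < 2 ^ l := fun n hn => by
    have := hF (((range (n + 1)).filter (G (e, l))).image fun n => (d n).1) fun y hy => by
      obtain ⟨m, hm, rfl⟩ := mem_image.1 hy
      exact (hB _).2 ⟨_, (eA _ _).1 ((eG _ _).1 (mem_filter.1 hm).2).1⟩
    rw [card_image_of_injOn fun u hu v hv z => by
      have hu := (eG _ _).1 (mem_filter.1 hu).2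
      have hv := (eG _ _).1 (mem_filter.1 hv).2
      by_contra y
      rcases Nat.lt_or_gt_of_ne y with y | y
      · exact hv.2 u y hu.1 z
      · exact hu.2 v y hv.1 z.symm, ← Nat.count_eq_card_filter_range, Nat.count_succ,
      if_pos hn] at this
    exact this
  obtain ⟨t, ht⟩ := (hB _).1 k
  have ex : ∃ n, A (e, l) n ∧ (d n).1 = x := ⟨Encodable.encode (x, t), by simpa [eA, d] using ht⟩
  have g : G (e, l) (Nat.find ex) := (eG _ _).2 ⟨(Nat.find_spec ex).1, fun m hm a z =>
    Nat.find_min ex hm ⟨a, z.trans (Nat.find_spec ex).2⟩⟩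
  obtain ⟨y, hy⟩ := m3 (tag e (pr (Nat.count (G (e, l)) (Nat.find ex)).testBit l))
    (d (Nat.find ex)).1 ⟨((e, l), Nat.find ex), g, rfl, rfl⟩
  obtain ⟨⟨⟨e', l'⟩, n⟩, g', z, (rfl : y = (d n).1)⟩ := m2 _ _ hy
  obtain ⟨rfl, z⟩ := tag_inj z
  obtain rfl : l = l' := by simpa using congrArg List.length z
  obtain rfl := Nat.count_injective g g' (bits_inj (ct _ g) (ct _ g') z)
  obtain ⟨q, q1, q2⟩ := hc _ _ hy
  rw [(Nat.find_spec ex).2] at q2
  have := cx_le q2
  simp only [tag_len, pr_len] at q1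
  omega

lemma ev_at {α β γ : Type} [Primcodable α] [Primcodable β] [Primcodable γ] {e : α → ℕ} {x : α → β}
    {y : α → γ} (he : Computable e) (hx : Computable x) (hy : Computable y) : Sig 1 α fun a =>
      Encodable.encode (y a) ∈ (Denumerable.ofNat Code (e a)).eval (Encodable.encode (x a)) :=
  ev_sig.comp (f := fun a => (e a, Encodable.encode (x a), Encodable.encode (y a)))
    (he.pair ((Computable.encode.comp hx).pair (Computable.encode.comp hy)))

lemma code_of {β γ : Type} [Primcodable β] [Primcodable γ] {M : β →. γ} (h : Partrec M) :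
    ∃ e, ∀ x, (Denumerable.ofNat Code e).eval (Encodable.encode x) = (M x).map Encodable.encode := by
  obtain ⟨c, hc⟩ := exists_code.1 h
  exact ⟨Encodable.encode c, fun x => by simp [hc]⟩

/-- An optimal conditional machine. -/
lemma ex_cond {β γ : Type} [Primcodable β] [Primcodable γ] : ∃ U : List Bool → β →. γ,
    Partrec₂ U ∧ ∀ M : List Bool → β →. γ, Partrec₂ M → ∃ c : ℕ, ∀ p y z, z ∈ M p y →
      ∃ q : List Bool, q.length ≤ p.length + c ∧ z ∈ U q y := by
  have f := @Computable.fst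
  have s := @Computable.snd
  have h : Sig 1 (((List Bool × β) × γ) × ℕ × List Bool) fun z => z.1.1.1 = tag z.2.1 z.2.2 ∧
      Encodable.encode z.1.2 ∈ (Denumerable.ofNat Code z.2.1).eval
        (Encodable.encode (z.2.2, z.1.1.2)) :=
    (CeAlg.cs (ceq (f.comp (f.comp f)) (tag_c (f.comp s) (s.comp s)))).and
      (ev_at (f.comp s) ((s.comp s).pair (s.comp (f.comp f))) (s.comp f))
  obtain ⟨U, u1, u2, u3⟩ := unif (sig_ex h)
  refine ⟨fun p y => U (p, y), u1, fun M hM => ?_⟩
  obtain ⟨e, he⟩ := code_of hM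
  refine ⟨e + 1, fun p y z k => ⟨tag e p, by rw [tag_len]; omega, ?_⟩⟩
  have k' : Encodable.encode z ∈ (Denumerable.ofNat Code e).eval (Encodable.encode (p, y)) := by
    rw [he]
    exact Part.mem_map _ k
  obtain ⟨w, hw⟩ := u3 (tag e p, y) z ⟨(e, p), rfl, k'⟩
  obtain ⟨⟨e', p'⟩, a, b⟩ := u2 _ _ hw
  obtain ⟨rfl, rfl⟩ := tag_inj a
  rwa [Encodable.encode_injective (Part.mem_unique k' b)]

lemma ex_opt : ∃ W, Partrec W ∧ Opt W := by
  obtain ⟨U, a, b⟩ := ex_cond (β := ℕ) (γ := List Bool)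
  refine ⟨fun p => U p 0, a.comp Computable.id (Computable.const 0), fun M hM => ?_⟩
  obtain ⟨c, hc⟩ := b (fun p _ => M p) (hM.comp Computable.fst)
  exact ⟨c, fun p z => hc p 0 z⟩

lemma ex_optP : ∃ V, Partrec V ∧
    (∀ p q : List Bool, (V p).Dom → (V q).Dom → p <+: q → p = q) ∧ OptP V := by
  have f := @Computable.fst
  have s := @Computable.snd
  let d : ℕ → List Bool := fun n => (Encodable.decode n).getD []
  have hd : Computable d := Computable.option_getD Computable.decode (Computable.const _)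
  obtain ⟨v, ev⟩ : ∃ v : ℕ × ℕ → List Bool → Option ℕ, ∀ a q,
      v a q = evaln a.2 (Denumerable.ofNat Code a.1) (Encodable.encode q) := ⟨_, fun _ _ => rfl⟩
  have hv : Computable₂ v := (primrec_evaln.to_comp.comp (((s.comp f).pair
    ((Primrec.ofNat Code).to_comp.comp (f.comp f))).pair (Computable.encode.comp s))).of_eq
      fun _ => (ev _ _).symm
  have h1 : ComputablePred fun z : ((ℕ × ℕ) × List Bool) × ℕ =>
      (d z.2 <+: z.1.2 ∨ z.1.2 <+: d z.2) → d z.2 = z.1.2 ∨ v z.1.1 (d z.2) = Option.none :=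
    cimp (cor (cpfx (hd.comp s) (s.comp f)) (cpfx (s.comp f) (hd.comp s)))
      (cor (ceq (hd.comp s) (s.comp f)) (ceq (hv.comp (f.comp f) (hd.comp s)) (Computable.const _)))
  have h2 : ComputablePred fun z : (ℕ × ℕ) × List Bool => ∀ n < z.1.2,
      (d n <+: z.2 ∨ z.2 <+: d n) → d n = z.2 ∨ v z.1 (d n) = Option.none := cball (s.comp f) h1
  have h : ComputablePred fun z : (List Bool × List Bool) × (ℕ × ℕ) × List Bool =>
      z.1.1 = tag z.2.1.1 z.2.2 ∧ v z.2.1 z.2.2 = some (Encodable.encode z.1.2) ∧ ∀ n < z.2.1.2,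
        (d n <+: z.2.2 ∨ z.2.2 <+: d n) → d n = z.2.2 ∨ v z.2.1 (d n) = Option.none :=
    cand (ceq (f.comp f) (tag_c (f.comp (f.comp s)) (s.comp s))) (cand (ceq
      (hv.comp (f.comp s) (s.comp s)) (Computable.option_some.comp
        (Computable.encode.comp (s.comp f)))) (cp h2 s))
  obtain ⟨U, u1, u2, u3⟩ := unif (sig_ex (CeAlg.cs h))
  have key : ∀ e t t' p q y, t ≤ t' → v (e, t) p = some y → (p <+: q ∨ q <+: p) →
      (∀ n < t', (d n <+: q ∨ q <+: d n) → d n = q ∨ v (e, t') (d n) = Option.none) → p = q :=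
    fun e t t' p q y l a b c => by
      rw [ev] at a
      have := c (Encodable.encode p) ((evaln_bound a).trans_le l)
      simp only [d, Encodable.encodek, Option.getD_some, ev] at this
      refine (this b).resolve_right fun z => ?_
      have := evaln_mono l a
      simp only [z] at this
      cases this
  refine ⟨U, u1, fun p q a b k => ?_, fun M hM pf => ?_⟩
  · obtain ⟨x, hx⟩ := Part.dom_iff_mem.1 a
    obtain ⟨y, hy⟩ := Part.dom_iff_mem.1 b
    obtain ⟨⟨⟨e, t⟩, p'⟩, (rfl : p = tag e p'), a1, a2⟩ := u2 _ _ hx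
    obtain ⟨⟨⟨e', t'⟩, q'⟩, (rfl : q = tag e' q'), b1, b2⟩ := u2 _ _ hy
    obtain ⟨rfl, l⟩ := tag_pre k
    rcases le_total t t' with m | m
    · rw [key e t t' p' q' _ m a1 (Or.inl l) b2]
    · rw [key e t' t q' p' _ m b1 (Or.inr l) a2]
  · obtain ⟨e, he⟩ := code_of hM
    refine ⟨e + 1, fun p z k => ⟨tag e p, by rw [tag_len]; omega, ?_⟩⟩
    have k' : Encodable.encode z ∈ (Denumerable.ofNat Code e).eval (Encodable.encode p) := by
      rw [he]
      exact Part.mem_map _ k
    obtain ⟨t, ht⟩ := evaln_complete.1 k'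
    obtain ⟨w, hw⟩ := u3 (tag e p) z ⟨((e, t), p), rfl, (ev _ _).trans ht, fun n _ c => by
      refine or_iff_not_imp_right.2 fun y => ?_
      obtain ⟨y, hy⟩ := Option.ne_none_iff_exists'.1 y
      have := evaln_sound ((ev _ _).symm.trans hy)
      rw [he] at this
      have m1 : (M (d n)).Dom := this.1
      have m2 : (M p).Dom := Part.dom_iff_mem.2 ⟨_, k⟩
      exact c.elim (pf _ _ m1 m2) fun c => (pf _ _ m2 m1 c).symm⟩
    obtain ⟨⟨⟨e', t'⟩, p'⟩, a, b, -⟩ := u2 _ _ hw
    obtain ⟨rfl, rfl⟩ := tag_inj a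
    rwa [Encodable.encode_injective (Part.mem_unique k' (evaln_sound ((ev _ _).symm.trans b)))]

end Pool.Agent.Lib.H8.Kc
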