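import Pool.Agent.Lib.H8.Kc1

/-!
A game showing that plain complexity cannot be guessed from a string and its prefix complexity.
-/

namespace Pool.Agent.Lib.H8.Kc

open Arith CList Qm Rnd Finset Classical

/-- Binary expansion, most significant digit first. -/
def bin (b m : ℕ) : List Bool := pr (fun i => b.testBit (m - 1 - i)) m

lemma bin_pre {b b' m m' : ℕ} (hb : b < 2 ^ m) (hb' : b' < 2 ^ m') (h : bin b m <+: bin b' m') :
    m ≤ m' ∧ b = b' / 2 ^ (m' - m) := by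
  have l : m ≤ m' := by simpa [bin] using h.length_le
  rw [List.prefix_iff_eq_take, bin, bin, pr_len, pr_take _ l, pr_eq] at h
  refine ⟨l, Nat.eq_of_testBit_eq fun k => ?_⟩
  rw [Nat.testBit_div_two_pow]
  by_cases z : k < m
  · convert h (m - 1 - k) (by omega) using 2 <;> omega
  · rw [Nat.testBit_lt_two_pow (hb.trans_le (Nat.pow_le_pow_right (by norm_num) (by omega))),
      Nat.testBit_lt_two_pow (hb'.trans_le (Nat.pow_le_pow_right (by norm_num) (by omega)))]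

lemma hdr {Λ a p a' p' : ℕ} (hp : p ≤ Λ) (hp' : p' ≤ Λ) (h : a + 2 ^ (p + 1) ≤ 2 ^ Λ)
    (h' : a' + 2 ^ (p' + 1) ≤ 2 ^ Λ)
    (k : bin (a / 2 ^ p + 1) (Λ - p) <+: bin (a' / 2 ^ p' + 1) (Λ - p')) :
    a < a' + 2 ^ (p' + 1) ∧ a' < a + 2 ^ (p + 1) := by
  have e : ∀ a p : ℕ, a < (a / 2 ^ p + 1) * 2 ^ p ∧ (a / 2 ^ p + 1) * 2 ^ p ≤ a + 2 ^ p :=
    fun a p => by
      have := Nat.div_add_mod a (2 ^ p)
      have := Nat.mod_lt a (Nat.two_pow_pos p)
      rw [add_mul, one_mul, mul_comm]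
      omega
  have f : ∀ a p : ℕ, p ≤ Λ → a + 2 ^ (p + 1) ≤ 2 ^ Λ → a / 2 ^ p + 1 < 2 ^ (Λ - p) :=
    fun a p u v => by
      refine lt_of_mul_lt_mul_right (a := 2 ^ p) ?_ (Nat.zero_le _)
      have := e a p
      have := Nat.two_pow_pos p
      rw [← pow_add, Nat.sub_add_cancel u]
      omega
  obtain ⟨l, z⟩ := bin_pre (f a p hp h) (f a' p' hp' h') k
  obtain ⟨r, rfl⟩ : ∃ r, p = p' + r := ⟨p - p', by omega⟩
  rw [show Λ - p' - (Λ - (p' + r)) = r by omega] at z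
  have e1 := e a (p' + r)
  have e2 := e a' p'
  have e3 := e (a' / 2 ^ p' + 1) r
  have e4 := Nat.div_mul_le_self (a' / 2 ^ p' + 1) (2 ^ r)
  rw [← z] at e3 e4
  have e5 := Nat.mul_le_mul_right (2 ^ p') e4
  have e6 := Nat.mul_le_mul_right (2 ^ p') e3.1.le
  rw [mul_assoc, ← pow_add, add_comm r] at e5 e6
  rw [add_mul (a / 2 ^ (p' + r) + 1), one_mul] at e6
  omega

variable (D : ℕ) (C K : List Bool → ℕ) (L : List Bool × ℕ × ℕ → Prop)

/-- The number of rounds for a group. -/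
def dd (c : ℕ) : ℕ := D * (c + 4) + 1

/-- The distance of consecutive levels. -/
def be (c : ℕ) : ℕ := dd D c + c + 2

/-- The length of the headers. -/
def La (c : ℕ) : ℕ := 2 ^ (be D c * dd D c) + 3

/-- The strings of a group. -/
def xs (c s p a i : ℕ) : List Bool :=
  bin (a / 2 ^ p + 1) (La D c - p) ++ pr i.testBit (s * La D c)

/-- The program length used in round `j`. -/
def lev (c s j : ℕ) : ℕ := s * La D c + be D c * (dd D c - j)

/-- Many strings of the group are already simple. -/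
def Ab (c s p j a : ℕ) : Prop := 2 ^ (s * La D c) ≤
  2 * dd D c * #{i ∈ range (2 ^ (s * La D c)) | C (xs D c s p a i) ≤ lev D c s (j + 1) + c}

/-- A guess in the window of round `j`. -/
def Gd (c s p j a i : ℕ) : Prop := ∃ k v, L (xs D c s p a i, k, v) ∧ lev D c s (j + 1) + c < v ∧
  v ≤ lev D c s j + c ∧ K (xs D c s p a i) ≤ k ∧ k ≤ (xs D c s p a i).length + c

/-- Most strings of the group have a guess in the window. -/
def Go (c s p j a : ℕ) : Prop := (2 * dd D c - 1) * 2 ^ (s * La D c) + 1 ≤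
  2 * dd D c * #{i ∈ range (2 ^ (s * La D c)) | Gd D K L c s p j a i}

/-- States: slot, phase, round, pointer. -/
abbrev St := ℕ × ℕ × ℕ × ℕ

/-- One move. -/
def Step (c : ℕ) (σ τ : St) : Prop :=
  (Ab D C c σ.1 σ.2.1 σ.2.2.1 σ.2.2.2 ∧ τ = (σ.1, σ.2.1 + 1, 0, σ.2.2.2 + 2 ^ (σ.2.1 + 1))) ∨
    (Go D K L c σ.1 σ.2.1 σ.2.2.1 σ.2.2.2 ∧ τ = if σ.2.2.1 + 1 < dd D c then
      (σ.1, σ.2.1, σ.2.2.1 + 1, σ.2.2.2) else (σ.1 + 1, 0, 0, σ.2.2.2 + 2 ^ (σ.2.1 + 1)))

/-- The relation between an earlier and a later state. -/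
def Bef (c : ℕ) (σ τ : St) : Prop :=
  (σ.1 = τ.1 ∧ σ.2.1 = τ.2.1 ∧ σ.2.2.1 ≤ τ.2.2.1 ∧ σ.2.2.2 = τ.2.2.2) ∨
    (σ.2.2.2 + 2 ^ (σ.2.1 + 1) ≤ τ.2.2.2 ∧ (σ.1 < τ.1 ∨
      (σ.1 = τ.1 ∧ σ.2.1 < τ.2.1 ∧ Ab D C c σ.1 σ.2.1 σ.2.2.1 σ.2.2.2)))

/-- The invariant of the play. -/
def Inv (c t : ℕ) (σ : St) : Prop :=
  σ.2.2.1 < dd D c ∧ σ.2.1 + 3 ≤ La D c ∧ t ≤ dd D c * σ.2.2.2 + σ.2.2.1 ∧
    (∀ p < σ.2.1, ∃ a, Ab D C c σ.1 p 0 a) ∧ (∀ j < σ.2.2.1, Go D K L c σ.1 σ.2.1 j σ.2.2.2) ∧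
    ∃ F : Finset (List Bool), (∀ x ∈ F, x.length ≤ σ.1 * La D c) ∧
      (2 * (σ.2.2.2 + 2) : ℝ) ≤ 2 ^ (σ.2.1 + 2) + 2 ^ La D c * ∑ x ∈ F, (2⁻¹ : ℝ) ^ K x

variable {D C K L} {c s p j a t : ℕ} {σ τ υ : St}

@[simp] lemma xs_len (i : ℕ) : (xs D c s p a i).length = La D c - p + s * La D c := by
  simp [xs, bin]

lemma xs_inj {p' a' i i' : ℕ} (hi : i < 2 ^ (s * La D c)) (hi' : i' < 2 ^ (s * La D c))
    (h : xs D c s p a i = xs D c s p' a' i') : i = i' :=
  bits_inj hi hi' (List.append_inj' h (by simp)).2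

lemma lev_le {j j' : ℕ} (h : j ≤ j') : lev D c s j' ≤ lev D c s j :=
  Nat.add_le_add_left (Nat.mul_le_mul_left _ (by omega)) _

lemma Ab.mono {j' : ℕ} (h : Ab D C c s p j a) (l : j' ≤ j) : Ab D C c s p j' a :=
  le_trans h (Nat.mul_le_mul_left _ (card_le_card fun i => by
    simp only [mem_filter]
    exact And.imp_right fun k => k.trans (Nat.add_le_add_right (lev_le (by omega)) _)))

lemma Bef.step (h : Bef D C c σ τ) (k : Step D C K L c τ υ) : Bef D C c σ υ := by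
  obtain ⟨s, p, j, a⟩ := σ
  obtain ⟨s', p', j', a'⟩ := τ
  simp only [Bef, Step] at h k ⊢
  rcases k with ⟨k, rfl⟩ | ⟨k, rfl⟩
  · rcases h with ⟨rfl, rfl, h, rfl⟩ | ⟨h, h'⟩
    · exact Or.inr ⟨le_rfl, Or.inr ⟨rfl, by simp, k.mono h⟩⟩
    · exact Or.inr ⟨le_add_right h, h'.imp_right fun z => ⟨z.1, z.2.1.trans (by simp), z.2.2⟩⟩
  · split_ifs
    · exact h.imp_left fun z => ⟨z.1, z.2.1, z.2.2.1.trans (by simp), z.2.2.2⟩
    · rcases h with ⟨rfl, rfl, h, rfl⟩ | ⟨h, h'⟩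
      · exact Or.inr ⟨le_rfl, Or.inl (by simp)⟩
      · exact Or.inr ⟨le_add_right h, Or.inl (by dsimp only; omega)⟩

lemma few (hC : ∀ (F : Finset (List Bool)) l, (∀ x ∈ F, C x ≤ l) → #F ≤ 2 ^ (l + 1))
    (hj : j < dd D c) (T : Finset ℕ) (h : ∀ p ∈ T, p ≤ La D c ∧ ∃ a, Ab D C c s p j a) :
    #T < 2 ^ (be D c * (dd D c - j)) := by
  choose! h1 f hf using h
  have := hC ((T.sigma fun p => {i ∈ range (2 ^ (s * La D c)) |
    C (xs D c s p (f p) i) ≤ lev D c s (j + 1) + c}).image fun z => xs D c s z.1 (f z.1) z.2)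
    (lev D c s (j + 1) + c) fun x hx => by
      obtain ⟨z, hz, rfl⟩ := mem_image.1 hx
      exact (mem_filter.1 (mem_sigma.1 hz).2).2
  rw [card_image_of_injOn fun ⟨p, i⟩ u ⟨p', i'⟩ v z => by
    simp only [coe_sigma, Set.mem_sigma_iff, mem_coe, mem_filter, mem_range] at u v
    have := congrArg List.length z
    have h2 := h1 p u.1
    have h3 := h1 p' v.1
    simp only [xs_len] at this
    obtain rfl : p = p' := by omega
    rw [xs_inj u.2.1 v.2.1 z], card_sigma] at this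
  have k := (sum_le_sum hf).trans_eq (mul_sum _ _ _).symm
  rw [sum_const, smul_eq_mul] at k
  have k := k.trans (Nat.mul_le_mul_left _ this)
  rw [lev, add_assoc, add_assoc, pow_add, mul_left_comm, mul_comm] at k
  have k := Nat.le_of_mul_le_mul_left k (Nat.two_pow_pos _)
  have e : be D c * (dd D c - j) = dd D c + 1 + (be D c * (dd D c - (j + 1)) + (c + 1)) := by
    rw [show dd D c - j = dd D c - (j + 1) + 1 by omega, mul_add, mul_one]
    simp only [be]
    omega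
  rw [e, pow_add, pow_succ]
  have := (dd D c).lt_two_pow_self
  exact k.trans_lt (Nat.mul_lt_mul_of_pos_right (by omega) (Nat.two_pow_pos _))

lemma drop (hD : ∀ x k (T : Finset ℕ), (∀ v ∈ T, L (x, k, v)) → #T ≤ D) {i : ℕ}
    (h : ∀ j < dd D c, Gd D K L c s p j a i) :
    K (xs D c s p a i) + 4 ≤ (xs D c s p a i).length := by
  choose! k v h1 h2 h3 h4 h5 using h
  by_contra z
  obtain ⟨y, -, hy⟩ := exists_lt_card_fiber_of_mul_lt_card_of_maps_to (s := range (dd D c))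
    (t := Ico (K (xs D c s p a i)) (K (xs D c s p a i) + (c + 4))) (f := k) (n := D)
    (fun j hj => by
      have := h5 j (mem_range.1 hj)
      exact mem_Ico.2 ⟨h4 j (mem_range.1 hj), by omega⟩) (by simp [dd, mul_comm])
  have := hD _ y (((range (dd D c)).filter fun j => k j = y).image v) fun w hw => by
    obtain ⟨j, hj, rfl⟩ := mem_image.1 hw
    obtain ⟨u, rfl⟩ := mem_filter.1 hj
    exact h1 j (mem_range.1 u)
  have m : ∀ j < dd D c, ∀ j' < dd D c, j < j' → v j' < v j := fun j a j' b l =>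
    lt_of_le_of_lt ((h3 j' b).trans (Nat.add_le_add_right (lev_le l) _)) (h2 j a)
  rw [card_image_of_injOn fun j u j' w e => by
    have u := mem_range.1 (mem_filter.1 u).1
    have w := mem_range.1 (mem_filter.1 w).1
    by_contra y
    rcases Nat.lt_or_gt_of_ne y with y | y
    · exact (m _ u _ w y).ne' e
    · exact (m _ w _ u y).ne e] at this
  omega

lemma gain (hD : ∀ x k (T : Finset ℕ), (∀ v ∈ T, L (x, k, v)) → #T ≤ D) (hp : p ≤ La D c)
    (h : ∀ j < dd D c, Go D K L c s p j a) : ∃ F : Finset (List Bool),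
      (∀ x ∈ F, x.length = La D c - p + s * La D c) ∧
        (2 : ℝ) ^ (p + 3) ≤ 2 ^ La D c * ∑ x ∈ F, (2⁻¹ : ℝ) ^ K x := by
  obtain ⟨N, hN⟩ : ∃ N, N = 2 ^ (s * La D c) := ⟨_, rfl⟩
  have d0 : 0 < dd D c := Nat.succ_pos _
  have b1 : ∀ j ∈ range (dd D c), 2 * dd D c * #{i ∈ range N | ¬ Gd D K L c s p j a i} ≤ N :=
    fun j hj => by
      have u := h j (mem_range.1 hj)
      have v := card_filter_add_card_filter_not (s := range N) (Gd D K L c s p j a)
      rw [Go, ← hN] at u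
      rw [card_range] at v
      obtain ⟨w, hw⟩ : ∃ w, 2 * dd D c = w + 1 := ⟨2 * dd D c - 1, by omega⟩
      rw [hw, Nat.add_sub_cancel] at u
      rw [hw]
      nlinarith
  have b2 := card_filter_add_card_filter_not (s := range N)
    fun i => ∀ j < dd D c, Gd D K L c s p j a i
  have b3 : #{i ∈ range N | ¬ ∀ j < dd D c, Gd D K L c s p j a i} ≤
      ∑ j ∈ range (dd D c), #{i ∈ range N | ¬ Gd D K L c s p j a i} :=
    (card_le_card fun i hi => by simpa [and_left_comm (b := i < N)] using hi).trans card_biUnion_le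
  have b4 := (mul_sum _ _ _).trans_le (sum_le_sum b1)
  rw [sum_const, card_range, smul_eq_mul, mul_right_comm, mul_comm (dd D c)] at b4
  have b4 := Nat.le_of_mul_le_mul_right b4 d0
  rw [card_range] at b2
  have b5 : N ≤ 2 * #{i ∈ range N | ∀ j < dd D c, Gd D K L c s p j a i} := by omega
  refine ⟨{i ∈ range N | ∀ j < dd D c, Gd D K L c s p j a i}.image (xs D c s p a), fun x hx => ?_,
    ?_⟩
  · obtain ⟨i, -, rfl⟩ := mem_image.1 hx
    exact xs_len i
  · rw [sum_image fun i u j v => xs_inj (hN ▸ mem_range.1 (mem_filter.1 u).1)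
      (hN ▸ mem_range.1 (mem_filter.1 v).1)]
    have := card_nsmul_le_sum {i ∈ range N | ∀ j < dd D c, Gd D K L c s p j a i}
      (fun i => (2⁻¹ : ℝ) ^ K (xs D c s p a i)) (16 * 2⁻¹ ^ (La D c - p + s * La D c))
      fun i hi => by
        have := drop hD (mem_filter.1 hi).2
        rw [xs_len] at this
        have := pow_le_pow_of_le_one (show (0 : ℝ) ≤ 2⁻¹ by norm_num) (by norm_num) this
        rw [pow_add _ _ 4] at this
        linarith
    refine le_trans ?_ (mul_le_mul_of_nonneg_left this (by positivity))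
    have b6 : (2 : ℝ) ^ (s * La D c) ≤
        2 * #{i ∈ range N | ∀ j < dd D c, Gd D K L c s p j a i} := by exact_mod_cast hN.ge.trans b5
    have e : (2 : ℝ) ^ La D c = 2 ^ p * 2 ^ (La D c - p) := by rw [← pow_add]; congr; omega
    rw [nsmul_eq_mul, pow_add, pow_add, inv_pow, inv_pow]
    nth_rw 1 [e]
    field_simp
    linarith

lemma Inv.step (hC : ∀ (F : Finset (List Bool)) l, (∀ x ∈ F, C x ≤ l) → #F ≤ 2 ^ (l + 1))
    (hD : ∀ x k (T : Finset ℕ), (∀ v ∈ T, L (x, k, v)) → #T ≤ D) (h : Inv D C K L c t σ)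
    (k : Step D C K L c σ τ) : Inv D C K L c (t + 1) τ := by
  obtain ⟨s, p, j, a⟩ := σ
  simp only [Inv, Step] at h k ⊢
  obtain ⟨h1, h2, h3, h4, h5, F, h6, h7⟩ := h
  have d0 : 0 < dd D c := Nat.succ_pos _
  have u : t + 1 ≤ dd D c * (a + 2 ^ (p + 1)) + 0 := by
    have := Nat.mul_le_mul_left (dd D c) (Nat.two_pow_pos (p + 1))
    rw [mul_add]
    omega
  rcases k with ⟨k, rfl⟩ | ⟨k, rfl⟩
  · have h8 : ∀ q < p + 1, ∃ a, Ab D C c s q 0 a := fun q hq =>
      (Nat.lt_succ_iff_lt_or_eq.1 hq).elim (h4 q) fun e => ⟨a, e ▸ k.mono (Nat.zero_le _)⟩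
    have := few hC d0 (range (p + 1)) fun q hq =>
      ⟨by have := mem_range.1 hq; omega, h8 q (mem_range.1 hq)⟩
    refine ⟨d0, by simp only [La, card_range, Nat.sub_zero] at this ⊢; omega, u, h8, by simp, F,
      h6, ?_⟩
    push_cast
    simp only [pow_succ] at h7 ⊢
    linarith
  · have h8 : ∀ q < j + 1, Go D K L c s p q a := fun q hq =>
      (Nat.lt_succ_iff_lt_or_eq.1 hq).elim (h5 q) fun e => e ▸ k
    split_ifs with z
    · exact ⟨z, h2, Nat.succ_le_succ h3, h4, h8, F, h6, h7⟩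
    · obtain ⟨F', a1, a2⟩ := gain hD (by omega : p ≤ La D c) fun q hq => h8 q (by omega)
      refine ⟨d0, by simp [La], u, by simp, by simp, F ∪ F', fun x hx => ?_, ?_⟩
      · rw [add_mul]
        rcases mem_union.1 hx with y | y
        · have := h6 x y; omega
        · have := a1 x y; omega
      · rw [sum_union (disjoint_left.2 fun x y y' => by
          have := h6 x y
          have := a1 x y'
          omega)]
        push_cast
        simp only [pow_succ] at h7 a2 ⊢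
        linarith

lemma Inv.fit (hK : ∀ F : Finset (List Bool), ∑ x ∈ F, (2⁻¹ : ℝ) ^ K x ≤ 1)
    (h : Inv D C K L c t σ) : σ.2.2.2 + 2 ^ (σ.2.1 + 1) ≤ 2 ^ La D c := by
  obtain ⟨-, h2, -, -, -, F, -, h7⟩ := h
  have := mul_le_mul_of_nonneg_left (hK F) (show (0 : ℝ) ≤ 2 ^ La D c by positivity)
  have k := pow_le_pow_right₀ (show (1 : ℝ) ≤ 2 by norm_num) h2
  refine (Nat.cast_le (α := ℝ)).1 ?_
  push_cast
  simp only [pow_succ] at h7 k ⊢
  linarith

end Pool.Agent.Lib.H8.Kc
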