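import Pool.Agent.Lib.H8.Kc2

/-!
The strategy is effective; no bounded list of guesses contains the plain complexity.
-/

namespace Pool.Agent.Lib.H8.Kc

open Arith CList Qm Rnd Finset Classical

section
variable {α : Type} [Primcodable α] {D : ℕ} {C K : List Bool → ℕ} {L : List Bool × ℕ × ℕ → Prop}
  {c s p j a i u v : α → ℕ}

lemma ad (hu : Computable u) (hv : Computable v) : Computable fun x => u x + v x :=
  Primrec.nat_add.to_comp.comp hu hv

lemma ml (hu : Computable u) (hv : Computable v) : Computable fun x => u x * v x :=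
  Primrec.nat_mul.to_comp.comp hu hv

lemma sb (hu : Computable u) (hv : Computable v) : Computable fun x => u x - v x :=
  Primrec.nat_sub.to_comp.comp hu hv

lemma bin_c (hu : Computable u) (hv : Computable v) : Computable fun x => bin (u x) (v x) := by
  have : Computable fun q : α × ℕ => (u q.1).testBit (v q.1 - 1 - q.2) :=
    (cp (p := fun q : ℕ × ℕ => q.1.testBit q.2 = true) Orc.testBit_prim.computablePred
      ((hu.comp Computable.fst).pair (sb (sb (hv.comp Computable.fst) (Computable.const 1))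
        Computable.snd))).decide.of_eq fun _ => by simp
  exact cmap (Primrec.list_range.to_comp.comp hv) this.to₂

lemma dd_c (hc : Computable c) : Computable fun x => dd D (c x) :=
  ad (ml (Computable.const D) (ad hc (Computable.const 4))) (Computable.const 1)

lemma be_c (hc : Computable c) : Computable fun x => be D (c x) :=
  ad (ad (dd_c hc) hc) (Computable.const 2)

lemma La_c (hc : Computable c) : Computable fun x => La D (c x) :=
  ad (pow_c.comp (ml (be_c hc) (dd_c hc))) (Computable.const 3)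

lemma xs_c (hc : Computable c) (hs : Computable s) (hp : Computable p) (ha : Computable a)
    (hi : Computable i) : Computable fun x => xs D (c x) (s x) (p x) (a x) (i x) :=
  Computable.list_append.comp (bin_c (ad (Primrec.nat_div.to_comp.comp ha (pow_c.comp hp))
    (Computable.const 1)) (sb (La_c hc) hp)) (bits_c hi (ml hs (La_c hc)))

lemma lev_c (hc : Computable c) (hs : Computable s) (hj : Computable j) :
    Computable fun x => lev D (c x) (s x) (j x) :=
  ad (ml hs (La_c hc)) (ml (be_c hc) (sb (dd_c hc) hj))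

lemma Ab_s (hC : Sig 1 (List Bool × ℕ) fun z => C z.1 ≤ z.2) (hc : Computable c)
    (hs : Computable s) (hp : Computable p) (hj : Computable j) (ha : Computable a) :
    Sig 1 α fun x => Ab D C (c x) (s x) (p x) (j x) (a x) := by
  have f := Computable.fst (α := α) (β := ℕ)
  have h : Sig 1 (α × ℕ) fun z => C (xs D (c z.1) (s z.1) (p z.1) (a z.1) z.2) ≤
      lev D (c z.1) (s z.1) (j z.1 + 1) + c z.1 :=
    hC.comp ((xs_c (hc.comp f) (hs.comp f) (hp.comp f) (ha.comp f) Computable.snd).pair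
      ((ad (lev_c hc hs (Computable.succ.comp hj)) hc).comp f))
  have n := pow_c.comp (ml hs (La_c (D := D) hc))
  exact (cnt_sig h n n (ml (Computable.const 2) (dd_c (D := D) hc))).of_eq fun x => by
    rw [Ab]; congr!

lemma Gd_s (hK : Sig 1 (List Bool × ℕ) fun z => K z.1 ≤ z.2) (hL : Sig 1 _ L) (hc : Computable c)
    (hs : Computable s) (hp : Computable p) (hj : Computable j) (ha : Computable a)
    (hi : Computable i) : Sig 1 α fun x => Gd D K L (c x) (s x) (p x) (j x) (a x) (i x) := by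
  have f : Computable fun z : (α × ℕ) × ℕ => z.1.1 := Computable.fst.comp Computable.fst
  have k : Computable fun z : (α × ℕ) × ℕ => z.1.2 := Computable.snd.comp Computable.fst
  have v : Computable fun z : (α × ℕ) × ℕ => z.2 := Computable.snd
  have x := (xs_c (D := D) hc hs hp ha hi).comp f
  exact Sig.ex (Sig.ex ((hL.comp (x.pair (k.pair v))).and ((CeAlg.cs (clt
    ((ad (lev_c hc hs (Computable.succ.comp hj)) hc).comp f) v)).and ((CeAlg.cs (cle v
      ((ad (lev_c hc hs hj) hc).comp f))).and ((hK.comp (x.pair k)).and (CeAlg.cs (cle k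
        (ad (Computable.list_length.comp x) (hc.comp f)))))))))

lemma Go_s (hK : Sig 1 (List Bool × ℕ) fun z => K z.1 ≤ z.2) (hL : Sig 1 _ L) (hc : Computable c)
    (hs : Computable s) (hp : Computable p) (hj : Computable j) (ha : Computable a) :
    Sig 1 α fun x => Go D K L (c x) (s x) (p x) (j x) (a x) := by
  have f := Computable.fst (α := α) (β := ℕ)
  have n := pow_c.comp (ml hs (La_c (D := D) hc))
  have d := ml (Computable.const 2) (dd_c (D := D) hc)
  exact cnt_sig (Gd_s hK hL (hc.comp f) (hs.comp f) (hp.comp f) (hj.comp f) (ha.comp f)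
    Computable.snd) n (ad (ml (sb d (Computable.const 1)) n) (Computable.const 1)) d

lemma Step_s (hC : Sig 1 (List Bool × ℕ) fun z => C z.1 ≤ z.2)
    (hK : Sig 1 (List Bool × ℕ) fun z => K z.1 ≤ z.2) (hL : Sig 1 _ L) :
    Sig 1 ((ℕ × St) × St) fun z => Step D C K L z.1.1 z.1.2 z.2 := by
  have f := @Computable.fst
  have t := @Computable.snd
  have c : Computable fun z : (ℕ × St) × St => z.1.1 := f.comp f
  have s : Computable fun z : (ℕ × St) × St => z.1.2.1 := f.comp (t.comp f)
  have p : Computable fun z : (ℕ × St) × St => z.1.2.2.1 := f.comp (t.comp (t.comp f))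
  have j : Computable fun z : (ℕ × St) × St => z.1.2.2.2.1 := f.comp (t.comp (t.comp (t.comp f)))
  have a : Computable fun z : (ℕ × St) × St => z.1.2.2.2.2 := t.comp (t.comp (t.comp (t.comp f)))
  have n := Computable.succ
  have z := Computable.const (α := (ℕ × St) × St) 0
  have b := ad a (pow_c.comp (n.comp p))
  exact ((Ab_s hC c s p j a).and (CeAlg.cs (ceq t (s.pair ((n.comp p).pair (z.pair b)))))).or
    ((Go_s hK hL c s p j a).and (CeAlg.cs (ceq t (cite (clt (n.comp j) (dd_c c))
      (s.pair (p.pair ((n.comp j).pair a))) ((n.comp s).pair (z.pair (z.pair b)))))))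

end

lemma lev_inj {D c s j s' j' : ℕ} (hj : j < dd D c) (hj' : j' < dd D c)
    (h : lev D c s j = lev D c s' j') : s = s' ∧ j = j' := by
  have k : ∀ j, be D c * (dd D c - j) < La D c := fun j => by
    have := (be D c * dd D c).lt_two_pow_self
    have := Nat.mul_le_mul_left (be D c) (Nat.sub_le (dd D c) j)
    rw [La]
    omega
  have e : ∀ s j, lev D c s j / La D c = s := fun s j => by
    rw [lev, add_comm, Nat.add_mul_div_right _ _ (Nat.zero_lt_of_lt (k j)),
      Nat.div_eq_of_lt (k j), zero_add]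
  obtain rfl : s = s' := by rw [← e s j, h, e]
  have := Nat.eq_of_mul_eq_mul_left (Nat.succ_pos _) (Nat.add_left_cancel h)
  omega

theorem core {W V : List Bool →. List Bool} (hW : Partrec W) (oW : Opt W) (hV : Partrec V)
    (pf : ∀ p q : List Bool, (V p).Dom → (V q).Dom → p <+: q → p = q) (oV : OptP V)
    {L : List Bool × ℕ × ℕ → Prop} (hL : Sig 1 _ L) {D : ℕ}
    (hD : ∀ x k (T : Finset ℕ), (∀ v ∈ T, L (x, k, v)) → #T ≤ D) :
    ∃ x, ¬ L (x, cx V x, cx W x) := by
  by_contra! all
  have f := @Computable.fst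
  have s := @Computable.snd
  have hC := cx_card oW.sur
  have hK := cx_kraft oV.sur pf
  obtain ⟨nx, n1, n2, n3⟩ := unif (Step_s (D := D) (cx_sig hW oW.sur) (cx_sig hV oV.sur) hL)
  obtain ⟨R, r1, r0, rs⟩ : ∃ R : ℕ × ℕ →. St, Partrec R ∧ (∀ c, R (c, 0) = Part.some (0, 0, 0, 0)) ∧
      ∀ c t, R (c, t + 1) = (R (c, t)).bind fun σ => nx (c, σ) :=
    ⟨_, Partrec.nat_rec (h := fun (q : ℕ × ℕ) (y : ℕ × St) => nx (q.1, y.2)) s
      (Computable.const (0, 0, 0, 0)).partrec (n1.comp ((f.comp f).pair (s.comp s))).to₂,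
      fun _ => rfl, fun _ _ => rfl⟩
  have st : ∀ c t τ, τ ∈ R (c, t + 1) → ∃ σ ∈ R (c, t), Step D (cx W) (cx V) L c σ τ :=
    fun c t τ h => by
      rw [rs, Part.mem_bind_iff] at h
      exact h.imp fun σ k => ⟨k.1, n2 _ _ k.2⟩
  have iv : ∀ c t σ, σ ∈ R (c, t) → Inv D (cx W) (cx V) L c t σ := fun c t => by
    induction t with
    | zero =>
      intro σ h
      rw [r0, Part.mem_some_iff] at h
      subst h
      exact ⟨Nat.succ_pos _, by simp [La], by simp, by simp, by simp, ∅, by simp, by norm_num⟩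
    | succ t ih => exact fun τ h => (st c t τ h).elim fun σ k => (ih σ k.1).step hC hD k.2
  have bf : ∀ c t σ, σ ∈ R (c, t) → ∀ t' ≥ t, ∀ τ ∈ R (c, t'), Bef D (cx W) c σ τ :=
    fun c t σ h t' l => by
      induction t', l using Nat.le_induction with
      | base => exact fun τ k => Part.mem_unique h k ▸ Or.inl ⟨rfl, rfl, le_rfl, rfl⟩
      | succ t' _ ih => exact fun τ k => (st c t' τ k).elim fun υ k => (ih υ k.1).step k.2
  have tot : ∀ c t σ t' τ, σ ∈ R (c, t) → τ ∈ R (c, t') →
      Bef D (cx W) c σ τ ∨ Bef D (cx W) c τ σ := fun c t σ t' τ a b =>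
    (le_total t t').imp (fun l => bf c t σ a t' l τ b) fun l => bf c t' τ b t l σ a
  have hG : Sig 1 ((ℕ × List Bool) × St) fun z => ∃ y : ℕ × ℕ, z.2 ∈ R (2 * z.1.1, y.1) ∧
      y.2 < 2 ^ (z.2.1 * La D (2 * z.1.1)) ∧
        z.1.2 = xs D (2 * z.1.1) z.2.1 z.2.2.1 z.2.2.2.2 y.2 := by
    have c : Computable fun z : ((ℕ × List Bool) × St) × ℕ × ℕ => 2 * z.1.1.1 :=
      ml (Computable.const 2) (f.comp (f.comp f))
    have σ : Computable fun z : ((ℕ × List Bool) × St) × ℕ × ℕ => z.1.2 := s.comp f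
    exact sig_ex (((graph r1).comp ((c.pair (f.comp s)).pair σ)).and (CeAlg.cs (cand
      (clt (s.comp s) (pow_c.comp (ml (f.comp σ) (La_c c)))) (ceq (s.comp (f.comp f))
        (xs_c c (f.comp σ) (f.comp (s.comp σ)) (s.comp (s.comp (s.comp σ))) (s.comp s))))))
  obtain ⟨c2, k2⟩ := oV.bound (sig_ex hG) fun e x y ⟨σ, ⟨t, i⟩, a1, _, (a2 : x = _)⟩
    ⟨τ, ⟨t', i'⟩, b1, _, (b2 : y = _)⟩ k => by
      dsimp only at a1 a2 b1 b2
      subst a2 b2
      have u := iv _ _ _ a1
      have v := iv _ _ _ b1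
      have u1 := u.2.1
      have v1 := v.2.1
      have w : σ.2.2.2 < τ.2.2.2 + 2 ^ (τ.2.1 + 1) ∧ τ.2.2.2 < σ.2.2.2 + 2 ^ (σ.2.1 + 1) :=
        (List.prefix_or_prefix_of_prefix ((List.prefix_append _ _).trans k)
          (List.prefix_append _ _)).elim (hdr (by omega) (by omega) (u.fit hK) (v.fit hK))
            fun z => (hdr (by omega) (by omega) (v.fit hK) (u.fit hK) z).symm
      refine k.eq_of_length ?_
      rw [xs_len, xs_len]
      rcases tot _ _ _ _ _ a1 b1 with (z | z) | z | z
      · rw [z.1, z.2.1]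
      · omega
      · rw [z.1, z.2.1]
      · omega
  have hS : Sig 1 (((ℕ × ℕ) × List Bool) × St) fun z =>
      (∃ y : ℕ × ℕ, z.2 ∈ R (2 * z.1.1.1, y.1) ∧ y.2 < 2 ^ (z.2.1 * La D (2 * z.1.1.1)) ∧
        z.1.2 = xs D (2 * z.1.1.1) z.2.1 z.2.2.1 z.2.2.2.2 y.2) ∧
        z.1.1.2 = lev D (2 * z.1.1.1) z.2.1 z.2.2.2.1 :=
    (hG.comp (((f.comp (f.comp f)).pair (s.comp f)).pair s)).and (CeAlg.cs (ceq
      (s.comp (f.comp f)) (lev_c (ml (Computable.const 2) (f.comp (f.comp f))) (f.comp s)
        (f.comp (s.comp (s.comp s))))))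
  obtain ⟨c1, k1⟩ := oW.bound (sig_ex hS)
  obtain ⟨e, e1, e2⟩ : ∃ e, c1 ≤ e ∧ c2 ≤ e := ⟨c1 + c2, by omega, by omega⟩
  have main : ∀ t, ∃ σ, σ ∈ R (2 * e, t) := fun t => by
    induction t with
    | zero => exact ⟨_, r0 _ ▸ Part.mem_some _⟩
    | succ t ih =>
      obtain ⟨⟨s, p, j, a⟩, h⟩ := ih
      have hj : j < dd D (2 * e) := (iv _ _ _ h).1
      have b1 : ∀ i < 2 ^ (s * La D (2 * e)),
          cx W (xs D (2 * e) s p a i) ≤ lev D (2 * e) s j + 2 * e := fun i hi => by
        refine (k1 e (lev D (2 * e) s j) _ ⟨_, ⟨(t, i), h, hi, rfl⟩, rfl⟩ fun F hF => ?_).trans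
          (by omega)
        dsimp only at hF
        choose! σ g g4 using hF
        choose! y g1 g2 g3 using g
        have g5 := fun x hx => lev_inj hj (iv _ _ _ (g1 x hx)).1 (g4 x hx)
        refine (card_le_mul_card_image (f := fun x => (σ x).2.1) F (2 ^ (s * La D (2 * e)))
          fun q hq => ?_).trans ?_
        · obtain ⟨x, hx, rfl⟩ := mem_image.1 hq
          refine (card_le_card fun z hz => ?_).trans (card_image_le.trans_eq (card_range _) :
            #((range (2 ^ (s * La D (2 * e)))).image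
              (xs D (2 * e) s (σ x).2.1 (σ x).2.2.2)) ≤ _)
          obtain ⟨z1, z2⟩ := mem_filter.1 hz
          have u := (g5 x hx).1
          have v := (g5 z z1).1
          have w : (σ x).2.2.2 = (σ z).2.2.2 := by
            rcases tot _ _ _ _ _ (g1 x hx) (g1 z z1) with (w | w) | w | w <;> omega
          exact mem_image.2 ⟨(y z).2, mem_range.2 (v ▸ g2 z z1), by
            rw [w, ← z2, v]; exact (g3 z z1).symm⟩
        · rw [lev, pow_add]
          refine Nat.mul_le_mul_left _ ?_
          rcases F.eq_empty_or_nonempty with rfl | ne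
          · simp
          obtain ⟨x, hx, mx⟩ := exists_max_image F (fun x => (σ x).2.1) ne
          refine (card_erase_add_one (mem_image_of_mem _ hx)).ge.trans
            (few (s := s) hC hj _ fun q hq => ?_)
          obtain ⟨q1, q2⟩ := mem_erase.1 hq
          obtain ⟨z, z1, rfl⟩ := mem_image.1 q2
          have u := g5 x hx
          have v := g5 z z1
          have m := mx z z1
          have l := (iv _ _ _ (g1 z z1)).2.1
          refine ⟨by omega, (σ z).2.2.2, ?_⟩
          rcases tot _ _ _ _ _ (g1 x hx) (g1 z z1) with (w | w) | w | ⟨-, w | w⟩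
          all_goals try omega
          rw [v.1, v.2]
          exact w.2.2
      have b2 : ∀ i < 2 ^ (s * La D (2 * e)), cx V (xs D (2 * e) s p a i) ≤
          (xs D (2 * e) s p a i).length + 2 * e := fun i hi => by
        obtain ⟨q, q1, q2⟩ := k2 e (xs D (2 * e) s p a i) ⟨(s, p, j, a), (t, i), h, hi, rfl⟩
        have := cx_le q2
        omega
      have b3 : Ab D (cx W) (2 * e) s p j a ∨ Go D (cx V) L (2 * e) s p j a := by
        have : #(range (2 ^ (s * La D (2 * e)))) ≤ #{i ∈ range (2 ^ (s * La D (2 * e))) |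
            cx W (xs D (2 * e) s p a i) ≤ lev D (2 * e) s (j + 1) + 2 * e} +
            #{i ∈ range (2 ^ (s * La D (2 * e))) | Gd D (cx V) L (2 * e) s p j a i} :=
          (card_le_card fun i hi => mem_union.2 ((le_or_gt _ _).imp
            (fun z => mem_filter.2 ⟨hi, z⟩) fun z => mem_filter.2 ⟨hi, _, _, all _, z,
              b1 i (mem_range.1 hi), le_rfl, b2 i (mem_range.1 hi)⟩)).trans (card_union_le _ _)
        rw [card_range] at this
        rw [Ab, Go]
        obtain ⟨w, hw⟩ : ∃ w, 2 * dd D (2 * e) = w + 1 := ⟨2 * dd D (2 * e) - 1, by omega⟩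
        rw [hw, Nat.add_sub_cancel]
        by_contra! z
        nlinarith [z.1, z.2]
      obtain ⟨τ, hτ⟩ : ∃ τ, Step D (cx W) (cx V) L (2 * e) (s, p, j, a) τ :=
        b3.elim (fun z => ⟨_, Or.inl ⟨z, rfl⟩⟩) fun z => ⟨_, Or.inr ⟨z, rfl⟩⟩
      obtain ⟨τ, hτ⟩ := n3 (2 * e, s, p, j, a) τ hτ
      exact ⟨τ, rs _ _ ▸ Part.mem_bind h hτ⟩
  obtain ⟨σ, h⟩ := main (dd D (2 * e) * (2 ^ La D (2 * e) + 1))
  have u := iv _ _ _ h
  have := Nat.mul_le_mul_left (dd D (2 * e)) ((Nat.le_add_right _ _).trans (u.fit hK))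
  have := u.1
  have := u.2.2.1
  rw [mul_add] at this
  omega

end Pool.Agent.Lib.H8.Kc
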