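import Pool.Agent.Lib.H8.Gen

/-!
An effectively closed class without computable members, with a traceable member.
-/

namespace Pool.Agent.Lib.H8.Low

open Arith CList Wei Qm Kc Gen Filter Classical

/-- The set enumerated so far. -/
noncomputable def ch (L : List (ℕ × ℕ)) (x : ℕ) : ℕ := if (x, 0) ∈ L then 1 else 0

/-- The number of actions of high priority. -/
def cnt (j : ℕ) (L : List (ℕ × ℕ)) : ℕ := (L.filter (·.1.unpair.1 < j)).length

variable {α : Type} [Primcodable α]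

lemma cmem {β : Type} [Primcodable β] {L : α → List β} {x : α → β} (hL : Computable L)
    (hx : Computable x) : ComputablePred fun a => x a ∈ L a :=
  (call (p := fun a b => ¬ x a = b) hL (ceq (hx.comp Computable.fst) Computable.snd).not).not.of_eq
    fun a => by simp

lemma pch {L : α → List (ℕ × ℕ)} {t : α → ℕ} (hL : Computable L) (ht : Computable t) :
    Computable fun a => pre (ch (L a)) (t a) :=
  cpre ht (cite (cmem (hL.comp Computable.fst) (Computable.snd.pair (Computable.const 0)))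
    (Computable.const 1) (Computable.const 0)).to₂

lemma seq {C : List (ℕ × ℕ) × ℕ → Prop} {z : ℕ → ℕ × ℕ} (hC : ComputablePred C)
    (hz : Computable z) : ∃ L : ℕ → List (ℕ × ℕ), Computable L ∧ L 0 = [] ∧
      ∀ s, (C (L s, s) ∧ L (s + 1) = z s :: L s) ∨ (¬ C (L s, s) ∧ L (s + 1) = L s) := by
  have a : Computable fun q : ℕ × ℕ × List (ℕ × ℕ) => q.2.1 := Computable.fst.comp Computable.snd
  have b : Computable fun q : ℕ × ℕ × List (ℕ × ℕ) => q.2.2 := Computable.snd.comp Computable.snd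
  refine ⟨_, Computable.nat_rec Computable.id (Computable.const []) (cite (cp hC (b.pair a))
    (Computable.list_cons.comp (hz.comp a) b) b).to₂, rfl, fun s => ?_⟩
  exact (Classical.em _).imp (fun h => ⟨h, if_pos h⟩) fun h => ⟨h, if_neg h⟩

theorem low {Q : ℕ × List ℕ × ℕ → Prop} (hQ : ComputablePred Q) :
    ∃ (U : List ℕ → Prop) (a : ℕ → ℕ) (T : ℕ × ℕ × ℕ → Prop), Sig 1 _ U ∧ Sig 1 _ T ∧
      (∀ n, a n ≤ 1) ∧ (∀ k, ¬ U (pre a k)) ∧
      (∀ p, (∀ k, ¬ U (pre p k)) → ¬ Sig 1 ℕ fun z => z.unpair.2 = p z.unpair.1) ∧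
      (∀ j k t t', T (j, k, t) → T (j, k, t') → t = t') ∧
      (∀ j k t, T (j, k, t) → k ≤ j ∧ ∃ l, Q (j, l, t)) ∧
      ∀ j t, Q (j, pre a t, t) → ∃ k t, T (j, k, t) ∧ Q (j, pre a t, t) := by
  have f := @Computable.fst
  have s := @Computable.snd
  obtain ⟨B, b, eB⟩ := sig_nf (CeAlg.w_sig (α := ℕ × ℕ) (u1.comp f)
    (Primrec₂.natPair.to_comp.comp f s))
  obtain ⟨R, hR, eR⟩ : ∃ R : List (ℕ × ℕ) → ℕ → ℕ → Prop,
      (ComputablePred fun q : (List (ℕ × ℕ) × ℕ) × ℕ => R q.1.1 q.1.2 q.2) ∧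
      ∀ L j t, R L j t ↔ Q (j, pre (ch L) t, t) :=
    ⟨_, cp hQ ((s.comp f).pair ((pch (f.comp f) s).pair s)), fun _ _ _ => Iff.rfl⟩
  obtain ⟨d, hd, ed⟩ : ∃ d : ℕ → (ℕ × ℕ) × ℕ, Computable d ∧ Function.Surjective d :=
    ⟨_, (Primrec.ofNat _).to_comp, fun x => ⟨_, Denumerable.ofNat_encode x⟩⟩
  have x : Computable fun q : List (ℕ × ℕ) × ℕ => (d q.2).1.1 := f.comp (f.comp (hd.comp s))
  have r : ComputablePred fun q : ((List (ℕ × ℕ) × ℕ) × ℕ) × ℕ => R q.1.1.1 q.1.2 q.2 :=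
    cp hR (((f.comp (f.comp f)).pair (s.comp f)).pair s)
  obtain ⟨L, hL, L0, Ls⟩ := seq (C := fun q => (∀ z ∈ q.1, ¬ z.1.unpair.1 = (d q.2).1.1.unpair.1) ∧
      B (d q.2) ∧ ∀ j < (d q.2).1.1.unpair.1 + 1, (∃ t < q.2, R q.1 j t) →
        ∃ t < (d q.2).1.1 + 1, R q.1 j t)
    (cand (call f (ceq (u1.comp (f.comp s)) (u1.comp (x.comp f))).not) (cand (cp b (hd.comp s))
      (cball (Computable.succ.comp (u1.comp x)) (cimp (cbex (s.comp f) r)
        (cbex (Computable.succ.comp (x.comp f)) r))))) (f.comp hd)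
  dsimp only at Ls
  have m : ∀ s t, s ≤ t → L s ⊆ L t := fun s t h => by
    induction t, h using Nat.le_induction with
    | base => exact fun _ h => h
    | succ t _ ih => rcases Ls t with ⟨-, e⟩ | ⟨-, e⟩ <;> simp [e, ih]
  have nd : ∀ s, ((L s).map (·.1.unpair.1)).Nodup ∧
      ∀ z ∈ L s, z.1.pair z.2 ∈ CeAlg.W z.1.unpair.1 := fun s => by
    induction s with
    | zero => simp [L0]
    | succ t ih =>
      rcases Ls t with ⟨c, e⟩ | ⟨-, e⟩ <;> rw [e]
      · exact ⟨List.nodup_cons.2 ⟨by simpa using c.1, ih.1⟩,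
          List.forall_mem_cons.2 ⟨(eB _).2 ⟨_, c.2.1⟩, ih.2⟩⟩
      · exact ih
  have cm : ∀ j, Monotone fun s => cnt j (L s) := fun j => monotone_nat_of_le_succ fun s => by
    rcases Ls s with ⟨-, e⟩ | ⟨-, e⟩ <;> rw [e]
    exact ((List.sublist_cons_self _ _).filter _).length_le
  have cb : ∀ j s, cnt j (L s) ≤ j := fun j s => by
    simpa [cnt] using (((nd s).1.sublist (List.filter_sublist.map _)).subperm
      (l₂ := List.range j) fun x h => by
        obtain ⟨z, a, rfl⟩ := List.mem_map.1 h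
        simpa using (List.mem_filter.1 a).2).length_le
  let Mn : List (ℕ × ℕ) → ℕ → ℕ → Prop := fun L j t => R L j t ∧ ∀ u < t, ¬ R L j u
  have pr : ∀ j t s s', s ≤ s' → t < s → Mn (L s) j t → cnt j (L s') = cnt j (L s) →
      Mn (L s') j t := fun j t s s' h a c => by
    induction s', h using Nat.le_induction with
    | base => exact fun _ => c
    | succ u h ih =>
      intro e
      have e' := (cm j u.le_succ).antisymm (e.trans_le (cm j h))
      replace ih := ih (e'.trans e)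
      rcases Ls u with ⟨g, i⟩ | ⟨-, i⟩
      swap
      · rwa [i]
      have k : j < (d u).1.1.unpair.1 + 1 := by_contra fun k => by
        simp [i, cnt, show (d u).1.1.unpair.1 < j by omega] at e'
      obtain ⟨v, v1, v2⟩ := g.2.2 j k ⟨t, by omega, ih.1⟩
      have l : t ≤ v := not_lt.1 fun l => ih.2 v l v2
      have n : ∀ w ≤ t, R (L (u + 1)) j w ↔ R (L u) j w := fun w o => by
        rw [eR, eR, pre_congr fun y p => ?_]
        simp [ch, i, Prod.ext_iff, show y ≠ (d u).1.1 by omega]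
      exact ⟨(n t le_rfl).2 ih.1, fun w o => mt (n w o.le).1 (ih.2 w o)⟩
  have mn : ∀ j s t, t < s → R (L s) j t →
      ∃ u ≤ t, ∃ s', u < s' ∧ cnt j (L s') = cnt j (L s) ∧ Mn (L s') j u ∧ R (L s) j u :=
    fun j s t a c => ⟨Nat.find ⟨t, c⟩, Nat.find_le c, s, (Nat.find_le c).trans_lt a, rfl,
      ⟨Nat.find_spec ⟨t, c⟩, fun _ => Nat.find_min _⟩, Nat.find_spec ⟨t, c⟩⟩
  have un : ∀ j k t t', (∃ s, t < s ∧ cnt j (L s) = k ∧ Mn (L s) j t) →
      (∃ s, t' < s ∧ cnt j (L s) = k ∧ Mn (L s) j t') → t = t' := by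
    rintro j k t t' ⟨u, a, rfl, c⟩ ⟨v, a', e, c'⟩
    have : ∀ L, Mn L j t → Mn L j t' → t = t' := fun L p q =>
      (not_lt.1 fun l => p.2 _ l q.1).antisymm (not_lt.1 fun l => q.2 _ l p.1)
    rcases le_total u v with h | h
    exacts [this _ (pr _ _ _ _ h a c e) c', this _ c (pr _ _ _ _ h a' c' e.symm)]
  have j : Computable fun q : (ℕ × ℕ × ℕ) × ℕ => q.1.1 := f.comp f
  have t : Computable fun q : (ℕ × ℕ × ℕ) × ℕ => q.1.2.2 := s.comp (s.comp f)
  have y : Computable fun q : (List ℕ × ℕ) × ℕ × ℕ => q.2.1 := f.comp s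
  have c : Computable fun q : (ℕ × ℕ × ℕ) × ℕ => cnt q.1.1 (L q.2) :=
    (Computable.list_length.comp (cfilter (hL.comp s) (clt (u1.comp (f.comp s)) (j.comp f)))).of_eq
      fun q => by unfold cnt; congr
  have o : ComputablePred fun q : ((ℕ × ℕ × ℕ) × ℕ) × ℕ => ¬ R (L q.1.2) q.1.1.1 q.2 :=
    (cp hR ((((hL.comp s).pair j).comp f).pair s)).not
  have v : ComputablePred fun q : (ℕ × ℕ × ℕ) × ℕ => Mn (L q.2) q.1.1 q.1.2.2 :=
    cand (cp hR (((hL.comp s).pair j).pair t)) (cball t o)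
  have w : ComputablePred fun q : (List ℕ × ℕ) × ℕ × ℕ =>
      ¬ (q.2.1 < q.1.1.length ∧ (q.1.1.getD q.2.1 0 = 0 ↔ q.2.2 = 0)) := by
    have u := ceq ((Primrec.list_getD 0).to_comp.comp (f.comp f) y) (Computable.const 0)
    have v := ceq (s.comp (s (α := List ℕ × ℕ) (β := ℕ × ℕ))) (Computable.const 0)
    exact (cand (clt y (Computable.list_length.comp (f.comp f))) ((cand (cimp u v)
      (cimp v u)).of_eq fun _ => iff_iff_implies_and_implies.symm)).not
  have w : ComputablePred fun q : List ℕ × ℕ => ∀ z ∈ L q.2,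
      ¬ (z.1 < q.1.length ∧ (q.1.getD z.1 0 = 0 ↔ z.2 = 0)) := call (hL.comp s) w
  refine ⟨fun l => ∃ s, ¬ ∀ z ∈ L s, ¬ (z.1 < l.length ∧ (l.getD z.1 0 = 0 ↔ z.2 = 0)),
    fun x => if ∃ s, (x, 0) ∈ L s then 1 else 0,
    fun q => ∃ s, q.2.2 < s ∧ cnt q.1 (L s) = q.2.1 ∧ Mn (L s) q.1 q.2.2,
    Sig.ex (CeAlg.cs w.not), Sig.ex (CeAlg.cs (cand (clt t s) (cand (ceq c (f.comp (s.comp f))) v))),
    fun n => by dsimp only; split_ifs <;> simp, fun k ⟨u, h⟩ => h fun z a ⟨c, e⟩ => ?_,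
    fun p h g => ?_, un, fun j k t ⟨u, _, a, c⟩ => ⟨a.symm.trans_le (cb j u), _, (eR ..).1 c.1⟩,
    fun j t h => ?_⟩
  · rw [pre_get _ (by simpa using c)] at e
    by_cases g : ∃ s, (z.1, 0) ∈ L s
    · obtain ⟨v, g⟩ := id g
      have := List.inj_on_of_nodup_map (nd (u + v)).1 (m _ _ (by omega) a) (m _ _ (by omega) g) rfl
      simp [‹∃ s, _›, (Prod.ext_iff.1 this).2] at e
    · exact g ⟨u, (e.1 (if_neg g)) ▸ a⟩
  · obtain ⟨c, -, e⟩ := CeAlg.w_idx (β := ℕ) (g.comp s)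
    have : ∀ i : Fin (c 0 + 1) × Fin (c 0 + 1), ∃ r, ∀ t,
        (∃ s, t < s ∧ cnt i.1 (L s) = i.2 ∧ Mn (L s) i.1 t) → t ≤ r := fun i => by
      by_cases h : ∃ t s, t < s ∧ cnt i.1 (L s) = i.2 ∧ Mn (L s) i.1 t
      · exact h.imp fun t a u b => (un _ _ _ _ b a).le
      · exact ⟨0, fun t a => (h ⟨t, a⟩).elim⟩
    choose r hr using this
    obtain ⟨ρ, hρ⟩ := (Set.finite_range r).bddAbove
    obtain ⟨w, hw⟩ := (eB ((c 0).pair ρ, p ((c 0).pair ρ))).1 (by simp [e])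
    obtain ⟨u, hu⟩ := ed (((c 0).pair ρ, p ((c 0).pair ρ)), w)
    obtain ⟨z, z1, z2⟩ : ∃ z ∈ L (u + 1), z.1.unpair.1 = c 0 := by
      rcases Ls u with ⟨-, i⟩ | ⟨i, k⟩ <;> rw [‹L (u + 1) = _›]
      · exact ⟨_, List.mem_cons_self, by rw [hu]; simp⟩
      by_contra n
      rw [hu] at i
      refine i ⟨by simpa using n, hw, fun j o ⟨t, t1, t2⟩ => ?_⟩
      obtain ⟨v, -, s', v1, v2, v3, v4⟩ := mn j u t t1 t2
      simp only [Nat.unpair_pair] at o
      have := (hr (⟨j, o⟩, ⟨cnt j (L u), (cb j u).trans_lt o⟩) v ⟨s', v1, v2, v3⟩).trans (hρ ⟨_, rfl⟩)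
      exact ⟨v, by have := Nat.right_le_pair (c 0) ρ; dsimp only; omega, v4⟩
    have := (nd _).2 z z1
    rw [z2, e] at this
    exact h (z.1 + 1) ⟨u + 1, fun n => n z z1 ⟨by simp, by
      rw [pre_get _ (by simp)]; simp at this; rw [this]⟩⟩
  · obtain ⟨u, a, c⟩ := ((eventually_gt_atTop t).and ((eventually_all_finite
      (Set.finite_lt_nat t)).2 fun x _ => show ∀ᶠ u in atTop,
        ch (L u) x = if ∃ s, (x, 0) ∈ L s then 1 else 0 by
      split_ifs with g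
      · obtain ⟨v, g⟩ := g
        exact (eventually_ge_atTop v).mono fun u l => if_pos (m _ _ l g)
      · exact .of_forall fun u => if_neg fun n => g ⟨u, n⟩)).exists
    obtain ⟨v, l, s', v1, v2, v3, v4⟩ := mn j u t a ((eR ..).2 (by rwa [pre_congr c]))
    exact ⟨cnt j (L s'), v, ⟨s', v1, rfl, v3⟩, by
      rwa [eR, pre_congr fun x o => c x (o.trans_le l)] at v4⟩

end Pool.Agent.Lib.H8.Low
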