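import Mathlib

/-! A perfect centreless finite group whose conjugacy classes are all small. -/

set_option autoImplicit false

namespace Pool.Agent.Lib.H8.NVL

abbrev F : Type := ZMod 5
abbrev A : Type := (Fin 5 → F) × (Fin 14 → F)
abbrev B : Type := (Fin 5 → Fin 14 → F) × F
abbrev D : Type := Fin 14 → F

def mu (a b : A) : B := (fun i j => a.1 i * b.2 j + b.1 i * a.2 j, ∑ i, a.1 i * b.1 i)
def nu (t : B) (a : A) : D := fun j => ∑ i, a.1 i * t.1 i j + t.2 * a.2 j
def om (x1 x2 z1 z2 : A) : B := mu x1 z2 - mu x2 z1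

@[ext] structure N where
  x1 : A
  x2 : A
  t : B
  y1 : D
  y2 : D

def mul (g h : N) : N where
  x1 := g.x1 + h.x1
  x2 := g.x2 + h.x2
  t := g.t + h.t + (3 : F) • om g.x1 g.x2 h.x1 h.x2
  y1 := g.y1 + h.y1 + nu g.t h.x1 - nu h.t g.x1 + nu (om g.x1 g.x2 h.x1 h.x2) (h.x1 - g.x1)
  y2 := g.y2 + h.y2 + nu g.t h.x2 - nu h.t g.x2 + nu (om g.x1 g.x2 h.x1 h.x2) (h.x2 - g.x2)

instance : Mul N := ⟨mul⟩
instance : One N := ⟨⟨0, 0, 0, 0, 0⟩⟩
instance : Inv N := ⟨fun g => ⟨-g.x1, -g.x2, -g.t, -g.y1, -g.y2⟩⟩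

theorem mul_def (g h : N) : g * h = mul g h := rfl
theorem one_def : (1 : N) = ⟨0, 0, 0, 0, 0⟩ := rfl
theorem inv_def (g : N) : g⁻¹ = ⟨-g.x1, -g.x2, -g.t, -g.y1, -g.y2⟩ := rfl

theorem mul_assoc' (g h k : N) : g * h * k = g * (h * k) := by
  ext <;> simp only [mul_def, mul, om, mu, nu, Fin.sum_univ_five, Prod.fst_add, Prod.snd_add,
    Prod.fst_sub, Prod.snd_sub, Prod.smul_fst, Prod.smul_snd, Pi.add_apply, Pi.sub_apply,
    Pi.smul_apply, smul_eq_mul] <;> ring

instance : Group N := Group.ofLeftAxioms mul_assoc'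
  (fun g => by
    ext <;> simp [mul_def, one_def, mul, om, mu, nu])
  (fun g => by
    ext <;> simp only [mul_def, one_def, inv_def, mul, om, mu, nu, Fin.sum_univ_five,
      Prod.fst_add, Prod.snd_add, Prod.fst_neg, Prod.snd_neg, Pi.neg_apply,
      Prod.fst_sub, Prod.snd_sub, Prod.smul_fst, Prod.smul_snd, Pi.add_apply, Pi.sub_apply,
      Pi.smul_apply, smul_eq_mul, Prod.fst_zero, Prod.snd_zero, Pi.zero_apply] <;> ring)

abbrev S : Type := Matrix.SpecialLinearGroup (Fin 2) F

def act (s : Matrix (Fin 2) (Fin 2) F) (g : N) : N where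
  x1 := s 0 0 • g.x1 + s 0 1 • g.x2
  x2 := s 1 0 • g.x1 + s 1 1 • g.x2
  t := g.t
  y1 := s 0 0 • g.y1 + s 0 1 • g.y2
  y2 := s 1 0 • g.y1 + s 1 1 • g.y2

theorem om_act (a b c d : F) (x1 x2 z1 z2 : A) :
    om (a • x1 + b • x2) (c • x1 + d • x2) (a • z1 + b • z2) (c • z1 + d • z2) =
      (a * d - b * c) • om x1 x2 z1 z2 := by
  ext <;> simp only [om, mu, Fin.sum_univ_five, Prod.fst_add, Prod.snd_add,
    Prod.fst_sub, Prod.snd_sub, Prod.smul_fst, Prod.smul_snd, Pi.add_apply, Pi.sub_apply,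
    Pi.smul_apply, smul_eq_mul] <;> ring

theorem act_mul (s : S) (g h : N) : act s.1 (g * h) = act s.1 g * act s.1 h := by
  have hd : s.1 0 0 * s.1 1 1 - s.1 0 1 * s.1 1 0 = 1 := by
    have := s.2
    rwa [Matrix.det_fin_two] at this
  simp only [mul_def, mul, act, om_act, hd, one_smul]
  generalize om g.x1 g.x2 h.x1 h.x2 = w
  ext <;> simp only [nu, Fin.sum_univ_five, Prod.fst_add, Prod.snd_add,
    Prod.fst_sub, Prod.snd_sub, Prod.smul_fst, Prod.smul_snd, Pi.add_apply, Pi.sub_apply,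
    Pi.smul_apply, smul_eq_mul] <;> ring

theorem act_act (s r : Matrix (Fin 2) (Fin 2) F) (g : N) : act (s * r) g = act s (act r g) := by
  ext <;> simp only [act, Matrix.mul_apply, Fin.sum_univ_two, Prod.fst_add, Prod.snd_add,
    Prod.smul_fst, Prod.smul_snd, Pi.add_apply, Pi.smul_apply, smul_eq_mul] <;> ring

theorem act_one (g : N) : act 1 g = g := by
  ext <;> simp [act]

def phi : S →* MulAut N where
  toFun s :=
    { toFun := act s.1
      invFun := act (s⁻¹).1
      left_inv := fun g => by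
        rw [← act_act, ← Matrix.SpecialLinearGroup.coe_mul, inv_mul_cancel]; exact act_one g
      right_inv := fun g => by
        rw [← act_act, ← Matrix.SpecialLinearGroup.coe_mul, mul_inv_cancel]; exact act_one g
      map_mul' := act_mul s }
  map_one' := MulEquiv.ext fun g => act_one g
  map_mul' s r := MulEquiv.ext fun g => act_act s.1 r.1 g

theorem phi_apply (s : S) (g : N) : phi s g = act s.1 g := rfl

abbrev G : Type := N ⋊[phi] S

def eqvN : N ≃ A × A × B × D × D where
  toFun g := (g.x1, g.x2, g.t, g.y1, g.y2)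
  invFun p := ⟨p.1, p.2.1, p.2.2.1, p.2.2.2.1, p.2.2.2.2⟩
  left_inv _ := rfl
  right_inv _ := rfl

instance : Finite N := Finite.of_equiv _ eqvN.symm

instance : Finite G := Finite.of_equiv _ (SemidirectProduct.equivProd (φ := phi)).symm

theorem cardA : Nat.card A = 5 ^ 19 := by simp
theorem cardB : Nat.card B = 5 ^ 71 := by simp
theorem cardD : Nat.card D = 5 ^ 14 := by simp

theorem cardG : Nat.card G = 5 ^ 137 * Nat.card S := by
  rw [Nat.card_congr (SemidirectProduct.equivProd (φ := phi)), Nat.card_prod,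
    Nat.card_congr eqvN]
  simp only [Nat.card_prod (A) (A × B × D × D), Nat.card_prod A (B × D × D),
    Nat.card_prod B (D × D), Nat.card_prod D D, cardA, cardB, cardD]
  norm_num

theorem cardS : Nat.card S ≤ 5 ^ 4 := by
  have := Nat.card_le_card_of_injective (fun s : S => s.1) Subtype.val_injective
  refine this.trans (le_of_eq ?_)
  simp [Matrix]

/-- conjugacy classes are small -/
theorem class_le (g : G) :
    {y : G | ∃ h : G, h * g * h⁻¹ = y}.ncard ≤ 5 ^ 66 * Nat.card S := by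
  let r : A × A × S → G := fun p => ⟨⟨p.1, p.2.1, 0, 0, 0⟩, p.2.2⟩
  let f : (A × A × S) × D × D → G := fun p =>
    ⟨⟨(r p.1 * g * (r p.1)⁻¹).left.x1, (r p.1 * g * (r p.1)⁻¹).left.x2,
      (r p.1 * g * (r p.1)⁻¹).left.t, p.2.1, p.2.2⟩, (r p.1 * g * (r p.1)⁻¹).right⟩
  have hsub : {y : G | ∃ h : G, h * g * h⁻¹ = y} ⊆ Set.range f := by
    rintro _ ⟨h, rfl⟩
    refine ⟨((h.left.x1, h.left.x2, h.right), (h * g * h⁻¹).left.y1, (h * g * h⁻¹).left.y2), ?_⟩
    refine SemidirectProduct.ext (N.ext ?_ ?_ ?_ rfl rfl) rfl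
    · rfl
    · rfl
    · simp only [f, r, SemidirectProduct.mul_left, SemidirectProduct.mul_right,
        SemidirectProduct.inv_left, phi_apply, mul_def, inv_def,
        mul, act]
      abel
  refine (Set.ncard_le_ncard hsub (Set.toFinite _)).trans ?_
  rw [← Set.image_univ]
  refine (Set.ncard_image_le (Set.toFinite _)).trans (le_of_eq ?_)
  rw [Set.ncard_univ, Nat.card_prod, Nat.card_prod A, Nat.card_prod A, Nat.card_prod D, cardA,
    cardD]
  ring

def z : S := ⟨!![-1, 0; 0, -1], by simp [Matrix.det_fin_two]⟩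

theorem act_z (g : N) : phi z g = ⟨-g.x1, -g.x2, g.t, -g.y1, -g.y2⟩ := by
  rw [phi_apply]
  ext <;> simp [act, z]

theorem neg_self {x : F} (h : x = -x) : x = 0 := by
  revert x; decide

theorem center_bot : Subgroup.center G = ⊥ := by
  rw [eq_bot_iff]
  rintro ⟨n, s⟩ hg
  rw [Subgroup.mem_center_iff] at hg
  have hs : s = 1 := by
    have h1 := congrArg SemidirectProduct.left (hg (SemidirectProduct.inl ⟨0, 0, 0, 1, 0⟩))
    have h2 := congrArg SemidirectProduct.left (hg (SemidirectProduct.inl ⟨0, 0, 0, 0, 1⟩))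
    have a1 := congrFun (congrArg N.y1 h1) 0
    have a2 := congrFun (congrArg N.y2 h1) 0
    have a3 := congrFun (congrArg N.y1 h2) 0
    have a4 := congrFun (congrArg N.y2 h2) 0
    simp [phi_apply, mul_def, mul, act, nu, om, mu] at a1 a2 a3 a4
    ext i j
    fin_cases i <;> fin_cases j
    · simpa [add_comm] using a1.symm
    · simpa using a3
    · simpa using a2
    · simpa [add_comm] using a4.symm
  subst hs
  have h1 := congrArg SemidirectProduct.left (hg (SemidirectProduct.inr z))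
  simp only [SemidirectProduct.mul_left, SemidirectProduct.left_inr, SemidirectProduct.right_inr,
    one_mul, map_one, mul_one, act_z] at h1
  have hx1 : n.x1 = 0 := by
    have := congrArg N.x1 h1
    ext i
    · exact neg_self (congrFun (congrArg Prod.fst this) i).symm
    · exact neg_self (congrFun (congrArg Prod.snd this) i).symm
  have hx2 : n.x2 = 0 := by
    have := congrArg N.x2 h1
    ext i
    · exact neg_self (congrFun (congrArg Prod.fst this) i).symm
    · exact neg_self (congrFun (congrArg Prod.snd this) i).symm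
  have hy1 : n.y1 = 0 := by
    ext i; exact neg_self (congrFun (congrArg N.y1 h1) i).symm
  have hy2 : n.y2 = 0 := by
    ext i; exact neg_self (congrFun (congrArg N.y2 h1) i).symm
  have ht : ∀ (a : A) (j : Fin 14), nu n.t a j = 0 := by
    intro a j
    have h2 := congrArg SemidirectProduct.left (hg (SemidirectProduct.inl ⟨a, 0, 0, 0, 0⟩))
    have a1 := congrFun (congrArg N.y1 h2) j
    simp only [SemidirectProduct.mul_left, SemidirectProduct.left_inl,
      SemidirectProduct.right_inl, map_one, MulAut.one_apply, mul_def, mul, hx1, hx2, hy1] at a1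
    apply neg_self
    simp only [om, mu, nu, Fin.sum_univ_five, Prod.fst_sub, Prod.snd_sub, Pi.add_apply,
      Pi.sub_apply, Prod.fst_zero, Prod.snd_zero, Pi.zero_apply] at a1 ⊢
    linear_combination -a1
  have ht0 : n.t = 0 := by
    ext i j
    · simpa [nu, Pi.single_apply] using ht (Pi.single i 1, 0) j
    · simpa [nu] using ht (0, 1) 0
  rw [Subgroup.mem_bot]
  exact SemidirectProduct.ext (N.ext hx1 hx2 ht0 hy1 hy2) rfl

def up (b : F) : S := ⟨!![1, b; 0, 1], by simp [Matrix.det_fin_two]⟩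
def lo (c : F) : S := ⟨!![1, 0; c, 1], by simp [Matrix.det_fin_two]⟩
def dg : S := ⟨!![2, 0; 0, 3], by simp [Matrix.det_fin_two]; decide⟩

theorem dec : ∀ a b c d : F, a * d - b * c = 1 → ∃ e f g h : F,
    a = 1 + f * g ∧ b = (1 + f * g) * h + f ∧ c = e * (1 + f * g) + g ∧
      d = (e * (1 + f * g) + g) * h + (e * f + 1) := by decide +kernel

open scoped commutatorElement in
theorem S_perfect : commutator S = ⊤ := by
  have hu : ∀ b, up b ∈ commutator S := fun b => by
    have : up b = ⁅dg, up (2 * b)⁆ := by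
      rw [commutatorElement_def, eq_mul_inv_iff_mul_eq, eq_mul_inv_iff_mul_eq]
      ext i j
      fin_cases i <;> fin_cases j <;>
        simp [up, dg] <;> revert b <;> decide
    rw [this]
    exact Subgroup.commutator_mem_commutator (Subgroup.mem_top _) (Subgroup.mem_top _)
  have hl : ∀ b, lo b ∈ commutator S := fun b => by
    have : lo b = ⁅dg, lo (2 * b)⁆ := by
      rw [commutatorElement_def, eq_mul_inv_iff_mul_eq, eq_mul_inv_iff_mul_eq]
      ext i j
      fin_cases i <;> fin_cases j <;>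
        simp [lo, dg] <;> revert b <;> decide
    rw [this]
    exact Subgroup.commutator_mem_commutator (Subgroup.mem_top _) (Subgroup.mem_top _)
  rw [eq_top_iff]
  intro s _
  have hd : s.1 0 0 * s.1 1 1 - s.1 0 1 * s.1 1 0 = 1 := by
    have := s.2
    rwa [Matrix.det_fin_two] at this
  obtain ⟨e, f, g, h, h1, h2, h3, h4⟩ := dec _ _ _ _ hd
  have : s = lo e * up f * lo g * up h := by
    ext i j
    simp only [Matrix.SpecialLinearGroup.coe_mul]
    fin_cases i <;> fin_cases j <;> simp [up, lo, Matrix.mul_apply, Fin.sum_univ_two]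
    · exact h1
    · exact h2
    · rw [h3]; ring
    · rw [h4]; ring
  rw [this]
  exact mul_mem (mul_mem (mul_mem (hl e) (hu f)) (hl g)) (hu h)

theorem six (x : F) : x = 3 * x + 3 * x := by revert x; decide

open scoped commutatorElement in
theorem G_perfect : commutator G = ⊤ := by
  let K : Subgroup N := (commutator G).comap SemidirectProduct.inl
  have hz : ∀ n : N, n * phi z n⁻¹ ∈ K := fun n => by
    have : (SemidirectProduct.inl (n * phi z n⁻¹) : G) =
        ⁅(SemidirectProduct.inl n : G), SemidirectProduct.inr z⁆ := by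
      rw [commutatorElement_def, map_mul, SemidirectProduct.inl_aut, map_inv, map_inv]
      group
    change (SemidirectProduct.inl (n * phi z n⁻¹) : G) ∈ commutator G
    rw [this]
    exact Subgroup.commutator_mem_commutator (Subgroup.mem_top _) (Subgroup.mem_top _)
  have hxy : ∀ x1 x2 y1 y2, (⟨x1, x2, 0, y1, y2⟩ : N) ∈ K := fun x1 x2 y1 y2 => by
    have := hz ⟨(3 : F) • x1, (3 : F) • x2, 0, (3 : F) • y1, (3 : F) • y2⟩
    convert this using 1
    rw [act_z]
    ext <;> simp only [mul_def, inv_def, mul, om, mu, nu, Fin.sum_univ_five,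
      Prod.fst_add, Prod.snd_add, Prod.fst_neg, Prod.snd_neg, Pi.neg_apply, neg_neg,
      Prod.fst_sub, Prod.snd_sub, Prod.smul_fst, Prod.smul_snd, Pi.add_apply, Pi.sub_apply,
      Pi.smul_apply, smul_eq_mul, Prod.fst_zero, Prod.snd_zero, Pi.zero_apply] <;>
      exact (six _).trans (by ring)
  have hy : ∀ x1 x2 t y1 y2, (⟨x1, x2, t, y1, y2⟩ : N) ∈ K → (⟨0, 0, t, 0, 0⟩ : N) ∈ K := by
    intro x1 x2 t y1 y2 h
    have h1 := K.mul_mem (hxy (-x1) (-x2) 0 0) h
    have h2 := K.mul_mem h1 (hxy 0 0 (-(mul ⟨-x1, -x2, 0, 0, 0⟩ ⟨x1, x2, t, y1, y2⟩).y1)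
      (-(mul ⟨-x1, -x2, 0, 0, 0⟩ ⟨x1, x2, t, y1, y2⟩).y2))
    convert h2 using 1
    ext <;> simp only [mul_def, mul, om, mu, nu, Fin.sum_univ_five,
      Prod.fst_add, Prod.snd_add, Prod.fst_neg, Prod.snd_neg, Pi.neg_apply,
      Prod.fst_sub, Prod.snd_sub, Prod.smul_fst, Prod.smul_snd, Pi.add_apply, Pi.sub_apply,
      Pi.smul_apply, smul_eq_mul, Prod.fst_zero, Prod.snd_zero, Pi.zero_apply] <;> ring
  have hmu : ∀ a b : A, (⟨0, 0, mu a b, 0, 0⟩ : N) ∈ K := fun a b => by
    have h1 := hy _ _ _ _ _ (K.mul_mem (hxy a 0 0 0) (hxy 0 ((2 : F) • b) 0 0))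
    convert h1 using 2
    ext <;> simp only [om, mu, Fin.sum_univ_five,
      Prod.fst_add, Prod.snd_add,
      Prod.fst_sub, Prod.snd_sub, Prod.smul_fst, Prod.smul_snd, Pi.add_apply, Pi.sub_apply,
      Pi.smul_apply, smul_eq_mul, Prod.fst_zero, Prod.snd_zero, Pi.zero_apply] <;>
      exact (six _).trans (by ring)
  have hadd : ∀ t t' : B, (⟨0, 0, t, 0, 0⟩ : N) ∈ K → (⟨0, 0, t', 0, 0⟩ : N) ∈ K →
      (⟨0, 0, t + t', 0, 0⟩ : N) ∈ K := fun t t' h h' => by
    convert K.mul_mem h h' using 1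
    ext <;> simp [mul_def, mul, om, mu, nu]
  have ht : ∀ t : B, (⟨0, 0, t, 0, 0⟩ : N) ∈ K := fun t => by
    have : t = mu (Pi.single 0 1, 0) (0, t.1 0) + mu (Pi.single 1 1, 0) (0, t.1 1) +
        mu (Pi.single 2 1, 0) (0, t.1 2) + mu (Pi.single 3 1, 0) (0, t.1 3) +
        mu (Pi.single 4 1, 0) (0, t.1 4) + mu (Pi.single 0 1, 0) (Pi.single 0 t.2, 0) := by
      ext i j
      · fin_cases i <;> simp [mu]
      · simp [mu, Fin.sum_univ_five]
    rw [this]
    exact hadd _ _ (hadd _ _ (hadd _ _ (hadd _ _ (hadd _ _ (hmu _ _) (hmu _ _)) (hmu _ _))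
      (hmu _ _)) (hmu _ _)) (hmu _ _)
  have hN : ∀ n : N, n ∈ K := fun n => by
    have := K.mul_mem (ht n.t) (hxy n.x1 n.x2 (n.y1 - nu n.t n.x1) (n.y2 - nu n.t n.x2))
    convert this using 1
    ext <;> simp [mul_def, mul, om, mu, nu]
  rw [eq_top_iff]
  intro g _
  rw [← SemidirectProduct.inl_left_mul_inr_right g]
  refine mul_mem (hN g.left) ?_
  have h1 : g.right ∈ commutator S := by rw [S_perfect]; trivial
  have h2 := Subgroup.mem_map_of_mem (SemidirectProduct.inr : S →* G) h1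
  rw [commutator_def, Subgroup.map_commutator] at h2
  exact Subgroup.commutator_mono le_top le_top h2

theorem arith (q n s : ℕ) (hq : 1 < q) (h1 : n ≤ q ^ 66 * s) (h2 : s ≤ q ^ 4) (h3 : 0 < s) :
    n ^ 2 < q ^ 137 * s :=
  calc n ^ 2 ≤ (q ^ 66 * s) ^ 2 := Nat.pow_le_pow_left h1 2
    _ = (q ^ 132 * s) * s := by ring
    _ ≤ (q ^ 132 * s) * q ^ 4 := Nat.mul_le_mul_left _ h2
    _ = q ^ 136 * s := by ring
    _ < q ^ 137 * s := Nat.mul_lt_mul_of_pos_right (Nat.pow_lt_pow_right hq (by norm_num)) h3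

theorem cardS_pos : 0 < Nat.card S := by
  haveI : Finite S := Finite.of_injective (fun s : S => s.1) Subtype.val_injective
  exact Nat.card_pos

theorem small (x : G) : ({y : G | ∃ g : G, g * x * g⁻¹ = y}.ncard) ^ 2 < Nat.card G :=
  (arith 5 _ _ (by norm_num) (class_le x) cardS cardS_pos).trans_eq cardG.symm

end Pool.Agent.Lib.H8.NVL
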