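import Pool.Agent.Lib.H8.Kc3

/-!
A universal test, real values of sequences and a random sequence approximable from below.
-/

namespace Pool.Agent.Lib.H8.Om

open MeasureTheory ENNReal Filter Topology Arith CList Qm Rnd Kc Classical

/-- Martin-Loef randomness. -/
def MLR (ω : ℕ → Bool) : Prop :=
  ∀ S : ℕ × List Bool → Prop, REPred S → (∀ n, mu {x | ∃ s, S (n, pr x s)} ≤ 2⁻¹ ^ n) →
    ∃ n, ∀ s, ¬ S (n, pr ω s)

/-- The real number with a given binary expansion. -/
noncomputable def val (ω : ℕ → Bool) : ℝ := ∑' i, if ω i then (2⁻¹ : ℝ) ^ (i + 1) else 0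

/-- The set of nonnegative rationals below the value is computably enumerable. -/
def LeftCE (ω : ℕ → Bool) : Prop := REPred fun q : ℕ × ℕ => (q.1 : ℝ) / (q.2 + 1) < val ω

section
variable {α : Type} [Primcodable α]

lemma re_sig {p : α → Prop} (hp : REPred p) : Sig 1 α p := by
  obtain ⟨c, hc⟩ := Nat.Partrec.Code.exists_code.1 hp
  refine (CeAlg.w_sig (Computable.const (Encodable.encode c)) Computable.encode).of_eq fun a => ?_
  simp [CeAlg.W, hc, Part.dom_iff_mem]

lemma sig_re {p : α → Prop} (hp : Sig 1 α p) : REPred p := by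
  obtain ⟨f, a, b, c⟩ := unif (R := fun q : α × ℕ => p q.1) (hp.comp Computable.fst)
  exact a.dom_re.of_eq fun x => Part.dom_iff_mem.trans ⟨fun ⟨y, k⟩ => b x y k, c x 0⟩

lemma pr_sur (ω : ℕ → Bool) (s : ℕ) : ∃ u < 2 ^ s, pr ω s = pr u.testBit s :=
  ⟨_, Nat.ofBits_lt_two_pow fun i : Fin s => ω i,
    pr_eq.2 fun i hi => by rw [Nat.testBit_ofBits_lt _ _ hi]⟩

lemma clop (R : List Bool → Prop) (s : ℕ) : IsOpen {ω | R (pr ω s)} := by
  have : Continuous fun (ω : ℕ → Bool) (i : Fin s) => ω i :=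
    continuous_pi fun i => continuous_apply _
  convert (isOpen_discrete {x : Fin s → Bool | R (List.ofFn x)}).preimage this using 1
  ext ω
  have : pr ω s = List.ofFn fun i : Fin s => ω i := List.ext_getElem (by simp) (by simp [pr])
  simp [this]

variable {P Q : α → Set (ℕ → Bool)}

lemma eo_open (h : EO P) (a : α) : IsOpen (P a) := by
  obtain ⟨E, -, e⟩ := h
  have : P a = ⋃ s, {ω | E (a, pr ω s)} := Set.ext fun ω => by simp [e]
  exact this ▸ isOpen_iUnion fun s => clop (fun σ => E (a, σ)) s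

lemma eo_union (h : EO P) (h' : EO Q) : EO fun a => P a ∪ Q a := by
  obtain ⟨E, a, c⟩ := h
  obtain ⟨E', a', c'⟩ := h'
  exact ⟨_, a.or a', fun x ω => by rw [Set.mem_union, c, c', exists_or]⟩

lemma eo_univ (h : EO P) : Sig 1 α fun a => ∀ ω, ω ∈ P a := by
  obtain ⟨E, a, b, c⟩ := h.nf
  have f := @Computable.fst
  have s := @Computable.snd
  have k : ComputablePred fun q : α × ℕ => ∀ u < 2 ^ q.2, E (q.1, pr u.testBit q.2) :=
    cball (pow_c.comp s) (cp a ((f.comp f).pair (bits_c s (s.comp f))))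
  refine (Sig.ex (CeAlg.cs k)).of_eq fun x => ⟨fun ⟨s, h⟩ ω => ?_, fun h => ?_⟩
  · obtain ⟨u, u1, u2⟩ := pr_sur ω s
    exact (c _ _).2 ⟨s, u2 ▸ h u u1⟩
  · obtain ⟨s, hs⟩ := isCompact_univ.elim_directed_cover (fun s => {ω | E (x, pr ω s)})
      (fun s => clop (fun σ => E (x, σ)) s) (fun ω _ => Set.mem_iUnion.2 ((c _ _).1 (h ω)))
      (Monotone.directed_le fun i j l ω => b x ω l)
    exact ⟨s, fun u _ => hs (Set.mem_univ _)⟩

lemma eo_trunc (h : EO P) {m : α → ℕ} (hm : Computable m) : ∃ Q : α → Set (ℕ → Bool), EO Q ∧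
    ∀ a, mu (Q a) ≤ 2⁻¹ ^ m a ∧ (mu (P a) ≤ 2⁻¹ ^ m a → P a ⊆ Q a) := by
  obtain ⟨E, a, b, c⟩ := h.nf
  have f := @Computable.fst
  have s := @Computable.snd
  have l : Computable fun q : α × List Bool => q.2.length := Computable.list_length.comp s
  have k : ComputablePred fun q : α × List Bool => 1 * 2 ^ q.2.length <
      ((List.range (2 ^ q.2.length)).filter fun u => E (q.1, pr u.testBit q.2.length)).length *
        2 ^ m q.1 :=
    clt (ml (Computable.const 1) (pow_c.comp l)) (ml (Computable.list_length.comp (cfilter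
      (p := fun (q : α × List Bool) (u : ℕ) => E (q.1, pr u.testBit q.2.length))
      (Primrec.list_range.to_comp.comp (pow_c.comp l))
      (cp a ((f.comp f).pair (bits_c s (l.comp f)))))) (pow_c.comp (hm.comp f)))
  refine ⟨fun x => ⋃ s : {s // mu {ω | E (x, pr ω s)} ≤ 2⁻¹ ^ m x}, {ω | E (x, pr ω s)},
    ⟨_, CeAlg.cs (cand a k.not), fun x ω => ?_⟩, fun x => ⟨?_, fun z ω w => ?_⟩⟩
  · simp only [Set.mem_iUnion, Set.mem_ofPred_eq, Subtype.exists, exists_prop, pr_len]
    refine exists_congr fun s => ?_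
    rw [← dy_lt, mu_clopen fun σ => E (x, σ), Nat.cast_one, one_mul, not_lt, and_comm]
  · exact (Directed.measure_iUnion (s := fun s : {s // mu {ω | E (x, pr ω s)} ≤ 2⁻¹ ^ m x} =>
      {ω | E (x, pr ω s)}) (Monotone.directed_le fun i j l ω => b x ω l)).trans_le
        (iSup_le fun s => s.2)
  · obtain ⟨s, hs⟩ := (c _ _).1 w
    exact Set.mem_iUnion.2 ⟨⟨s, (measure_mono fun ω k => (c _ _).2 ⟨s, k⟩).trans z⟩, hs⟩

end

/-- An effectively open set of small measure whose complement consists of random sequences. -/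
lemma univ_test : ∃ W : Set (ℕ → Bool), (EO fun _ : ℕ => W) ∧ mu W ≤ 2⁻¹ ∧ ∀ ω ∉ W, MLR ω := by
  obtain ⟨U, hU, hun⟩ := universal 0
  have c := ad (Computable.id (α := ℕ)) (Computable.const 2)
  have h : EO fun e : ℕ => {ω | ∃ s, U (e, Encodable.encode (e + 2, pr ω s))} :=
    ⟨_, hU.comp (Computable.fst.pair (Computable.encode.comp
      ((c.comp Computable.fst).pair Computable.snd))), fun _ _ => Iff.rfl⟩
  obtain ⟨Q, q1, q2⟩ := eo_trunc h c
  refine ⟨⋃ e, Q e, EO.iUnion (q1.comp Computable.snd), ?_, fun ω hω S hS hm => ?_⟩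
  · refine (measure_iUnion_le _).trans ((ENNReal.tsum_le_tsum fun e => (q2 e).1).trans ?_)
    simp only [id, pow_add, ENNReal.tsum_mul_right, ENNReal.tsum_geometric, one_sub_inv_two,
      inv_inv]
    rw [pow_two, ← mul_assoc, ENNReal.mul_inv_cancel (by simp) (by simp), one_mul]
  · obtain ⟨f, -, hf⟩ := hun ℕ (fun z => ∃ y : ℕ × List Bool, z.2 = Encodable.encode y ∧ S y)
      (sig_ex ((CeAlg.cs (ceq (Computable.snd.comp Computable.fst)
        (Computable.encode.comp Computable.snd))).and ((re_sig hS).comp Computable.snd)))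
    have e : ∀ y : ℕ × List Bool, U (f 0, Encodable.encode y) ↔ S y := fun y => by
      rw [← hf]
      simp only [Encodable.encode_inj, exists_eq_left']
    refine ⟨f 0 + 2, fun s k => hω (Set.mem_iUnion.2 ⟨f 0, (q2 _).2 ?_ ⟨s, (e _).2 k⟩⟩)⟩
    simp only [e]
    exact hm _

/-- The number with given binary digits, most significant digit first. -/
def num (l : List Bool) : ℕ := l.foldl (fun n b => 2 * n + b.toNat) 0

lemma pr_succ (ω : ℕ → Bool) (s : ℕ) : pr ω (s + 1) = pr ω s ++ [ω s] := by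
  simp [pr, List.range_succ]

lemma num_succ (ω : ℕ → Bool) (s : ℕ) : num (pr ω (s + 1)) = 2 * num (pr ω s) + (ω s).toNat := by
  simp [pr_succ, num]

lemma num_c : Computable num :=
  (Primrec.list_foldl Primrec.id (Primrec.const 0) (Primrec.nat_add.comp (Primrec.nat_mul.comp
    (Primrec.const 2) (Primrec.fst.comp Primrec.snd)) ((Primrec.dom_finite Bool.toNat).comp
      (Primrec.snd.comp Primrec.snd))).to₂).to_comp

lemma num_inj {a b : ℕ → Bool} : ∀ {s : ℕ}, num (pr a s) = num (pr b s) → pr a s = pr b s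
  | 0, _ => rfl
  | s + 1, h => by
    rw [num_succ, num_succ] at h
    have : a s = b s := by
      revert h
      cases a s <;> cases b s <;> simp <;> omega
    rw [this] at h
    rw [pr_succ, pr_succ, this, num_inj (by omega : num (pr a s) = num (pr b s))]

lemma num_div (a : ℕ → Bool) (m k : ℕ) : num (pr a (m + k)) / 2 ^ k = num (pr a m) := by
  induction k with
  | zero => simp
  | succ k ih =>
    rw [← add_assoc, num_succ, pow_succ', ← Nat.div_div_eq_div_mul, ← ih]
    congr 1
    have := (a (m + k)).toNat_le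
    omega

lemma val_sum (ω : ℕ → Bool) : Summable fun i => if ω i then (2⁻¹ : ℝ) ^ (i + 1) else 0 :=
  .of_nonneg_of_le (fun i => by split_ifs <;> positivity) (fun i => by
    split_ifs <;> [rfl; positivity]) ((summable_nat_add_iff 1).2
      (summable_geometric_of_lt_one (by norm_num) (by norm_num)))

lemma val_par (ω : ℕ → Bool) (s : ℕ) : ∑ i ∈ Finset.range s,
    (if ω i then (2⁻¹ : ℝ) ^ (i + 1) else 0) = num (pr ω s) / 2 ^ s := by
  induction s with
  | zero => simp [pr, num]
  | succ s ih =>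
    rw [Finset.sum_range_succ, ih, num_succ, inv_pow, pow_succ]
    cases ω s <;> simp <;> field_simp

lemma val_lim (ω : ℕ → Bool) :
    Tendsto (fun s => (num (pr ω s) / 2 ^ s : ℝ)) atTop (𝓝 (val ω)) := by
  simpa only [val_par, val] using (val_sum ω).hasSum.tendsto_sum_nat

lemma lt_val (ω : ℕ → Bool) (q : ℝ) : q < val ω ↔ ∃ s, q < num (pr ω s) / 2 ^ s :=
  ⟨fun h => ((val_lim ω).eventually (lt_mem_nhds h)).exists, fun ⟨s, h⟩ => h.trans_le (by
    rw [← val_par]
    exact (val_sum ω).sum_le_tsum _ fun i _ => by split_ifs <;> positivity)⟩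

lemma val_cont : Continuous val :=
  continuous_tsum (u := fun i => (2⁻¹ : ℝ) ^ (i + 1)) (fun i =>
    (continuous_of_discreteTopology (f := fun b : Bool => if b then (2⁻¹ : ℝ) ^ (i + 1) else 0)).comp
      (continuous_apply i)) ((summable_nat_add_iff 1).2
        (summable_geometric_of_lt_one (by norm_num) (by norm_num))) fun i ω => by
    split_ifs <;> simp

lemma val_eo : EO fun q : ℕ × ℕ => {ω | (q.1 : ℝ) / (q.2 + 1) < val ω} := by
  have f := @Computable.fst
  have s := @Computable.snd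
  refine ⟨fun z => z.1.1 * 2 ^ z.2.length < num z.2 * (z.1.2 + 1), CeAlg.cs (clt (ml (f.comp f)
    (pow_c.comp (Computable.list_length.comp s))) (ml (num_c.comp s)
      (Computable.succ.comp (s.comp f)))), fun q ω => ?_⟩
  rw [Set.mem_ofPred_eq, lt_val]
  refine exists_congr fun s => ?_
  rw [div_lt_div_iff₀ (by positivity) (by positivity)]
  simp only [pr_len]
  norm_cast

/-- A random sequence approximable from below. -/
lemma ex_omega : ∃ A, MLR A ∧ LeftCE A := by
  obtain ⟨W, w1, w2, w3⟩ := univ_test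
  obtain ⟨A, a1, a2⟩ := (eo_open w1 0).isClosed_compl.isCompact.exists_isMinOn
    (Set.nonempty_compl.2 fun e => by
      rw [e, measure_univ] at w2
      exact absurd w2 (by simp)) val_cont.continuousOn
  refine ⟨A, w3 A a1, sig_re ((eo_univ (eo_union (w1.comp (Computable.const 0)) val_eo)).of_eq
    fun q => ⟨fun h => (h A).resolve_left a1, fun h ω => or_iff_not_imp_left.2 fun k => ?_⟩)⟩
  exact h.trans_le (a2 k)

end Pool.Agent.Lib.H8.Om
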