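import Mathlib

/-! Parity obstruction for weighted Petersen graphs that are tight at every vertex. -/

set_option autoImplicit false

namespace Pool.Agent.Lib.H8.PetParity

theorem tight {m : ℕ} (s a b : Fin m → ℕ) (hs : ∀ j, s j ≤ 1)
    (he : ∀ j, (a j + b j + s j) % 2 = 0)
    (ht : ∑ j, s j = ∑ j, a j + ∑ j, b j) : ∀ j, s j = a j + b j := by
  have h1 : ∀ j ∈ (Finset.univ : Finset (Fin m)), s j ≤ a j + b j := by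
    intro j _
    have := hs j
    have := he j
    omega
  have h2 : ∑ j, s j = ∑ j, (a j + b j) := by rw [Finset.sum_add_distrib]; exact ht
  intro j
  exact (Finset.sum_eq_sum_iff_of_le h1).1 h2 j (Finset.mem_univ j)

theorem loc (o0 o1 o2 o3 o4 s0 s1 s2 s3 s4 i0 i1 i2 i3 i4 : ℕ)
    (b0 : s0 ≤ 1) (b1 : s1 ≤ 1) (b2 : s2 ≤ 1) (b3 : s3 ≤ 1) (b4 : s4 ≤ 1)
    (h0 : s0 = o0 + o4) (h1 : s1 = o1 + o0) (h2 : s2 = o2 + o1) (h3 : s3 = o3 + o2)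
    (h4 : s4 = o4 + o3)
    (k0 : s0 = i0 + i3) (k1 : s1 = i1 + i4) (k2 : s2 = i2 + i0) (k3 : s3 = i3 + i1)
    (k4 : s4 = i4 + i2) : (o0 + o1 + o2 + o3 + o4) % 2 = 0 := by
  have e0 : o0 = 0 ∨ o0 = 1 := by omega
  have e1 : o1 = 0 ∨ o1 = 1 := by omega
  have e2 : o2 = 0 ∨ o2 = 1 := by omega
  have e3 : o3 = 0 ∨ o3 = 1 := by omega
  have e4 : o4 = 0 ∨ o4 = 1 := by omega
  rcases e0 with e0 | e0 <;> rcases e1 with e1 | e1 <;> rcases e2 with e2 | e2 <;>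
    rcases e3 with e3 | e3 <;> rcases e4 with e4 | e4 <;> omega

/-- A family of even subgraphs of the Petersen graph (outer edges `o`, spokes `s`, inner edges `i`)
whose coverage is tight at all ten vertices covers the outer pentagon an even number of times. -/
theorem par {m : ℕ} (o0 o1 o2 o3 o4 s0 s1 s2 s3 s4 i0 i1 i2 i3 i4 : Fin m → ℕ)
    (b0 : ∀ j, s0 j ≤ 1) (b1 : ∀ j, s1 j ≤ 1) (b2 : ∀ j, s2 j ≤ 1) (b3 : ∀ j, s3 j ≤ 1)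
    (b4 : ∀ j, s4 j ≤ 1)
    (h0 : ∀ j, (o0 j + o4 j + s0 j) % 2 = 0) (h1 : ∀ j, (o1 j + o0 j + s1 j) % 2 = 0)
    (h2 : ∀ j, (o2 j + o1 j + s2 j) % 2 = 0) (h3 : ∀ j, (o3 j + o2 j + s3 j) % 2 = 0)
    (h4 : ∀ j, (o4 j + o3 j + s4 j) % 2 = 0)
    (k0 : ∀ j, (i0 j + i3 j + s0 j) % 2 = 0) (k1 : ∀ j, (i1 j + i4 j + s1 j) % 2 = 0)
    (k2 : ∀ j, (i2 j + i0 j + s2 j) % 2 = 0) (k3 : ∀ j, (i3 j + i1 j + s3 j) % 2 = 0)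
    (k4 : ∀ j, (i4 j + i2 j + s4 j) % 2 = 0)
    (t0 : ∑ j, s0 j = ∑ j, o0 j + ∑ j, o4 j) (t1 : ∑ j, s1 j = ∑ j, o1 j + ∑ j, o0 j)
    (t2 : ∑ j, s2 j = ∑ j, o2 j + ∑ j, o1 j) (t3 : ∑ j, s3 j = ∑ j, o3 j + ∑ j, o2 j)
    (t4 : ∑ j, s4 j = ∑ j, o4 j + ∑ j, o3 j)
    (u0 : ∑ j, s0 j = ∑ j, i0 j + ∑ j, i3 j) (u1 : ∑ j, s1 j = ∑ j, i1 j + ∑ j, i4 j)
    (u2 : ∑ j, s2 j = ∑ j, i2 j + ∑ j, i0 j) (u3 : ∑ j, s3 j = ∑ j, i3 j + ∑ j, i1 j)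
    (u4 : ∑ j, s4 j = ∑ j, i4 j + ∑ j, i2 j) :
    (∑ j, o0 j + ∑ j, o1 j + ∑ j, o2 j + ∑ j, o3 j + ∑ j, o4 j) % 2 = 0 := by
  have a0 := tight s0 o0 o4 b0 h0 t0
  have a1 := tight s1 o1 o0 b1 h1 t1
  have a2 := tight s2 o2 o1 b2 h2 t2
  have a3 := tight s3 o3 o2 b3 h3 t3
  have a4 := tight s4 o4 o3 b4 h4 t4
  have c0 := tight s0 i0 i3 b0 k0 u0
  have c1 := tight s1 i1 i4 b1 k1 u1
  have c2 := tight s2 i2 i0 b2 k2 u2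
  have c3 := tight s3 i3 i1 b3 k3 u3
  have c4 := tight s4 i4 i2 b4 k4 u4
  have key : ∀ j, 2 ∣ (o0 j + o1 j + o2 j + o3 j + o4 j) := by
    intro j
    have := loc (o0 j) (o1 j) (o2 j) (o3 j) (o4 j) (s0 j) (s1 j) (s2 j) (s3 j) (s4 j)
      (i0 j) (i1 j) (i2 j) (i3 j) (i4 j) (b0 j) (b1 j) (b2 j) (b3 j) (b4 j)
      (a0 j) (a1 j) (a2 j) (a3 j) (a4 j) (c0 j) (c1 j) (c2 j) (c3 j) (c4 j)
    omega
  have : 2 ∣ ∑ j, (o0 j + o1 j + o2 j + o3 j + o4 j) :=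
    Finset.dvd_sum (fun j _ => key j)
  simp only [Finset.sum_add_distrib] at this
  omega

/-- The Petersen graph minus the outer edge `o0`, covered with weight 1 on the pentagon edges and
2 on the spokes by subgraphs that are even at the eight vertices other than the ends of `o0`:
exactly three members are odd at the ends. -/
theorem gadget {m : ℕ} (o1 o2 o3 o4 s0 s1 s2 s3 s4 i0 i1 i2 i3 i4 : Fin m → ℕ)
    (b0 : ∀ j, s0 j ≤ 1) (b1 : ∀ j, s1 j ≤ 1) (b2 : ∀ j, s2 j ≤ 1) (b3 : ∀ j, s3 j ≤ 1)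
    (b4 : ∀ j, s4 j ≤ 1)
    (h2 : ∀ j, (o2 j + o1 j + s2 j) % 2 = 0) (h3 : ∀ j, (o3 j + o2 j + s3 j) % 2 = 0)
    (h4 : ∀ j, (o4 j + o3 j + s4 j) % 2 = 0)
    (k0 : ∀ j, (i0 j + i3 j + s0 j) % 2 = 0) (k1 : ∀ j, (i1 j + i4 j + s1 j) % 2 = 0)
    (k2 : ∀ j, (i2 j + i0 j + s2 j) % 2 = 0) (k3 : ∀ j, (i3 j + i1 j + s3 j) % 2 = 0)
    (k4 : ∀ j, (i4 j + i2 j + s4 j) % 2 = 0)
    (c1 : ∑ j, o1 j = 1) (c2 : ∑ j, o2 j = 1) (c3 : ∑ j, o3 j = 1) (c4 : ∑ j, o4 j = 1)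
    (e0 : ∑ j, s0 j = 2) (e1 : ∑ j, s1 j = 2) (e2 : ∑ j, s2 j = 2) (e3 : ∑ j, s3 j = 2)
    (e4 : ∑ j, s4 j = 2)
    (f0 : ∑ j, i0 j = 1) (f1 : ∑ j, i1 j = 1) (f2 : ∑ j, i2 j = 1) (f3 : ∑ j, i3 j = 1)
    (f4 : ∑ j, i4 j = 1) :
    (∀ j, (o1 j + s1 j) % 2 = (o4 j + s0 j) % 2) ∧ ∑ j, (o4 j + s0 j) % 2 = 3 := by
  have hp : ∀ j, (o1 j + s1 j) % 2 = (o4 j + s0 j) % 2 := by
    intro j
    have := h2 j; have := h3 j; have := h4 j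
    have := k0 j; have := k1 j; have := k2 j; have := k3 j; have := k4 j
    omega
  refine ⟨hp, ?_⟩
  have hsplit : ∑ j, (o4 j + s0 j) = ∑ j, ((o4 j + s0 j) % 2 + 2 * ((o4 j + s0 j) / 2)) :=
    Finset.sum_congr rfl (fun j _ => by omega)
  rw [Finset.sum_add_distrib, Finset.sum_add_distrib, ← Finset.mul_sum, c4, e0] at hsplit
  by_contra hne
  have h1 : ∑ j, (o4 j + s0 j) % 2 = 1 := by omega
  have := par (fun j => (o4 j + s0 j) % 2) o1 o2 o3 o4 s0 s1 s2 s3 s4 i0 i1 i2 i3 i4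
    b0 b1 b2 b3 b4 (fun j => by omega) (fun j => by have := hp j; omega) h2 h3 h4 k0 k1 k2 k3 k4
    (by omega) (by omega) (by omega) (by omega) (by omega)
    (by omega) (by omega) (by omega) (by omega) (by omega)
  omega

end Pool.Agent.Lib.H8.PetParity
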