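import Pool.Agent.Lib.H8.Low

/-!
Deterministic event machines with an oracle, and a game on pools of labels.
-/

namespace Pool.Agent.Lib.H8.Pl

open Arith CList Wei Qm Rnd Kc Om Gen Low Relation Classical

/-- Move along the first event. -/
def Nx {γ : Type} (E : γ → ℕ → Prop) (f : γ → ℕ → γ) (a b : γ) : Prop :=
  ∃ w, E a w ∧ (∀ v < w, ¬ E a v) ∧ b = f a w

lemma Nx.ru {γ : Type} {E : γ → ℕ → Prop} {f : γ → ℕ → γ} : Relator.RightUnique (Nx E f) := by
  rintro a _ _ ⟨v, p, q, rfl⟩ ⟨w, r, s, rfl⟩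
  rw [(not_lt.1 fun l => q _ l r).antisymm (not_lt.1 fun l => s _ l p)]

lemma reach {γ : Type} [Denumerable γ] {D : List ℕ × γ × ℕ → Prop} {g : γ → ℕ → γ}
    (hD : ComputablePred D) (hg : Computable₂ g) : Op fun p (z : γ × γ) =>
      ReflTransGen (Nx (fun a w => D (pre p w, a, w)) g) z.1 z.2 := by
  have f := @Computable.fst
  have s := @Computable.snd
  have t := Primrec.list_take (α := ℕ).to_comp
  let R : List ℕ × ℕ × γ → List ℕ × ℕ × γ → List ℕ × ℕ × γ → Prop := fun a _ b => b.1 = a.1 ∧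
    b.2.1 ≤ a.1.length ∧ D (a.1.take b.2.1, a.2.2, b.2.1) ∧
      (∀ v < b.2.1, ¬ D (a.1.take v, a.2.2, v)) ∧ b.2.2 = g a.2.2 b.2.1
  have l : Computable fun q : (List ℕ × ℕ × γ) × (List ℕ × ℕ × γ) × List ℕ × ℕ × γ => q.1.1 :=
    f.comp f
  have a : Computable fun q : (List ℕ × ℕ × γ) × (List ℕ × ℕ × γ) × List ℕ × ℕ × γ => q.1.2.2 :=
    s.comp (s.comp f)
  have w : Computable fun q : (List ℕ × ℕ × γ) × (List ℕ × ℕ × γ) × List ℕ × ℕ × γ => q.2.2.2.1 :=
    f.comp (s.comp (s.comp s))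
  have d : ComputablePred fun q : ((List ℕ × ℕ × γ) × (List ℕ × ℕ × γ) × List ℕ × ℕ × γ) × ℕ =>
      ¬ D (q.1.1.1.take q.2, q.1.1.2.2, q.2) :=
    (cp hD ((t.comp s (l.comp f)).pair ((a.comp f).pair s))).not
  have r : ComputablePred fun q : (List ℕ × ℕ × γ) × (List ℕ × ℕ × γ) × List ℕ × ℕ × γ =>
      R q.1 q.2.1 q.2.2 := cand (ceq (f.comp (s.comp s)) l) (cand (cle w
        (Computable.list_length.comp l)) (cand (cp hD ((t.comp w l).pair (a.pair w)))
          (cand (cball w d) (ceq (s.comp (s.comp (s.comp s))) (hg.comp a w)))))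
  have c := CeAlg.cl_sig (Ax := fun (b : List ℕ × γ) (c : List ℕ × ℕ × γ) => c.1 = b.1 ∧ c.2.2 = b.2)
    (CeAlg.cs (cand (ceq (f.comp s) (f.comp f)) (ceq (s.comp (s.comp s)) (s.comp f)))) r
  have c : Sig 1 _ fun q : (List ℕ × γ × γ) × ℕ => CeAlg.Cl (fun c : List ℕ × ℕ × γ =>
      c.1 = q.1.1 ∧ c.2.2 = q.1.2.1) R (q.1.1, q.2, q.1.2.2) :=
    c.comp (((f.comp f).pair (f.comp (s.comp f))).pair
      ((f.comp f).pair (s.pair (s.comp (s.comp f)))))
  refine Op.mk' c.ex fun p ⟨a, b⟩ => ⟨fun h => ?_, ?_⟩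
  · dsimp only at h ⊢
    suffices ∃ j, ∀ k ≥ j, ∃ w, CeAlg.Cl (fun c : List ℕ × ℕ × γ => c.1 = pre p k ∧ c.2.2 = a) R
      (pre p k, w, b) from this.imp fun j h => h j le_rfl
    induction h with
    | refl => exact ⟨0, fun k _ => ⟨0, .ax ⟨rfl, rfl⟩⟩⟩
    | tail _ h ih =>
      obtain ⟨j, ih⟩ := ih
      obtain ⟨w, u, v, rfl⟩ := h
      refine ⟨j + w, fun k e => (ih k (by omega)).elim fun _ c => ⟨w, .st c c ⟨rfl, ?_, ?_,
        fun x y => ?_, rfl⟩⟩⟩ <;> dsimp only at *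
      · simp; omega
      · rwa [pre_take p (by omega)]
      · rw [pre_take p (by omega)]; exact v x y
  · rintro ⟨k, w, h⟩
    dsimp only at h ⊢
    generalize e : (pre p k, w, b) = z at h
    obtain rfl : b = z.2.2 := by rw [← e]
    suffices z.1 = pre p k ∧ _ from this.2
    clear e
    induction h with
    | ax h => exact ⟨h.1, h.2 ▸ .refl⟩
    | st _ _ r i _ =>
      obtain ⟨r1, r2, r3, r4, r5⟩ := r
      rw [i.1] at r1 r2 r3 r4
      rw [pre_len] at r2
      rw [pre_take p r2] at r3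
      refine ⟨r1, i.2.tail ⟨_, r3, fun v u => ?_, r5⟩⟩
      have := r4 v u
      rwa [pre_take p (u.le.trans r2)] at this

/-- A position: bound, revealed moves, copied moves, pool. -/
abbrev Nd := ℕ × List ℕ × List ℕ × List ℕ

/-- The size of the next pools. -/
def sz (a : Nd) : ℕ := a.2.2.2.length / (2 * a.1 + 1)

/-- The part of the pool reserved for a revealed move. -/
def ck (a : Nd) (m : ℕ) : List ℕ := (a.2.2.2.drop (m * sz a)).take (sz a)

/-- The waiting part of the pool. -/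
def st (a : Nd) : List ℕ := a.2.2.2.drop (a.1 * sz a)

variable (T : ℕ × ℕ × ℕ × ℕ → Prop)

/-- The waiting labels that have shown a move. -/
noncomputable def sh (a : Nd) (w : ℕ) : List ℕ :=
  (st a).filter fun x => ∃ t < w, T (a.1, x, w.unpair.1, t)

/-- Many waiting labels have shown the same new move. -/
def bb (a : Nd) (w : ℕ) : Prop :=
  ¬ w.unpair.2 % 2 = 1 ∧ 0 < w ∧ w.unpair.1 < a.1 ∧ w.unpair.1 ∉ a.2.2.1 ∧ sz a ≤ (sh T a w).length

/-- The next position. -/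
noncomputable def nx (a : Nd) (w : ℕ) : Nd :=
  if w.unpair.2 % 2 = 1 then (a.1, w.unpair.1 :: a.2.1, a.2.2.1, ck a w.unpair.1)
  else (a.1, a.2.1, w.unpair.1 :: a.2.2.1, (sh T a w).take (sz a))

/-- Events seen with the oracle. -/
def EV (S : ℕ → ℕ → Prop) (a : Nd) (w : ℕ) : Prop :=
  (w.unpair.2 % 2 = 1 ∧ w.unpair.1 < a.1 ∧ w.unpair.1 ∉ a.2.1 ∧ S w.unpair.1 w) ∨ bb T a w

/-- Events seen with a label. -/
def EX (x : ℕ) (a : Nd) (w : ℕ) : Prop :=
  (w.unpair.2 % 2 = 1 ∧ w.unpair.1 < a.1 ∧ x ∈ ck a w.unpair.1) ∨ (x ∈ st a ∧ bb T a w)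

/-- The initial position. -/
def rt (u : ℕ) : Nd := (u, [], [], List.range ((2 * u + 1) ^ (2 * u + 1)))

/-- The invariant. -/
def Iv (S : ℕ → ℕ → Prop) (u : ℕ) (a : Nd) : Prop :=
  a.1 = u ∧ a.2.1.Nodup ∧ a.2.2.1.Nodup ∧ a.2.2.2.Nodup ∧ (∀ m ∈ a.2.1, m < u ∧ ∃ w, S m w) ∧
    (∀ m ∈ a.2.2.1, m < u ∧ ∀ x ∈ a.2.2.2, ∃ t, T (u, x, m, t)) ∧
    a.2.2.2.length = (2 * u + 1) ^ (2 * u + 1 - a.2.1.length - a.2.2.1.length)

variable {T} {S : ℕ → ℕ → Prop} {u : ℕ} {a : Nd}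

lemma len_le {l : List ℕ} (h : l.Nodup) (k : ∀ m ∈ l, m < u) : l.length ≤ u := by
  simpa using (List.subperm_of_subset h fun m e => List.mem_range.2 (k m e)).length_le

lemma Iv.len (h : Iv T S u a) : a.2.1.length ≤ u ∧ a.2.2.1.length ≤ u ∧
    sz a = (2 * u + 1) ^ (2 * u - a.2.1.length - a.2.2.1.length) ∧
    a.2.2.2.length = (2 * u + 1) * sz a := by
  obtain ⟨rfl, b, c, -, d, e, f⟩ := h
  have b := len_le b fun m k => (d m k).1
  have c := len_le c fun m k => (e m k).1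
  rw [show 2 * a.1 + 1 - a.2.1.length - a.2.2.1.length =
    (2 * a.1 - a.2.1.length - a.2.2.1.length) + 1 by omega, pow_succ'] at f
  have : sz a = (2 * a.1 + 1) ^ (2 * a.1 - a.2.1.length - a.2.2.1.length) := by
    rw [sz, f, Nat.mul_div_cancel_left _ (by omega)]
  exact ⟨b, c, this, this ▸ f⟩

lemma ck_sub (m : ℕ) : (ck a m).Sublist a.2.2.2 :=
  (List.take_sublist _ _).trans (List.drop_sublist _ _)

lemma sh_sub (w : ℕ) : (sh T a w).Sublist (st a) := List.filter_sublist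

lemma ck_dis (h : a.2.2.2.Nodup) {x m k : ℕ} (l : m < k) (p : x ∈ ck a m)
    (q : x ∈ a.2.2.2.drop (k * sz a)) : False := by
  rw [ck, List.take_drop] at p
  exact List.disjoint_take_drop h (by nlinarith) (List.mem_of_mem_drop p) q

lemma nx_sub (w : ℕ) : (nx T a w).2.2.2 ⊆ a.2.2.2 ∧ a.2.1 ⊆ (nx T a w).2.1 ∧
    a.2.2.1 ⊆ (nx T a w).2.2.1 ∧
    (nx T a w).2.1.length + (nx T a w).2.2.1.length = a.2.1.length + a.2.2.1.length + 1 := by
  unfold nx
  split_ifs
  · exact ⟨(ck_sub _).subset, by simp, by simp, by simp; omega⟩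
  · exact ⟨(((List.take_sublist _ _).trans (sh_sub w)).trans (List.drop_sublist _ _)).subset,
      by simp, by simp, by simp; omega⟩

lemma Iv.step (h : Iv T S u a) {w : ℕ} (e : EV T S a w) : Iv T S u (nx T a w) := by
  obtain ⟨l1, l2, l3, l4⟩ := h.len
  have sb := (nx_sub (T := T) (a := a) w).1
  obtain ⟨rfl, b, c, d, f, g, -⟩ := h
  unfold nx at sb ⊢
  rcases e with ⟨e, e1, e2, e3⟩ | ⟨e, -, e1, e2, e3⟩
  · rw [if_pos e] at sb ⊢
    refine ⟨rfl, List.nodup_cons.2 ⟨e2, b⟩, c, d.sublist (ck_sub _),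
      List.forall_mem_cons.2 ⟨⟨e1, _, e3⟩, f⟩, fun m k => ⟨(g m k).1, fun x y => (g m k).2 x (sb y)⟩,
      ?_⟩
    simp only [ck, List.length_take, List.length_drop, List.length_cons, l4]
    rw [min_eq_left (by rw [← Nat.sub_mul]; exact Nat.le_mul_of_pos_left _ (by omega)), l3]
    congr 1; omega
  · rw [if_neg e] at sb ⊢
    refine ⟨rfl, b, List.nodup_cons.2 ⟨e2, c⟩, d.sublist (((List.take_sublist _ _).trans
      (sh_sub w)).trans (List.drop_sublist _ _)), f, List.forall_mem_cons.2 ⟨⟨e1, fun x y => ?_⟩,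
        fun m k => ⟨(g m k).1, fun x y => (g m k).2 x (sb y)⟩⟩, ?_⟩
    · have := (List.mem_filter.1 (List.mem_of_mem_take y)).2
      simp only [decide_eq_true_eq] at this
      exact this.imp fun _ k => k.2
    · simp only [List.length_take, List.length_cons]
      rw [min_eq_left e3, l3]
      congr 1; omega

lemma Iv.reach {b : Nd} (h : Iv T S u a) (r : ReflTransGen (Nx (EV T S) (nx T)) a b) :
    Iv T S u b := by
  induction r with
  | refl => exact h
  | tail _ k i => obtain ⟨w, e, -, rfl⟩ := k; exact i.step e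

lemma Iv.rt : Iv T S u (rt u) := by simp [Iv, Pl.rt, List.nodup_range]

lemma first {γ : Type} {E : γ → ℕ → Prop} (f : γ → ℕ → γ) {a : γ} (h : ∃ w, E a w) :
    ∃ w, E a w ∧ Nx E f a (f a w) :=
  ⟨_, Nat.find_spec h, _, Nat.find_spec h, fun _ => Nat.find_min h, rfl⟩

lemma Iv.fin (h : Iv T S u a) :
    ∃ b, ReflTransGen (Nx (EV T S) (nx T)) a b ∧ ∀ w, ¬ EV T S b w := by
  generalize e : 2 * u - (a.2.1.length + a.2.2.1.length) = k
  induction k using Nat.strong_induction_on generalizing a with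
  | _ k i =>
    by_cases q : ∃ w, EV T S a w
    · obtain ⟨w, p, q⟩ := first (nx T) q
      have := (h.step p).len
      have := (nx_sub (T := T) (a := a) w).2.2.2
      obtain ⟨b, r, s⟩ := i _ (by omega) (h.step p) rfl
      exact ⟨b, .head q r, s⟩
    · exact ⟨a, .refl, not_exists.1 q⟩

lemma Iv.lab {b : Nd} (h : Iv T S u a) (r : ReflTransGen (Nx (EV T S) (nx T)) a b) {x : ℕ}
    (hx : x ∈ b.2.2.2) : ReflTransGen (Nx (EX T x) (nx T)) a b := by
  induction r with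
  | refl => exact .refl
  | @tail b _ r k i =>
    obtain ⟨w, e, m, rfl⟩ := k
    have d := (h.reach r).2.2.2.1
    refine (i ((nx_sub w).1 hx)).tail ?_
    rcases e with ⟨e, e1, -⟩ | e
    · rw [nx, if_pos e] at hx
      obtain ⟨v, p, q⟩ := first (E := EX T x) (nx T) ⟨w, .inl ⟨e, e1, hx⟩⟩
      rcases p with ⟨p, -, p2⟩ | ⟨p, -⟩
      · have : v.unpair.1 = w.unpair.1 := by
          by_contra n
          rcases lt_or_gt_of_ne n with n | n
          exacts [ck_dis d n p2 (List.mem_of_mem_take hx), ck_dis d n hx (List.mem_of_mem_take p2)]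
        rwa [nx, if_pos p, this, ← if_pos (c := w.unpair.2 % 2 = 1) e (t := (_, _))] at q
      · exact (ck_dis d e1 hx p).elim
    · rw [nx, if_neg e.1] at hx
      have hx := (sh_sub w).subset (List.mem_of_mem_take hx)
      exact ⟨w, .inr ⟨hx, e⟩, fun v l p => p.elim (fun p => ck_dis d p.2.1 p.2.2 hx)
        fun p => m v l (.inr p.2), rfl⟩

lemma ends {E : Nd → ℕ → Prop} {b c : Nd} (r : ReflTransGen (Nx E (nx T)) a b) (n : ∀ w, ¬ E b w)
    (s : ReflTransGen (Nx E (nx T)) a c) : c.2.1 ⊆ b.2.1 ∧ c.2.2.1 ⊆ b.2.2.1 := by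
  rcases ReflTransGen.total_of_right_unique Nx.ru r s with k | k
  · rcases k.cases_head with rfl | ⟨_, ⟨w, e, -⟩, -⟩
    exacts [⟨fun _ k => k, fun _ k => k⟩, (n w e).elim]
  · clear r s n
    induction k with
    | refl => exact ⟨fun _ k => k, fun _ k => k⟩
    | tail _ k i =>
      obtain ⟨w, -, -, rfl⟩ := k
      exact ⟨fun _ k => (nx_sub w).2.1 (i.1 k), fun _ k => (nx_sub w).2.2.1 (i.2 k)⟩

theorem game (mono : ∀ m v w, v ≤ w → S m v → S m w) (u : ℕ) : ∃ x,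
    (∀ m, (∃ c, ReflTransGen (Nx (EX T x) (nx T)) (rt u) c ∧ m ∈ c.2.1) ↔ m < u ∧ ∃ w, S m w) ∧
    ∀ m, (∃ c, ReflTransGen (Nx (EV T S) (nx T)) (rt u) c ∧ m ∈ c.2.2.1) ↔
      m < u ∧ ∃ t, T (u, x, m, t) := by
  obtain ⟨a, r, n⟩ := (Iv.rt (T := T) (S := S) (u := u)).fin
  have h := Iv.rt.reach r
  obtain ⟨-, -, l3, l4⟩ := h.len
  obtain ⟨e, -, -, d, f, g, -⟩ := h
  obtain ⟨x, p, q⟩ : ∃ x ∈ st a, ∀ m < u, (∃ t, T (u, x, m, t)) → m ∈ a.2.2.1 := by
    by_contra k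
    push Not at k
    choose! y y1 y2 y3 using k
    choose! t y2 using y2
    have z : 0 < sz a := l3 ▸ by positivity
    obtain ⟨m, m1, m2⟩ := Finset.exists_lt_card_fiber_of_mul_lt_card_of_maps_to
      (s := (st a).toFinset) (t := Finset.range u) (f := y) (n := sz a)
      (fun x k => Finset.mem_range.2 (y1 x (List.mem_toFinset.1 k))) (by
        rw [st, List.toFinset_card_of_nodup (d.sublist (List.drop_sublist _ _)), List.length_drop, l4,
          e, Finset.card_range, ← Nat.sub_mul]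
        exact Nat.mul_lt_mul_of_pos_right (by omega) z)
    obtain ⟨x, x1⟩ := Finset.card_pos.1 (z.trans m2)
    simp only [Finset.mem_filter, List.mem_toFinset] at x1
    have w := Nat.right_le_pair m (2 * ((st a).toFinset.sup t + 1))
    refine n (Nat.pair m (2 * ((st a).toFinset.sup t + 1))) (.inr ⟨by simp, by omega,
      by simpa [e] using m1, by simpa [← x1.2] using y3 x x1.1,
      m2.le.trans (le_trans (Finset.card_le_card fun x k => ?_) (List.toFinset_card_le _))⟩)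
    simp only [Finset.mem_filter, List.mem_toFinset, sh, List.mem_filter, decide_eq_true_eq,
      Nat.unpair_pair] at k ⊢
    have := Finset.le_sup (f := t) (List.mem_toFinset.2 k.1)
    exact ⟨k.1, t x, by omega, e ▸ k.2 ▸ y2 x k.1⟩
  have p' : x ∈ a.2.2.2 := List.mem_of_mem_drop p
  have s := Iv.rt.lab r p'
  refine ⟨x, fun m => ⟨fun ⟨c, c1, c2⟩ => f m ((ends s (fun w k => k.elim
    (fun k => ck_dis d k.2.1 k.2.2 p) fun k => n w (.inr k.2)) c1).1 c2), fun ⟨k, w, l⟩ => ⟨a, s, ?_⟩⟩,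
    fun m => ⟨fun ⟨c, c1, c2⟩ => (g m ((ends r n c1).2 c2)).imp_right (· x p'),
      fun k => ⟨a, r, q m k.1 k.2⟩⟩⟩
  by_contra o
  have := Nat.right_le_pair m (2 * w + 1)
  exact n (Nat.pair m (2 * w + 1)) (.inl (by
    simp only [Nat.unpair_pair]; exact ⟨by omega, e ▸ k, o, mono m w _ (by omega) l⟩))

end Pool.Agent.Lib.H8.Pl
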