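import Pool.Agent.Lib.H8.Pool1

/-!
The pool game is effective; enumeration operators and relative computability.
-/

namespace Pool.Agent.Lib.H8.Pl

open Arith CList Wei Qm Rnd Kc Om Gen Low Relation Classical

section
variable {α : Type} [Primcodable α] {a : α → Nd} {w : α → ℕ} {T : ℕ × ℕ × ℕ × ℕ → Prop}

lemma pl_c (ha : Computable a) : Computable fun z => (a z).2.2.2 :=
  Computable.snd.comp (Computable.snd.comp (Computable.snd.comp ha))

lemma sz_c (ha : Computable a) : Computable fun z => sz (a z) :=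
  Primrec.nat_div.to_comp.comp (Computable.list_length.comp (pl_c ha))
    (Computable.succ.comp (dbl_c.comp (Computable.fst.comp ha)))

lemma ck_c (ha : Computable a) (hw : Computable w) : Computable fun z => ck (a z) (w z) :=
  Primrec.list_take.to_comp.comp (sz_c ha)
    (Primrec.list_drop.to_comp.comp (ml hw (sz_c ha)) (pl_c ha))

lemma st_c (ha : Computable a) : Computable fun z => st (a z) :=
  Primrec.list_drop.to_comp.comp (ml (Computable.fst.comp ha) (sz_c ha)) (pl_c ha)

lemma sh_c (hT : ComputablePred T) (ha : Computable a) (hw : Computable w) :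
    Computable fun z => sh T (a z) (w z) := by
  have f : Computable fun q : (α × ℕ) × ℕ => q.1.1 := Computable.fst.comp Computable.fst
  have c : ComputablePred fun q : (α × ℕ) × ℕ => T ((a q.1.1).1, q.1.2, (w q.1.1).unpair.1, q.2) :=
    cp hT ((Computable.fst.comp (ha.comp f)).pair ((Computable.snd.comp Computable.fst).pair
      ((u1.comp (hw.comp f)).pair Computable.snd)))
  exact cfilter (p := fun z x => ∃ t < w z, T ((a z).1, x, (w z).unpair.1, t)) (st_c ha)
    (cbex (hw.comp Computable.fst) c)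

lemma od_c (hw : Computable w) : ComputablePred fun z => (w z).unpair.2 % 2 = 1 :=
  ceq (md (u2.comp hw) 2) (Computable.const 1)

lemma bb_c (hT : ComputablePred T) (ha : Computable a) (hw : Computable w) :
    ComputablePred fun z => bb T (a z) (w z) :=
  cand (od_c hw).not (cand (clt (Computable.const 0) hw) (cand (clt (u1.comp hw)
    (Computable.fst.comp ha)) (cand (cmem (Computable.fst.comp (Computable.snd.comp
      (Computable.snd.comp ha))) (u1.comp hw)).not
        (cle (sz_c ha) (Computable.list_length.comp (sh_c hT ha hw))))))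

lemma nx_c (hT : ComputablePred T) : Computable₂ (nx T) := by
  have a := Computable.fst (α := Nd) (β := ℕ)
  have w := Computable.snd (α := Nd) (β := ℕ)
  have u := Computable.fst.comp a
  have b := Computable.fst.comp (Computable.snd.comp a)
  have c := Computable.fst.comp (Computable.snd.comp (Computable.snd.comp a))
  exact cite (od_c w) (u.pair ((Computable.list_cons.comp (u1.comp w) b).pair
    (c.pair (ck_c a (u1.comp w))))) (u.pair (b.pair ((Computable.list_cons.comp (u1.comp w) c).pair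
      (Primrec.list_take.to_comp.comp (sz_c a) (sh_c hT a w)))))

lemma rt_c : Computable rt :=
  Computable.id.pair ((Computable.const []).pair ((Computable.const []).pair
    (Primrec.list_range.to_comp.comp ((Primrec₂.unpaired'.1 Nat.Primrec.pow).to_comp.comp
      (Computable.succ.comp dbl_c) (Computable.succ.comp dbl_c)))))

end

/-- An operator with an oracle and a c.e. family can be made to copy each other. -/
theorem sim {R : ℕ × ℕ × ℕ → Prop} (hR : Sig 1 _ R) {G : (ℕ → ℕ) → ℕ → Prop} (hG : Op G) :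
    ∃ (A : ℕ × ℕ × ℕ → Prop) (B : (ℕ → ℕ) → ℕ × ℕ → Prop), Sig 1 _ A ∧ Op B ∧ ∀ X u, ∃ x,
      (∀ m, A (u, x, m) ↔ m < u ∧ G X m) ∧ ∀ m, B X (u, m) ↔ m < u ∧ R (u, x, m) := by
  have f := @Computable.fst
  have s := @Computable.snd
  obtain ⟨T', t, eT⟩ := sig_nf hR
  obtain ⟨T, hT, eT⟩ : ∃ T : ℕ × ℕ × ℕ × ℕ → Prop, ComputablePred T ∧
      ∀ u x m, R (u, x, m) ↔ ∃ t, T (u, x, m, t) :=
    ⟨fun z => T' ((z.1, z.2.1, z.2.2.1), z.2.2.2), cp t ((f.pair ((f.comp s).pair
      (f.comp (s.comp s)))).pair (s.comp (s.comp s))), fun _ _ _ => eT _⟩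
  obtain ⟨E, e, -, eE⟩ := hG
  obtain ⟨B, b, eB⟩ := sig_nf e
  have l : Computable fun z : List ℕ × Nd × ℕ => z.1 := f
  have a : Computable fun z : List ℕ × Nd × ℕ => z.2.1 := f.comp s
  have w : Computable fun z : List ℕ × Nd × ℕ => z.2.2 := s.comp s
  have m := clt (u1.comp w) (f.comp a)
  have b1 : ComputablePred fun q : ((List ℕ × Nd × ℕ) × ℕ) × ℕ =>
      B ((q.1.1.1.take q.1.2, q.1.1.2.2.unpair.1), q.2) :=
    cp b (((Primrec.list_take.to_comp.comp (s.comp f) (l.comp (f.comp f))).pair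
      (u1.comp (w.comp (f.comp f)))).pair s)
  have b2 : ComputablePred fun q : (List ℕ × Nd × ℕ) × ℕ =>
      ∃ t < q.1.2.2, B ((q.1.1.take q.2, q.1.2.2.unpair.1), t) := cbex (w.comp f) b1
  have v : ComputablePred fun z : List ℕ × Nd × ℕ =>
      EV T (fun m w => ∃ k < w, ∃ t < w, B ((z.1.take k, m), t)) z.2.1 z.2.2 :=
    cor (cand (od_c w) (cand m (cand (cmem (f.comp (s.comp a)) (u1.comp w)).not (cbex w b2))))
      (bb_c hT a w)
  have h : Computable fun z : List ℕ × Nd × ℕ => z.1.getD 0 0 :=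
    (Primrec.list_getD 0).to_comp.comp l (Computable.const 0)
  have x : ComputablePred fun z : List ℕ × Nd × ℕ => EX T (z.1.getD 0 0) z.2.1 z.2.2 :=
    cor (cand (od_c w) (cand m (cmem (ck_c a (u1.comp w)) h)))
      (cand (cmem (st_c a) h) (bb_c hT a w))
  obtain ⟨F, i, -, j⟩ := reach x (nx_c hT)
  have c : Computable fun q : (((ℕ × ℕ × ℕ) × Nd) × ℕ) =>
      (pre (fun _ => q.1.1.2.1) q.2, rt q.1.1.1, q.1.2) :=
    (cpre s (f.comp (s.comp (f.comp (f.comp f)))).to₂).pair
      ((rt_c.comp (f.comp (f.comp f))).pair (s.comp f))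
  have c : Sig 1 _ fun q : (ℕ × ℕ × ℕ) × Nd =>
      (∃ k, F (pre (fun _ => q.1.2.1) k, rt q.1.1, q.2)) ∧ q.1.2.2 ∈ q.2.2.1 :=
    (i.comp c).ex.and (CeAlg.cs (cmem (f.comp (s.comp s)) (s.comp (s.comp f))))
  have d : Computable fun q : (ℕ × ℕ) × Nd => (rt q.1.1, q.2) := (rt_c.comp (f.comp f)).pair s
  have d := (((reach v (nx_c hT)).comp d).and (Op.cp (A := fun q : (ℕ × ℕ) × Nd => q.1.2 ∈ q.2.2.2.1)
    (cmem (f.comp (s.comp (s.comp s))) (s.comp f)))).exd
  refine ⟨_, _, c.exd, d, fun X u => ?_⟩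
  obtain ⟨y, y1, y2⟩ := game (T := T) (S := fun m w => ∃ k < w, ∃ t < w, B ((pre X k, m), t))
    (fun m v w l ⟨k, k1, t, t1, z⟩ => ⟨k, by omega, t, by omega, z⟩) u
  have e1 : (fun a w => EX T ((pre (fun _ => y) w).getD 0 0) a w) = EX T y := by
    funext a w
    rcases w with _ | w
    · simp [EX, bb]
    · rw [pre_get _ (by omega)]
  have e2 : (fun a w => EV T (fun m v => ∃ k < v, ∃ t < v, B (((pre X w).take k, m), t)) a w) =
      EV T fun m w => ∃ k < w, ∃ t < w, B ((pre X k, m), t) := by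
    funext a w
    exact propext (or_congr_left (and_congr_right fun _ => and_congr_right fun _ =>
      and_congr_right fun _ => exists_congr fun k => and_congr_right fun l => by
        rw [pre_take X l.le]))
  refine ⟨y, fun m => ?_, fun m => ?_⟩
  · simp only [← j, e1, y1, eE, eB]
    exact and_congr_right fun _ => ⟨fun ⟨_, k, _, t, _, z⟩ => ⟨k, t, z⟩,
      fun ⟨k, t, z⟩ => ⟨k + t + 1, k, by omega, t, by omega, z⟩⟩
  · simp only [e2, y2, eT]

/-- A function recursive in an oracle has a graph enumerated from the oracle. -/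
theorem op_of_rec {X : ℕ → ℕ} {g : ℕ →. ℕ} (h : Nat.RecursiveIn {fun n => Part.some (X n)} g) :
    ∃ G : (ℕ → ℕ) → ℕ × ℕ → Prop, Op G ∧ ∀ n y, G X (n, y) ↔ y ∈ g n := by
  have f := @Computable.fst
  have s := @Computable.snd
  have pc := Primrec₂.natPair.to_comp
  have gd := (Primrec.list_getD (0 : ℕ)).to_comp
  induction h with
  | zero => exact ⟨_, Op.cp (ceq s (Computable.const 0)), fun _ _ => Part.mem_some_iff.symm⟩
  | succ => exact ⟨_, Op.cp (ceq s (Computable.succ.comp f)), by simp⟩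
  | left => exact ⟨_, Op.cp (ceq s (u1.comp f)), by simp⟩
  | right => exact ⟨_, Op.cp (ceq s (u2.comp f)), by simp⟩
  | oracle g k => exact ⟨_, Op.val f s, by simp [Set.mem_singleton_iff.1 k]⟩
  | pair _ _ i j =>
    obtain ⟨G, a, b⟩ := i
    obtain ⟨H, c, d⟩ := j
    refine ⟨_, (a.comp (α := ℕ × ℕ) (f.pair (u1.comp s))).and (c.comp (f.pair (u2.comp s))),
      fun n y => ?_⟩
    simp only [b, d, Seq.seq, Part.map_eq_map, Part.mem_bind_iff, Part.mem_map_iff]
    exact ⟨fun k => ⟨_, ⟨_, k.1, rfl⟩, _, k.2, Nat.pair_unpair y⟩, by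
      rintro ⟨_, ⟨u, k, rfl⟩, v, l, rfl⟩; simp [k, l]⟩
  | comp _ _ i j =>
    obtain ⟨G, a, b⟩ := i
    obtain ⟨H, c, d⟩ := j
    exact ⟨_, ((c.comp (α := (ℕ × ℕ) × ℕ) ((f.comp f).pair s)).and
      (a.comp (s.pair (s.comp f)))).exd, fun _ _ => by
        simp only [b, d]; exact Part.mem_bind_iff.symm⟩
  | @prec g h _ _ i j =>
    obtain ⟨G, a, b⟩ := i
    obtain ⟨H, c, d⟩ := j
    have c1 : Computable fun q : ((ℕ × ℕ) × List ℕ) × ℕ =>
        (Nat.pair q.1.1.1.unpair.1 (Nat.pair q.2 (q.1.2.getD q.2 0)), q.1.2.getD (q.2 + 1) 0) :=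
      (pc.comp (u1.comp (f.comp (f.comp f))) (pc.comp s (gd.comp (s.comp f) s))).pair
        (gd.comp (s.comp f) (Computable.succ.comp s))
    have c2 : Computable fun q : (ℕ × ℕ) × List ℕ => (q.1.1.unpair.1, q.2.getD 0 0) :=
      (u1.comp (f.comp f)).pair (gd.comp s (Computable.const 0))
    have c3 : ComputablePred fun q : (ℕ × ℕ) × List ℕ => q.1.2 = q.2.getD q.1.1.unpair.2 0 :=
      ceq (s.comp f) (gd.comp s (u2.comp (f.comp f)))
    refine ⟨_, ((a.comp c2).and (((c.comp c1).ball (u2.comp (f.comp f))).and (Op.cp c3))).exd,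
      fun n y => ?_⟩
    simp only [b, d]
    generalize n.unpair.1 = u, n.unpair.2 = k
    constructor
    · rintro ⟨l, p, q, rfl⟩
      induction k with
      | zero => exact p
      | succ k i => exact Part.mem_bind (i fun j e => q j (by omega)) (q k (by omega))
    · intro p
      suffices ∃ r : ℕ → ℕ, r 0 ∈ g u ∧ (∀ i < k, r (i + 1) ∈ h (Nat.pair u (Nat.pair i (r i)))) ∧
          y = r k by
        obtain ⟨r, r1, r2, r3⟩ := this
        exact ⟨pre r (k + 1), by rwa [pre_get r (by omega)], fun i e => by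
          rw [pre_get r (by omega), pre_get r (by omega)]; exact r2 i e,
          by rwa [pre_get r (by omega)]⟩
      induction k generalizing y with
      | zero => exact ⟨fun _ => y, p, by simp, rfl⟩
      | succ k i =>
        obtain ⟨z, z1, z2⟩ := Part.mem_bind_iff.1 p
        obtain ⟨r, r1, r2, rfl⟩ := i z z1
        refine ⟨fun j => if j ≤ k then r j else y, by simpa using r1, fun j e => ?_, by simp⟩
        rcases (Nat.lt_succ_iff.1 e).eq_or_lt with rfl | e
        · simpa using z2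
        · simpa [e.le, Nat.succ_le_of_lt e] using r2 j e
  | @rfind g _ i =>
    obtain ⟨G, a, b⟩ := i
    have c1 : Computable fun q : ((ℕ × ℕ) × ℕ) × ℕ => (Nat.pair q.1.1.1 q.1.2, q.2 + 1) :=
      (pc.comp (f.comp (f.comp f)) (s.comp f)).pair (Computable.succ.comp s)
    have c2 : Computable fun q : ℕ × ℕ => (Nat.pair q.1 q.2, 0) :=
      (pc.comp f s).pair (Computable.const 0)
    refine ⟨_, (a.comp c2).and ((a.comp c1).exd.ball s), fun n y => ?_⟩
    refine .trans ?_ Nat.mem_rfind.symm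
    simp only [b, Part.map_eq_map, Part.mem_map_iff, decide_eq_true_eq,
      decide_eq_false_iff_not, exists_eq_right]
    exact and_congr_right fun _ => forall₂_congr fun m _ => ⟨fun ⟨x, k⟩ => ⟨_, k, by simp⟩,
      fun ⟨x, k, l⟩ => ⟨x - 1, by rwa [Nat.sub_add_cancel (by omega)]⟩⟩

/-- A functional relation enumerated from an oracle is the graph of a function recursive in it. -/
theorem rec_of_op {X : ℕ → ℕ} {G : (ℕ → ℕ) → ℕ × ℕ → Prop} (h : Op G) : ∃ g : ℕ →. ℕ,
    Nat.RecursiveIn {fun n => Part.some (X n)} g ∧ (∀ n y, y ∈ g n → G X (n, y)) ∧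
      ∀ n y, G X (n, y) → ∃ z, z ∈ g n := by
  obtain ⟨E, e, -, eE⟩ := h
  obtain ⟨B, b, eB⟩ := sig_nf e
  have s := u2.comp u2
  have c : Computable fun m : ℕ => if B ((Denumerable.ofNat (List ℕ) m.unpair.1,
      m.unpair.2.unpair.1, m.unpair.2.unpair.2.unpair.1),
        m.unpair.2.unpair.2.unpair.2.unpair.2) then 0 else 1 :=
    cite (cp b ((((Primrec.ofNat _).to_comp.comp u1).pair ((u1.comp u2).pair (u1.comp s))).pair
      (u2.comp (u2.comp s)))) (Computable.const 0) (Computable.const 1)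
  have c := (Orc.R.comput (w := X) c).comp ((Orc.R.pre.comp
    (Orc.R.comput (u1.comp (u2.comp u2)))).pair (Orc.R.comput Computable.id))
  refine ⟨_, Nat.RecursiveIn.comp .left (Nat.RecursiveIn.rfind c), fun n y k => ?_,
    fun n y k => ?_⟩
  · obtain ⟨z, k, l⟩ := Part.mem_bind_iff.1 k
    have k := (Nat.mem_rfind.1 k).1
    simp at k l
    exact l ▸ (eE _ _).2 ⟨_, (eB _).2 ⟨_, k⟩⟩
  · obtain ⟨j, k⟩ := (eE _ _).1 k
    obtain ⟨t, k⟩ := (eB _).1 k
    obtain ⟨z, l, -⟩ := Nat.rfind_min' (p := fun v => decide (B ((pre X v.unpair.2.unpair.1, n,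
      v.unpair.1), v.unpair.2.unpair.2))) (m := Nat.pair y (Nat.pair j t)) (by simpa using k)
    refine ⟨_, Part.mem_bind (a := z) ?_ (Part.mem_some _)⟩
    refine (congrArg (z ∈ Nat.rfind ·) (funext fun v => ?_)).mp l
    simp [pre]

/-- The string version. -/
theorem op_of_rec' {X : ℕ → ℕ} {O : List Bool →. List Bool}
    (h : RecursiveIn {fun n => Part.some (X n)} O) :
    ∃ G : (ℕ → ℕ) → List Bool × List Bool → Prop, Op G ∧ ∀ p s, G X (p, s) ↔ s ∈ O p := by
  obtain ⟨G, a, b⟩ := op_of_rec h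
  exact ⟨_, a.comp ((Computable.encode.comp Computable.fst).pair
    (Computable.encode.comp Computable.snd)), fun p s => by simp [b]⟩

/-- The string version. -/
theorem rec_of_op' {X : ℕ → ℕ} {G : (ℕ → ℕ) → List Bool × List Bool → Prop} (h : Op G)
    (u : ∀ p s t, G X (p, s) → G X (p, t) → s = t) : ∃ V : List Bool →. List Bool,
    RecursiveIn {fun n => Part.some (X n)} V ∧ ∀ p s, G X (p, s) → s ∈ V p := by
  have f := Computable.fst (α := ℕ) (β := ℕ)
  have s := Computable.snd (α := ℕ) (β := ℕ)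
  have d : Computable fun n : ℕ => (Encodable.decode n : Option (List Bool)).getD [] :=
    Computable.option_getD Computable.decode (Computable.const [])
  obtain ⟨g, a, b, c⟩ := rec_of_op (X := X) ((h.comp ((d.comp f).pair (d.comp s))).and (Op.cp
    (cand (ceq (Computable.decode.comp f) (Computable.option_some.comp (d.comp f)))
      (ceq s (Computable.encode.comp (d.comp s))))))
  have k : ∀ p s, s ∈ (⟨∃ s, G X (p, s), choose⟩ : Part _) ↔ G X (p, s) := fun p s =>
    ⟨fun ⟨x, y⟩ => y ▸ choose_spec x, fun x =>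
      ⟨⟨s, x⟩, u _ _ _ (choose_spec (p := fun s => G X (p, s)) ⟨s, x⟩) x⟩⟩
  refine ⟨fun p => ⟨∃ s, G X (p, s), choose⟩, a.of_eq fun n => Part.ext fun y => ?_,
    fun p s => (k p s).2⟩
  simp only [Part.mem_bind_iff, Part.mem_map_iff, Part.mem_coe, Option.mem_def, k]
  constructor
  · exact fun e => ⟨_, (b n y e).2.1, _, (b n y e).1, (b n y e).2.2.symm⟩
  · rintro ⟨p, e, t, r, rfl⟩
    obtain ⟨z, w⟩ := c n (Encodable.encode t) (by simp [e, r])
    obtain ⟨b1, -, b2⟩ := b n z w
    simp only [e, Option.getD_some] at b1 b2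
    rwa [u _ _ _ r b1, ← b2]

/-- Strings named by numbers. -/
def dec (a : ℕ) : List Bool := pr a.unpair.2.testBit a.unpair.1

lemma dec_c : Computable dec := bits_c u2 u1

lemma pair_lt {a b N : ℕ} (h : a < N) (k : b < N) : Nat.pair a b < N * N :=
  (Nat.pair_lt_max_add_one_sq a b).trans_le (by rw [sq]; gcongr <;> omega)

lemma dec_sur {p : List Bool} {N : ℕ} (h : p.length ≤ N) : ∃ a < 2 ^ N * 2 ^ N, dec a = p := by
  obtain ⟨u, a, b⟩ := pr_sur (fun i => p.getD i false) p.length
  exact ⟨_, pair_lt (h.trans_lt N.lt_two_pow_self) (a.trans_le (by gcongr; omega)),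
    by rw [dec, Nat.unpair_pair, ← b, pr_getD]⟩

end Pool.Agent.Lib.H8.Pl
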