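import Pool.Agent.Lib.H8.Wei

/-!
A tree construction of a function approximable from below: definitions and computability.
-/

namespace Pool.Agent.Lib.H8.Qm

open CList Wei Nat.Partrec Nat.Partrec.Code Classical

variable {α : Type} [Primcodable α]

lemma cball {p : α → ℕ → Prop} {f : α → ℕ} (hf : Computable f)
    (hp : ComputablePred fun q : α × ℕ => p q.1 q.2) : ComputablePred fun a => ∀ i < f a, p a i :=
  (call (Primrec.list_range.to_comp.comp hf) hp).of_eq fun a => by simp

lemma cbex {p : α → ℕ → Prop} {f : α → ℕ} (hf : Computable f)
    (hp : ComputablePred fun q : α × ℕ => p q.1 q.2) : ComputablePred fun a => ∃ i < f a, p a i :=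
  (cball (p := fun a i => ¬ p a i) hf hp.not).not.of_eq fun a => by simp

lemma clt {f g : α → ℕ} (hf : Computable f) (hg : Computable g) :
    ComputablePred fun a => f a < g a :=
  cp (p := fun q : ℕ × ℕ => q.1 < q.2) Primrec.nat_lt.computablePred (hf.pair hg)

lemma cle {f g : α → ℕ} (hf : Computable f) (hg : Computable g) :
    ComputablePred fun a => f a ≤ g a :=
  cp (p := fun q : ℕ × ℕ => q.1 ≤ q.2) Primrec.nat_le.computablePred (hf.pair hg)

lemma cfg {p : α → ℕ → Prop} [∀ a, DecidablePred (p a)] {f : α → ℕ} (hf : Computable f)
    (hp : ComputablePred fun q : α × ℕ => p q.1 q.2) :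
    Computable fun a => Nat.findGreatest (p a) (f a) := by
  have s : Computable fun q : α × ℕ × ℕ => q.2.1 + 1 :=
    Computable.succ.comp (Computable.fst.comp Computable.snd)
  refine (Computable.nat_rec (h := fun a (q : ℕ × ℕ) => if p a (q.1 + 1) then q.1 + 1 else q.2)
    hf (Computable.const 0) (cite (cp hp (Computable.fst.pair s)) s
      (Computable.snd.comp Computable.snd)).to₂).of_eq fun a => ?_
  induction f a with
  | zero => rfl
  | succ n ih => rw [Nat.findGreatest_succ, ← ih]

lemma cpre {g : α → ℕ → ℕ} {f : α → ℕ} (hf : Computable f) (hg : Computable₂ g) :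
    Computable fun a => pre (g a) (f a) :=
  cmap (Primrec.list_range.to_comp.comp hf) hg

lemma cpfx {f g : α → List Bool} (hf : Computable f) (hg : Computable g) :
    ComputablePred fun a => f a <+: g a :=
  (ceq hf (Primrec.list_take.to_comp.comp (Computable.list_length.comp hf) hg)).of_eq
    fun _ => List.prefix_iff_eq_take.symm

/-- The successor of the value of the `e`-th program at `n` after `s` steps, or zero. -/
def vl (e s n : ℕ) : ℕ := ((evaln s (Denumerable.ofNat Code e) n).map Nat.succ).getD 0

/-- A majorant approximable from below. -/
def G (s n : ℕ) : ℕ := ((List.range (n + 1)).map fun e => vl e s n).sum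

lemma vl_c {e s n : α → ℕ} (he : Computable e) (hs : Computable s) (hn : Computable n) :
    Computable fun a => vl (e a) (s a) (n a) :=
  Computable.option_getD (Computable.option_map (primrec_evaln.to_comp.comp
    ((hs.pair ((Primrec.ofNat Code).to_comp.comp he)).pair hn))
    (Computable.succ.comp Computable.snd).to₂) (Computable.const 0)

lemma G_c {s n : α → ℕ} (hs : Computable s) (hn : Computable n) :
    Computable fun a => G (s a) (n a) :=
  csum.to_comp.comp (cmap (Primrec.list_range.to_comp.comp (Computable.succ.comp hn))
    (vl_c Computable.snd (hs.comp Computable.fst) (hn.comp Computable.fst)).to₂)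

/-- One stage: the guessed path and the next approximation. -/
abbrev Row := List Bool × List ℕ

/-- The current approximation. -/
def gc (h : List Row) (n : ℕ) : ℕ := (h.getD (h.length - 1) ([], [])).2.getD n 0

/-- The last stage with the infinitary outcome of the node `a`. -/
noncomputable def lst (h : List Row) (a : List Bool) : ℕ :=
  Nat.findGreatest (fun t => a ++ [true] <+: (h.getD t ([], [])).1) h.length

/-- The approximation with all pending jumps. -/
def gp (h : List Row) (t n : ℕ) : ℕ := if n ≤ t then G h.length n else gc h n

variable (V : ℕ × List ℕ × ℕ × ℕ → Prop)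

/-- Two different outputs at the same argument. -/
def conf (i : ℕ) (l : List ℕ) : Prop :=
  ∃ x < l.length, ∃ y < l.length, ∃ z < l.length, y ≠ z ∧ V (i, l, x, y) ∧ V (i, l, x, z)

/-- The node `a` takes its infinitary outcome. -/
def sp (h : List Row) (a : List Bool) : Prop :=
  (conf V a.length (pre (gc h) h.length) ∧ ¬ conf V a.length (pre (gc h) (lst h a))) ∨
    (¬ conf V a.length (pre (gc h) h.length) ∧
      ∀ x < lst h a, ∃ y < h.length, V (a.length, pre (gp h (lst h a)) h.length, x, y))

/-- The guessed path. -/
noncomputable def pth (h : List Row) (k : ℕ) : List Bool :=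
  Nat.rec [] (fun _ a => a ++ [decide (sp V h a)]) k

/-- Column `n` may jump for the sake of program `e`. -/
def jmp (h : List Row) (e n : ℕ) : Prop :=
  (∀ k < h.length, vl e h.length k ≠ 0 → gc h k < vl e h.length k) ∧ vl e h.length n ≠ 0 ∧
    ∀ i < e, (sp V h (pth V h i) →
      n ≤ lst h (pth V h i) ∧ ¬ conf V i (pre (gc h) h.length)) ∧
      (¬ sp V h (pth V h i) → lst h (pth V h i) < n)

/-- The next stage. -/
noncomputable def step (h : List Row) : Row :=
  (pth V h h.length, (List.range h.length).map fun n =>
    if ∃ e < n + 1, jmp V h e n then G h.length n else gc h n)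

/-- The history of the first `s` stages. -/
noncomputable def H (s : ℕ) : List Row := Nat.rec [] (fun _ h => h ++ [step V h]) s

section
variable {h : α → List Row} {a : α → List Bool} {i n t : α → ℕ} {l : α → List ℕ}

lemma row_c (hh : Computable h) (hn : Computable n) :
    Computable fun x => (h x).getD (n x) ([], []) :=
  (Primrec.list_getD _).to_comp.comp hh hn

lemma gc_c (hh : Computable h) (hn : Computable n) : Computable fun x => gc (h x) (n x) :=
  (Primrec.list_getD 0).to_comp.comp (Computable.snd.comp (row_c hh
    (Primrec.nat_sub.to_comp.comp (Computable.list_length.comp hh) (Computable.const 1)))) hn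

lemma lst_c (hh : Computable h) (ha : Computable a) : Computable fun x => lst (h x) (a x) :=
  cfg (p := fun x t => a x ++ [true] <+: ((h x).getD t ([], [])).1)
    (Computable.list_length.comp hh)
    (cpfx (Computable.list_concat.comp (ha.comp Computable.fst) (Computable.const true))
      (Computable.fst.comp (row_c (hh.comp Computable.fst) Computable.snd)))

lemma gp_c (hh : Computable h) (ht : Computable t) (hn : Computable n) :
    Computable fun x => gp (h x) (t x) (n x) :=
  cite (cle hn ht) (G_c (Computable.list_length.comp hh) hn) (gc_c hh hn)

variable {V} (hV : ComputablePred V)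
include hV

lemma conf_c (hi : Computable i) (hl : Computable l) :
    ComputablePred fun x => conf V (i x) (l x) := by
  have f := @Computable.fst
  have s := @Computable.snd
  have L := Computable.list_length.comp hl
  have f3 : Computable fun q : ((α × ℕ) × ℕ) × ℕ => q.1.1.1 := f.comp (f.comp f)
  exact cbex L (cbex (L.comp f) (cbex (L.comp (f.comp f)) (cand (ceq (s.comp f) s).not
    (cand (cp hV ((hi.comp f3).pair ((hl.comp f3).pair ((s.comp (f.comp f)).pair (s.comp f)))))
      (cp hV ((hi.comp f3).pair ((hl.comp f3).pair ((s.comp (f.comp f)).pair s))))))))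

omit hV in
lemma cur_c (hh : Computable h) (ht : Computable t) : Computable fun x => pre (gc (h x)) (t x) :=
  cpre ht (gc_c (hh.comp Computable.fst) Computable.snd).to₂

omit hV in
lemma pen_c (hh : Computable h) (ht : Computable t) :
    Computable fun x => pre (gp (h x) (t x)) (h x).length :=
  cpre (Computable.list_length.comp hh)
    (gp_c (hh.comp Computable.fst) (ht.comp Computable.fst) Computable.snd).to₂

lemma sp_c (hh : Computable h) (ha : Computable a) : ComputablePred fun x => sp V (h x) (a x) := by
  have f := @Computable.fst
  have s := @Computable.snd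
  have L := Computable.list_length.comp hh
  have A := Computable.list_length.comp ha
  have c := conf_c hV A (cur_c hh L)
  exact cor (cand c (conf_c hV A (cur_c hh (lst_c hh ha))).not) (cand c.not
    (cball (lst_c hh ha) (cbex (L.comp f) (cp hV ((A.comp (f.comp f)).pair
      (((pen_c hh (lst_c hh ha)).comp (f.comp f)).pair ((s.comp f).pair s)))))))

lemma pth_c (hh : Computable h) (hi : Computable i) : Computable fun x => pth V (h x) (i x) :=
  Computable.nat_rec (h := fun x (q : ℕ × List Bool) => q.2 ++ [decide (sp V (h x) q.2)]) hi
    (Computable.const []) (Computable.list_concat.comp (Computable.snd.comp Computable.snd)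
      (sp_c hV (hh.comp Computable.fst) (Computable.snd.comp Computable.snd)).decide).to₂

lemma jmp_c (hh : Computable h) (hi : Computable i) (hn : Computable n) :
    ComputablePred fun x => jmp V (h x) (i x) (n x) := by
  have f := @Computable.fst
  have s := @Computable.snd
  have L := Computable.list_length.comp hh
  have v := vl_c (hi.comp f) (L.comp f) (s (α := α) (β := ℕ))
  have p := pth_c hV (hh.comp f) (s (α := α) (β := ℕ))
  have q := sp_c hV (hh.comp f) p
  have r := lst_c (hh.comp f) p
  exact cand (cball L (cimp (ceq v (Computable.const 0)).not (clt (gc_c (hh.comp f) s) v)))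
    (cand (ceq (vl_c hi L hn) (Computable.const 0)).not (cball hi (cand
      (cimp q (cand (cle (hn.comp f) r) (conf_c hV s ((cur_c hh L).comp f)).not))
      (cimp q.not (clt r (hn.comp f))))))

lemma step_c : Computable (step V) := by
  have f := @Computable.fst
  have s := @Computable.snd
  have L : Computable fun h : List Row => h.length := Computable.list_length
  have j : ComputablePred fun q : List Row × ℕ => ∃ e < q.2 + 1, jmp V q.1 e q.2 :=
    cbex (p := fun (q : List Row × ℕ) e => jmp V q.1 e q.2) (Computable.succ.comp s)
      (jmp_c hV (f.comp f) s (s.comp f))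
  exact (pth_c hV Computable.id L).pair (cmap (Primrec.list_range.to_comp.comp L)
    (cite j (G_c (L.comp f) s) (gc_c f s)).to₂)

lemma H_c : Computable (H V) :=
  Computable.nat_rec (f := fun s : ℕ => s) (g := fun _ => ([] : List Row))
    (h := fun _ (q : ℕ × List Row) => q.2 ++ [step V q.2]) Computable.id (Computable.const [])
    (Computable.list_concat.comp (Computable.snd.comp Computable.snd)
      ((step_c hV).comp (Computable.snd.comp Computable.snd))).to₂

end

end Pool.Agent.Lib.H8.Qm
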