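import Pool.Agent.Lib.H8.Qm1

/-!
A tree construction of a function approximable from below: basic properties.
-/

namespace Pool.Agent.Lib.H8.Qm

open CList Wei Nat.Partrec Nat.Partrec.Code Classical

lemma vl_ne {e s n : ℕ} (h : vl e s n ≠ 0) :
    ∃ v, v ∈ evaln s (Denumerable.ofNat Code e) n ∧ vl e s n = v + 1 := by
  unfold vl at h ⊢
  cases hv : evaln s (Denumerable.ofNat Code e) n with
  | none => simp [hv] at h
  | some v => exact ⟨v, rfl, rfl⟩

lemma vl_of {e s n v : ℕ} (h : v ∈ evaln s (Denumerable.ofNat Code e) n) : vl e s n = v + 1 := by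
  unfold vl
  rw [Option.mem_def.1 h]
  rfl

lemma vl_mono {e s s' n : ℕ} (h : vl e s n ≠ 0) (l : s ≤ s') : vl e s' n = vl e s n := by
  obtain ⟨v, a, b⟩ := vl_ne h
  rw [b, vl_of (evaln_mono l a)]

lemma vl_le {e s s' n : ℕ} (l : s ≤ s') : vl e s n ≤ vl e s' n := by
  by_cases h : vl e s n = 0
  · omega
  · exact (vl_mono h l).ge

lemma G_mono {s s' n : ℕ} (l : s ≤ s') : G s n ≤ G s' n :=
  List.sum_le_sum fun _ _ => vl_le l

lemma vl_le_G {e s n : ℕ} (h : e < n + 1) : vl e s n ≤ G s n :=
  List.single_le_sum (fun _ _ => Nat.zero_le _) _ (List.mem_map.2 ⟨e, List.mem_range.2 h, rfl⟩)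

lemma G_bdd (n : ℕ) : BddAbove (Set.range fun s => G s n) := by
  have : ∀ e, ∃ b, ∀ s, vl e s n ≤ b := fun e => by
    by_cases h : ∃ s, vl e s n ≠ 0
    · obtain ⟨s, h⟩ := h
      exact ⟨vl e s n, fun t => (vl_le (le_max_left t s)).trans (vl_mono h (le_max_right t s)).le⟩
    · exact ⟨0, fun s => by by_contra k; exact h ⟨s, by omega⟩⟩
  choose b hb using this
  refine ⟨((List.range (n + 1)).map b).sum, ?_⟩
  rintro _ ⟨s, rfl⟩
  exact List.sum_le_sum fun e _ => hb e s

variable (V : ℕ × List ℕ × ℕ × ℕ → Prop)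

@[simp] lemma H_len (s : ℕ) : (H V s).length = s := by
  induction s with
  | zero => rfl
  | succ s ih => simp [H] at ih ⊢; exact ih

lemma H_succ (s : ℕ) : H V (s + 1) = H V s ++ [step V (H V s)] := rfl

lemma H_get (s t : ℕ) (d : Row) : (H V s).getD t d = if t < s then step V (H V t) else d := by
  induction s with
  | zero => simp [H]
  | succ s ih =>
    rw [H_succ]
    rcases lt_trichotomy t s with h | rfl | h
    · rw [List.getD_append _ _ _ _ (by simpa using h), ih, if_pos h, if_pos (by omega)]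
    · rw [List.getD_append_right _ _ _ _ (by simp)]; simp
    · rw [List.getD_eq_default _ _ (by simp; omega), if_neg (by omega)]

/-- The approximation at stage `s`. -/
noncomputable def g (s : ℕ) : ℕ → ℕ := gc (H V s)

/-- The last infinitary stage of `a` before `s`. -/
noncomputable def L (s : ℕ) (a : List Bool) : ℕ := lst (H V s) a

/-- Stage `s` passes through the infinitary outcome of `a`. -/
def St (s : ℕ) (a : List Bool) : Prop := a ++ [true] <+: pth V (H V s) s

lemma g_zero (n : ℕ) : g V 0 n = 0 := by simp [g, gc, H]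

lemma g_succ' (s n : ℕ) : g V (s + 1) n = if n < s then
    (if ∃ e < n + 1, jmp V (H V s) e n then G s n else g V s n) else 0 := by
  unfold g
  rw [gc, H_len, H_get, if_pos (by omega)]
  by_cases h : n < s
  · simp [step, h]
  · simp [step, h]

lemma g_big {s n : ℕ} (h : s ≤ n) : g V s n = 0 := by
  cases s with
  | zero => exact g_zero V n
  | succ s => rw [g_succ', if_neg (by omega)]

lemma jmp_lt {s e n : ℕ} (h : jmp V (H V s) e n) : n < s := by
  obtain ⟨v, a, -⟩ := vl_ne h.2.1
  simpa using evaln_bound a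

lemma g_succ (s n : ℕ) :
    g V (s + 1) n = if ∃ e < n + 1, jmp V (H V s) e n then G s n else g V s n := by
  rw [g_succ']
  by_cases h : n < s
  · rw [if_pos h]
  · rw [if_neg h, if_neg fun ⟨e, _, k⟩ => h (jmp_lt V k), g_big V (by omega)]

lemma g_le_G (s n : ℕ) : g V s n ≤ G s n := by
  induction s with
  | zero => simp [g_zero]
  | succ s ih =>
    rw [g_succ]
    split_ifs
    · exact G_mono (by omega)
    · exact ih.trans (G_mono (by omega))

lemma g_mono (n : ℕ) : Monotone fun s => g V s n := monotone_nat_of_le_succ fun s => by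
  rw [g_succ]
  split_ifs
  · exact g_le_G V s n
  · rfl

lemma g_bdd (n : ℕ) : BddAbove (Set.range fun s => g V s n) := by
  obtain ⟨b, hb⟩ := G_bdd n
  refine ⟨b, ?_⟩
  rintro _ ⟨s, rfl⟩
  exact (g_le_G V s n).trans (hb ⟨s, rfl⟩)

/-- The limit function. -/
noncomputable def gi (n : ℕ) : ℕ := sSup (Set.range fun s => g V s n)

lemma le_gi (s n : ℕ) : g V s n ≤ gi V n := le_csSup (g_bdd V n) ⟨s, rfl⟩

lemma gi_at (n : ℕ) : ∃ s, g V s n = gi V n :=
  Nat.sSup_mem (Set.range_nonempty _) (g_bdd V n)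

lemma stab (t : ℕ) : ∃ u, ∀ s ≥ u, ∀ n < t, gi V n ≤ g V s n := by
  choose f hf using gi_at V
  exact ⟨(Finset.range t).sup f, fun s hs n hn => (hf n).ge.trans (g_mono V n
    ((Finset.le_sup (f := f) (Finset.mem_range.2 hn)).trans hs))⟩

lemma pth_succ (h : List Row) (k : ℕ) :
    pth V h (k + 1) = pth V h k ++ [decide (sp V h (pth V h k))] := rfl

@[simp] lemma pth_len (h : List Row) (k : ℕ) : (pth V h k).length = k := by
  induction k with
  | zero => rfl
  | succ k ih => simp [pth_succ, ih]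

lemma pth_mono (h : List Row) {j k : ℕ} (l : j ≤ k) : pth V h j <+: pth V h k := by
  induction k, l using Nat.le_induction with
  | base => exact List.prefix_refl _
  | succ k _ ih => exact ih.trans (List.prefix_append _ _)

lemma pfx_iff {h : List Row} {k : ℕ} {a : List Bool} :
    a <+: pth V h k ↔ a.length ≤ k ∧ pth V h a.length = a := by
  refine ⟨fun p => ?_, fun ⟨u, v⟩ => v ▸ pth_mono V h (by simpa using u)⟩
  have l : a.length ≤ k := by simpa using p.length_le
  exact ⟨l, ((List.prefix_of_prefix_length_le p (pth_mono V h l) (by simp)).eq_of_length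
    (by simp)).symm⟩

lemma st_iff {s : ℕ} {a : List Bool} :
    St V s a ↔ a.length < s ∧ pth V (H V s) a.length = a ∧ sp V (H V s) a := by
  rw [St, pfx_iff, List.length_append, List.length_singleton, pth_succ]
  refine ⟨fun ⟨u, v⟩ => ?_, fun ⟨u, v, w⟩ => ⟨u, by rw [v]; simp [w]⟩⟩
  obtain ⟨v1, v2⟩ := List.append_inj' v rfl
  rw [v1] at v2
  exact ⟨u, v1, by simpa using v2⟩

lemma L_ge {s t : ℕ} {a : List Bool} (l : t < s) (h : St V t a) : t ≤ L V s a :=
  Nat.le_findGreatest (by simpa using l.le) (by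
    rw [H_get, if_pos l]; simpa [step, St] using h)

lemma L_spec (s : ℕ) (a : List Bool) : L V s a = 0 ∨ (L V s a < s ∧ St V (L V s a) a) := by
  refine (eq_or_ne _ _).imp_right fun h => ?_
  have := Nat.findGreatest_of_ne_zero (rfl : L V s a = _) h
  rw [H_get] at this
  split_ifs at this with k
  · exact ⟨k, by simpa [step, St] using this⟩
  · simp at this

lemma L_eq {s t : ℕ} {a : List Bool} (l : t < s) (h : St V t a)
    (k : ∀ u, t < u → u < s → ¬ St V u a) : L V s a = t := by
  have := L_ge V l h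
  rcases L_spec V s a with z | ⟨z, w⟩
  · omega
  · by_contra c
    exact k _ (by omega) z w

lemma once (e : ℕ) : ∃ u, ∀ s ≥ u, ∀ n, e < n + 1 → ¬ jmp V (H V s) e n := by
  by_contra! h
  obtain ⟨s, -, n, a, b⟩ := h 0
  obtain ⟨t, l, m, -, c⟩ := h (s + 1)
  have h1 : vl e s n ≠ 0 := by simpa using b.2.1
  have h2 := vl_mono h1 (by omega : s ≤ t)
  have h3 : g V t n < vl e t n := by
    simpa [g] using c.1 n (by simpa using (jmp_lt V b).trans (by omega)) (by simpa [h2] using h1)
  have h4 : g V (s + 1) n ≤ g V t n := g_mono V n l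
  rw [g_succ, if_pos ⟨e, a, b⟩] at h4
  have := vl_le_G (s := s) a
  omega

/-- The true path. -/
noncomputable def T (i : ℕ) : List Bool :=
  Nat.rec [] (fun _ a => a ++ [decide (∀ u, ∃ s ≥ u, St V s a)]) i

lemma T_succ (i : ℕ) : T V (i + 1) = T V i ++ [decide (∀ u, ∃ s ≥ u, St V s (T V i))] := rfl

@[simp] lemma T_len (i : ℕ) : (T V i).length = i := by
  induction i with
  | zero => rfl
  | succ k ih => simp [T_succ, ih]

lemma T_mono {j k : ℕ} (l : j ≤ k) : T V j <+: T V k := by
  induction k, l using Nat.le_induction with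
  | base => exact List.prefix_refl _
  | succ k _ ih => exact ih.trans (List.prefix_append _ _)

lemma T_often (i u : ℕ) : ∃ s ≥ u, i < s ∧ pth V (H V s) i = T V i := by
  induction i generalizing u with
  | zero => exact ⟨u + 1, by omega, by omega, rfl⟩
  | succ i ih =>
    by_cases h : ∀ u, ∃ s ≥ u, St V s (T V i)
    · obtain ⟨s, a, b⟩ := h (u + i + 2)
      obtain ⟨-, c, d⟩ := (st_iff V).1 b
      rw [T_len] at c
      exact ⟨s, by omega, by omega, by rw [pth_succ, T_succ, c]; simp [h, d]⟩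
    · have h' := h
      push Not at h'
      obtain ⟨v, hv⟩ := h'
      obtain ⟨s, a, b, c⟩ := ih (u + v + i + 2)
      have : ¬ sp V (H V s) (T V i) := fun k =>
        hv s (by omega) ((st_iff V).2 ⟨by simpa using b, by simpa using c, k⟩)
      exact ⟨s, by omega, by omega, by rw [pth_succ, T_succ, c]; simp [h, this]⟩

/-- From stage `u` on the node of length `i` of the true path is not injured. -/
def Good (i u : ℕ) : Prop :=
  (∀ e < i + 1, ∀ s ≥ u, ∀ n, e < n + 1 → ¬ jmp V (H V s) e n) ∧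
    ∀ j < i, ¬ (∀ u, ∃ s ≥ u, St V s (T V j)) → ∀ s ≥ u, ¬ St V s (T V j)

lemma unif {P : ℕ → ℕ → Prop} (h : ∀ j, ∃ u, ∀ s ≥ u, P j s) (i : ℕ) :
    ∃ u, ∀ j < i, ∀ s ≥ u, P j s := by
  choose f hf using h
  exact ⟨(Finset.range i).sup f, fun j hj s hs =>
    hf j s ((Finset.le_sup (f := f) (Finset.mem_range.2 hj)).trans hs)⟩

lemma good (i : ℕ) : ∃ u, Good V i u := by
  obtain ⟨u, hu⟩ := unif (once V) (i + 1)
  obtain ⟨v, hv⟩ := unif (P := fun j s => ¬ (∀ u, ∃ s ≥ u, St V s (T V j)) → ¬ St V s (T V j))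
    (fun j => by
      by_cases h : ∀ u, ∃ s ≥ u, St V s (T V j)
      · exact ⟨0, fun _ _ k => (k h).elim⟩
      · push Not at h
        exact h.imp fun u k s hs _ => k s hs) i
  exact ⟨u + v, fun e a s b => hu e a s (by omega), fun j a b s c => hv j a s (by omega) b⟩

variable {V} {i u : ℕ}

lemma split (hg : Good V i u) {s : ℕ} (hs : u ≤ s) (hi : i < s) {j : ℕ} (hj : j ≤ i) :
    pth V (H V s) j = T V j ∨ ∃ k < j, pth V (H V s) k = T V k ∧
      T V (k + 1) = T V k ++ [true] ∧ ¬ sp V (H V s) (T V k) := by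
  induction j with
  | zero => exact Or.inl rfl
  | succ j ih =>
    rcases ih (by omega) with a | ⟨k, a, b⟩
    · by_cases h : ∀ u, ∃ s ≥ u, St V s (T V j)
      · by_cases k : sp V (H V s) (T V j)
        · exact Or.inl (by rw [pth_succ, T_succ, a]; simp [h, k])
        · exact Or.inr ⟨j, by omega, a, by rw [T_succ]; simp [h], k⟩
      · have : ¬ sp V (H V s) (T V j) := fun k => hg.2 j (by omega) h s hs
          ((st_iff V).2 ⟨by simp; omega, by simpa using a, k⟩)
        exact Or.inl (by rw [pth_succ, T_succ, a]; simp [h, this])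
    · exact Or.inr ⟨k, by omega, b⟩

lemma keep1 (hg : Good V i u) {s t n : ℕ} (hu : u ≤ t) (ht : St V t (T V i)) (l : t < s)
    (hs : ¬ St V s (T V i)) (hn : n ≤ t) : g V (s + 1) n = g V s n := by
  rw [g_succ, if_neg]
  rintro ⟨e, a, b⟩
  have he : i < e := by
    by_contra c
    exact hg.1 e (by omega) s (by omega) n a b
  have hi : i < t := by simpa using ((st_iff V).1 ht).1
  rcases split hg (by omega : u ≤ s) (by omega) le_rfl with c | ⟨k, c, d, f, w⟩
  · have h1 : ¬ sp V (H V s) (T V i) := fun k =>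
      hs ((st_iff V).2 ⟨by simp; omega, by simpa using c, k⟩)
    have h2 := (b.2.2 i he).2
    rw [c] at h2
    have h3 : L V s (T V i) < n := h2 h1
    have := L_ge V l ht
    omega
  · have h2 := (b.2.2 k (by omega)).2
    rw [d] at h2
    have h3 : L V s (T V k) < n := h2 w
    have h4 : St V t (T V k) := by
      rw [St, ← f]
      exact ((T_mono V (by omega : k + 1 ≤ i)).trans (List.prefix_append _ _)).trans ht
    have := L_ge V l h4
    omega

lemma keep (hg : Good V i u) {s t n : ℕ} (hu : u ≤ t) (ht : St V t (T V i)) (l : t < s)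
    (hs : ∀ v, t < v → v < s → ¬ St V v (T V i)) (hn : n ≤ t) : g V s n = g V (t + 1) n := by
  induction s, l using Nat.le_induction with
  | base => rfl
  | succ s l ih =>
    rw [keep1 hg hu ht l (hs s l (by omega)) hn, ih fun v a b => hs v a (by omega)]

lemma atst (hg : Good V i u) {s e n : ℕ} (hu : u ≤ s) (hs : St V s (T V i)) (a : e < n + 1)
    (b : jmp V (H V s) e n) : n ≤ L V s (T V i) ∧ ¬ conf V i (pre (g V s) s) := by
  have he : i < e := by
    by_contra c
    exact hg.1 e (by omega) s hu n a b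
  obtain ⟨-, c, d⟩ := (st_iff V).1 hs
  rw [T_len] at c
  have := (b.2.2 i he).1
  rw [c, H_len] at this
  exact this d

end Pool.Agent.Lib.H8.Qm
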