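import Pool.Agent.Lib.H8.Qm2

/-!
A tree construction of a function approximable from below: verification.
-/

namespace Pool.Agent.Lib.H8.Qm

open CList Wei Nat.Partrec Nat.Partrec.Code Classical

/-- Outputs persist at later stages and under smaller bounds. -/
def Mono (V : ℕ × List ℕ × ℕ × ℕ → Prop) : Prop :=
  ∀ (i : ℕ) (a b : ℕ → ℕ) (s t x y : ℕ), s ≤ t → (∀ n < s, b n ≤ a n) →
    V (i, pre a s, x, y) → V (i, pre b t, x, y)

variable {V : ℕ × List ℕ × ℕ × ℕ → Prop} {i u : ℕ}

lemma sp_iff (s i : ℕ) : sp V (H V s) (T V i) ↔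
    (conf V i (pre (g V s) s) ∧ ¬ conf V i (pre (g V s) (L V s (T V i)))) ∨
    (¬ conf V i (pre (g V s) s) ∧ ∀ x < L V s (T V i), ∃ y < s,
      V (i, pre (gp (H V s) (L V s (T V i))) s, x, y)) := by
  simp only [sp, H_len, T_len, g, L]

lemma g_le_gp (s t n : ℕ) : g V s n ≤ gp (H V s) t n := by
  unfold gp
  split_ifs
  · simpa using g_le_G V s n
  · rfl

lemma succ_le_gp (hg : Good V i u) {s : ℕ} (hu : u ≤ s) (hs : St V s (T V i)) (n : ℕ) :
    g V (s + 1) n ≤ gp (H V s) (L V s (T V i)) n := by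
  rw [g_succ]
  split_ifs with h
  · obtain ⟨e, a, b⟩ := h
    rw [gp, if_pos (atst hg hu hs a b).1, H_len]
  · exact g_le_gp _ _ _

lemma conf_mono (hM : Mono V) {a b : ℕ → ℕ} {s t : ℕ} (l : s ≤ t) (h : ∀ n < s, b n ≤ a n) :
    conf V i (pre a s) → conf V i (pre b t) := by
  simp only [conf, pre_len]
  rintro ⟨x, x1, y, y1, z, z1, c, d, e⟩
  exact ⟨x, by omega, y, by omega, z, by omega, c, hM _ _ _ _ _ _ _ l h d, hM _ _ _ _ _ _ _ l h e⟩

lemma stop (hM : Mono V) (hg : Good V i u) {t : ℕ} (hu : u ≤ t) (ht : St V t (T V i))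
    (hc : conf V i (pre (g V t) t)) :
    (∀ s > t, ¬ St V s (T V i)) ∧ conf V i (pre (gi V) t) := by
  have h0 : ∀ n, g V (t + 1) n = g V t n := fun n => by
    rw [g_succ, if_neg fun ⟨e, a, b⟩ => (atst hg hu ht a b).2 hc]
  have h1 : ∀ s > t, ¬ St V s (T V i) := fun s => by
    induction s using Nat.strong_induction_on with
    | _ s ih =>
      intro l k
      have a : ∀ v, t < v → v < s → ¬ St V v (T V i) := fun v a b => ih v b a
      have b : ∀ n < t, g V s n ≤ g V t n := fun n hn => by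
        rw [keep hg hu ht l a hn.le, h0]
      have c := (sp_iff s i).1 ((st_iff V).1 k).2.2
      rw [L_eq V l ht a] at c
      rcases c with ⟨-, c⟩ | ⟨c, -⟩
      · exact c (conf_mono hM le_rfl b hc)
      · exact c (conf_mono hM l.le b hc)
  refine ⟨h1, conf_mono hM le_rfl (fun n hn => ?_) hc⟩
  obtain ⟨s, hs⟩ := gi_at V n
  calc gi V n = g V s n := hs.symm
    _ ≤ g V (s + t + 1) n := g_mono V n (by omega)
    _ = g V t n := by rw [keep hg hu ht (by omega) (fun v a _ => h1 v a) hn.le, h0]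

lemma often (hM : Mono V) (hc : ∀ t, ¬ conf V i (pre (gi V) t))
    (ht : ∀ (b : ℕ → ℕ) t, (∀ n, gi V n ≤ b n) → (∀ n > t, b n = gi V n) →
      ∀ x, ∃ s, ∃ y, V (i, pre b s, x, y)) (u : ℕ) : ∃ s ≥ u, St V s (T V i) := by
  by_contra! h
  set t := L V u (T V i) with e
  have h1 : ∀ s ≥ u, L V s (T V i) = t := fun s hs => by
    rcases L_spec V u (T V i) with z | ⟨z, w⟩
    · rcases L_spec V s (T V i) with z' | ⟨z', w'⟩
      · omega
      · have : L V s (T V i) < u := by by_contra c; exact h _ (by omega) w'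
        have := L_ge V this w'
        omega
    · refine L_eq V (by omega) w fun v a b k => ?_
      have : v < u := by by_contra c; exact h _ (by omega) k
      have := L_ge V this k
      omega
  let b : ℕ → ℕ := fun n => if n ≤ t then sSup (Set.range fun s => G s n) else gi V n
  have b1 : ∀ s n, gp (H V s) t n ≤ b n := fun s n => by
    simp only [gp, b, H_len]
    split_ifs
    · exact le_csSup (G_bdd n) ⟨s, rfl⟩
    · exact le_gi V s n
  have b2 : ∀ n, gi V n ≤ b n := fun n => by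
    obtain ⟨s, hs⟩ := gi_at V n
    exact hs ▸ (g_le_gp s t n).trans (b1 s n)
  obtain ⟨v, hv⟩ := unif (P := fun x s => ∃ y < s, V (i, pre (gp (H V s) t) s, x, y))
    (fun x => by
      obtain ⟨s, y, k⟩ := ht b t b2 (fun n hn => if_neg (by omega)) x
      exact ⟨s + y + 1, fun r hr =>
        ⟨y, by omega, hM _ _ _ _ _ _ _ (by omega) (fun n _ => b1 r n) k⟩⟩) t
  obtain ⟨w, hw⟩ := stab V t
  obtain ⟨s, a, c, d⟩ := T_often V i (u + v + w)
  refine h s (by omega) ((st_iff V).2 ⟨by simpa using c, by simpa using d, ?_⟩)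
  rw [sp_iff, h1 s (by omega)]
  by_cases k : conf V i (pre (g V s) s)
  · exact Or.inl ⟨k, fun k' => hc t (conf_mono hM le_rfl (hw s (by omega)) k')⟩
  · exact Or.inr ⟨k, fun x hx => hv x hx s (by omega)⟩

lemma persist (hM : Mono V) (hg : Good V i u) (hc : ∀ t, ¬ conf V i (pre (gi V) t))
    {s x y : ℕ} (hu : u ≤ s) (hs : St V s (T V i)) (hx : x < L V s (T V i)) (hy : y < s)
    (h : V (i, pre (gp (H V s) (L V s (T V i))) s, x, y)) :
    ∀ r > s, V (i, pre (g V r) r, x, y) := fun r => by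
  induction r using Nat.strong_induction_on with
  | _ r ih =>
    intro l
    have a := L_ge V l hs
    have xs : x < s := by rcases L_spec V s (T V i) with z | ⟨z, -⟩ <;> omega
    obtain ⟨b, c⟩ := (L_spec V r (T V i)).resolve_left (by omega)
    set v := L V r (T V i) with e
    have d : ∀ n < v, g V r n ≤ gp (H V v) (L V v (T V i)) n := fun n hn => by
      rw [keep hg (by omega) c b (fun w w1 w2 k => by have := L_ge V w2 k; omega) hn.le]
      exact succ_le_gp hg (by omega) c n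
    refine hM _ _ _ _ _ _ _ b.le d ?_
    rcases a.eq_or_lt with a | a
    · rwa [← a]
    · have nc : ¬ conf V i (pre (g V v) v) := fun k => hc v (stop hM hg (by omega) c k).2
      obtain ⟨z, z1, z2⟩ := (((sp_iff v i).1 ((st_iff V).1 c).2.2).resolve_left
        fun k => nc k.1).2 x (by have := L_ge V a hs; omega)
      by_cases k : y = z
      · rwa [k]
      · exact (nc ⟨x, by simp; omega, y, by simp; omega, z, by simpa using z1, k, ih v b a,
          hM _ _ _ _ _ _ _ le_rfl (fun n _ => g_le_gp _ _ n) z2⟩).elim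

theorem reqQ (hV : ComputablePred V) (hM : Mono V) (i : ℕ) (hc : ∀ t, ¬ conf V i (pre (gi V) t))
    (ht : ∀ (b : ℕ → ℕ) t, (∀ n, gi V n ≤ b n) → (∀ n > t, b n = gi V n) →
      ∀ x, ∃ s, ∃ y, V (i, pre b s, x, y)) :
    ∃ f : ℕ → ℕ, Computable f ∧ ∀ s x y, V (i, pre (gi V) s, x, y) → y = f x := by
  obtain ⟨u, hg⟩ := good V i
  have o := often hM hc ht
  have nc : ∀ v ≥ u, St V v (T V i) → ¬ conf V i (pre (g V v) v) := fun v a c k =>
    hc v (stop hM hg a c k).2
  have s1 : Computable fun q : ℕ × ℕ × ℕ => q.2.1 := Computable.fst.comp Computable.snd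
  have s2 : Computable fun q : ℕ × ℕ × ℕ => q.2.2 := Computable.snd.comp Computable.snd
  have hh := (H_c hV).comp s1
  have hl := lst_c hh (Computable.const (T V i))
  have hp : Computable fun q : ℕ × ℕ × ℕ => pre (gp (H V q.2.1) (L V q.2.1 (T V i))) q.2.1 :=
    (pen_c hh hl).of_eq fun q => by rw [H_len]; rfl
  obtain ⟨f, f1, f2⟩ := csel (P := fun x (q : ℕ × ℕ) => u ≤ q.1 ∧ St V q.1 (T V i) ∧
    x < L V q.1 (T V i) ∧ q.2 < q.1 ∧ V (i, pre (gp (H V q.1) (L V q.1 (T V i))) q.1, x, q.2))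
    (cand (cle (Computable.const u) s1) (cand (cpfx (Computable.const _) (pth_c hV hh s1))
      (cand (clt Computable.fst hl) (cand (clt s2 s1)
        (cp hV ((Computable.const i).pair (hp.pair (Computable.fst.pair s2))))))))
    fun x => by
      obtain ⟨t, t1, t2⟩ := o (x + 1)
      obtain ⟨s, a, b⟩ := o (t + u + 1)
      have c := L_ge V (by omega : t < s) t2
      obtain ⟨y, y1, y2⟩ := (((sp_iff s i).1 ((st_iff V).1 b).2.2).resolve_left
        fun k => nc s (by omega) b k.1).2 x (by omega)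
      exact ⟨(s, y), by simp only; omega, b, by simp only; omega, y1, y2⟩
  refine ⟨fun x => (f x).2, Computable.snd.comp f1, fun s x y h => ?_⟩
  obtain ⟨a, b, c, d, e⟩ := f2 x
  obtain ⟨r, r1, r2⟩ := o (s + x + y + (f x).1 + 1)
  by_contra k
  exact nc r (by omega) r2 ⟨x, by simp; omega, y, by simp; omega, (f x).2, by simp; omega, k,
    hM _ _ _ _ _ _ _ (by omega) (fun n _ => le_gi V r n) h, persist hM hg hc a b c d e r (by omega)⟩

theorem reqN (hM : Mono V) {f : ℕ → ℕ} (hf : Computable f) : ∃ n, f n < gi V n := by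
  by_contra! h
  obtain ⟨c, hc⟩ := exists_code.1 (Partrec.nat_iff.1 hf)
  obtain ⟨e, rfl⟩ : ∃ e, c = Denumerable.ofNat Code e := ⟨Encodable.encode c, by simp⟩
  have h1 : ∀ s k, vl e s k ≠ 0 → vl e s k = f k + 1 := fun s k a => by
    obtain ⟨v, a, b⟩ := vl_ne a
    have := evaln_sound a
    rw [hc] at this
    simp at this
    omega
  obtain ⟨u, hg⟩ := good V e
  obtain ⟨v, hv⟩ := unif (P := fun j s => (∀ u, ∃ s ≥ u, St V s (T V j)) → St V s (T V j) →
    u + e + 1 ≤ L V s (T V j) ∧ ¬ conf V j (pre (g V s) s)) (fun j => by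
      by_cases k : ∀ u, ∃ s ≥ u, St V s (T V j)
      · obtain ⟨w, hw⟩ := good V j
        obtain ⟨t, t1, t2⟩ := k (u + e + 1)
        refine ⟨t + w + 1, fun s hs _ a => ⟨t1.trans (L_ge V (by omega) t2), fun b => ?_⟩⟩
        obtain ⟨r, r1, r2⟩ := k (s + 1)
        exact (stop hM hw (by omega) a b).1 r r1 r2
      · exact ⟨0, fun _ _ a => (k a).elim⟩) e
  obtain ⟨w, hw⟩ := evaln_complete.1
    (show f (u + e + 1) ∈ (Denumerable.ofNat Code e).eval (u + e + 1) by rw [hc]; simp)
  obtain ⟨s, a, b, c⟩ := T_often V e (u + v + w)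
  have h2 : vl e s (u + e + 1) = f (u + e + 1) + 1 := vl_of (evaln_mono (by omega) hw)
  have h3 : ∀ j ≤ e, pth V (H V s) j = T V j := fun j hj => by
    simpa using ((pfx_iff V).1 (c ▸ T_mono V hj : T V j <+: pth V (H V s) e)).2
  have h4 : jmp V (H V s) e (u + e + 1) := by
    refine ⟨fun k _ a => ?_, by simp [h2], fun j hj => ?_⟩
    · rw [H_len] at a ⊢
      rw [h1 s k a]
      exact Nat.lt_succ_of_le ((le_gi V s k).trans (h k))
    · have p := h3 (j + 1) hj
      rw [pth_succ, T_succ, h3 j hj.le] at p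
      have q : sp V (H V s) (T V j) ↔ ∀ u, ∃ s ≥ u, St V s (T V j) := by simpa using p
      rw [h3 j hj.le, H_len]
      refine ⟨fun k => hv j hj s (by omega) (q.1 k) ((st_iff V).2
        ⟨by simp; omega, by simpa using h3 j hj.le, k⟩), fun k => ?_⟩
      rcases L_spec V s (T V j) with z | ⟨-, z⟩
      · exact z.trans_lt (by omega)
      · by_contra r
        exact hg.2 j hj (fun m => k (q.2 m)) _ (by change ¬ L V s _ < _ at r; omega) z
  have h5 := le_gi V (s + 1) (u + e + 1)
  rw [g_succ, if_pos ⟨e, by omega, h4⟩] at h5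
  have := vl_le_G (s := s) (by omega : e < u + e + 1 + 1)
  have := h (u + e + 1)
  omega

end Pool.Agent.Lib.H8.Qm
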