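import Pool.Agent.Lib.H8.Qm3

/-!
A function `h` above a non-dominated left-c.e. function whose upper graph is quasi-minimal.
-/

namespace Pool.Agent.Lib.H8.Qm

open CList Wei Nat.Partrec Nat.Partrec.Code Classical

/-- Stage-bounded application of an operator to the upper graph of a function. -/
def VV (q : ℕ × List ℕ × ℕ × ℕ) : Prop :=
  ∃ a < q.2.1.length, vl q.1.unpair.1 q.2.1.length
    (Encodable.encode (Denumerable.ofNat (List ℕ) a, q.2.2.1, q.2.2.2)) ≠ 0 ∧
    ∀ c ∈ Denumerable.ofNat (List ℕ) a, c ≤ q.2.1.length ∧ (c ≠ 0 →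
      (Denumerable.ofNat (List ℕ) q.1.unpair.2).getD (c - 1).unpair.1
        (q.2.1.getD (c - 1).unpair.1 0) ≤ (c - 1).unpair.2)

lemma VV_c : ComputablePred VV := by
  have f := @Computable.fst
  have s := @Computable.snd
  have o := (Primrec.ofNat (List ℕ)).to_comp
  have L : Computable fun q : ℕ × List ℕ × ℕ × ℕ => q.2.1.length :=
    Computable.list_length.comp (f.comp s)
  have c : Computable fun q : ((ℕ × List ℕ × ℕ × ℕ) × ℕ) × ℕ => q.2 - 1 :=
    Primrec.nat_sub.to_comp.comp s (Computable.const 1)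
  have d : Computable fun q : ((ℕ × List ℕ × ℕ × ℕ) × ℕ) × ℕ =>
      (Denumerable.ofNat (List ℕ) q.1.1.1.unpair.2).getD (q.2 - 1).unpair.1
        (q.1.1.2.1.getD (q.2 - 1).unpair.1 0) :=
    (Computable.option_getD (Computable.list_getElem?.comp
      (o.comp (Arith.u2.comp (f.comp (f.comp f)))) (Arith.u1.comp c))
      ((Primrec.list_getD 0).to_comp.comp (f.comp (s.comp (f.comp f))) (Arith.u1.comp c))).of_eq
      fun q => by simp
  exact cbex L (cand (ceq (vl_c (Arith.u1.comp (f.comp f)) (L.comp f) (Computable.encode.comp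
    ((o.comp s).pair ((f.comp (s.comp (s.comp f))).pair (s.comp (s.comp (s.comp f)))))))
    (Computable.const 0)).not (call (o.comp s) (cand (cle s (L.comp (f.comp f)))
      (cimp (ceq s (Computable.const 0)).not (cle d (Arith.u2.comp c))))))

lemma getD_le (l : List ℕ) (n : ℕ) {a b : ℕ} (h : a ≤ b) : l.getD n a ≤ l.getD n b := by
  by_cases k : n < l.length <;> simp [k, h]

lemma VV_mono : Mono VV := by
  rintro i a b s t x y l h ⟨c, c1, c2, c3⟩
  simp only [pre_len] at c1 c2 c3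
  refine ⟨c, by simp; omega, by simp only [pre_len]; rwa [vl_mono c2 l], fun d hd => ?_⟩
  obtain ⟨u, v⟩ := c3 d hd
  refine ⟨by simp; omega, fun k => le_trans (getD_le _ _ ?_) (v k)⟩
  have := Nat.unpair_left_le (d - 1)
  rw [pre_get _ (by omega), pre_get _ (by omega)]
  exact h _ (by omega)

/-- The `e`-th operator outputs `y` at `x` on the upper graph of `b`. -/
def Ax (e : ℕ) (b : ℕ → ℕ) (x y : ℕ) : Prop :=
  ∃ τ : List ℕ, Encodable.encode (τ, x, y) ∈ CeAlg.W e ∧
    ∀ c ∈ τ, c ≠ 0 → b (c - 1).unpair.1 ≤ (c - 1).unpair.2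

lemma pre_getD (b : ℕ → ℕ) (k n d : ℕ) : (pre b k).getD n d = if n < k then b n else d := by
  by_cases h : n < k <;> simp [pre, h]

lemma v1 {e k s x y : ℕ} {b c h : ℕ → ℕ}
    (H : VV (Nat.pair e (Encodable.encode (pre b k)), pre c s, x, y))
    (l : ∀ n < s, h n ≤ if n < k then b n else c n) : Ax e h x y := by
  obtain ⟨a, -, a2, a3⟩ := H
  simp only [pre_len, Nat.unpair_pair, Denumerable.ofNat_encode, pre_getD] at a2 a3
  obtain ⟨v, w, -⟩ := vl_ne a2
  refine ⟨_, Part.dom_iff_mem.2 ⟨v, evaln_sound w⟩, fun d hd z => ?_⟩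
  obtain ⟨u, v⟩ := a3 d hd
  have := Nat.unpair_left_le (d - 1)
  have m : (d - 1).unpair.1 < s := by omega
  exact (l _ m).trans (by simpa [m] using v z)

lemma v2 {e k x y : ℕ} {b c h : ℕ → ℕ} (H : Ax e h x y)
    (l : ∀ n, (if n < k then b n else c n) ≤ h n) :
    ∃ s, VV (Nat.pair e (Encodable.encode (pre b k)), pre c s, x, y) := by
  obtain ⟨τ, a, d⟩ := H
  obtain ⟨v, w⟩ := Part.dom_iff_mem.1 a
  obtain ⟨s, w⟩ := evaln_complete.1 w
  refine ⟨s + Encodable.encode τ + τ.sum + 1, Encodable.encode τ, by simp; omega, ?_, ?_⟩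
  · simp only [pre_len, Nat.unpair_pair, Denumerable.ofNat_encode]
    rw [vl_of (evaln_mono (by omega) w)]
    omega
  · simp only [pre_len, Nat.unpair_pair, Denumerable.ofNat_encode, pre_getD]
    intro z hz
    have := List.single_le_sum (fun _ _ => Nat.zero_le _) _ hz
    have := Nat.unpair_left_le (z - 1)
    refine ⟨by omega, fun m => le_trans ?_ (d z hz m)⟩
    rw [if_pos (show (z - 1).unpair.1 < s + Encodable.encode τ + τ.sum + 1 by omega)]
    exact l _

lemma force (e : ℕ) (p : (ℕ → ℕ) × ℕ) : ∃ q : (ℕ → ℕ) × ℕ, (∀ n, gi VV n ≤ p.1 n) →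
    (∀ n, gi VV n ≤ q.1 n) ∧ p.2 < q.2 ∧ (∀ n < p.2, q.1 n = p.1 n) ∧
    ∀ h : ℕ → ℕ, (∀ n, gi VV n ≤ h n) → (∀ n < q.2, h n = q.1 n) →
      ∀ y : ℕ → ℕ, (∀ x v, Ax e h x v ↔ v = y x) → Computable y := by
  obtain ⟨b, k⟩ := p
  by_cases hc : ∀ t, ¬ conf VV (Nat.pair e (Encodable.encode (pre b k))) (pre (gi VV) t)
  swap
  · push Not at hc
    obtain ⟨t, x, -, y, -, z, -, a, u, v⟩ := hc
    refine ⟨(fun n => if n < k then b n else gi VV n, k + t + 1), fun hb => ⟨fun n => ?_,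
      by simp only; omega, fun n hn => if_pos hn, fun h _ h2 w hw => (a ?_).elim⟩⟩
    · simp only
      split_ifs
      exacts [hb n, le_rfl]
    · have l := fun n (hn : n < t) => (h2 n (by simp only; omega)).le
      exact ((hw _ _).1 (v1 u l)).trans ((hw _ _).1 (v1 v l)).symm
  by_cases ht : ∀ (c : ℕ → ℕ) t, (∀ n, gi VV n ≤ c n) → (∀ n > t, c n = gi VV n) →
    ∀ x, ∃ s, ∃ y, VV (Nat.pair e (Encodable.encode (pre b k)), pre c s, x, y)
  · obtain ⟨f, f1, f2⟩ := reqQ VV_c VV_mono _ hc ht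
    refine ⟨(b, k + 1), fun hb => ⟨hb, by simp, fun _ _ => rfl, fun h h1 h2 w hw =>
      f1.of_eq fun x => ?_⟩⟩
    obtain ⟨s, hs⟩ := v2 (k := k) (b := b) (c := gi VV) ((hw x _).2 rfl) fun n => by
      split_ifs with m
      exacts [(h2 n (by simp only; omega)).ge, h1 n]
    exact (f2 _ _ _ hs).symm
  · push Not at ht
    obtain ⟨c, t, c1, c2, x, c3⟩ := ht
    refine ⟨(fun n => if n < k then b n else c n, k + t + 1), fun hb => ⟨fun n => ?_,
      by simp only; omega, fun n hn => if_pos hn, fun h h1 h2 w hw => ?_⟩⟩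
    · simp only
      split_ifs
      exacts [hb n, c1 n]
    · obtain ⟨s, hs⟩ := v2 (k := k) (b := b) (c := c) ((hw x _).2 rfl) fun n => by
        by_cases m : n < k + t + 1
        · exact (h2 n m).ge
        · rw [if_neg (by omega), c2 n (by omega)]
          exact h1 n
      exact (c3 s _ hs).elim

theorem main : ∃ (g : ℕ → ℕ → ℕ) (h : ℕ → ℕ), Computable₂ g ∧ (∀ n, g 0 n = 0) ∧
    (∀ s n, g s n ≤ h n) ∧ (∀ f : ℕ → ℕ, Computable f → ∃ s n, f n < g s n) ∧
    ∀ e (y : ℕ → ℕ), (∀ x v, Ax e h x v ↔ v = y x) → Computable y := by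
  choose F hF using force
  let p : ℕ → (ℕ → ℕ) × ℕ := fun e => Nat.rec (gi VV, 0) F e
  have ps : ∀ e, p (e + 1) = F e (p e) := fun _ => rfl
  have p1 : ∀ e n, gi VV n ≤ (p e).1 n := fun e => by
    induction e with
    | zero => exact fun _ => le_rfl
    | succ e ih => exact (hF e _ ih).1
  have p2 : ∀ e, (p e).2 < (p (e + 1)).2 := fun e => (hF e _ (p1 e)).2.1
  have p3 : StrictMono fun e => (p e).2 := strictMono_nat_of_lt_succ p2
  have p4 : ∀ e d, e ≤ d → ∀ n < (p e).2, (p d).1 n = (p e).1 n := fun e d l n hn => by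
    induction d, l using Nat.le_induction with
    | base => rfl
    | succ d l ih => rw [← ih]; exact (hF d _ (p1 d)).2.2.1 n (hn.trans_le (p3.monotone l))
  refine ⟨g VV, fun n => (p (n + 1)).1 n, (gc_c ((H_c VV_c).comp Computable.fst)
    Computable.snd).to₂, g_zero VV, fun s n => (le_gi VV s n).trans (p1 (n + 1) n), fun f hf => ?_,
    fun e => (hF e _ (p1 e)).2.2.2 _ (fun n => p1 (n + 1) n) fun n hn => ?_⟩
  · obtain ⟨n, hn⟩ := reqN VV_mono hf
    obtain ⟨s, hs⟩ := gi_at VV n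
    exact ⟨s, n, hs ▸ hn⟩
  · rw [← ps] at hn ⊢
    rw [← p4 (e + 1) (e + n + 1) (by omega) n hn,
      p4 (n + 1) (e + n + 1) (by omega) n (p3.le_apply (x := n + 1))]

end Pool.Agent.Lib.H8.Qm
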