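import Pool.Agent.Lib.H8.Gen

/-!
Elementary matrices over a sequence of finite rings, and their word problem.
-/

namespace Pool.Agent.Lib.H8.RF

open Arith CList Qm Kc Gen
open Equiv hiding Computable

section
variable {I R : Type} [DecidableEq I] [CommRing R]

/-- An elementary transformation. -/
def El (p q : I) (c : R) : Perm (I → R) where
  toFun v i := v i + if i = p ∧ p ≠ q then c * v q else 0
  invFun v i := v i - if i = p ∧ p ≠ q then c * v q else 0
  left_inv v := funext fun i => by by_cases h : p = q <;> simp [h, eq_comm (a := q)]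
  right_inv v := funext fun i => by by_cases h : p = q <;> simp [h, eq_comm (a := q)]

lemma el_ap (p q : I) (c : R) (v i) : El p q c v i = v i + if i = p ∧ p ≠ q then c * v q else 0 :=
  rfl

lemma el_inv (p q : I) (c : R) (v i) :
    (El p q c)⁻¹ v i = v i - if i = p ∧ p ≠ q then c * v q else 0 := rfl

lemma el_pow (p q : I) (n : ℕ) : El p q (1 : R) ^ n = El p q (n : R) := by
  induction n with
  | zero => ext v i; simp [el_ap]
  | succ n ih =>
    rw [pow_succ, ih]
    ext v i
    by_cases h : p = q <;> by_cases k : i = p <;>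
      simp [el_ap, h, k, eq_comm (a := q), add_mul, add_assoc, add_comm]

lemma el_comm {p q p' q' : I} (h : q ≠ p') (h' : q' ≠ p) :
    El p q (1 : R) * El p' q' 1 * (El p q 1)⁻¹ * (El p' q' 1)⁻¹ = 1 := by
  rw [mul_inv_eq_one, mul_inv_eq_iff_eq_mul]
  ext v i
  simp [el_ap, h, h', add_right_comm]

lemma el_three {p q r : I} (a : p ≠ q) (b : q ≠ r) (c : p ≠ r) :
    El p q (1 : R) * El q r 1 * (El p q 1)⁻¹ * (El q r 1)⁻¹ = El p r 1 := by
  rw [mul_inv_eq_iff_eq_mul, mul_inv_eq_iff_eq_mul]
  ext v i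
  by_cases k : i = p <;> simp [el_ap, a, b, c, b.symm, c.symm, k, add_comm, add_left_comm]

variable {N : ℕ}

/-- The shift. -/
def Sh : Perm (ZMod N → R) where
  toFun v i := v (i + 1)
  invFun v i := v (i - 1)
  left_inv v := by simp
  right_inv v := by simp

lemma sh_ap (v : ZMod N → R) (i) : Sh v i = v (i + 1) := rfl

lemma sh_inv (v : ZMod N → R) (i) : Sh⁻¹ v i = v (i - 1) := rfl

lemma sh_pow (k : ℕ) (v : ZMod N → R) : (Sh ^ k) v = fun i => v (i + k) := by
  induction k generalizing v with
  | zero => simp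
  | succ k ih => simp [pow_succ, ih, sh_ap, add_assoc]

lemma sh_el (k : ℕ) (x : ZMod N) :
    Sh ^ k * El 0 x (1 : R) * (Sh ^ k)⁻¹ = El (-k : ZMod N) (x - k) 1 := by
  rw [mul_inv_eq_iff_eq_mul]
  ext v i
  simp [sh_pow, el_ap, eq_neg_iff_add_eq_zero, eq_sub_iff_add_eq]

/-- The representation on two letters. -/
def rho (N x : ℕ) (R : Type) [CommRing R] : FreeGroup (Fin 2) →* Perm (ZMod N → R) :=
  FreeGroup.lift fun i => if i = 0 then El 0 x 1 else Sh

/-- A signed sum of coordinates. -/
def val (v : ZMod N → R) (S : List (Bool × ℕ)) : R :=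
  (S.map fun z => if z.1 = true then v z.2 else - v z.2).sum

/-- Pull a signed sum back along one letter. -/
def st (N x : ℕ) (S : List (Bool × ℕ)) (g : Fin 2 × Bool) : List (Bool × ℕ) :=
  S.flatMap fun z => if g.1 = 0 then (if z.2 % N = 0 then [z, (decide (z.1 = g.2), x)] else [z])
    else [(z.1, if g.2 = true then z.2 + 1 else z.2 + (N - 1))]

lemma val_st {x : ℕ} (h : 0 < N) (hx : (0 : ZMod N) ≠ x) (g v S) :
    val (rho N x R (.mk [g]) v) S = val v (st N x S g) := by
  induction S with
  | nil => rfl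
  | cons z S ih =>
    simp only [val, st, List.map_cons, List.sum_cons, List.flatMap_cons, List.map_append,
      List.sum_append] at ih ⊢
    rw [ih]
    congr 1
    obtain ⟨b, i⟩ := z
    obtain ⟨g, c⟩ := g
    have e : (i : ZMod N) = 0 ↔ i % N = 0 := by
      rw [ZMod.natCast_eq_zero_iff, Nat.dvd_iff_mod_eq_zero]
    by_cases a : i % N = 0 <;> fin_cases g <;> cases b <;> cases c <;>
      simp [rho, el_ap, el_inv, e, a, hx, sh_ap, sh_inv, h, sub_eq_add_neg, add_comm,
        -Perm.coe_inv]

lemma val_fold {x : ℕ} (h : 0 < N) (hx : (0 : ZMod N) ≠ x) (w v S) :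
    val (rho N x R (.mk w) v) S = val v (w.foldl (st N x) S) := by
  induction w generalizing S with
  | nil => simp [← FreeGroup.one_eq_mk]
  | cons g w ih =>
    rw [← List.singleton_append, ← FreeGroup.mul_mk, map_mul, Perm.mul_apply, val_st h hx, ih]
    rfl

/-- The number of terms with a given sign and place. -/
def ct (N r : ℕ) (b : Bool) (S : List (Bool × ℕ)) : ℕ :=
  (S.filter fun z => z.1 = b ∧ z.2 % N = r % N).length

lemma val_one (r : ℕ) (S) :
    val (Pi.single (r : ZMod N) (1 : R)) S = ct N r true S - ct N r false S := by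
  induction S with
  | nil => simp [val, ct]
  | cons z S ih =>
    obtain ⟨b, i⟩ := z
    simp only [val, ct, List.map_cons, List.sum_cons] at ih ⊢
    rw [ih]
    by_cases a : i % N = r % N <;> cases b <;>
      simp [Pi.single_apply, ZMod.natCast_eq_natCast_iff', a] <;> ring

lemma val_lin [NeZero N] (v : ZMod N → R) (S) :
    val v S = ∑ r, v r * val (Pi.single r 1) S := by
  induction S with
  | nil => simp [val]
  | cons z S ih =>
    simp only [val, List.map_cons, List.sum_cons, mul_add, Finset.sum_add_distrib] at ih ⊢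
    rw [ih]
    cases z.1 <;> simp [Pi.single_apply]

lemma triv [NeZero N] {x m : ℕ} (hx : (0 : ZMod N) ≠ x) (w) : rho N x (ZMod m) (.mk w) = 1 ↔
    ∀ i r, ct N r true ((false, i) :: w.foldl (st N x) [(true, i)]) % m =
      ct N r false ((false, i) :: w.foldl (st N x) [(true, i)]) % m := by
  have e : ∀ (i : ℕ) v, val v ((false, i) :: w.foldl (st N x) [(true, i)]) =
      -v i + rho N x (ZMod m) (.mk w) v i := fun i v => by
    have := val_fold (NeZero.pos N) hx w v [(true, i)]
    simp only [val, List.map_cons, List.sum_cons] at this ⊢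
    simp [← this]
  have f : ∀ r S, ct N r true S % m = ct N r false S % m ↔
      val (Pi.single (r : ZMod N) (1 : ZMod m)) S = 0 := fun r S => by
    rw [val_one, sub_eq_zero, ZMod.natCast_eq_natCast_iff']
  simp only [f]
  refine ⟨fun h i r => by simp [e, h], fun h => Perm.ext fun v => funext fun i => ?_⟩
  obtain ⟨i, rfl⟩ := ZMod.natCast_zmod_surjective i
  have := e i v
  rw [val_lin, Finset.sum_eq_zero fun r _ => ?_] at this
  · exact (neg_add_eq_zero.1 this.symm).symm
  obtain ⟨r, rfl⟩ := ZMod.natCast_zmod_surjective r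
  rw [h, mul_zero]

end

/-- The test words. -/
def z (e : ℕ) : FreeGroup (Fin 2) :=
  .of 1 ^ 3 ^ e * .of 0 * (.of 1 ^ 3 ^ e)⁻¹ * .of 0 * (.of 1 ^ 3 ^ e * .of 0 * (.of 1 ^ 3 ^ e)⁻¹)⁻¹ *
    (.of 0)⁻¹

lemma nz {j a : ℕ} (h : 0 < a) (k : a < 3 ^ (j + 1)) : (0 : ZMod (3 ^ (j + 1))) ≠ a := fun e =>
  (Nat.le_of_dvd h ((ZMod.natCast_eq_zero_iff _ _).1 e.symm)).not_gt k

lemma nz' (j : ℕ) : (0 : ZMod (3 ^ (j + 1))) ≠ (3 ^ j : ℕ) :=
  nz (by positivity) (Nat.pow_lt_pow_right (by simp) (by simp))

lemma rho_z (R : Type) [CommRing R] (j e : ℕ) : rho (3 ^ (j + 1)) (3 ^ j) R (z e) =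
    if e = j then El (-((3 ^ j : ℕ) : ZMod (3 ^ (j + 1)))) (3 ^ j : ℕ) 1 else 1 := by
  simp only [z, rho, map_mul, map_inv, map_pow, FreeGroup.lift_apply_of, if_pos, one_ne_zero,
    if_false, sh_el]
  have p : 0 < 3 ^ j := by positivity
  have q : 0 < 3 ^ e := by positivity
  split_ifs with h
  · subst h
    rw [sub_self]
    refine el_three (neg_ne_zero.2 (nz' e).symm) (nz' e) fun h => nz (j := e) (a := 3 ^ e + 3 ^ e)
      (by omega) (by rw [pow_succ]; omega) ?_
    rw [Nat.cast_add, ← neg_eq_iff_add_eq_zero.1 h]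
  rcases Nat.lt_or_gt_of_ne h with h | h
  · have := Nat.pow_lt_pow_right (show 1 < 3 by simp) h
    refine el_comm (fun k => nz (j := j) (a := 3 ^ j - 3 ^ e) (by omega) (by rw [pow_succ]; omega) ?_)
      fun k => nz (j := j) (a := 3 ^ j + 3 ^ e) (by omega) (by rw [pow_succ]; omega) ?_
    · rw [Nat.cast_sub this.le, k]
    · rw [Nat.cast_add, k, neg_add_cancel]
  · rw [(ZMod.natCast_eq_zero_iff _ _).2 (pow_dvd_pow 3 h), neg_zero, sub_zero]
    simp

variable {α : Type} [Primcodable α]

lemma fold_p : Primrec fun q : (ℕ × ℕ) × List (Fin 2 × Bool) × List (Bool × ℕ) =>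
    q.2.1.foldl (st q.1.1 q.1.2) q.2.2 := by
  open Primrec in
  refine list_foldl (fst.comp snd) (snd.comp snd) (list_flatMap (fst.comp snd) (Primrec.ite
    (Primrec.eq.comp (fst.comp (snd.comp (snd.comp fst))) (const 0))
    (Primrec.ite (Primrec.eq.comp (nat_mod.comp (snd.comp snd) (fst.comp (fst.comp (fst.comp fst))))
      (const 0)) (list_cons.comp snd (list_cons.comp (((Primrec.eq (α := Bool)).decide.comp
        (fst.comp snd) (snd.comp (snd.comp (snd.comp fst)))).pair
          (snd.comp (fst.comp (fst.comp fst)))) (const []))) (list_cons.comp snd (const [])))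
    (list_cons.comp ((fst.comp snd).pair (Primrec.ite (Primrec.eq.comp (snd.comp (snd.comp (snd.comp fst)))
      (const true)) (succ.comp (snd.comp snd)) (nat_add.comp (snd.comp snd) (nat_sub.comp
        (fst.comp (fst.comp (fst.comp fst))) (const 1))))) (const []))).to₂).to₂

lemma ct_c {N r : α → ℕ} {S : α → List (Bool × ℕ)} (b : Bool) (hN : Computable N)
    (hr : Computable r) (hS : Computable S) : Computable fun a => ct (N a) (r a) b (S a) :=
  have m := Primrec.nat_mod.to_comp
  Computable.list_length.comp (cfilter hS (cand (ceq (Computable.fst.comp Computable.snd)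
    (Computable.const b)) (ceq (m.comp (Computable.snd.comp Computable.snd)
      (hN.comp Computable.fst)) (m.comp (hr.comp Computable.fst) (hN.comp Computable.fst)))))

lemma p3 : Computable fun n : ℕ => 3 ^ n :=
  (Primrec₂.unpaired'.1 Nat.Primrec.pow).to_comp.comp (Computable.const 3) Computable.id

lemma itc {σ : Perm ℕ} {k x : α → ℕ} (h : Computable ⇑σ) (hk : Computable k) (hx : Computable x) :
    Computable fun a => (σ ^ k a) (x a) :=
  (Computable.nat_rec hk hx (h.comp (Computable.snd.comp Computable.snd)).to₂).of_eq fun a => by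
    induction k a with
    | zero => rfl
    | succ n ih => simp [pow_succ', ih]

lemma z_c {f : FreeGroup (Fin 2) →* Perm ℕ} (h : ∀ g, Computable ⇑(f g)) :
    Computable fun q : ℕ × ℕ => f (z q.1) q.2 := by
  have k := p3.comp (Computable.fst (β := ℕ))
  have a := h (.of 0)
  have b := h (.of 0)⁻¹
  have c := h (.of 1)
  have d := h (.of 1)⁻¹
  exact (itc c k (a.comp (itc d k (a.comp (itc c k (b.comp (itc d k
    (b.comp Computable.snd)))))))).of_eq fun q => by simp [z, mul_assoc, -Perm.coe_inv]

end Pool.Agent.Lib.H8.RF
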