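import Pool.Agent.Lib.H8.Rnd1

/-!
A game showing that expectation-bounded and probability-bounded tests order sequences differently.
-/

namespace Pool.Agent.Lib.H8.Rnd

open MeasureTheory ProbabilityTheory ENNReal Arith CList Qm Classical

lemma mem_cyl {ω p : ℕ → Bool} {k : ℕ} : ω ∈ cyl (pr p k) ↔ ∀ i < k, ω i = p i := by
  simp [cyl, pr_eq]

/-- Sequences starting with exactly `n` zeros. -/
def B (n : ℕ) : Set (ℕ → Bool) := cyl (pr (2 ^ n).testBit (n + 1))

lemma mu_B (n : ℕ) : mu (B n) = 2⁻¹ ^ (n + 1) := by rw [B, mu_cyl, pr_len]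

lemma B_disj {n m : ℕ} (h : n ≠ m) : Disjoint (B n) (B m) := by
  wlog l : n < m
  · exact (this h.symm (by omega)).symm
  refine Set.disjoint_left.2 fun ω a b => ?_
  have := (mem_cyl.1 a n (by omega)).symm.trans (mem_cyl.1 b n (by omega))
  simp [h.symm] at this

lemma B_eo : EO B :=
  EO.cyl (bits_c pow_c Computable.succ)

lemma pw (x : ℕ) : (2 : ℝ≥0∞) ^ x * 2⁻¹ ^ x = 1 := by
  rw [← mul_pow, ENNReal.mul_inv_cancel (by simp) (by simp), one_pow]

lemma geo (r : ℕ) : ∑' i, (if i < r then (2 : ℝ≥0∞) ^ i else 0) ≤ 2 ^ r := by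
  rw [tsum_eq_sum (s := Finset.range r) fun i hi => if_neg (by simpa using hi),
    Finset.sum_congr rfl fun i hi => if_pos (Finset.mem_range.1 hi)]
  induction r with
  | zero => simp
  | succ r ih => rw [Finset.sum_range_succ, pow_succ, mul_two]; gcongr

lemma sum_B (t : (ℕ → Bool) → ℝ≥0∞) (r : ℕ) :
    ∑' m, ∫⁻ ω in B (m + r), t ω ∂mu ≤ ∫⁻ ω, t ω ∂mu := by
  rw [← lintegral_iUnion (fun m => B_eo.meas _) fun m n h => B_disj (by omega)]
  exact setLIntegral_le_lintegral _ _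

lemma pay {t : (ℕ → Bool) → ℝ≥0∞} (ht : LSC t) (S : Set (ℕ → Bool)) (k : ℕ) :
    2 ^ k * mu (S ∩ {ω | 2 ^ k < t ω}) ≤ ∫⁻ ω in S, t ω ∂mu := by
  refine le_trans ?_ (mul_meas_ge_le_lintegral (μ := mu.restrict S) ht.meas (2 ^ k))
  rw [Measure.restrict_apply (measurableSet_le measurable_const ht.meas)]
  refine mul_le_mul_right (measure_mono fun ω h => ?_) _
  exact ⟨(le_of_lt h.2 : _ ≤ t ω), h.1⟩

lemma half_lt (n : ℕ) : ((1 : ℕ) : ℝ≥0∞) * 2⁻¹ ^ (n + 1) < 2⁻¹ ^ n := by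
  have := (dy_lt 1 1 (n + 1) n).2 (by rw [pow_succ]; have := Nat.two_pow_pos n; omega)
  simpa using this

theorem game {tE tP : (ℕ → Bool) → ℝ≥0∞} (hE : LSC tE) (hI : ∫⁻ ω, tE ω ∂mu < ∞) (hP : LSC tP)
    (hj : ∀ j : ℕ, mu {ω | 2 ^ j < tP ω} ≤ 2⁻¹ ^ j) {R : (ℕ → Bool) → Prop} (hR : ∀ᵐ ω ∂mu, R ω)
    {a c : ℕ} (ha : ∀ n, ∀ ω ∈ B n, (2 : ℝ≥0∞) ^ n ≤ 2 ^ a * tP ω)
    (hU : ∀ f, LSC f → ∫⁻ ω, f ω ∂mu < ∞ → ∃ d : ℕ, ∀ ω, f ω ≤ 2 ^ d * tE ω) :
    ∃ ω₁ ω₂, R ω₁ ∧ R ω₂ ∧ 2 ^ c * tE ω₂ ≤ tE ω₁ ∧ 2 ^ c * tP ω₁ ≤ tP ω₂ := by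
  by_contra! H
  have f := @Computable.fst
  have s := @Computable.snd
  have ad := Primrec.nat_add.to_comp
  let L : ℕ → ℕ := fun d => 2 ^ (d + d + 2)
  let A : ℕ × ℕ × ℕ → Set (ℕ → Bool) := fun q =>
    cyl (pr q.2.2.testBit (q.2.1 + L q.1 + (q.1 + q.1)))
  have hL : Computable L := pow_c.comp (ad.comp (ad.comp .id .id) (Computable.const 2))
  have cj : Computable fun q : ℕ × ℕ × ℕ => q.2.1 + L q.1 := ad.comp (f.comp s) (hL.comp f)
  have cn : Computable fun q : ℕ × ℕ × ℕ => q.2.1 + L q.1 + (a + c) :=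
    ad.comp cj (Computable.const _)
  have ck : Computable fun q : ℕ × ℕ × ℕ => q.2.1 + (a + c) + q.2.2 :=
    ad.comp (ad.comp (f.comp s) (Computable.const _)) (s.comp s)
  have cl : Computable fun q : ℕ × ℕ × ℕ => q.2.1 + L q.1 + (q.1 + q.1) :=
    ad.comp cj (ad.comp f f)
  have hA : EO A := EO.cyl (bits_c (s.comp s) cl)
  obtain ⟨Ra, Co, r1, c1, r2, c2, dj, cv⟩ := reduce
    (((B_eo.comp cn).inter (hE.eo.comp ck)).lt_mu (Computable.const 1)
      (Computable.succ.comp (Computable.succ.comp cn)))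
    ((hA.inter (hP.eo.comp cj)).lt_mu (Computable.const 1) (Computable.succ.comp cl))
  let Dn : ℕ × ℕ → Prop := fun q => ∃ i, i < L q.1 ∧ Ra (q.1, q.2, i) ∧ ∀ j < i, Co (q.1, q.2, j)
  let Re : ℕ × ℕ × ℕ → Prop := fun q =>
    q.2.2 < L q.1 ∧ (∀ m < q.2.1, Dn (q.1, m)) ∧ ∀ j < q.2.2, Co (q.1, q.2.1, j)
  have hD : Sig 1 _ Dn := Sig.ex (A := fun q : (ℕ × ℕ) × ℕ => q.2 < L q.1.1 ∧
    Ra (q.1.1, q.1.2, q.2) ∧ ∀ j < q.2, Co (q.1.1, q.1.2, j))
    ((CeAlg.cs (clt s (hL.comp (f.comp f)))).and ((r1.comp ((f.comp f).pair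
      ((s.comp f).pair s))).and (Sig.ball (A := fun q : ((ℕ × ℕ) × ℕ) × ℕ =>
        Co (q.1.1.1, q.1.1.2, q.2)) (c1.comp ((f.comp (f.comp f)).pair
          ((s.comp (f.comp f)).pair s))) s)))
  have hRe : Sig 1 _ Re := (CeAlg.cs (clt (s.comp s) (hL.comp f))).and
    ((Sig.ball (A := fun q : (ℕ × ℕ × ℕ) × ℕ => Dn (q.1.1, q.2))
      (hD.comp ((f.comp f).pair s)) (f.comp s)).and
    (Sig.ball (A := fun q : (ℕ × ℕ × ℕ) × ℕ => Co (q.1.1, q.1.2.1, q.2))
      (c1.comp ((f.comp f).pair ((f.comp (s.comp f)).pair s))) (s.comp s)))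
  have hX := (EO.sig hRe).inter hA
  have ct : Computable fun q : ℕ × ℕ × ℕ => 2 ^ (q.2.1 + (a + c) + q.2.2 + c + q.1) :=
    pow_c.comp (ad.comp (ad.comp ck (Computable.const c)) f)
  have py : ∀ d m i, Ra (d, m, i) → (2 : ℝ≥0∞) ^ (i + 1) * 2⁻¹ ^ L d ≤
      8 * ∫⁻ ω in B (m + (L d + (a + c))), tE ω ∂mu := fun d m i h => by
    have h1 := (r2 _ h).le
    simp only [Nat.cast_one, one_mul, Nat.succ_eq_add_one] at h1
    rw [← add_assoc]
    calc (2 : ℝ≥0∞) ^ (i + 1) * 2⁻¹ ^ L d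
        = 2 ^ 3 * (2 ^ (m + (a + c) + i) * 2⁻¹ ^ (m + L d + (a + c) + 1 + 1)) := by
          rw [← mul_one (_ * _), ← pw (m + (a + c) + 2)]; ring
      _ ≤ _ := by
          rw [show (2 : ℝ≥0∞) ^ 3 = 8 by norm_num]
          gcongr
          exact le_trans (by gcongr) (pay hE _ _)
  have bd : ∀ d, ∑' m, ∑' i, (if Re (d, m, i) then (2 : ℝ≥0∞) ^ i * 2⁻¹ ^ L d else 0) ≤
      8 * ∫⁻ ω, tE ω ∂mu + 1 := fun d => by
    obtain ⟨z, hz⟩ : ∃ z, ∀ m, ¬ Dn (d, m) → (∀ m' < m, Dn (d, m')) → m = z := by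
      by_cases k : ∃ m, ¬ Dn (d, m)
      · refine ⟨Nat.find k, fun m u v => ((Nat.find_eq_iff k).2 ⟨u, fun n hn => ?_⟩).symm⟩
        simpa using v n hn
      · exact ⟨0, fun m u => (k ⟨m, u⟩).elim⟩
    have g : ∀ m r, (∀ i, Re (d, m, i) → i < r) →
        ∑' i, (if Re (d, m, i) then (2 : ℝ≥0∞) ^ i * 2⁻¹ ^ L d else 0) ≤ 2 ^ r * 2⁻¹ ^ L d :=
      fun m r h => by
        refine le_trans ?_ (mul_le_mul_left (geo r) _)
        rw [← ENNReal.tsum_mul_right]
        refine ENNReal.tsum_le_tsum fun i => ?_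
        split_ifs with u v
        exacts [le_rfl, (v (h i u)).elim, zero_le, zero_le]
    calc _ ≤ ∑' m, (8 * ∫⁻ ω in B (m + (L d + (a + c))), tE ω ∂mu + if m = z then 1 else 0) := by
          refine ENNReal.tsum_le_tsum fun m => ?_
          by_cases k : Dn (d, m)
          · obtain ⟨i, -, u, -⟩ := k
            refine le_add_right ((g m (i + 1) fun j hj => ?_).trans (py d m i u))
            by_contra l
            exact dj _ u (hj.2.2 i (by simp only; omega))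
          · by_cases l : ∀ m' < m, Dn (d, m')
            · rw [if_pos (hz m k l)]
              exact le_add_left ((g m (L d) fun j hj => hj.1).trans (pw _).le)
            · simp [show ∀ i, ¬ Re (d, m, i) from fun i h => l h.2.1]
      _ ≤ _ := by
          rw [ENNReal.tsum_add, ENNReal.tsum_mul_left, tsum_ite_eq]
          gcongr
          exact sum_B _ _
  obtain ⟨d, hd⟩ := hU _ (hX.lsc ct) ((int_sup hX.meas _).trans_lt (by
    calc _ ≤ ∑' q : ℕ × ℕ × ℕ, 2 ^ (a + c + c) * (2⁻¹ ^ q.1 *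
            if Re (q.1, q.2.1, q.2.2) then (2 : ℝ≥0∞) ^ q.2.2 * 2⁻¹ ^ L q.1 else 0) := by
          refine ENNReal.tsum_le_tsum fun q => ?_
          split_ifs with h
          · refine (mul_le_mul_right (measure_mono Set.inter_subset_right) _).trans (le_of_eq ?_)
            rw [mu_cyl, pr_len, ← mul_one (_ * (_ * _)), ← pw (q.2.1 + q.1)]
            push_cast
            ring
          · simp [show ¬ Re q from h]
      _ ≤ 2 ^ (a + c + c) * ((∑' d : ℕ, 2⁻¹ ^ d) * (8 * ∫⁻ ω, tE ω ∂mu + 1)) := by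
          rw [ENNReal.tsum_mul_left, ENNReal.tsum_prod', ← ENNReal.tsum_mul_right]
          gcongr with d
          simp only
          rw [ENNReal.tsum_mul_left, ENNReal.tsum_prod']
          gcongr
          exact bd d
      _ < ∞ := by
          rw [ENNReal.tsum_geometric, ENNReal.one_sub_inv_two, inv_inv]
          exact ENNReal.mul_lt_top (by simp) (ENNReal.mul_lt_top (by simp)
            (ENNReal.add_lt_top.2 ⟨ENNReal.mul_lt_top (by simp) hI, by simp⟩))))
  have st : ∀ m i, Re (d, m, i) → Ra (d, m, i) ∨ Co (d, m, i) := fun m i h => cv _ (by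
    refine or_iff_not_imp_left.2 fun k => ?_
    simp only [not_lt, Nat.succ_eq_add_one] at k ⊢
    obtain ⟨ω₂, ⟨u, v⟩, w⟩ : ∃ ω ∈ B (m + L d + (a + c)) \ {ω | 2 ^ (m + (a + c) + i) < tE ω},
        R ω := by
      refine Measure.exists_mem_of_measure_ne_zero_of_ae (fun z => ?_) (ae_restrict_of_ae hR)
      have := measure_inter_add_sdiff (μ := mu) (B (m + L d + (a + c))) (hE.eo.meas
        (m + (a + c) + i))
      rw [z, add_zero, mu_B] at this
      exact (k.trans_lt (half_lt _)).ne this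
    have v : tE ω₂ ≤ 2 ^ (m + (a + c) + i) := not_lt.1 v
    have e : mu (A (d, m, i)) ≤ mu (A (d, m, i) ∩ {ω | 2 ^ (m + L d) < tP ω}) := by
      refine measure_mono_ae (hR.mono fun ω₁ r x => ⟨x, ?_⟩)
      have x' : ω₁ ∈ {_ω | Re (d, m, i)} ∩ A (d, m, i) := ⟨h, x⟩
      have y : ((2 ^ (m + (a + c) + i + c + d) : ℕ) : ℝ≥0∞) ≤ 2 ^ d * tE ω₁ :=
        (le_iSup_of_le (d, m, i) (by rw [Set.indicator_of_mem x'])).trans (hd ω₁)
      push_cast at y
      rw [pow_add, mul_comm, ENNReal.mul_le_mul_iff_right (by simp) (by simp)] at y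
      have y2 := H ω₁ ω₂ r w (le_trans (by rw [pow_add, mul_comm]; gcongr) y)
      have y3 := ha _ _ u
      rw [show m + L d + (a + c) = a + (c + (m + L d)) by ring, pow_add,
        ENNReal.mul_le_mul_iff_right (by simp) (by simp), pow_add] at y3
      exact (ENNReal.mul_lt_mul_iff_right (by simp) (by simp)).1 (y3.trans_lt y2)
    exact lt_of_lt_of_le (by rw [mu_cyl, pr_len]; exact half_lt _) e)
  have al : ∀ m, Dn (d, m) := fun m => by
    induction m using Nat.strong_induction_on with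
    | _ m ih =>
      by_contra k
      have co : ∀ i, i < L d → Co (d, m, i) := fun i => by
        induction i using Nat.strong_induction_on with
        | _ i ih' =>
          intro l
          have := fun j (hj : j < i) => ih' j hj (by omega)
          exact (st m i ⟨l, ih, this⟩).resolve_left fun u => k ⟨i, l, u, this⟩
      have h1 : mu (⋃ i ∈ Finset.range (L d), A (d, m, i) ∩ {ω | 2 ^ (m + L d) < tP ω}) ≤
          2⁻¹ ^ (m + L d) :=
        (measure_mono (Set.iUnion₂_subset fun _ _ => Set.inter_subset_right)).trans (hj _)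
      rw [measure_biUnion_finset ?_ fun i _ => (hA.meas _).inter (hP.eo.meas _)] at h1
      · have h2 := (Finset.card_nsmul_le_sum _ _
          (((1 : ℕ) : ℝ≥0∞) * 2⁻¹ ^ (m + L d + (d + d) + 1)) fun i hi =>
          (c2 _ (co i (Finset.mem_range.1 hi))).le).trans h1
        simp only [Finset.card_range, Nat.cast_one, one_mul, nsmul_eq_mul] at h2
        refine h2.not_gt ?_
        have := (dy_lt 1 (L d) (m + L d) (m + L d + (d + d) + 1)).2 (by
          have := Nat.two_pow_pos (m + L d + (d + d) + 1)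
          calc _ < 2 * 2 ^ (m + L d + (d + d) + 1) := by omega
            _ = _ := by simp only [L]; ring)
        simpa using this
      · intro u hu v hv h
        simp only [Finset.coe_range, Set.mem_Iio] at hu hv
        refine Set.disjoint_left.2 fun ω x y => h (Nat.eq_of_testBit_eq fun i => ?_)
        by_cases k : i < m + L d + (d + d)
        · exact (mem_cyl.1 x.1 i k).symm.trans (mem_cyl.1 y.1 i k)
        · have h3 : 2 ≤ L d := Nat.le_of_lt_succ (by
            have : 2 ^ 2 ≤ L d := Nat.pow_le_pow_right (by norm_num) (by omega)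
            omega)
          have : L d ≤ 2 ^ i := Nat.pow_le_pow_right (by norm_num) (by omega)
          rw [Nat.testBit_lt_two_pow (by omega), Nat.testBit_lt_two_pow (by omega)]
  have h1 : ∑' _ : ℕ, (2⁻¹ : ℝ≥0∞) ^ L d ≤ 8 * ∫⁻ ω, tE ω ∂mu := by
    refine le_trans ?_ (mul_le_mul_right (sum_B tE (L d + (a + c))) 8)
    rw [← ENNReal.tsum_mul_left]
    refine ENNReal.tsum_le_tsum fun m => ?_
    obtain ⟨i, -, u, -⟩ := al m
    exact (le_mul_of_one_le_left zero_le (one_le_pow₀ one_le_two)).trans (py d m i u)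
  rw [ENNReal.tsum_const_eq_top_of_ne_zero (by simp)] at h1
  exact h1.not_gt (ENNReal.mul_lt_top (by simp) hI)

end Pool.Agent.Lib.H8.Rnd
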