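import Pool.Agent.Lib.H8.Gen

/-!
Two codings of a sequence of parities, by even levels and by odd levels.
-/

namespace Pool.Agent.Lib.H8.SMin

open Arith CList Qm Kc Om Gen Function Classical

/-- The number `a` makes a true claim about the parities of `u` at level `a / 4`. -/
def T (u : ℕ → ℕ) (a : ℕ) : Prop :=
  (u (a / 4) + (if a % 4 < 2 ∨ a / 4 = 0 then 0 else u (a / 4 - 1)) + a) % 2 = 0

/-- The true claims at the levels of parity `c`. -/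
def S (c : ℕ) (u : ℕ → ℕ) : Set ℕ := {a | a / 4 % 2 = c ∧ T u a}

lemma T_ag {v w : ℕ → ℕ} {a : ℕ} (h : ∀ i < a / 4 + 1, w i = v i) : T w a ↔ T v a := by
  rw [T, T, h _ (by omega), h (a / 4 - 1) (by omega)]

/-- Change the parity at one place. -/
def fl (u : ℕ → ℕ) (n : ℕ) : ℕ → ℕ := update u n (u n + 1)

lemma fl_ne {u : ℕ → ℕ} {n i : ℕ} (h : i < n) : fl u n i = u i := update_of_ne h.ne _ _

lemma T_fl {u : ℕ → ℕ} {a : ℕ} : T (fl u (a / 4)) a ↔ ¬ T u a := by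
  have : fl u (a / 4) (a / 4) = u (a / 4) + 1 := update_self ..
  rw [T, T, this]
  split_ifs with h
  · omega
  · rw [fl_ne (by omega)]
    omega

lemma red (c d : ℕ) (e : c + d = 1) : ∃ W : ℕ × List ℕ → Prop, REPred W ∧
    ∀ u x, x ∈ S c u ↔ ∃ l, W (x, l) ∧ ∀ y ∈ l, y ∈ S d u := by
  have f : Computable fun p : ℕ × List ℕ => p.1 := Computable.fst
  have g : ∀ i, Computable fun p : ℕ × List ℕ => p.2.getD i 0 := fun i =>
    (Primrec.list_getD 0).to_comp.comp Computable.snd (Computable.const i)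
  have k := fun c : ℕ => Computable.const (α := ℕ × List ℕ) c
  have l : Computable fun p : ℕ × List ℕ => [p.2.getD 0 0, p.2.getD 1 0, p.2.getD 2 0] :=
    Computable.list_cons.comp (g 0) (Computable.list_cons.comp (g 1)
      (Computable.list_cons.comp (g 2) (Computable.const [])))
  have b := cor (clt (md f 4) (k 2)) (ceq (dv f 4) (k 0))
  refine ⟨_, sig_re (CeAlg.cs (cand (ceq Computable.snd l) (cand (ceq (md (dv f 4) 2) (k c))
    (cand (ceq (dv (g 0) 2) (ad (ml (k 2) (dv f 4)) (k 2)))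
    (cand (ceq (dv (g 1) 2) (ad (ml (k 2) (dv f 4)) (k 3)))
    (cor (cand b (ceq (md (ad (ad (g 0) (g 1)) f) 2) (k 0)))
    (cand b.not (cand (ceq (ad (dv (g 2) 2) (k 2)) (ml (k 2) (dv f 4)))
      (ceq (md (ad (ad (ad (g 0) (g 1)) (g 2)) f) 2) (k 0)))))))))), fun u x => ⟨fun h => ?_, ?_⟩⟩
  · obtain ⟨h1, h2⟩ := h
    obtain ⟨n, hn⟩ : ∃ n, x / 4 = n := ⟨_, rfl⟩
    have a : ∀ m, ∃ y, y / 4 = m ∧ y % 4 < 2 ∧ T u y := fun m =>
      ⟨4 * m + u m % 2, by omega, by omega, by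
        rw [T, if_pos (by omega), show (4 * m + u m % 2) / 4 = m by omega]; omega⟩
    obtain ⟨y, y1, y2, y3⟩ := a (n + 1)
    obtain ⟨z, z1, z2, z3⟩ : ∃ y, y / 4 = n + 1 ∧ ¬ y % 4 < 2 ∧ T u y :=
      ⟨4 * n + 6 + (u (n + 1) + u n) % 2, by omega, by omega, by
        rw [T, if_neg (by omega), show (4 * n + 6 + (u (n + 1) + u n) % 2) / 4 = n + 1 by omega,
          Nat.add_sub_cancel]; omega⟩
    obtain ⟨w, w1, w2, w3⟩ := a (if n = 0 then 1 else n - 1)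
    refine ⟨[y, z, w], ?_, by
      simp only [List.forall_mem_cons, S, Set.mem_ofPred_eq, y3, z3, w3, y1, z1, w1]
      split_ifs <;> simp <;> omega⟩
    rw [T, if_pos (Or.inl y2), y1] at y3
    rw [T, if_neg (by omega), z1, Nat.add_sub_cancel] at z3
    rw [T, if_pos (Or.inl w2), w1] at w3
    rw [T, hn] at h2
    simp only [List.getD_cons_zero, List.getD_cons_succ, true_and, hn]
    split_ifs at h2 w1 w3 <;> omega
  · rintro ⟨l, ⟨h0, h1, h2, h3, h4⟩, h⟩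
    dsimp only at *
    generalize l.getD 0 0 = y at *
    generalize l.getD 1 0 = z at *
    generalize l.getD 2 0 = w at *
    subst h0
    have y3 := (h y (by simp)).2
    have z3 := (h z (by simp)).2
    have w3 := (h w (by simp)).2
    rw [T, if_pos (by omega), show y / 4 = x / 4 + 1 by omega] at y3
    rw [T, if_neg (by omega), show z / 4 = x / 4 + 1 by omega, Nat.add_sub_cancel] at z3
    refine ⟨h1, ?_⟩
    rw [T]
    rcases h4 with h4 | h4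
    · rw [if_pos h4.1]
      omega
    · rw [T, if_pos (by omega), show w / 4 = x / 4 - 1 by omega] at w3
      rw [if_neg h4.1]
      omega

/-- The value of a singleton operator. -/
def op (R : ℕ × ℕ → Prop) (A : Set ℕ) : Set ℕ := {x | ∃ y ∈ A, R (x, y)}

lemma bd {R : ℕ × ℕ → Prop} {c m : ℕ} {G : ℕ → ℕ} (h : m ∉ op R (S c G))
    (g : In (fun v => m ∈ op R (S c v)) G ∨ In (fun v => ¬ In (fun v => m ∈ op R (S c v)) v) G) :
    ∃ k, ∀ y, R (m, y) → y / 4 % 2 = c → y < k := by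
  obtain ⟨k, g⟩ | ⟨k, g⟩ := g
  · exact (h (g G fun _ _ => rfl)).elim
  refine ⟨4 * k, fun y a b => by_contra fun z => g (fl G (y / 4)) (fun i u => fl_ne (by omega))
    ⟨y / 4 + 1, fun w e => ⟨y, ⟨b, (T_ag e).2 (T_fl.2 fun t => h ⟨y, ⟨b, t⟩, a⟩)⟩, a⟩⟩⟩

lemma sep {R R' : ℕ × ℕ → Prop} {c d m y : ℕ} {G : ℕ → ℕ} (e : c ≠ d) (h : m ∉ op R (S c G))
    (h' : m ∉ op R' (S d G)) (a : R (m, y)) (b : y / 4 % 2 = c)
    (t : ∀ z, R' (m, z) → z / 4 % 2 = d → z ≤ y) :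
    In (fun v => op R (S c v) ≠ op R' (S d v)) (fl G (y / 4)) := by
  refine ⟨y / 4 + 1, fun w k r => ?_⟩
  obtain ⟨z, ⟨p, q⟩, s⟩ : m ∈ op R' (S d w) :=
    r ▸ ⟨y, ⟨b, (T_ag k).2 (T_fl.2 fun t => h ⟨y, ⟨b, t⟩, a⟩)⟩, a⟩
  have := t z s p
  exact h' ⟨z, ⟨p, (T_ag fun i u => (k i (by omega)).trans (fl_ne (by omega))).1 q⟩, s⟩

lemma main : ∃ G, (∀ c < 2, ¬ REPred (· ∈ S c G)) ∧ ∀ R R', REPred R → REPred R' →
    op R (S 0 G) = op R' (S 1 G) → REPred (· ∈ op R (S 0 G)) := by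
  obtain ⟨G, g⟩ := gen (ι := (ℕ × {p : ℕ → Prop // REPred p}) ⊕
    (ℕ × ℕ × {p : ℕ × ℕ → Prop // REPred p}) ⊕
    ({p : ℕ × ℕ → Prop // REPred p} × {p : ℕ × ℕ → Prop // REPred p}))
    (Sum.elim (fun i v => (· ∈ S i.1 v) ≠ i.2.1) (Sum.elim (fun i v => i.1 ∈ op i.2.2.1 (S i.2.1 v))
      fun i v => op i.1.1 (S 0 v) ≠ op i.2.1 (S 1 v)))
  refine ⟨G, fun c hc h => ?_, fun R R' r r' e => ?_⟩
  · obtain ⟨k, g⟩ | ⟨k, g⟩ := g (Sum.inl (c, ⟨_, h⟩))
    · exact g G (fun _ _ => rfl) rfl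
    obtain ⟨y, y1, y2⟩ : ∃ y, y / 4 = 2 * k + c ∧ T G y :=
      ⟨4 * (2 * k + c) + G (2 * k + c) % 2, by omega, by
        rw [T, if_pos (by omega), show (4 * (2 * k + c) + G (2 * k + c) % 2) / 4 = 2 * k + c by
          omega]; omega⟩
    refine g (fl G (y / 4)) (fun i u => fl_ne (by omega)) ⟨y / 4 + 1, fun w a b => ?_⟩
    exact T_fl.1 ((T_ag a).1 (show y ∈ S c w from (congrFun b y).mpr ⟨by omega, y2⟩).2) y2
  obtain ⟨k, z⟩ | ⟨k, z⟩ := g (Sum.inr (Sum.inr (⟨R, r⟩, ⟨R', r'⟩)))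
  · exact (z G (fun _ _ => rfl) e).elim
  have s : Computable fun p : ℕ × ℕ => p.2 := Computable.snd
  have q : ComputablePred fun p : ℕ × ℕ => ∀ j ∈ (List.range (4 * k)).filter (¬ T G ·), p.2 ≠ j :=
    call (p := fun (p : ℕ × ℕ) j => p.2 ≠ j) (Computable.const _)
      (ceq (s.comp Computable.fst) Computable.snd).not
  refine sig_re ((Sig.ex ((re_sig r).and (CeAlg.cs (cand (ceq (md (dv s 4) 2) (Computable.const 0))
    q)))).of_eq fun m => ⟨fun ⟨y, a, b, c⟩ => by_contra fun h => ?_, fun ⟨y, ⟨a, b⟩, c⟩ =>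
      ⟨y, c, a, fun j u v => by subst v; simp [b] at u⟩⟩)
  have h' := e ▸ h
  obtain ⟨k0, p0⟩ := bd h (g (Sum.inr (Sum.inl (m, 0, ⟨R, r⟩))))
  obtain ⟨k1, p1⟩ := bd h' (g (Sum.inr (Sum.inl (m, 1, ⟨R', r'⟩))))
  have l : 4 * k ≤ y := by_contra fun l => c y (by
    simpa using ⟨by omega, fun t => h ⟨y, ⟨b, t⟩, a⟩⟩) rfl
  obtain ⟨x, u, v⟩ := Set.exists_max_image
    {y | (R (m, y) ∧ y / 4 % 2 = 0) ∨ (R' (m, y) ∧ y / 4 % 2 = 1)} id
    ((Set.finite_lt_nat (k0 + k1)).subset fun y t => t.elim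
      (fun t => (p0 y t.1 t.2).trans_le (by omega)) fun t => (p1 y t.1 t.2).trans_le (by omega))
    ⟨y, Or.inl ⟨a, b⟩⟩
  have w : y ≤ x := v y (Or.inl ⟨a, b⟩)
  refine z (fl G (x / 4)) (fun i u => fl_ne (by omega)) ?_
  rcases u with u | u
  · exact sep (by simp) h h' u.1 u.2 fun t i j => v t (Or.inr ⟨i, j⟩)
  · exact (sep (by simp) h' h u.1 u.2 fun t i j => v t (Or.inl ⟨i, j⟩)).imp fun _ i w j =>
      (i w j).symm

end Pool.Agent.Lib.H8.SMin
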