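import Pool.Agent.Lib.H8.Shc1

/-!
Compression of shift-complex sequences; semimeasures from prefix-free machines.
-/

namespace Pool.Agent.Lib.H8.Shc

open Arith CList Wei Qm Rnd Kc Om Gen Low Finset Classical MeasureTheory

lemma pfx {V W : List Bool →. List Bool} (hV : OptP V) (hW : Partrec W) (h : Opt W) {D : ℕ}
    (hD : 0 < D) :
    ∃ c, ∀ x, cx V x ≤ cx W x + cx W x / D + c := by
  have f := @Computable.fst
  have s := @Computable.snd
  have l : Computable fun z : (List Bool × List Bool) × List Bool => z.2.length :=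
    Computable.list_length.comp s
  obtain ⟨M, m1, m2, m3⟩ := unif (sig_ex (A := fun z : (List Bool × List Bool) × List Bool =>
    z.1.1 = tag (z.2.length / (D + 1)) (tag (z.2.length % (D + 1)) z.2) ∧ z.1.2 ∈ W z.2)
      ((CeAlg.cs (ceq (f.comp f) (tag_c (dv l _) (tag_c (md l _) s)))).and
        ((graph hW).comp (s.pair (s.comp f)))))
  dsimp only at m2 m3
  obtain ⟨c, hc⟩ := hV M m1 fun p q a b k => by
    obtain ⟨x, hx⟩ := Part.dom_iff_mem.1 a
    obtain ⟨y, hy⟩ := Part.dom_iff_mem.1 b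
    obtain ⟨u, rfl, -⟩ := m2 _ _ hx
    obtain ⟨v, rfl, -⟩ := m2 _ _ hy
    obtain ⟨k1, k⟩ := tag_pre k
    obtain ⟨k2, k⟩ := tag_pre k
    rw [k.eq_of_length (by rw [← u.length.div_add_mod (D + 1), k1, k2, Nat.div_add_mod])]
  refine ⟨c + D + 2, fun x => ?_⟩
  obtain ⟨q, q1, q2⟩ := cx_spec h.sur x
  obtain ⟨y, hy⟩ := m3 _ x ⟨q, rfl, q2⟩
  obtain ⟨v, l, r⟩ := m2 _ _ hy
  obtain rfl := (tag_inj (tag_inj l).2).2
  obtain ⟨p, p1, p2⟩ := hc _ _ (Part.mem_unique r q2 ▸ hy)
  have := cx_le p2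
  have := q.length.mod_lt D.succ_pos
  have := Nat.div_le_div_left (a := q.length) D.le_succ hD
  simp only [tag_len, q1, Nat.succ_eq_add_one] at *
  omega

lemma sub_pr (y : ℕ → Bool) {a r n : ℕ} (h : a + r ≤ n) :
    ((pr y n).drop a).take r = pr (fun s => y (a + s)) r := by
  obtain ⟨k, rfl⟩ := Nat.exists_eq_add_of_le h
  rw [add_assoc, pr_add, List.drop_left' (pr_len _ _), pr_add, List.take_left' (pr_len _ _)]

lemma pr_fl (x : ℕ → Bool) (a l s : ℕ) : pr (fun i => x (a * l + i)) (s * l) =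
    ((List.range s).map fun t => blk l x (a + t)).flatten := by
  induction s with
  | zero => simp [pr]
  | succ s i => rw [Nat.succ_mul, pr_add, i, List.range_succ]; simp [blk, add_mul, add_assoc]

lemma table {X : ℕ → Bool} {z : List Bool} (hz : z ≠ []) (h : ∀ b, blk z.length X b ≠ z) :
    ∃ (R : ℕ) (t : List (List Bool)), 0 < R ∧ t.length ≤ 2 ^ R ∧ ∀ b, blk (R + 1) X b ∈ t := by
  have l := List.length_pos_iff.2 hz
  generalize e : z.length = L at *
  let T := ((range (2 ^ L)).image fun u : ℕ => pr u.testBit L).erase z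
  have m (y : ℕ → Bool) : pr y L ∈ (range (2 ^ L)).image fun u : ℕ => pr u.testBit L := by
    obtain ⟨u, a, b⟩ := pr_sur y L
    exact mem_image.2 ⟨u, mem_range.2 a, b.symm⟩
  have c : #T ≤ 2 ^ L - 1 := by
    rw [card_erase_of_mem (by have := m (z.getD · false); rwa [← e, pr_getD, e] at this)]
    exact Nat.sub_le_sub_right (card_image_le.trans (card_range _).le) 1
  have q := Nat.one_lt_two_pow l.ne'
  obtain ⟨R, r⟩ : ∃ R, 2 ^ L * L = R + 1 := ⟨_, (Nat.succ_pred_eq_of_pos (by positivity)).symm⟩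
  refine ⟨R, ((Fintype.piFinset fun _ : Fin (2 ^ L) => T).image
    fun g => (List.ofFn g).flatten).toList, by nlinarith, ?_, fun b => mem_toList.2 (mem_image.2
      ⟨fun i => blk L X (b * 2 ^ L + i), Fintype.mem_piFinset.2 fun i =>
        mem_erase.2 ⟨h _, m _⟩, by rw [← r, blk_mul]⟩)⟩
  rw [length_toList]
  refine card_image_le.trans ?_
  rw [Fintype.card_piFinset_const]
  refine (Nat.pow_le_pow_left c _).trans ?_
  have := decay (q := 2 ^ L) (by positivity) 1
  rw [mul_one, one_sub_div (by positivity), div_pow, div_le_iff₀ (by positivity), ← Nat.cast_pow,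
    ← pow_mul, mul_comm L, r, ← Nat.cast_pred (by positivity), ← Nat.cast_pow] at this
  have : (((2 ^ L - 1) ^ 2 ^ L : ℕ) : ℝ) ≤ (2 ^ R : ℕ) := this.trans_eq (by push_cast; ring)
  exact_mod_cast this

lemma semi {V : List Bool →. List Bool} (hV : Partrec V)
    (pf : ∀ p q : List Bool, (V p).Dom → (V q).Dom → p <+: q → p = q) :
    ∃ N : List Bool → ℝ, (∀ s, 0 ≤ N s) ∧ N [] = 1 ∧
      (∀ s, N (s ++ [false]) + N (s ++ [true]) ≤ N s) ∧
      (REPred fun q : List Bool × ℕ × ℕ => (q.2.1 : ℝ) / 2 ^ q.2.2 < N q.1) ∧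
      ∀ p s, s ∈ V p → 2⁻¹ ^ p.length ≤ N s := by
  have f := @Computable.fst
  have s := @Computable.snd
  have e : EO fun a : List Bool => {w | ∃ n, a = [] ∨ ∃ t, t ∈ V (pr w n) ∧ a <+: t} :=
    ⟨fun z => z.1 = [] ∨ ∃ t, t ∈ V z.2 ∧ z.1 <+: t, (CeAlg.cs (ceq f (Computable.const _))).or
      (sig_ex (A := fun z : (List Bool × List Bool) × List Bool => z.2 ∈ V z.1.2 ∧ z.1.1 <+: z.2)
        (((graph hV).comp ((s.comp f).pair s)).and (CeAlg.cs (cpfx (f.comp f) s)))),
      fun _ _ => Iff.rfl⟩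
  refine ⟨fun a => mu.real {w | ∃ n, a = [] ∨ ∃ t, t ∈ V (pr w n) ∧ a <+: t},
    fun _ => measureReal_nonneg, by simp, fun a => ?_, sig_re (((e.comp f).lt_mu (f.comp s)
      (s.comp s)).of_eq fun q => ?_), fun p a k => ?_⟩
  · rw [← measureReal_union _ (e.meas _)]
    · refine measureReal_mono ?_
      rintro w (⟨n, k | ⟨t, k, l⟩⟩ | ⟨n, k | ⟨t, k, l⟩⟩)
      exacts [by simp at k, ⟨n, .inr ⟨t, k, (List.prefix_append _ _).trans l⟩⟩, by simp at k,
        ⟨n, .inr ⟨t, k, (List.prefix_append _ _).trans l⟩⟩]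
    · refine Set.disjoint_left.2 ?_
      rintro w ⟨n, k | ⟨t, k, l⟩⟩ ⟨m, i | ⟨u, i, j⟩⟩
      iterate 2 simp at k
      · simp at i
      have : pr w n = pr w m := by
        rcases le_total n m with o | o
        exacts [pf _ _ k.1 i.1 (pr_take w o ▸ List.take_prefix _ _),
          (pf _ _ i.1 k.1 (pr_take w o ▸ List.take_prefix _ _)).symm]
      obtain rfl := Part.mem_unique (this ▸ k) i
      simpa using (List.prefix_of_prefix_length_le l j (by simp)).eq_of_length (by simp)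
  · rw [← ENNReal.toReal_lt_toReal (by finiteness) (by finiteness)]
    simp [Measure.real, div_eq_mul_inv]
  · refine le_trans ?_ (measureReal_mono (s₁ := cyl p) fun w (o : _ = _) =>
      ⟨p.length, .inr ⟨a, o.symm ▸ k, List.prefix_rfl⟩⟩)
    simp [Measure.real, mu_cyl]

lemma mono {M : List Bool → ℝ} (h0 : ∀ s, 0 ≤ M s)
    (h : ∀ s, M (s ++ [false]) + M (s ++ [true]) ≤ M s) (s t : List Bool) : M (s ++ t) ≤ M s := by
  induction t using List.reverseRecOn with
  | nil => simp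
  | append_singleton t b i =>
    rw [← List.append_assoc]
    have := h (s ++ t)
    cases b <;> linarith [h0 (s ++ t ++ [false]), h0 (s ++ t ++ [true])]

lemma few {M : List Bool → ℝ} (h0 : ∀ s, 0 ≤ M s) (h1 : M [] ≤ 1)
    (h : ∀ s, M (s ++ [false]) + M (s ++ [true]) ≤ M s) (n l : ℕ) :
    #{u ∈ range (2 ^ n) | 1 / 2 ^ l < M (pr u.testBit n)} ≤ 2 ^ l := by
  have := (card_nsmul_le_sum _ _ _ fun u k => (mem_filter.1 k).2.le).trans
    ((sum_le_sum_of_subset_of_nonneg (filter_subset (fun u : ℕ => 1 / 2 ^ l < M (pr u.testBit n))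
      (range (2 ^ n))) fun _ _ _ => h0 _).trans ((level h n).trans h1))
  rw [nsmul_eq_mul, mul_one_div, div_le_one (by positivity)] at this
  exact_mod_cast this

end Pool.Agent.Lib.H8.Shc
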