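import Mathlib

/-! Circle averaging along the curves `ζ ↦ (c ζ ^ k, ζ)` and the extremal constant. -/

set_option autoImplicit false

namespace Pool.Agent.Lib.H8.Shear

open Metric Complex Filter Topology

theorem deriv_zero_of_little (D : ℂ → ℂ) (k : ℕ) (hD : AnalyticAt ℂ D 0)
    (h : D =o[𝓝 0] fun ζ : ℂ => ζ ^ k) : iteratedDeriv k D 0 = 0 := by
  rw [← norm_le_zero_iff]
  refine le_of_forall_pos_le_add fun ε hε => ?_
  have hk : (0 : ℝ) < k.factorial := by exact_mod_cast k.factorial_pos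
  have h1 := (h.def (div_pos hε hk)).and hD.eventually_analyticAt
  obtain ⟨r, hr, hb⟩ := Metric.eventually_nhds_iff_ball.1 h1
  have hr2 : 0 < r / 2 := by positivity
  have hsub : closedBall (0 : ℂ) (r / 2) ⊆ ball 0 r := closedBall_subset_ball (by linarith)
  have hd : DiffContOnCl ℂ D (ball 0 (r / 2)) := by
    refine DifferentiableOn.diffContOnCl fun z hz => ?_
    exact (hb z (hsub (closure_ball_subset_closedBall hz))).2.differentiableAt.differentiableWithinAt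
  have h2 := norm_iteratedDeriv_le_of_forall_mem_sphere_norm_le (C := ε / k.factorial * (r / 2) ^ k)
    k hr2 hd (fun z hz => by
      have := (hb z (hsub (sphere_subset_closedBall hz))).1
      rwa [norm_pow, mem_sphere_zero_iff_norm.1 hz] at this)
  rw [zero_add]
  refine h2.trans (le_of_eq ?_)
  field_simp

theorem avg (G : ℂ → ℂ) (n : ℕ) (y : ℝ) (hy : 0 < y) (hG : DifferentiableOn ℂ G (closedBall 0 y)) :
    Real.circleAverage (fun ζ => G ζ / ζ ^ n) 0 y = iteratedDeriv n G 0 / n.factorial := by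
  rw [Real.circleAverage_eq_circleIntegral hy.ne']
  have h := hG.circleIntegral_one_div_sub_center_pow_smul hy n
  have h2 : (∮ z in C(0, y), (z - 0)⁻¹ • (G z / z ^ n)) =
      ∮ z in C(0, y), (1 / (z - 0) ^ (n + 1)) • G z := by
    congr 1
    ext z
    simp only [sub_zero, smul_eq_mul, pow_succ, div_eq_mul_inv, mul_inv]
    ring
  rw [h2, h]
  have := Complex.two_pi_I_ne_zero
  simp only [smul_eq_mul]
  field_simp

theorem integ (G : ℂ → ℂ) (n : ℕ) (y : ℝ) (hy : 0 < y)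
    (hG : DifferentiableOn ℂ G (closedBall 0 y)) :
    CircleIntegrable (fun ζ => G ζ / ζ ^ n) 0 y := by
  refine ContinuousOn.circleIntegrable hy.le ?_
  refine (hG.continuousOn.mono sphere_subset_closedBall).div (by fun_prop) fun z hz => ?_
  refine pow_ne_zero _ fun h0 => ?_
  rw [h0, mem_sphere_zero_iff_norm, norm_zero] at hz
  exact hy.ne hz

/-- the Euclidean unit ball, in coordinates -/
def U : Set (ℂ × ℂ) := {p | ‖p.1‖ ^ 2 + ‖p.2‖ ^ 2 < 1}

theorem core (f g : ℂ × ℂ → ℂ) (α β : ℝ) (k : ℕ) (hk : 2 ≤ k)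
    (hf : AnalyticOnNhd ℂ f U) (hg : AnalyticOnNhd ℂ g U)
    (hf' : HasFDerivAt f ((α : ℂ) • ContinuousLinearMap.fst ℂ ℂ ℂ) 0)
    (hg' : HasFDerivAt g ((β : ℂ) • ContinuousLinearMap.snd ℂ ℂ ℂ) 0)
    (hpos : ∀ p ∈ U, p ≠ 0 → 0 < (f p * (starRingEnd ℂ) p.1 + g p * (starRingEnd ℂ) p.2).re)
    (c : ℂ) (y : ℝ) (hy : 0 < y) (hc : ‖c‖ ^ 2 * (y ^ k) ^ 2 + y ^ 2 < 1) :
    0 ≤ ((starRingEnd ℂ) c * (y ^ k) ^ 2 *
      (α * c + iteratedDeriv k (fun t => f (0, t)) 0 / k.factorial)).re + β * y ^ 2 := by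
  have h0 : (0 : ℂ × ℂ) ∈ U := by simp [U]
  have hγ : ∀ ζ : ℂ, AnalyticAt ℂ (fun ζ : ℂ => (c * ζ ^ k, ζ)) ζ := fun ζ => by fun_prop
  have hγ0 : (fun ζ : ℂ => (c * ζ ^ k, ζ)) 0 = 0 := by
    simp [zero_pow (show k ≠ 0 by omega)]
  have hmem : ∀ ζ ∈ closedBall (0 : ℂ) y, (c * ζ ^ k, ζ) ∈ U := by
    intro ζ hζ
    rw [mem_closedBall_zero_iff] at hζ
    refine lt_of_le_of_lt ?_ hc
    simp only [norm_mul, norm_pow, mul_pow]
    gcongr
  have hG1 : AnalyticOnNhd ℂ (fun ζ => f (c * ζ ^ k, ζ)) (closedBall 0 y) := fun ζ hζ =>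
    AnalyticAt.comp (f := fun ζ : ℂ => (c * ζ ^ k, ζ)) (hf _ (hmem ζ hζ)) (hγ ζ)
  have hG2 : AnalyticOnNhd ℂ (fun ζ => g (c * ζ ^ k, ζ)) (closedBall 0 y) := fun ζ hζ =>
    AnalyticAt.comp (f := fun ζ : ℂ => (c * ζ ^ k, ζ)) (hg _ (hmem ζ hζ)) (hγ ζ)
  have hφ : AnalyticAt ℂ (fun t : ℂ => f (0, t)) 0 :=
    AnalyticAt.comp (f := fun t : ℂ => ((0 : ℂ), t)) (hf _ h0) (by fun_prop)
  have h00 : (0 : ℂ) ∈ closedBall (0 : ℂ) y := mem_closedBall_self hy.le
  have e1 : iteratedDeriv k (fun ζ => f (c * ζ ^ k, ζ)) 0 / k.factorial =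
      α * c + iteratedDeriv k (fun t => f (0, t)) 0 / k.factorial := by
    have hs := (hf _ h0).hasStrictFDerivAt
    rw [hf'.fderiv] at hs
    have ht : Tendsto (fun ζ : ℂ => (((c * ζ ^ k, ζ), (0, ζ)) : (ℂ × ℂ) × (ℂ × ℂ))) (𝓝 0)
        (𝓝 (0, 0)) := by
      refine Continuous.tendsto' (by fun_prop) _ _ ?_
      simp [zero_pow (show k ≠ 0 by omega), Prod.ext_iff]
    have h1 := hs.isLittleO.comp_tendsto ht
    have h2 : (fun ζ : ℂ => f (c * ζ ^ k, ζ) - f (0, ζ) - α * c * ζ ^ k) =o[𝓝 0]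
        fun ζ : ℂ => ζ ^ k := by
      refine (h1.congr_left fun ζ => ?_).trans_isBigO ?_
      · simp [mul_assoc]
      · refine Asymptotics.IsBigO.of_bound ‖c‖ (Eventually.of_forall fun ζ => ?_)
        simp
        positivity
    have ha : AnalyticAt ℂ (fun ζ : ℂ => α * c * ζ ^ k) 0 := by fun_prop
    have h3 := deriv_zero_of_little _ k (((hG1 0 h00).sub hφ).sub ha) h2
    rw [iteratedDeriv_sub ((hG1 0 h00).sub hφ).contDiffAt ha.contDiffAt,
      iteratedDeriv_sub (hG1 0 h00).contDiffAt hφ.contDiffAt, iteratedDeriv_const_mul_field,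
      iteratedDeriv_fun_pow_zero] at h3
    have hk0 : (k.factorial : ℂ) ≠ 0 := by exact_mod_cast k.factorial_ne_zero
    simp only [if_true] at h3
    field_simp
    linear_combination h3
  have e2 : iteratedDeriv 1 (fun ζ => g (c * ζ ^ k, ζ)) 0 / (Nat.factorial 1) = β := by
    have h1 : HasDerivAt (fun ζ : ℂ => (c * ζ ^ k, ζ)) (0, 1) 0 := by
      have := ((hasDerivAt_pow k (0 : ℂ)).const_mul c).prodMk (hasDerivAt_id (0 : ℂ))
      simpa [zero_pow (show k - 1 ≠ 0 by omega)] using this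
    have h2 : HasDerivAt (fun ζ => g (c * ζ ^ k, ζ))
        (((β : ℂ) • ContinuousLinearMap.snd ℂ ℂ ℂ) (0, 1)) 0 :=
      HasFDerivAt.comp_hasDerivAt_of_eq (0 : ℂ) hg' h1 hγ0.symm
    rw [iteratedDeriv_one, h2.deriv]
    simp
  have i1 := integ _ k y hy hG1.differentiableOn
  have i2 := integ _ 1 y hy hG2.differentiableOn
  have a1 := avg _ k y hy hG1.differentiableOn
  have a2 := avg _ 1 y hy hG2.differentiableOn
  rw [e1] at a1
  rw [e2] at a2
  have i1' := i1.const_fun_smul (a := (starRingEnd ℂ) c * (y ^ k) ^ 2)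
  have i2' := i2.const_fun_smul (a := (y : ℂ) ^ 2)
  have key := Real.circleAverage_nonneg_of_nonneg (c := 0) (R := y)
    (f := reCLM ∘ ((fun ζ => ((starRingEnd ℂ) c * (y ^ k) ^ 2) • (f (c * ζ ^ k, ζ) / ζ ^ k)) +
      fun ζ => (y : ℂ) ^ 2 • (g (c * ζ ^ k, ζ) / ζ ^ 1))) (fun ζ hζ => by
      rw [abs_of_pos hy] at hζ
      have hn := mem_sphere_zero_iff_norm.1 hζ
      have hz : ζ ≠ 0 := fun h => by rw [h, norm_zero] at hn; exact hy.ne hn
      have h1 := hpos _ (hmem ζ (sphere_subset_closedBall hζ)) (fun h => hz (congrArg Prod.snd h))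
      have h2 : (starRingEnd ℂ) ζ = (y : ℂ) ^ 2 / ζ := by
        rw [eq_div_iff hz, Complex.conj_mul', hn]
      refine h1.le.trans (le_of_eq ?_)
      simp only [Function.comp, reCLM_apply, Pi.add_apply, smul_eq_mul, map_mul, map_pow, h2]
      congr 1
      rw [div_pow]
      field_simp
      ring)
  rw [reCLM.circleAverage_comp_comm (i1'.add i2'), Real.circleAverage_add i1' i2',
    Real.circleAverage_fun_smul, Real.circleAverage_fun_smul, a1, a2] at key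
  simp only [reCLM_apply, smul_eq_mul, add_re] at key
  have h3 : ((y : ℂ) ^ 2 * β).re = β * y ^ 2 := by
    rw [← ofReal_pow, ← ofReal_mul, ofReal_re, mul_comm]
  rw [h3] at key
  exact key

theorem extremal (α β s : ℝ) (m : ℕ) (hα : 0 < α) (hβ : 0 < β) (hs0 : 0 < s) (hs1 : s < 1)
    (hQ : m * (α - β) * s ^ 2 + (α + (m + 1) * β) * s - β = 0) (t : ℝ) (ht0 : 0 ≤ t) (ht1 : t ≤ 1) :
    t * (1 - t) ^ (m + 1) / (α * t + β * (1 - t)) ^ 2 ≤
      s * (1 - s) ^ (m + 1) / (α * s + β * (1 - s)) ^ 2 := by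
  have hL : ∀ u : ℝ, 0 ≤ u → u ≤ 1 → 0 < α * u + β * (1 - u) := by
    intro u h0 h1
    rcases h0.eq_or_lt with h | h
    · subst h; simpa using hβ
    · have : 0 ≤ β * (1 - u) := mul_nonneg hβ.le (by linarith)
      have := mul_pos hα h
      linarith
  let F : ℝ → ℝ := fun u => u * (1 - u) ^ (m + 1) / (α * u + β * (1 - u)) ^ 2
  have hF : ContinuousOn F (Set.Icc 0 1) :=
    ContinuousOn.div (by fun_prop) (by fun_prop) fun u hu => (pow_pos (hL u hu.1 hu.2) 2).ne'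
  obtain ⟨u, hu, hmax⟩ := isCompact_Icc.exists_isMaxOn ⟨0, by simp⟩ hF
  have hs : 0 < F s := div_pos (mul_pos hs0 (pow_pos (by linarith) _))
    (pow_pos (hL s hs0.le hs1.le) 2)
  have hu' : 0 < F u := hs.trans_le (hmax ⟨hs0.le, hs1.le⟩)
  have hu0 : 0 < u := lt_of_le_of_ne hu.1 (by rintro rfl; simp [F] at hu')
  have hu1 : u < 1 := lt_of_le_of_ne hu.2 (by rintro rfl; simp [F] at hu')
  have hloc : IsLocalMax F u := hmax.isLocalMax (Icc_mem_nhds hu0 hu1)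
  have hLu := hL u hu.1 hu.2
  have d1 : HasDerivAt (fun u : ℝ => 1 - u) (-1) u := by
    simpa using (hasDerivAt_id u).const_sub 1
  have d2 := (hasDerivAt_id u).fun_mul (d1.fun_pow (m + 1))
  have d3 := (((hasDerivAt_id u).const_mul α).fun_add (d1.const_mul β)).fun_pow 2
  have d4 := hloc.hasDerivAt_eq_zero (d2.fun_div d3 (pow_pos hLu 2).ne')
  simp only [id, Nat.add_sub_cancel, div_eq_zero_iff, Nat.cast_add, Nat.cast_one, Nat.cast_ofNat,
    show 2 - 1 = 1 from rfl, pow_one] at d4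
  have d5 := d4.resolve_right (pow_pos (pow_pos hLu 2) 2).ne'
  have d6 : (m * (α - β) * u ^ 2 + (α + (m + 1) * β) * u - β) *
      ((1 - u) ^ m * (α * u + β * (1 - u))) = 0 := by
    rw [pow_succ (1 - u) m] at d5
    linear_combination -d5
  have hQu := (mul_eq_zero.1 d6).resolve_right
    (mul_pos (pow_pos (by linarith) _) hLu).ne'
  have hus : u = s := by
    by_contra hne
    have h1 : (u - s) * (m * (α - β) * (u + s) + (α + (m + 1) * β)) = 0 := by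
      linear_combination hQu - hQ
    have h2 := (mul_eq_zero.1 h1).resolve_left (sub_ne_zero.2 hne)
    have h3 : m * (α - β) * (u * s) = -β := by linear_combination s * h2 - hQ
    have h4 : m * (α - β) * ((1 - u) * (1 - s)) = (m + 1) * α := by
      linear_combination h3 - h2
    have h5 : m * (α - β) < 0 := by
      by_contra h
      have := mul_nonneg (not_lt.1 h) (mul_pos hu0 hs0).le
      linarith
    have h6 := mul_neg_of_neg_of_pos h5 (mul_pos (sub_pos.2 hu1) (sub_pos.2 hs1))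
    have h7 : 0 < (m + 1) * α := by positivity
    linarith
  subst hus
  exact hmax ⟨ht0, ht1⟩

theorem root (α β : ℝ) (m : ℕ) (hm : 1 ≤ m) (hα : 0 < α) (hβ : 0 < β) (s : ℝ)
    (hs : s = 2 * β / (α + (m + 1) * β +
      √(α ^ 2 + (6 * (m + 1) - 4) * α * β + ((m + 1) - 2) ^ 2 * β ^ 2))) :
    0 < s ∧ s < 1 ∧ m * (α - β) * s ^ 2 + (α + (m + 1) * β) * s - β = 0 := by
  have hm' : (1 : ℝ) ≤ m := by exact_mod_cast hm
  have hΔ : 0 ≤ α ^ 2 + (6 * (m + 1) - 4) * α * β + ((m + 1) - 2) ^ 2 * β ^ 2 := by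
    have : (0 : ℝ) ≤ 6 * (m + 1) - 4 := by linarith
    positivity
  have h1 := Real.sq_sqrt hΔ
  have h2 := Real.sqrt_nonneg (α ^ 2 + (6 * (m + 1) - 4) * α * β + ((m + 1) - 2) ^ 2 * β ^ 2)
  generalize √(α ^ 2 + (6 * (m + 1) - 4) * α * β + ((m + 1) - 2) ^ 2 * β ^ 2) = r at hs h1 h2
  have h3 : 2 * β < α + (m + 1) * β + r := by nlinarith
  have h4 : 0 < α + (m + 1) * β + r := by linarith
  refine ⟨hs ▸ div_pos (by linarith) h4, hs ▸ (div_lt_one h4).2 h3, ?_⟩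
  rw [hs]
  field_simp
  linear_combination (-β) * h1

theorem upper (f g : ℂ × ℂ → ℂ) (α β s : ℝ) (k : ℕ) (hk : 2 ≤ k) (hs0 : 0 < s) (hs1 : s < 1)
    (hf : AnalyticOnNhd ℂ f U) (hg : AnalyticOnNhd ℂ g U)
    (hf' : HasFDerivAt f ((α : ℂ) • ContinuousLinearMap.fst ℂ ℂ ℂ) 0)
    (hg' : HasFDerivAt g ((β : ℂ) • ContinuousLinearMap.snd ℂ ℂ ℂ) 0)
    (hpos : ∀ p ∈ U, p ≠ 0 → 0 < (f p * (starRingEnd ℂ) p.1 + g p * (starRingEnd ℂ) p.2).re) :
    ‖iteratedDeriv k (fun t => f (0, t)) 0 / k.factorial‖ ≤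
      (α * s + β * (1 - s)) / √(s * (1 - s) ^ k) := by
  have hc := core f g α β k hk hf hg hf' hg' hpos
  generalize iteratedDeriv k (fun t => f (0, t)) 0 / k.factorial = q at hc ⊢
  have h1 : ∀ x y : ℝ, 0 < x → 0 < y → x ^ 2 + y ^ 2 < 1 →
      ‖q‖ * (x * y ^ k) ≤ α * x ^ 2 + β * y ^ 2 := by
    intro x y hx hy hxy
    obtain ⟨u, hu, hq⟩ : ∃ u : ℂ, ‖u‖ = 1 ∧ (starRingEnd ℂ) u * q = ‖q‖ := by
      by_cases h : q = 0
      · exact ⟨1, by simp, by simp [h]⟩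
      have hn : (‖q‖ : ℂ) ≠ 0 := by simpa using h
      refine ⟨q / ‖q‖, by simp [h], ?_⟩
      rw [map_div₀, conj_ofReal, div_mul_eq_mul_div, Complex.conj_mul']
      field_simp
    have hyk : 0 < y ^ k := pow_pos hy k
    have h2 := hc (-(u * (x / y ^ k : ℝ))) y hy (by
      rw [norm_neg, norm_mul, hu, Complex.norm_real, Real.norm_of_nonneg (by positivity)]
      field_simp
      exact hxy)
    have hu2 : (starRingEnd ℂ) u * u = 1 := by rw [Complex.conj_mul', hu]; simp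
    have h3 : (starRingEnd ℂ) (-(u * (x / y ^ k : ℝ))) * ((y : ℂ) ^ k) ^ 2 *
        (α * -(u * (x / y ^ k : ℝ)) + q) = ((α * x ^ 2 - ‖q‖ * (x * y ^ k) : ℝ) : ℂ) := by
      have hy0 : (y : ℂ) ^ k ≠ 0 := pow_ne_zero _ (by exact_mod_cast hy.ne')
      simp only [map_neg, map_mul, conj_ofReal]
      push_cast
      field_simp
      linear_combination (α * x ^ 2) * hu2 - x * (y : ℂ) ^ k * hq
    rw [h3, ofReal_re] at h2
    linarith
  have hx := Real.sqrt_pos.2 hs0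
  have hy := Real.sqrt_pos.2 (sub_pos.2 hs1)
  have ex := Real.sq_sqrt hs0.le
  have ey := Real.sq_sqrt (sub_pos.2 hs1).le
  have e : √(s * (1 - s) ^ k) = √s * √(1 - s) ^ k := by
    rw [Real.sqrt_mul hs0.le]
    congr 1
    rw [Real.sqrt_eq_iff_mul_self_eq (pow_pos (sub_pos.2 hs1) _).le (pow_pos hy _).le, ← mul_pow,
      Real.mul_self_sqrt (sub_pos.2 hs1).le]
  rw [e, le_div_iff₀ (by positivity)]
  generalize √s = x at hx ex
  generalize √(1 - s) = y at hy ey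
  rw [← ey, ← ex]
  have hxy : x ^ 2 + y ^ 2 = 1 := by linarith
  have t1 : Tendsto (fun t : ℝ => ‖q‖ * (t * x * (t * y) ^ k)) (𝓝[<] 1) (𝓝 (‖q‖ * (x * y ^ k))) :=
    (Continuous.tendsto' (by fun_prop) _ _ (by simp)).mono_left nhdsWithin_le_nhds
  have t2 : Tendsto (fun t : ℝ => α * (t * x) ^ 2 + β * (t * y) ^ 2) (𝓝[<] 1)
      (𝓝 (α * x ^ 2 + β * y ^ 2)) :=
    (Continuous.tendsto' (by fun_prop) _ _ (by simp)).mono_left nhdsWithin_le_nhds
  refine le_of_tendsto_of_tendsto t1 t2 ?_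
  filter_upwards [Ioo_mem_nhdsLT (show (0 : ℝ) < 1 by norm_num)] with t ht
  refine h1 _ _ (mul_pos ht.1 hx) (mul_pos ht.1 hy) ?_
  have : t ^ 2 < 1 := by nlinarith [ht.1, ht.2]
  nlinarith

theorem attain (α β s : ℝ) (m : ℕ) (hm : 1 ≤ m) (hα : 0 < α) (hβ : 0 < β) (hs0 : 0 < s)
    (hs1 : s < 1) (hQ : m * (α - β) * s ^ 2 + (α + (m + 1) * β) * s - β = 0) (u v : ℂ)
    (h1 : ‖u‖ ^ 2 + ‖v‖ ^ 2 < 1) (h0 : 0 < ‖u‖ ^ 2 + ‖v‖ ^ 2) :
    0 < ((α * u + ((α * s + β * (1 - s)) / √(s * (1 - s) ^ (m + 1)) : ℝ) * v ^ (m + 1)) *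
      (starRingEnd ℂ) u + β * v * (starRingEnd ℂ) v).re := by
  have hL : 0 < α * s + β * (1 - s) := by
    have := mul_pos hα hs0
    have := mul_pos hβ (sub_pos.2 hs1)
    linarith
  have hN : 0 < s * (1 - s) ^ (m + 1) := mul_pos hs0 (pow_pos (sub_pos.2 hs1) _)
  have ha : 0 < (α * s + β * (1 - s)) / √(s * (1 - s) ^ (m + 1)) := by positivity
  have ha2 : ((α * s + β * (1 - s)) / √(s * (1 - s) ^ (m + 1))) ^ 2 *
      (s * (1 - s) ^ (m + 1) / (α * s + β * (1 - s)) ^ 2) = 1 := by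
    rw [div_pow, Real.sq_sqrt hN.le]
    generalize s * (1 - s) ^ (m + 1) = N at hN
    field_simp
  have hex := extremal α β s m hα hβ hs0 hs1 hQ
  generalize (α * s + β * (1 - s)) / √(s * (1 - s) ^ (m + 1)) = a at ha ha2
  generalize s * (1 - s) ^ (m + 1) / (α * s + β * (1 - s)) ^ 2 = M at ha2 hex
  have e1 : (((α : ℂ) * u + a * v ^ (m + 1)) * (starRingEnd ℂ) u + β * v * (starRingEnd ℂ) v) =
      ((α * ‖u‖ ^ 2 + β * ‖v‖ ^ 2 : ℝ) : ℂ) + a * (v ^ (m + 1) * (starRingEnd ℂ) u) := by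
    push_cast
    rw [← Complex.mul_conj', ← Complex.mul_conj']
    ring
  have e2 : -(a * (‖u‖ * ‖v‖ ^ (m + 1))) ≤ (a * (v ^ (m + 1) * (starRingEnd ℂ) u)).re := by
    have := (abs_le.1 (Complex.abs_re_le_norm (a * (v ^ (m + 1) * (starRingEnd ℂ) u)))).1
    rwa [norm_mul, norm_mul, norm_pow, Complex.norm_real, Real.norm_of_nonneg ha.le,
      Complex.norm_conj, mul_comm (‖v‖ ^ (m + 1))] at this
  rw [e1, add_re, ofReal_re]
  have hx := norm_nonneg u
  have hy := norm_nonneg v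
  generalize ‖u‖ = x at *
  generalize ‖v‖ = y at *
  suffices h : a * (x * y ^ (m + 1)) < α * x ^ 2 + β * y ^ 2 by linarith
  set R := x ^ 2 + y ^ 2 with hR
  have hP : 0 < α * x ^ 2 + β * y ^ 2 := by
    rcases (sq_nonneg x).eq_or_lt with h | h
    · have : 0 < y ^ 2 := by linarith
      rw [← h]
      simpa using mul_pos hβ this
    · have := mul_pos hα h
      positivity
  have h2 := hex (x ^ 2 / R) (by positivity) ((div_le_one h0).2 (by nlinarith [sq_nonneg y]))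
  have h3 : 1 - x ^ 2 / R = y ^ 2 / R := by field_simp; linarith
  rw [h3] at h2
  have h4 : x ^ 2 / R * (y ^ 2 / R) ^ (m + 1) / (α * (x ^ 2 / R) + β * (y ^ 2 / R)) ^ 2 =
      (x * y ^ (m + 1)) ^ 2 / ((α * x ^ 2 + β * y ^ 2) ^ 2 * R ^ m) := by
    rw [div_pow, pow_succ R m]
    field_simp
    ring
  rw [h4, div_le_iff₀ (by positivity)] at h2
  have h5 : R ^ m < 1 := pow_lt_one₀ h0.le h1 (by omega)
  refine lt_of_pow_lt_pow_left₀ 2 hP.le ?_
  calc (a * (x * y ^ (m + 1))) ^ 2 = a ^ 2 * (x * y ^ (m + 1)) ^ 2 := by ring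
    _ ≤ a ^ 2 * (M * ((α * x ^ 2 + β * y ^ 2) ^ 2 * R ^ m)) := by gcongr
    _ = (α * x ^ 2 + β * y ^ 2) ^ 2 * R ^ m := by rw [← mul_assoc, ha2, one_mul]
    _ < (α * x ^ 2 + β * y ^ 2) ^ 2 := mul_lt_of_lt_one_right (by positivity) h5

end Pool.Agent.Lib.H8.Shear
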