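import Pool.Agent.Lib.H8.CList
import Pool.Agent.Lib.H8.Orc

/-!
Weights attached to the cuts of a computably bounded tree.
-/

namespace Pool.Agent.Lib.H8.Sp

open Finset

theorem core {ι : Type} [Fintype ι] (n : ι → ℤ) (a u : ι → ℕ) (L : ℕ) (hL : ∑ i, |n i| ≤ 2 ^ L)
    (ha : ∀ i j, u j < u i → a j + L + 1 ≤ a i) :
    (∀ δ : ι → ℕ, (∀ i j, u j ≤ u i → δ j ≤ δ i) → ∑ i, n i * 2 ^ (a i + δ i) = 0) ∧
      (∀ j, ∑ i with u i = u j, n i * 2 ^ a i = 0) ∨
    ∃ (i : ι) (K : ℕ) (p : Prop), ∀ δ : ι → ℕ, (∀ i j, u j ≤ u i → δ j ≤ δ i) →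
      2 ^ (a i + δ i) ≤ 2 * |∑ i, n i * 2 ^ (a i + δ i)| ∧
      |∑ i, n i * 2 ^ (a i + δ i)| ≤ K * 2 ^ (a i + δ i) ∧
      (0 < ∑ i, n i * 2 ^ (a i + δ i) ↔ p) ∧
      ∀ j, ∑ i with u i = u j, n i * 2 ^ a i ≠ 0 → (2 : ℤ) ^ (a j + δ j) ≤ K * 2 ^ (a i + δ i) := by
  classical
  set Φ : ι → ℤ := fun j => ∑ i with u i = u j, n i * 2 ^ a i with hΦ
  have fib : ∀ δ : ι → ℕ, (∀ i j, u j ≤ u i → δ j ≤ δ i) → ∀ j,
      ∑ i with u i = u j, n i * 2 ^ (a i + δ i) = Φ j * 2 ^ δ j := fun δ h j => by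
    rw [hΦ, sum_mul]
    refine sum_congr rfl fun i hi => ?_
    have := (mem_filter.1 hi).2
    rw [le_antisymm (h j i this.le) (h i j this.ge), pow_add, mul_assoc]
  have zero : ∀ δ : ι → ℕ, (∀ i j, u j ≤ u i → δ j ≤ δ i) → ∀ P : ℕ → Prop,
      (∀ j, P (u j) → Φ j = 0) → ∑ i with P (u i), n i * 2 ^ (a i + δ i) = 0 := fun δ h P hP => by
    rw [← sum_fiberwise_of_maps_to (t := (univ.filter fun i => P (u i)).image u) (g := u)
      fun i hi => mem_image_of_mem _ hi]
    refine sum_eq_zero fun k hk => ?_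
    obtain ⟨j, hj, rfl⟩ := mem_image.1 hk
    have hj := (mem_filter.1 hj).2
    rw [filter_filter, filter_congr (q := fun i => u i = u j) fun i _ =>
      ⟨fun h => h.2, fun h => ⟨h ▸ hj, h⟩⟩, fib δ h j, hP j hj, zero_mul]
  by_cases h0 : ∀ j, Φ j = 0
  · exact Or.inl ⟨fun δ h => by simpa using zero δ h (fun _ => True) fun j _ => h0 j, h0⟩
  right
  push Not at h0
  obtain ⟨i0, hi0, hmax⟩ := exists_max_image (univ.filter fun j => Φ j ≠ 0) u (by
    obtain ⟨j, hj⟩ := h0
    exact ⟨j, by simpa using hj⟩)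
  obtain ⟨i, hi, hmin⟩ := exists_min_image (univ.filter fun j => u j = u i0) a ⟨i0, by simp⟩
  simp only [mem_filter, mem_univ, true_and] at hi0 hmax hi hmin
  have e0 : Φ i = Φ i0 := by simp only [hΦ, hi]
  have hd : (2 : ℤ) ^ a i ≤ |Φ i| := by
    refine Int.le_of_dvd (abs_pos.2 (e0 ▸ hi0)) ((dvd_abs _ _).2 (dvd_sum fun j hj => ?_))
    exact Dvd.dvd.mul_left (pow_dvd_pow _ (hmin j ((mem_filter.1 hj).2.trans hi))) _
  refine ⟨i, (Φ i).natAbs + 1 + ∑ j, 2 ^ a j, 0 < Φ i, fun δ h => ?_⟩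
  have e1 : ∑ j, n j * 2 ^ (a j + δ j) =
      Φ i * 2 ^ δ i + ∑ j with u j < u i, n j * 2 ^ (a j + δ j) := by
    have z : ∑ j with u i < u j, n j * 2 ^ (a j + δ j) = 0 := by
      convert zero δ h (fun k => u i < k) fun j hj => by
        by_contra e
        have := hmax j e
        omega
    rw [← sum_filter_add_sum_filter_not univ (fun j => u i < u j), z, zero_add, ← sum_filter_add_sum_filter_not _ (fun j => u j = u i), filter_filter,
      filter_filter, ← fib δ h i]
    congr 1 <;> refine sum_congr (filter_congr fun j _ => by omega) fun _ _ => rfl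
  have e2 : 2 * |∑ j with u j < u i, n j * 2 ^ (a j + δ j)| ≤ 2 ^ (a i + δ i) := by
    have : 2 ^ L * (2 * |∑ j with u j < u i, n j * 2 ^ (a j + δ j)|) ≤
        (∑ j, |n j|) * 2 ^ (a i + δ i) := by
      calc _ ≤ 2 ^ L * (2 * ∑ j with u j < u i, |n j * 2 ^ (a j + δ j)|) := by
            gcongr
            exact abs_sum_le_sum_abs _ _
        _ = ∑ j with u j < u i, |n j| * 2 ^ (a j + δ j + L + 1) := by
            rw [mul_sum, mul_sum]
            refine sum_congr rfl fun j _ => ?_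
            rw [abs_mul, abs_of_pos (a := (2 : ℤ) ^ _) (by positivity)]
            ring
        _ ≤ ∑ j with u j < u i, |n j| * 2 ^ (a i + δ i) := by
            refine sum_le_sum fun j hj => ?_
            have hj := (mem_filter.1 hj).2
            have := ha i j hj
            have := h i j hj.le
            exact mul_le_mul_of_nonneg_left (pow_le_pow_right₀ (by norm_num) (by omega))
              (abs_nonneg _)
        _ ≤ ∑ j, |n j| * 2 ^ (a i + δ i) :=
            sum_le_sum_of_subset_of_nonneg (filter_subset _ _) fun _ _ _ => by positivity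
        _ = _ := by rw [sum_mul]
    exact le_of_mul_le_mul_left (this.trans (by gcongr)) (by positivity : (0 : ℤ) < 2 ^ L)
  rw [e1]
  generalize ∑ j with u j < u i, n j * 2 ^ (a j + δ j) = r at e2
  have p1 : (0 : ℤ) < 2 ^ δ i := by positivity
  have p2 : (1 : ℤ) ≤ 2 ^ a i := one_le_pow₀ (by norm_num)
  have p3 : (0 : ℤ) ≤ ∑ j, 2 ^ a j := by positivity
  have p4 : 2 ^ a i * 2 ^ δ i ≤ |Φ i| * 2 ^ δ i := by gcongr
  have p5 : |Φ i| * 2 ^ δ i ≤ |Φ i| * (2 ^ a i * 2 ^ δ i) := by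
    gcongr
    nlinarith
  push_cast
  rw [pow_add] at e2 ⊢
  have r1 := le_abs_self r
  have r2 := neg_abs_le r
  refine ⟨?_, ?_, ?_, fun j hj => ?_⟩
  · rcases abs_cases (Φ i) with ⟨e, -⟩ | ⟨e, -⟩ <;> rw [e] at p4
    · have := le_abs_self (Φ i * 2 ^ δ i + r)
      nlinarith
    · have := neg_le_abs (Φ i * 2 ^ δ i + r)
      nlinarith
  · have := abs_add_le (Φ i * 2 ^ δ i) r
    rw [abs_mul, abs_of_pos p1] at this
    have : 0 ≤ (∑ j, (2 : ℤ) ^ a j) * (2 ^ a i * 2 ^ δ i) := by positivity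
    nlinarith
  · rcases abs_cases (Φ i) with ⟨e, e'⟩ | ⟨e, e'⟩ <;> rw [e] at p4 hd
    · constructor <;> intro <;> nlinarith
    · constructor <;> intro <;> nlinarith
  · have h1 : δ j ≤ δ i := h i j ((hmax j hj).trans hi.ge)
    have h2 : (2 : ℤ) ^ a j ≤ ∑ j, 2 ^ a j :=
      single_le_sum (f := fun j => (2 : ℤ) ^ a j) (fun _ _ => by positivity) (mem_univ j)
    have h3 : (2 : ℤ) ^ δ j ≤ 2 ^ a i * 2 ^ δ i :=
      (pow_le_pow_right₀ (by norm_num) h1).trans (by nlinarith)
    rw [pow_add]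
    have := abs_nonneg (Φ i)
    gcongr
    linarith

def atl (l : List ℕ) (k : ℕ) : ℕ := (l[k]?.map (· + 1)).getD 0

def Rl (σ : List ℕ) (y : ℕ → ℕ) : Prop := toLex (atl σ) ≤ toLex y

theorem not_R {σ : List ℕ} {y : ℕ → ℕ} :
    ¬ Rl σ y ↔ ∃ i < σ.length, (∀ j < i, y j = atl σ j) ∧ y i < atl σ i := by
  rw [Rl, not_le]
  refine ⟨fun ⟨i, h1, h2⟩ => ⟨i, ?_, h1, h2⟩, fun ⟨i, _, h⟩ => ⟨i, h⟩⟩
  by_contra e
  have h3 : y i < atl σ i := h2
  simp [atl, List.getElem?_eq_none (not_lt.1 e)] at h3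

theorem R_congr {σ : List ℕ} {y z : ℕ → ℕ} (h : ∀ j < σ.length, y j = z j) : Rl σ y ↔ Rl σ z := by
  rw [← not_iff_not, not_R, not_R]
  refine exists_congr fun i => and_congr_right fun hi => ?_
  rw [h i hi]
  exact and_congr_left fun _ => forall₂_congr fun j hj => by rw [h j (by omega)]

theorem atl_append {ν : List ℕ} (ρ : List ℕ) {j : ℕ} (h : j < ν.length) :
    atl (ν ++ ρ) j = atl ν j := by
  simp [atl, List.getElem?_append_left h]

def lev (T : List ℕ → Bool) (g : List ℕ → ℕ) : ℕ → List (List ℕ)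
  | 0 => [[]].filter fun ν => T ν = true
  | s + 1 => ((lev T g s).map fun σ => (List.range (g σ)).map fun i => σ ++ [i]).flatten.filter
      fun ν => T ν = true

structure Tr (T : List ℕ → Bool) (g : List ℕ → ℕ) : Prop where
  pre : ∀ σ τ : List ℕ, σ <+: τ → T τ = true → T σ = true
  bd : ∀ (σ : List ℕ) (i : ℕ), T (σ ++ [i]) = true → i < g σ

variable {T : List ℕ → Bool} {g : List ℕ → ℕ}

theorem mem_lev (h : Tr T g) {s : ℕ} : ∀ {ν}, ν ∈ lev T g s ↔ T ν = true ∧ ν.length = s := by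
  induction s with
  | zero =>
    intro ν
    simp only [lev, List.mem_filter, List.mem_singleton, decide_eq_true_eq, List.length_eq_zero_iff]
    tauto
  | succ s ih =>
    intro ν
    simp only [lev, List.mem_filter, List.mem_flatten, List.mem_map, decide_eq_true_eq]
    constructor
    · rintro ⟨⟨_, ⟨σ, h1, rfl⟩, h2⟩, h3⟩
      obtain ⟨i, -, rfl⟩ := List.mem_map.1 h2
      exact ⟨h3, by simp [(ih.1 h1).2]⟩
    · rintro ⟨h1, h2⟩
      obtain rfl | ⟨σ, i, rfl⟩ := ν.eq_nil_or_concat'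
      · simp at h2
      exact ⟨⟨_, ⟨σ, ih.2 ⟨h.pre _ _ (List.prefix_append _ _) h1, by simpa using h2⟩, rfl⟩,
        List.mem_map.2 ⟨i, List.mem_range.2 (h.bd σ i h1), rfl⟩⟩, h1⟩

open Classical in
noncomputable def uu (T : List ℕ → Bool) (g : List ℕ → ℕ) (s : ℕ) (σ : List ℕ) : ℕ :=
  ((lev T g s).filter fun ν => Rl σ (atl ν)).length

noncomputable def cc (T : List ℕ → Bool) (g : List ℕ → ℕ) (s : ℕ) (σ : List ℕ) : ℕ :=
  ∑ r ∈ range (s + 1), uu T g r σ

theorem uu_le {s : ℕ} {σ τ : List ℕ} (h : ∀ ν ∈ lev T g s, Rl τ (atl ν) → Rl σ (atl ν)) :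
    uu T g s τ ≤ uu T g s σ := by
  classical
  simp only [uu, ← List.countP_eq_length_filter]
  exact List.countP_mono_left fun ν hν => by simpa using h ν hν

theorem uu_lt {s : ℕ} {σ τ ν : List ℕ} (h : Rl σ (atl τ)) (hν : ν ∈ lev T g s)
    (h1 : Rl σ (atl ν)) (h2 : ¬ Rl τ (atl ν)) : uu T g s τ < uu T g s σ := by
  classical
  obtain ⟨l, l', e⟩ := List.append_of_mem hν
  have : ∀ l : List (List ℕ), (l.filter fun ν => Rl τ (atl ν)).length ≤
      (l.filter fun ν => Rl σ (atl ν)).length := fun l => by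
    simp only [← List.countP_eq_length_filter]
    exact List.countP_mono_left fun ν _ => by
      simp only [decide_eq_true_eq]
      exact fun h' => le_trans h h'
  have a1 := this l
  have a2 := this l'
  simp only [uu, e, List.filter_append, List.filter_cons, h1, h2, List.length_append]
  simp
  omega

theorem uu_mono {σ τ : List ℕ} (h : Rl σ (atl τ)) (s : ℕ) : uu T g s τ ≤ uu T g s σ :=
  uu_le fun _ _ h' => le_trans h h'

theorem persist (hT : Tr T g) {σ τ : List ℕ} {r : ℕ} (h1 : σ.length ≤ r) (h2 : τ.length ≤ r)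
    (h : uu T g r τ ≤ uu T g r σ) {s : ℕ} (hs : r ≤ s) : uu T g s τ ≤ uu T g s σ := by
  rcases le_total (toLex (atl σ)) (toLex (atl τ)) with e | e
  · exact uu_mono e s
  induction s, hs using Nat.le_induction with
  | base => exact h
  | succ s hs ih =>
    refine uu_le fun ν hν k => ?_
    obtain ⟨k1, k2⟩ := (mem_lev hT).1 hν
    obtain rfl | ⟨ρ, i, rfl⟩ := ν.eq_nil_or_concat'
    · simp at k2
    have k3 : ρ.length = s := by simpa using k2
    rw [R_congr (z := atl ρ) fun j hj => atl_append _ (by omega)] at k ⊢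
    by_contra k4
    exact absurd ih (not_le.2 (uu_lt e
      ((mem_lev hT).2 ⟨hT.pre _ _ (List.prefix_append _ _) k1, k3⟩) k k4))

theorem gap {σ τ : List ℕ} {m L : ℕ} (h0 : ∀ r, uu T g r τ ≤ uu T g r σ)
    (h : ∀ r, m ≤ r → r ≤ m + L → uu T g r τ < uu T g r σ) :
    cc T g (m + L) τ + L + 1 ≤ cc T g (m + L) σ := by
  induction L with
  | zero =>
    have := h m le_rfl le_rfl
    have := sum_le_sum (s := range m) fun r _ => h0 r
    simp only [cc, add_zero, sum_range_succ]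
    omega
  | succ L ih =>
    have := ih fun r h1 h2 => h r h1 (by omega)
    have := h (m + L + 1) (by omega) le_rfl
    simp only [cc, ← add_assoc, sum_range_succ _ (m + L + 1)] at *
    omega

theorem fam (hT : Tr T g) {ι : Type} [Fintype ι] (n : ι → ℤ) (σ : ι → List ℕ) (m L : ℕ)
    (hm : ∀ i, (σ i).length ≤ m) (hL : ∑ i, |n i| ≤ 2 ^ L) :
    (∀ s, m + L ≤ s → ∑ i, n i * 2 ^ cc T g s (σ i) = 0) ∧
      (∀ j, ∑ i with uu T g (m + L) (σ i) = uu T g (m + L) (σ j),
        n i * 2 ^ cc T g (m + L) (σ i) = 0) ∨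
    ∃ (i : ι) (K : ℕ) (p : Prop), ∀ s, m + L ≤ s →
      2 ^ cc T g s (σ i) ≤ 2 * |∑ i, n i * 2 ^ cc T g s (σ i)| ∧
      |∑ i, n i * 2 ^ cc T g s (σ i)| ≤ K * 2 ^ cc T g s (σ i) ∧
      (0 < ∑ i, n i * 2 ^ cc T g s (σ i) ↔ p) ∧
      ∀ j, ∑ i with uu T g (m + L) (σ i) = uu T g (m + L) (σ j),
        n i * 2 ^ cc T g (m + L) (σ i) ≠ 0 →
        (2 : ℤ) ^ cc T g s (σ j) ≤ K * 2 ^ cc T g s (σ i) := by
  have key : ∀ s, m + L ≤ s → ∃ δ : ι → ℕ,
      (∀ i j, uu T g (m + L) (σ j) ≤ uu T g (m + L) (σ i) → δ j ≤ δ i) ∧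
      ∀ i, cc T g s (σ i) = cc T g (m + L) (σ i) + δ i := fun s hs =>
    ⟨fun i => ∑ r ∈ Ico (m + L + 1) (s + 1), uu T g r (σ i), fun i j h =>
      sum_le_sum fun r hr => persist hT (by have := hm i; omega) (by have := hm j; omega) h
        (by have := (mem_Ico.1 hr).1; omega),
      fun i => (sum_range_add_sum_Ico _ (by omega)).symm⟩
  rcases core n (fun i => cc T g (m + L) (σ i)) (fun i => uu T g (m + L) (σ i)) L hL (by
    intro i j h
    refine gap (fun r => uu_mono ?_ r) fun r h1 h2 => ?_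
    · by_contra e
      exact absurd (uu_mono (le_of_not_ge e) (m + L)) (not_le.2 h)
    · by_contra e
      exact absurd (persist hT (by have := hm j; omega) (by have := hm i; omega) (not_lt.1 e) h2)
        (not_le.2 h)) with ⟨h1, h2⟩ | ⟨i, K, p, h⟩
  · refine Or.inl ⟨fun s hs => ?_, h2⟩
    obtain ⟨δ, k1, k2⟩ := key s hs
    simpa only [k2] using h1 δ k1
  · refine Or.inr ⟨i, K, p, fun s hs => ?_⟩
    obtain ⟨δ, k1, k2⟩ := key s hs
    simpa only [k2] using h δ k1

open Primrec in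
theorem atl_prim : Primrec₂ atl :=
  option_getD.comp (option_map list_getElem? (succ.comp snd).to₂) (const 0)

open Primrec in
theorem R_prim : PrimrecPred fun q : List ℕ × List ℕ => Rl q.1 (atl q.2) := by
  have h1 : PrimrecPred fun q : ℕ × List ℕ × List ℕ => ∀ j < q.1, atl q.2.2 j = atl q.2.1 j :=
    Orc.all_prim (R := fun p : ℕ × ℕ × List ℕ × List ℕ => atl p.2.2.2 p.1 = atl p.2.2.1 p.1)
      (Primrec.eq.comp (atl_prim.comp (snd.comp (snd.comp snd)) fst)
        (atl_prim.comp (fst.comp (snd.comp snd)) fst)) fst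
  have h2 := Orc.ex_prim (R := fun q : ℕ × List ℕ × List ℕ =>
    (∀ j < q.1, atl q.2.2 j = atl q.2.1 j) ∧ atl q.2.2 q.1 < atl q.2.1 q.1)
    (h1.and (nat_lt.comp (atl_prim.comp (snd.comp snd) fst) (atl_prim.comp (fst.comp snd) fst)))
    (list_length.comp fst)
  exact h2.not.of_eq fun q => by dsimp only; rw [← not_R, not_not]

open CList in
theorem cc_comp (hT : Computable T) (hg : Computable g) : Computable₂ (cc T g) := by
  classical
  have h0 : ComputablePred fun ν => T ν = true := ceq hT (Computable.const true)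
  have h1 : Computable fun l : List (List ℕ) =>
      (l.map fun σ => (List.range (g σ)).map fun i => σ ++ [i]).flatten.filter
        fun ν => T ν = true :=
    cfilter (p := fun _ ν => T ν = true) (Primrec.list_flatten.to_comp.comp (cmap Computable.id
      (cmap (Primrec.list_range.to_comp.comp (hg.comp Computable.snd))
        (Computable.list_concat.comp (Computable.snd.comp Computable.fst) Computable.snd).to₂).to₂))
      (cp h0 Computable.snd)
  have h2 : Computable (lev T g) := by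
    have : Computable fun s : ℕ => (Nat.rec (lev T g 0) (fun _ l =>
        (l.map fun σ => (List.range (g σ)).map fun i => σ ++ [i]).flatten.filter
          fun ν => T ν = true) s : List (List ℕ)) :=
      Computable.nat_rec Computable.id (Computable.const _)
        (h1.comp (Computable.snd.comp Computable.snd)).to₂
    refine this.of_eq fun s => ?_
    induction s with
    | zero => rfl
    | succ s ih => rw [lev.eq_2, ← ih]
  have h3 : Computable fun q : ℕ × List ℕ => uu T g q.1 q.2 :=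
    Computable.list_length.comp (cfilter (p := fun (q : ℕ × List ℕ) ν => Rl q.2 (atl ν))
      (h2.comp Computable.fst) (cp R_prim.computablePred
        ((Computable.snd.comp Computable.fst).pair Computable.snd)))
  have h4 := csum.to_comp.comp (cmap (f := fun (q : ℕ × List ℕ) r => uu T g r q.2)
    (Primrec.list_range.comp (Primrec.succ.comp Primrec.fst)).to_comp
    (h3.comp (Computable.snd.pair (Computable.snd.comp Computable.fst))).to₂)
  exact h4.of_eq fun q => rfl

end Pool.Agent.Lib.H8.Sp
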