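import Pool.Agent.Lib.H8.Sp1

/-!
Hyperreal weights of the cuts of a tree.
-/

namespace Pool.Agent.Lib.H8.Sp

open Finset Hyperreal

noncomputable def ψ : (ℕ → ℤ) →+* ℝ* :=
  (Filter.Germ.coeRingHom (Filter.hyperfilter ℕ : Filter ℕ) : (ℕ → ℝ) →+* ℝ*).comp
    ((Int.castRingHom ℝ).compLeft ℕ)

theorem ψ_le {a b : ℕ → ℤ} (s0 : ℕ) (h : ∀ s, s0 ≤ s → a s ≤ b s) : ψ a ≤ ψ b :=
  ofSeq_le_ofSeq.2 (((Filter.eventually_ge_atTop s0).mono fun s hs =>
    (Int.cast_le (R := ℝ)).2 (h s hs)).filter_mono Nat.hyperfilter_le_atTop)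

theorem ψ_lt {a b : ℕ → ℤ} (s0 : ℕ) (h : ∀ s, s0 ≤ s → a s < b s) : ψ a < ψ b :=
  ofSeq_lt_ofSeq.2 (((Filter.eventually_ge_atTop s0).mono fun s hs =>
    (Int.cast_lt (R := ℝ)).2 (h s hs)).filter_mono Nat.hyperfilter_le_atTop)

variable {T : List ℕ → Bool} {g : List ℕ → ℕ}

noncomputable def gw (T : List ℕ → Bool) (g : List ℕ → ℕ) (σ : List ℕ) : ℝ* :=
  ψ fun s => 2 ^ cc T g s σ

theorem famH (hT : Tr T g) {ι : Type} [Fintype ι] (n : ι → ℤ) (σ : ι → List ℕ) (m L : ℕ)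
    (hm : ∀ i, (σ i).length ≤ m) (hL : ∑ i, |n i| ≤ 2 ^ L) :
    (0 < ∑ i, n i * gw T g (σ i) ↔ 0 < ∑ i, n i * 2 ^ cc T g (m + L) (σ i)) ∧
    (∑ i, n i * gw T g (σ i) = 0 ∨ ∃ (i : ι) (K : ℕ),
      gw T g (σ i) ≤ K * |∑ i, n i * gw T g (σ i)| ∧
      |∑ i, n i * gw T g (σ i)| ≤ K * gw T g (σ i)) ∧
    ∀ j, ∑ i with uu T g (m + L) (σ i) = uu T g (m + L) (σ j),
      n i * 2 ^ cc T g (m + L) (σ i) ≠ 0 →
      ∃ K : ℕ, gw T g (σ j) ≤ K * |∑ i, n i * gw T g (σ i)| := by
  have e : ∑ i, n i * gw T g (σ i) = ψ fun s => ∑ i, n i * 2 ^ cc T g s (σ i) := by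
    rw [← Finset.sum_fn, map_sum]
    refine sum_congr rfl fun i _ => ?_
    rw [gw, ← map_intCast ψ, ← map_mul]
    rfl
  rw [e]
  rcases fam hT n σ m L hm hL with ⟨h1, h2⟩ | ⟨i, K, p, h⟩
  · have : (ψ fun s => ∑ i, n i * 2 ^ cc T g s (σ i)) = 0 := by
      rw [← map_zero ψ]
      exact le_antisymm (ψ_le _ fun s hs => (h1 s hs).le) (ψ_le _ fun s hs => (h1 s hs).ge)
    rw [this, h1 _ le_rfl]
    exact ⟨by simp, Or.inl rfl, fun j hj => absurd (h2 j) hj⟩
  have h0 := (h _ le_rfl).2.2.1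
  generalize hS : (fun s => ∑ i, n i * 2 ^ cc T g s (σ i)) = S
  have hS' : ∀ s, ∑ i, n i * 2 ^ cc T g s (σ i) = S s := congrFun hS
  simp only [hS'] at h h0 ⊢
  have k1 : (0 < ψ S ↔ p) ∧ |ψ S| = ψ fun s => |S s| := by
    by_cases hp : p
    · have : 0 < ψ S := map_zero ψ ▸ ψ_lt _ fun s hs => (h s hs).2.2.1.2 hp
      refine ⟨iff_of_true this hp, ?_⟩
      rw [abs_of_pos this]
      exact le_antisymm (ψ_le 0 fun s _ => le_abs_self _)
        (ψ_le _ fun s hs => (abs_of_pos ((h s hs).2.2.1.2 hp)).le)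
    · have : ψ S ≤ 0 := map_zero ψ ▸ ψ_le _ fun s hs => not_lt.1 (mt (h s hs).2.2.1.1 hp)
      refine ⟨iff_of_false (not_lt.2 this) hp, ?_⟩
      rw [abs_of_nonpos this, ← map_neg]
      exact le_antisymm (ψ_le 0 fun s _ => neg_le_abs _)
        (ψ_le _ fun s hs => (abs_of_nonpos (not_lt.1 (mt (h s hs).2.2.1.1 hp))).le)
  rw [k1.2]
  simp only [gw, ← map_natCast ψ, ← map_mul]
  refine ⟨k1.1.trans h0.symm, Or.inr ⟨i, K + 2, ψ_le (m + L) fun s hs => ?_,
    ψ_le (m + L) fun s hs => ?_⟩, fun j hj => ⟨2 * K, ψ_le (m + L) fun s hs => ?_⟩⟩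
  · have := (h s hs).1
    have := abs_nonneg (S s)
    simp only [Pi.mul_apply, Pi.natCast_apply]
    push_cast
    nlinarith
  · have := (h s hs).2.1
    have : (0 : ℤ) < 2 ^ cc T g s (σ i) := by positivity
    simp only [Pi.mul_apply, Pi.natCast_apply]
    push_cast
    nlinarith
  · have := (h s hs).1
    have := (h s hs).2.2.2 j (by simpa only [hS'] using hj)
    simp only [Pi.mul_apply, Pi.natCast_apply]
    push_cast
    nlinarith

theorem third (hT : Tr T g) {ι : Type} [Fintype ι] (n : ι → ℤ) (σ : ι → List ℕ) :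
    ∃ K : ℕ, gw T g [] ≤ K * |3 * ∑ i, n i * gw T g (σ i) - gw T g []| := by
  classical
  obtain ⟨L, hL⟩ := pow_unbounded_of_one_lt
    (∑ i : Option ι, |i.elim (-1) fun i => 3 * n i|) (one_lt_two (α := ℤ))
  obtain ⟨K, hK⟩ := (famH hT (fun i : Option ι => i.elim (-1) fun i => 3 * n i)
    (fun i => i.elim [] σ) (∑ i, (σ i).length) L (by
      rintro (_ | i)
      · simp
      · exact single_le_sum (f := fun i => (σ i).length) (fun _ _ => Nat.zero_le _) (mem_univ i))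
    hL.le).2.2 none (by
      rw [sum_filter, Fintype.sum_option]
      simp only [if_true, Option.elim]
      intro h
      have h1 : (3 : ℤ) ∣ 2 ^ cc T g (∑ i, (σ i).length + L) [] := by
        rw [neg_one_mul, neg_add_eq_zero] at h
        rw [h]
        refine dvd_sum fun i _ => ?_
        rw [apply_ite ((3 : ℤ) ∣ ·)]
        simp [mul_assoc]
      exact absurd (Int.prime_three.dvd_of_dvd_pow h1) (by norm_num))
  refine ⟨K, hK.trans_eq ?_⟩
  rw [Fintype.sum_option, mul_sum]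
  simp only [Option.elim]
  push_cast
  congr 2
  rw [neg_one_mul, neg_add_eq_sub]
  simp only [mul_assoc]

noncomputable def wt (w : ℕ → ℝ*) (A : List ℕ) : ℝ* := (A.map w).sum

structure Wt (w : ℕ → ℝ*) (z t : ℕ) : Prop where
  pos : ∀ i, 1 ≤ w i
  top : w t = 1
  inf : ∀ n : ℕ, n < w z
  dec : ComputablePred fun q : List ℕ × List ℕ => wt w q.1 ≤ wt w q.2
  str : ∀ A B, wt w A = wt w B ∨
    ∃ (i K : ℕ), w i ≤ K * |wt w A - wt w B| ∧ |wt w A - wt w B| ≤ K * w i
  third : ∀ A B, ∃ K : ℕ, w z ≤ K * |3 * (wt w A - wt w B) - w z|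

def st (i : ℕ) : List ℕ := Denumerable.ofNat (List ℕ) i

theorem sum_AB {M : Type} [Ring M] (F : ℕ → M) (A B : List ℕ) :
    ∑ i : Fin A.length ⊕ Fin B.length, ((i.elim (fun _ => 1) fun _ => -1 : ℤ) : M) *
      F (i.elim (fun i => A[i.1]) fun i => B[i.1]) = (A.map F).sum - (B.map F).sum := by
  simp [Fintype.sum_sum_type, Fin.sum_univ_fun_getElem, sub_eq_add_neg]

theorem gw_pos (σ : List ℕ) : 1 ≤ gw T g σ :=
  map_one ψ ▸ ψ_le 0 fun _ _ => one_le_pow₀ (by norm_num)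

theorem gw_le {σ τ : List ℕ} (r0 : ℕ) (h : ∀ r, r0 ≤ r → uu T g r σ ≤ uu T g r τ) :
    ∃ K : ℕ, gw T g σ ≤ K * gw T g τ := by
  refine ⟨2 ^ cc T g r0 σ, ?_⟩
  rw [gw, gw, ← map_natCast ψ, ← map_mul]
  refine ψ_le r0 fun s hs => ?_
  simp only [Pi.mul_apply, Pi.natCast_apply]
  push_cast
  rw [← pow_add]
  refine pow_le_pow_right₀ (by norm_num) ?_
  induction s, hs using Nat.le_induction with
  | base => omega
  | succ s hs ih =>
    have := h (s + 1) (by omega)
    simp only [cc, sum_range_succ _ (s + 1)] at *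
    omega

theorem gw_one {σ : List ℕ} (h : ∀ r, uu T g r σ = 0) : gw T g σ = 1 := by
  simp only [gw, cc, h, sum_const_zero, pow_zero]
  exact map_one ψ

theorem pre_mem (hT : Tr T g) {f : ℕ → ℕ} (hf : ∀ n, T ((List.range n).map f) = true) (r : ℕ) :
    (List.range r).map f ∈ lev T g r := (mem_lev hT).2 ⟨hf r, by simp⟩

theorem R_pre {σ : List ℕ} {f : ℕ → ℕ} {r : ℕ} (h : σ.length ≤ r) :
    Rl σ (atl ((List.range r).map f)) ↔ Rl σ fun k => f k + 1 :=
  R_congr fun j hj => by simp [atl, (by omega : j < r)]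

theorem gw_lt (hT : Tr T g) {f : ℕ → ℕ} (hf : ∀ n, T ((List.range n).map f) = true)
    {σ τ : List ℕ} (h1 : Rl σ fun k => f k + 1) (h2 : ¬ Rl τ fun k => f k + 1) (K : ℕ) :
    K * gw T g τ < gw T g σ := by
  have h3 : Rl σ (atl τ) := h1.trans (le_of_not_ge h2)
  rw [gw, gw, ← map_natCast ψ, ← map_mul]
  refine ψ_lt (σ.length + τ.length + K) fun s hs => ?_
  obtain ⟨L, rfl⟩ : ∃ L, s = σ.length + τ.length + L := ⟨s - (σ.length + τ.length), by omega⟩
  have := gap (T := T) (g := g) (m := σ.length + τ.length) (L := L) (uu_mono h3) fun r k1 _ =>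
    uu_lt h3 (pre_mem hT hf r) ((R_pre (by omega)).2 h1) (mt (R_pre (by omega)).1 h2)
  simp only [Pi.mul_apply, Pi.natCast_apply]
  have k1 : (K : ℤ) < 2 ^ L := by
    exact_mod_cast Nat.lt_two_pow_self.trans_le (Nat.pow_le_pow_right two_pos (by omega : K ≤ L))
  calc _ < (2 : ℤ) ^ L * 2 ^ cc T g (σ.length + τ.length + L) τ := by gcongr
    _ ≤ _ := by rw [← pow_add]; exact pow_le_pow_right₀ (by norm_num) (by omega)

theorem R_nil (y : ℕ → ℕ) : Rl [] y := by
  by_contra h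
  simpa using not_R.1 h

theorem not_R_top (hT : Tr T g) {ν : List ℕ} (h : T ν = true) : ¬ Rl [g []] (atl ν) := by
  refine not_R.2 ⟨0, by simp, by simp, ?_⟩
  cases ν with
  | nil => simp [atl]
  | cons a ν => simpa [atl] using hT.bd [] a (hT.pre _ _ ⟨ν, rfl⟩ h)

theorem uu_zero {σ : List ℕ} {r : ℕ} (h : ∀ ν ∈ lev T g r, ¬ Rl σ (atl ν)) : uu T g r σ = 0 := by
  simpa [uu] using h

theorem gw_top (hT : Tr T g) : gw T g [g []] = 1 :=
  gw_one fun _ => uu_zero fun _ h => not_R_top hT ((mem_lev hT).1 h).1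

theorem gw_inf (hT : Tr T g) {f : ℕ → ℕ} (hf : ∀ n, T ((List.range n).map f) = true)
    {σ : List ℕ} (h1 : Rl σ fun k => f k + 1) (K : ℕ) : K < gw T g σ := by
  simpa [gw_top hT] using gw_lt hT hf h1 (mt (R_pre le_rfl).2 (not_R_top hT (hf _))) K

open CList in
theorem weights (hT : Tr T g) (h1 : Computable T) (h2 : Computable g) {f : ℕ → ℕ}
    (hf : ∀ n, T ((List.range n).map f) = true) :
    Wt (fun i => gw T g (st i)) (Encodable.encode ([] : List ℕ)) (Encodable.encode [g []]) := by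
  have key := fun A B : List ℕ => famH hT
    (fun i : Fin A.length ⊕ Fin B.length => i.elim (fun _ => 1) fun _ => -1)
    (fun i => st (i.elim (fun i => A[i.1]) fun i => B[i.1]))
    ((A ++ B).map fun i => (st i).length).sum (A.length + B.length) (by
      rintro (i | i) <;> exact List.le_sum_of_mem (List.mem_map.2 ⟨_, by simp, rfl⟩)) (by
      simp only [Fintype.sum_sum_type, Sum.elim_inl, Sum.elim_inr]
      simp
      exact_mod_cast Nat.lt_two_pow_self.le)
  have e1 : st (Encodable.encode ([] : List ℕ)) = [] := Denumerable.ofNat_encode _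
  refine ⟨fun i => gw_pos _, by simp only [st, Denumerable.ofNat_encode, gw_top hT],
    fun n => by simpa only [e1] using gw_inf hT hf (R_nil _) n, ?_, fun A B => ?_, fun A B => ?_⟩
  · have hs : Primrec st := Primrec.ofNat _
    have c1 : Computable fun q : ℕ × List ℕ => (q.2.map fun i => 2 ^ cc T g q.1 (st i)).sum :=
      csum.to_comp.comp (cmap Computable.snd (Orc.pow_prim.to_comp.comp ((cc_comp h1 h2).comp
        (Computable.fst.comp Computable.fst) (hs.to_comp.comp Computable.snd))).to₂)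
    have c2 : Primrec fun q : List ℕ × List ℕ =>
        ((q.1 ++ q.2).map fun i => (st i).length).sum + (q.1.length + q.2.length) :=
      Primrec.nat_add.comp (csum.comp (Primrec.list_map Primrec.list_append
        (Primrec.list_length.comp (hs.comp Primrec.snd)).to₂))
        (Primrec.nat_add.comp (Primrec.list_length.comp Primrec.fst)
          (Primrec.list_length.comp Primrec.snd))
    refine (cp (p := fun q : ℕ × ℕ => q.1 ≤ q.2) Primrec.nat_le.computablePred
      ((c1.comp (c2.to_comp.pair Computable.fst)).pair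
        (c1.comp (c2.to_comp.pair Computable.snd)))).of_eq fun q => ?_
    have := (key q.1 q.2).1
    rw [sum_AB fun i => gw T g (st i)] at this
    have e := sum_AB (fun i => (2 : ℤ) ^ cc T g (((q.1 ++ q.2).map fun i => (st i).length).sum +
      (q.1.length + q.2.length)) (st i)) q.1 q.2
    simp only [Int.cast_id] at e
    rw [e, sub_pos, sub_pos, ← not_le, ← not_le, not_iff_not] at this
    rw [wt, wt, this, ← Nat.cast_le (α := ℤ)]
    simp [Nat.cast_list_sum, Function.comp_def]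
  · have := (key A B).2.1
    rw [sum_AB fun i => gw T g (st i), sub_eq_zero] at this
    exact this.imp id fun ⟨i, h⟩ => ⟨_, h⟩
  · have := third hT (fun i : Fin A.length ⊕ Fin B.length => i.elim (fun _ => 1) fun _ => -1)
      fun i => st (i.elim (fun i => A[i.1]) fun i => B[i.1])
    rwa [sum_AB fun i => gw T g (st i), ← e1] at this

end Pool.Agent.Lib.H8.Sp
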