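import Pool.Agent.Lib.H8.Sp2
import Pool.Agent.Lib.H8.FR2
import Pool.Agent.Lib.H8.Pres

/-!
A computable chain ring built from weights.
-/

namespace Pool.Agent.Lib.H8.Sp

open Hyperreal HahnSeries FR CList

abbrev KK := HahnSeries ℝ* ℚ

noncomputable def em (w : ℕ → ℝ*) (m : Mon) : KK := single (wt w m.2) ((-1) ^ m.1)
noncomputable def ek (w : ℕ → ℝ*) (p : Pol) : KK := (p.map (em w)).sum

variable {w : ℕ → ℝ*} {z t : ℕ}

theorem ek_append (p q : Pol) : ek w (p ++ q) = ek w p + ek w q := by simp [ek]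

theorem ek_cons (m : Mon) (q : Pol) : ek w (m :: q) = em w m + ek w q := by simp [ek]

theorem wt_append (A B : List ℕ) : wt w (A ++ B) = wt w A + wt w B := by simp [wt]

theorem ek_mul (p q : Pol) : ek w (mul p q) = ek w p * ek w q := by
  induction p with
  | nil => simp [mul, ek]
  | cons m p ih =>
    have : mul (m :: p) q = (q.map fun n => (m.1 + n.1, m.2 ++ n.2)) ++ mul p q := by simp [mul]
    rw [this, ek_append, ih, ek_cons, add_mul]
    congr 1
    clear ih this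
    induction q with
    | nil => simp [ek]
    | cons n q ih =>
      rw [List.map_cons, ek_cons, ek_cons, ih, mul_add]
      congr 1
      simp only [em, single_mul_single, wt_append, _root_.pow_add]

open Classical in
noncomputable def cn (w : ℕ → ℝ*) (p : Pol) (b : ℕ) (γ : ℝ*) : ℕ :=
  (p.filter fun n => n.1 % 2 = b ∧ wt w n.2 = γ).length

theorem ek_coeff (p : Pol) (γ : ℝ*) : (ek w p).coeff γ = (cn w p 0 γ : ℚ) - cn w p 1 γ := by
  classical
  induction p with
  | nil => simp [ek, cn]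
  | cons m p ih =>
    simp only [ek_cons, coeff_add, em, coeff_single, cn, List.filter_cons] at ih ⊢
    rw [ih]
    rcases Nat.even_or_odd m.1 with h | h
    · have := Nat.even_iff.1 h
      by_cases e : wt w m.2 = γ <;> simp [h.neg_one_pow, this, e, eq_comm (a := γ)]
      ring
    · have := Nat.odd_iff.1 h
      by_cases e : wt w m.2 = γ <;> simp [h.neg_one_pow, this, e, eq_comm (a := γ)]
      ring

theorem coeff_supp {p : Pol} {γ : ℝ*} (h : (ek w p).coeff γ ≠ 0) : ∃ m ∈ p, wt w m.2 = γ := by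
  by_contra e
  push Not at e
  have : ∀ b, cn w p b γ = 0 := fun b => by
    simp only [cn, List.length_eq_zero_iff, List.filter_eq_nil_iff]
    intro m hm
    simp [e m hm]
  exact h (by rw [ek_coeff, this, this, sub_self])

theorem coeff_comp (h : Wt w z t) :
    ComputablePred fun q : Pol × List ℕ => (ek w q.1).coeff (wt w q.2) = 0 := by
  classical
  have h1 : ComputablePred fun q : (Pol × List ℕ) × Mon => wt w q.2.2 = wt w q.1.2 :=
    (cand (cp h.dec ((Computable.snd.comp Computable.snd).pair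
      (Computable.snd.comp Computable.fst))) (cp h.dec ((Computable.snd.comp Computable.fst).pair
      (Computable.snd.comp Computable.snd)))).of_eq fun q => le_antisymm_iff.symm
  have h2 : ∀ b, Computable fun q : Pol × List ℕ => cn w q.1 b (wt w q.2) := fun b =>
    Computable.list_length.comp (cfilter
      (p := fun (q : Pol × List ℕ) (n : Mon) => n.1 % 2 = b ∧ wt w n.2 = wt w q.2) Computable.fst
      (cand (Primrec.eq.comp (Primrec.nat_mod.comp (Primrec.fst.comp Primrec.snd)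
        (Primrec.const 2)) (Primrec.const b)).computablePred h1))
  exact (ceq (h2 0) (h2 1)).of_eq fun q => by rw [ek_coeff, sub_eq_zero, Nat.cast_inj]

theorem zero_comp (h : Wt w z t) : ComputablePred fun p : Pol => ek w p = 0 := by
  refine (call (p := fun (p : Pol) (m : Mon) => (ek w p).coeff (wt w m.2) = 0) Computable.id
    (cp (coeff_comp h) (Computable.fst.pair (Computable.snd.comp Computable.snd)))).of_eq
    fun p => ⟨fun H => ?_, fun H => by simp [H]⟩
  by_contra e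
  obtain ⟨m, hm, e'⟩ := coeff_supp (mt coeff_order_eq_zero.1 e)
  exact e (coeff_order_eq_zero.1 (e' ▸ H m hm))

theorem lead (h : Wt w z t) : ∃ ld : Pol → List ℕ, Computable ld ∧
    ∀ p, ek w p ≠ 0 → (ek w p).order = wt w (ld p) := by
  obtain ⟨ld, h1, h2⟩ := csel (P := fun (p : Pol) (A : List ℕ) => ek w p = 0 ∨
      (¬ (ek w p).coeff (wt w A) = 0 ∧
        ∀ m ∈ p, ¬ (ek w p).coeff (wt w m.2) = 0 → wt w A ≤ wt w m.2))
    (cor (cp (zero_comp h) Computable.fst) (cand (coeff_comp h).not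
      (call (p := fun (q : Pol × List ℕ) (m : Mon) =>
        ¬ (ek w q.1).coeff (wt w m.2) = 0 → wt w q.2 ≤ wt w m.2) Computable.fst
        (cimp (cp (coeff_comp h) ((Computable.fst.comp Computable.fst).pair
          (Computable.snd.comp Computable.snd))).not
          (cp h.dec ((Computable.snd.comp Computable.fst).pair
            (Computable.snd.comp Computable.snd))))))) (by
      intro p
      by_cases e : ek w p = 0
      · exact ⟨[], Or.inl e⟩
      obtain ⟨m, hm, e'⟩ := coeff_supp (mt coeff_order_eq_zero.1 e)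
      exact ⟨m.2, Or.inr ⟨e' ▸ mt coeff_order_eq_zero.1 e,
        fun n _ hn => e' ▸ order_le_of_coeff_ne_zero hn⟩⟩)
  refine ⟨ld, h1, fun p e => ?_⟩
  obtain ⟨k1, k2⟩ := (h2 p).resolve_left e
  obtain ⟨m, hm, e'⟩ := coeff_supp (mt coeff_order_eq_zero.1 e)
  exact le_antisymm (order_le_of_coeff_ne_zero k1)
    (e' ▸ k2 m hm (e' ▸ mt coeff_order_eq_zero.1 e))

theorem order_div {a b : KK} (ha : a ≠ 0) (hb : b ≠ 0) : (a / b).order = a.order - b.order := by
  rw [eq_sub_iff_add_eq, ← order_mul (div_ne_zero ha hb) hb, div_mul_cancel₀ _ hb]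

noncomputable def vl (w : ℕ → ℝ*) (a : Pol × Pol) : KK := ek w a.1 / ek w a.2

open Classical in
noncomputable def ad (w : ℕ → ℝ*) (a b : Pol × Pol) : Pol × Pol :=
  if ek w a.2 = 0 then b else if ek w b.2 = 0 then a
  else (mul a.1 b.2 ++ mul a.2 b.1, mul a.2 b.2)

def mu (a b : Pol × Pol) : Pol × Pol := (mul a.1 b.1, mul a.2 b.2)
def ng (a : Pol × Pol) : Pol × Pol := (mul [(1, [])] a.1, a.2)

theorem vl_add (a b) : vl w (ad w a b) = vl w a + vl w b := by
  unfold ad vl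
  split_ifs with h1 h2
  · simp [h1]
  · simp [h2]
  · simp only [ek_append, ek_mul]
    field_simp

theorem vl_mul (a b) : vl w (mu a b) = vl w a * vl w b := by
  simp only [vl, mu, ek_mul, mul_div_mul_comm]

theorem ek_neg : ek w [(1, [])] = -1 := by
  simp only [ek, em, wt, List.map_cons, List.map_nil, List.sum_cons, List.sum_nil, add_zero,
    pow_one]
  ext; simp

theorem ek_one : ek w [(0, [])] = 1 := by simp [ek, em, wt]

theorem vl_neg (a) : vl w (ng a) = -vl w a := by simp [vl, ng, ek_mul, ek_neg, neg_div]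

theorem vl_x (i : ℕ) : vl w ([(0, [i])], [(0, [])]) = single (w i) 1 := by
  rw [vl, ek_one]
  simp [ek, em, wt]

def FK (w : ℕ → ℝ*) : Subfield KK where
  carrier := Set.range (vl w)
  mul_mem' := by rintro _ _ ⟨a, rfl⟩ ⟨b, rfl⟩; exact ⟨_, vl_mul a b⟩
  one_mem' := ⟨([(0, [])], [(0, [])]), by simp [vl, ek_one]⟩
  add_mem' := by rintro _ _ ⟨a, rfl⟩ ⟨b, rfl⟩; exact ⟨_, vl_add a b⟩
  zero_mem' := ⟨([], []), by simp [vl, ek]⟩
  neg_mem' := by rintro _ ⟨a, rfl⟩; exact ⟨_, vl_neg a⟩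
  inv_mem' := by rintro _ ⟨a, rfl⟩; exact ⟨a.swap, by simp [vl]⟩

theorem ad_comp (h : Wt w z t) : Computable₂ (ad w) := by
  classical
  open Primrec in
  exact cite (cp (zero_comp h) (snd.comp fst).to_comp) Computable.snd
    (cite (cp (zero_comp h) (snd.comp snd).to_comp) Computable.fst
    ((list_append.comp (mul_prim.comp (fst.comp fst) (snd.comp snd))
      (mul_prim.comp (snd.comp fst) (fst.comp snd))).pair
      (mul_prim.comp (snd.comp fst) (snd.comp snd))).to_comp)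

open Primrec in
theorem mu_prim : Primrec₂ mu :=
  (mul_prim.comp (fst.comp fst) (fst.comp snd)).pair (mul_prim.comp (snd.comp fst) (snd.comp snd))

open Primrec in
theorem ng_prim : Primrec ng := (mul_prim.comp (const _) fst).pair snd

def Up (C : ℝ* → Prop) (a : KK) : Prop := a = 0 ∨ C a.order

theorem Up.add {C : ℝ* → Prop} (hC : ∀ x y, x ≤ y → C x → C y) {a b : KK} (ha : Up C a)
    (hb : Up C b) : Up C (a + b) := by
  rcases ha with rfl | ha
  · rwa [zero_add]
  rcases hb with rfl | hb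
  · rw [add_zero]; exact Or.inr ha
  by_cases e : a + b = 0
  · exact Or.inl e
  refine Or.inr (hC _ _ (min_order_le_order_add e) ?_)
  rcases min_choice a.order b.order with h | h <;> rwa [h]

theorem Up.mul {A B C : ℝ* → Prop} {a b : KK} (ha : Up A a) (hb : Up B b)
    (h : a ≠ 0 → b ≠ 0 → A a.order → B b.order → C (a.order + b.order)) : Up C (a * b) := by
  by_cases e : a = 0
  · exact Or.inl (by simp [e])
  by_cases e' : b = 0
  · exact Or.inl (by simp [e'])
  exact Or.inr (order_mul e e' ▸ h e e' (ha.resolve_left e) (hb.resolve_left e'))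

def VV (w : ℕ → ℝ*) : Subring KK where
  carrier := {a | a ∈ FK w ∧ Up (fun γ => ∃ n : ℕ, -(n : ℝ*) ≤ γ) a}
  mul_mem' ha hb := ⟨mul_mem ha.1 hb.1, ha.2.mul hb.2 fun _ _ ⟨n, hn⟩ ⟨m, hm⟩ =>
    ⟨n + m, by push_cast; linarith⟩⟩
  one_mem' := ⟨one_mem _, Or.inr ⟨0, by simp⟩⟩
  add_mem' ha hb := ⟨add_mem ha.1 hb.1,
    Up.add (fun _ _ h ⟨n, hn⟩ => ⟨n, hn.trans h⟩) ha.2 hb.2⟩
  zero_mem' := ⟨zero_mem _, Or.inl rfl⟩
  neg_mem' ha := ⟨neg_mem ha.1, ha.2.imp neg_eq_zero.2 fun h => by rwa [order_neg]⟩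

theorem order_FK (h : Wt w z t) {a : KK} (ha : a ∈ FK w) (h0 : a ≠ 0) :
    ∃ A B, a.order = wt w A - wt w B := by
  obtain ⟨ld, -, h2⟩ := lead h
  obtain ⟨a, rfl⟩ := ha
  obtain ⟨k1, k2⟩ := div_ne_zero_iff.1 h0
  exact ⟨_, _, by rw [vl, order_div k1 k2, h2 _ k1, h2 _ k2]⟩

def II (h : Wt w z t) : Ideal (VV w) where
  carrier := {a | Up (fun γ => w z < 3 * γ) a}
  add_mem' {a b} ha hb := Up.add (C := fun γ => w z < 3 * γ) (a := a) (b := b)
    (fun _ _ h h' => by linarith) ha hb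
  zero_mem' := Or.inl rfl
  smul_mem' c a ha := c.2.2.mul (B := fun γ => w z < 3 * γ) (C := fun γ => w z < 3 * γ) (b := a)
      ha fun _ h0 ⟨n, hn⟩ h1 => by
    obtain ⟨A, B, e⟩ := order_FK h a.2.1 h0
    obtain ⟨K, hK⟩ := h.third A B
    rw [← e, abs_of_pos (by linarith)] at hK
    have h2 := h.inf (K * (3 * n))
    push_cast at h2
    have := lt_of_mul_lt_mul_left (h2.trans_le hK) (Nat.cast_nonneg K)
    linarith

noncomputable def xx (h : Wt w z t) (i : ℕ) : VV w :=
  ⟨single (w i) 1, ⟨_, vl_x i⟩, Or.inr ⟨0, by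
    rw [order_single one_ne_zero]
    have := h.pos i
    push_cast
    linarith⟩⟩

theorem xx_ne (h : Wt w z t) (i : ℕ) : (xx h i : KK) ≠ 0 := single_ne_zero one_ne_zero

theorem xx_order (h : Wt w z t) (i : ℕ) : (xx h i : KK).order = w i := order_single one_ne_zero

theorem dv (a b : VV w) (ha : (a : KK) ≠ 0) (hb : (b : KK) ≠ 0) (n : ℕ)
    (h : (b : KK).order ≤ (a : KK).order + n) : ∃ c, a = c * b :=
  ⟨⟨a / b, div_mem a.2.1 b.2.1, Or.inr ⟨n, by rw [order_div ha hb]; linarith⟩⟩,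
    Subtype.ext (div_mul_cancel₀ _ hb).symm⟩

theorem dvp (a b : VV w) (ha : (a : KK) ≠ 0) (hb : (b : KK) ≠ 0) (K : ℕ)
    (h0 : 0 ≤ (a : KK).order) (h : (b : KK).order ≤ K * (a : KK).order) :
    ∃ c, a ^ (K + 1) = c * b :=
  dv _ b (pow_ne_zero _ ha) hb 0 (by
    rw [SubmonoidClass.coe_pow, order_pow, nsmul_eq_mul]
    push_cast
    linarith)

theorem assoc (h : Wt w z t) (a : VV w) (h0 : (a : KK) ≠ 0) :
    ∃ i K b c, a ^ (K + 1) = b * xx h i ∧ xx h i ^ (K + 1) = c * a := by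
  obtain ⟨n, hn⟩ := a.2.2.resolve_left h0
  rcases le_or_gt (a : KK).order 0 with e | e
  · obtain ⟨b, hb⟩ := dv a (xx h t) h0 (xx_ne h t) (n + 1) (by
      rw [xx_order, h.top]; push_cast; linarith)
    obtain ⟨c, hc⟩ := dv (xx h t) a (xx_ne h t) h0 0 (by
      rw [xx_order, h.top]; push_cast; linarith)
    exact ⟨t, 0, b, c, by simpa using hb, by simpa using hc⟩
  obtain ⟨A, B, e'⟩ := order_FK h a.2.1 h0
  rcases h.str A B with k | ⟨i, K, k1, k2⟩
  · rw [e', k, sub_self] at e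
    exact absurd e (lt_irrefl _)
  rw [← e', abs_of_pos e, ← xx_order h] at k1 k2
  obtain ⟨b, hb⟩ := dvp a (xx h i) h0 (xx_ne h i) K e.le k1
  obtain ⟨c, hc⟩ := dvp (xx h i) a (xx_ne h i) h0 K (by
    rw [xx_order]; linarith [h.pos i]) k2
  exact ⟨i, K, b, c, hb, hc⟩

theorem primes (h : Wt w z t) (S : Set ℕ) (hz : z ∈ S) (h1 : ∀ i ∈ S, ∀ n : ℕ, n < w i)
    (h2 : ∀ i ∈ S, ∀ j (K : ℕ), w i ≤ K * w j → j ∈ S) :
    ∃ P : Ideal (VV w), P.IsPrime ∧ II h ≤ P ∧ ∀ i, xx h i ∈ P ↔ i ∈ S := by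
  let P : Ideal (VV w) :=
    { carrier := {a | Up (fun γ => ∃ i ∈ S, ∃ K : ℕ, w i ≤ K * γ) a}
      add_mem' := fun {a b} ha hb => Up.add (C := fun γ => ∃ i ∈ S, ∃ K : ℕ, w i ≤ K * γ)
        (a := a) (b := b) (fun _ _ h ⟨i, hi, K, hK⟩ => ⟨i, hi, K, hK.trans (by gcongr)⟩) ha hb
      zero_mem' := Or.inl rfl
      smul_mem' := fun c a ha => c.2.2.mul (B := fun γ => ∃ i ∈ S, ∃ K : ℕ, w i ≤ K * γ)
        (C := fun γ => ∃ i ∈ S, ∃ K : ℕ, w i ≤ K * γ) (b := a) ha
        fun _ _ ⟨n, hn⟩ ⟨i, hi, K, hK⟩ =>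
        ⟨i, hi, 2 * K, by
          have := h1 i hi (2 * K * n)
          have : (0 : ℝ*) ≤ K := Nat.cast_nonneg K
          push_cast at *
          nlinarith⟩ }
  refine ⟨P, ⟨fun e => ?_, fun {a b} hab => ?_⟩, fun a ha => Or.imp id (fun k => ⟨z, hz, 3, ?_⟩) ha,
    fun i => ⟨fun k => ?_, fun k => Or.inr ⟨i, k, 1, by simp [xx_order]⟩⟩⟩
  · rcases (Ideal.eq_top_iff_one _).1 e with k | ⟨i, hi, K, k⟩
    · exact one_ne_zero k
    · have := h.pos i
      simp at k
      linarith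
  · by_cases ha : (a : KK) = 0
    · exact Or.inl (Or.inl ha)
    by_cases hb : (b : KK) = 0
    · exact Or.inr (Or.inl hb)
    obtain ⟨i, hi, K, k⟩ := hab.resolve_left (mul_ne_zero ha hb)
    rw [Subring.coe_mul, order_mul ha hb] at k
    have : (0 : ℝ*) ≤ K := Nat.cast_nonneg K
    rcases le_total (a : KK).order (b : KK).order with e | e
    · exact Or.inr (Or.inr ⟨i, hi, 2 * K, by push_cast; nlinarith⟩)
    · exact Or.inl (Or.inr ⟨i, hi, 2 * K, by push_cast; nlinarith⟩)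
  · exact_mod_cast k.le
  · obtain ⟨j, hj, K, k⟩ := k.resolve_left (xx_ne h i)
    exact h2 j hj i K (xx_order h i ▸ k)

end Pool.Agent.Lib.H8.Sp
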