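import Pool.Agent.Lib.H8.Sp3

/-!
The computable presentation of the chain ring.
-/

namespace Pool.Agent.Lib.H8.Sp

open Hyperreal HahnSeries FR CList

variable {w : ℕ → ℝ*} {z t : ℕ}

theorem op_comp {α R : Type} [Primcodable α] (e : ℕ ≃ R) (F : α → R)
    (h : ComputablePred fun q : α × ℕ => e q.2 = F q.1) : Computable fun a => e.symm (F a) := by
  obtain ⟨f, h1, h2⟩ := csel (P := fun a n => e n = F a) h fun a => ⟨e.symm (F a), by simp⟩
  exact h1.of_eq fun a => by rw [← h2, Equiv.symm_apply_apply]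

theorem lead2 (h : Wt w z t) : ∃ l1 l2 : Pol × Pol → List ℕ, Computable l1 ∧ Computable l2 ∧
    ∀ a, vl w a ≠ 0 → (vl w a).order = wt w (l1 a) - wt w (l2 a) := by
  obtain ⟨ld, l1, l2⟩ := lead h
  refine ⟨_, _, l1.comp Computable.fst, l1.comp Computable.snd, fun a h0 => ?_⟩
  obtain ⟨k1, k2⟩ := div_ne_zero_iff.1 h0
  rw [vl, order_div k1 k2, l2 _ k1, l2 _ k2]

theorem c0 (h : Wt w z t) : ComputablePred fun a => vl w a = 0 :=
  (cor (cp (zero_comp h) Computable.fst) (cp (zero_comp h) Computable.snd)).of_eq fun a => by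
    simp [vl]

theorem cI (h : Wt w z t) : ComputablePred fun a => Up (fun γ => w z < 3 * γ) (vl w a) := by
  obtain ⟨l1, l2, h1, h2, od⟩ := lead2 h
  have a3 : Computable fun A : List ℕ => A ++ (A ++ A) :=
    (Primrec.list_append.comp Primrec.id (Primrec.list_append.comp Primrec.id Primrec.id)).to_comp
  refine (cor (c0 h) (cp h.dec ((a3.comp h1).pair
    (Computable.list_cons.comp (Computable.const z) (a3.comp h2)))).not).of_eq fun a => ?_
  refine or_congr_right' fun h0 => ?_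
  simp only [od a h0, wt, List.map_append, List.sum_append, List.map_cons, List.sum_cons, not_le]
  constructor <;> intro <;> linarith

theorem cV (h : Wt w z t) :
    ComputablePred fun c : (Pol × Pol) × ℕ => Up (fun γ => -(c.2 : ℝ*) ≤ γ) (vl w c.1) := by
  obtain ⟨l1, l2, h1, h2, od⟩ := lead2 h
  have hr : Primrec fun n : ℕ => (List.range n).map fun _ => t :=
    Primrec.list_map Primrec.list_range (Primrec.const t).to₂
  refine (cor (cp (c0 h) Computable.fst) (cp h.dec
    ((h2.comp Computable.fst).pair (Computable.list_append.comp (h1.comp Computable.fst)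
      (hr.to_comp.comp Computable.snd))))).of_eq fun a => ?_
  refine or_congr_right' fun h0 => ?_
  simp only [od _ h0, wt, List.map_append, List.sum_append, List.map_map, Function.comp_def,
    h.top]
  simp only [List.map_const', List.length_range, List.sum_replicate, nsmul_eq_mul, mul_one]
  constructor <;> intro <;> linarith

theorem cd_ex (h : Wt w z t) : ∃ cd : (Pol × Pol) × ℕ → Pol × Pol, Computable cd ∧
    (∀ c, vl w (cd c) ∈ VV w) ∧ ∀ a ∈ VV w, ∃ c, vl w (cd c) = a := by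
  classical
  refine ⟨_, cite (cV h) Computable.fst (Computable.const ([], [])), fun c => ?_, ?_⟩
  · split_ifs with k
    · exact ⟨⟨_, rfl⟩, k.imp id fun k => ⟨_, k⟩⟩
    · simp [vl, ek]
  · rintro _ ⟨⟨a, rfl⟩, k | ⟨n, k⟩⟩
    · exact ⟨(a, 0), by rw [if_pos]; exact Or.inl k⟩
    · exact ⟨(a, n), by rw [if_pos]; exact Or.inr k⟩

theorem inf_q (h : Wt w z t) : Infinite (VV w ⧸ II h) := by
  refine Infinite.of_injective (Nat.cast : ℕ → VV w ⧸ II h) fun n m e => ?_
  rw [← map_natCast (Ideal.Quotient.mk (II h)), ← map_natCast (Ideal.Quotient.mk (II h)),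
    Ideal.Quotient.eq] at e
  have e1 : (((n : VV w) - m : VV w) : KK) = C ((n : ℚ) - m) := by
    rw [map_sub, map_natCast, map_natCast]
    simp
  rcases e with e | e
  · rw [e1, map_eq_zero, sub_eq_zero] at e
    exact_mod_cast e
  · have := h.pos z
    simp only [e1, order_C] at e
    linarith

theorem eqv (h : Wt w z t) {α : Type} [Primcodable α] {F G : α → Pol × Pol} (cF : Computable F)
    (cG : Computable G) (a b : α → VV w) (ha : ∀ x, (a x : KK) = vl w (F x))
    (hb : ∀ x, (b x : KK) = vl w (G x)) :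
    ComputablePred fun x => Ideal.Quotient.mk (II h) (a x) = Ideal.Quotient.mk (II h) (b x) :=
  (cp (cI h) ((ad_comp h).comp cF (ng_prim.to_comp.comp cG))).of_eq fun x => by
    rw [Ideal.Quotient.eq, vl_add, vl_neg, ← sub_eq_add_neg, ← ha, ← hb, ← AddSubgroupClass.coe_sub]
    exact Iff.rfl

theorem pres (h : Wt w z t) : ∃ (e : ℕ ≃ VV w ⧸ II h) (G : ℕ → Pol × Pol) (a : ℕ → VV w),
    Computable G ∧ (∀ n, (a n : KK) = vl w (G n)) ∧ ∀ n, e n = Ideal.Quotient.mk (II h) (a n) := by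
  obtain ⟨cd, d1, d2, d3⟩ := cd_ex h
  have := inf_q h
  obtain ⟨e, g, -, hg, -, k1, -⟩ := Pres.present (fun c => Ideal.Quotient.mk (II h) ⟨_, d2 c⟩)
    (fun r => by
      obtain ⟨a, rfl⟩ := Ideal.Quotient.mk_surjective r
      obtain ⟨c, hc⟩ := d3 a a.2
      exact ⟨c, congrArg _ (Subtype.ext hc)⟩)
    (eqv h (d1.comp Computable.fst) (d1.comp Computable.snd) _ _ (fun _ => rfl) fun _ => rfl)
  exact ⟨e, _, fun n => ⟨_, d2 (g n)⟩, d1.comp hg, fun _ => rfl, k1⟩

theorem pres2 (h : Wt w z t) : ∃ e : ℕ ≃ VV w ⧸ II h,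
    Computable₂ (fun a b => e.symm (e a + e b)) ∧ Computable₂ (fun a b => e.symm (e a * e b)) ∧
    Computable (fun a => e.symm (-e a)) ∧
    Computable fun i => e.symm (Ideal.Quotient.mk (II h) (xx h i)) := by
  obtain ⟨e, G, a, dg, k0, k1⟩ := pres h
  refine ⟨e, op_comp e (fun q : ℕ × ℕ => e q.1 + e q.2) ?_,
    op_comp e (fun q : ℕ × ℕ => e q.1 * e q.2) ?_, op_comp e _ ?_, op_comp e _ ?_⟩
  · refine (eqv h (dg.comp Computable.snd) ((ad_comp h).comp
      (dg.comp (Computable.fst.comp Computable.fst)) (dg.comp (Computable.snd.comp Computable.fst)))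
      (fun q => a q.2) (fun q => a q.1.1 + a q.1.2) (fun _ => k0 _) fun _ => by
        rw [vl_add, ← k0, ← k0, Subring.coe_add]).of_eq fun q => ?_
    simp only [k1, map_add]
  · refine (eqv h (dg.comp Computable.snd) (mu_prim.to_comp.comp
      (dg.comp (Computable.fst.comp Computable.fst)) (dg.comp (Computable.snd.comp Computable.fst)))
      (fun q => a q.2) (fun q => a q.1.1 * a q.1.2) (fun _ => k0 _) fun _ => by
        rw [vl_mul, ← k0, ← k0, Subring.coe_mul]).of_eq fun q => ?_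
    simp only [k1, map_mul]
  · refine (eqv h (dg.comp Computable.snd) (ng_prim.to_comp.comp (dg.comp Computable.fst))
      (fun q => a q.2) (fun q => -a q.1) (fun _ => k0 _) fun _ => by
        rw [vl_neg, ← k0, Subring.coe_neg]).of_eq fun q => ?_
    simp only [k1, map_neg]
  · refine (eqv h (G := fun q : ℕ × ℕ => ([(0, [q.1])], [(0, [])])) (dg.comp Computable.snd)
      ((Primrec.list_cons.comp ((Primrec.const 0).pair (Primrec.list_cons.comp Primrec.fst
        (Primrec.const []))) (Primrec.const [])).pair (Primrec.const _)).to_comp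
      (fun q => a q.2) (fun q => xx h q.1) (fun _ => k0 _) fun q => (vl_x q.1).symm).of_eq
      fun q => ?_
    simp only [k1]

theorem ring (h : Wt w z t) : ∃ (R : Type) (_ : CommRing R) (e : ℕ ≃ R) (X : ℕ → R),
    Computable₂ (fun a b => e.symm (e a + e b)) ∧ Computable₂ (fun a b => e.symm (e a * e b)) ∧
    Computable (fun a => e.symm (-e a)) ∧ Computable (fun i => e.symm (X i)) ∧
    (∀ r, ∃ i K b c, r ^ (K + 1) = b * X i ∧ X i ^ (K + 1) = c * r) ∧
    (∀ S : Set ℕ, z ∈ S → (∀ i ∈ S, ∀ n : ℕ, n < w i) →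
      (∀ i ∈ S, ∀ j (K : ℕ), w i ≤ K * w j → j ∈ S) →
      ∃ P : Ideal R, P.IsPrime ∧ ∀ i, X i ∈ P ↔ i ∈ S) ∧
    X z = 0 ∧ (∃ c, c * X t = 1) ∧
    ∀ i j (K : ℕ), w i ≤ K * w j → ∃ c, X j ^ (K + 1) = c * X i := by
  obtain ⟨e, c1, c2, c3, c4⟩ := pres2 h
  let mk := Ideal.Quotient.mk (II h)
  have hz : mk (xx h z) = 0 := Ideal.Quotient.eq_zero_iff_mem.2 (Or.inr (by
    have := h.pos z
    simp only [xx_order]
    linarith))
  refine ⟨_, inferInstance, e, fun i => mk (xx h i), c1, c2, c3, c4, fun r => ?_,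
    fun S s1 s2 s3 => ?_, hz, ?_, fun i j K k => ?_⟩
  · obtain ⟨a, rfl⟩ := Ideal.Quotient.mk_surjective r
    by_cases h0 : a = 0
    · exact ⟨z, 0, 0, 0, by simp [h0], by simpa using hz⟩
    obtain ⟨i, K, b, c, h1, h2⟩ := assoc h a fun e => h0 (Subtype.ext e)
    exact ⟨i, K, mk b, mk c, by rw [← map_pow, h1, map_mul], by rw [← map_pow, h2, map_mul]⟩
  · obtain ⟨P, p1, p2, p3⟩ := primes h S s1 s2 s3
    exact ⟨P.map mk, Ideal.map_isPrime_of_surjective Ideal.Quotient.mk_surjective (by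
      rwa [Ideal.mk_ker]), fun i => (Ideal.mem_quotient_iff_mem p2).trans (p3 i)⟩
  · obtain ⟨c, hc⟩ := dv 1 (xx h t) one_ne_zero (xx_ne h t) 1 (by simp [xx_order, h.top])
    exact ⟨mk c, by rw [← map_mul, ← hc, map_one]⟩
  · obtain ⟨c, hc⟩ := dvp (xx h j) (xx h i) (xx_ne h j) (xx_ne h i) K (by
      rw [xx_order]; linarith [h.pos j]) (by rwa [xx_order, xx_order])
    exact ⟨mk c, by rw [← map_pow, hc, map_mul]⟩

end Pool.Agent.Lib.H8.Sp
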