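import Pool.Agent.Lib.H8.Sp4

/-!
Cuts of a tree are paths; prime ideals of the chain ring represent the paths.
-/

namespace Pool.Agent.Lib.H8.Sp

open Hyperreal CList Orc

variable {T : List ℕ → Bool} {g : List ℕ → ℕ}

theorem atl_last (σ : List ℕ) (i : ℕ) : atl (σ ++ [i]) σ.length = i + 1 := by simp [atl]

theorem prefix_of_atl {σ ν : List ℕ} (h : ∀ k < σ.length, atl ν k = atl σ k) : σ <+: ν := by
  rw [List.prefix_iff_getElem?]
  intro k hk
  have := h k hk
  simp only [atl, List.getElem?_eq_getElem hk, Option.map_some, Option.getD_some] at this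
  cases e : ν[k]? <;> simp [e] at this ⊢
  exact this

theorem not_R_concat {σ : List ℕ} {i : ℕ} {y : ℕ → ℕ} : ¬ Rl (σ ++ [i]) y ↔
    ¬ Rl σ y ∨ (∀ j < σ.length, y j = atl σ j) ∧ y σ.length ≤ i := by
  rw [not_R, not_R]
  constructor
  · rintro ⟨k, h1, h2, h3⟩
    rw [List.length_append, List.length_singleton, Nat.lt_succ_iff] at h1
    rcases h1.lt_or_eq with h | rfl
    · exact Or.inl ⟨k, h, fun j hj => by rw [h2 j hj, atl_append _ (by omega)],
        by rwa [atl_append _ h] at h3⟩
    · exact Or.inr ⟨fun j hj => by rw [h2 j hj, atl_append _ hj],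
        by rw [atl_last] at h3; omega⟩
  · rintro (⟨k, h1, h2, h3⟩ | ⟨h1, h2⟩)
    · exact ⟨k, by simp; omega, fun j hj => by rw [h2 j hj, atl_append _ (by omega)],
        by rwa [atl_append _ h1]⟩
    · exact ⟨σ.length, by simp, fun j hj => by rw [h1 j hj, atl_append _ hj],
        by rw [atl_last]; omega⟩

theorem R_of_agree {σ : List ℕ} {y : ℕ → ℕ} (h : ∀ j < σ.length, y j = atl σ j) : Rl σ y :=
  (R_congr h).2 le_rfl

theorem cut (hT : Tr T g) (S : Set (List ℕ)) (h0 : [] ∈ S) (h1 : [g []] ∉ S)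
    (h2 : ∀ σ ∈ S, ∀ τ (K : ℕ), gw T g σ ≤ K * gw T g τ → τ ∈ S) :
    ∃ f : ℕ → ℕ, (∀ n, T ((List.range n).map f) = true) ∧
      ∀ σ, σ ∈ S ↔ Rl σ fun k => f k + 1 := by
  classical
  have h3 : ∀ σ ∈ S, ∀ τ r0, (∀ ν, T ν = true → r0 ≤ ν.length → Rl σ (atl ν) → Rl τ (atl ν)) →
      τ ∈ S := fun σ hσ τ r0 h => by
    obtain ⟨K, hK⟩ := gw_le (T := T) (g := g) (σ := σ) (τ := τ) r0 fun r hr =>
      uu_le fun ν hν => h ν ((mem_lev hT).1 hν).1 (((mem_lev hT).1 hν).2 ▸ hr)
    exact h2 σ hσ τ K hK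
  let J : List ℕ → Prop := fun σ => σ ∈ S ∧ ∃ τ ∉ S, ∀ ν, Rl σ (atl ν) → ¬ Rl τ (atl ν) → σ <+: ν
  have step : ∀ σ, ∃ i, J σ → σ ++ [i] ∈ S ∧ σ ++ [i + 1] ∉ S := fun σ => by
    by_cases hJ : J σ
    swap
    · exact ⟨0, fun h => absurd h hJ⟩
    obtain ⟨k1, τ, k2, k3⟩ := hJ
    have a0 : σ ++ [0] ∈ S := h3 σ k1 _ (σ.length + 1) fun ν _ hl hR => by
      by_contra e
      rcases not_R_concat.1 e with e | ⟨-, e⟩
      · exact e hR
      · simp [atl, List.getElem?_eq_getElem (by omega : σ.length < ν.length)] at e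
    have a1 : σ ++ [g σ] ∉ S := fun e => k2 (h3 _ e τ 0 fun ν hν _ hR => by
      by_contra e'
      obtain ⟨ρ, rfl⟩ := k3 ν (by_contra fun e => not_R_concat.2 (Or.inl e) hR) e'
      refine not_R_concat.2 (Or.inr ⟨fun j hj => atl_append _ hj, ?_⟩) hR
      cases ρ with
      | nil => simp [atl]
      | cons j ρ => simpa [atl] using hT.bd σ j (hT.pre _ _ ⟨ρ, by simp⟩ hν))
    have hex : ∃ i, σ ++ [i] ∉ S := ⟨_, a1⟩
    have b1 := Nat.find_spec hex
    have b2 := fun i => Nat.find_min hex (m := i)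
    generalize Nat.find hex = i at b1 b2
    cases i with
    | zero => exact absurd a0 b1
    | succ i => exact ⟨i, fun _ => ⟨not_not.1 (b2 i (by omega)), b1⟩⟩
  choose nx hnx using step
  obtain ⟨pre, p0, ps⟩ : ∃ pre : ℕ → List ℕ, pre 0 = [] ∧ ∀ n, pre (n + 1) = pre n ++ [nx (pre n)] :=
    ⟨fun n => Nat.rec [] (fun _ σ => σ ++ [nx σ]) n, rfl, fun _ => rfl⟩
  have e1 : ∀ n, (List.range n).map (fun n => nx (pre n)) = pre n := fun n => by
    induction n with
    | zero => exact p0.symm
    | succ n ih => rw [List.range_succ, List.map_append, ih, ps]; rfl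
  have e2 : ∀ n, (pre n).length = n := fun n => by rw [← e1]; simp
  have e3 : ∀ n j, j < n → atl (pre n) j = nx (pre j) + 1 := fun n j h => by
    rw [← e1 n]; simp [atl, h]
  have hJ : ∀ n, J (pre n) := fun n => by
    induction n with
    | zero => exact p0 ▸ ⟨h0, _, h1, fun _ _ _ => List.nil_prefix⟩
    | succ n ih =>
      refine ⟨ps n ▸ (hnx _ ih).1, _, (hnx _ ih).2, fun ν k1 k2 => prefix_of_atl fun k hk => ?_⟩
      rw [ps] at k1
      have k3 := mt not_R_concat.2 (not_not.2 k1)
      rw [not_or, not_and] at k3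
      obtain ⟨k4, k5⟩ := (not_R_concat.1 k2).resolve_left k3.1
      have k6 := k3.2 k4
      rw [e2] at hk
      rcases (Nat.lt_succ_iff.1 hk).lt_or_eq with h | rfl
      · rw [k4 k (by rwa [e2]), e3 _ _ h, e3 _ _ hk]
      · rw [e3 _ _ hk]
        rw [e2] at k5 k6
        omega
  refine ⟨fun n => nx (pre n), fun n => ?_, fun σ => ⟨fun h => ?_, fun h => ?_⟩⟩
  · rw [e1]
    obtain ⟨k1, τ, k2, k3⟩ := hJ n
    by_contra e
    exact k2 (h3 _ k1 τ 0 fun ν hν _ hR => by_contra fun e' => e (hT.pre _ _ (k3 ν hR e') hν))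
  · by_contra e
    obtain ⟨i, -, k1, k2⟩ := not_R.1 e
    refine (hnx _ (hJ i)).2 (h3 σ h _ 0 fun ν _ _ hR => le_trans ?_ hR)
    by_contra e'
    have k3 : ∀ j < (pre i).length, atl σ j = atl (pre i) j := fun j hj => by
      rw [e2] at hj
      rw [← k1 j hj, e3 _ _ hj]
    rcases not_R_concat.1 e' with e' | ⟨-, e'⟩
    · exact e' (R_of_agree k3)
    · rw [e2] at e'
      beta_reduce at k2
      omega
  · rw [← R_pre le_rfl, e1] at h
    exact h3 _ (hJ σ.length).1 σ 0 fun ν _ _ hR => le_trans h hR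

theorem R_step (f : ℕ → ℕ) (n i : ℕ) :
    Rl ((List.range n).map f ++ [i]) (fun k => f k + 1) ↔ i ≤ f n := by
  have : ∀ j < ((List.range n).map f).length, f j + 1 = atl ((List.range n).map f) j :=
    fun j hj => by simp at hj; simp [atl, hj]
  rw [← not_iff_not, not_R_concat, or_iff_right (not_not.2 (R_of_agree this)), and_iff_right this]
  simp

theorem sep {f f' : ℕ → ℕ} (h : ∀ σ, Rl σ (fun k => f k + 1) ↔ Rl σ fun k => f' k + 1) :
    f = f' := by
  funext n
  induction n using Nat.strong_induction_on with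
  | _ n ih =>
    have : (List.range n).map f = (List.range n).map f' :=
      List.map_congr_left fun j hj => ih j (List.mem_range.1 hj)
    exact eq_of_forall_le_iff fun i => by rw [← R_step, h, this, R_step]

open Classical in
theorem red1 {s : ℕ → List ℕ} (hs : Computable s) (f : ℕ → ℕ) :
    R f fun n => if Rl (s n) fun k => f k + 1 then 1 else 0 := by
  refine tt (G := fun q => if (s q.1).length ≤ q.2.length then
    some (if Rl (s q.1) (atl q.2) then 1 else 0) else none) ?_ (fun a => ⟨(s a).length, _, by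
      simp only [List.length_map, List.length_range, le_refl, if_true]; rfl⟩) fun a n y h => ?_
  · exact cite (cp (p := fun q : ℕ × ℕ => q.1 ≤ q.2) Primrec.nat_le.computablePred
      ((Computable.list_length.comp (hs.comp Computable.fst)).pair
        (Computable.list_length.comp Computable.snd)))
      (Computable.option_some.comp (cite (cp R_prim.computablePred
        ((hs.comp Computable.fst).pair Computable.snd)) (Computable.const 1) (Computable.const 0)))
      (Computable.const none)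
  · simp only [List.length_map, List.length_range] at h
    split_ifs at h with h1 h2 <;> rw [R_pre h1] at h2 <;> simp [h2, ← Option.some.inj h]

theorem red2 (hT : Tr T g) (hg : Computable g) {f χ : ℕ → ℕ}
    (hf : ∀ n, T ((List.range n).map f) = true) {ix : List ℕ → ℕ} (hi : Computable ix)
    (h : ∀ σ, χ (ix σ) = 0 ↔ ¬ Rl σ fun k => f k + 1) : R χ f := by
  have hs : Primrec st := Primrec.ofNat _
  have c1 : Computable fun m : ℕ => ix (st m.unpair.1 ++ [m.unpair.2 + 1]) :=
    hi.comp (Computable.list_concat.comp (hs.to_comp.comp u1) (Computable.succ.comp u2))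
  have c2 : Computable fun m : ℕ => g (st m.unpair.1) - m.unpair.2 :=
    Primrec.nat_sub.to_comp.comp (hg.comp (hs.to_comp.comp u1)) u2
  have c3 : Computable fun m : ℕ => m.unpair.1 * m.unpair.2 := Primrec.nat_mul.to_comp.comp u1 u2
  have r1 := (R.comput c3).comp (((R.self (w := χ)).comp (R.comput c1)).pair (R.comput c2))
  have hex : ∀ a, ∃ s, (fun m : ℕ => (Nat.pair (χ (ix (st m.unpair.1 ++ [m.unpair.2 + 1])))
      (g (st m.unpair.1) - m.unpair.2)).unpair.1 * (Nat.pair
      (χ (ix (st m.unpair.1 ++ [m.unpair.2 + 1]))) (g (st m.unpair.1) - m.unpair.2)).unpair.2)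
      (Nat.pair a s) = 0 := fun a => ⟨g (st a), by simp⟩
  have key : ∀ n, Nat.find (hex (Encodable.encode ((List.range n).map f))) = f n := fun n => by
    have := hT.bd ((List.range n).map f) (f n) (by simpa [List.range_succ] using hf (n + 1))
    rw [Nat.find_eq_iff]
    simp only [Nat.unpair_pair, st, Denumerable.ofNat_encode, mul_eq_zero, h, R_step]
    exact ⟨Or.inl (by omega), fun m hm => by omega⟩
  obtain ⟨F, r2, key⟩ : ∃ F, R χ F ∧ ∀ n, F (Encodable.encode ((List.range n).map f)) = f n :=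
    ⟨_, r1.find hex, key⟩
  have c4 : Computable fun m : ℕ => Encodable.encode (st m.unpair.1 ++ [m.unpair.2]) :=
    Computable.encode.comp (Computable.list_concat.comp (hs.to_comp.comp u1) u2)
  have r3 := ((R.comput c4).comp ((R.comput u2).pair (r2.comp (R.comput u2)))).rec
    (Encodable.encode ([] : List ℕ))
  refine (r2.comp (r3.of_eq (g := fun n => Encodable.encode ((List.range n).map f))
    fun n => ?_)).of_eq key
  induction n with
  | zero => rfl
  | succ n ih =>
    simp only [Nat.unpair_pair] at ih ⊢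
    rw [ih, key, st, Denumerable.ofNat_encode, List.range_succ, List.map_append]
    rfl

end Pool.Agent.Lib.H8.Sp
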