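import Pool.Agent.Lib.H8.Sp5

/-!
The chain ring of a tree: its primes are the paths.
-/

namespace Pool.Agent.Lib.H8.Sp

open Hyperreal CList Orc

variable {T : List ℕ → Bool} {g : List ℕ → ℕ}

theorem selN {mul : ℕ → ℕ → ℕ} {x : ℕ → ℕ} {pw : ℕ × ℕ → ℕ} (c2 : Computable₂ mul)
    (c4 : Computable x) (cpw : Computable pw)
    (h : ∀ n, ∃ q : (ℕ × ℕ) × ℕ × ℕ,
      pw (n, q.1.2) = mul q.2.1 (x q.1.1) ∧ pw (x q.1.1, q.1.2) = mul q.2.2 n) :
    ∃ q : ℕ → (ℕ × ℕ) × ℕ × ℕ, Computable q ∧ ∀ n, pw (n, (q n).1.2) = mul (q n).2.1 (x (q n).1.1) ∧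
      pw (x (q n).1.1, (q n).1.2) = mul (q n).2.2 n := by
  have a1 : Computable fun p : ℕ × (ℕ × ℕ) × ℕ × ℕ => x p.2.1.1 :=
    c4.comp (Computable.fst.comp (Computable.fst.comp Computable.snd))
  have a2 : Computable fun p : ℕ × (ℕ × ℕ) × ℕ × ℕ => p.2.1.2 :=
    Computable.snd.comp (Computable.fst.comp Computable.snd)
  have a3 : Computable fun p : ℕ × (ℕ × ℕ) × ℕ × ℕ => pw (p.1, p.2.1.2) :=
    cpw.comp (Computable.fst.pair a2)
  have a4 : Computable fun p : ℕ × (ℕ × ℕ) × ℕ × ℕ => mul p.2.2.1 (x p.2.1.1) :=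
    c2.comp (Computable.fst.comp (Computable.snd.comp Computable.snd)) a1
  have a5 : Computable fun p : ℕ × (ℕ × ℕ) × ℕ × ℕ => pw (x p.2.1.1, p.2.1.2) :=
    cpw.comp (a1.pair a2)
  have a6 : Computable fun p : ℕ × (ℕ × ℕ) × ℕ × ℕ => mul p.2.2.2 p.1 :=
    c2.comp (Computable.snd.comp (Computable.snd.comp Computable.snd)) Computable.fst
  exact csel (P := fun (n : ℕ) (q : (ℕ × ℕ) × ℕ × ℕ) =>
    pw (n, q.1.2) = mul q.2.1 (x q.1.1) ∧ pw (x q.1.1, q.1.2) = mul q.2.2 n)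
    (cand (ceq a3 a4) (ceq a5 a6)) h

theorem powN {mul : ℕ → ℕ → ℕ} (c2 : Computable₂ mul) : ∃ pw : ℕ × ℕ → ℕ, Computable pw ∧
    (∀ a, pw (a, 0) = a) ∧ ∀ a n, pw (a, n + 1) = mul (pw (a, n)) a :=
  ⟨fun q => Nat.rec q.1 (fun _ p => mul p q.1) q.2,
    Computable.nat_rec (h := fun (q : ℕ × ℕ) (p : ℕ × ℕ) => mul p.2 q.1)
      Computable.snd Computable.fst
      (c2.comp (Computable.snd.comp Computable.snd) (Computable.fst.comp Computable.fst)).to₂,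
    fun _ => rfl, fun _ _ => rfl⟩

theorem selR {A : Type} [CommRing A] (e : ℕ ≃ A) (X : ℕ → A)
    (c2 : Computable₂ fun a b => e.symm (e a * e b)) (c4 : Computable fun i => e.symm (X i))
    (k1 : ∀ r, ∃ i K b c, r ^ (K + 1) = b * X i ∧ X i ^ (K + 1) = c * r) :
    ∃ q : ℕ → ℕ, Computable q ∧ ∀ P : Ideal A, P.IsPrime → ∀ n, e n ∈ P ↔ X (q n) ∈ P := by
  obtain ⟨pw, p1, p2, p3⟩ := powN c2
  have p4 : ∀ a n, pw (a, n) = e.symm (e a ^ (n + 1)) := fun a n => by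
    induction n with
    | zero => simp [p2]
    | succ n ih => rw [p3, ih, Equiv.apply_symm_apply, ← pow_succ]
  obtain ⟨q, q1, q2⟩ := selN c2 c4 p1 fun n => by
    obtain ⟨i, K, b, c, a1, a2⟩ := k1 (e n)
    exact ⟨((i, K), e.symm b, e.symm c), by simp [p4, a1, a2]⟩
  simp only [p4, Equiv.apply_symm_apply, EmbeddingLike.apply_eq_iff_eq] at q2
  exact ⟨fun n => (q n).1.1, Computable.fst.comp (Computable.fst.comp q1), fun P hP n =>
    ⟨fun h => hP.mem_of_pow_mem _ ((q2 n).2 ▸ P.mul_mem_left _ h),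
      fun h => hP.mem_of_pow_mem _ ((q2 n).1 ▸ P.mul_mem_left _ h)⟩⟩

theorem spec (hT : Tr T g) (h1 : Computable T) (h2 : Computable g) {f0 : ℕ → ℕ}
    (hf0 : ∀ n, T ((List.range n).map f0) = true) :
    ∃ (A : Type) (_ : CommRing A) (e : ℕ ≃ A) (s : ℕ → List ℕ) (ix : List ℕ → ℕ),
      Computable₂ (fun a b => e.symm (e a + e b)) ∧ Computable₂ (fun a b => e.symm (e a * e b)) ∧
      Computable (fun a => e.symm (-e a)) ∧ Computable s ∧ Computable ix ∧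
      (∀ f : ℕ → ℕ, (∀ n, T ((List.range n).map f) = true) →
        (∃ P : Ideal A, P.IsPrime ∧ ∀ n, e n ∈ P ↔ Rl (s n) fun k => f k + 1) ∧
        ∀ σ, Rl (s (ix σ)) (fun k => f k + 1) ↔ Rl σ fun k => f k + 1) ∧
      ∀ P : Ideal A, P.IsPrime → ∃ f : ℕ → ℕ, (∀ n, T ((List.range n).map f) = true) ∧
        ∀ n, e n ∈ P ↔ Rl (s n) fun k => f k + 1 := by
  obtain ⟨A, _, e, X, c1, c2, c3, c4, k1, k2, k3, ⟨u, k4⟩, k5⟩ := ring (weights hT h1 h2 hf0)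
  have hs : Primrec st := Primrec.ofNat _
  have e0 : ∀ σ, st (Encodable.encode σ) = σ := fun σ => Denumerable.ofNat_encode σ
  obtain ⟨q, q1, q3⟩ := selR e X c2 c4 k1
  refine ⟨A, inferInstance, e, fun n => st (q n), fun σ => e.symm (X (Encodable.encode σ)),
    c1, c2, c3, hs.to_comp.comp q1,
    c4.comp Computable.encode, fun f hf => ?_, fun P hP => ?_⟩
  · obtain ⟨P, p1, p2⟩ := k2 {i | Rl (st i) fun k => f k + 1} (by
      rw [Set.mem_ofPred_eq, e0]; exact R_nil _) (fun i hi => gw_inf hT hf hi)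
      fun i hi j K h => by_contra fun hj => absurd h (not_le.2 (gw_lt hT hf hi hj K))
    have p3 : ∀ n, e n ∈ P ↔ Rl (st (q n)) fun k => f k + 1 := fun n =>
      (q3 P p1 n).trans (p2 _)
    exact ⟨⟨P, p1, p3⟩, fun σ => by
      rw [← p3, Equiv.apply_symm_apply, p2, Set.mem_ofPred_eq, e0]⟩
  · obtain ⟨f, hf, h⟩ := cut hT {σ | X (Encodable.encode σ) ∈ P} (by
      rw [Set.mem_ofPred_eq, k3]; exact zero_mem _)
      (fun h => hP.ne_top ((Ideal.eq_top_iff_one _).2 (k4 ▸ P.mul_mem_left u h)))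
      fun σ hσ τ K h => by
        obtain ⟨c, hc⟩ := k5 (Encodable.encode σ) (Encodable.encode τ) K (by rwa [e0, e0])
        exact hP.mem_of_pow_mem _ (hc ▸ P.mul_mem_left c hσ)
    refine ⟨f, hf, fun n => ?_⟩
    rw [q3 P hP, ← h, Set.mem_ofPred_eq]
    simp only [st, Denumerable.encode_ofNat]

end Pool.Agent.Lib.H8.Sp
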