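import Mathlib
import Pool.Agent.Lib.H8.Shear

/-! Starlike maps of the unit ball of `ℂ²`: product examples and small perturbations of the
identity. -/

set_option autoImplicit false
set_option maxHeartbeats 400000

namespace Pool.Agent.Lib.H8.Star

open Metric Complex Filter Topology

abbrev E : Type := EuclideanSpace ℂ (Fin 2)

def InS (g : E → E) : Prop :=
  DifferentiableOn ℂ g (ball 0 1) ∧ Set.InjOn g (ball 0 1) ∧ g 0 = 0 ∧
    fderiv ℂ g 0 = ContinuousLinearMap.id ℂ E ∧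
    ∀ z ∈ ball (0 : E) 1, z ≠ 0 →
      0 < (inner ℂ z ((fderiv ℂ g z).inverse ((ContinuousLinearMap.id ℂ E) (g z)))).re

def InN (g : E → E) : Prop :=
  DifferentiableOn ℂ g (ball 0 1) ∧ g 0 = 0 ∧ fderiv ℂ g 0 = ContinuousLinearMap.id ℂ E ∧
    ∀ z ∈ ball (0 : E) 1, z ≠ 0 → 0 < (inner ℂ z (g z)).re

theorem invertible (T : E →L[ℂ] E) (h : Function.Injective T) : T.IsInvertible :=
  ⟨(LinearEquiv.ofInjectiveEndo T.toLinearMap h).toContinuousLinearEquiv, by ext; rfl⟩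

theorem co_lt {z : E} (hz : z ∈ ball (0 : E) 1) (i : Fin 2) : ‖z i‖ < 1 :=
  (PiLp.norm_apply_le z i).trans_lt (mem_ball_zero_iff.1 hz)

/-- the map `(φ z₀, z₁)` -/
noncomputable def pr (φ : ℂ → ℂ) (z : E) : E := !₂[φ (z 0), z 1]

/-- the linear map `diag(d, 1)` -/
noncomputable def dg (d : ℂ) : E →L[ℂ] E :=
  (d • (EuclideanSpace.proj 0 : E →L[ℂ] ℂ)).smulRight !₂[1, 0] +
    (EuclideanSpace.proj 1 : E →L[ℂ] ℂ).smulRight !₂[0, 1]

theorem dg_apply (d : ℂ) (z : E) : dg d z = !₂[d * z 0, z 1] := by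
  ext i
  fin_cases i <;> simp [dg]

theorem dg_one : dg 1 = ContinuousLinearMap.id ℂ E := by
  ext z i
  fin_cases i <;> simp [dg]

theorem pr_deriv (φ : ℂ → ℂ) (d : ℂ) (z : E) (h : HasDerivAt φ d (z 0)) :
    HasFDerivAt (pr φ) (dg d) z := by
  have e : pr φ = fun z : E => φ (z 0) • (!₂[1, 0] : E) + z 1 • !₂[0, 1] := by
    ext z i
    fin_cases i <;> simp [pr]
  have h0 : HasFDerivAt (fun z : E => φ (z 0)) (d • (EuclideanSpace.proj 0 : E →L[ℂ] ℂ)) z :=
    h.comp_hasFDerivAt z (EuclideanSpace.proj 0 : E →L[ℂ] ℂ).hasFDerivAt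
  have h1 : HasFDerivAt (fun z : E => z 1) (EuclideanSpace.proj 1 : E →L[ℂ] ℂ) z :=
    (EuclideanSpace.proj 1 : E →L[ℂ] ℂ).hasFDerivAt
  rw [e]
  exact (h0.smul_const _).fun_add (h1.smul_const _)

theorem dg_inverse (d : ℂ) (hd : d ≠ 0) (x y : ℂ) : (dg d).inverse !₂[x, y] = !₂[x / d, y] := by
  have hi : Function.Injective (dg d) := by
    intro a b h
    rw [dg_apply, dg_apply] at h
    ext i
    fin_cases i
    · exact mul_left_cancel₀ hd (congrArg (fun z : E => z 0) h)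
    · exact (congrArg (fun z : E => z 1) h :)
  rw [(invertible _ hi).inverse_apply_eq, dg_apply]
  ext i
  fin_cases i
  · simp [mul_div_cancel₀ _ hd]
  · simp

theorem pr_pos (p : ℂ → ℂ) (hp : ∀ ζ : ℂ, ‖ζ‖ < 1 → 0 < (p ζ).re) (z : E)
    (hz : z ∈ ball (0 : E) 1) (h0 : z ≠ 0) :
    0 < (inner ℂ z (!₂[z 0 * p (z 0), z 1] : E)).re := by
  have e : inner ℂ z (!₂[z 0 * p (z 0), z 1] : E) =
      ((‖z 0‖ ^ 2 : ℝ) : ℂ) * p (z 0) + ((‖z 1‖ ^ 2 : ℝ) : ℂ) := by
    rw [PiLp.inner_apply, Fin.sum_univ_two]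
    push_cast
    simp
    rw [← Complex.mul_conj']
    ring
  rw [e, add_re, re_ofReal_mul, ofReal_re]
  have h1 := hp _ (co_lt hz 0)
  have h2 : 0 < ‖z 0‖ ^ 2 + ‖z 1‖ ^ 2 := by
    have := EuclideanSpace.norm_sq_eq z
    rw [Fin.sum_univ_two] at this
    rw [← this]
    exact pow_pos (norm_pos_iff.2 h0) 2
  rcases (sq_nonneg ‖z 0‖).eq_or_lt with h | h
  · rw [← h] at h2 ⊢
    linarith
  · have := mul_pos h h1
    positivity

/-- `ζ / ((1 - a ζ) (1 - b ζ))` -/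
noncomputable def ph (a b : ℂ) (ζ : ℂ) : ℂ := ζ / ((1 - a * ζ) * (1 - b * ζ))

theorem ne1 {a ζ : ℂ} (ha : ‖a‖ ≤ 1) (h : ‖ζ‖ < 1) : 1 - a * ζ ≠ 0 := by
  intro h0
  have h1 : a * ζ = 1 := (sub_eq_zero.1 h0).symm
  have h2 : ‖a * ζ‖ < 1 := by
    rw [norm_mul]
    exact mul_lt_one_of_nonneg_of_lt_one_right ha (norm_nonneg _) h
  rw [h1, norm_one] at h2
  exact lt_irrefl _ h2

theorem ne2 {a b x y : ℂ} (ha : ‖a‖ ≤ 1) (hb : ‖b‖ ≤ 1) (hx : ‖x‖ < 1) (hy : ‖y‖ < 1) :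
    1 - a * b * (x * y) ≠ 0 := by
  refine ne1 ?_ ?_
  · rw [norm_mul]
    exact mul_le_one₀ ha (norm_nonneg _) hb
  · rw [norm_mul]
    exact mul_lt_one_of_nonneg_of_lt_one_right hx.le (norm_nonneg _) hy

theorem ph_deriv {a b ζ : ℂ} (ha : ‖a‖ ≤ 1) (hb : ‖b‖ ≤ 1) (h : ‖ζ‖ < 1) :
    HasDerivAt (ph a b) ((1 - a * b * (ζ * ζ)) / ((1 - a * ζ) * (1 - b * ζ)) ^ 2) ζ := by
  have d1 : ∀ c : ℂ, HasDerivAt (fun ζ : ℂ => 1 - c * ζ) (-c) ζ := fun c => by
    simpa using ((hasDerivAt_id ζ).const_mul c).const_sub 1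
  have := (hasDerivAt_id ζ).fun_div ((d1 a).fun_mul (d1 b)) (mul_ne_zero (ne1 ha h) (ne1 hb h))
  refine this.congr_deriv ?_
  simp only [id]
  congr 1
  ring

theorem re_cayley {w : ℂ} (h : ‖w‖ < 1) : 0 < ((1 + w) / (1 - w)).re := by
  have h1 : (1 : ℂ) - w ≠ 0 := by simpa using ne1 (a := 1) (by simp) h
  have h2 : 0 < normSq (1 - w) := normSq_pos.2 h1
  have h3 : w.re ^ 2 + w.im ^ 2 < 1 := by
    have := Complex.sq_norm w
    rw [normSq_apply] at this
    nlinarith [norm_nonneg w]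
  rw [div_re, ← add_div]
  refine div_pos ?_ h2
  simp
  nlinarith

theorem ph_re {a b ζ : ℂ} (ha : ‖a‖ ≤ 1) (hb : ‖b‖ ≤ 1) (h : ‖ζ‖ < 1) :
    0 < ((1 - a * ζ) * (1 - b * ζ) / (1 - a * b * (ζ * ζ))).re := by
  have lt : ∀ c : ℂ, ‖c‖ ≤ 1 → ‖c * ζ‖ < 1 := fun c hc => by
    rw [norm_mul]
    exact mul_lt_one_of_nonneg_of_lt_one_right hc (norm_nonneg _) h
  have h1 := re_cayley (lt a ha)
  have h2 := re_cayley (lt b hb)
  have n1 := ne1 ha h
  have n2 := ne1 hb h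
  have n3 := ne2 ha hb h h
  have e : (1 - a * ζ) * (1 - b * ζ) / (1 - a * b * (ζ * ζ)) =
      2 * ((1 + a * ζ) / (1 - a * ζ) + (1 + b * ζ) / (1 - b * ζ))⁻¹ := by
    rw [div_add_div _ _ n1 n2, inv_div]
    have : (1 + a * ζ) * (1 - b * ζ) + (1 - a * ζ) * (1 + b * ζ) = 2 * (1 - a * b * (ζ * ζ)) := by
      ring
    rw [this]
    field_simp
  have h3 : 0 < ((1 + a * ζ) / (1 - a * ζ) + (1 + b * ζ) / (1 - b * ζ)).re := by
    rw [add_re]; linarith
  rw [e]
  generalize (1 + a * ζ) / (1 - a * ζ) + (1 + b * ζ) / (1 - b * ζ) = w at h3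
  have h4 : 0 < normSq w := normSq_pos.2 fun h => by simp [h] at h3
  have h5 : 0 < (w⁻¹).re := by rw [inv_re]; positivity
  simpa using h5

theorem ph_field {a b : ℂ} (ha : ‖a‖ ≤ 1) (hb : ‖b‖ ≤ 1) (z : E) (hz : z ∈ ball (0 : E) 1) :
    (fderiv ℂ (pr (ph a b)) z).inverse ((ContinuousLinearMap.id ℂ E) (pr (ph a b) z)) =
      !₂[z 0 * ((1 - a * z 0) * (1 - b * z 0) / (1 - a * b * (z 0 * z 0))), z 1] := by
  have h := co_lt hz 0
  have n1 := ne1 ha h
  have n2 := ne1 hb h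
  have n3 := ne2 ha hb h h
  rw [(pr_deriv _ _ z (ph_deriv ha hb h)).fderiv, ContinuousLinearMap.id_apply, pr,
    dg_inverse _ (div_ne_zero n3 (pow_ne_zero _ (mul_ne_zero n1 n2)))]
  congr 3
  unfold ph
  field_simp

theorem ph_mem {a b : ℂ} (ha : ‖a‖ ≤ 1) (hb : ‖b‖ ≤ 1) : InS (pr (ph a b)) := by
  refine ⟨fun z hz => (pr_deriv _ _ z
    (ph_deriv ha hb (co_lt hz 0))).differentiableAt.differentiableWithinAt, ?_, ?_, ?_, ?_⟩
  · intro z hz w hw h
    have h0 : ph a b (z 0) = ph a b (w 0) := congrArg (fun z : E => z 0) h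
    have h1 : z 1 = w 1 := (congrArg (fun z : E => z 1) h :)
    have hz0 := co_lt hz 0
    have hw0 := co_lt hw 0
    unfold ph at h0
    rw [div_eq_div_iff (mul_ne_zero (ne1 ha hz0) (ne1 hb hz0))
      (mul_ne_zero (ne1 ha hw0) (ne1 hb hw0))] at h0
    have h2 : (z 0 - w 0) * (1 - a * b * (z 0 * w 0)) = 0 := by linear_combination h0
    have h3 := sub_eq_zero.1 ((mul_eq_zero.1 h2).resolve_right (ne2 ha hb hz0 hw0))
    ext i
    fin_cases i
    · exact h3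
    · exact h1
  · ext i
    fin_cases i <;> simp [pr, ph]
  · rw [(pr_deriv _ _ 0 (ph_deriv ha hb (by simp))).fderiv]
    simpa using dg_one
  · intro z hz h0
    rw [ph_field ha hb z hz]
    exact pr_pos (fun ζ => (1 - a * ζ) * (1 - b * ζ) / (1 - a * b * (ζ * ζ)))
      (fun ζ h => ph_re ha hb h) z hz h0

theorem fderiv_bound (u : E → E) (R : ℝ) (hR : 1 < R) (hu : DifferentiableOn ℂ u (ball 0 R)) :
    ∃ B : ℝ, 0 < B ∧ ∀ z ∈ ball (0 : E) 1, ‖fderiv ℂ u z‖ ≤ B := by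
  have hsub : closedBall (0 : E) ((R + 1) / 2) ⊆ ball 0 R := closedBall_subset_ball (by linarith)
  obtain ⟨M, hM⟩ := (isCompact_closedBall (0 : E) ((R + 1) / 2)).exists_bound_of_continuousOn
    (hu.continuousOn.mono hsub)
  have hδ : 0 < (R - 1) / 2 := by linarith
  have hM0 : 0 ≤ M := (norm_nonneg _).trans (hM 0 (mem_closedBall_self (by linarith)))
  refine ⟨M / ((R - 1) / 2) + 1, by positivity, fun z hz => ?_⟩
  refine (ContinuousLinearMap.opNorm_le_of_unit_norm (by positivity) fun v hv => ?_).trans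
    (le_add_of_nonneg_right zero_le_one)
  have hmem : ∀ t ∈ closedBall (0 : ℂ) ((R - 1) / 2), z + t • v ∈ closedBall (0 : E) ((R + 1) / 2) := by
    intro t ht
    rw [mem_closedBall_zero_iff] at ht ⊢
    have := mem_ball_zero_iff.1 hz
    refine (norm_add_le _ _).trans ?_
    rw [norm_smul, hv]
    linarith
  have hd : ∀ t ∈ closedBall (0 : ℂ) ((R - 1) / 2),
      DifferentiableAt ℂ (fun t : ℂ => u (z + t • v)) t := fun t ht =>
    (hu.differentiableAt (isOpen_ball.mem_nhds (hsub (hmem t ht)))).comp t (by fun_prop)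
  have h1 := norm_deriv_le_of_forall_mem_sphere_norm_le (c := 0) (C := M) hδ
    (DifferentiableOn.diffContOnCl fun t ht =>
      (hd t (closure_ball_subset_closedBall ht)).differentiableWithinAt)
    (fun t ht => hM _ (hmem t (sphere_subset_closedBall ht)))
  have h2 : HasDerivAt (fun t : ℂ => z + t • v) v 0 := by
    simpa using ((hasDerivAt_id (0 : ℂ)).smul_const v).const_add z
  have h3 : HasDerivAt (fun t : ℂ => u (z + t • v)) (fderiv ℂ u z v) 0 :=
    HasFDerivAt.comp_hasDerivAt_of_eq (0 : ℂ) (hu.differentiableAt (isOpen_ball.mem_nhds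
      (ball_subset_ball hR.le hz))).hasFDerivAt h2 (by simp)
  rwa [h3.deriv] at h1

theorem pert_mem (u : E → E) (hu : DifferentiableOn ℂ u (ball 0 1)) (h0 : u 0 = 0)
    (h1 : fderiv ℂ u 0 = 0) (hB : ∀ z ∈ ball (0 : E) 1, ‖fderiv ℂ u z‖ ≤ 1 / 4) :
    InS (id + u) := by
  have hd : ∀ z ∈ ball (0 : E) 1, DifferentiableAt ℂ u z := fun z hz =>
    hu.differentiableAt (isOpen_ball.mem_nhds hz)
  have hL : ∀ a ∈ ball (0 : E) 1, ∀ b ∈ ball (0 : E) 1, ‖u b - u a‖ ≤ 1 / 4 * ‖b - a‖ :=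
    fun a ha b hb => (convex_ball 0 1).norm_image_sub_le_of_norm_fderiv_le hd hB ha hb
  have hD : ∀ z ∈ ball (0 : E) 1,
      fderiv ℂ (id + u) z = ContinuousLinearMap.id ℂ E + fderiv ℂ u z := fun z hz =>
    ((hasFDerivAt_id z).add (hd z hz).hasFDerivAt).fderiv
  have z0 : (0 : E) ∈ ball (0 : E) 1 := mem_ball_self one_pos
  refine ⟨differentiableOn_id.add hu, fun a ha b hb h => ?_, by simp [h0],
    by rw [hD 0 z0, h1, add_zero], fun z hz hz0 => ?_⟩
  · have h2 : u b - u a = a - b := by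
      have : a + u a = b + u b := h
      linear_combination (norm := abel) -this
    have h3 := hL a ha b hb
    rw [h2, norm_sub_rev b a] at h3
    have h4 := norm_nonneg (a - b)
    exact sub_eq_zero.1 (norm_eq_zero.1 (by linarith))
  · rw [hD z hz]
    have hT : ∀ w, ‖fderiv ℂ u z w‖ ≤ 1 / 4 * ‖w‖ := fun w =>
      (fderiv ℂ u z).le_of_opNorm_le (hB z hz) w
    have hi : Function.Injective (ContinuousLinearMap.id ℂ E + fderiv ℂ u z) := by
      rw [injective_iff_map_eq_zero]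
      intro w hw
      have h2 : fderiv ℂ u z w = -w := eq_neg_of_add_eq_zero_right hw
      have h3 := hT w
      rw [h2, norm_neg] at h3
      have h4 := norm_nonneg w
      exact norm_eq_zero.1 (by linarith)
    have h2 := (invertible _ hi).self_apply_inverse ((ContinuousLinearMap.id ℂ E) ((id + u : E → E) z))
    generalize (ContinuousLinearMap.id ℂ E + fderiv ℂ u z).inverse
      ((ContinuousLinearMap.id ℂ E) ((id + u : E → E) z)) = w at h2 ⊢
    have h3 : w - z = u z - fderiv ℂ u z w := by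
      have : w + fderiv ℂ u z w = z + u z := h2
      linear_combination (norm := abel) this
    have h4 : ‖u z‖ ≤ 1 / 4 * ‖z‖ := by simpa [h0] using hL 0 z0 z hz
    have h5 : ‖w - z‖ ≤ 1 / 4 * ‖z‖ + 1 / 4 * ‖w‖ := by
      rw [h3]
      exact (norm_sub_le _ _).trans (add_le_add h4 (hT w))
    have h6 : ‖w‖ ≤ ‖z‖ + ‖w - z‖ := by simpa using norm_add_le z (w - z)
    have h7 : 0 < ‖z‖ := norm_pos_iff.2 hz0
    have h8 : inner ℂ z w = ((‖z‖ ^ 2 : ℝ) : ℂ) + inner ℂ z (w - z) := by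
      rw [inner_sub_right, inner_self_eq_norm_sq_to_K]
      simp
    have h9 : -(‖z‖ * ‖w - z‖) ≤ (inner ℂ z (w - z)).re :=
      (neg_le_neg (norm_inner_le_norm (𝕜 := ℂ) z (w - z))).trans
        (abs_le.1 (Complex.abs_re_le_norm _)).1
    rw [h8, add_re, ofReal_re]
    nlinarith

/-- a continuous linear functional on holomorphic maps of the ball -/
def IsFun (L : (E → E) → ℂ) : Prop :=
  (∀ g₁ g₂ : E → E, DifferentiableOn ℂ g₁ (ball 0 1) → DifferentiableOn ℂ g₂ (ball 0 1) →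
    L (g₁ + g₂) = L g₁ + L g₂) ∧
  (∀ (c : ℂ) (g : E → E), DifferentiableOn ℂ g (ball 0 1) → L (c • g) = c * L g) ∧
  ∃ K : Set E, IsCompact K ∧ K ⊆ ball 0 1 ∧ ∃ C : ℝ, ∀ g : E → E,
    DifferentiableOn ℂ g (ball 0 1) → ∀ M : ℝ, (∀ x ∈ K, ‖g x‖ ≤ M) → ‖L g‖ ≤ C * M

theorem IsFun.sub {L : (E → E) → ℂ} (hL : IsFun L) {g₁ g₂ : E → E}
    (h1 : DifferentiableOn ℂ g₁ (ball 0 1)) (h2 : DifferentiableOn ℂ g₂ (ball 0 1)) :
    L (g₁ + (-1 : ℂ) • g₂) = L g₁ - L g₂ := by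
  rw [hL.1 _ _ h1 (h2.const_smul _), hL.2.1 _ _ h2]
  ring

theorem unif {F : Type} [NormedAddCommGroup F] [NormedSpace ℂ F] {K : Set F} (hK : IsCompact K)
    (G : ℝ → F → F) (g : F → F) (t₀ : ℝ)
    (hc : ∀ x ∈ K, ContinuousAt (fun p : ℝ × F => G p.1 p.2) (t₀, x))
    (hg : ∀ x ∈ K, ContinuousAt g x) (h0 : ∀ x ∈ K, G t₀ x = g x) {δ : ℝ} (hδ : 0 < δ) :
    ∀ᶠ t in 𝓝 t₀, ∀ x ∈ K, ‖G t x + (-1 : ℂ) • g x‖ < δ := by
  refine hK.eventually_forall_of_forall_eventually fun x hx => ?_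
  have c2 : ContinuousAt (fun p : ℝ × F => g p.2) (t₀, x) :=
    ContinuousAt.comp (f := fun p : ℝ × F => p.2) (x := (t₀, x)) (hg x hx) continuousAt_snd
  have h2 : ContinuousAt (fun p : ℝ × F => ‖G p.1 p.2 + (-1 : ℂ) • g p.2‖) (t₀, x) :=
    ((hc x hx).add (c2.const_smul (-1 : ℂ))).norm
  refine h2.eventually_lt continuousAt_const ?_
  simpa [h0 x hx] using hδ

theorem IsFun.lim {L : (E → E) → ℂ} (hL : IsFun L) {g : E → E} {G : ℝ → E → E} {t₀ : ℝ}
    {l : Filter ℝ} (hl : l ≤ 𝓝 t₀) (hg : DifferentiableOn ℂ g (ball 0 1))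
    (hG : ∀ᶠ t in l, DifferentiableOn ℂ (G t) (ball 0 1))
    (hc : ∀ x ∈ ball (0 : E) 1, ContinuousAt (fun p : ℝ × E => G p.1 p.2) (t₀, x))
    (h0 : ∀ x ∈ ball (0 : E) 1, G t₀ x = g x) : Tendsto (fun t => L (G t)) l (𝓝 (L g)) := by
  obtain ⟨K, hK, hKs, C, hC⟩ := hL.2.2
  rw [Metric.tendsto_nhds]
  intro ε hε
  have hδ : 0 < ε / (|C| + 1) := by positivity
  have h1 : ∀ᶠ t in 𝓝 t₀, ∀ x ∈ K, ‖G t x + (-1 : ℂ) • g x‖ < ε / (|C| + 1) := by
    exact unif hK G g t₀ (fun x hx => hc x (hKs hx))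
      (fun x hx => hg.continuousOn.continuousAt (isOpen_ball.mem_nhds (hKs hx)))
      (fun x hx => h0 x (hKs hx)) hδ
  filter_upwards [hG, h1.filter_mono hl] with t ht h2
  rw [dist_eq_norm, ← hL.sub ht hg]
  refine (hC (G t + (-1 : ℂ) • g) (ht.add (hg.const_smul (-1 : ℂ))) (ε / (|C| + 1))
    fun x hx => by rw [Pi.add_apply, Pi.smul_apply]; exact (h2 x hx).le).trans_lt ?_
  calc C * (ε / (|C| + 1)) ≤ |C| * (ε / (|C| + 1)) := by gcongr; exact le_abs_self C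
    _ < (|C| + 1) * (ε / (|C| + 1)) := by gcongr; linarith
    _ = ε := by field_simp

theorem IsFun.mix {L : (E → E) → ℂ} (hL : IsFun L) {f g₁ g₂ : E → E} (t : ℝ) (ht0 : 0 < t)
    (ht1 : t < 1) (hf : InS f) (h1 : InS g₁) (h2 : InS g₂) (m : ℝ)
    (hm : ∀ g, InS g → (L g).re ≤ m) (hfm : (L f).re = m)
    (e : ∀ z ∈ ball (0 : E) 1, f z = (t : ℂ) • g₁ z + (1 - t : ℂ) • g₂ z) : (L g₁).re = m := by
  obtain ⟨K, hK, hKs, C, hC⟩ := hL.2.2
  have hd := (h1.1.const_smul (t : ℂ)).add (h2.1.const_smul (1 - t : ℂ))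
  have h3 := hC _ (hf.1.add (hd.const_smul (-1 : ℂ))) 0 (fun x hx => by
    simp only [Pi.add_apply, Pi.smul_apply, ← e x (hKs hx)]
    simp)
  rw [hL.sub hf.1 hd, mul_zero, norm_le_zero_iff, sub_eq_zero,
    hL.1 _ _ (h1.1.const_smul _) (h2.1.const_smul _), hL.2.1 _ _ h1.1, hL.2.1 _ _ h2.1] at h3
  have h4 := congrArg Complex.re h3
  rw [hfm, add_re, re_ofReal_mul, ← ofReal_one, ← ofReal_sub, re_ofReal_mul] at h4
  have h5 := hm _ h1
  have h6 := hm _ h2
  nlinarith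

theorem IsFun.const {L : (E → E) → ℂ} (hL : IsFun L) (hm : ∀ g, InS g → (L g).re ≤ (L id).re)
    (g : E → E) (hg : InS g) : (L g).re = (L id).re := by
  have hdil : ∀ t : ℝ, 0 < t → DifferentiableOn ℂ (fun x : E => (t : ℂ)⁻¹ • g ((t : ℂ) • x))
      (ball 0 t⁻¹) := fun t ht => by
    refine DifferentiableOn.fun_const_smul (hg.1.comp (by fun_prop) fun x hx => ?_) _
    rw [mem_ball_zero_iff] at hx ⊢
    rw [norm_smul, Complex.norm_real, Real.norm_of_nonneg ht.le]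
    exact (lt_inv_mul_iff₀ ht).1 (by simpa using hx)
  have h1 : ∀ t ∈ Set.Ioo (0 : ℝ) 1,
      (L fun x : E => (t : ℂ)⁻¹ • g ((t : ℂ) • x)).re = (L id).re := by
    intro t ht
    have hR : 1 < t⁻¹ := one_lt_inv_iff₀.2 ht
    have ht0 : (t : ℂ) ≠ 0 := by exact_mod_cast ht.1.ne'
    have hu := (hdil t ht.1).add (differentiableOn_id.const_smul (-1 : ℂ))
    have hu1 := hu.mono (ball_subset_ball hR.le)
    have hL1 := hL.sub ((hdil t ht.1).mono (ball_subset_ball hR.le)) differentiableOn_id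
    obtain ⟨B, hB0, hB⟩ := fderiv_bound _ _ hR hu
    have hu0 : HasFDerivAt ((fun x : E => (t : ℂ)⁻¹ • g ((t : ℂ) • x)) + (-1 : ℂ) • id)
        (0 : E →L[ℂ] E) 0 := by
      have a1 : HasFDerivAt g (ContinuousLinearMap.id ℂ E) ((t : ℂ) • (0 : E)) := by
        rw [smul_zero, ← hg.2.2.2.1]
        exact (hg.1.differentiableAt (isOpen_ball.mem_nhds (mem_ball_self one_pos))).hasFDerivAt
      have a2 := ((a1.comp (0 : E) ((hasFDerivAt_id (0 : E)).fun_const_smul (t : ℂ))).fun_const_smul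
        (t : ℂ)⁻¹).add ((hasFDerivAt_id (0 : E)).const_smul (-1 : ℂ))
      refine a2.congr_fderiv ?_
      ext1 x
      simp only [add_apply, smul_apply,
        ContinuousLinearMap.comp_apply, ContinuousLinearMap.id_apply, smul_smul,
        inv_mul_cancel₀ ht0]
      simp
    have hz : ((fun x : E => (t : ℂ)⁻¹ • g ((t : ℂ) • x)) + (-1 : ℂ) • id : E → E) 0 = 0 := by
      simp [hg.2.2.1]
    generalize ((fun x : E => (t : ℂ)⁻¹ • g ((t : ℂ) • x)) + (-1 : ℂ) • id) = u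
      at hu hu1 hL1 hB hu0 hz
    have key : ∀ s : ℝ, |s| = 1 / (4 * B) → s * (L u).re ≤ 0 := by
      intro s hs
      have b1 := hm _ (pert_mem ((s : ℂ) • u) (hu1.const_smul _) (by simp [hz])
        (by rw [(hu0.const_smul (s : ℂ)).fderiv, smul_zero]) fun z hz => by
          rw [((hu1.differentiableAt (isOpen_ball.mem_nhds hz)).hasFDerivAt.const_smul
            (s : ℂ)).fderiv, norm_smul, Complex.norm_real, Real.norm_eq_abs, hs]
          calc 1 / (4 * B) * ‖fderiv ℂ u z‖ ≤ 1 / (4 * B) * B := by gcongr; exact hB z hz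
            _ = 1 / 4 := by field_simp)
      rw [hL.1 _ _ differentiableOn_id (hu1.const_smul _), hL.2.1 _ _ hu1, add_re,
        re_ofReal_mul] at b1
      linarith
    have hp : 0 < 1 / (4 * B) := by positivity
    have k1 := key _ (abs_of_pos hp)
    have k2 := key (-(1 / (4 * B))) (by rw [abs_neg, abs_of_pos hp])
    have k3 : (L u).re = 0 := by nlinarith
    rw [hL1, sub_re] at k3
    linarith
  have h2 := hL.lim (g := g) (G := fun t x => (t : ℂ)⁻¹ • g ((t : ℂ) • x)) (t₀ := 1)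
    (l := 𝓝[<] 1) nhdsWithin_le_nhds hg.1 (by
      filter_upwards [Ioo_mem_nhdsLT (show (0 : ℝ) < 1 by norm_num)] with t ht
      exact (hdil t ht.1).mono (ball_subset_ball (one_lt_inv_iff₀.2 ht).le))
    (fun x hx => by
      have c1 : ContinuousAt (fun p : ℝ × E => (p.1 : ℂ)⁻¹) (1, x) :=
        ContinuousAt.inv₀ (f := fun p : ℝ × E => (p.1 : ℂ)) (by fun_prop) (by simp)
      have c2 : ContinuousAt (fun p : ℝ × E => g ((p.1 : ℂ) • p.2)) (1, x) :=
        ContinuousAt.comp_of_eq (f := fun p : ℝ × E => (p.1 : ℂ) • p.2)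
          (hg.1.continuousOn.continuousAt (isOpen_ball.mem_nhds hx)) (by fun_prop) (by simp)
      exact c1.smul c2)
    (fun x _ => by simp)
  have h3 := (continuous_re.tendsto _).comp h2
  refine tendsto_nhds_unique h3 (tendsto_const_nhds.congr' ?_)
  filter_upwards [Ioo_mem_nhdsLT (show (0 : ℝ) < 1 by norm_num)] with t ht
  exact (h1 t ht).symm

theorem pr_mix {φ φ₁ φ₂ : ℂ → ℂ} (t : ℂ) (z : E) (h : φ (z 0) = t * φ₁ (z 0) + (1 - t) * φ₂ (z 0)) :
    pr φ z = t • pr φ₁ z + (1 - t) • pr φ₂ z := by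
  ext i
  fin_cases i
  · simpa [pr] using h
  · simp [pr]
    ring

theorem not_supp {L : (E → E) → ℂ} (hL : IsFun L)
    (hm : ∀ g, InS g → (L g).re ≤ (L (pr (ph 1 (-1)))).re) (g : E → E) (hg : InS g) :
    (L g).re = (L id).re := by
  have n1 : ‖(1 : ℂ)‖ ≤ 1 := by simp
  have n2 : ‖(-1 : ℂ)‖ ≤ 1 := by simp
  have n0 : ‖(0 : ℂ)‖ ≤ 1 := by simp
  have h1 := hL.mix (1 / 2) (by norm_num) (by norm_num) (ph_mem n1 n2) (ph_mem n1 n0) (ph_mem n2 n0)
    _ hm rfl fun z hz => pr_mix _ z (by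
      have a1 := ne1 n1 (co_lt hz 0)
      have a2 := ne1 n2 (co_lt hz 0)
      unfold ph
      push_cast
      generalize z 0 = w at a1 a2 ⊢
      simp only [zero_mul, sub_zero, mul_one]
      generalize hA : 1 - 1 * w = A at a1 ⊢
      generalize hB : 1 - -1 * w = B at a2 ⊢
      field_simp
      rw [← hA, ← hB]
      ring)
  have nt : ∀ t ∈ Set.Ioo (0 : ℝ) 1, ‖(t : ℂ)‖ ≤ 1 := fun t ht => by
    rw [Complex.norm_real, Real.norm_of_nonneg ht.1.le]; exact ht.2.le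
  have h2 : ∀ t ∈ Set.Ioo (0 : ℝ) 1, (L (pr (ph t 0))).re = (L (pr (ph 1 (-1)))).re := by
    intro t ht
    refine hL.mix t ht.1 ht.2 (ph_mem n1 n0) (ph_mem (nt t ht) n0) (ph_mem n1 (nt t ht))
      _ hm h1 fun z hz => pr_mix _ z ?_
    have a1 := ne1 n1 (co_lt hz 0)
    have a2 := ne1 (nt t ht) (co_lt hz 0)
    unfold ph
    generalize z 0 = w at a1 a2 ⊢
    simp only [zero_mul, sub_zero, mul_one]
    generalize hA : 1 - 1 * w = A at a1 ⊢
    generalize hB : 1 - t * w = B at a2 ⊢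
    field_simp
    rw [← hA, ← hB]
    ring
  have h3 := hL.lim (g := id) (G := fun t => pr (ph t 0)) (t₀ := 0) (l := 𝓝[>] 0)
    nhdsWithin_le_nhds differentiableOn_id (by
      filter_upwards [Ioo_mem_nhdsGT (show (0 : ℝ) < 1 by norm_num)] with t ht
      exact (ph_mem (nt t ht) n0).1)
    (fun x hx => by
      have e : (fun p : ℝ × E => pr (ph p.1 0) p.2) = fun p : ℝ × E =>
          (p.2 0 / (1 - p.1 * p.2 0)) • (!₂[1, 0] : E) + p.2 1 • !₂[0, 1] := by
        ext p i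
        fin_cases i <;> simp [pr, ph]
      rw [e]
      have c1 : ContinuousAt (fun p : ℝ × E => p.2 0 / (1 - p.1 * p.2 0)) (0, x) :=
        ContinuousAt.div₀ (by fun_prop) (by fun_prop) (by simp)
      fun_prop)
    (fun x _ => by
      ext i
      fin_cases i <;> simp [pr, ph])
  have h4 : (L id).re = (L (pr (ph 1 (-1)))).re := by
    refine tendsto_nhds_unique ((continuous_re.tendsto _).comp h3) (tendsto_const_nhds.congr' ?_)
    filter_upwards [Ioo_mem_nhdsGT (show (0 : ℝ) < 1 by norm_num)] with t ht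
    exact (h2 t ht).symm
  exact hL.const (fun g hg => h4 ▸ hm g hg) g hg

theorem slice {g : E → E} (hg : DifferentiableOn ℂ g (ball 0 1)) :
    DifferentiableOn ℂ (fun t : ℂ => g !₂[t, 0] 0) (ball 0 1) := by
  have e : (fun t : ℂ => g !₂[t, 0] 0) = (EuclideanSpace.proj 0 : E →L[ℂ] ℂ) ∘ g ∘
      fun t : ℂ => t • (!₂[1, 0] : E) := by
    ext t
    have : (!₂[t, 0] : E) = t • !₂[1, 0] := by
      ext i
      fin_cases i <;> simp
    simp [this]
  rw [e]
  refine (EuclideanSpace.proj 0 : E →L[ℂ] ℂ).differentiable.comp_differentiableOn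
    (hg.comp (by fun_prop) fun t ht => ?_)
  rw [mem_ball_zero_iff] at ht ⊢
  rw [norm_smul, EuclideanSpace.norm_eq]
  simpa using ht

theorem norm_pt (t : ℂ) : ‖(!₂[t, 0] : E)‖ = ‖t‖ := by
  rw [EuclideanSpace.norm_eq]
  simp

theorem slice_an {g : E → E} (hg : DifferentiableOn ℂ g (ball 0 1)) :
    AnalyticAt ℂ (fun t : ℂ => g !₂[t, 0] 0) 0 :=
  (slice hg).analyticAt (ball_mem_nhds 0 one_pos)

/-- minus the third derivative of the first coordinate along the first axis -/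
noncomputable def L3 (g : E → E) : ℂ := -iteratedDeriv 3 (fun t : ℂ => g !₂[t, 0] 0) 0

theorem L3_fun : IsFun L3 := by
  refine ⟨fun g₁ g₂ h1 h2 => ?_, fun c g _ => ?_, closedBall 0 (1 / 2), isCompact_closedBall _ _,
    closedBall_subset_ball (by norm_num), 48, fun g hg M hM => ?_⟩
  · unfold L3
    rw [← neg_add, ← iteratedDeriv_add (slice_an h1).contDiffAt (slice_an h2).contDiffAt]
    rfl
  · unfold L3
    rw [mul_neg, ← iteratedDeriv_const_mul_field]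
    rfl
  · have h := norm_iteratedDeriv_le_of_forall_mem_sphere_norm_le (c := 0) (R := 1 / 2) (C := M) 3
      (by norm_num) (DifferentiableOn.diffContOnCl ((slice hg).mono
        (closure_ball_subset_closedBall.trans (closedBall_subset_ball (by norm_num)))))
      (fun t ht => (PiLp.norm_apply_le _ 0).trans (hM _ (by
        rw [mem_closedBall_zero_iff, norm_pt]
        exact (mem_sphere_zero_iff_norm.1 ht).le)))
    unfold L3
    rw [norm_neg]
    refine h.trans (le_of_eq ?_)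
    simp [Nat.factorial]
    ring

theorem cara (G : ℂ → ℂ) (hG : DifferentiableOn ℂ G (ball 0 1)) (h1 : deriv G 0 = 1)
    (hp : ∀ t ∈ ball (0 : ℂ) 1, t ≠ 0 → 0 ≤ (G t * (starRingEnd ℂ) t).re) :
    (-iteratedDeriv 3 G 0).re ≤ 12 := by
  have key : ∀ y ∈ Set.Ioo (0 : ℝ) 1, 0 ≤ 1 + y ^ 2 / 12 * (iteratedDeriv 3 G 0).re := by
    intro y hy
    have hG' := hG.mono (closedBall_subset_ball hy.2)
    have hG2 : DifferentiableOn ℂ (fun ζ => G ζ * ζ) (closedBall 0 y) := hG'.mul (by fun_prop)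
    have i1 := Shear.integ _ 1 y hy.1 hG'
    have i2 := (Shear.integ _ 0 y hy.1 hG2).const_fun_smul (a := (1 / (2 * y ^ 2) : ℂ))
    have i3 := (Shear.integ _ 3 y hy.1 hG').const_fun_smul (a := (y ^ 2 / 2 : ℂ))
    have a1 := Shear.avg _ 1 y hy.1 hG'
    have a2 := Shear.avg _ 0 y hy.1 hG2
    have a3 := Shear.avg _ 3 y hy.1 hG'
    have k := Real.circleAverage_nonneg_of_nonneg (c := 0) (R := y)
      (f := reCLM ∘ ((fun ζ => G ζ / ζ ^ 1) + (fun ζ => (1 / (2 * y ^ 2) : ℂ) • (G ζ * ζ / ζ ^ 0)) +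
        fun ζ => (y ^ 2 / 2 : ℂ) • (G ζ / ζ ^ 3))) (fun ζ hζ => by
        rw [abs_of_pos hy.1] at hζ
        have hn := mem_sphere_zero_iff_norm.1 hζ
        have hz : ζ ≠ 0 := fun h => by rw [h, norm_zero] at hn; exact hy.1.ne hn
        have h2 := hp ζ (mem_ball_zero_iff.2 (hn ▸ hy.2)) hz
        have h3 : (starRingEnd ℂ) ζ = (y : ℂ) ^ 2 / ζ := by
          rw [eq_div_iff hz, Complex.conj_mul', hn]
        have hy0 : (y : ℂ) ≠ 0 := by exact_mod_cast hy.1.ne'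
        have h4 : G ζ / ζ ^ 1 + (1 / (2 * y ^ 2) : ℂ) • (G ζ * ζ / ζ ^ 0) +
            (y ^ 2 / 2 : ℂ) • (G ζ / ζ ^ 3) =
            ((normSq (y ^ 2 + ζ ^ 2) / (2 * y ^ 6) : ℝ) : ℂ) * (G ζ * (starRingEnd ℂ) ζ) := by
          push_cast
          rw [normSq_eq_conj_mul_self]
          simp only [map_add, map_pow, conj_ofReal, h3, smul_eq_mul]
          field_simp
          ring
        simp only [Function.comp, reCLM_apply, Pi.add_apply]
        rw [h4, re_ofReal_mul]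
        have := normSq_nonneg ((y : ℂ) ^ 2 + ζ ^ 2)
        positivity)
    rw [reCLM.circleAverage_comp_comm ((i1.add i2).add i3), Real.circleAverage_add (i1.add i2) i3,
      Real.circleAverage_add i1 i2, Real.circleAverage_fun_smul, Real.circleAverage_fun_smul,
      a1, a2, a3, iteratedDeriv_one, h1] at k
    have e : (1 / ((1 : ℕ).factorial : ℂ) + (1 / (2 * y ^ 2) : ℂ) •
        (iteratedDeriv 0 (fun ζ => G ζ * ζ) 0 / ((0 : ℕ).factorial : ℂ)) + (y ^ 2 / 2 : ℂ) •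
        (iteratedDeriv 3 G 0 / ((3 : ℕ).factorial : ℂ))) =
        1 + ((y ^ 2 / 12 : ℝ) : ℂ) * iteratedDeriv 3 G 0 := by
      simp [Nat.factorial]
      ring
    rw [e, reCLM_apply, add_re, re_ofReal_mul, one_re] at k
    exact k
  have t1 : Tendsto (fun y : ℝ => 1 + y ^ 2 / 12 * (iteratedDeriv 3 G 0).re) (𝓝[<] 1)
      (𝓝 (1 + 1 / 12 * (iteratedDeriv 3 G 0).re)) :=
    (Continuous.tendsto' (by fun_prop) _ _ (by simp)).mono_left nhdsWithin_le_nhds
  have h2 := ge_of_tendsto t1 (by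
    filter_upwards [Ioo_mem_nhdsLT (show (0 : ℝ) < 1 by norm_num)] with y hy
    exact key y hy)
  rw [neg_re]
  linarith

theorem L3_le (g : E → E) (hg : InN g) : (L3 g).re ≤ 12 := by
  refine cara _ (slice hg.1) ?_ fun t ht h0 => ?_
  · have a1 : HasFDerivAt g (ContinuousLinearMap.id ℂ E) 0 := by
      rw [← hg.2.2.1]
      exact (hg.1.differentiableAt (isOpen_ball.mem_nhds (mem_ball_self one_pos))).hasFDerivAt
    have a2 : HasDerivAt (fun t : ℂ => t • (!₂[1, 0] : E)) !₂[1, 0] 0 := by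
      simpa using (hasDerivAt_id (0 : ℂ)).smul_const (!₂[1, 0] : E)
    have a3 := (EuclideanSpace.proj 0 : E →L[ℂ] ℂ).hasFDerivAt.comp_hasDerivAt (0 : ℂ)
      (HasFDerivAt.comp_hasDerivAt_of_eq (0 : ℂ) a1 a2 (by simp))
    have e : (fun t : ℂ => g !₂[t, 0] 0) = (EuclideanSpace.proj 0 : E →L[ℂ] ℂ) ∘ g ∘
        fun t : ℂ => t • (!₂[1, 0] : E) := by
      ext t
      have : (!₂[t, 0] : E) = t • !₂[1, 0] := by
        ext i
        fin_cases i <;> simp
      simp [this]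
    rw [e, a3.deriv]
    simp
  · have := hg.2.2.2 !₂[t, 0] (by rw [mem_ball_zero_iff, norm_pt]; exact mem_ball_zero_iff.1 ht)
      (fun h => h0 (congrArg (fun z : E => z 0) h))
    rw [PiLp.inner_apply, Fin.sum_univ_two] at this
    simpa using this.le

/-- the generator of `ζ / (1 - ζ²)` -/
noncomputable def H0 (ζ : ℂ) : ℂ := ζ * ((1 - 1 * ζ) * (1 - -1 * ζ) / (1 - 1 * -1 * (ζ * ζ)))

theorem H0_diff {ζ : ℂ} (h : ‖ζ‖ < 1) : AnalyticAt ℂ H0 ζ := by
  have := ne2 (a := 1) (b := -1) (by simp) (by simp) h h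
  unfold H0
  fun_prop (disch := exact this)

theorem H0_third : iteratedDeriv 3 H0 0 = -12 := by
  have ha : AnalyticAt ℂ (fun ζ : ℂ => ζ ^ 1) 0 := by fun_prop
  have hb : AnalyticAt ℂ (fun ζ : ℂ => 2 * ζ ^ 3) 0 := by fun_prop
  have h0 := H0_diff (ζ := 0) (by simp)
  have h1 := Shear.deriv_zero_of_little _ 3 ((h0.sub ha).add hb) (by
    have c1 : Tendsto (fun ζ : ℂ => 2 * ζ ^ 2 / (1 + ζ * ζ)) (𝓝 0) (𝓝 0) := by
      have : ContinuousAt (fun ζ : ℂ => 2 * ζ ^ 2 / (1 + ζ * ζ)) 0 :=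
        ContinuousAt.div₀ (by fun_prop) (by fun_prop) (by simp)
      simpa using this.tendsto
    have c2 := ((Asymptotics.isLittleO_one_iff ℂ).2 c1).mul_isBigO
      (Asymptotics.isBigO_refl (fun ζ : ℂ => ζ ^ 3) (𝓝 0))
    refine c2.congr' ?_ (by simp)
    filter_upwards [ball_mem_nhds (0 : ℂ) one_pos] with ζ hζ
    have h := mem_ball_zero_iff.1 hζ
    have n : 1 + ζ * ζ ≠ 0 := by simpa using ne2 (a := 1) (b := -1) (by simp) (by simp) h h
    simp only [H0, Pi.add_apply, Pi.sub_apply, one_mul, neg_mul, sub_neg_eq_add]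
    generalize hA : 1 + ζ * ζ = A at n
    field_simp
    rw [← hA]
    ring)
  rw [iteratedDeriv_add (h0.sub ha).contDiffAt hb.contDiffAt,
    iteratedDeriv_sub h0.contDiffAt ha.contDiffAt, iteratedDeriv_const_mul_field,
    iteratedDeriv_fun_pow_zero, iteratedDeriv_fun_pow_zero] at h1
  simp [Nat.factorial] at h1
  linear_combination h1

theorem H0_mem : InN (pr H0) := by
  refine ⟨fun z hz => (pr_deriv _ _ z (H0_diff (co_lt hz 0)).differentiableAt.hasDerivAt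
    ).differentiableAt.differentiableWithinAt, ?_, ?_, fun z hz h0 => ?_⟩
  · ext i
    fin_cases i <;> simp [pr, H0]
  · have d : HasDerivAt H0 1 ((0 : E) 0) := by
      have c : DifferentiableAt ℂ
          (fun ζ : ℂ => (1 - 1 * ζ) * (1 - -1 * ζ) / (1 - 1 * -1 * (ζ * ζ))) 0 := by
        fun_prop (disch := simp)
      have := (hasDerivAt_id (0 : ℂ)).fun_mul c.hasDerivAt
      refine this.congr_deriv ?_
      simp
    rw [(pr_deriv _ _ 0 d).fderiv, dg_one]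
  · exact pr_pos (fun ζ => (1 - 1 * ζ) * (1 - -1 * ζ) / (1 - 1 * -1 * (ζ * ζ)))
      (fun ζ h => ph_re (by simp) (by simp) h) z hz h0

theorem L3_H0 : L3 (pr H0) = 12 := by
  have : L3 (pr H0) = -iteratedDeriv 3 H0 0 := rfl
  rw [this, H0_third, neg_neg]

theorem L3_id : L3 id = 0 := by
  have : L3 id = -iteratedDeriv 3 (fun t : ℂ => t ^ 1) 0 := by simp [L3]
  rw [this, iteratedDeriv_fun_pow_zero]
  simp

theorem id_mem : InN id :=
  ⟨differentiableOn_id, rfl, fderiv_id, fun z _ h0 => by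
    rw [id, inner_self_eq_norm_sq_to_K]
    have := pow_pos (norm_pos_iff.2 h0) 2
    exact_mod_cast this⟩

theorem L3_field : L3 (fun z => (fderiv ℂ (pr (ph 1 (-1))) z).inverse
    ((ContinuousLinearMap.id ℂ E) (pr (ph 1 (-1)) z))) = 12 := by
  unfold L3
  rw [Filter.EventuallyEq.iteratedDeriv_eq 3 (g := H0), H0_third, neg_neg]
  filter_upwards [ball_mem_nhds (0 : ℂ) one_pos] with t ht
  rw [ph_field (by simp) (by simp) _
    (by rw [mem_ball_zero_iff, norm_pt]; exact mem_ball_zero_iff.1 ht)]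
  rfl

end Pool.Agent.Lib.H8.Star
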