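import Mathlib

set_option autoImplicit false

namespace Pool.Agent.Lib.H8.TD

/-- `S` is a total dominating set of `G`: every vertex has a neighbour in `S`. -/
def IsTD {V : Type} (G : SimpleGraph V) (S : Set V) : Prop := ∀ v, ∃ u ∈ S, G.Adj v u

/-- `td G`: the least number of edges of the complement whose addition to `G` gives a graph with
two disjoint total dominating sets. -/
noncomputable def td {V : Type} (G : SimpleGraph V) : ℕ :=
  sInf {m | ∃ H : SimpleGraph V, G ≤ H ∧ (H.edgeSet \ G.edgeSet).ncard = m ∧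
    ∃ S T : Set V, Disjoint S T ∧ IsTD H S ∧ IsTD H T}

theorem le_td {V : Type} [Fintype V] (G : SimpleGraph V) (hV : 4 ≤ Fintype.card V) (m : ℕ)
    (h : ∀ (H : SimpleGraph V) (S T : Set V), Disjoint S T → IsTD H S → IsTD H T →
      ∃ A : Finset V, 2 * m ≤ A.card + 1 ∧ ∀ v ∈ A, ∃ u, H.Adj v u ∧ ¬ G.Adj v u) :
    m ≤ td G := by
  classical
  apply le_csInf
  · obtain ⟨f⟩ : Nonempty (Fin 4 ↪ V) :=
      Function.Embedding.nonempty_of_card_le (by simpa using hV)
    have key : ∀ i j : Fin 4, i ≠ j → IsTD (⊤ : SimpleGraph V) {f i, f j} := by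
      intro i j hij v
      by_cases hv : v = f i
      · exact ⟨f j, by simp, by simpa [hv] using hij⟩
      · exact ⟨f i, by simp, by simpa using hv⟩
    refine ⟨_, ⊤, le_top, rfl, {f 0, f 1}, {f 2, f 3}, ?_, key 0 1 (by decide),
      key 2 3 (by decide)⟩
    rw [Set.disjoint_left]
    rintro x (rfl | rfl) (h | h) <;> exact absurd (f.injective h) (by decide)
  · rintro m' ⟨H, -, rfl, S, T, hST, hS, hT⟩
    obtain ⟨A, hA, hA'⟩ := h H S T hST hS hT
    set F := (H.edgeSet \ G.edgeSet).toFinset with hF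
    have h1 : A ⊆ F.biUnion (fun e => e.toFinset) := by
      intro v hv
      obtain ⟨u, hu, hu'⟩ := hA' v hv
      exact Finset.mem_biUnion.2 ⟨s(v, u), by simp [hF, hu, hu'], by simp⟩
    have h2 : (F.biUnion (fun e => e.toFinset)).card ≤ F.card * 2 :=
      Finset.card_biUnion_le_card_mul _ _ _ fun e _ => by
        rw [Sym2.card_toFinset]; split_ifs <;> omega
    have h3 := Finset.card_le_card h1
    rw [Set.ncard_eq_toFinset_card', ← hF]
    omega

end Pool.Agent.Lib.H8.TD
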