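import Pool.Agent.Lib.H8.Col4b

set_option maxHeartbeats 400000

namespace Pool.Agent.Lib.H8.Ter3
open PowerSeries
open Pool.Agent.Lib.H8.Col4 (ofL coeff_ofL)

noncomputable def ex : ℤ⟦X⟧ →ₐ[ℤ] ℤ⟦X⟧ := PowerSeries.expand 3 (by norm_num)

lemma ex_X : ex X = X ^ 3 := PowerSeries.expand_X 3 (by norm_num)

lemma coeff_ex (h : ℤ⟦X⟧) (n : ℕ) : coeff n (ex h) = if 3 ∣ n then coeff (n / 3) h else 0 :=
  PowerSeries.coeff_expand 3 (by norm_num) h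

lemma cx (h : ℤ⟦X⟧) (n r s : ℕ) (hr : r < 3) (hs : s < 3) :
    coeff (3 * n + r) (X ^ s * ex h) = if s = r then coeff n h else 0 := by
  rw [coeff_X_pow_mul', coeff_ex]
  by_cases h1 : s = r
  · subst h1
    have e : 3 * n + s - s = 3 * n := by omega
    simp [e]
  · rw [if_neg h1]
    split_ifs with h2 h3
    · exfalso; omega
    · rfl
    · rfl

noncomputable def sec (r : ℕ) (p : ℤ⟦X⟧) : ℤ⟦X⟧ := PowerSeries.mk fun n => coeff (3 * n + r) p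

lemma decomp (p : ℤ⟦X⟧) :
    p = X ^ 0 * ex (sec 0 p) + X ^ 1 * ex (sec 1 p) + X ^ 2 * ex (sec 2 p) := by
  ext n
  obtain ⟨q, r, hr, rfl⟩ : ∃ q r, r < 3 ∧ n = 3 * q + r :=
    ⟨n / 3, n % 3, Nat.mod_lt _ (by norm_num), by omega⟩
  simp only [map_add]
  rw [cx _ _ _ _ hr (by norm_num), cx _ _ _ _ hr (by norm_num), cx _ _ _ _ hr (by norm_num)]
  interval_cases r <;> simp [sec]

lemma coeff_mul_ex (p g : ℤ⟦X⟧) (n r : ℕ) (hr : r < 3) :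
    coeff (3 * n + r) (p * ex g) = coeff n (sec r p * g) := by
  have e : p * ex g = X ^ 0 * ex (sec 0 p * g) + X ^ 1 * ex (sec 1 p * g)
      + X ^ 2 * ex (sec 2 p * g) := by
    conv_lhs => rw [decomp p]
    simp only [map_mul]; ring
  rw [e]
  simp only [map_add]
  rw [cx _ _ _ _ hr (by norm_num), cx _ _ _ _ hr (by norm_num), cx _ _ _ _ hr (by norm_num)]
  interval_cases r <;> simp

def c (r : ℕ) : ℤ := if r = 1 then -2 else 1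

def t (n : ℕ) : ℤ := if _h : n = 0 then 1 else c (n % 3) * t (n / 3)
decreasing_by omega

lemma t_zero : t 0 = 1 := by rw [t]; simp

lemma t_rec (q r : ℕ) (hr : r < 3) : t (3 * q + r) = c r * t q := by
  by_cases h : 3 * q + r = 0
  · have h1 : q = 0 := by omega
    have h2 : r = 0 := by omega
    subst h1 h2; simp [c]
  · rw [t, dif_neg h]
    have e1 : (3 * q + r) % 3 = r := by omega
    have e2 : (3 * q + r) / 3 = q := by omega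
    rw [e1, e2]

noncomputable def W : ℤ⟦X⟧ := PowerSeries.mk t

lemma W_eq : W = (1 - X) ^ 2 * ex W := by
  have e : ((1 - X) ^ 2 : ℤ⟦X⟧) = ofL [1, -2, 1] := by
    simp only [ofL, map_neg, map_one, map_ofNat]; ring
  ext n
  obtain ⟨q, r, hr, rfl⟩ : ∃ q r, r < 3 ∧ n = 3 * q + r :=
    ⟨n / 3, n % 3, Nat.mod_lt _ (by norm_num), by omega⟩
  rw [coeff_mul_ex _ _ _ _ hr]
  have e2 : sec r ((1 - X) ^ 2) = C (c r) := by
    ext k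
    rw [e, sec, coeff_mk, coeff_ofL, coeff_C]
    cases k with
    | zero => interval_cases r <;> simp [c]
    | succ k =>
      rw [List.getD_eq_default _ _ (by simp; omega)]; simp
  rw [e2, coeff_C_mul, W, coeff_mk, coeff_mk, t_rec q r hr]

lemma W0 : constantCoeff W = 1 := by simp [W, t_zero]

noncomputable def Phi : ℤ⟦X⟧ := (1 - X) * W

lemma W_prod (k : ℕ) : ∃ E : ℤ⟦X⟧, X ^ (3 ^ k) ∣ E - 1 ∧
    W = (∏ i ∈ Finset.range k, (1 - X ^ (3 ^ i)) ^ 2) * E := by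
  induction k with
  | zero =>
    refine ⟨W, ?_, by simp⟩
    rw [X_pow_dvd_iff]
    intro n hn
    have : n = 0 := by omega
    subst this
    simp [W, t_zero]
  | succ k ih =>
    obtain ⟨E, h1, h2⟩ := ih
    refine ⟨ex E, ?_, ?_⟩
    · have := map_dvd ex h1
      rw [map_pow, ex_X, ← pow_mul, map_sub, map_one] at this
      rwa [pow_succ, mul_comm]
    · rw [Finset.prod_range_succ']
      conv_lhs => rw [W_eq, h2]
      simp only [map_mul, map_prod, map_pow, map_sub, map_one, ex_X, ← pow_mul, pow_zero, pow_one]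
      have : ∀ i, 3 * 3 ^ i = 3 ^ (i + 1) := fun i => by ring
      simp only [this]; ring

lemma inv_mul (d : ℕ) (hd : d ≠ 0) : invOfUnit (1 - X ^ d : ℤ⟦X⟧) 1 * (1 - X ^ d) = 1 := by
  rw [mul_comm]
  exact mul_invOfUnit _ _ (by simp [hd])

lemma exF (m : ℕ) : ∃ F : ℤ⟦X⟧, F * Phi ^ m = 1 ∧ ∀ n,
    coeff n (invOfUnit (1 - X ^ 1 : ℤ⟦X⟧) 1 ^ m *
      ∏ i ∈ Finset.range (n + 1), invOfUnit (1 - X ^ (3 ^ i) : ℤ⟦X⟧) 1 ^ (2 * m)) = coeff n F := by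
  have hF : invOfUnit (Phi ^ m) 1 * Phi ^ m = 1 := by
    rw [mul_comm]
    exact mul_invOfUnit _ _ (by simp [W0, Phi])
  refine ⟨_, hF, fun n => ?_⟩
  generalize invOfUnit (Phi ^ m) 1 = F at hF
  obtain ⟨E, h1, h2⟩ := W_prod (n + 1)
  have hI : (invOfUnit (1 - X ^ 1 : ℤ⟦X⟧) 1 ^ m *
      ∏ i ∈ Finset.range (n + 1), invOfUnit (1 - X ^ (3 ^ i) : ℤ⟦X⟧) 1 ^ (2 * m)) *
      Phi ^ m = E ^ m := by
    rw [Phi, h2]
    have a1 : invOfUnit (1 - X ^ 1 : ℤ⟦X⟧) 1 * (1 - X) = 1 := by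
      simpa using inv_mul 1 one_ne_zero
    have a2 : (∏ i ∈ Finset.range (n + 1), invOfUnit (1 - X ^ (3 ^ i) : ℤ⟦X⟧) 1 ^ (2 * m)) *
        (∏ i ∈ Finset.range (n + 1), (1 - X ^ (3 ^ i)) ^ 2) ^ m = 1 := by
      rw [← Finset.prod_pow, ← Finset.prod_mul_distrib]
      refine Finset.prod_eq_one fun i _ => ?_
      rw [← pow_mul, ← mul_pow, inv_mul _ (by positivity), one_pow]
    calc _ = (invOfUnit (1 - X ^ 1 : ℤ⟦X⟧) 1 * (1 - X)) ^ m *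
        ((∏ i ∈ Finset.range (n + 1), invOfUnit (1 - X ^ (3 ^ i) : ℤ⟦X⟧) 1 ^ (2 * m)) *
        (∏ i ∈ Finset.range (n + 1), (1 - X ^ (3 ^ i)) ^ 2) ^ m) * E ^ m := by
          simp only [mul_pow]; ring
      _ = E ^ m := by rw [a1, a2]; simp
  generalize (invOfUnit (1 - X ^ 1 : ℤ⟦X⟧) 1 ^ m *
      ∏ i ∈ Finset.range (n + 1), invOfUnit (1 - X ^ (3 ^ i) : ℤ⟦X⟧) 1 ^ (2 * m)) = I at hI
  have h3 : X ^ (3 ^ (n + 1)) ∣ I - F := by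
    have e : I - F = (E ^ m - 1 ^ m) * F := by
      linear_combination F * hI - I * hF
    rw [e]
    exact (h1.trans (sub_dvd_pow_sub_pow E 1 m)).mul_right _
  have h4 := X_pow_dvd_iff.1 h3 n
    ((Nat.lt_succ_self n).trans (Nat.lt_pow_self (by norm_num)))
  rw [map_sub] at h4
  linarith

noncomputable def U : ℤ⟦X⟧ →+ ℤ⟦X⟧ where
  toFun := sec 0
  map_zero' := by ext n; simp [sec]
  map_add' a b := by ext n; simp [sec]

lemma coeff_U (f : ℤ⟦X⟧) (n : ℕ) : coeff n (U f) = coeff (3 * n) f := by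
  simp [U, sec]

lemma U_mul_ex (p g : ℤ⟦X⟧) : U (p * ex g) = U p * g := by
  ext n
  rw [coeff_U]
  exact coeff_mul_ex p g n 0 (by norm_num)

lemma U_split (a b d : ℤ⟦X⟧) : U (ex a + X * ex b + X ^ 2 * ex d) = a := by
  ext n
  have h0 := cx a n 0 0 (by norm_num) (by norm_num)
  have h1 := cx b n 0 1 (by norm_num) (by norm_num)
  have h2 := cx d n 0 2 (by norm_num) (by norm_num)
  simp only [pow_zero, one_mul, pow_one, add_zero] at h0 h1 h2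
  rw [coeff_U, map_add, map_add, h0, h1, h2]; simp

lemma coeff_iter (j : ℕ) (f : ℤ⟦X⟧) (n : ℕ) : coeff n (U^[j] f) = coeff (3 ^ j * n) f := by
  induction j generalizing n with
  | zero => simp
  | succ j ih => rw [Function.iterate_succ_apply', coeff_U, ih, pow_succ, mul_assoc]

noncomputable def xi : ℤ⟦X⟧ := PowerSeries.mk 1
lemma hxi : xi * (1 - X) = 1 := mk_one_mul_one_sub_eq_one ℤ
lemma hze : ex xi * (1 - X ^ 3) = 1 := by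
  have := congrArg ex hxi
  rwa [map_mul, map_sub, map_one, ex_X] at this
lemma xi_eq : xi = (1 + X + X ^ 2) * ex xi := by
  linear_combination (-xi) * hze + ((1 + X + X ^ 2) * ex xi) * hxi

noncomputable def w : ℤ⟦X⟧ := X * xi ^ 2

lemma hR : 1 + 3 * w = (1 + X + X ^ 2) * xi ^ 2 := by
  unfold w
  linear_combination (-(1 + xi * (1 - X))) * hxi

lemma w_cube : w ^ 3 = (1 + 3 * w) ^ 2 * ex w := by
  rw [hR]
  unfold w
  rw [map_mul, map_pow, ex_X]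
  linear_combination (X ^ 3 * xi ^ 4 * (xi + (1 + X + X ^ 2) * ex xi)) * xi_eq

lemma U_const (k : ℤ) (f : ℤ⟦X⟧) : U ((k : ℤ⟦X⟧) * f) = k * U f := by
  have : (k : ℤ⟦X⟧) * f = f * ex k := by rw [map_intCast]; ring
  rw [this, U_mul_ex]; ring

lemma U_pow3 (k : ℕ) (f : ℤ⟦X⟧) : U (3 ^ k * f) = 3 ^ k * U f := by
  have := U_const (3 ^ k) f
  push_cast at this; exact this

lemma u0 : U (w ^ 0) = 1 := by simpa using U_split 1 0 0

lemma u1 : U (w ^ 1) = 3 * w := by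
  have : w ^ 1 = ex (3 * w) + X * ex ((1 + 2 * X) * xi ^ 2) + X ^ 2 * ex ((2 + X) * xi ^ 2) := by
    unfold w
    simp only [map_mul, map_add, map_one, ex_X, map_ofNat, map_pow]
    linear_combination (X * (xi + (1 + X + X ^ 2) * ex xi)) * xi_eq
  rw [this, U_split]

lemma u2 : U (w ^ 2) = 4 * w + 27 * w ^ 2 := by
  have : w ^ 2 = ex ((4 * X + 19 * X ^ 2 + 4 * X ^ 3) * xi ^ 4)
      + X * ex ((10 * X + 16 * X ^ 2 + X ^ 3) * xi ^ 4)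
      + X ^ 2 * ex ((1 + 16 * X + 10 * X ^ 2) * xi ^ 4) := by
    unfold w
    simp only [map_mul, map_add, map_one, ex_X, map_ofNat, map_pow]
    linear_combination (X ^ 2 * (xi + (1 + X + X ^ 2) * ex xi)
      * (xi ^ 2 + ((1 + X + X ^ 2) * ex xi) ^ 2)) * xi_eq
  conv_lhs => rw [this]
  rw [U_split]
  unfold w
  linear_combination (4 * X * xi ^ 2 * (1 + xi * (1 - X))) * hxi

lemma U_rec (i : ℕ) :
    U (w ^ (i + 3)) = w * (U (w ^ i) + 6 * U (w ^ (i + 1)) + 9 * U (w ^ (i + 2))) := by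
  have : w ^ (i + 3) = (w ^ i + ((6 : ℤ) : ℤ⟦X⟧) * w ^ (i + 1) + ((9 : ℤ) : ℤ⟦X⟧) * w ^ (i + 2))
      * ex w := by
    rw [pow_add, w_cube]; push_cast; ring
  rw [this, U_mul_ex, map_add, map_add, U_const, U_const]; push_cast; ring

lemma F_eq (F : ℤ⟦X⟧) (m : ℕ) (hF : F * Phi ^ m = 1) : F = (1 + 3 * w) ^ m * ex F := by
  have h1 : ex Phi = (1 + 3 * w) * Phi := by
    rw [hR]
    unfold Phi
    rw [map_mul, map_sub, map_one, ex_X]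
    conv_rhs => rw [W_eq]
    linear_combination (-(1 - X ^ 3) * (1 + xi * (1 - X)) * ex W) * hxi
  have h2 := congrArg ex hF
  rw [map_mul, map_pow, h1, map_one, mul_pow] at h2
  linear_combination (-F) * h2 + ((1 + 3 * w) ^ m * ex F) * hF

lemma U_F (F : ℤ⟦X⟧) (m : ℕ) (hF : F * Phi ^ m = 1) (g : ℤ⟦X⟧) :
    U (g * F) = U (g * (1 + 3 * w) ^ m) * F := by
  conv_lhs => rw [F_eq F m hF, ← mul_assoc, U_mul_ex]

def M : AddSubgroup ℤ⟦X⟧ := AddSubgroup.closure {f | ∃ i : ℕ, f = 3 ^ i * w ^ (i + 1)}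

lemma M_gen (i : ℕ) : 3 ^ i * w ^ (i + 1) ∈ M := AddSubgroup.subset_closure ⟨i, rfl⟩

lemma M_w {f : ℤ⟦X⟧} (hf : f ∈ M) : f * (3 * w) ∈ M := by
  induction hf using AddSubgroup.closure_induction with
  | mem f h =>
    obtain ⟨i, rfl⟩ := h
    have := M_gen (i + 1)
    rwa [show (3 : ℤ⟦X⟧) ^ (i + 1) * w ^ (i + 1 + 1) = 3 ^ i * w ^ (i + 1) * (3 * w) by ring] at this
  | zero => rw [zero_mul]; exact M.zero_mem
  | add a b _ _ h1 h2 => rw [add_mul]; exact M.add_mem h1 h2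
  | neg a _ h1 => rw [neg_mul]; exact M.neg_mem h1

lemma M_R {f : ℤ⟦X⟧} (hf : f ∈ M) (a : ℕ) : f * (1 + 3 * w) ^ a ∈ M := by
  induction a with
  | zero => simpa using hf
  | succ a ih => rw [pow_succ, ← mul_assoc, mul_add, mul_one]; exact M.add_mem ih (M_w ih)

lemma M_int {f : ℤ⟦X⟧} (hf : f ∈ M) (k : ℤ) : (k : ℤ⟦X⟧) * f ∈ M := by
  rw [← zsmul_eq_mul]; exact M.zsmul_mem hf k

lemma gen_U (i : ℕ) : ∃ g ∈ M, 3 ^ i * U (w ^ (i + 1)) = 3 * g := by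
  induction i using Nat.strong_induction_on with
  | _ i ih =>
    match i with
    | 0 => exact ⟨_, M_gen 0, by rw [u1]; ring⟩
    | 1 => exact ⟨_, M.add_mem (M_int (M_gen 0) 4) (M_int (M_gen 1) 9), by rw [u2]; push_cast; ring⟩
    | 2 => exact ⟨_, M.add_mem (M.add_mem (M_int (M_gen 0) 3) (M_int (M_gen 1) 54))
        (M_int (M_gen 2) 81), by rw [U_rec 0, u0, u1, u2]; push_cast; ring⟩
    | i + 3 =>
      obtain ⟨g0, k0, h0⟩ := ih i (by omega)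
      obtain ⟨g1, k1, h1⟩ := ih (i + 1) (by omega)
      obtain ⟨g2, k2, h2⟩ := ih (i + 2) (by omega)
      refine ⟨_, M_w (M.add_mem (M.add_mem (M_int k0 9) (M_int k1 18)) (M_int k2 9)), ?_⟩
      rw [show i + 3 + 1 = i + 1 + 3 by ring, U_rec (i + 1)]
      rw [show i + 2 + 1 = i + 1 + 2 by ring] at h2
      push_cast
      linear_combination (27 * w) * h0 + (54 * w) * h1 + (27 * w) * h2

lemma M_U {f : ℤ⟦X⟧} (hf : f ∈ M) : ∃ g ∈ M, U f = 3 * g := by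
  induction hf using AddSubgroup.closure_induction with
  | mem f h =>
    obtain ⟨i, rfl⟩ := h
    rw [U_pow3]; exact gen_U i
  | zero => exact ⟨0, M.zero_mem, by simp⟩
  | add a b _ _ h1 h2 =>
    obtain ⟨g1, k1, e1⟩ := h1
    obtain ⟨g2, k2, e2⟩ := h2
    exact ⟨g1 + g2, M.add_mem k1 k2, by rw [map_add, e1, e2]; ring⟩
  | neg a _ h1 =>
    obtain ⟨g1, k1, e1⟩ := h1
    exact ⟨-g1, M.neg_mem k1, by rw [map_neg, e1]; ring⟩

lemma M_iter (F : ℤ⟦X⟧) (m : ℕ) (hF : F * Phi ^ m = 1) (e : ℕ) {f : ℤ⟦X⟧} (hf : f ∈ M) (j : ℕ) :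
    ∃ g ∈ M, U^[j] (3 ^ e * (f * F)) = 3 ^ (e + j) * (g * F) := by
  induction j with
  | zero => exact ⟨f, hf, rfl⟩
  | succ j ih =>
    obtain ⟨g, hg, h⟩ := ih
    obtain ⟨g', hg', h'⟩ := M_U (M_R hg m)
    refine ⟨g', hg', ?_⟩
    rw [Function.iterate_succ_apply', h, U_pow3, U_F F m hF, h']; ring

lemma diff (F : ℤ⟦X⟧) (m : ℕ) (hF : F * Phi ^ m = 1) (n : ℕ) :
    coeff (9 * n) F - coeff n F
      = coeff n ((U (U ((1 + 3 * w) ^ m) * (1 + 3 * w) ^ m) - 1) * F) := by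
  have h1 := U_F F m hF 1
  rw [one_mul, one_mul] at h1
  have h2 := U_F F m hF (U ((1 + 3 * w) ^ m))
  rw [sub_mul, one_mul, ← h2, ← h1, map_sub, coeff_U, coeff_U, show 3 * (3 * n) = 9 * n by ring]

lemma u3 : U (w ^ 3) = ((1) * w ^ 1 + (54) * w ^ 2 + (243) * w ^ 3) := by
  rw [U_rec 0, u0, u1, u2]; ring

lemma u4 : U (w ^ 4) = ((36) * w ^ 2 + (648) * w ^ 3 + (2187) * w ^ 4) := by
  rw [U_rec 1, u1, u2, u3]; ring

lemma u5 : U (w ^ 5) = ((10) * w ^ 2 + (675) * w ^ 3 + (7290) * w ^ 4 + (19683) * w ^ 5) := by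
  rw [U_rec 2, u2, u3, u4]; ring

lemma u6 : U (w ^ 6) = ((1) * w ^ 2 + (360) * w ^ 3 + (10206) * w ^ 4 + (78732) * w ^ 5 + (177147) * w ^ 6) := by
  rw [U_rec 3, u3, u4, u5]; ring

lemma u7 : U (w ^ 7) = ((105) * w ^ 3 + (7938) * w ^ 4 + (137781) * w ^ 5 + (826686) * w ^ 6 + (1594323) * w ^ 7) := by
  rw [U_rec 4, u4, u5, u6]; ring

lemma u8 : U (w ^ 8) = ((16) * w ^ 3 + (3780) * w ^ 4 + (139968) * w ^ 5 + (1732104) * w ^ 6 + (8503056) * w ^ 7 + (14348907) * w ^ 8) := by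
  rw [U_rec 5, u5, u6, u7]; ring

lemma u9 : U (w ^ 9) = ((1) * w ^ 3 + (1134) * w ^ 4 + (91854) * w ^ 5 + (2165130) * w ^ 6 + (20726199) * w ^ 7 + (86093442) * w ^ 8 + (129140163) * w ^ 9) := by
  rw [U_rec 6, u6, u7, u8]; ring

lemma u10 : U (w ^ 10) = ((210) * w ^ 4 + (40824) * w ^ 5 + (1804275) * w ^ 6 + (30705480) * w ^ 7 + (239148450) * w ^ 8 + (860934420) * w ^ 9 + (1162261467) * w ^ 10) := by
  rw [U_rec 7, u7, u8, u9]; ring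

lemma u11 : U (w ^ 11) = ((22) * w ^ 4 + (12474) * w ^ 5 + (1058508) * w ^ 6 + (30961359) * w ^ 7 + (409209570) * w ^ 8 + (2683245609) * w ^ 9 + (8523250758) * w ^ 10 + (10460353203) * w ^ 11) := by
  rw [U_rec 8, u8, u9, u10]; ring

lemma u12 : U (w ^ 12) = ((1) * w ^ 4 + (2592) * w ^ 5 + (449064) * w ^ 6 + (22517352) * w ^ 7 + (483611310) * w ^ 8 + (5203870272) * w ^ 9 + (29443957164) * w ^ 10 + (83682825624) * w ^ 11 + (94143178827) * w ^ 12) := by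
  rw [U_rec 9, u9, u10, u11]; ring

lemma u13 : U (w ^ 13) = ((351) * w ^ 5 + (138996) * w ^ 6 + (12196899) * w ^ 7 + (419129802) * w ^ 8 + (7046907660) * w ^ 9 + (63795240522) * w ^ 10 + (317297380491) * w ^ 11 + (815907549834) * w ^ 12 + (847288609443) * w ^ 13) := by
  rw [U_rec 10, u10, u11, u12]; ring

lemma u14 : U (w ^ 14) = ((28) * w ^ 5 + (31185) * w ^ 6 + (5003856) * w ^ 7 + (275837562) * w ^ 8 + (7083045648) * w ^ 9 + (97328636181) * w ^ 10 + (759344158440) * w ^ 11 + (3368233731366) * w ^ 12 + (7908027021468) * w ^ 13 + (7625597484987) * w ^ 14) := by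
  rw [U_rec 11, u11, u12, u13]; ring

lemma u15 : U (w ^ 15) = ((1) * w ^ 5 + (4950) * w ^ 6 + (1563705) * w ^ 7 + (140733450) * w ^ 8 + (5480928180) * w ^ 9 + (111232727064) * w ^ 10 + (1288173125925) * w ^ 11 + (8821564534530) * w ^ 12 + (35303692060125) * w ^ 13 + (76255974849870) * w ^ 14 + (68630377364883) * w ^ 15) := by
  rw [U_rec 12, u12, u13, u14]; ring

lemma u16 : U (w ^ 16) = ((528) * w ^ 6 + (370656) * w ^ 7 + (56293380) * w ^ 8 + (3340756224) * w ^ 9 + (98873535168) * w ^ 10 + (1648861601184) * w ^ 11 + (16466920464456) * w ^ 12 + (100419390748800) * w ^ 13 + (366028679279376) * w ^ 14 + (732057358558752) * w ^ 15 + (617673396283947) * w ^ 16) := by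
  rw [U_rec 13, u13, u14, u15]; ring

lemma h1 : U ((1 + 3 * w) ^ 8) = ((1) * w ^ 0 + (2592) * w ^ 1 + (449064) * w ^ 2 + (22517352) * w ^ 3 + (483611310) * w ^ 4 + (5203870272) * w ^ 5 + (29443957164) * w ^ 6 + (83682825624) * w ^ 7 + (94143178827) * w ^ 8) := by
  have e : (1 + 3 * w) ^ 8 = ((1 : ℤ) : ℤ⟦X⟧) * w ^ 0 + ((24 : ℤ) : ℤ⟦X⟧) * w ^ 1 + ((252 : ℤ) : ℤ⟦X⟧) * w ^ 2 + ((1512 : ℤ) : ℤ⟦X⟧) * w ^ 3 + ((5670 : ℤ) : ℤ⟦X⟧) * w ^ 4 + ((13608 : ℤ) : ℤ⟦X⟧) * w ^ 5 + ((20412 : ℤ) : ℤ⟦X⟧) * w ^ 6 + ((17496 : ℤ) : ℤ⟦X⟧) * w ^ 7 + ((6561 : ℤ) : ℤ⟦X⟧) * w ^ 8 := by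
    push_cast; ring
  rw [e]
  simp only [map_add, U_const, u0, u1, u2, u3, u4, u5, u6, u7, u8]
  push_cast; ring

lemma d8 : ∃ g ∈ M, U (U ((1 + 3 * w) ^ 8) * (1 + 3 * w) ^ 8) - 1 = 3 ^ 4 * g := by
  refine ⟨((444488 : ℤ) : ℤ⟦X⟧) * (3 ^ 0 * w ^ (0 + 1)) + ((2417892996 : ℤ) : ℤ⟦X⟧) * (3 ^ 1 * w ^ (1 + 1)) + ((1196323247232 : ℤ) : ℤ⟦X⟧) * (3 ^ 2 * w ^ (2 + 1)) + ((152510870911932 : ℤ) : ℤ⟦X⟧) * (3 ^ 3 * w ^ (3 + 1)) + ((7735611275359632 : ℤ) : ℤ⟦X⟧) * (3 ^ 4 * w ^ (4 + 1)) + ((196064370642144204 : ℤ) : ℤ⟦X⟧) * (3 ^ 5 * w ^ (5 + 1)) + ((2839634585963768448 : ℤ) : ℤ⟦X⟧) * (3 ^ 6 * w ^ (6 + 1)) + ((25555797050514807708 : ℤ) : ℤ⟦X⟧) * (3 ^ 7 * w ^ (7 + 1)) + ((150726782884952152728 : ℤ) : ℤ⟦X⟧) * (3 ^ 8 * w ^ (8 + 1)) + ((601674721308281708028 : ℤ) : ℤ⟦X⟧) * (3 ^ 9 * w ^ (9 + 1)) + ((1651257410631641283528 : ℤ) : ℤ⟦X⟧) * (3 ^ 10 * w ^ (10 + 1)) + ((3115889226857770200504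 : ℤ) : ℤ⟦X⟧) * (3 ^ 11 * w ^ (11 + 1)) + ((3969174185907813693576 : ℤ) : ℤ⟦X⟧) * (3 ^ 12 * w ^ (12 + 1)) + ((3258854721568444915152 : ℤ) : ℤ⟦X⟧) * (3 ^ 13 * w ^ (13 + 1)) + ((1556181178759286886528 : ℤ) : ℤ⟦X⟧) * (3 ^ 14 * w ^ (14 + 1)) + ((328256967394537077627 : ℤ) : ℤ⟦X⟧) * (3 ^ 15 * w ^ (15 + 1)), M.add_mem (M.add_mem (M.add_mem (M.add_mem (M.add_mem (M.add_mem (M.add_mem (M.add_mem (M.add_mem (M.add_mem (M.add_mem (M.add_mem (M.add_mem (M.add_mem (M.add_mem (M_int (M_gen _) _) (M_int (M_gen _) _)) (M_int (M_gen _) _)) (M_int (M_gen _) _)) (M_int (M_gen _) _)) (M_int (M_gen _) _)) (M_int (M_gen _) _)) (M_int (M_gen _) _)) (M_int (M_gen _) _)) (M_int (M_gen _) _)) (M_int (M_gen _) _)) (M_int (M_gen _) _)) (M_int (M_gen _) _)) (M_int (M_gen _) _)) (M_int (M_gen _) _)) (M_int (M_gen _) _), ?_⟩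
  have e : U ((1 + 3 * w) ^ 8) * (1 + 3 * w) ^ 8 = ((1 : ℤ) : ℤ⟦X⟧) * w ^ 0 + ((2616 : ℤ) : ℤ⟦X⟧) * w ^ 1 + ((511524 : ℤ) : ℤ⟦X⟧) * w ^ 2 + ((33949584 : ℤ) : ℤ⟦X⟧) * w ^ 3 + ((1141116660 : ℤ) : ℤ⟦X⟧) * w ^ 4 + ((23178609432 : ℤ) : ℤ⟦X⟧) * w ^ 5 + ((312834615264 : ℤ) : ℤ⟦X⟧) * w ^ 6 + ((2966770580976 : ℤ) : ℤ⟦X⟧) * w ^ 7 + ((20448363954672 : ℤ) : ℤ⟦X⟧) * w ^ 8 + ((104421196748664 : ℤ) : ℤ⟦X⟧) * w ^ 9 + ((398282401148364 : ℤ) : ℤ⟦X⟧) * w ^ 10 + ((1132329876580512 : ℤ) : ℤ⟦X⟧) * w ^ 11 + ((2367777656755872 : ℤ) : ℤ⟦X⟧) * w ^ 12 + ((3538528281510840 : ℤ) : ℤ⟦X⟧) * w ^ 13 + ((3578947086287232 : ℤ) : ℤ⟦X⟧) * w ^ 14 + ((2196172075676256 : ℤ) : ℤ⟦X⟧) * w ^ 15 + ((617673396283947 : ℤ) : ℤ⟦X⟧) * w ^ 16 := by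
    rw [h1]; push_cast; ring
  rw [e]
  simp only [map_add, U_const, u0, u1, u2, u3, u4, u5, u6, u7, u8, u9, u10, u11, u12, u13, u14, u15, u16]
  push_cast; ring

theorem div8 (F : ℤ⟦X⟧) (hF : F * Phi ^ 8 = 1) (j q : ℕ) :
    (3 : ℤ) ^ (4 + j) ∣ coeff (9 * (3 ^ j * q)) F - coeff (3 ^ j * q) F := by
  obtain ⟨g, hg, h⟩ := d8
  obtain ⟨g', -, h'⟩ := M_iter F 8 hF 4 hg j
  have C3 : (C (3 : ℤ) : ℤ⟦X⟧) = 3 := map_ofNat _ 3
  rw [diff F _ hF, h, ← coeff_iter, mul_assoc, h', ← C3, ← map_pow, coeff_C_mul]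
  exact dvd_mul_right _ _

end Pool.Agent.Lib.H8.Ter3
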