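import Mathlib
import Pool.Agent.Lib.H8.PetParity
import Pool.Agent.Lib.H8.Cyc

/-! The Petersen graph with one vertex replaced by a triangle. -/

set_option autoImplicit false

namespace Pool.Agent.Lib.H8.TruncPet

open Pool.Agent.Lib.H8

def nbL : List ℕ := [3104, 1092, 138, 276, 2568, 385, 770, 548, 104, 208, 2051, 1041]
def srcL : List (Fin 12) := [10, 1, 2, 3, 4, 0, 1, 2, 3, 4, 5, 6, 7, 8, 9, 0, 0, 10]
def dstL : List (Fin 12) := [1, 2, 3, 4, 11, 5, 6, 7, 8, 9, 7, 8, 9, 5, 6, 10, 11, 11]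
def incT : List (List (Fin 18)) := [[5, 15, 16], [0, 1, 6], [1, 2, 7], [2, 3, 8], [3, 4, 9],
  [5, 10, 13], [6, 11, 14], [7, 10, 12], [8, 11, 13], [9, 12, 14], [0, 15, 17], [4, 16, 17]]
def cycT : List (Fin 12 × List (Fin 12)) := [(0, [5, 7, 2, 1, 10]), (2, [3, 8, 6, 9, 7]),
  (0, [5, 8, 3, 4, 11]), (1, [6, 9, 4, 11, 10])]
def tourL : List (Fin 12) :=
  [5, 8, 3, 8, 6, 1, 6, 9, 4, 9, 7, 2, 3, 4, 11, 10, 11, 0, 10, 1, 2, 7, 5]
def nb (v : Fin 12) : ℕ := nbL.getD v.val 0
def src (e : Fin 18) : Fin 12 := srcL.getD e.val 0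
def dst (e : Fin 18) : Fin 12 := dstL.getD e.val 0
def inc (v : Fin 12) : List (Fin 18) := incT.getD v.val []
def ends (e : Fin 18) : Sym2 (Fin 12) := s(src e, dst e)

def G : SimpleGraph (Fin 12) where
  Adj x y := (nb x).testBit y.val = true
  symm := ⟨by decide +kernel⟩
  loopless := ⟨by decide +kernel⟩

instance : DecidableRel G.Adj :=
  fun x y => inferInstanceAs (Decidable ((nb x).testBit y.val = true))

theorem adj_inc : ∀ x y : Fin 12, (nb x).testBit y.val = true →
    ∃ e, (src e = x ∧ dst e = y) ∨ (src e = y ∧ dst e = x) := by decide +kernel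
theorem adj_ends : ∀ e : Fin 18, (nb (src e)).testBit (dst e).val = true := by decide +kernel
theorem inc_iff : ∀ (v : Fin 12) (e : Fin 18), (v = src e ∨ v = dst e) ↔ e ∈ inc v := by
  decide +kernel
theorem inc_nodup : ∀ v : Fin 12, (inc v).Nodup := by decide +kernel
theorem inj' : ∀ e e' : Fin 18,
    (src e = src e' ∧ dst e = dst e') ∨ (src e = dst e' ∧ dst e = src e') → e = e' := by
  decide +kernel

theorem ends_inj : Function.Injective ends := by
  intro e e' h
  unfold ends at h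
  rw [Sym2.eq_iff] at h
  exact inj' e e' h

theorem ends_sur (e : Sym2 (Fin 12)) (he : e ∈ G.edgeSet) : ∃ i, ends i = e := by
  induction e using Sym2.ind with
  | _ x y =>
    obtain ⟨i, hi⟩ := adj_inc x y he
    exact ⟨i, by unfold ends; rw [Sym2.eq_iff]; exact hi⟩

def sweeps : List (ℕ × ℕ) :=
  ((List.finRange 12 ++ List.finRange 12 ++ List.finRange 12 ++ List.finRange 12 ++
    List.finRange 12 ++ List.finRange 12).map fun v => (v.val, nb v))

theorem sweep_ok : ∀ p ∈ sweeps, ∀ x : Fin 12, x.val = p.1 → p.2 = nb x := by decide +kernel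

theorem chk : ∀ u, u < 12 + 1 → Cyc.check3 12 sweeps u = true := by decide +kernel

theorem conn3 (S : Finset (Fin 12)) (hS : S.card < 3) :
    (G.induce ((↑S : Set (Fin 12))ᶜ)).Connected :=
  Cyc.three_conn (by norm_num) G sweeps (fun p hp x y hx hy => by
    rw [sweep_ok p hp x hx] at hy
    exact hy) chk S hS

theorem even_closed {V : Type} [DecidableEq V] {H : SimpleGraph V} {u v : V} (p : H.Walk u v)
    (x : V) : Even (p.edges.countP fun e => x ∈ e) ↔ u ≠ v → x ≠ u ∧ x ≠ v := by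
  induction p with
  | nil => simp
  | cons huv p ih =>
    simp only [List.countP_cons, Ne, SimpleGraph.Walk.edges_cons, Sym2.mem_iff]
    split_ifs with h
    · rw [decide_eq_true_eq] at h
      obtain (rfl | rfl) := h
      · rw [Nat.even_add_one, ih]
        simp only [huv.ne, imp_false, Ne, not_false_iff, true_and, not_forall,
          Classical.not_not, exists_prop, not_true, false_and,
          and_iff_right_iff_imp]
        rintro rfl rfl
        exact H.loopless.irrefl _ huv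
      · have := huv.ne; grind
    · grind

theorem countP_count (L : List (Sym2 (Fin 12))) (hL : ∀ e ∈ L, e ∈ G.edgeSet)
    (Q : Sym2 (Fin 12) → Bool) :
    L.countP Q = ∑ i : Fin 18, if Q (ends i) = true then L.count (ends i) else 0 := by
  induction L with
  | nil => simp
  | cons a L ih =>
    obtain ⟨k, rfl⟩ := ends_sur a (hL a List.mem_cons_self)
    rw [List.countP_cons, ih fun e he => hL e (List.mem_cons_of_mem _ he)]
    have : (if Q (ends k) = true then 1 else 0) =
        ∑ i : Fin 18, if i = k then (if Q (ends i) = true then 1 else 0) else 0 := by simp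
    rw [this, ← Finset.sum_add_distrib]
    refine Finset.sum_congr rfl fun i _ => ?_
    rw [List.count_cons]
    by_cases h1 : i = k
    · subst h1
      split_ifs <;> simp_all
    · have h2 : ends k ≠ ends i := fun h => h1 (ends_inj h).symm
      split_ifs <;> simp_all

theorem four (a b d : ℕ) (ha : 1 ≤ a) (hb : 1 ≤ b) (hd : 1 ≤ d) (h : (a + (b + (d + 0))) % 2 = 0) :
    4 ≤ a + b + d := by omega

theorem arith (c : Fin 18 → ℕ) (h1 : ∀ i, 1 ≤ c i) (h2 : ∀ v, ((inc v).map c).sum % 2 = 0) :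
    24 ≤ ∑ i, c i := by
  have k0 := four (c 5) (c 15) (c 16) (h1 _) (h1 _) (h1 _) (h2 0)
  have k1 := four (c 0) (c 1) (c 6) (h1 _) (h1 _) (h1 _) (h2 1)
  have k2 := four (c 1) (c 2) (c 7) (h1 _) (h1 _) (h1 _) (h2 2)
  have k3 := four (c 2) (c 3) (c 8) (h1 _) (h1 _) (h1 _) (h2 3)
  have k4 := four (c 3) (c 4) (c 9) (h1 _) (h1 _) (h1 _) (h2 4)
  have k5 := four (c 5) (c 10) (c 13) (h1 _) (h1 _) (h1 _) (h2 5)
  have k6 := four (c 6) (c 11) (c 14) (h1 _) (h1 _) (h1 _) (h2 6)
  have k7 := four (c 7) (c 10) (c 12) (h1 _) (h1 _) (h1 _) (h2 7)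
  have k8 := four (c 8) (c 11) (c 13) (h1 _) (h1 _) (h1 _) (h2 8)
  have k9 := four (c 9) (c 12) (c 14) (h1 _) (h1 _) (h1 _) (h2 9)
  have k10 := four (c 0) (c 15) (c 17) (h1 _) (h1 _) (h1 _) (h2 10)
  have k11 := four (c 4) (c 16) (c 17) (h1 _) (h1 _) (h1 _) (h2 11)
  have hs : ∑ i, c i = c 0 + (c 1 + (c 2 + (c 3 + (c 4 + (c 5 + (c 6 + (c 7 + (c 8 + (c 9 + (c 10 + (c 11 + (c 12 + (c 13 + (c 14 + (c 15 + (c 16 + (c 17 + 0))))))))))))))))) := by
    rw [Fin.sum_univ_def]
    rfl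
  omega

theorem lower (L : List (Sym2 (Fin 12))) (hL : ∀ e ∈ L, e ∈ G.edgeSet)
    (hc : ∀ e ∈ G.edgeSet, e ∈ L) (hev : ∀ v : Fin 12, Even (L.countP fun e => v ∈ e)) :
    24 ≤ L.length := by
  have h1 : ∀ i, 1 ≤ L.count (ends i) := fun i => List.count_pos_iff.2 (hc _ (adj_ends i))
  have h2 : ∀ v, ((inc v).map fun i => L.count (ends i)).sum % 2 = 0 := fun v => by
    have h3 := hev v
    rw [countP_count L hL] at h3
    rw [← Cyc.sum_ite_eq_list (fun e => decide (v ∈ ends e) = true) (inc v) (inc_nodup v)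
      (fun e => by rw [decide_eq_true_eq, ← inc_iff]; exact Sym2.mem_iff)]
    exact Nat.even_iff.1 h3
  have h3 := countP_count L hL (fun _ => true)
  simp only [List.countP_true, if_true] at h3
  rw [h3]
  exact arith (fun i => L.count (ends i)) h1 h2

theorem tour_lower (v : Fin 12) (p : G.Walk v v) (hc : ∀ e ∈ G.edgeSet, e ∈ p.edges) :
    24 ≤ p.length := by
  rw [← p.length_edges]
  exact lower _ (fun e he => p.edges_subset_edgeSet he) hc
    fun x => (even_closed p x).2 fun h => absurd rfl h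

theorem cover_lower (F : List (Σ u : Fin 12, G.Walk u u))
    (hc : ∀ e ∈ G.edgeSet, ∃ c ∈ F, e ∈ c.2.edges) : 24 ≤ (F.map fun c => c.2.length).sum := by
  have h := lower (F.flatMap fun c => c.2.edges) (fun e he => by
      obtain ⟨c, -, hc⟩ := List.mem_flatMap.1 he
      exact c.2.edges_subset_edgeSet hc)
    (fun e he => List.mem_flatMap.2 (hc e he)) (fun x => by
      rw [List.countP_flatMap]
      clear hc
      induction F with
      | nil => simp
      | cons c F ih =>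
        rw [List.map_cons, List.sum_cons]
        exact ((even_closed c.2 x).2 fun h => absurd rfl h).add ih)
  simpa [List.length_flatMap] using h

theorem tour_chain : List.IsChain G.Adj (0 :: (tourL ++ [0])) := by decide +kernel

theorem tour_cov : ∀ e : Fin 18, (src e, dst e) ∈ List.zip (0 :: (tourL ++ [0])) (tourL ++ [0]) ∨
    (dst e, src e) ∈ List.zip (0 :: (tourL ++ [0])) (tourL ++ [0]) := by decide +kernel

theorem tour_upper : ∃ (v : Fin 12) (p : G.Walk v v),
    (∀ e ∈ G.edgeSet, e ∈ p.edges) ∧ p.length = 24 := by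
  let q := SimpleGraph.Walk.ofSupport (0 :: (tourL ++ [0])) (List.cons_ne_nil _ _) tour_chain
  have hq : q.support = 0 :: (tourL ++ [0]) := SimpleGraph.Walk.support_ofSupport _ _
  let p : G.Walk 0 0 := q.copy rfl (by simp)
  have hp : p.support = 0 :: (tourL ++ [0]) := (SimpleGraph.Walk.support_copy _ _ _).trans hq
  refine ⟨0, p, fun e he => ?_, ?_⟩
  · obtain ⟨i, rfl⟩ := ends_sur e he
    rw [SimpleGraph.Walk.edges_eq_zipWith_support, hp, ← List.map_uncurry_zip_eq_zipWith]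
    rcases tour_cov i with hi | hi
    · exact List.mem_map.2 ⟨_, hi, rfl⟩
    · exact List.mem_map.2 ⟨_, hi, Sym2.eq_swap⟩
  · have := p.length_support
    rw [hp] at this
    have h2 : (0 :: (tourL ++ [0])).length = 25 := rfl
    omega

theorem cyc_ok : ∀ c ∈ cycT, List.IsChain G.Adj (c.1 :: (c.2 ++ [c.1])) ∧ (c.2 ++ [c.1]).Nodup ∧
    2 ≤ c.2.length := by decide +kernel

def pairs (c : Fin 12 × List (Fin 12)) : List (Fin 12 × Fin 12) :=
  List.zip (c.1 :: (c.2 ++ [c.1])) (c.2 ++ [c.1])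

theorem cyc_cov : ∀ e : Fin 18, ∃ c ∈ cycT, (src e, dst e) ∈ pairs c ∨ (dst e, src e) ∈ pairs c := by
  decide +kernel

theorem cyc_len : (cycT.map (fun c => c.2.length + 1)).sum = 24 := by decide +kernel

theorem cover_upper : ∃ F' : List (Σ u : Fin 12, G.Walk u u),
    (∀ c ∈ F', c.2.IsCycle) ∧ (∀ e ∈ G.edgeSet, ∃ c ∈ F', e ∈ c.2.edges) ∧
    (F'.map (fun c => c.2.length)).sum = 24 := by
  have h : ∀ c : {c // c ∈ cycT}, ∃ p : G.Walk c.1.1 c.1.1, p.IsCycle ∧
      p.support = c.1.1 :: (c.1.2 ++ [c.1.1]) := fun c =>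
    Cyc.cyc_of_list G _ _ (cyc_ok c.1 c.2).1 (cyc_ok c.1 c.2).2.1 (cyc_ok c.1 c.2).2.2
  choose p hp1 hp2 using h
  refine ⟨cycT.attach.map (fun c => ⟨c.1.1, p c⟩), ?_, ?_, ?_⟩
  · intro c hc
    obtain ⟨c', -, rfl⟩ := List.mem_map.1 hc
    exact hp1 c'
  · intro e he
    obtain ⟨i, rfl⟩ := ends_sur e he
    obtain ⟨c, hc, hi⟩ := cyc_cov i
    refine ⟨⟨c.1, p ⟨c, hc⟩⟩, List.mem_map.2 ⟨⟨c, hc⟩, List.mem_attach _ _, rfl⟩, ?_⟩
    change ends i ∈ (p ⟨c, hc⟩).edges
    rw [SimpleGraph.Walk.edges_eq_zipWith_support, hp2, ← List.map_uncurry_zip_eq_zipWith]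
    rcases hi with hi | hi
    · exact List.mem_map.2 ⟨_, hi, rfl⟩
    · exact List.mem_map.2 ⟨_, hi, Sym2.eq_swap⟩
  · rw [List.map_map, ← cyc_len]
    have : ∀ c : {c // c ∈ cycT}, (p c).length = c.1.2.length + 1 := fun c => by
      have := (p c).length_support
      rw [hp2] at this
      simp at this
      omega
    have h2 : ((fun c : (Σ u : Fin 12, G.Walk u u) => c.2.length) ∘
        fun c : {c // c ∈ cycT} => ⟨c.1.1, p c⟩) = (fun c => c.2.length + 1) ∘ Subtype.val :=
      funext this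
    rw [h2, ← List.map_map, List.attach_map_subtype_val]

/-- weight 2 on the five spokes and on the triangle edge opposite to vertex 0, else 1 -/
def w (e : Sym2 (Fin 12)) : ℕ :=
  if e ∈ [s(0, 5), s(1, 6), s(2, 7), s(3, 8), s(4, 9), s(10, 11)] then 2 else 1

theorem w_mem (e : Sym2 (Fin 12)) : w e = 1 ∨ w e = 2 := by
  unfold w; split_ifs <;> simp

theorem even_inner {V : Type} [DecidableEq V] (W : V → V → ℕ) (hs : ∀ x y, W x y = W y x)
    (hd : ∀ x, W x x = 0) (S : Finset V) : Even (∑ x ∈ S, ∑ y ∈ S, W x y) := by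
  induction S using Finset.induction_on with
  | empty => simp
  | insert a S ha ih =>
    simp only [Finset.sum_insert ha, Finset.sum_add_distrib, hd]
    have h : ∑ x ∈ S, W x a = ∑ y ∈ S, W a y := Finset.sum_congr rfl fun x _ => hs x a
    rw [h]
    rw [Nat.even_iff] at ih ⊢
    omega

theorem w_vertex : ∀ x : Fin 12, (∑ y, if G.Adj x y then w s(x, y) else 0) = 4 := by
  decide +kernel

theorem w_euler (S : Finset (Fin 12)) :
    Even (∑ x ∈ S, ∑ y ∈ Sᶜ, if G.Adj x y then w s(x, y) else 0) := by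
  have h1 := even_inner (fun x y => if G.Adj x y then w s(x, y) else 0)
    (fun x y => by simp only [G.adj_comm x y, Sym2.eq_swap (a := x)]) (fun x => by simp) S
  have h2 : (∑ x ∈ S, ∑ y ∈ S, if G.Adj x y then w s(x, y) else 0) +
      (∑ x ∈ S, ∑ y ∈ Sᶜ, if G.Adj x y then w s(x, y) else 0) = S.card * 4 := by
    rw [← Finset.sum_add_distrib]
    simp only [Finset.sum_add_sum_compl, w_vertex, Finset.sum_const, smul_eq_mul]
  rw [Nat.even_iff] at h1 ⊢
  omega

theorem no_cover : ¬ ∃ F : List (Σ u : Fin 12, G.Walk u u), (∀ c ∈ F, c.2.IsCycle) ∧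
    ∀ e ∈ G.edgeSet, F.countP (fun c => decide (e ∈ c.2.edges)) = w e := by
  rintro ⟨F, hc, hw⟩
  let x : Fin 18 → Fin F.length → ℕ := fun e j => if ends e ∈ (F[j.val]).2.edges then 1 else 0
  have hcj : ∀ j : Fin F.length, (F[j.val]).2.IsCycle := fun j => hc _ (List.getElem_mem _)
  have hce : ∀ (j : Fin F.length) (Q : Sym2 (Fin 12) → Bool), (F[j.val]).2.edges.countP Q =
      ∑ i : Fin 18, if Q (ends i) = true then x i j else 0 := fun j Q =>
    Cyc.countP_edges ends ends_inj _ (hcj j).isTrail.edges_nodup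
      (fun e he => ends_sur e ((F[j.val]).2.edges_subset_edgeSet he)) Q
  have hcnt : ∀ e, ∑ j, x e j = w (ends e) := fun e => by
    rw [← hw _ (adj_ends e), Cyc.countP_eq_sum]
    simp only [x, decide_eq_true_eq]
  have hb : ∀ e j, x e j ≤ 1 := fun e j => by simp only [x]; split_ifs <;> omega
  have hev : ∀ j v, ((inc v).map fun e => x e j).sum % 2 = 0 := fun j v => by
    have h3 := ((hcj j).isTrail.even_countP_edges_iff v).2 (fun h => absurd rfl h)
    rw [hce] at h3
    rw [← Cyc.sum_ite_eq_list (fun e => decide (v ∈ ends e) = true) (inc v) (inc_nodup v)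
      (fun e => by rw [decide_eq_true_eq, ← inc_iff]; exact Sym2.mem_iff) (fun e => x e j)]
    exact Nat.even_iff.1 h3
  have v0 : ∀ j, (x 5 j + (x 15 j + (x 16 j + 0))) % 2 = 0 := fun j => hev j 0
  have v1 : ∀ j, (x 0 j + (x 1 j + (x 6 j + 0))) % 2 = 0 := fun j => hev j 1
  have v2 : ∀ j, (x 1 j + (x 2 j + (x 7 j + 0))) % 2 = 0 := fun j => hev j 2
  have v3 : ∀ j, (x 2 j + (x 3 j + (x 8 j + 0))) % 2 = 0 := fun j => hev j 3
  have v4 : ∀ j, (x 3 j + (x 4 j + (x 9 j + 0))) % 2 = 0 := fun j => hev j 4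
  have v5 : ∀ j, (x 5 j + (x 10 j + (x 13 j + 0))) % 2 = 0 := fun j => hev j 5
  have v6 : ∀ j, (x 6 j + (x 11 j + (x 14 j + 0))) % 2 = 0 := fun j => hev j 6
  have v7 : ∀ j, (x 7 j + (x 10 j + (x 12 j + 0))) % 2 = 0 := fun j => hev j 7
  have v8 : ∀ j, (x 8 j + (x 11 j + (x 13 j + 0))) % 2 = 0 := fun j => hev j 8
  have v9 : ∀ j, (x 9 j + (x 12 j + (x 14 j + 0))) % 2 = 0 := fun j => hev j 9
  have v10 : ∀ j, (x 0 j + (x 15 j + (x 17 j + 0))) % 2 = 0 := fun j => hev j 10
  have v11 : ∀ j, (x 4 j + (x 16 j + (x 17 j + 0))) % 2 = 0 := fun j => hev j 11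
  have c0 : ∑ j, x 0 j = 1 := (hcnt 0).trans (by decide +kernel)
  have c1 : ∑ j, x 1 j = 1 := (hcnt 1).trans (by decide +kernel)
  have c2 : ∑ j, x 2 j = 1 := (hcnt 2).trans (by decide +kernel)
  have c3 : ∑ j, x 3 j = 1 := (hcnt 3).trans (by decide +kernel)
  have c4 : ∑ j, x 4 j = 1 := (hcnt 4).trans (by decide +kernel)
  have c5 : ∑ j, x 5 j = 2 := (hcnt 5).trans (by decide +kernel)
  have c6 : ∑ j, x 6 j = 2 := (hcnt 6).trans (by decide +kernel)
  have c7 : ∑ j, x 7 j = 2 := (hcnt 7).trans (by decide +kernel)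
  have c8 : ∑ j, x 8 j = 2 := (hcnt 8).trans (by decide +kernel)
  have c9 : ∑ j, x 9 j = 2 := (hcnt 9).trans (by decide +kernel)
  have c10 : ∑ j, x 10 j = 1 := (hcnt 10).trans (by decide +kernel)
  have c11 : ∑ j, x 11 j = 1 := (hcnt 11).trans (by decide +kernel)
  have c12 : ∑ j, x 12 j = 1 := (hcnt 12).trans (by decide +kernel)
  have c13 : ∑ j, x 13 j = 1 := (hcnt 13).trans (by decide +kernel)
  have c14 : ∑ j, x 14 j = 1 := (hcnt 14).trans (by decide +kernel)
  have key := PetParity.par (x 0) (x 1) (x 2) (x 3) (x 4) (x 5) (x 6) (x 7) (x 8) (x 9) (x 10)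
    (x 11) (x 12) (x 13) (x 14) (hb 5) (hb 6) (hb 7) (hb 8) (hb 9)
    (fun j => by have := v0 j; have := v10 j; have := v11 j; omega)
    (fun j => by have := v1 j; omega)
    (fun j => by have := v2 j; omega)
    (fun j => by have := v3 j; omega)
    (fun j => by have := v4 j; omega)
    (fun j => by have := v5 j; omega)
    (fun j => by have := v6 j; omega)
    (fun j => by have := v7 j; omega)
    (fun j => by have := v8 j; omega)
    (fun j => by have := v9 j; omega)
  simp only [c0, c1, c2, c3, c4, c5, c6, c7, c8, c9, c10, c11, c12, c13, c14, forall_const] at key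
  omega

end Pool.Agent.Lib.H8.TruncPet
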