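import Pool.Agent.Lib.H8.Om1

/-!
Covering pairs of sequences that are alternately caught by small clopen sets.
-/

namespace Pool.Agent.Lib.H8.Two

open Arith CList Qm Rnd Kc Om Finset Classical

/-- A ramp from zero to one. -/
noncomputable def g (x : ℝ) : ℝ := max 0 (min 1 (4 * x - 1))

/-- A primitive of the ramp. -/
noncomputable def ph (x : ℝ) : ℝ := g x * (x - 1 / 4) - g x ^ 2 / 8

lemma g0 (x : ℝ) : 0 ≤ g x := le_max_left _ _

lemma g1 (x : ℝ) : g x ≤ 1 := max_le zero_le_one (min_le_left _ _)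

lemma g_opt (x : ℝ) {y : ℝ} (h : 0 ≤ y) (h' : y ≤ 1) : (y - g x) * (x - 1 / 4 - g x / 4) ≤ 0 := by
  rw [g]
  rcases le_total 1 (4 * x - 1) with a | a
  · rw [min_eq_left a, max_eq_right zero_le_one]
    nlinarith
  · rw [min_eq_right a]
    rcases le_total 0 (4 * x - 1) with b | b
    · rw [max_eq_right b]
      nlinarith
    · rw [max_eq_left b]
      nlinarith

lemma ph_le (x y : ℝ) : ph y ≤ ph x + g x * (y - x) + 2 * (y - x) ^ 2 := by
  have := g_opt x (g0 y) (g1 y)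
  rw [ph, ph]
  nlinarith [sq_nonneg (g y - g x - 4 * (y - x))]

lemma ph0 (x : ℝ) : 0 ≤ ph x := by
  have := g_opt x le_rfl zero_le_one
  rw [ph]
  nlinarith [sq_nonneg (g x)]

/-- Dependence on the first `n` bits only. -/
def Det (n : ℕ) (F : (ℕ → Bool) → ℝ) : Prop := ∀ x y, pr x n = pr y n → F x = F y

lemma pr_mono {x y : ℕ → Bool} {m n : ℕ} (l : m ≤ n) (h : pr x n = pr y n) : pr x m = pr y m := by
  rw [← pr_take x l, h, pr_take y l]

lemma Det.sum {m n : ℕ} {F : (ℕ → Bool) → ℝ} (h : Det m F) (l : m ≤ n) :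
    (∑ u ∈ range (2 ^ n), F u.testBit) / 2 ^ n = (∑ u ∈ range (2 ^ m), F u.testBit) / 2 ^ m := by
  induction n, l using Nat.le_induction with
  | base => rfl
  | succ n l ih =>
    rw [pow_succ, mul_two, sum_range_add, sum_congr rfl fun u _ => h (2 ^ n + u).testBit u.testBit
      (pr_eq.2 fun i hi => Nat.testBit_two_pow_add_gt (by omega) u), ← ih, pow_succ]
    field_simp
    ring

lemma combo (U : ℕ → (ℕ → Bool) → Prop) (hU : ∀ n x y, pr x n = pr y n → U n x → U n y) {N : ℕ}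
    {w : (ℕ → Bool) → ℝ} (hw : Det N w) (w0 : ∀ x, 0 ≤ w x) (w1 : ∀ x, w x ≤ 1) {t : ℝ}
    (t0 : 0 < t) (t1 : t ≤ 1) : ∃ M > N, ∃ f, Det M f ∧
      (∀ x y, (∀ n ≤ M, N < n → U n x ∨ U n y) → g (f x) = 1 ∨ g (f y) = 1) ∧
      ∀ n > M, ∑ u ∈ range (2 ^ n), w u.testBit * g (f u.testBit) *
        (1 - 4 * if U n u.testBit then 1 else 0) ≤ 16 * t * 2 ^ n := by
  let C : Set (ℕ × ((ℕ → Bool) → ℝ)) := {z | N < z.1 ∧ Det z.1 z.2 ∧
    (∀ x, 0 ≤ z.2 x ∧ z.2 x ≤ 1) ∧ ∀ x y, (∀ n ≤ z.1, N < n → U n x ∨ U n y) → 1 ≤ z.2 x + z.2 y}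
  let Φ : ℕ × ((ℕ → Bool) → ℝ) → ℝ := fun z =>
    (∑ u ∈ range (2 ^ z.1), w u.testBit * ph (z.2 u.testBit)) / 2 ^ z.1
  have i1 : ∀ n, Det n fun x => if U n x then (1 : ℝ) else 0 := fun n x y h =>
    if_congr ⟨hU n x y h, hU n y x h.symm⟩ rfl rfl
  have i2 : ∀ n x, (0 : ℝ) ≤ (if U n x then 1 else 0) ∧ (if U n x then (1 : ℝ) else 0) ≤ 1 :=
    fun n x => by split_ifs <;> simp
  have i3 : ∀ n x y, U n x ∨ U n y →
      (1 : ℝ) ≤ (if U n x then 1 else 0) + if U n y then 1 else 0 := fun n x y h => by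
    split_ifs <;> first | tauto | norm_num
  have bd : BddBelow (Φ '' C) := ⟨0, by
    rintro _ ⟨z, -, rfl⟩
    exact div_nonneg (sum_nonneg fun u _ => mul_nonneg (w0 _) (ph0 _)) (by positivity)⟩
  obtain ⟨_, ⟨⟨M, f⟩, ⟨c1, c2, c3, c4⟩, rfl⟩, hf⟩ := Real.lt_sInf_add_pos (s := Φ '' C)
    ⟨_, (N + 1, _), ⟨by simp, i1 (N + 1), i2 _, fun x y h => i3 _ _ _ (h _ le_rfl (by simp))⟩, rfl⟩
    (show 0 < 2 * t ^ 2 by positivity)
  dsimp only at c1 c2 c3 c4
  refine ⟨M, c1, f, c2, fun x y h => ?_, fun n hn => ?_⟩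
  · have k : ∀ z : ℝ, 1 / 2 ≤ z → g z = 1 := fun z h => by
      rw [g, min_eq_left (by linarith), max_eq_right zero_le_one]
    have := c4 x y h
    rcases le_total (f x) (f y) with l | l
    · exact Or.inr (k _ (by linarith))
    · exact Or.inl (k _ (by linarith))
  have h1 := (csInf_le bd ⟨(n, fun x => f x + t * ((if U n x then 1 else 0) - f x)),
    ⟨c1.trans hn, fun x y h => by
      dsimp only
      rw [c2 x y (pr_mono hn.le h), show (if U n x then (1 : ℝ) else 0) = _ from i1 n x y h],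
      fun x => by
        have := c3 x
        have := i2 n x
        constructor <;> nlinarith, fun x y h => by
        have := c4 x y fun m l => h m (l.trans hn.le)
        have := i3 n x y (h n le_rfl (c1.trans hn))
        dsimp only
        nlinarith⟩, rfl⟩)
  have h2 : Det M fun x => w x * ph (f x) := fun x y h => by
    dsimp only
    rw [c2 x y h, hw x y (pr_mono c1.le h)]
  have h3 := sum_le_sum (s := range (2 ^ n)) fun u _ => show w u.testBit *
      ph (f u.testBit + t * ((if U n u.testBit then 1 else 0) - f u.testBit)) ≤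
      w u.testBit * ph (f u.testBit) - t / 4 * (w u.testBit * g (f u.testBit) *
        (1 - 4 * if U n u.testBit then 1 else 0)) + 2 * t ^ 2 by
    generalize u.testBit = x
    have a := ph_le (f x) (f x + t * ((if U n x then 1 else 0) - f x))
    have b := g_opt (f x) le_rfl zero_le_one
    have c := c3 x
    have d := i2 n x
    generalize (if U n x then (1 : ℝ) else 0) = i at *
    have e : (i - f x) ^ 2 ≤ 1 := by nlinarith
    have e1 : g (f x) * (t * (i - f x)) ≤ -(t / 4 * (g (f x) * (1 - 4 * i))) := by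
      nlinarith [sq_nonneg (g (f x))]
    have e2 : 2 * (t * (i - f x)) ^ 2 ≤ 2 * t ^ 2 := by nlinarith [sq_nonneg t]
    rw [add_sub_cancel_left] at a
    have e3 := mul_le_mul_of_nonneg_left (a.trans (add_le_add (add_le_add le_rfl e1) e2)) (w0 x)
    nlinarith [w1 x, sq_nonneg t]
  rw [sum_add_distrib, sum_sub_distrib, ← mul_sum, sum_const, card_range, nsmul_eq_mul] at h3
  simp only [Φ] at hf h1
  rw [← h2.sum hn.le] at hf
  have p : (0 : ℝ) < 2 ^ n := by positivity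
  rw [div_lt_iff₀ p] at hf
  rw [le_div_iff₀ p] at h1
  push_cast at h3
  refine le_of_mul_le_mul_left ?_ t0
  nlinarith

lemma table (M : ℕ) (h : List Bool → ℕ) :
    ∃ l : List ℕ, ∀ x, l.getD (Encodable.encode (pr x M)) 0 = h (pr x M) := by
  refine ⟨(List.range ((range (2 ^ M)).sup (fun u => Encodable.encode (pr u.testBit M)) + 1)).map
    fun c => h ((Encodable.decode c).getD []), fun x => ?_⟩
  obtain ⟨u, u1, u2⟩ := pr_sur x M
  have := le_sup (f := fun u => Encodable.encode (pr u.testBit M)) (mem_range.2 u1)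
  rw [← u2] at this
  rw [List.getD_eq_getElem _ _ (by simpa using Nat.lt_succ_of_le this)]
  simp

/-- Decoding of a state. -/
def dc (c : ℕ) : ℕ × List ℕ := (Encodable.decode c).getD (0, [])

/-- The numerator of the weight of a string. -/
def av (Q c : ℕ) (σ : List Bool) : ℕ :=
  min Q ((dc c).2.getD (Encodable.encode (σ.take (dc c).1)) 0)

lemma av_pr (Q c : ℕ) (x : ℕ → Bool) {n : ℕ} (l : (dc c).1 ≤ n) :
    av Q c (pr x n) = av Q c (pr x (dc c).1) := by
  rw [av, av, pr_take x l, pr_take x le_rfl]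

variable (A : ℕ × List Bool → Prop)

/-- The potential stays bounded at all later lengths. -/
def Pot (d j c : ℕ) : Prop := ∀ n, (dc c).1 < n →
  ∑ u ∈ range (2 ^ n), av (2 ^ (d + j)) c (pr u.testBit n) + ∑ u ∈ range (2 ^ n),
    (if A (d, pr u.testBit n) then 4 * (2 ^ (d + j) - av (2 ^ (d + j)) c (pr u.testBit n)) else 0)
      + 4 * 2 ^ n ≤ 8 * 2 ^ j * 2 ^ n

/-- Admissible next states. -/
def Good (d j c c' : ℕ) : Prop := (dc c).1 < (dc c').1 ∧
  (∀ u < 2 ^ (dc c').1, av (2 ^ (d + j)) c (pr u.testBit (dc c').1) = 2 ^ (d + j) →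
    av (2 ^ (d + (j + 1))) c' (pr u.testBit (dc c').1) = 2 ^ (d + (j + 1))) ∧
  (∀ u v : ℕ, (∀ n < (dc c').1 + 1, (dc c).1 < n → A (d, pr u.testBit n) ∨ A (d, pr v.testBit n)) →
    av (2 ^ (d + (j + 1))) c' (pr u.testBit (dc c').1) = 2 ^ (d + (j + 1)) ∨
    av (2 ^ (d + (j + 1))) c' (pr v.testBit (dc c').1) = 2 ^ (d + (j + 1))) ∧ Pot A d (j + 1) c'

lemma step {d j c : ℕ} (h : Pot A d j c) : ∃ c', Good A d j c c' := by
  obtain ⟨Q, hQ⟩ : ∃ Q, 2 ^ (d + j) = Q := ⟨_, rfl⟩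
  have Q1 : 1 ≤ Q := hQ ▸ Nat.one_le_two_pow
  have Q0 : (1 : ℝ) ≤ Q := by exact_mod_cast Q1
  have Q2 : 2 ^ (d + (j + 1)) = 2 * Q := by rw [← hQ, ← add_assoc, pow_succ']
  let w : (ℕ → Bool) → ℝ := fun x => 1 - av Q c (pr x (dc c).1) / Q
  have w0 : ∀ x, 0 ≤ w x := fun x => sub_nonneg.2 (div_le_one_of_le₀
    (by exact_mod_cast min_le_left _ _) (by positivity))
  have w1 : ∀ x, w x ≤ 1 := fun x => sub_le_self _ (by positivity)
  have hw : Det (dc c).1 w := fun x y e => by simp only [w, e]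
  obtain ⟨M, m1, f, m2, m3, m4⟩ := combo (fun n x => A (d, pr x n)) (fun n x y e k => e ▸ k)
    hw w0 w1 (t := 1 / (16 * Q)) (by positivity) (div_le_one_of_le₀ (by linarith) (by positivity))
  let v : (ℕ → Bool) → ℝ := fun x => 2 * Q * (1 - w x * (1 - g (f x)))
  have v0 : ∀ x, 0 ≤ v x ∧ v x ≤ (2 * Q : ℕ) := fun x => by
    have := mul_nonneg (w0 x) (sub_nonneg.2 (g1 (f x)))
    have := mul_le_one₀ (w1 x) (sub_nonneg.2 (g1 (f x))) (sub_le_self _ (g0 _))
    simp only [v]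
    push_cast
    constructor <;> nlinarith
  obtain ⟨l, hl⟩ := table M fun σ => ⌈v fun i => σ.getD i false⌉₊
  have e : dc (Encodable.encode (M, l)) = (M, l) := by simp [dc]
  have k : ∀ x, ∀ n ≥ M, av (2 * Q) (Encodable.encode (M, l)) (pr x n) = ⌈v x⌉₊ := fun x n z => by
    have y : pr (fun i => (pr x M).getD i false) M = pr x M := by
      simpa using pr_getD (pr x M)
    rw [av, e, pr_take x z, hl]
    simp only [v, m2 _ _ y, hw _ _ (pr_mono m1.le y)]
    exact min_eq_right (Nat.ceil_le.2 (v0 x).2)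
  have k1 : ∀ x, w x = 0 ∨ g (f x) = 1 → ⌈v x⌉₊ = 2 * Q := fun x z => by
    rw [← Nat.ceil_natCast (R := ℝ) (2 * Q)]
    rcases z with z | z <;> simp [v, z]
  refine ⟨Encodable.encode (M, l), ?_⟩
  simp only [Good, Pot, e, Q2, hQ]
  refine ⟨m1, fun u _ z => ?_, fun u u' z => ?_, fun n hn => ?_⟩
  · rw [k _ _ le_rfl, k1 _ (Or.inl ?_)]
    rw [av_pr _ _ _ m1.le] at z
    simp only [w, z]
    field_simp
    ring
  · rw [k _ _ le_rfl, k _ _ le_rfl]
    exact (m3 _ _ fun n a => z n (by omega)).imp (fun y => k1 _ (Or.inr y)) fun y => k1 _ (Or.inr y)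
  have h1 := (Nat.cast_le (α := ℝ)).2 (h n (m1.trans hn))
  have h2 := m4 n hn
  refine (Nat.cast_le (α := ℝ)).1 ?_
  rw [hQ, ← sum_add_distrib] at h1
  rw [← sum_add_distrib]
  have h3 := sum_le_sum (s := range (2 ^ n)) fun u _ => show ((av (2 * Q)
      (Encodable.encode (M, l)) (pr u.testBit n) + if A (d, pr u.testBit n) then
        4 * (2 * Q - av (2 * Q) (Encodable.encode (M, l)) (pr u.testBit n)) else 0 : ℕ) : ℝ) ≤
      2 * ((av Q c (pr u.testBit n) + if A (d, pr u.testBit n) then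
        4 * (Q - av Q c (pr u.testBit n)) else 0 : ℕ) : ℝ) + 2 * Q * (w u.testBit * g (f u.testBit) *
        (1 - 4 * if A (d, pr u.testBit n) then 1 else 0)) + 1 by
    generalize u.testBit = x
    have a : (av Q c (pr x n) : ℝ) = Q * (1 - w x) := by
      simp only [w, av_pr _ _ _ (m1.trans hn).le]
      field_simp
      ring
    have b := (Nat.ceil_lt_add_one (v0 x).1).le
    have b' := Nat.le_ceil (v x)
    rw [k _ _ hn.le]
    split_ifs
    · rw [Nat.cast_add, Nat.cast_add, Nat.cast_mul, Nat.cast_mul,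
        Nat.cast_sub (Nat.ceil_le.2 (v0 x).2),
        Nat.cast_sub (show av Q c (pr x n) ≤ Q from min_le_left _ _), a]
      simp only [v] at b b' ⊢
      push_cast
      nlinarith
    · simp only [add_zero, a]
      simp only [v] at b ⊢
      nlinarith
  rw [sum_add_distrib, sum_add_distrib, ← mul_sum, ← mul_sum, sum_const, card_range,
    nsmul_eq_mul] at h3
  have h4 := mul_le_mul_of_nonneg_left h2 (show (0 : ℝ) ≤ 2 * Q by positivity)
  rw [show (2 * Q : ℝ) * (16 * (1 / (16 * Q)) * 2 ^ n) = 2 * 2 ^ n by field_simp] at h4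
  rw [Nat.cast_add, Nat.cast_sum] at h1 ⊢
  push_cast at h1 h3 ⊢
  rw [pow_succ]
  have : (0 : ℝ) < 2 ^ n := by positivity
  linarith

end Pool.Agent.Lib.H8.Two
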