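import Pool.Agent.Lib.H8.Two1

/-!
The covering sets are definable at the second level and have small weight.
-/

namespace Pool.Agent.Lib.H8.Two

open MeasureTheory ENNReal Arith CList Qm Rnd Kc Om Finset Classical

section
variable {α : Type} [Primcodable α]

lemma wsum_sig {A : α × ℕ → Prop} (h : Sig 1 _ A) {N m k : α → ℕ} {w : α × ℕ → ℕ}
    (hN : Computable N) (hm : Computable m) (hk : Computable k) (hw : Computable w) :
    Sig 1 α fun a => m a < k a + ∑ i ∈ range (N a), if A (a, i) then w (a, i) else 0 := by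
  obtain ⟨B, b, e⟩ := sig_nf h
  have f := @Computable.fst
  have s := @Computable.snd
  have c : ComputablePred fun q : (α × ℕ) × ℕ => ∃ u < q.1.2, B ((q.1.1, q.2), u) :=
    cbex (s.comp f) (cp b ((((f.comp f).comp f).pair (s.comp f)).pair s))
  have c2 : Computable fun q : (α × ℕ) × ℕ =>
      if ∃ u < q.1.2, B ((q.1.1, q.2), u) then w (q.1.1, q.2) else 0 :=
    cite c (hw.comp ((f.comp f).pair s)) (Computable.const 0)
  refine (Sig.ex (CeAlg.cs (clt (hm.comp f) (ad (hk.comp f) (csum.to_comp.comp (cmap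
    (Primrec.list_range.to_comp.comp (hN.comp f)) c2.to₂)))))).of_eq fun a => ?_
  change (∃ t, m a < k a + ∑ i ∈ range (N a), if ∃ u < t, B ((a, i), u) then w (a, i) else 0) ↔ _
  refine ⟨fun ⟨t, ht⟩ => ht.trans_le (Nat.add_le_add_left (sum_le_sum fun i _ => ?_) _),
    fun z => ?_⟩
  · split_ifs with u v
    exacts [le_rfl, (v ((e _).2 (u.imp fun _ k => k.2))).elim, zero_le, le_rfl]
  · have : ∀ i, ∃ u, A (a, i) → B ((a, i), u) := fun i => by
      by_cases y : A (a, i)
      · exact ((e _).1 y).imp fun _ k _ => k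
      · exact ⟨0, fun k => (y k).elim⟩
    choose u hu using this
    refine ⟨(range (N a)).sup u + 1, z.trans_le (Nat.add_le_add_left (sum_le_sum fun i k => ?_) _)⟩
    split_ifs with y v
    exacts [le_rfl, (v ⟨_, Nat.lt_succ_of_le (le_sup k), hu i y⟩).elim, zero_le, le_rfl]

lemma dc_c : Computable dc := Computable.option_getD Computable.decode (Computable.const _)

lemma av_c {Q c : α → ℕ} {σ : α → List Bool} (hQ : Computable Q) (hc : Computable c)
    (hσ : Computable σ) : Computable fun a => av (Q a) (c a) (σ a) :=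
  Primrec.nat_min.to_comp.comp hQ ((Primrec.list_getD 0).to_comp.comp
    (Computable.snd.comp (dc_c.comp hc)) (Computable.encode.comp
      (Primrec.list_take.to_comp.comp (Computable.fst.comp (dc_c.comp hc)) hσ)))

variable {A : ℕ × List Bool → Prop} {d j c c' : α → ℕ}

lemma pot_sig (hA : Sig 1 _ A) (hd : Computable d) (hj : Computable j) (hc : Computable c) :
    Sig 1 α fun a => ¬ Pot A (d a) (j a) (c a) := by
  have f := @Computable.fst
  have s := @Computable.snd
  have ff : Computable fun z : (α × ℕ) × ℕ => z.1.1 := f.comp f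
  have σ : Computable fun z : (α × ℕ) × ℕ => pr z.2.testBit z.1.2 := bits_c s (s.comp f)
  have Q := (pow_c.comp (ad hd hj)).comp ff
  have v := av_c Q (hc.comp ff) σ
  have n : Computable fun z : α × ℕ => 2 ^ z.2 := pow_c.comp s
  have h := wsum_sig (hA.comp ((hd.comp ff).pair σ)) n (ml (ml (Computable.const 8)
    (pow_c.comp (hj.comp f))) n) (ad (csum.to_comp.comp (cmap (Primrec.list_range.to_comp.comp n)
      v.to₂)) (ml (Computable.const 4) n)) (ml (Computable.const 4) (sb Q v))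
  refine (Sig.ex ((CeAlg.cs (clt (f.comp (dc_c.comp (hc.comp f))) s)).and h)).of_eq fun a => ?_
  simp only [Pot, not_forall, not_le, exists_prop, add_right_comm _ _ (4 * _)]
  rfl

lemma good_sig (hA : Sig 1 _ A) (hd : Computable d) (hj : Computable j) (hc : Computable c)
    (hc' : Computable c') : Sig 1 α fun a => ¬ Good A (d a) (j a) (c a) (c' a) := by
  have f := @Computable.fst
  have s := @Computable.snd
  have N := f.comp (dc_c.comp hc)
  have N' := f.comp (dc_c.comp hc')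
  have Q := pow_c.comp (ad hd hj)
  have Q' := pow_c.comp (ad hd (Computable.succ.comp hj))
  have σ : Computable fun z : α × ℕ => pr z.2.testBit (dc (c' z.1)).1 := bits_c s (N'.comp f)
  have F : ComputablePred fun z : α × ℕ => av (2 ^ (d z.1 + (j z.1 + 1))) (c' z.1)
      (pr z.2.testBit (dc (c' z.1)).1) = 2 ^ (d z.1 + (j z.1 + 1)) :=
    ceq (av_c (Q'.comp f) (hc'.comp f) σ) (Q'.comp f)
  have h1 := (cball (p := fun a u => av (2 ^ (d a + j a)) (c a) (pr u.testBit (dc (c' a)).1) =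
    2 ^ (d a + j a) → av (2 ^ (d a + (j a + 1))) (c' a) (pr u.testBit (dc (c' a)).1) =
      2 ^ (d a + (j a + 1))) (pow_c.comp N')
    (cimp (ceq (av_c (Q.comp f) (hc.comp f) σ) (Q.comp f)) F)).not
  have fff : Computable fun z : ((α × ℕ) × ℕ) × ℕ => z.1.1.1 := f.comp (f.comp f)
  have h2 : Sig 1 (((α × ℕ) × ℕ) × ℕ) fun z => z.2 ≤ (dc (c z.1.1.1)).1 ∨
      A (d z.1.1.1, pr z.1.1.2.testBit z.2) ∨ A (d z.1.1.1, pr z.1.2.testBit z.2) :=
    (CeAlg.cs (cle s (N.comp fff))).or ((hA.comp ((hd.comp fff).pair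
      (bits_c (s.comp (f.comp f)) s))).or (hA.comp ((hd.comp fff).pair (bits_c (s.comp f) s))))
  have h3 := ((h2.ball (Computable.succ.comp (N'.comp (f.comp f)))).and
    (CeAlg.cs (cor (cp F f) (cp F ((f.comp f).pair s))).not)).ex.ex
  refine ((CeAlg.cs (clt N N').not).or ((CeAlg.cs h1).or (h3.or
    (pot_sig hA hd (Computable.succ.comp hj) hc')))).of_eq fun a => ?_
  simp only [Good, not_and_or (a := _ < _), not_and_or (b := _ ∧ Pot _ _ _ _),
    not_and_or (b := Pot _ _ _ _), not_forall (α := ℕ), ← not_lt (a := (dc (c a)).1),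
    ← imp_iff_not_or, Classical.not_imp]

end

variable (A : ℕ × List Bool → Prop)

/-- The sequence of states. -/
noncomputable def sq (d : ℕ) : ℕ → ℕ
  | 0 => Encodable.encode ((0, []) : ℕ × List ℕ)
  | j + 1 => sInf {c | Good A d j (sq d j) c}

/-- Full weight at stage `j`. -/
def Fu (d j : ℕ) (σ : List Bool) : Prop := av (2 ^ (d + j)) (sq A d j) σ = 2 ^ (d + j)

/-- The covering set of strings. -/
def T (d : ℕ) (σ : List Bool) : Prop :=
  ∃ j, σ.length = (dc (sq A d (j + 1))).1 ∧ Fu A d (j + 1) σ ∧ ¬ Fu A d j σ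

variable {A} (hA : ∀ d n, #{u ∈ range (2 ^ n) | A (d, pr u.testBit n)} * 2 ^ d ≤ 2 ^ n)

lemma av0 (d Q : ℕ) (σ : List Bool) : av Q (sq A d 0) σ = 0 := by simp [av, sq, dc]

include hA

lemma pot (d j : ℕ) : Pot A d j (sq A d j) := by
  induction j with
  | zero =>
    intro n _
    have := hA d n
    simp only [av0, sum_const, ← sum_filter, smul_eq_mul, add_zero, Nat.sub_zero]
    nlinarith
  | succ j ih => exact (Nat.sInf_mem (step A ih)).2.2.2

lemma good (d j : ℕ) : Good A d j (sq A d j) (sq A d (j + 1)) := Nat.sInf_mem (step A (pot hA d j))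

lemma sq_sig (h : Sig 1 _ A) : Sig 2 ((ℕ × ℕ) × ℕ) fun z => z.2 = sq A z.1.1 z.1.2 := by
  have f := @Computable.fst
  have s := @Computable.snd
  have g := (Primrec.list_getD (0 : ℕ)).to_comp
  have d : Computable fun z : (((ℕ × ℕ) × ℕ) × List ℕ) × ℕ => z.1.1.1.1 :=
    f.comp (f.comp (f.comp f))
  have c : Computable fun z : (((ℕ × ℕ) × ℕ) × List ℕ) × ℕ => z.1.2.getD z.2 0 :=
    g.comp (s.comp f) s
  have c' : Computable fun z : (((ℕ × ℕ) × ℕ) × List ℕ) × ℕ => z.1.2.getD (z.2 + 1) 0 :=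
    g.comp (s.comp f) (Computable.succ.comp s)
  have h1 := (good_sig h d s c c').neg_succ.and
    ((good_sig h (d.comp f) (s.comp f) (c.comp f) s).ball c').succ
  refine (Sig.exd ((h1.ball (s.comp (f.comp f))).and (CeAlg.cs (cand (ceq (g.comp s
    (Computable.const 0)) (Computable.const (sq A 0 0))) (ceq (s.comp f)
      (g.comp s (s.comp (f.comp f)))))))).of_eq fun ⟨⟨d, j⟩, c⟩ => ?_
  simp only [not_not]
  refine ⟨?_, fun e => ⟨(List.range (j + 1)).map (sq A d), ?_⟩⟩
  · rintro ⟨l, a, b, rfl⟩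
    induction j with
    | zero => exact b
    | succ j ih =>
      obtain ⟨u, v⟩ := a j (by simp)
      rw [ih fun i hi => a i (by omega)] at u v
      exact le_antisymm (not_lt.1 fun z => v _ z (good hA d j)) (Nat.sInf_le u)
  · have k : ∀ i ≤ j, ((List.range (j + 1)).map (sq A d)).getD i 0 = sq A d i := fun i hi => by
      rw [List.getD_eq_getElem _ _ (by simpa using Nat.lt_succ_of_le hi)]
      simp
    refine ⟨fun i hi => ?_, k 0 (Nat.zero_le _), e.trans (k j le_rfl).symm⟩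
    rw [k i hi.le, k _ hi]
    exact ⟨good hA d i, fun m => Nat.notMem_of_lt_sInf⟩

lemma T_sig (h : Sig 1 _ A) : Sig 2 (ℕ × List Bool) fun z => T A z.1 z.2 := by
  have f := @Computable.fst
  have s := @Computable.snd
  have d : Computable fun z : (((ℕ × List Bool) × ℕ) × ℕ) × ℕ => z.1.1.1.1 :=
    f.comp (f.comp (f.comp f))
  have σ : Computable fun z : (((ℕ × List Bool) × ℕ) × ℕ) × ℕ => z.1.1.1.2 :=
    s.comp (f.comp (f.comp f))
  have j : Computable fun z : (((ℕ × List Bool) × ℕ) × ℕ) × ℕ => z.1.1.2 := s.comp (f.comp f)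
  have Q := pow_c.comp (ad d j)
  have Q' := pow_c.comp (ad d (Computable.succ.comp j))
  refine ((((sq_sig hA h).comp ((d.pair j).pair (s.comp f))).and (((sq_sig hA h).comp
    ((d.pair (Computable.succ.comp j)).pair s)).and (CeAlg.cs (cand (ceq
      (Computable.list_length.comp σ) (f.comp (dc_c.comp s))) (cand (ceq (av_c Q' s σ) Q')
        (ceq (av_c Q (s.comp f) σ) Q).not))))).ex.ex.ex).of_eq fun z => ?_
  simp only [exists_and_left, exists_eq_left]
  rfl

lemma N_mono (d : ℕ) : StrictMono fun j => (dc (sq A d j)).1 :=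
  strictMono_nat_of_lt_succ fun j => (good hA d j).1

lemma F_mono (d : ℕ) (x : ℕ → Bool) : Monotone fun j => Fu A d j (pr x (dc (sq A d j)).1) :=
  monotone_nat_of_le_succ fun j h => by
    obtain ⟨u, u1, u2⟩ := pr_sur x (dc (sq A d (j + 1))).1
    rw [u2]
    exact (good hA d j).2.1 u u1 (by rwa [← u2, av_pr _ _ _ (good hA d j).1.le])

lemma capture {d m : ℕ} {x y : ℕ → Bool} (h : ∀ n ≥ m, A (d, pr x n) ∨ A (d, pr y n)) :
    (∃ n, T A d (pr x n)) ∨ ∃ n, T A d (pr y n) := by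
  have k : ∀ x J, Fu A d J (pr x (dc (sq A d J)).1) → ∃ n, T A d (pr x n) := fun x J => by
    induction J with
    | zero => exact fun z => absurd ((av0 _ _ _).symm.trans z) (Nat.two_pow_pos _).ne
    | succ J ih =>
      intro z
      by_cases y : Fu A d J (pr x (dc (sq A d J)).1)
      · exact ih y
      · exact ⟨_, J, pr_len _ _, z, by rwa [Fu, av_pr _ _ _ (good hA d J).1.le]⟩
  obtain ⟨u, -, u2⟩ := pr_sur x (dc (sq A d (m + 1))).1
  obtain ⟨v, -, v2⟩ := pr_sur y (dc (sq A d (m + 1))).1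
  have := (good hA d m).2.2.1 u v fun n a b => by
    rw [← pr_mono (by omega) u2, ← pr_mono (by omega) v2]
    exact h n (((N_mono hA d).id_le m).trans b.le)
  rw [← u2, ← v2] at this
  exact this.imp (k x _) (k y _)

lemma weight (k : ℕ) (S : Finset (List Bool)) (hS : ∀ σ ∈ S, T A (k + 3) σ) :
    ∑ σ ∈ S, (2⁻¹ : ℝ≥0∞) ^ σ.length ≤ 2⁻¹ ^ k := by
  choose! j j1 j2 j3 using hS
  have e : ∀ σ ∈ S, ∀ x ∈ cyl σ, pr x (dc (sq A (k + 3) (j σ + 1))).1 = σ := fun σ h x hx =>
    j1 σ h ▸ hx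
  have e' : ∀ σ ∈ S, ∀ x ∈ cyl σ, ∀ J, j σ < J →
      Fu A (k + 3) J (pr x (dc (sq A (k + 3) J)).1) := fun σ h x a J l =>
    F_mono hA _ x (show j σ + 1 ≤ J from l) (by dsimp only; rw [e σ h x a]; exact j2 σ h)
  have m : ∀ σ ∈ S, ∀ τ ∈ S, ∀ x ∈ cyl σ, x ∈ cyl τ → j τ ≤ j σ := fun σ h τ h' x a b =>
    not_lt.1 fun l => j3 τ h' (by
      have := e' σ h x a _ l
      rwa [Fu, ← av_pr _ _ _ (good hA _ _).1.le, e τ h' x b] at this)
  obtain ⟨J, hJ⟩ : ∃ J, ∀ σ ∈ S, j σ < J := ⟨S.sup j + 1, fun σ h => Nat.lt_succ_of_le (le_sup h)⟩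
  obtain ⟨n, hn⟩ : ∃ n, (dc (sq A (k + 3) J)).1 < n := ⟨_, Nat.lt_succ_self _⟩
  rw [← sum_congr rfl fun σ _ => mu_cyl σ, ← measure_biUnion_finset (fun σ h τ h' ne =>
    Set.disjoint_left.2 fun x a b => ne (by
      rw [← e σ h x a, ← (m σ h τ h' x a b).antisymm (m τ h' σ h x b a), e τ h' x b]))
    fun _ _ => cyl_meas _]
  refine (measure_mono (t := {x | Fu A (k + 3) J (pr x n)}) (Set.iUnion₂_subset fun σ h x a =>
    ?_)).trans ?_
  · rw [Set.mem_ofPred_eq, Fu, av_pr _ _ _ hn.le]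
    exact e' σ h x a J (hJ σ h)
  rw [mu_clopen, ← one_mul (2⁻¹ ^ k), ← Nat.cast_one (R := ℝ≥0∞), ← not_lt, dy_lt, not_lt]
  have h1 := pot hA (k + 3) J n hn
  have h2 : #{u ∈ range (2 ^ n) | Fu A (k + 3) J (pr u.testBit n)} * 2 ^ (k + 3 + J) ≤
      ∑ u ∈ range (2 ^ n), av (2 ^ (k + 3 + J)) (sq A (k + 3) J) (pr u.testBit n) :=
    (card_nsmul_le_sum _ _ _ fun u hu => (mem_filter.1 hu).2.ge).trans
      (sum_le_sum_of_subset (filter_subset _ _))
  change #{u ∈ range (2 ^ n) | Fu A (k + 3) J (pr u.testBit n)} * 2 ^ k ≤ _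
  refine Nat.le_of_mul_le_mul_right (c := 8 * 2 ^ J) ?_ (by positivity)
  have h3 : 2 ^ (k + 3 + J) = 2 ^ k * (8 * 2 ^ J) := by ring
  rw [mul_assoc, ← h3, one_mul, mul_comm (2 ^ n)]
  omega

end Pool.Agent.Lib.H8.Two
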