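import Mathlib

/-! A very well-covered graph (a corona) whose independence sequence has a strict valley. -/

set_option autoImplicit false

namespace Pool.Agent.Lib.H8.VWC

open Finset

/-- digit extraction -/
theorem digit (B : ℕ) : ∀ (k m : ℕ) (c : ℕ → ℕ), (∀ i, c i < B) → k < m →
    (∑ i ∈ range m, c i * B ^ i) / B ^ k % B = c k := by
  intro k
  induction k with
  | zero =>
    intro m c hc hm
    obtain ⟨m, rfl⟩ : ∃ m', m = m' + 1 := ⟨m - 1, by omega⟩
    rw [sum_range_succ']
    have : ∑ i ∈ range m, c (i + 1) * B ^ (i + 1) = B * ∑ i ∈ range m, c (i + 1) * B ^ i := by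
      rw [mul_sum]; exact sum_congr rfl fun i _ => by ring
    rw [this]
    simp [Nat.mod_eq_of_lt (hc 0)]
  | succ k ih =>
    intro m c hc hm
    obtain ⟨m, rfl⟩ : ∃ m', m = m' + 1 := ⟨m - 1, by omega⟩
    rw [sum_range_succ']
    have : ∑ i ∈ range m, c (i + 1) * B ^ (i + 1) = B * ∑ i ∈ range m, c (i + 1) * B ^ i := by
      rw [mul_sum]; exact sum_congr rfl fun i _ => by ring
    rw [this]
    have hB : 0 < B := lt_of_le_of_lt (Nat.zero_le _) (hc 0)
    have h2 : (B * ∑ i ∈ range m, c (i + 1) * B ^ i + c 0 * B ^ 0) / B ^ (k + 1)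
        = (∑ i ∈ range m, c (i + 1) * B ^ i) / B ^ k := by
      rw [pow_succ', ← Nat.div_div_eq_div_mul]
      congr 1
      rw [pow_zero, mul_one, Nat.mul_add_div hB, Nat.div_eq_of_lt (hc 0), add_zero]
    rw [h2]
    exact ih m (fun i => c (i + 1)) (fun i => hc _) (by omega)

/-- generating function of a family of finsets, evaluated at a natural number -/
def gf {V : Type} [Fintype V] (P : Finset V → Prop) [DecidablePred P] (x : ℕ) : ℕ :=
  ∑ S : Finset V, if P S then x ^ S.card else 0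

theorem gf_coeff {V : Type} [Fintype V] [DecidableEq V] (P : Finset V → Prop) [DecidablePred P]
    (B k : ℕ) (hB : 2 ^ Fintype.card V < B) (hk : k ≤ Fintype.card V) :
    gf P B / B ^ k % B = (univ.filter (fun S : Finset V => P S ∧ S.card = k)).card := by
  have h1 : gf P B = ∑ i ∈ range (Fintype.card V + 1),
      (univ.filter (fun S : Finset V => P S ∧ S.card = i)).card * B ^ i := by
    unfold gf
    rw [← sum_fiberwise_of_maps_to (s := (univ : Finset (Finset V)))
      (t := range (Fintype.card V + 1)) (g := fun S => S.card)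
      (fun S _ => mem_range.2 (Nat.lt_succ_of_le (card_le_univ S)))]
    refine sum_congr rfl fun i _ => ?_
    rw [← sum_filter, filter_filter, card_eq_sum_ones, sum_mul]
    refine sum_congr (by ext S; simp [and_comm]) fun S hS => ?_
    simp only [mem_filter] at hS
    rw [hS.2.2, one_mul]
  rw [h1]
  refine digit B k _ (fun i => (univ.filter (fun S : Finset V => P S ∧ S.card = i)).card)
    (fun i => lt_of_le_of_lt ?_ hB) (by omega)
  rw [← Fintype.card_finset]
  exact card_le_univ _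

/-- fibre of a finset of pairs -/
def fib {I W : Type} [Fintype W] [DecidableEq I] [DecidableEq W] (S : Finset (I × W)) (i : I) :
    Finset W := univ.filter (fun w => (i, w) ∈ S)

theorem gf_prod {I W : Type} [Fintype I] [Fintype W] [DecidableEq I] [DecidableEq W]
    (L : I → Finset W → Prop) [∀ i, DecidablePred (L i)] (x : ℕ) :
    gf (fun S : Finset (I × W) => ∀ i, L i (fib S i)) x = ∏ i, gf (L i) x := by
  unfold gf
  rw [Fintype.prod_sum]
  let e : Finset (I × W) ≃ (I → Finset W) :=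
    { toFun := fun S i => fib S i
      invFun := fun f => univ.filter (fun p => p.2 ∈ f p.1)
      left_inv := fun S => by ext p; simp [fib]
      right_inv := fun f => by ext i w; simp [fib] }
  refine Fintype.sum_equiv e _ _ fun S => ?_
  have hc : S.card = ∑ i, (fib S i).card := by
    rw [card_eq_sum_card_fiberwise (f := Prod.fst) (t := univ) (fun _ _ => mem_univ _)]
    refine sum_congr rfl fun i _ => ?_
    refine card_bij (fun p _ => p.2) ?_ ?_ ?_
    · rintro ⟨a, b⟩ h
      simp only [mem_filter] at h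
      obtain ⟨h1, rfl⟩ := h
      simp [fib, h1]
    · rintro ⟨a, b⟩ h ⟨a', b'⟩ h' hh
      simp only [mem_filter] at h h'
      simp only at hh
      rw [Prod.ext_iff]; exact ⟨h.2.trans h'.2.symm, hh⟩
    · intro w hw
      simp only [fib, mem_filter] at hw
      exact ⟨(i, w), by simp [hw.2], rfl⟩
  by_cases h : ∀ i, L i (fib S i)
  · rw [if_pos h, hc, ← prod_pow_eq_pow_sum]
    exact prod_congr rfl fun i _ => by rw [if_pos (show L i (e S i) from h i)]; rfl
  · rw [if_neg h]
    push Not at h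
    obtain ⟨i, hi⟩ := h
    exact (prod_eq_zero (mem_univ i) (if_neg hi)).symm

abbrev I (a r : ℕ) : Type := Fin a ⊕ Fin r
abbrev W : Type := Fin 4 × Bool
abbrev V (a r : ℕ) : Type := I a r × W

variable {a r : ℕ}

/-- adjacency: pendant edges, the join, and the cliques -/
def adj (p q : V a r) : Prop :=
  (p.1 = q.1 ∧ p.2.1 = q.2.1 ∧ p.2.2 ≠ q.2.2) ∨
  (p.2.2 = true ∧ q.2.2 = true ∧
    (p.1.isLeft ≠ q.1.isLeft ∨ (p.1 = q.1 ∧ p.1.isLeft = false ∧ p.2.1 ≠ q.2.1)))

def H (a r : ℕ) : SimpleGraph (V a r) where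
  Adj := adj
  symm := ⟨by
    rintro p q (⟨h1, h2, h3⟩ | ⟨h1, h2, h3 | ⟨h3, h4, h5⟩⟩)
    · exact Or.inl ⟨h1.symm, h2.symm, h3.symm⟩
    · exact Or.inr ⟨h2, h1, Or.inl h3.symm⟩
    · exact Or.inr ⟨h2, h1, Or.inr ⟨h3.symm, h3 ▸ h4, h5.symm⟩⟩⟩
  loopless := ⟨by
    rintro p (⟨_, _, h3⟩ | ⟨_, _, h3 | ⟨_, _, h5⟩⟩)
    · exact h3 rfl
    · exact h3 rfl
    · exact h5 rfl⟩

def L0 (T : Finset W) : Prop := ∀ v : Fin 4, (v, true) ∉ T
def L1 (T : Finset W) : Prop := ∀ v : Fin 4, ¬ ((v, true) ∈ T ∧ (v, false) ∈ T)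
def L2 (T : Finset W) : Prop :=
  L1 T ∧ ∀ v w : Fin 4, (v, true) ∈ T → (w, true) ∈ T → v = w

instance : DecidablePred L0 := fun T => by unfold L0; infer_instance
instance : DecidablePred L1 := fun T => by unfold L1; infer_instance
instance : DecidablePred L2 := fun T => by unfold L2; infer_instance

def LA (i : I a r) (T : Finset W) : Prop := if i.isLeft = true then L1 T else L0 T
def LB (i : I a r) (T : Finset W) : Prop := if i.isLeft = true then L0 T else L2 T
def LC (_ : I a r) (T : Finset W) : Prop := L0 T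

instance (i : I a r) : DecidablePred (LA i) := fun T => by unfold LA; infer_instance
instance (i : I a r) : DecidablePred (LB i) := fun T => by unfold LB; infer_instance
instance (i : I a r) : DecidablePred (LC i) := fun T => by unfold LC; infer_instance

theorem mem_fib (S : Finset (V a r)) (i : I a r) (w : W) : w ∈ fib S i ↔ (i, w) ∈ S := by simp [fib]

theorem indep_iff (S : Finset (V a r)) : (H a r).IsIndepSet (S : Set (V a r)) ↔
    (∀ i, LA i (fib S i)) ∨ (∀ i, LB i (fib S i)) := by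
  constructor
  · intro h
    have h' : ∀ p ∈ S, ∀ q ∈ S, ¬ adj p q := fun p hp q hq ha =>
      h hp hq ((H a r).ne_of_adj ha) ha
    have hL1 : ∀ i, L1 (fib S i) := by
      rintro i v ⟨h1, h2⟩
      rw [mem_fib] at h1 h2
      exact h' _ h1 _ h2 (Or.inl ⟨rfl, rfl, by simp⟩)
    by_cases hA : ∃ i v, i.isLeft = true ∧ (i, (v, true)) ∈ S
    · obtain ⟨i, v, hi, hv⟩ := hA
      left
      intro j
      unfold LA
      split_ifs with hj
      · exact hL1 j
      · intro w hw
        rw [mem_fib] at hw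
        exact h' _ hv _ hw (Or.inr ⟨rfl, rfl, Or.inl (by simp [hi, hj])⟩)
    · right
      intro j
      unfold LB
      split_ifs with hj
      · intro w hw
        rw [mem_fib] at hw
        exact hA ⟨j, w, hj, hw⟩
      · refine ⟨hL1 j, fun v w hv hw => ?_⟩
        rw [mem_fib] at hv hw
        by_contra hne
        exact h' _ hv _ hw (Or.inr ⟨rfl, rfl, Or.inr ⟨rfl, by simpa using hj, hne⟩⟩)
  · intro h
    have h01 : ∀ T, L0 T → L1 T := fun T h v hv => h v hv.1
    have hL1 : ∀ i, L1 (fib S i) := by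
      intro i
      rcases h with h | h
      · have := h i
        unfold LA at this
        split_ifs at this
        · exact this
        · exact h01 _ this
      · have := h i
        unfold LB at this
        split_ifs at this
        · exact h01 _ this
        · exact this.1
    rintro ⟨i, v, b⟩ hp ⟨j, w, c⟩ hq - (⟨h1, h2, h3⟩ | ⟨h1, h2, h3⟩)
    · simp only at h1 h2 h3
      subst h1 h2
      have hp' := (mem_fib S i (v, b)).2 hp
      have hq' := (mem_fib S i (v, c)).2 hq
      cases b <;> cases c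
      · exact h3 rfl
      · exact hL1 i v ⟨hq', hp'⟩
      · exact hL1 i v ⟨hp', hq'⟩
      · exact h3 rfl
    · simp only at h1 h2 h3
      subst h1 h2
      have hp' := (mem_fib S i (v, true)).2 hp
      have hq' := (mem_fib S j (w, true)).2 hq
      rcases h with h | h
      · have hi := h i
        have hj := h j
        unfold LA at hi hj
        have hi' : i.isLeft = true := by
          by_contra hh; rw [if_neg hh] at hi; exact hi v hp'
        have hj' : j.isLeft = true := by
          by_contra hh; rw [if_neg hh] at hj; exact hj w hq'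
        rcases h3 with h3 | ⟨_, h4, _⟩
        · exact h3 (hi'.trans hj'.symm)
        · rw [hi'] at h4; exact absurd h4 (by simp)
      · have hi := h i
        have hj := h j
        unfold LB at hi hj
        have hi' : ¬ i.isLeft = true := by
          intro hh; rw [if_pos hh] at hi; exact hi v hp'
        have hj' : ¬ j.isLeft = true := by
          intro hh; rw [if_pos hh] at hj; exact hj w hq'
        rcases h3 with h3 | ⟨h3, _, h5⟩
        · exact h3 (by simp only [Bool.not_eq_true] at hi' hj'; rw [hi', hj'])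
        · subst h3
          rw [if_neg hi'] at hi
          exact h5 (hi.2 v w hp' hq')

theorem both_iff (S : Finset (V a r)) :
    ((∀ i, LA i (fib S i)) ∧ (∀ i, LB i (fib S i))) ↔ ∀ i, LC i (fib S i) := by
  constructor
  · rintro ⟨hA, hB⟩ i
    have h1 := hA i
    have h2 := hB i
    unfold LA at h1
    unfold LB at h2
    unfold LC
    split_ifs at h1 h2
    · exact h2
    · exact h1
  · intro h
    have h01 : ∀ T, L0 T → L1 T := fun T h v hv => h v hv.1
    have h02 : ∀ T, L0 T → L2 T := fun T h => ⟨h01 T h, fun v _ hv _ => absurd hv (h v)⟩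
    refine ⟨fun i => ?_, fun i => ?_⟩
    · unfold LA; split_ifs
      · exact h01 _ (h i)
      · exact h i
    · unfold LB; split_ifs
      · exact h i
      · exact h02 _ (h i)

def N (a r x : ℕ) : ℕ := ((1 + 2 * x) ^ 4) ^ a * ((1 + x) ^ 4) ^ r +
  ((1 + x) ^ 4) ^ a * ((1 + x) ^ 4 + 4 * x * (1 + x) ^ 3) ^ r - ((1 + x) ^ 4) ^ (a + r)

open Classical in
theorem gfH (a r x : ℕ) (g0 : gf L0 x = (1 + x) ^ 4) (g1 : gf L1 x = (1 + 2 * x) ^ 4)
    (g2 : gf L2 x = (1 + x) ^ 4 + 4 * x * (1 + x) ^ 3) :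
    gf (fun S : Finset (V a r) => (H a r).IsIndepSet (S : Set (V a r))) x = N a r x := by
  have hA : gf (fun S : Finset (V a r) => ∀ i, LA i (fib S i)) x
      = ((1 + 2 * x) ^ 4) ^ a * ((1 + x) ^ 4) ^ r := by
    rw [gf_prod, Fintype.prod_sum_type]
    have e1 : ∀ i : Fin a, gf (LA (Sum.inl i : I a r)) x = (1 + 2 * x) ^ 4 := fun i => by
      rw [← g1]; unfold gf; simp [LA]
    have e2 : ∀ i : Fin r, gf (LA (Sum.inr i : I a r)) x = (1 + x) ^ 4 := fun i => by
      rw [← g0]; unfold gf; simp [LA]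
    simp only [e1, e2, prod_const, card_univ, Fintype.card_fin]
  have hB : gf (fun S : Finset (V a r) => ∀ i, LB i (fib S i)) x
      = ((1 + x) ^ 4) ^ a * ((1 + x) ^ 4 + 4 * x * (1 + x) ^ 3) ^ r := by
    rw [gf_prod, Fintype.prod_sum_type]
    have e1 : ∀ i : Fin a, gf (LB (Sum.inl i : I a r)) x = (1 + x) ^ 4 := fun i => by
      rw [← g0]; unfold gf; simp [LB]
    have e2 : ∀ i : Fin r, gf (LB (Sum.inr i : I a r)) x = (1 + x) ^ 4 + 4 * x * (1 + x) ^ 3 :=
      fun i => by rw [← g2]; unfold gf; simp [LB]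
    simp only [e1, e2, prod_const, card_univ, Fintype.card_fin]
  have hC : gf (fun S : Finset (V a r) => ∀ i, LC i (fib S i)) x = ((1 + x) ^ 4) ^ (a + r) := by
    rw [gf_prod]
    have e1 : ∀ i : I a r, gf (LC i) x = (1 + x) ^ 4 := fun i => by
      rw [← g0]; unfold gf; simp [LC]
    simp only [e1, prod_const, card_univ, Fintype.card_sum, Fintype.card_fin]
  unfold N
  rw [← hA, ← hB, ← hC]
  symm
  apply Nat.sub_eq_of_eq_add
  unfold gf
  rw [← sum_add_distrib, ← sum_add_distrib]
  refine sum_congr rfl fun S _ => ?_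
  have h1 := indep_iff S
  have h2 := both_iff S
  by_cases hA : ∀ i, LA i (fib S i) <;> by_cases hB : ∀ i, LB i (fib S i)
  · rw [if_pos hA, if_pos hB, if_pos (h1.2 (Or.inl hA)), if_pos (h2.1 ⟨hA, hB⟩)]
  · rw [if_pos hA, if_neg hB, if_pos (h1.2 (Or.inl hA)), if_neg (fun h => hB (h2.2 h).2)]
  · rw [if_neg hA, if_pos hB, if_pos (h1.2 (Or.inr hB)), if_neg (fun h => hA (h2.2 h).1)]
    omega
  · rw [if_neg hA, if_neg hB, if_neg (fun h => (h1.1 h).elim hA hB),
      if_neg (fun h => hA (h2.2 h).1)]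

/-- number of independent sets of size k -/
noncomputable def cnt (a r k : ℕ) : ℕ :=
  {s : Finset (V a r) | (H a r).IsIndepSet (s : Set (V a r)) ∧ s.card = k}.ncard

theorem cardV (a r : ℕ) : Fintype.card (V a r) = (a + r) * 8 := by simp

theorem cnt_eq (a r x k : ℕ) (g0 : gf L0 x = (1 + x) ^ 4) (g1 : gf L1 x = (1 + 2 * x) ^ 4)
    (g2 : gf L2 x = (1 + x) ^ 4 + 4 * x * (1 + x) ^ 3) (hx : 2 ^ ((a + r) * 8) < x)
    (hk : k ≤ (a + r) * 8) : cnt a r k = N a r x / x ^ k % x := by
  classical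
  rw [← gfH a r x g0 g1 g2, gf_coeff _ x k (by rw [cardV]; exact hx) (by rw [cardV]; exact hk)]
  unfold cnt
  rw [← Set.ncard_coe_finset]
  refine congrArg Set.ncard (Set.ext fun S => ?_)
  rw [Set.mem_setOf_eq, mem_coe, mem_filter]
  exact ⟨fun h => ⟨mem_univ _, h⟩, fun h => h.2⟩

theorem valley_of (a r x k : ℕ) (g0 : gf L0 x = (1 + x) ^ 4) (g1 : gf L1 x = (1 + 2 * x) ^ 4)
    (g2 : gf L2 x = (1 + x) ^ 4 + 4 * x * (1 + x) ^ 3) (hx : 2 ^ ((a + r) * 8) < x)
    (hk : k + 2 ≤ (a + r) * 8)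
    (h : N a r x / x ^ (k + 1) % x < N a r x / x ^ k % x ∧
      N a r x / x ^ (k + 1) % x < N a r x / x ^ (k + 2) % x) : ∃ a r k : ℕ,
    cnt a r (k + 1) < cnt a r k ∧ cnt a r (k + 1) < cnt a r (k + 2) := by
  refine ⟨a, r, k, ?_⟩
  rw [cnt_eq a r x k g0 g1 g2 hx (by omega), cnt_eq a r x (k + 1) g0 g1 g2 hx (by omega),
    cnt_eq a r x (k + 2) g0 g1 g2 hx hk]
  exact h

def B : ℕ := 2 ^ 6657

theorem g0 : gf L0 B = (1 + B) ^ 4 := by decide +kernel
theorem g1 : gf L1 B = (1 + 2 * B) ^ 4 := by decide +kernel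
theorem g2 : gf L2 B = (1 + B) ^ 4 + 4 * B * (1 + B) ^ 3 := by decide +kernel
theorem hB : 2 ^ ((336 + 496) * 8) < B := by decide +kernel
theorem hk : 1856 + 2 ≤ (336 + 496) * 8 := by decide +kernel
theorem num : N 336 496 B / B ^ (1856 + 1) % B < N 336 496 B / B ^ 1856 % B ∧
      N 336 496 B / B ^ (1856 + 1) % B < N 336 496 B / B ^ (1856 + 2) % B := by decide +kernel

theorem valley : ∃ a r k : ℕ,
    cnt a r (k + 1) < cnt a r k ∧ cnt a r (k + 1) < cnt a r (k + 2) :=
  valley_of 336 496 B 1856 g0 g1 g2 hB hk num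

theorem no_isolated (v : V a r) : ∃ w, (H a r).Adj v w :=
  ⟨(v.1, v.2.1, !v.2.2), Or.inl ⟨rfl, rfl, by simp⟩⟩

theorem max_card (s : Finset (V a r)) (h1 : (H a r).IsIndepSet (s : Set (V a r)))
    (h2 : ∀ v : V a r, v ∉ s → ¬ (H a r).IsIndepSet (insert v (s : Set (V a r)))) :
    s.card = (a + r) * 4 := by
  have : (univ : Finset (I a r × Fin 4)).card = (a + r) * 4 := by simp
  rw [← this]
  refine card_bij (fun p _ => (p.1, p.2.1)) (fun _ _ => mem_univ _) ?_ ?_
  · rintro ⟨i, v, b⟩ hp ⟨j, w, c⟩ hq hh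
    simp only [Prod.mk.injEq] at hh
    obtain ⟨rfl, rfl⟩ := hh
    by_contra hne
    exact h1 hp hq hne (Or.inl ⟨rfl, rfl, fun h => hne (by simp only at h; rw [h])⟩)
  · rintro ⟨i, v⟩ -
    by_contra hne
    push Not at hne
    have n1 : (i, v, true) ∉ s := fun h => hne _ h rfl
    have n2 : (i, v, false) ∉ s := fun h => hne _ h rfl
    apply h2 _ n2
    have key : ∀ q ∈ s, ¬ adj (i, v, false) q := by
      rintro ⟨j, w, c⟩ hq (⟨a1, a2, a3⟩ | ⟨a1, _⟩)
      · simp only at a1 a2 a3
        subst a1 a2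
        cases c
        · exact a3 rfl
        · exact n1 hq
      · simp at a1
    rintro p (rfl | hp) q (rfl | hq) hne ha
    · exact hne rfl
    · exact key q hq ha
    · exact key p hp ((H a r).adj_symm ha)
    · exact h1 hp hq hne ha

end Pool.Agent.Lib.H8.VWC
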