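import Mathlib

set_option autoImplicit false
set_option maxHeartbeats 400000

namespace Pool.Agent.H8.VdC

open Complex Set

/-- second derivative test of van der Corput, with a perturbation `r` -/
theorem vdc (G g r : ℝ → ℂ) (w w' : ℝ → ℝ) (a b δ ρ : ℝ) (hab : a ≤ b) (hδ : 0 < δ)
    (hG : ∀ x, HasDerivAt G (g x) x) (hg : ∀ x, HasDerivAt g (I * w x * g x + r x) x)
    (hw : ∀ x, HasDerivAt w (w' x) x) (h1 : ∀ x, ‖g x‖ ≤ 1)
    (h2 : ∀ x ∈ Icc a b, δ ^ 2 ≤ w' x) (h3 : ∀ x ∈ Icc a b, ‖r x‖ ≤ ρ) :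
    ‖G b - G a‖ ≤ (1 + 2 * Real.pi + ρ * (b - a) / 2) / δ := by
  have hD : ∀ x, 0 < w x ^ 2 + δ ^ 2 := fun x => by positivity
  set m : ℝ → ℝ := fun x => w x / (w x ^ 2 + δ ^ 2) with hm
  have hm1 : ∀ x, |m x| ≤ 1 / (2 * δ) := by
    intro x
    rw [hm, abs_div, abs_of_pos (hD x), div_le_div_iff₀ (hD x) (by positivity)]
    nlinarith [sq_nonneg (|w x| - δ), sq_abs (w x)]
  have hm' : ∀ x, HasDerivAt m (w' x * (δ ^ 2 - w x ^ 2) / (w x ^ 2 + δ ^ 2) ^ 2) x := by
    intro x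
    have := (hw x).div (((hw x).pow 2).add_const (δ ^ 2)) (hD x).ne'
    refine this.congr_deriv ?_
    simp only [Pi.pow_apply]
    congr 1
    push_cast
    ring
  have hF : ∀ x, HasDerivAt (fun x => G x - G a + I * (g x * m x - g a * m a))
      (g x + I * ((I * w x * g x + r x) * m x +
        g x * (w' x * (δ ^ 2 - w x ^ 2) / (w x ^ 2 + δ ^ 2) ^ 2 : ℝ))) x := fun x =>
    ((hG x).sub_const _).add ((((hg x).mul (hm' x).ofReal_comp).sub_const _).const_mul I)
  have hB : ∀ x, HasDerivAt (fun x => 2 / δ * (Real.arctan (w x / δ) - Real.arctan (w a / δ)) +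
      ρ / (2 * δ) * (x - a)) (2 * w' x / (w x ^ 2 + δ ^ 2) + ρ / (2 * δ)) x := by
    intro x
    have := (((((hw x).div_const δ).arctan).sub_const (Real.arctan (w a / δ))).const_mul
      (2 / δ)).add (((hasDerivAt_id x).sub_const a).const_mul (ρ / (2 * δ)))
    refine this.congr_deriv ?_
    have := (hD x).ne'
    field_simp
    ring
  have key := image_norm_le_of_norm_deriv_right_le_deriv_boundary
    (fun x _ => (hF x).continuousAt.continuousWithinAt) (fun x _ => (hF x).hasDerivWithinAt)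
    (by simp) hB (a := a) (b := b) (fun x hx => ?_) (right_mem_Icc.2 hab)
  · have e1 := Real.arctan_lt_pi_div_two (w b / δ)
    have e2 := Real.neg_pi_div_two_lt_arctan (w a / δ)
    have e3 : ∀ x, ‖g x * m x‖ ≤ 1 / (2 * δ) := fun x => by
      rw [norm_mul, Complex.norm_real, Real.norm_eq_abs]
      exact (mul_le_of_le_one_left (abs_nonneg _) (h1 x)).trans (hm1 x)
    have e4 : ‖I * (g b * m b - g a * m a)‖ ≤ 1 / (2 * δ) + 1 / (2 * δ) := by
      rw [norm_mul, norm_I, one_mul]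
      exact (norm_sub_le _ _).trans (add_le_add (e3 b) (e3 a))
    have e5 : ‖G b - G a‖ ≤ ‖G b - G a + I * (g b * m b - g a * m a)‖ +
        ‖I * (g b * m b - g a * m a)‖ := by
      simpa using norm_sub_le (G b - G a + I * (g b * m b - g a * m a))
        (I * (g b * m b - g a * m a))
    have e6 : 2 / δ * (Real.arctan (w b / δ) - Real.arctan (w a / δ)) ≤ 2 / δ * Real.pi :=
      mul_le_mul_of_nonneg_left (by linarith) (by positivity)
    calc _ ≤ 2 / δ * Real.pi + ρ / (2 * δ) * (b - a) + (1 / (2 * δ) + 1 / (2 * δ)) := by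
          linarith
      _ = _ := by field_simp; ring
  · have hx' := Ico_subset_Icc_self hx
    have e0 : g x + I * ((I * w x * g x + r x) * m x +
        g x * (w' x * (δ ^ 2 - w x ^ 2) / (w x ^ 2 + δ ^ 2) ^ 2 : ℝ)) =
        g x * (δ ^ 2 / (w x ^ 2 + δ ^ 2) : ℝ) + I * r x * m x +
        I * g x * (w' x * (δ ^ 2 - w x ^ 2) / (w x ^ 2 + δ ^ 2) ^ 2 : ℝ) := by
      have e : (δ ^ 2 / (w x ^ 2 + δ ^ 2) : ℝ) = 1 - w x * m x := by
        have := (hD x).ne'
        simp only [hm]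
        field_simp
        ring
      rw [e]
      push_cast
      linear_combination (w x * g x * m x) * I_mul_I
    rw [e0]
    have hw0 : 0 ≤ w' x := (sq_nonneg δ).trans (h2 x hx')
    have e1 : ‖g x * (δ ^ 2 / (w x ^ 2 + δ ^ 2) : ℝ)‖ ≤ w' x / (w x ^ 2 + δ ^ 2) := by
      rw [norm_mul, Complex.norm_real, Real.norm_of_nonneg (by positivity)]
      exact (mul_le_of_le_one_left (by positivity) (h1 x)).trans
        (div_le_div_of_nonneg_right (h2 x hx') (hD x).le)
    have e2 : ‖I * r x * m x‖ ≤ ρ / (2 * δ) := by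
      rw [norm_mul, norm_mul, norm_I, one_mul, Complex.norm_real, Real.norm_eq_abs,
        div_eq_mul_one_div]
      exact mul_le_mul (h3 x hx') (hm1 x) (abs_nonneg _) ((norm_nonneg _).trans (h3 x hx'))
    have e3 : ‖I * g x * (w' x * (δ ^ 2 - w x ^ 2) / (w x ^ 2 + δ ^ 2) ^ 2 : ℝ)‖ ≤
        w' x / (w x ^ 2 + δ ^ 2) := by
      rw [norm_mul, norm_mul, norm_I, one_mul, Complex.norm_real, Real.norm_eq_abs]
      refine (mul_le_of_le_one_left (abs_nonneg _) (h1 x)).trans ?_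
      rw [abs_div, abs_mul, abs_of_nonneg hw0, abs_of_pos (pow_pos (hD x) 2),
        div_le_div_iff₀ (pow_pos (hD x) 2) (hD x), mul_assoc, sq (w x ^ 2 + δ ^ 2)]
      refine mul_le_mul_of_nonneg_left (mul_le_mul_of_nonneg_right ?_ (hD x).le) hw0
      rw [abs_le]
      constructor <;> nlinarith [sq_nonneg δ, sq_nonneg (w x)]
    refine (norm_add₃_le).trans ?_
    rw [mul_div_assoc 2]
    linarith

/-- the symbol of the Lax-Wendroff scheme -/
noncomputable def u (x : ℝ) : ℂ := (3 + Real.cos x - 2 * I * Real.sin x) / 4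

theorem normSq_u (x : ℝ) : ‖u x‖ ^ 2 = 1 - 3 * (1 - Real.cos x) ^ 2 / 16 := by
  have h : u x = ((3 + Real.cos x) / 4 : ℝ) + (-Real.sin x / 2 : ℝ) * I := by
    simp only [u]
    push_cast
    ring
  rw [h, Complex.sq_norm, Complex.normSq_add_mul_I]
  linear_combination (1 / 4) * Real.sin_sq_add_cos_sq x

theorem norm_u_le (x : ℝ) : ‖u x‖ ≤ 1 := by
  have := normSq_u x
  nlinarith [norm_nonneg (u x), sq_nonneg (1 - Real.cos x)]

theorem d_ge (x : ℝ) : 4 ≤ 13 + 6 * Real.cos x - 3 * Real.cos x ^ 2 := by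
  nlinarith [Real.cos_le_one x, Real.neg_one_le_cos x]

theorem deriv_u (x : ℝ) : HasDerivAt u (u x *
    (I * (-(2 + 6 * Real.cos x) / (13 + 6 * Real.cos x - 3 * Real.cos x ^ 2) : ℝ) -
      (3 * Real.sin x * (1 - Real.cos x) / (13 + 6 * Real.cos x - 3 * Real.cos x ^ 2) : ℝ))) x := by
  have h := ((((Real.hasDerivAt_cos x).ofReal_comp.const_add 3).sub
    ((Real.hasDerivAt_sin x).ofReal_comp.const_mul (2 * I))).div_const 4)
  refine h.congr_deriv ?_
  have h1 : ((13 + 6 * Real.cos x - 3 * Real.cos x ^ 2 : ℝ) : ℂ) ≠ 0 :=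
    Complex.ofReal_ne_zero.2 (by linarith [d_ge x])
  have h2 : (Real.sin x : ℂ) ^ 2 + (Real.cos x : ℂ) ^ 2 = 1 := by
    exact_mod_cast Real.sin_sq_add_cos_sq x
  simp only [u, Complex.ofReal_div, Complex.ofReal_mul, Complex.ofReal_neg, Complex.ofReal_add,
    Complex.ofReal_sub, Complex.ofReal_ofNat, Complex.ofReal_one, Complex.ofReal_pow] at h1 ⊢
  generalize (Real.sin x : ℂ) = s at *
  generalize (Real.cos x : ℂ) = c at *
  rw [← mul_div_assoc, ← sub_div, ← mul_div_assoc, eq_div_iff h1]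
  linear_combination (-(s * (1 + 3 * c))) * I_mul_I + (3 / 2 * I * (c - 1)) * h2

theorem osc (t : ℕ) (ht : 2 ≤ t) (ν : ℝ) :
    ‖∫ x in (1 / t ^ 2 : ℝ)..(2 / t ^ 2), u x ^ (t ^ 8) * exp (I * ν * x)‖ ≤ 27 / t ^ 3 := by
  have hu : Continuous u := by unfold u; fun_prop
  have ht' : (2 : ℝ) ≤ t := by exact_mod_cast ht
  have hc : Continuous fun x : ℝ => u x ^ (t ^ 8) * exp (I * ν * x) := by fun_prop
  have hn : ∀ x : ℝ, ‖u x ^ (t ^ 8) * exp (I * ν * x)‖ ≤ 1 := by
    intro x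
    rw [norm_mul, norm_pow, show I * ν * x = (ν * x : ℝ) * I by push_cast; ring,
      Complex.norm_exp_ofReal_mul_I, mul_one]
    exact pow_le_one₀ (norm_nonneg _) (norm_u_le x)
  have hτ : (2 / t ^ 2 : ℝ) ≤ 1 / 2 := by
    rw [div_le_div_iff₀ (by positivity) (by norm_num)]
    nlinarith
  have key := vdc (fun y => ∫ x in (1 / t ^ 2 : ℝ)..y, u x ^ (t ^ 8) * exp (I * ν * x))
    (fun x : ℝ => u x ^ (t ^ 8) * exp (I * ν * x))
    (fun x : ℝ => -(t ^ 8 * (3 * Real.sin x * (1 - Real.cos x) /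
      (13 + 6 * Real.cos x - 3 * Real.cos x ^ 2)) : ℝ) * (u x ^ (t ^ 8) * exp (I * ν * x)))
    (fun x => t ^ 8 * (-(2 + 6 * Real.cos x) / (13 + 6 * Real.cos x - 3 * Real.cos x ^ 2)) + ν)
    (fun x => t ^ 8 * (Real.sin x * (66 + 12 * Real.cos x + 18 * Real.cos x ^ 2) /
      (13 + 6 * Real.cos x - 3 * Real.cos x ^ 2) ^ 2))
    (1 / t ^ 2) (2 / t ^ 2) (t ^ 3 / 3) (3 * t ^ 2) (by gcongr; norm_num) (by positivity)
    (fun x => (hc.deriv_integral _ _ x) ▸ ((hc.integral_hasStrictDerivAt _ x).hasDerivAt.differentiableAt.hasDerivAt))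
    (fun x => ?_) (fun x => ?_) hn (fun x hx => ?_) (fun x hx => ?_)
  · rw [intervalIntegral.integral_same, sub_zero] at key
    refine key.trans ?_
    have : (3 * t ^ 2 * (2 / t ^ 2 - 1 / t ^ 2) / 2 : ℝ) = 3 / 2 := by field_simp; ring
    rw [this, div_div_eq_mul_div]
    gcongr
    linarith [Real.pi_lt_d2]
  · have h1 := ((deriv_u x).pow (t ^ 8)).mul
      (((hasDerivAt_id x).ofReal_comp.const_mul (I * ν)).cexp)
    refine h1.congr_deriv ?_
    obtain ⟨k, hk⟩ : ∃ k, t ^ 8 = k + 1 := ⟨t ^ 8 - 1, by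
      have : 0 < t ^ 8 := by positivity
      omega⟩
    have hk' : (t : ℝ) ^ 8 = k + 1 := by exact_mod_cast hk
    rw [hk, hk']
    simp only [Pi.pow_apply, id, Nat.add_sub_cancel]
    generalize (-(2 + 6 * Real.cos x) / (13 + 6 * Real.cos x - 3 * Real.cos x ^ 2) : ℝ) = α
    generalize (3 * Real.sin x * (1 - Real.cos x) /
      (13 + 6 * Real.cos x - 3 * Real.cos x ^ 2) : ℝ) = β
    push_cast
    ring
  · have h0 := Real.hasDerivAt_cos x
    have h1 := ((((h0.const_mul 6).const_add 2).neg.div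
      (((h0.const_mul 6).const_add 13).sub ((h0.pow 2).const_mul 3))
      (by linarith [d_ge x] : (13 + 6 * Real.cos x - 3 * Real.cos x ^ 2) ≠ 0)).const_mul
      ((t : ℝ) ^ 8)).add_const ν
    refine h1.congr_deriv ?_
    simp only [Pi.pow_apply, Pi.sub_apply, Pi.neg_apply]
    congr 2
    push_cast
    ring
  · have h0 : 0 < x := lt_of_lt_of_le (by positivity) hx.1
    have h1 : x / 2 ≤ Real.sin x := by
      have := Real.sin_gt_sub_cube h0
      have h2 : x ^ 2 ≤ 1 := by nlinarith [hx.2]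
      nlinarith
    have h2 : Real.sin x / 4 ≤ Real.sin x * (66 + 12 * Real.cos x + 18 * Real.cos x ^ 2) /
        (13 + 6 * Real.cos x - 3 * Real.cos x ^ 2) ^ 2 := by
      have hd := d_ge x
      have hd' : 13 + 6 * Real.cos x - 3 * Real.cos x ^ 2 ≤ 16 := by
        nlinarith [sq_nonneg (1 - Real.cos x)]
      rw [div_le_div_iff₀ (by norm_num) (by positivity), mul_assoc]
      refine mul_le_mul_of_nonneg_left ?_ (by linarith)
      nlinarith [sq_nonneg (1 + 3 * Real.cos x)]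
    calc ((t : ℝ) ^ 3 / 3) ^ 2 ≤ t ^ 8 * (1 / t ^ 2 / 8) := by
          field_simp
          norm_num
      _ ≤ _ := mul_le_mul_of_nonneg_left (by linarith [hx.1]) (by positivity)
  · have h0 : 0 < x := lt_of_lt_of_le (by positivity) hx.1
    have hd := d_ge x
    have h1 : 0 ≤ Real.sin x := Real.sin_nonneg_of_nonneg_of_le_pi h0.le
      (by linarith [hx.2, Real.pi_gt_three])
    have h2 : 0 ≤ 1 - Real.cos x := by linarith [Real.cos_le_one x]
    rw [norm_mul, norm_neg, Complex.norm_real, Real.norm_of_nonneg (by positivity)]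
    refine (mul_le_of_le_one_right (by positivity) (hn x)).trans ?_
    have h3 : 1 - Real.cos x ≤ x ^ 2 / 2 := by linarith [Real.one_sub_sq_div_two_le_cos (x := x)]
    calc (t : ℝ) ^ 8 * (3 * Real.sin x * (1 - Real.cos x) /
          (13 + 6 * Real.cos x - 3 * Real.cos x ^ 2))
        ≤ t ^ 8 * (3 * (2 / t ^ 2) * ((2 / t ^ 2) ^ 2 / 2) / 4) := by
          gcongr
          · exact (Real.sin_le h0.le).trans hx.2
          · exact h3.trans (by gcongr; exact hx.2)
      _ = _ := by field_simp; ring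

end Pool.Agent.H8.VdC
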