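import Mathlib

/-!
Incomplete proper edge colourings as families of involutions; Kempe walks; Vizing fans.
-/

namespace Pool.Agent.Lib.H8.Viz

/-- `m a v` is the neighbour of `v` along colour `a`, or `v` if `a` is missing at `v`. -/
structure PC (G : SimpleGraph ℕ) (Δ : ℕ) (m : ℕ → ℕ → ℕ) : Prop where
  inv : ∀ a v, m a (m a v) = v
  adj : ∀ a v, m a v ≠ v → G.Adj v (m a v) ∧ a ≤ Δ
  inj : ∀ a b v, m a v ≠ v → m a v = m b v → a = b

def Col (m : ℕ → ℕ → ℕ) (u v : ℕ) : Prop := u ≠ v ∧ ∃ a, m a u = v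

def Full (G : SimpleGraph ℕ) (Δ : ℕ) (D : ℕ → ℕ → Prop) (m : ℕ → ℕ → ℕ) : Prop :=
  PC G Δ m ∧ ∀ u v, D u v ↔ Col m u v

structure Hole (G : SimpleGraph ℕ) (Δ : ℕ) (D : ℕ → ℕ → Prop) (m : ℕ → ℕ → ℕ) (x y : ℕ) :
    Prop where
  pc : PC G Δ m
  adj : G.Adj x y
  unc : ∀ a, m a x ≠ y
  dom : ∀ u v, D u v ↔ Col m u v ∨ (u = x ∧ v = y) ∨ (u = y ∧ v = x)

variable {G : SimpleGraph ℕ} {Δ : ℕ} {D : ℕ → ℕ → Prop} {m : ℕ → ℕ → ℕ} {x y : ℕ}

theorem Hole.symm (h : Hole G Δ D m x y) : Hole G Δ D m y x where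
  pc := h.pc
  adj := h.adj.symm
  unc a e := h.unc a (by rw [← e, h.pc.inv])
  dom u v := by rw [h.dom]; tauto

def add (m : ℕ → ℕ → ℕ) (a x y : ℕ) : ℕ → ℕ → ℕ := fun c v =>
  if c = a ∧ v = x then y else if c = a ∧ v = y then x else m c v

theorem Hole.add (h : Hole G Δ D m x y) {a : ℕ} (ha : a ≤ Δ) (hx : m a x = x) (hy : m a y = y) :
    Full G Δ D (add m a x y) := by
  have hne := h.adj.ne
  have hi := h.pc.inv
  have hj := h.pc.inj
  have hu := h.unc
  have hu' := h.symm.unc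
  refine ⟨⟨fun c v => ?_, fun c v => ?_, fun c d v => ?_⟩, fun u v => ?_⟩
  · unfold Viz.add
    grind
  · unfold Viz.add
    split_ifs with h1 h2
    · obtain ⟨rfl, rfl⟩ := h1
      exact fun _ => ⟨h.adj, ha⟩
    · obtain ⟨rfl, rfl⟩ := h2
      exact fun _ => ⟨h.adj.symm, ha⟩
    · exact h.pc.adj c v
  · unfold Viz.add
    grind
  · rw [h.dom]
    unfold Col Viz.add
    constructor
    · rintro (⟨h1, c, h2⟩ | ⟨rfl, rfl⟩ | ⟨rfl, rfl⟩)
      · exact ⟨h1, c, by grind⟩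
      · exact ⟨hne, a, by simp⟩
      · exact ⟨hne.symm, a, by simp [hne.symm]⟩
    · rintro ⟨h1, c, h2⟩
      by_cases e1 : c = a ∧ u = x
      · grind
      by_cases e2 : c = a ∧ u = y
      · grind
      exact Or.inl ⟨h1, c, by grind⟩

def shift (m : ℕ → ℕ → ℕ) (a x y : ℕ) : ℕ → ℕ → ℕ := fun c v =>
  if c = a ∧ v = x then y else if c = a ∧ v = y then x else if c = a ∧ v = m a x then v else m c v

theorem Hole.shift (h : Hole G Δ D m x y) {a : ℕ} (hx : m a x ≠ x) (hy : m a y = y) :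
    Hole G Δ D (shift m a x y) x (m a x) := by
  have hne := h.adj.ne
  have hi := h.pc.inv
  have hj := h.pc.inj
  have hu := h.unc
  have hu' := h.symm.unc
  have ha := h.pc.adj a x hx
  refine ⟨⟨fun c v => ?_, fun c v => ?_, fun c d v => ?_⟩, ha.1, fun c => ?_, fun u v => ?_⟩
  · unfold Viz.shift
    grind
  · unfold Viz.shift
    split_ifs with h1 h2 h3
    · obtain ⟨rfl, rfl⟩ := h1
      exact fun _ => ⟨h.adj, ha.2⟩
    · obtain ⟨rfl, rfl⟩ := h2
      exact fun _ => ⟨h.adj.symm, ha.2⟩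
    · exact fun h => absurd rfl h
    · exact h.pc.adj c v
  · unfold Viz.shift
    grind
  · unfold Viz.shift
    grind
  · rw [h.dom]
    unfold Col Viz.shift
    constructor
    · rintro (⟨h1, c, h2⟩ | ⟨rfl, rfl⟩ | ⟨rfl, rfl⟩)
      · by_cases e1 : c = a ∧ (u = x ∨ u = m a x)
        · grind
        · exact Or.inl ⟨h1, c, by grind⟩
      · exact Or.inl ⟨hne, a, by simp⟩
      · exact Or.inl ⟨hne.symm, a, by simp [hne.symm]⟩
    · rintro (⟨h1, c, h2⟩ | ⟨rfl, rfl⟩ | ⟨rfl, rfl⟩)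
      · by_cases e1 : c = a ∧ (u = x ∨ u = y)
        · grind
        · exact Or.inl ⟨h1, c, by grind⟩
      · exact Or.inl ⟨hx.symm, a, rfl⟩
      · exact Or.inl ⟨hx, a, hi _ _⟩

def Closed (m : ℕ → ℕ → ℕ) (a b : ℕ) (C : Set ℕ) : Prop := ∀ v ∈ C, m a v ∈ C ∧ m b v ∈ C

open Classical in
noncomputable def swp (m : ℕ → ℕ → ℕ) (a b : ℕ) (C : Set ℕ) : ℕ → ℕ → ℕ := fun c v =>
  if v ∈ C then m (Equiv.swap a b c) v else m c v

theorem swp_hole (h : Hole G Δ D m x y) {a b : ℕ} (ha : a ≤ Δ) (hb : b ≤ Δ) {C : Set ℕ}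
    (hC : Closed m a b C) : Hole G Δ D (swp m a b C) x y := by
  classical
  have hi := h.pc.inv
  have key : ∀ c v, (c = a ∨ c = b) → (m c v ∈ C ↔ v ∈ C) := by
    intro c v hc
    refine ⟨fun hv => ?_, fun hv => ?_⟩
    · have := hC _ hv
      rcases hc with rfl | rfl
      · simpa [hi] using this.1
      · simpa [hi] using this.2
    · rcases hc with rfl | rfl
      exacts [(hC v hv).1, (hC v hv).2]
  have col : ∀ u v, (∃ c, swp m a b C c u = v) ↔ ∃ c, m c u = v := by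
    intro u v
    unfold swp
    by_cases hu : u ∈ C
    · simp only [hu, if_true]
      exact ⟨fun ⟨c, hc⟩ => ⟨_, hc⟩, fun ⟨c, hc⟩ => ⟨Equiv.swap a b c, by simpa using hc⟩⟩
    · simp only [hu, if_false]
  refine ⟨⟨fun c v => ?_, fun c v => ?_, fun c d v => ?_⟩, h.adj, fun c e => ?_, fun u v => ?_⟩
  · unfold swp
    by_cases hc : c = a ∨ c = b
    · have hc' : Equiv.swap a b c = a ∨ Equiv.swap a b c = b := by
        rcases hc with rfl | rfl <;> simp
      by_cases hv : v ∈ C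
      · simp only [hv, if_true, (key _ v hc').2 hv, hi]
      · simp only [hv, if_false, mt (key _ v hc).1 hv, hi]
    · push Not at hc
      simp only [Equiv.swap_apply_of_ne_of_ne hc.1 hc.2, ite_self, hi]
  · unfold swp
    split_ifs with hv
    · intro hne
      refine ⟨(h.pc.adj _ v hne).1, ?_⟩
      by_cases hc : c = a ∨ c = b
      · rcases hc with rfl | rfl <;> assumption
      · push Not at hc
        rw [Equiv.swap_apply_of_ne_of_ne hc.1 hc.2] at hne
        exact (h.pc.adj _ v hne).2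
    · exact h.pc.adj c v
  · unfold swp
    split_ifs with hv
    · exact fun h1 h2 => (Equiv.swap a b).injective (h.pc.inj _ _ v h1 h2)
    · exact h.pc.inj c d v
  · obtain ⟨c', hc'⟩ := (col x y).1 ⟨c, e⟩
    exact h.unc c' hc'
  · rw [h.dom]
    unfold Col
    rw [col]

/-- Kempe swap followed by colouring the hole. -/
theorem finish (h : Hole G Δ D m x y) {a b : ℕ} (ha : a ≤ Δ) (hb : b ≤ Δ) (hx : m a x = x)
    (hy : m b y = y) {C : Set ℕ} (hC : Closed m a b C) (hyC : y ∈ C) (hxC : x ∉ C) :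
    ∃ m', Full G Δ D m' ∧ ∀ c v, v ∉ C → v ≠ x → m' c v = m c v := by
  refine ⟨_, (swp_hole h ha hb hC).add ha (by simp [swp, hxC, hx]) (by simp [swp, hyC, hy]), ?_⟩
  intro c v hv hvx
  have : v ≠ y := fun e => hv (e ▸ hyC)
  simp [add, swp, hv, hvx, this]

/-! Kempe walks -/

def cl (a b l : ℕ) : ℕ := if l % 2 = 0 then a else b

def wk (m : ℕ → ℕ → ℕ) (a b z : ℕ) : ℕ → ℕ
  | 0 => z
  | l + 1 => m (cl a b l) (wk m a b z l)

theorem cl_two (a b l : ℕ) : cl a b (l + 2) = cl a b l := by simp [cl]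

theorem cl_or (a b l : ℕ) : (cl a b l = a ∧ cl a b (l + 1) = b) ∨
    (cl a b l = b ∧ cl a b (l + 1) = a) := by
  unfold cl
  rcases Nat.mod_two_eq_zero_or_one l with h | h <;> simp [h, Nat.add_mod]

variable {a b z : ℕ}

theorem wk_back (hi : ∀ a v, m a (m a v) = v) (l : ℕ) :
    m (cl a b (l + 2)) (wk m a b z (l + 1)) = wk m a b z l := by
  rw [cl_two, wk, hi]

theorem closed_le (hi : ∀ a v, m a (m a v) = v) (hz : m b z = z) (P : ℕ → Prop)
    (hd : ∀ k, P (k + 1) → P k)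
    (hu : ∀ k, P k → ∃ k', P k' ∧ wk m a b z (k + 1) = wk m a b z k') :
    Closed m a b {v | ∃ k, P k ∧ v = wk m a b z k} := by
  rintro v ⟨k, hk, rfl⟩
  have h1 : ∃ k', P k' ∧ m (cl a b k) (wk m a b z k) = wk m a b z k' := hu k hk
  have h2 : ∃ k', P k' ∧ m (cl a b (k + 1)) (wk m a b z k) = wk m a b z k' := by
    cases k with
    | zero => exact ⟨0, hk, by simpa [cl, wk] using hz⟩
    | succ k => exact ⟨k, hd k hk, wk_back hi k⟩
  rcases cl_or a b k with ⟨e1, e2⟩ | ⟨e1, e2⟩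
  · rw [e1] at h1; rw [e2] at h2; exact ⟨h1, h2⟩
  · rw [e1] at h1; rw [e2] at h2; exact ⟨h2, h1⟩

def comp (m : ℕ → ℕ → ℕ) (a b z : ℕ) : Set ℕ := {v | ∃ k, True ∧ v = wk m a b z k}

theorem mem_comp (k : ℕ) : wk m a b z k ∈ comp m a b z := ⟨k, trivial, rfl⟩

theorem comp_closed (hi : ∀ a v, m a (m a v) = v) (hz : m b z = z) :
    Closed m a b (comp m a b z) :=
  closed_le hi hz _ (fun _ _ => trivial) fun k _ => ⟨k + 1, trivial, rfl⟩

theorem Closed.cl {C : Set ℕ} (hC : Closed m a b C) {v : ℕ} (hv : v ∈ C) (l : ℕ) :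
    m (cl a b l) v ∈ C := by
  rcases cl_or a b l with ⟨e1, -⟩ | ⟨e1, -⟩ <;> rw [e1]
  exacts [(hC v hv).1, (hC v hv).2]

theorem Closed.symm {C : Set ℕ} (hC : Closed m a b C) : Closed m b a C :=
  fun v hv => (hC v hv).symm

theorem Closed.fwd {C : Set ℕ} (hC : Closed m a b C) (hz : z ∈ C) : ∀ l, wk m a b z l ∈ C
  | 0 => hz
  | l + 1 => hC.cl (hC.fwd hz l) l

theorem Closed.bwd (hi : ∀ a v, m a (m a v) = v) {C : Set ℕ} (hC : Closed m a b C) :
    ∀ l, wk m a b z l ∈ C → z ∈ C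
  | 0, h => h
  | l + 1, h => hC.bwd hi l (by rw [← wk_back hi l]; exact hC.cl h _)

theorem stuck (hi : ∀ a v, m a (m a v) = v) (hz : m b z = z) {l : ℕ}
    (hl : wk m a b z (l + 1) = wk m a b z l) (n : ℕ) : ∃ k, k ≤ l ∧ wk m a b z n = wk m a b z k := by
  refine (closed_le hi hz (· ≤ l) (fun k hk => by omega) fun k hk => ?_).fwd ⟨0, by omega, rfl⟩ n
  rcases hk.lt_or_eq with h | rfl
  exacts [⟨k + 1, h, rfl⟩, ⟨k, le_rfl, hl⟩]

theorem end_idx (hi : ∀ a v, m a (m a v) = v) (hz : m b z = z) {u : ℕ} (hu : u ∈ comp m a b z)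
    (hne : u ≠ z) (he : m a u = u ∨ m b u = u) :
    ∃ i, wk m a b z i = u ∧ wk m a b z (i + 1) = wk m a b z i ∧
      ∀ l < i, wk m a b z (l + 1) ≠ wk m a b z l := by
  classical
  have hex : ∃ k, wk m a b z k = u := by obtain ⟨k, -, hk⟩ := hu; exact ⟨k, hk.symm⟩
  have h1 := Nat.find_spec hex
  have h2 := fun k => Nat.find_min hex (m := k)
  generalize Nat.find hex = i at h1 h2
  refine ⟨i, h1, ?_, fun l hl e => ?_⟩
  · cases i with
    | zero => exact absurd h1.symm hne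
    | succ i =>
      have h3 := wk_back (a := a) (b := b) (z := z) hi i
      have h4 := h2 i (by omega)
      rw [wk, h1]
      rw [h1] at h3
      rcases cl_or a b (i + 1) with ⟨e1, e2⟩ | ⟨e1, e2⟩ <;> rw [e1] <;> rw [e2] at h3 <;> grind
  · obtain ⟨k, hk, e'⟩ := stuck hi hz e i
    exact h2 k (by omega) (e'.symm.trans h1)

theorem two_ends (hi : ∀ a v, m a (m a v) = v) (hz : m b z = z) {u v : ℕ}
    (hu : u ∈ comp m a b z) (hv : v ∈ comp m a b z) (hu1 : u ≠ z) (hv1 : v ≠ z)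
    (hu2 : m a u = u ∨ m b u = u) (hv2 : m a v = v ∨ m b v = v) : u = v := by
  obtain ⟨i, h1, h2, h3⟩ := end_idx hi hz hu hu1 hu2
  obtain ⟨j, g1, g2, g3⟩ := end_idx hi hz hv hv1 hv2
  rcases lt_trichotomy i j with h | rfl | h
  exacts [absurd h2 (g3 i h), h1.symm.trans g1, absurd g2 (h3 j h)]

theorem distinct (hi : ∀ a v, m a (m a v) = v) (hz : m b z = z) {L : ℕ}
    (hL : ∀ l < L, wk m a b z (l + 1) ≠ wk m a b z l) :
    ∀ j ≤ L, ∀ i < j, wk m a b z i ≠ wk m a b z j := by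
  intro j
  induction j using Nat.strong_induction_on with
  | _ j ih =>
    intro hj i hij e
    obtain ⟨j, rfl⟩ : ∃ k, j = k + 1 := ⟨j - 1, by omega⟩
    have h1 := wk_back (a := a) (b := b) (z := z) hi j
    rw [← e] at h1
    have h0 := hL j (by omega)
    by_cases hp : (j + 2) % 2 = i % 2
    · have : cl a b (j + 2) = cl a b i := by simp only [cl, hp]
      rw [this] at h1
      have h2 : wk m a b z (i + 1) = wk m a b z j := h1
      rcases lt_trichotomy (i + 1) j with h | h | h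
      · exact ih j (by omega) (by omega) _ h h2
      · omega
      · obtain rfl : i = j := by omega
        exact h0 h2
    · cases i with
      | zero =>
        have : cl a b (j + 2) = b := by simp only [cl]; rw [if_neg hp]
        rw [this] at h1
        apply h0
        rw [← e, ← h1]
        exact hz.symm
      | succ i =>
        have : cl a b (j + 2) = cl a b (i + 2) := by
          have : (j + 2) % 2 = (i + 2) % 2 := by omega
          simp only [cl, this]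
        rw [this, wk_back hi] at h1
        exact ih j (by omega) (by omega) _ (by omega) h1

/-! Missing colours -/

variable {nb : ℕ → Finset ℕ}

theorem miss (hnb : ∀ u v, G.Adj u v → v ∈ nb u) (hc : ∀ u, (nb u).card ≤ Δ) (h : PC G Δ m)
    (v : ℕ) : ∃ c ≤ Δ, m c v = v := by
  by_contra hh
  push Not at hh
  have := Finset.card_le_card_of_injOn (s := Finset.range (Δ + 1)) (t := nb v) (fun c => m c v)
    (fun c hc => hnb _ _ (h.adj c v (hh c (by simpa [Nat.lt_succ_iff] using hc))).1)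
    (fun c hc d _ e => h.inj c d v (hh c (by simpa [Nat.lt_succ_iff] using hc)) e)
  have := hc v
  simp at *
  omega

theorem miss2 (hnb : ∀ u v, G.Adj u v → v ∈ nb u) (hc : ∀ u, (nb u).card ≤ Δ)
    (h : Hole G Δ D m x y) (β : ℕ) : ∃ c ≤ Δ, c ≠ β ∧ m c x = x := by
  by_contra hh
  push Not at hh
  have hm : ∀ c ∈ (Finset.range (Δ + 1)).erase β, m c x ≠ x := fun c hc => by
    simp only [Finset.mem_erase, Finset.mem_range, Nat.lt_succ_iff] at hc
    exact hh c hc.2 hc.1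
  have := Finset.card_le_card_of_injOn (s := (Finset.range (Δ + 1)).erase β)
    (t := (nb x).erase y) (fun c => m c x)
    (fun c hc => Finset.mem_coe.2 (Finset.mem_erase.2
      ⟨h.unc c, hnb _ _ (h.pc.adj c x (hm c hc)).1⟩))
    (fun c hc d _ e => h.pc.inj c d x (hm c hc) e)
  have h1 := Finset.pred_card_le_card_erase (s := Finset.range (Δ + 1)) (a := β)
  have h2 := Finset.card_erase_add_one (hnb _ _ h.adj)
  have := hc x
  simp at *
  omega

/-! The fan -/

def Loc (G : SimpleGraph ℕ) (m n : ℕ → ℕ → ℕ) (x : ℕ) : Prop :=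
  ∀ c v, v ≠ x → ¬ G.Adj x v → n c v = m c v

def FanOut (G : SimpleGraph ℕ) (Δ : ℕ) (D : ℕ → ℕ → Prop) (m : ℕ → ℕ → ℕ) (x y α β : ℕ) : Prop :=
  (∃ n, Full G Δ D n ∧ Loc G m n x) ∨
  ∃ n z a b, Hole G Δ D n x z ∧ Loc G m n x ∧ a ≤ Δ ∧ b ≤ Δ ∧ n a x = x ∧ m b z = z ∧ n b z = z ∧
    ((a = α ∧ b = β ∧ z ≠ y ∧ n α = m α ∧ n β = m β) ∨
      (a ≠ α ∧ a ≠ β ∧ b ≠ α ∧ b ≠ β ∧ x ∉ comp m a b z ∧
        ∀ v ∈ comp m a b z, n a v = m a v ∧ n b v = m b v))

structure FS (G : SimpleGraph ℕ) (Δ : ℕ) (D : ℕ → ℕ → Prop) (m : ℕ → ℕ → ℕ) (x y α β γ : ℕ)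
    (U : Finset ℕ) (n : ℕ → ℕ → ℕ) (z : ℕ) : Prop where
  hole : Hole G Δ D n x z
  loc : Loc G m n x
  off : ∀ c ∉ U, n c = m c
  sub : ∀ c ∈ U, c ≤ Δ ∧ c ≠ α ∧ c ≠ β ∧ c ≠ γ
  mx : ∀ c, m c x = x ↔ n c x = x
  mv : ∀ c v, m c v = v → n c v = v ∨ n c x = v
  hist : ∀ c ∈ U, ∃ n', Hole G Δ D n' x (n c x) ∧ Loc G m n' x ∧ n' c = m c ∧ n' γ = m γ ∧
    m c (n c x) = n c x ∧ ∀ v, v ≠ x → v ≠ n c x → v ≠ m c x → n c v = m c v

theorem fan_aux (hnb : ∀ u v, G.Adj u v → v ∈ nb u) (hc : ∀ u, (nb u).card ≤ Δ)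
    (h : Hole G Δ D m x y) {α β γ : ℕ} (hα : α ≤ Δ) (hγ : γ ≤ Δ) (hx : m α x = x)
    (hx' : m γ x = x) (h1 : γ ≠ α) (h2 : γ ≠ β) (k : ℕ) :
    ∀ U n z, FS G Δ D m x y α β γ U n z → Δ + 1 ≤ U.card + k → FanOut G Δ D m x y α β := by
  have hi := h.pc.inv
  induction k with
  | zero =>
    intro U n z s hk
    exfalso
    have h3 : U ⊆ (Finset.range (Δ + 1)).erase γ := fun c hc => by
      have := s.sub c hc
      simp only [Finset.mem_erase, Finset.mem_range]
      omega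
    have := Finset.card_le_card h3
    rw [Finset.card_erase_of_mem (by simp; omega)] at this
    simp at this
    omega
  | succ k ih =>
    intro U n z s hk
    obtain ⟨δ, hδ, hz, hzy⟩ : ∃ δ ≤ Δ, m δ z = z ∧ (z = y → δ ≠ β) := by
      by_cases e : z = y
      · obtain ⟨c, g1, g2, g3⟩ := miss2 hnb hc h.symm β
        exact ⟨c, g1, e ▸ g3, fun _ => g2⟩
      · obtain ⟨c, g1, g2⟩ := miss hnb hc h.pc z
        exact ⟨c, g1, g2, fun e' => absurd e' e⟩
    have hz' : n δ z = z := (s.mv δ z hz).resolve_right (s.hole.unc δ)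
    have hxz := s.hole.adj.ne
    by_cases hδx : m δ x = x
    · refine Or.inl ⟨_, s.hole.add hδ ((s.mx δ).1 hδx) hz', fun c v g1 g2 => ?_⟩
      have : v ≠ z := fun e => g2 (e ▸ s.hole.adj)
      simp [add, g1, this, s.loc c v g1 g2]
    have hδα : δ ≠ α := fun e => hδx (e ▸ hx)
    have hδγ : δ ≠ γ := fun e => hδx (e ▸ hx')
    have hγU : γ ∉ U := fun e => (s.sub γ e).2.2.2 rfl
    by_cases hδβ : δ = β
    · subst hδβ
      exact Or.inr ⟨n, z, α, δ, s.hole, s.loc, hα, hδ, (s.mx α).1 hx, hz, hz',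
        Or.inl ⟨rfl, rfl, fun e => hzy e rfl, s.off α fun e => (s.sub α e).2.1 rfl,
          s.off δ fun e => (s.sub δ e).2.2.1 rfl⟩⟩
    by_cases hU : δ ∈ U
    · obtain ⟨n', g1, g2, g3, g4, g5, g6⟩ := s.hist δ hU
      have g7 : n δ x ≠ z := s.hole.unc δ
      have g8 : n δ x ≠ x := mt (s.mx δ).2 hδx
      generalize n δ x = z' at *
      by_cases hxc : x ∈ comp m γ δ z'
      · have hcl := comp_closed (a := γ) hi hz
        have hxj : x ∉ comp m γ δ z := fun e => by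
          obtain ⟨l, -, hl⟩ := hxc
          have : z' ∈ comp m γ δ z := hcl.bwd hi l (hl ▸ e)
          exact g8 (two_ends hi hz this e g7 hxz (Or.inr g5) (Or.inl hx'))
        refine Or.inr ⟨n, z, γ, δ, s.hole, s.loc, hγ, hδ, (s.mx γ).1 hx', hz, hz',
          Or.inr ⟨h1, h2, hδα, hδβ, hxj, fun v hv => ⟨by rw [s.off γ hγU], g6 v ?_ ?_ ?_⟩⟩⟩
        · rintro rfl; exact hxj hv
        · rintro rfl
          obtain ⟨l, -, hl⟩ := hxc
          exact hxj (hl ▸ hcl.fwd hv l)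
        · rintro rfl
          exact hxj (by simpa [hi] using (hcl _ hv).2)
      · exact Or.inr ⟨n', z', γ, δ, g1, g2, hγ, hδ, by rw [g4, hx'], g5, by rw [g3, g5],
          Or.inr ⟨h1, h2, hδα, hδβ, hxc, fun v _ => ⟨by rw [g4], by rw [g3]⟩⟩⟩
    · have e0 := s.off δ hU
      have hδn : n δ x ≠ x := by rwa [e0]
      have hadj := (s.hole.pc.adj δ x hδn).1
      refine ih (insert δ U) (shift n δ x z) (n δ x) ⟨s.hole.shift hδn hz', ?_, ?_, ?_, ?_, ?_, ?_⟩
        (by rw [Finset.card_insert_of_notMem hU]; omega)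
      · intro c v g1 g2
        have g3 : v ≠ z := fun e => g2 (e ▸ s.hole.adj)
        have g4 : v ≠ n δ x := fun e => g2 (e ▸ hadj)
        simp [shift, g1, g3, g4, s.loc c v g1 g2]
      · intro c g
        rw [Finset.mem_insert, not_or] at g
        funext v
        simp [shift, g.1, s.off c g.2]
      · intro c g
        rcases Finset.mem_insert.1 g with rfl | g
        exacts [⟨hδ, hδα, hδβ, hδγ⟩, s.sub c g]
      · intro c
        have := s.mx c
        unfold shift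
        grind
      · intro c v g
        have := s.mv c v g
        unfold shift
        grind
      · intro c g
        by_cases e : c = δ
        · subst e
          have : shift n c x z c x = z := by simp [shift]
          rw [this]
          refine ⟨n, s.hole, s.loc, e0, s.off γ hγU, hz, fun v g1 g2 g3 => ?_⟩
          simp [shift, g1, g2, g3, e0]
        · have : shift n δ x z c = n c := by funext v; simp [shift, e]
          rw [this]
          exact s.hist c ((Finset.mem_insert.1 g).resolve_left e)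

theorem fan (hnb : ∀ u v, G.Adj u v → v ∈ nb u) (hc : ∀ u, (nb u).card ≤ Δ)
    (h : Hole G Δ D m x y) {α β : ℕ} (hα : α ≤ Δ) (hx : m α x = x) (hy : m β y = y) :
    FanOut G Δ D m x y α β := by
  obtain ⟨γ, g1, g2, g3⟩ := miss2 hnb hc h α
  by_cases e : γ = β
  · subst e
    refine Or.inl ⟨_, h.add g1 g3 hy, fun c v g1 g2 => ?_⟩
    have : v ≠ y := fun e => g2 (e ▸ h.adj)
    simp [add, g1, this]
  · refine fan_aux hnb hc h hα g1 hx g3 g2 e (Δ + 1) ∅ m y
      ⟨h, fun _ _ _ _ => rfl, fun _ _ => rfl, by simp, fun _ => Iff.rfl, fun _ _ => Or.inl,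
        by simp⟩ (by simp)

end Pool.Agent.Lib.H8.Viz
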