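import Pool.Agent.Lib.H8.Viz

/-!
Two-step Vizing chains: an uncoloured edge far from a finite vertex set `S` can be coloured without
recolouring any edge at `S`.
-/

namespace Pool.Agent.Lib.H8.Viz

variable {G : SimpleGraph ℕ} {Δ : ℕ} {D : ℕ → ℕ → Prop} {m : ℕ → ℕ → ℕ} {x y : ℕ}
  {nb : ℕ → Finset ℕ} {a b z : ℕ}

theorem comp_congr {n : ℕ → ℕ → ℕ} (h : ∀ v ∈ comp m a b z, n a v = m a v ∧ n b v = m b v) :
    comp n a b z = comp m a b z := by
  have : ∀ l, wk n a b z l = wk m a b z l := by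
    intro l
    induction l with
    | zero => rfl
    | succ l ih =>
      simp only [wk, ih]
      rcases cl_or a b l with ⟨e1, -⟩ | ⟨e1, -⟩ <;> rw [e1]
      exacts [(h _ (mem_comp l)).1, (h _ (mem_comp l)).2]
  unfold comp
  simp only [this]

theorem start (hnb : ∀ u v, G.Adj u v → v ∈ nb u) (hc : ∀ u, (nb u).card ≤ Δ)
    (h : Hole G Δ D m x y) : (∃ n, Full G Δ D n ∧ Loc G m n x) ∨
      ∃ n z a b, Hole G Δ D n x z ∧ Loc G m n x ∧ a ≤ Δ ∧ b ≤ Δ ∧ n a x = x ∧ n b z = z ∧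
        x ∉ comp n a b z := by
  have hi := h.pc.inv
  obtain ⟨α, hα, hx⟩ := miss hnb hc h.pc x
  obtain ⟨β, hβ, hy⟩ := miss hnb hc h.pc y
  by_cases e : x ∈ comp m α β y
  swap
  · exact Or.inr ⟨m, y, α, β, h, fun _ _ _ _ => rfl, hα, hβ, hx, hy, e⟩
  rcases fan hnb hc h hα hx hy with g | ⟨n, z, a, b, g1, g2, g3, g4, g5, g6, g7, g8⟩
  · exact Or.inl g
  refine Or.inr ⟨n, z, a, b, g1, g2, g3, g4, g5, g7, ?_⟩
  rcases g8 with ⟨rfl, rfl, k1, k2, k3⟩ | ⟨-, -, -, -, k1, k2⟩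
  · rw [comp_congr (m := m) fun v _ => ⟨by rw [k2], by rw [k3]⟩]
    intro e'
    obtain ⟨l, -, hl⟩ := e
    have : y ∈ comp m a b z := (comp_closed hi g6).bwd hi l (hl ▸ e')
    exact h.adj.ne (two_ends hi g6 e' this g1.adj.ne k1.symm (Or.inl hx) (Or.inr hy))
  · rwa [comp_congr k2]

def pv (m : ℕ → ℕ → ℕ) (a b z x : ℕ) : ℕ → ℕ
  | 0 => x
  | i + 1 => wk m a b z i

structure CS (G : SimpleGraph ℕ) (Δ : ℕ) (D : ℕ → ℕ → Prop) (m : ℕ → ℕ → ℕ) (a b z x i : ℕ)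
    (n : ℕ → ℕ → ℕ) : Prop where
  hole : Hole G Δ D n (pv m a b z x i) (wk m a b z i)
  off : ∀ c, c ≠ a → c ≠ b → n c = m c
  out : ∀ c v, v ≠ x → (∀ k ≤ i, v ≠ wk m a b z k) → n c v = m c v
  nxt : n (cl a b i) (wk m a b z i) = wk m a b z (i + 1)
  mp : n (cl a b i) (pv m a b z x i) = pv m a b z x i
  my : n (cl a b (i + 1)) (wk m a b z i) = wk m a b z i
  mis : ∀ c v, n c v = v → m c v = v ∨ (v = pv m a b z x i ∧ c = cl a b i) ∨
    (v = wk m a b z i ∧ c = cl a b (i + 1))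

theorem chain (h : Hole G Δ D m x z) (hx : m a x = x) (hz : m b z = z) (hxc : x ∉ comp m a b z)
    {L : ℕ} (hL : ∀ l < L, wk m a b z (l + 1) ≠ wk m a b z l) :
    ∀ i ≤ L, ∃ n, CS G Δ D m a b z x i n := by
  intro i
  induction i with
  | zero =>
    exact fun _ => ⟨m, h, fun _ _ _ => rfl, fun _ _ _ _ => rfl, rfl, hx, hz, fun _ _ => Or.inl⟩
  | succ i ih =>
    intro hi
    obtain ⟨n, s⟩ := ih (by omega)
    have hab : a ≠ b := by
      rintro rfl
      exact hL 0 (by omega) hz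
    have hcl : cl a b (i + 1) ≠ cl a b i := by
      rcases cl_or a b i with ⟨e1, e2⟩ | ⟨e1, e2⟩ <;> rw [e1, e2]
      exacts [hab.symm, hab]
    have h0 := hL i (by omega)
    have hn := s.nxt
    have hu := s.hole.symm.unc (cl a b i)
    have hne := s.hole.adj.ne
    have sh := s.hole.symm.shift (a := cl a b i) (by rwa [hn]) s.mp
    rw [hn] at sh
    refine ⟨_, sh, fun c g1 g2 => ?_, fun c v g1 g2 => ?_, ?_, ?_, ?_, fun c v g => ?_⟩
    · have : c ≠ cl a b i := by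
        rcases cl_or a b i with ⟨e1, -⟩ | ⟨e1, -⟩ <;> rwa [e1]
      funext v
      simp [shift, this, s.off c g1 g2]
    · have g3 : v ≠ pv m a b z x i := by
        cases i with
        | zero => exact g1
        | succ i => exact g2 i (by omega)
      have g4 := g2 i (by omega)
      have g5 := g2 (i + 1) le_rfl
      simp [shift, g3, g4, g5, hn, s.out c v g1 fun k hk => g2 k (by omega)]
    · have := s.out (cl a b (i + 1)) (wk m a b z (i + 1)) (fun e => hxc (e ▸ mem_comp _))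
        fun k hk => (distinct h.pc.inv hz hL (i + 1) hi k (by omega)).symm
      simp only [shift, hcl, false_and, if_false, this]
      rfl
    · simp only [shift, hcl, false_and, if_false]
      exact s.my
    · rw [cl_two]
      unfold shift
      grind
    · have := s.mis c v
      rw [cl_two]
      simp only [pv]
      unfold shift at g
      grind

theorem ends_le (hi : ∀ a v, m a (m a v) = v) (v a b : ℕ) :
    ∃ T : Finset ℕ, T.card ≤ 2 ∧ ∀ z, m b z = z → v ∈ comp m a b z → z ∈ T := by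
  by_cases h1 : ∃ z, m b z = z ∧ v ∈ comp m a b z
  swap
  · exact ⟨∅, by simp, fun z g1 g2 => absurd ⟨z, g1, g2⟩ h1⟩
  obtain ⟨z1, g1, g2⟩ := h1
  have key : ∀ z, v ∈ comp m a b z → z ∈ comp m a b z1 := by
    rintro z ⟨l, -, hl⟩
    exact (comp_closed hi g1).bwd hi l (hl ▸ g2)
  by_cases h2 : ∃ z, m b z = z ∧ v ∈ comp m a b z ∧ z ≠ z1
  swap
  · refine ⟨{z1}, by simp, fun z k1 k2 => ?_⟩
    by_contra e
    exact h2 ⟨z, k1, k2, by simpa using e⟩
  obtain ⟨z2, g3, g4, g5⟩ := h2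
  refine ⟨{z1, z2}, Finset.card_le_two, fun z k1 k2 => ?_⟩
  by_cases e : z = z1
  · simp [e]
  · simp [two_ends hi g1 (key z k2) (key z2 g4) e g5 (Or.inr k1) (Or.inr g3)]

def Len (Δ K : ℕ) : ℕ := (K + (K + 2) * ((Δ + 1) * (Δ + 1)) * 2) * Δ + 1

theorem far (hnb : ∀ u v, G.Adj u v → v ∈ nb u) (hc : ∀ u, (nb u).card ≤ Δ) (S : Finset ℕ)
    (h : Hole G Δ D m x z) (ha : a ≤ Δ) (hb : b ≤ Δ) (hx : m a x = x) (hz : m b z = z)
    (hxc : x ∉ comp m a b z) (hxS : x ∉ S) (hS : ∀ k ≤ Len Δ S.card, wk m a b z k ∉ S) :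
    ∃ n, Full G Δ D n ∧ ∀ c, ∀ v ∈ S, n c v = m c v := by
  classical
  have hi := h.pc.inv
  by_cases hL : ∀ l < Len Δ S.card, wk m a b z (l + 1) ≠ wk m a b z l
  swap
  · push Not at hL
    obtain ⟨l, hl, e⟩ := hL
    obtain ⟨n, g1, g2⟩ := finish h ha hb hx hz (comp_closed hi hz) (mem_comp 0) hxc
    refine ⟨n, g1, fun c v hv => g2 c v ?_ fun e => hxS (e ▸ hv)⟩
    rintro ⟨j, -, rfl⟩
    obtain ⟨k, hk, e'⟩ := stuck hi hz e j
    exact hS k (by omega) (e' ▸ hv)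
  choose T hT1 hT2 using ends_le hi
  set S' : Finset ℕ := insert x (insert z S) with hS'
  set I := S' ×ˢ (Finset.range (Δ + 1) ×ˢ Finset.range (Δ + 1)) with hI
  set B := S ∪ I.biUnion fun q => T q.1 q.2.1 q.2.2 with hB
  have c1 : S'.card ≤ S.card + 2 :=
    (Finset.card_insert_le _ _).trans (by have := Finset.card_insert_le z S; omega)
  have c2 : I.card ≤ (S.card + 2) * ((Δ + 1) * (Δ + 1)) := by
    simp only [hI, Finset.card_product, Finset.card_range]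
    exact Nat.mul_le_mul_right _ c1
  have c3 : B.card ≤ S.card + (S.card + 2) * ((Δ + 1) * (Δ + 1)) * 2 :=
    (Finset.card_union_le _ _).trans (Nat.add_le_add_left
      ((Finset.card_biUnion_le_card_mul _ _ 2 fun q _ => hT1 _ _ _).trans
        (Nat.mul_le_mul_right _ c2)) _)
  have c4 : (B.biUnion nb).card < Len Δ S.card :=
    Nat.lt_succ_of_le ((Finset.card_biUnion_le_card_mul _ _ Δ fun q _ => hc _).trans
      (Nat.mul_le_mul_right _ c3))
  obtain ⟨i, hi1, hi2⟩ : ∃ i < Len Δ S.card, wk m a b z i ∉ B.biUnion nb := by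
    by_contra hh
    push Not at hh
    have := Finset.card_le_card_of_injOn (s := Finset.range (Len Δ S.card)) (t := B.biUnion nb)
      (wk m a b z) (fun i hi => hh i (by simpa using hi)) (fun i hi' j hj e => by
        simp only [Finset.coe_range, Set.mem_Iio] at hi' hj
        rcases lt_trichotomy i j with g | g | g
        · exact absurd e (distinct hi hz hL j hj.le i g)
        · exact g
        · exact absurd e.symm (distinct hi hz hL i hi'.le j g))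
    simp at this
    omega
  have hnB : ∀ v, G.Adj (wk m a b z i) v → v ∉ B := fun v hv e =>
    hi2 (Finset.mem_biUnion.2 ⟨v, e, hnb _ _ hv.symm⟩)
  have hcomp : ∀ v a' b', a' ≤ Δ → b' ≤ Δ → G.Adj (wk m a b z i) v → m b' v = v →
      ∀ u ∈ S', u ∉ comp m a' b' v := fun v a' b' g1 g2 g3 g4 u hu e =>
    hnB v g3 (Finset.mem_union_right _ (Finset.mem_biUnion.2 ⟨(u, a', b'), by
      simp only [hI, Finset.mem_product, Finset.mem_range]
      exact ⟨hu, by omega, by omega⟩, hT2 u a' b' v g4 e⟩))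
  obtain ⟨n, s⟩ := chain h hx hz hxc hL (i + 1) hi1
  have hn : ∀ c, ∀ v ∈ S, n c v = m c v := fun c v hv =>
    s.out c v (fun e => hxS (e ▸ hv)) fun k hk e => hS k (by omega) (e ▸ hv)
  have hloc : ∀ n', Loc G n n' (wk m a b z i) → ∀ c, ∀ v ∈ S, n' c v = m c v := by
    intro n' g c v hv
    rw [g c v (fun e => hS i hi1.le (e ▸ hv)) fun e => hnB v e (Finset.mem_union_left _ hv)]
    exact hn c v hv
  have hcl : ∀ j, cl a b j ≤ Δ := fun j => by
    rcases cl_or a b j with ⟨e1, -⟩ | ⟨e1, -⟩ <;> rwa [e1]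
  have hSS : ∀ v ∈ S, v ∈ S' := fun v hv => by simp [hS', hv]
  rcases fan hnb hc s.hole (hcl _) s.mp s.my with ⟨n', g1, g2⟩ |
    ⟨n', v, a', b', g1, g2, g3, g4, g5, g6, g7, g8⟩
  · exact ⟨n', g1, hloc n' g2⟩
  simp only [pv] at g1 g2 g5 g8
  suffices H : m b' v = v ∧ wk m a b z i ∉ comp m a' b' v ∧
      ∀ u ∈ comp m a' b' v, n' a' u = m a' u ∧ n' b' u = m b' u by
    obtain ⟨H1, H2, H3⟩ := H
    have hcc : Closed n' a' b' (comp m a' b' v) := fun u hu => by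
      rw [(H3 u hu).1, (H3 u hu).2]
      exact comp_closed hi H1 u hu
    obtain ⟨n'', k1, k2⟩ := finish g1 g3 g4 g5 g7 hcc (mem_comp 0) H2
    refine ⟨n'', k1, fun c u hu => ?_⟩
    rw [k2 c u (hcomp v a' b' g3 g4 g1.adj H1 u (hSS u hu)) fun e => hS i hi1.le (e ▸ hu)]
    exact hloc n' g2 c u hu
  rcases g8 with ⟨k1, k2, k3, k4, k5⟩ | ⟨k1, k2, k3, k4, k5, k6⟩
  · have H1 : m b' v = v := by
      rcases s.mis b' v g6 with e | ⟨e, -⟩ | ⟨e, -⟩
      exacts [e, absurd e.symm g1.adj.ne, absurd e k3]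
    have hc' := hcomp v a' b' g3 g4 g1.adj H1
    have hcc : Closed m a b (comp m a' b' v) := by
      have := comp_closed (a := a') hi H1
      generalize comp m a' b' v = C at this
      rcases cl_or a b (i + 1) with ⟨e1, e2⟩ | ⟨e1, e2⟩ <;> rw [k1, k2, e1, e2] at this
      exacts [this, this.symm]
    have hw : ∀ k, wk m a b z k ∉ comp m a' b' v := fun k e =>
      hc' z (by simp [hS']) (hcc.bwd hi k e)
    refine ⟨H1, hw i, fun u hu => ?_⟩
    have := fun c => s.out c u (fun e => hc' x (by simp [hS']) (e ▸ hu)) fun k _ e => hw k (e ▸ hu)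
    rw [k1, k2, k4, k5]
    exact ⟨this _, this _⟩
  · have e1 : n a' = m a' ∧ n b' = m b' := by
      rcases cl_or a b (i + 1) with ⟨e1, e2⟩ | ⟨e1, e2⟩ <;> rw [e1] at k1 k3 <;> rw [e2] at k2 k4
      exacts [⟨s.off _ k1 k2, s.off _ k3 k4⟩, ⟨s.off _ k2 k1, s.off _ k4 k3⟩]
    rw [comp_congr (m := m) fun u _ => ⟨by rw [e1.1], by rw [e1.2]⟩, e1.1, e1.2] at k6
    rw [comp_congr (m := m) fun u _ => ⟨by rw [e1.1], by rw [e1.2]⟩] at k5
    exact ⟨by rw [← e1.2]; exact g6, k5, k6⟩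

/-- The key lemma. -/
theorem key (hnb : ∀ u v, G.Adj u v → v ∈ nb u) (hc : ∀ u, (nb u).card ≤ Δ) (S : Finset ℕ)
    (Bl : ℕ → Set ℕ) (h0 : ∀ v ∈ S, v ∈ Bl 0)
    (hs : ∀ r u v, v ∈ Bl r → u = v ∨ G.Adj u v → u ∈ Bl (r + 1))
    (h : Hole G Δ D m x y) (hx : x ∉ Bl (Len Δ S.card + 1)) :
    ∃ n, Full G Δ D n ∧ ∀ c, ∀ v ∈ S, n c v = m c v := by
  have hS : ∀ r, ∀ v ∈ S, v ∈ Bl r := by
    intro r
    induction r with
    | zero => exact h0
    | succ r ih => exact fun v hv => hs r v v (ih v hv) (Or.inl rfl)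
  have hxS : x ∉ S := fun e => hx (hS _ _ e)
  have hN : ∀ v, G.Adj x v → v ∉ Bl (Len Δ S.card) := fun v hv e => hx (hs _ _ _ e (Or.inr hv))
  have hloc : ∀ n, Loc G m n x → ∀ c, ∀ v ∈ S, n c v = m c v := fun n g c v hv =>
    g c v (fun e => hxS (e ▸ hv)) fun e => hN v e (hS _ _ hv)
  rcases start hnb hc h with ⟨n, g1, g2⟩ | ⟨n, z, a, b, g1, g2, g3, g4, g5, g6, g7⟩
  · exact ⟨n, g1, hloc n g2⟩
  have hw : ∀ k r, k + r = Len Δ S.card → wk n a b z k ∉ Bl r := by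
    intro k
    induction k with
    | zero =>
      intro r hr
      rw [zero_add] at hr
      rw [hr]
      exact hN z g1.adj
    | succ k ih =>
      intro r hr e
      refine ih (r + 1) (by omega) (hs _ _ _ e ?_)
      by_cases e' : n (cl a b k) (wk n a b z k) = wk n a b z k
      · exact Or.inl e'.symm
      · exact Or.inr (g1.pc.adj _ _ e').1
  obtain ⟨n', k1, k2⟩ := far hnb hc S g1 g3 g4 g5 g6 g7 hxS fun k hk e =>
    hw k (Len Δ S.card - k) (by omega) (hS _ _ e)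
  exact ⟨n', k1, fun c v hv => (k2 c v hv).trans (hloc n g2 c v hv)⟩

/-- Colour finitely many further edges without touching `S`. -/
theorem extend (hnb : ∀ u v, G.Adj u v → v ∈ nb u) (hc : ∀ u, (nb u).card ≤ Δ) (S : Finset ℕ)
    (Bl : ℕ → Set ℕ) (h0 : ∀ v ∈ S, v ∈ Bl 0)
    (hs : ∀ r u v, v ∈ Bl r → u = v ∨ G.Adj u v → u ∈ Bl (r + 1))
    (h : PC G Δ m) (hf : ∃ N, ∀ c v, N ≤ v → m c v = v)
    (hB : ∀ u ∈ Bl (Len Δ S.card + 1), ∀ v, G.Adj u v → Col m u v) (E : Finset (ℕ × ℕ)) :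
    ∃ n, PC G Δ n ∧ (∃ N, ∀ c v, N ≤ v → n c v = v) ∧ (∀ u v, Col m u v → Col n u v) ∧
      (∀ p ∈ E, G.Adj p.1 p.2 → Col n p.1 p.2) ∧ ∀ c, ∀ v ∈ S, n c v = m c v := by
  classical
  induction E using Finset.induction_on with
  | empty => exact ⟨m, h, hf, fun _ _ => id, by simp, fun _ _ _ => rfl⟩
  | insert p E _ ih =>
    obtain ⟨n, g1, ⟨N, g2⟩, g3, g4, g5⟩ := ih
    by_cases e : G.Adj p.1 p.2 → Col n p.1 p.2
    · refine ⟨n, g1, ⟨N, g2⟩, g3, fun q hq => ?_, g5⟩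
      rcases Finset.mem_insert.1 hq with rfl | hq
      exacts [e, g4 q hq]
    push Not at e
    obtain ⟨n', ⟨k1, k2⟩, k3⟩ := key (m := n) (x := p.1) (y := p.2) hnb hc S Bl h0 hs
      ⟨g1, e.1, fun a ha => e.2 ⟨e.1.ne, a, ha⟩, fun _ _ => Iff.rfl⟩
      fun hh => e.2 (g3 _ _ (hB _ hh _ e.1))
    refine ⟨n', k1, ⟨N + p.1 + p.2 + 1, fun c v hv => ?_⟩,
      fun u v hh => (k2 u v).1 (Or.inl (g3 u v hh)), fun q hq hq' => ?_,
      fun c v hv => (k3 c v hv).trans (g5 c v hv)⟩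
    · by_contra hne
      rcases (k2 v (n' c v)).2 ⟨Ne.symm hne, c, rfl⟩ with ⟨k4, d, k5⟩ | ⟨k4, -⟩ | ⟨k4, -⟩
      · exact k4 (by rw [← k5, g2 d v (by omega)])
      · omega
      · omega
    · rcases Finset.mem_insert.1 hq with rfl | hq
      exacts [(k2 _ _).1 (Or.inr (Or.inl ⟨rfl, rfl⟩)), (k2 _ _).1 (Or.inl (g4 q hq hq'))]

end Pool.Agent.Lib.H8.Viz
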