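import Pool.Agent.Lib.H8.Viz2

/-!
Computable Vizing theorem for highly computable graphs.
-/

namespace Pool.Agent.Lib.H8.Viz

open Primrec

def mm (l : List ℕ) (a v : ℕ) : ℕ := l.getD (Nat.pair a v) v

theorem mm_prim {α} [Primcodable α] {f : α → List ℕ} {g h : α → ℕ} (hf : Primrec f)
    (hg : Primrec g) (hh : Primrec h) : Primrec fun x => mm (f x) (g x) (h x) := by
  have := option_getD.comp (list_getElem?.comp hf (Primrec₂.natPair.comp hg hh)) hh
  exact this.of_eq fun x => by simp [mm]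

theorem all_p {α} [Primcodable α] {L : α → List ℕ} {R : ℕ → α → Prop} (hL : Primrec L)
    (hR : PrimrecPred fun q : ℕ × α => R q.1 q.2) : PrimrecPred fun x => ∀ k ∈ L x, R k x :=
  (PrimrecRel.forall_mem_list (R := R) hR).comp hL Primrec.id

theorem ex_p {α} [Primcodable α] {L : α → List ℕ} {R : ℕ → α → Prop} (hL : Primrec L)
    (hR : PrimrecPred fun q : ℕ × α => R q.1 q.2) : PrimrecPred fun x => ∃ k ∈ L x, R k x :=
  (PrimrecRel.exists_mem_list (R := R) hR).comp hL Primrec.id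

theorem imp_p {α} [Primcodable α] {p q : α → Prop} (hp : PrimrecPred p) (hq : PrimrecPred q) :
    PrimrecPred fun x => p x → q x :=
  (hp.not.or hq).of_eq fun x => by tauto

def Chk (Δ : ℕ) (T : List (List ℕ)) (r : ℕ) (l : List ℕ) : Prop :=
  (∀ a ∈ List.range l.length, ∀ v ∈ List.range l.length, mm l a (mm l a v) = v ∧
    (¬ mm l a v = v → (∃ u ∈ T.getD v [], u = mm l a v) ∧ a ≤ Δ ∧
      ∀ b ∈ List.range (Δ + 1), mm l a v = mm l b v → a = b)) ∧
  ∀ u ∈ List.range r, ∀ v ∈ T.getD u [], ∃ a ∈ List.range (Δ + 1), mm l a u = v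

theorem chk_prim (Δ : ℕ) : PrimrecPred fun q : List (List ℕ) × ℕ × List ℕ =>
    Chk Δ q.1 q.2.1 q.2.2 := by
  have h1 : Primrec fun q : ℕ × ℕ × List (List ℕ) × ℕ × List ℕ => mm q.2.2.2.2 q.2.1 q.1 :=
    mm_prim (snd.comp (snd.comp (snd.comp snd))) (fst.comp snd) fst
  refine PrimrecPred.and ?_ ?_
  · refine all_p (list_range.comp (list_length.comp (snd.comp snd))) ?_
    refine all_p (R := fun v (q : ℕ × List (List ℕ) × ℕ × List ℕ) =>
        mm q.2.2.2 q.1 (mm q.2.2.2 q.1 v) = v ∧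
        (¬ mm q.2.2.2 q.1 v = v → (∃ u ∈ q.2.1.getD v [], u = mm q.2.2.2 q.1 v) ∧ q.1 ≤ Δ ∧
        ∀ b ∈ List.range (Δ + 1), mm q.2.2.2 q.1 v = mm q.2.2.2 b v → q.1 = b))
      (list_range.comp (list_length.comp (snd.comp (snd.comp snd)))) ?_
    refine (Primrec.eq.comp (mm_prim (snd.comp (snd.comp (snd.comp snd))) (fst.comp snd) h1)
      fst).and (imp_p (Primrec.eq.comp h1 fst).not (PrimrecPred.and ?_
        ((nat_le.comp (fst.comp snd) (const Δ)).and ?_)))
    · exact ex_p (R := fun u (q : ℕ × ℕ × List (List ℕ) × ℕ × List ℕ) =>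
          u = mm q.2.2.2.2 q.2.1 q.1) ((list_getD []).comp (fst.comp (snd.comp snd)) fst)
        (Primrec.eq.comp fst (h1.comp snd))
    · exact all_p (R := fun b (q : ℕ × ℕ × List (List ℕ) × ℕ × List ℕ) =>
          mm q.2.2.2.2 q.2.1 q.1 = mm q.2.2.2.2 b q.1 → q.2.1 = b) (const _)
        (imp_p (Primrec.eq.comp (h1.comp snd)
          (mm_prim (snd.comp (snd.comp (snd.comp (snd.comp snd)))) fst (fst.comp snd)))
          (Primrec.eq.comp (fst.comp (snd.comp snd)) fst))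
  · refine all_p (list_range.comp (fst.comp snd)) ?_
    refine all_p (R := fun v (q : ℕ × List (List ℕ) × ℕ × List ℕ) =>
      ∃ a ∈ List.range (Δ + 1), mm q.2.2.2 a q.1 = v) ((list_getD []).comp (fst.comp snd) fst) ?_
    exact ex_p (R := fun a (q : ℕ × ℕ × List (List ℕ) × ℕ × List ℕ) =>
      mm q.2.2.2.2 a q.2.1 = q.1) (const _)
      (Primrec.eq.comp (mm_prim (snd.comp (snd.comp (snd.comp (snd.comp snd)))) fst
        (fst.comp (snd.comp snd))) (fst.comp snd))

def Agr (Δ s : ℕ) (l l' : List ℕ) : Prop :=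
  ∀ a ∈ List.range (Δ + 1), ∀ v ∈ List.range s, mm l' a v = mm l a v

theorem agr_prim (Δ : ℕ) : PrimrecPred fun q : ℕ × List ℕ × List ℕ => Agr Δ q.1 q.2.1 q.2.2 := by
  refine all_p (const _) ?_
  exact all_p (R := fun v (q : ℕ × ℕ × List ℕ × List ℕ) => mm q.2.2.2 q.1 v = mm q.2.2.1 q.1 v)
    (list_range.comp (fst.comp snd))
    (Primrec.eq.comp (mm_prim (snd.comp (snd.comp (snd.comp snd))) (fst.comp snd) fst)
      (mm_prim (fst.comp (snd.comp (snd.comp snd))) (fst.comp snd) fst))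

variable {G : SimpleGraph ℕ} {Δ : ℕ} {nbrs : ℕ → List ℕ}

def Inv (G : SimpleGraph ℕ) (Δ r : ℕ) (l : List ℕ) : Prop :=
  PC G Δ (mm l) ∧ ∀ u < r, ∀ v, G.Adj u v → Col (mm l) u v

def tab (nbrs : ℕ → List ℕ) (n : ℕ) : List (List ℕ) := (List.range n).map nbrs

theorem tab_get {n v : ℕ} (h : v < n) : (tab nbrs n).getD v [] = nbrs v := by
  simp [tab, h]

theorem tab_comp (h : Computable nbrs) : Computable (tab nbrs) := by
  have : Computable fun n : ℕ => (Nat.rec [] (fun k l => l ++ [nbrs k]) n : List (List ℕ)) :=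
    Computable.nat_rec (h := fun _ (q : ℕ × List (List ℕ)) => q.2 ++ [nbrs q.1])
      Computable.id (Computable.const [])
      (Computable.list_concat.comp (Computable.snd.comp Computable.snd)
        (h.comp (Computable.fst.comp Computable.snd)))
  refine this.of_eq fun n => ?_
  induction n with
  | zero => rfl
  | succ n ih => simp only [ih, tab, List.range_succ, List.map_append, List.map_singleton]

theorem mm_big {l : List ℕ} {a v : ℕ} (h : l.length ≤ a ∨ l.length ≤ v) : mm l a v = v := by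
  have := Nat.left_le_pair a v
  have := Nat.right_le_pair a v
  exact List.getD_eq_default _ _ (by omega)

theorem chk_iff (hn : ∀ x y : ℕ, G.Adj x y ↔ y ∈ nbrs x) {r N : ℕ} {l : List ℕ} (h1 : r ≤ N)
    (h2 : l.length ≤ N) : Chk Δ (tab nbrs N) r l ↔ Inv G Δ r l := by
  simp only [Chk, Inv, List.mem_range, Nat.lt_succ_iff, exists_eq_right]
  constructor
  · rintro ⟨g1, g2⟩
    have lt : ∀ a v, mm l a v ≠ v → a < l.length ∧ v < l.length := fun a v e => by
      by_contra hh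
      exact e (mm_big (by omega))
    have k : ∀ a v, mm l a v ≠ v → mm l a v ∈ nbrs v ∧ a ≤ Δ ∧
        ∀ b ≤ Δ, mm l a v = mm l b v → a = b := fun a v e => by
      have := (g1 a (lt a v e).1 v (lt a v e).2).2 e
      rwa [tab_get (by have := (lt a v e).2; omega)] at this
    refine ⟨⟨fun a v => ?_, fun a v e => ⟨(hn _ _).2 (k a v e).1, (k a v e).2.1⟩,
      fun a b v e e' => (k a v e).2.2 b (k b v (e' ▸ e)).2.1 e'⟩, fun u hu v hv => ?_⟩
    · by_cases e : mm l a v = v
      · rw [e, e]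
      · exact (g1 a (lt a v e).1 v (lt a v e).2).1
    · obtain ⟨a, -, ha⟩ := g2 u hu v (by rw [tab_get (by omega)]; exact (hn _ _).1 hv)
      exact ⟨hv.ne, a, ha⟩
  · rintro ⟨g1, g2⟩
    refine ⟨fun a _ v hv => ⟨g1.inv a v, fun e => ⟨?_, (g1.adj a v e).2,
      fun b _ => g1.inj a b v e⟩⟩, fun u hu v hv => ?_⟩
    · rw [tab_get (by omega)]
      exact (hn _ _).1 (g1.adj a v e).1
    · rw [tab_get (by omega)] at hv
      obtain ⟨k1, a, k2⟩ := g2 u hu v ((hn _ _).2 hv)
      exact ⟨a, (g1.adj a u (by rw [k2]; exact k1.symm)).2, k2⟩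

theorem exists_mm {n : ℕ → ℕ → ℕ} (h : PC G Δ n) (hf : ∃ N, ∀ c v, N ≤ v → n c v = v) :
    ∃ l, mm l = n := by
  obtain ⟨N, hN⟩ := hf
  refine ⟨(List.range (Nat.pair (Δ + N) (Δ + N) + 1)).map fun k => n k.unpair.1 k.unpair.2, ?_⟩
  funext a v
  by_cases e : Nat.pair a v < Nat.pair (Δ + N) (Δ + N) + 1
  · simp [mm, e]
  · rw [mm, List.getD_eq_default _ _ (by simpa using e)]
    by_contra hne
    have h1 := (h.adj a v (Ne.symm hne)).2
    have h2 : v < N := by
      by_contra hh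
      exact hne (hN a v (by omega)).symm
    have h3 := Nat.pair_lt_max_add_one_sq a v
    have h4 : Nat.pair (Δ + N) (Δ + N) = (Δ + N) * (Δ + N) + (Δ + N) + (Δ + N) := by
      simp [Nat.pair]
    have h5 : (max a v + 1) ^ 2 ≤ (Δ + N + 1) ^ 2 := Nat.pow_le_pow_left (by omega) 2
    apply e
    rw [h4]
    nlinarith

def grow (nbrs : ℕ → List ℕ) (n : ℕ) : ℕ := n + 1 + (tab nbrs n).flatten.sum

theorem grow_comp (h : Computable nbrs) : Computable (grow nbrs) := by
  have : Primrec fun l : List ℕ => l.sum :=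
    (list_foldr Primrec.id (const 0) (nat_add.comp (fst.comp snd) (snd.comp snd)).to₂).of_eq
      fun l => by simp [List.sum_eq_foldr]
  exact nat_add.to_comp.comp Computable.succ
    ((this.comp list_flatten).to_comp.comp (tab_comp h))

theorem lt_grow {n u v : ℕ} (hv : v < n) (hu : u ∈ nbrs v) : u < grow nbrs n := by
  have : u ≤ (tab nbrs n).flatten.sum := List.le_sum_of_mem (by
    simp only [tab, List.mem_flatten, List.mem_map, List.mem_range]
    exact ⟨_, ⟨v, hv, rfl⟩, hu⟩)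
  unfold grow
  omega

def rad (nbrs : ℕ → List ℕ) (Δ s : ℕ) : ℕ := (grow nbrs)^[Len Δ s + 1] s

theorem rad_comp (h : Computable nbrs) : Computable (rad nbrs Δ) := by
  have hl : Primrec fun s => Len Δ s + 1 := by
    unfold Len
    exact succ.comp (succ.comp (nat_mul.comp (nat_add.comp Primrec.id (nat_mul.comp
      (nat_mul.comp (nat_add.comp Primrec.id (const 2)) (const _)) (const 2))) (const _)))
  have : Computable fun s : ℕ => (Nat.rec s (fun _ p => grow nbrs p) (Len Δ s + 1) : ℕ) :=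
    Computable.nat_rec (h := fun _ (q : ℕ × ℕ) => grow nbrs q.2) hl.to_comp Computable.id
      ((grow_comp h).comp (Computable.snd.comp Computable.snd))
  refine this.of_eq fun s => ?_
  unfold rad
  generalize Len Δ s + 1 = k
  induction k with
  | zero => rfl
  | succ k ih => rw [Function.iterate_succ_apply', ← ih]

theorem le_rad (s : ℕ) : s ≤ rad nbrs Δ s :=
  Function.id_le_iterate_of_id_le (fun n => by simp only [id, grow]; omega) _ s

theorem step (hn : ∀ x y : ℕ, G.Adj x y ↔ y ∈ nbrs x)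
    (hd : ∀ (x : ℕ) (s : Finset ℕ), (∀ y ∈ s, G.Adj x y) → s.card ≤ Δ) :
    (∀ r, ∃ l, Inv G Δ r l) ∧ ∀ s l r, Inv G Δ (rad nbrs Δ s) l → ∃ l', Inv G Δ r l' ∧
      Agr Δ s l l' := by
  have hnb : ∀ u v, G.Adj u v → v ∈ (nbrs u).toFinset := fun u v h => by simpa using (hn _ _).1 h
  have hc : ∀ u, (nbrs u).toFinset.card ≤ Δ := fun u => hd u _ fun y hy =>
    (hn _ _).2 (by simpa using hy)
  have hE : ∀ r u, u < r → ∀ v, G.Adj u v →
      (u, v) ∈ Finset.range r ×ˢ Finset.range (grow nbrs r) := fun r u hu v hv => by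
    simp only [Finset.mem_product, Finset.mem_range]
    exact ⟨hu, lt_grow hu ((hn _ _).1 hv)⟩
  constructor
  · intro r
    obtain ⟨n, g1, g2, -, g4, -⟩ := extend (G := G) (Δ := Δ) (m := fun _ v => v) hnb hc ∅
      (fun _ => ∅) (by simp) (by simp)
      ⟨fun _ _ => rfl, fun _ _ h => absurd rfl h, fun _ _ _ h => absurd rfl h⟩
      ⟨0, fun _ _ _ => rfl⟩ (by simp) (Finset.range r ×ˢ Finset.range (grow nbrs r))
    obtain ⟨l, rfl⟩ := exists_mm g1 g2
    exact ⟨l, g1, fun u hu v hv => g4 _ (hE r u hu v hv) hv⟩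
  · intro s l r h
    obtain ⟨n, g1, g2, -, g4, g5⟩ := extend (m := mm l) hnb hc (Finset.range s)
      (fun k => {v | v < (grow nbrs)^[k] s}) (by simp) (by
        intro k u v h1 h2
        simp only [Set.mem_ofPred_eq, Function.iterate_succ_apply'] at h1 ⊢
        rcases h2 with rfl | h2
        · unfold grow at *; omega
        · exact lt_grow h1 ((hn _ _).1 h2.symm))
      h.1 ⟨l.length, fun c v hv => mm_big (Or.inr hv)⟩ (by
        rw [Finset.card_range]
        exact h.2) (Finset.range r ×ˢ Finset.range (grow nbrs r))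
    obtain ⟨l', rfl⟩ := exists_mm g1 g2
    exact ⟨l', ⟨g1, fun u hu v hv => g4 _ (hE r u hu v hv) hv⟩,
      fun a _ v hv => g5 a v (by simpa using hv)⟩

theorem cp {α β} [Primcodable α] [Primcodable β] {p : β → Prop} {f : α → β}
    (hp : PrimrecPred p) (hf : Computable f) : ComputablePred fun x => p (f x) := by
  classical
  exact (hp.computablePred.decide.comp hf).computablePred

theorem seq (hc : Computable nbrs) (hn : ∀ x y : ℕ, G.Adj x y ↔ y ∈ nbrs x)
    (hd : ∀ (x : ℕ) (s : Finset ℕ), (∀ y ∈ s, G.Adj x y) → s.card ≤ Δ) :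
    ∃ A : ℕ → List ℕ, Computable A ∧ ∀ s, Inv G Δ s (A s) ∧ Agr Δ s (A s) (A (s + 1)) := by
  classical
  obtain ⟨h0, h1⟩ := step hn hd
  obtain ⟨l0, hl0⟩ := h0 (rad nbrs Δ 0)
  let dec : ℕ → List ℕ := Denumerable.ofNat (List ℕ)
  have hdec : Primrec dec := Primrec.ofNat _
  let P : ℕ × List ℕ → ℕ → Prop := fun p n => Inv G Δ (rad nbrs Δ p.1) p.2 →
    Inv G Δ (rad nbrs Δ (p.1 + 1)) (dec n) ∧ Agr Δ p.1 p.2 (dec n)
  have hP : ComputablePred fun q : (ℕ × List ℕ) × ℕ => P q.1 q.2 := by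
    have hQ : PrimrecPred fun q : (List (List ℕ) × ℕ × List ℕ) × (List (List ℕ) × ℕ × List ℕ) ×
        ℕ × List ℕ × List ℕ => Chk Δ q.1.1 q.1.2.1 q.1.2.2 →
          Chk Δ q.2.1.1 q.2.1.2.1 q.2.1.2.2 ∧ Agr Δ q.2.2.1 q.2.2.2.1 q.2.2.2.2 :=
      imp_p ((chk_prim Δ).comp fst)
        (((chk_prim Δ).comp (fst.comp snd)).and ((agr_prim Δ).comp (snd.comp snd)))
    have t : Computable fun q : ℕ × List ℕ =>
        (tab nbrs (rad nbrs Δ q.1 + q.2.length), rad nbrs Δ q.1, q.2) :=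
      ((tab_comp hc).comp (nat_add.to_comp.comp ((rad_comp hc).comp Computable.fst)
        (list_length.comp snd).to_comp)).pair
        (((rad_comp hc).comp Computable.fst).pair Computable.snd)
    have t2 : Primrec fun q : (ℕ × List ℕ) × ℕ => (q.1.1 + 1, dec q.2) :=
      (succ.comp (fst.comp fst)).pair (hdec.comp snd)
    have t3 : Primrec fun q : (ℕ × List ℕ) × ℕ => (q.1.1, q.1.2, dec q.2) :=
      (fst.comp fst).pair ((snd.comp fst).pair (hdec.comp snd))
    refine (cp hQ ((t.comp Computable.fst).pair ((t.comp t2.to_comp).pair t3.to_comp))).of_eq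
      fun q => ?_
    dsimp only
    rw [chk_iff hn (by omega) (by omega), chk_iff hn (by omega) (by omega)]
  have hex : ∀ p, ∃ n, P p n := by
    intro p
    by_cases hg : Inv G Δ (rad nbrs Δ p.1) p.2
    · obtain ⟨l', g⟩ := h1 _ _ (rad nbrs Δ (p.1 + 1)) hg
      refine ⟨Encodable.encode l', fun _ => ?_⟩
      simpa only [dec, Denumerable.ofNat_encode] using g
    · exact ⟨0, fun h => absurd h hg⟩
  have hF : Computable fun p => dec (Nat.find (hex p)) :=
    hdec.to_comp.comp (Computable.find hP hex)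
  let A : ℕ → List ℕ := fun t => Nat.rec l0 (fun k p => dec (Nat.find (hex (k, p)))) t
  have hA : Computable A :=
    Computable.nat_rec (h := fun _ (q : ℕ × List ℕ) => dec (Nat.find (hex q)))
      Computable.id (Computable.const l0) (hF.comp Computable.snd)
  have hG : ∀ t, Inv G Δ (rad nbrs Δ t) (A t) := by
    intro t
    induction t with
    | zero => exact hl0
    | succ t ih => exact (Nat.find_spec (hex (t, A t)) ih).1
  exact ⟨A, hA, fun t => ⟨⟨(hG t).1, fun u hu => (hG t).2 u (hu.trans_le (le_rad t))⟩,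
    (Nat.find_spec (hex (t, A t)) (hG t)).2⟩⟩

theorem main (hc : Computable nbrs) (hn : ∀ x y : ℕ, G.Adj x y ↔ y ∈ nbrs x)
    (hd : ∀ (x : ℕ) (s : Finset ℕ), (∀ y ∈ s, G.Adj x y) → s.card ≤ Δ) :
    ∃ c : ℕ → ℕ → ℕ, Computable₂ c ∧
      (∀ x y : ℕ, G.Adj x y → c x y = c y x ∧ c x y ≤ Δ) ∧
      ∀ x y z : ℕ, G.Adj x y → G.Adj x z → y ≠ z → c x y ≠ c x z := by
  classical
  obtain ⟨A, hA, h⟩ := seq hc hn hd
  have hex : ∀ p : ℕ × ℕ, ∃ a, mm (A (p.1 + 1)) a p.1 = p.2 ∨ a = Δ + 1 :=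
    fun p => ⟨_, Or.inr rfl⟩
  have hP : ComputablePred fun q : (ℕ × ℕ) × ℕ =>
      mm (A (q.1.1 + 1)) q.2 q.1.1 = q.1.2 ∨ q.2 = Δ + 1 := by
    have hQ : PrimrecPred fun q : List ℕ × (ℕ × ℕ) × ℕ =>
        mm q.1 q.2.2 q.2.1.1 = q.2.1.2 ∨ q.2.2 = Δ + 1 :=
      (Primrec.eq.comp (mm_prim fst (snd.comp snd) (fst.comp (fst.comp snd)))
        (snd.comp (fst.comp snd))).or (Primrec.eq.comp (snd.comp snd) (const _))
    exact cp hQ ((hA.comp (succ.comp (fst.comp fst)).to_comp).pair Computable.id)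
  have stab : ∀ a ≤ Δ, ∀ x t, x + 1 ≤ t → mm (A t) a x = mm (A (x + 1)) a x := by
    intro a ha x t ht
    induction t, ht using Nat.le_induction with
    | base => rfl
    | succ t ht ih => rw [← ih]; exact (h t).2 a (by simp; omega) x (by simp; omega)
  have spec : ∀ x y, G.Adj x y → Nat.find (hex (x, y)) ≤ Δ ∧
      mm (A (x + 1)) (Nat.find (hex (x, y))) x = y := by
    intro x y hxy
    obtain ⟨k1, a, k2⟩ := (h (x + 1)).1.2 x (by omega) y hxy
    have k3 := ((h (x + 1)).1.1.adj a x (by rw [k2]; exact k1.symm)).2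
    have k4 : Nat.find (hex (x, y)) ≤ a := Nat.find_min' _ (Or.inl k2)
    exact ⟨by omega, (Nat.find_spec (hex (x, y))).resolve_right (by omega)⟩
  refine ⟨fun x y => Nat.find (hex (x, y)), Computable.find hP hex,
    fun x y hxy => ⟨?_, (spec x y hxy).1⟩, fun x y z h1 h2 hne e => hne ?_⟩
  · obtain ⟨k1, k2⟩ := spec x y hxy
    obtain ⟨k3, k4⟩ := spec y x hxy.symm
    rw [← stab _ k1 x (x + y + 1) (by omega)] at k2
    rw [← stab _ k3 y (x + y + 1) (by omega)] at k4
    have pc := (h (x + y + 1)).1.1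
    refine pc.inj _ _ x (by rw [k2]; exact hxy.ne') ?_
    have k5 := pc.inv (Nat.find (hex (y, x))) y
    rw [k4] at k5
    exact k2.trans k5.symm
  · beta_reduce at e
    rw [← (spec x y h1).2, ← (spec x z h2).2, e]

end Pool.Agent.Lib.H8.Viz
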