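import Pool.Agent.Lib.H8.Rnd2

/-!
The expectation-bounded and probability-bounded deficiencies order some pairs of random sequences
in opposite ways, with an arbitrarily large margin.
-/

namespace Pool.Agent.Lib.H8.Wd2976e9

open MeasureTheory ENNReal NNReal Pool.Agent.Lib.H8 Rnd Arith CList Qm Classical

/-- Expectation-bounded tests. -/
def ETest (f : (ℕ → Bool) → ℝ≥0∞) : Prop := LSC f ∧ ∫⁻ ω, f ω ∂mu < ∞

/-- Probability-bounded tests. -/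
def PTest (f : (ℕ → Bool) → ℝ≥0∞) : Prop :=
  LSC f ∧ ∀ c : ℝ≥0, 0 < c → mu {ω | (c : ℝ≥0∞) ≤ f ω} ≤ (c : ℝ≥0∞)⁻¹

/-- `t` is maximal in the class `T` up to a constant factor. -/
def Univ (T : ((ℕ → Bool) → ℝ≥0∞) → Prop) (t : (ℕ → Bool) → ℝ≥0∞) : Prop :=
  T t ∧ ∀ f, T f → ∃ C : ℝ≥0, ∀ ω, f ω ≤ C * t ω

/-- Martin-Loef randomness. -/
def MLR (ω : ℕ → Bool) : Prop :=
  ∀ S : ℕ × List Bool → Prop, REPred S → (∀ n, mu {x | ∃ s, S (n, pr x s)} ≤ 2⁻¹ ^ n) →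
    ∃ n, ∀ s, ¬ S (n, pr ω s)

/-- The deficiency defined by a test. -/
noncomputable def df (t : (ℕ → Bool) → ℝ≥0∞) (ω : ℕ → Bool) : ℝ := Real.logb 2 (t ω).toReal

lemma re_sig {α : Type} [Primcodable α] {p : α → Prop} (hp : REPred p) : Sig 1 α p := by
  obtain ⟨c, hc⟩ := Nat.Partrec.Code.exists_code.1 hp
  refine (CeAlg.w_sig (Computable.const (Encodable.encode c)) Computable.encode).of_eq fun a => ?_
  simp [CeAlg.W, hc, Part.dom_iff_mem]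

lemma pow_bd (C : ℝ≥0) : ∃ d : ℕ, (C : ℝ≥0∞) ≤ 2 ^ d := by
  obtain ⟨n, hn⟩ := exists_nat_ge C
  exact ⟨n, by exact_mod_cast hn.trans (by exact_mod_cast n.lt_two_pow_self.le)⟩

lemma one_lsc : LSC fun _ => 1 :=
  ⟨fun σ => 2 ^ σ.length, pow_c.comp Computable.list_length, fun ω => by
    simp [ENNReal.div_self]⟩

lemma mlr {t : (ℕ → Bool) → ℝ≥0∞} (h : Univ ETest t) {ω : ℕ → Bool} (k : t ω < ∞) : MLR ω := by
  intro S hS hm
  by_contra! c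
  have e : EO fun n : ℕ => {x | ∃ s, S (n + n, pr x s)} :=
    EO.comp (P := fun n : ℕ => {x | ∃ s, S (n, pr x s)}) ⟨S, re_sig hS, fun _ _ => Iff.rfl⟩
      (Primrec.nat_add.to_comp.comp .id .id)
  obtain ⟨C, hC⟩ := h.2 _ ⟨e.lsc pow_c, (int_sup e.meas _).trans_lt (by
    calc _ ≤ ∑' n : ℕ, (2⁻¹ : ℝ≥0∞) ^ n := ENNReal.tsum_le_tsum fun n =>
          (mul_le_mul_right (hm _) _).trans (le_of_eq (by
            rw [pow_add, ← mul_assoc]; push_cast; rw [pw, one_mul]))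
      _ < ∞ := by rw [ENNReal.tsum_geometric, ENNReal.one_sub_inv_two, inv_inv]; simp)⟩
  obtain ⟨n, hn⟩ := ENNReal.exists_nat_gt (ENNReal.mul_lt_top (coe_lt_top (r := C)) k).ne
  refine hn.not_ge (le_trans ?_ (hC ω))
  refine le_iSup_of_le n ?_
  rw [Set.indicator_of_mem (show ω ∈ {x | ∃ s, S (n + n, pr x s)} from c _)]
  exact_mod_cast n.lt_two_pow_self.le

lemma zt : PTest fun ω => ⨆ n, (B n).indicator (fun _ => ((2 ^ n : ℕ) : ℝ≥0∞)) ω := by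
  refine ⟨B_eo.lsc pow_c, fun c hc => ?_⟩
  have k := pow_bd c
  have h : {ω | (c : ℝ≥0∞) ≤ ⨆ n, (B n).indicator (fun _ => ((2 ^ n : ℕ) : ℝ≥0∞)) ω} ⊆
      cyl (pr (fun _ => false) (Nat.find k)) := fun ω h => mem_cyl.2 fun i hi => by
    by_contra u
    have v : ∃ i, ω i ≠ false := ⟨i, u⟩
    have w : Nat.find v ≤ i := Nat.find_min' v u
    refine Nat.find_min k (w.trans_lt hi) (le_trans h (iSup_le fun n =>
      Set.indicator_apply_le' (fun m => ?_) fun _ => zero_le))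
    have : n ≤ Nat.find v := by
      by_contra l
      have := mem_cyl.1 m (Nat.find v) (by omega)
      rw [Nat.testBit_two_pow_of_ne (by omega)] at this
      exact Nat.find_spec v this
    push_cast
    gcongr
    exact one_le_two
  refine (measure_mono h).trans ?_
  rw [mu_cyl, pr_len, ← ENNReal.inv_pow]
  exact ENNReal.inv_le_inv.2 (Nat.find_spec k)

lemma lg {x y : ℝ≥0∞} {n : ℕ} {c : ℝ} (hc : c ≤ n) (h0 : x ≠ 0) (h1 : y < ∞) (h : 2 ^ n * x ≤ y) :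
    Real.logb 2 x.toReal + c ≤ Real.logb 2 y.toReal := by
  have hx : x ≠ ∞ := fun e => by simp [e, h1.ne] at h
  have p := ENNReal.toReal_pos h0 hx
  have := Real.logb_le_logb_of_le one_lt_two (by simpa using p) (ENNReal.toReal_mono h1.ne h)
  rw [ENNReal.toReal_mul, Real.logb_mul (by simp) p.ne'] at this
  simp [Real.logb_pow] at this
  linarith

theorem result (tE tP : (ℕ → Bool) → ℝ≥0∞) (hE : Univ ETest tE) (hP : Univ PTest tP) (c : ℝ) :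
    ∃ ω₁ ω₂ : ℕ → Bool, MLR ω₁ ∧ MLR ω₂ ∧
      (∀ ω ∈ ({ω₁, ω₂} : Set (ℕ → Bool)), 0 < tE ω ∧ tE ω < ∞ ∧ 0 < tP ω ∧ tP ω < ∞) ∧
      df tE ω₂ + c ≤ df tE ω₁ ∧ df tP ω₁ + c ≤ df tP ω₂ := by
  obtain ⟨n, hn⟩ := exists_nat_ge c
  have hj : ∀ j : ℕ, mu {ω | 2 ^ j ≤ tP ω} ≤ 2⁻¹ ^ j := fun j => by
    simpa [ENNReal.inv_pow] using hP.1.2 (2 ^ j) (by positivity)
  have e0 : ∀ ω, tE ω ≠ 0 := fun ω z => by
    obtain ⟨C, hC⟩ := hE.2 _ ⟨one_lsc, by simp⟩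
    simpa [z] using hC ω
  have p0 : ∀ ω, tP ω ≠ 0 := fun ω z => by
    obtain ⟨C, hC⟩ := hP.2 _ ⟨one_lsc, fun c _ => by
      by_cases k : (c : ℝ≥0∞) ≤ 1
      · exact prob_le_one.trans (ENNReal.one_le_inv.2 k)
      · simp [k]⟩
    simpa [z] using hC ω
  have fp : ∀ᵐ ω ∂mu, tP ω < ∞ := by
    refine ae_iff.2 (le_antisymm (ge_of_tendsto' (ENNReal.tendsto_pow_atTop_nhds_zero_of_lt_one
      (by simp : (2⁻¹ : ℝ≥0∞) < 1)) fun j => le_trans (measure_mono fun ω h => ?_) (hj j)) zero_le)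
    simp only [not_lt, top_le_iff, Set.mem_ofPred_eq] at h ⊢
    simp [h]
  obtain ⟨C, hC⟩ := hP.2 _ zt
  obtain ⟨a, ha⟩ := pow_bd C
  obtain ⟨x, y, ⟨x1, x2⟩, ⟨y1, y2⟩, u, v⟩ := game (a := a) (c := n) hE.1.1 hE.1.2 hP.1.1
    (fun j => (measure_mono fun ω h => (le_of_lt h : _ ≤ tP ω)).trans (hj j))
    ((ae_lt_top hE.1.1.meas hE.1.2.ne).and fp)
    (fun m ω h => (le_iSup_of_le m (by rw [Set.indicator_of_mem h]; simp)).trans
      ((hC ω).trans (by gcongr)))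
    fun f a b => by
      obtain ⟨C, hC⟩ := hE.2 f ⟨a, b⟩
      exact (pow_bd C).imp fun d hd ω => (hC ω).trans (by gcongr)
  refine ⟨x, y, mlr hE x1, mlr hE y1, ?_, lg hn (e0 _) x1 u, lg hn (p0 _) y2 v⟩
  rintro ω (rfl | rfl)
  exacts [⟨(e0 _).bot_lt, x1, (p0 _).bot_lt, x2⟩, ⟨(e0 _).bot_lt, y1, (p0 _).bot_lt, y2⟩]

end Pool.Agent.Lib.H8.Wd2976e9
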