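import Pool.Agent.Lib.H8.CeAlg

/-!
Turing functionals on Baire space as c.e. sets of axioms, and Weihrauch reducibility.
-/

namespace Pool.Agent.Lib.H8.Wei

open Arith CList

/-- A problem: `f p` is the set of admissible outputs, the domain is where it is nonempty. -/
abbrev Prob := (ℕ → ℕ) → Set (ℕ → ℕ)

/-- The prefix of length `k`. -/
def pre (p : ℕ → ℕ) (k : ℕ) : List ℕ := (List.range k).map p

/-- The `e`-th functional sends `p` to `q`: the axioms `(σ, n, y)` of the `e`-th c.e. set with `σ`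
a prefix of `p` give exactly the graph of `q`. -/
def Out (e : ℕ) (p q : ℕ → ℕ) : Prop :=
  ∀ n y : ℕ, (∃ k, Encodable.encode (pre p k, n, y) ∈ CeAlg.W e) ↔ y = q n

/-- The pair of two points of Baire space. -/
def join (p q : ℕ → ℕ) (n : ℕ) : ℕ := if n % 2 = 0 then p (n / 2) else q (n / 2)

/-- Weihrauch reducibility. -/
def Red (f g : Prob) : Prop :=
  ∃ i j : ℕ, ∀ p, (f p).Nonempty →
    ∃ x, Out i p x ∧ (g x).Nonempty ∧ ∀ q ∈ g x, ∃ r, Out j (join p q) r ∧ r ∈ f p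

variable {α β : Type} [Primcodable α] [Primcodable β]

/-- Predicates that are effectively open in the oracle. -/
def Op (P : (ℕ → ℕ) → α → Prop) : Prop :=
  ∃ E : List ℕ × α → Prop, Sig 1 _ E ∧ (∀ p a k, E (pre p k, a) → E (pre p (k + 1), a)) ∧
    ∀ p a, P p a ↔ ∃ k, E (pre p k, a)

@[simp] lemma pre_len (p : ℕ → ℕ) (k : ℕ) : (pre p k).length = k := by simp [pre]

lemma pre_take (p : ℕ → ℕ) {j k : ℕ} (h : j ≤ k) : (pre p k).take j = pre p j := by
  simp [pre, ← List.map_take, List.take_range, h]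

lemma pre_get (p : ℕ → ℕ) {j k : ℕ} (h : j < k) : (pre p k).getD j 0 = p j := by
  simp [pre, h]

lemma pre_congr {p q : ℕ → ℕ} {k : ℕ} (h : ∀ i < k, p i = q i) : pre p k = pre q k :=
  List.map_congr_left fun i hi => h i (List.mem_range.1 hi)

lemma Op.mk' {P : (ℕ → ℕ) → α → Prop} {E : List ℕ × α → Prop} (h : Sig 1 _ E)
    (e : ∀ p a, P p a ↔ ∃ k, E (pre p k, a)) : Op P := by
  have h1 : Sig 1 ((List ℕ × α) × ℕ) fun q => q.2 ≤ q.1.1.length ∧ E (q.1.1.take q.2, q.1.2) :=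
    (Sig.prim (Primrec.nat_le.comp Primrec.snd (Primrec.list_length.comp
      (Primrec.fst.comp Primrec.fst)))).and (h.comp ((Primrec.list_take.comp Primrec.snd
        (Primrec.fst.comp Primrec.fst)).to_comp.pair (Computable.snd.comp Computable.fst)))
  refine ⟨_, h1.ex, fun p a k ⟨j, j1, j2⟩ => ⟨j, ?_⟩, fun p a => (e p a).trans
    ⟨fun ⟨k, hk⟩ => ⟨k, k, by simpa [pre_take] using hk⟩, fun ⟨k, j, j1, j2⟩ => ⟨j, ?_⟩⟩⟩
  · simp only [pre_len] at j1 ⊢
    rw [pre_take p j1] at j2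
    exact ⟨by omega, by rwa [pre_take p (by omega)]⟩
  · simp only [pre_len] at j1
    rwa [pre_take p j1] at j2

omit [Primcodable α] in
lemma up {E : List ℕ × α → Prop} (m : ∀ p a k, E (pre p k, a) → E (pre p (k + 1), a))
    {p a j k} (h : E (pre p j, a)) (l : j ≤ k) : E (pre p k, a) := by
  induction k, l using Nat.le_induction with
  | base => exact h
  | succ k _ ih => exact m _ _ _ ih

variable {P Q : (ℕ → ℕ) → α → Prop}

lemma Op.of_eq (h : Op P) (e : ∀ p a, P p a ↔ Q p a) : Op Q :=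
  (funext fun p => funext fun a => propext (e p a) : P = Q) ▸ h

lemma Op.comp {P : (ℕ → ℕ) → β → Prop} (h : Op P) {f : α → β} (hf : Computable f) :
    Op fun p a => P p (f a) := by
  obtain ⟨E, a, -, c⟩ := h
  exact Op.mk' (a.comp (Computable.fst.pair (hf.comp Computable.snd))) fun p x => c p _

lemma Op.sig {A : α → Prop} (h : Sig 1 α A) : Op fun _ a => A a :=
  Op.mk' (h.comp Computable.snd) fun _ _ => by simp

lemma Op.cp {A : α → Prop} (h : ComputablePred A) : Op fun _ a => A a := Op.sig (CeAlg.cs h)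

lemma Op.and (h : Op P) (h' : Op Q) : Op fun p a => P p a ∧ Q p a := by
  obtain ⟨E, a, b, c⟩ := h
  obtain ⟨E', a', b', c'⟩ := h'
  refine Op.mk' (a.and a') fun p x => ?_
  rw [c, c']
  exact ⟨fun ⟨⟨j, u⟩, k, v⟩ => ⟨j + k, up b u (by omega), up b' v (by omega)⟩,
    fun ⟨k, u, v⟩ => ⟨⟨k, u⟩, k, v⟩⟩

lemma Op.or (h : Op P) (h' : Op Q) : Op fun p a => P p a ∨ Q p a := by
  obtain ⟨E, a, -, c⟩ := h
  obtain ⟨E', a', -, c'⟩ := h'
  exact Op.mk' (a.or a') fun p x => by rw [c, c', exists_or]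

lemma Op.exd {γ : Type} [Denumerable γ] {P : (ℕ → ℕ) → α × γ → Prop} (h : Op P) :
    Op fun p a => ∃ x, P p (a, x) := by
  obtain ⟨E, a, -, c⟩ := h
  refine Op.mk' (E := fun q => ∃ x, E (q.1, q.2, x)) (Sig.exd (a.comp
    ((Computable.fst.comp Computable.fst).pair
      ((Computable.snd.comp Computable.fst).pair Computable.snd)))) fun p x => ?_
  simp only [c]
  exact exists_comm

lemma Op.ball {P : (ℕ → ℕ) → α × ℕ → Prop} (h : Op P) {f : α → ℕ} (hf : Computable f) :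
    Op fun p a => ∀ i < f a, P p (a, i) := by
  obtain ⟨E, a, b, c⟩ := h
  refine Op.mk' (E := fun q => ∀ i < f q.2, E (q.1, q.2, i)) (Sig.ball (a.comp
    ((Computable.fst.comp Computable.fst).pair
      ((Computable.snd.comp Computable.fst).pair Computable.snd))) (hf.comp Computable.snd))
    fun p x => ⟨fun h => ?_, fun ⟨k, h⟩ i hi => (c _ _).2 ⟨k, h i hi⟩⟩
  choose! k hk using fun i hi => (c _ _).1 (h i hi)
  exact ⟨(Finset.range (f x)).sup k, fun i hi =>
    up b (hk i hi) (Finset.le_sup (f := k) (Finset.mem_range.2 hi))⟩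

lemma Op.val {f g : α → ℕ} (hf : Computable f) (hg : Computable g) :
    Op fun p a => g a = p (f a) := by
  have s := @Computable.snd
  refine Op.mk' (E := fun q => f q.2 < q.1.length ∧ g q.2 = q.1.getD (f q.2) 0)
    (CeAlg.cs (cand (CList.cp (p := fun q : ℕ × ℕ => q.1 < q.2) Primrec.nat_lt.computablePred
      ((hf.comp s).pair (Computable.list_length.comp Computable.fst)))
      (ceq (hg.comp s) ((Primrec.list_getD 0).to_comp.comp Computable.fst (hf.comp s)))))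
    fun p a => ⟨fun h => ⟨f a + 1, by simp, by rw [pre_get p (Nat.lt_succ_self _)]; exact h⟩,
      fun ⟨k, u, v⟩ => ?_⟩
  simp only [pre_len] at u
  rwa [pre_get p u] at v

lemma Op.univ {e n y : α → ℕ} (he : Computable e) (hn : Computable n) (hy : Computable y) :
    Op fun p a => ∃ k, Encodable.encode (pre p k, n a, y a) ∈ CeAlg.W (e a) :=
  Op.mk' (E := fun q => Encodable.encode (q.1, n q.2, y q.2) ∈ CeAlg.W (e q.2))
    (CeAlg.w_sig (he.comp Computable.snd) (Computable.encode.comp (Computable.fst.pair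
      ((hn.comp Computable.snd).pair (hy.comp Computable.snd))))) fun _ _ => Iff.rfl

/-- The relation `D` is part of the graph of a computable functional. -/
def Cm (D : (ℕ → ℕ) → (ℕ → ℕ) → Prop) : Prop :=
  ∃ G : (ℕ → ℕ) → ℕ × ℕ → Prop, Op G ∧ ∀ p q, D p q → ∀ n y, G p (n, y) ↔ y = q n

variable {D D' : (ℕ → ℕ) → (ℕ → ℕ) → Prop}

lemma Cm.mono (h : Cm D') (e : ∀ p q, D p q → D' p q) : Cm D :=
  h.imp fun _ k => ⟨k.1, fun p q d => k.2 p q (e p q d)⟩

lemma Cm.out (e : ℕ) : Cm (Out e) :=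
  ⟨_, Op.univ (Computable.const e) Computable.fst Computable.snd, fun _ _ h => h⟩

lemma Cm.idx (h : Cm D) : ∃ e, ∀ p q, D p q → Out e p q := by
  obtain ⟨G, ⟨E, a, -, c⟩, d⟩ := h
  obtain ⟨s, -, e⟩ := CeAlg.w_idx (β := ℕ)
    (A := fun z => E (Denumerable.ofNat (List ℕ × ℕ × ℕ) z.2))
    (a.comp ((Primrec.ofNat _).to_comp.comp Computable.snd))
  exact ⟨s 0, fun p q h n y => by simpa [e, ← c] using d p q h n y⟩

lemma Op.sub (h : Op P) (h' : Cm D) : ∃ P' : (ℕ → ℕ) → α → Prop, Op P' ∧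
    ∀ p q, D p q → ∀ a, P' p a ↔ P q a := by
  obtain ⟨E, a, -, c⟩ := h
  obtain ⟨G, g, d⟩ := h'
  have h1 : Op fun p (z : α × List ℕ) =>
      (∀ i < z.2.length, G p (i, z.2.getD i 0)) ∧ E (z.2, z.1) :=
    (Op.ball (g.comp (Computable.snd.pair ((Primrec.list_getD 0).to_comp.comp
      (Computable.snd.comp Computable.fst) Computable.snd)))
      (Computable.list_length.comp Computable.snd)).and
      (Op.sig (a.comp (Computable.snd.pair Computable.fst)))
  refine ⟨_, h1.exd, fun p q k x => ?_⟩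
  simp only [d p q k, c]
  refine ⟨fun ⟨t, u, v⟩ => ⟨t.length, ?_⟩, fun ⟨k, v⟩ => ⟨pre q k, fun i hi => ?_, v⟩⟩
  · have : pre q t.length = t := List.ext_getElem (by simp) fun i h1 h2 => by
      simpa [pre, h2] using (u i h2).symm
    rwa [this]
  · exact pre_get q (by simpa using hi)

lemma Cm.comp (h : Cm D) (h' : Cm D') : Cm fun p r => ∃ q, D p q ∧ D' q r := by
  obtain ⟨G, g, d⟩ := h'
  obtain ⟨G', g', d'⟩ := g.sub h
  exact ⟨G', g', fun p r ⟨q, u, v⟩ n y => (d' p q u _).trans (d q r v n y)⟩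

lemma even_cp : ComputablePred fun n : ℕ => n % 2 = 0 :=
  ceq (Primrec.nat_mod.comp Primrec.id (Primrec.const 2)).to_comp (Computable.const 0)

lemma half_c : Computable fun n : ℕ => n / 2 :=
  (Primrec.nat_div.comp Primrec.id (Primrec.const 2)).to_comp

lemma Cm.join (h : Cm D) (h' : Cm D') :
    Cm fun p r => ∃ q q', D p q ∧ D' p q' ∧ r = join q q' := by
  obtain ⟨G, g, d⟩ := h
  obtain ⟨G', g', d'⟩ := h'
  have c : Computable fun z : ℕ × ℕ => (z.1 / 2, z.2) :=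
    (half_c.comp Computable.fst).pair Computable.snd
  refine ⟨_, ((Op.cp (CList.cp even_cp Computable.fst)).and (g.comp c)).or
    ((Op.cp (CList.cp even_cp Computable.fst).not).and (g'.comp c)), ?_⟩
  rintro p _ ⟨q, q', u, v, rfl⟩ n y
  by_cases k : n % 2 = 0 <;> simp [Wei.join, k, d p q u, d' p q' v]

lemma Cm.re {c : ℕ → Prop} [DecidablePred c] (hc : ComputablePred c) {k r : ℕ → ℕ}
    (hk : Computable k) (hr : Computable r) :
    Cm fun p q => q = fun n => if c n then k n else p (r n) := by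
  refine ⟨_, (Op.cp (cand (CList.cp hc Computable.fst)
    (ceq Computable.snd (hk.comp Computable.fst)))).or
    ((Op.cp (CList.cp hc Computable.fst).not).and
      (Op.val (hr.comp Computable.fst) Computable.snd)), ?_⟩
  rintro p _ rfl n y
  by_cases k : c n <;> simp [k]

lemma Cm.ix {r : ℕ → ℕ} (hr : Computable r) : Cm fun p q => q = fun n => p (r n) :=
  ⟨_, Op.val (hr.comp Computable.fst) Computable.snd, by rintro p _ rfl n y; rfl⟩

lemma Cm.case (h : Cm D) (h' : Cm D') {k a b : ℕ} (hab : a ≠ b) :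
    Cm fun p q => (p k = a ∧ D p q) ∨ (p k = b ∧ D' p q) := by
  obtain ⟨G, g, d⟩ := h
  obtain ⟨G', g', d'⟩ := h'
  refine ⟨_, ((Op.val (Computable.const k) (Computable.const a)).and g).or
    ((Op.val (Computable.const k) (Computable.const b)).and g'), ?_⟩
  rintro p q (⟨u, v⟩ | ⟨u, v⟩) n y
  · simp [u, d p q v, hab.symm]
  · simp [u, d' p q v, hab]

lemma dbl_c : Computable fun n : ℕ => 2 * n :=
  (Primrec.nat_mul.comp (Primrec.const 2) Primrec.id).to_comp

/-- The even part. -/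
def ev (p : ℕ → ℕ) (n : ℕ) : ℕ := p (2 * n)

/-- The odd part. -/
def od (p : ℕ → ℕ) (n : ℕ) : ℕ := p (2 * n + 1)

/-- The shift. -/
def tl (p : ℕ → ℕ) (n : ℕ) : ℕ := p (n + 1)

@[simp] lemma ev_join (p q : ℕ → ℕ) : ev (join p q) = p := funext fun n => by simp [ev, join]

@[simp] lemma od_join (p q : ℕ → ℕ) : od (join p q) = q := funext fun n => by
  have : (2 * n + 1) / 2 = n := by omega
  simp [od, join, this]

lemma Cm.ev : Cm fun p q => q = ev p := Cm.ix dbl_c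
lemma Cm.od : Cm fun p q => q = od p := Cm.ix (Computable.succ.comp dbl_c)
lemma Cm.tl : Cm fun p q => q = tl p := Cm.ix Computable.succ

lemma Cm.pre (h : Cm D) {F : (ℕ → ℕ) → ℕ → ℕ} (hF : Cm fun p q => q = F p) :
    Cm fun p q => D (F p) q :=
  (hF.comp h).mono fun _ _ k => ⟨_, rfl, k⟩

lemma Cm.jn {F F' : (ℕ → ℕ) → ℕ → ℕ} (h : Cm fun p q => q = F p) (h' : Cm fun p q => q = F' p) :
    Cm fun p q => q = Wei.join (F p) (F' p) :=
  (h.join h').mono fun _ _ k => ⟨_, _, rfl, rfl, k⟩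

lemma Out.uniq {e : ℕ} {p q q' : ℕ → ℕ} (h : Out e p q) (h' : Out e p q') : q = q' :=
  funext fun n => (h' n _).1 ((h n _).2 rfl)

lemma red {f g : Prob} (h : Cm D) (h' : Cm D') (k : ∀ p, (f p).Nonempty →
    ∃ x, D p x ∧ (g x).Nonempty ∧ ∀ q ∈ g x, ∃ r, D' (join p q) r ∧ r ∈ f p) : Red f g := by
  obtain ⟨i, hi⟩ := h.idx
  obtain ⟨j, hj⟩ := h'.idx
  refine ⟨i, j, fun p hp => ?_⟩
  obtain ⟨x, a, b, c⟩ := k p hp
  exact ⟨x, hi _ _ a, b, fun q hq => (c q hq).imp fun _ u => ⟨hj _ _ u.1, u.2⟩⟩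

lemma Red.trans {f g h : Prob} : Red f g → Red g h → Red f h := by
  rintro ⟨i, j, a⟩ ⟨i', j', b⟩
  refine red ((Cm.out i).comp (Cm.out i')) ((Cm.ev.join ((((Cm.out i).pre Cm.ev).join Cm.od).comp
    (Cm.out j'))).comp (Cm.out j)) fun p hp => ?_
  obtain ⟨x, a1, a2, a3⟩ := a p hp
  obtain ⟨y, b1, b2, b3⟩ := b x a2
  refine ⟨y, ⟨x, a1, b1⟩, b2, fun q hq => ?_⟩
  obtain ⟨r, r1, r2⟩ := b3 q hq
  obtain ⟨t, t1, t2⟩ := a3 r r2
  exact ⟨t, ⟨join p r, ⟨_, r, rfl, ⟨join x q, ⟨x, _, by simpa using a1, rfl, by simp⟩, r1⟩,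
    by simp⟩, t1⟩, t2⟩

end Pool.Agent.Lib.H8.Wei
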