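import Mathlib

/-! A winding obstruction in `ℂ²`, and generation of polynomial vector fields by overshears. -/

set_option autoImplicit false
set_option maxHeartbeats 400000

namespace Pool.Agent.Lib.H8.Wind

open Complex Filter Topology

theorem exists_log {X : Type} [NormedAddCommGroup X] [NormedSpace ℝ X] (g : X → ℂ)
    (hg : Continuous g) (h0 : ∀ x, g x ≠ 0) : ∃ l : X → ℂ, Continuous l ∧ ∀ x, exp (l x) = g x := by
  have hs : IsSimplyConnected (Set.univ : Set X) :=
    (Homeomorph.Set.univ X).toHomotopyEquiv.simplyConnectedSpace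
  obtain ⟨l, h1, h2⟩ := exists_continuousOn_eqOn_exp_comp hs isOpen_univ hg.continuousOn
    (by rintro ⟨x, -, hx⟩; exact h0 x hx)
  exact ⟨l, continuousOn_univ.1 h1, fun x => h2 (Set.mem_univ x)⟩

theorem const_of_exp (c : ℂ → ℂ) (hc : Continuous c) (h : ∀ x, exp (c x) = 1) (x y : ℂ) :
    c x = c y := by
  have h1 : (Set.range c).Countable := by
    refine (Set.countable_range fun n : ℤ => (n : ℂ) * (2 * Real.pi * I)).mono ?_
    rintro _ ⟨x, rfl⟩
    obtain ⟨n, hn⟩ := exp_eq_one_iff.1 (h x)
    exact ⟨n, hn.symm⟩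
  exact h1.isTotallyDisconnected _ le_rfl (isPreconnected_range hc) ⟨x, rfl⟩ ⟨y, rfl⟩

theorem obstruction (f : ℂ × ℂ → ℂ) (hf : Differentiable ℂ f) (h0 : ∀ p, p.1 ≠ 0 → f p ≠ 0)
    (h1 : ∀ t : ℂ, t ≠ 0 → f (t, t⁻¹) = t⁻¹) : False := by
  have hd : Differentiable ℂ fun t : ℂ => f (t, 0) := hf.comp (by fun_prop)
  obtain ⟨m, g, hg, hg0, hfg⟩ :=
    (hd.analyticAt 0).exists_eventuallyEq_pow_smul_nonzero_iff.2 (fun h => by
      obtain ⟨t, ht, ht0⟩ := ((h.filter_mono nhdsWithin_le_nhds).and
        (self_mem_nhdsWithin : ∀ᶠ t in 𝓝[≠] (0 : ℂ), t ≠ 0)).exists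
      exact h0 (t, 0) ht0 ht)
  let u : ℂ → ℂ := fun t => if t = 0 then g 0 else f (t, 0) / t ^ m
  have hu : Continuous u := by
    rw [continuous_iff_continuousAt]
    intro t
    by_cases ht : t = 0
    · subst ht
      refine hg.continuousAt.congr ?_
      filter_upwards [hfg] with s hs
      by_cases h : s = 0
      · simp [u, h]
      · simp [u, h, hs]
    · refine ((hd.continuous.continuousAt (x := t)).div (g := fun s => s ^ m) (by fun_prop)
        (pow_ne_zero _ ht)).congr ?_
      filter_upwards [isOpen_ne.mem_nhds ht] with s hs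
      simp [u, hs]
  obtain ⟨v, hv, ev⟩ := exists_log u hu (fun t => by
    by_cases h : t = 0
    · simpa [u, h] using hg0
    · simpa [u, h] using h0 (t, 0) h)
  have hc := hf.continuous
  obtain ⟨l, hl, el⟩ := exists_log (fun p : ℂ × ℂ => exp p.1 * f (exp p.1, p.2 * exp (-p.1)))
    (by fun_prop) (fun p => mul_ne_zero (exp_ne_zero _) (h0 _ (exp_ne_zero _)))
  have d1 := const_of_exp (fun s => l (2 * Real.pi * I, s) - l (0, s)) (by fun_prop)
    (fun s => by
      rw [exp_sub, el, el, exp_neg, exp_neg, exp_two_pi_mul_I, exp_zero]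
      exact div_self (mul_ne_zero one_ne_zero (h0 _ one_ne_zero))) 0 1
  have d2 := const_of_exp (fun τ => l (τ, 1)) (by fun_prop)
    (fun τ => by
      rw [el, one_mul, exp_neg, h1 _ (exp_ne_zero _)]
      exact mul_inv_cancel₀ (exp_ne_zero _)) (2 * Real.pi * I) 0
  have d3 := const_of_exp (fun τ => l (τ, 0) - ((m + 1 : ℕ) * τ + v (exp τ))) (by fun_prop)
    (fun τ => by
      have a := exp_ne_zero τ
      have b := h0 (exp τ, 0) a
      rw [exp_sub, el, exp_add, ev, exp_nat_mul, zero_mul]
      simp only [u, if_neg a]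
      field_simp
      ring) (2 * Real.pi * I) 0
  simp only [exp_two_pi_mul_I, exp_zero] at d1 d2 d3
  have d4 : ((m + 1 : ℕ) : ℂ) * (2 * Real.pi * I) = 0 := by linear_combination d1 + d2 - d3
  exact mul_ne_zero (by exact_mod_cast Nat.succ_ne_zero m) two_pi_I_ne_zero d4

open MvPolynomial

abbrev R : Type := MvPolynomial (Fin 2) ℂ

theorem lnd (i : Fin 2) (p : R) : ∃ k, 1 ≤ k ∧ (pderiv i : Derivation ℂ R R)^[k] p = 0 := by
  have lin : ∀ (k : ℕ) (a b : R), (pderiv i : Derivation ℂ R R)^[k] (a + b) =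
      (pderiv i : Derivation ℂ R R)^[k] a + (pderiv i : Derivation ℂ R R)^[k] b := by
    intro k
    induction k with
    | zero => intro a b; rfl
    | succ k ih => intro a b; simp only [Function.iterate_succ_apply, map_add, ih]
  have zero : ∀ k : ℕ, (pderiv i : Derivation ℂ R R)^[k] 0 = 0 := fun k =>
    Function.iterate_fixed (map_zero _) k
  have step : ∀ (j : Fin 2) (k : ℕ) (a : R), (pderiv i : Derivation ℂ R R)^[k] a = 0 →
      (pderiv i : Derivation ℂ R R)^[k + 1] (a * X j) = 0 := by
    intro j k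
    induction k with
    | zero =>
      intro a h
      rw [show a = 0 from h, zero_mul, zero]
    | succ k ih =>
      intro a h
      rw [Function.iterate_succ_apply, Derivation.leibniz, lin, smul_eq_mul, smul_eq_mul,
        mul_comm (X j), ih _ h, add_zero]
      by_cases hij : j = i
      · subst hij
        rw [pderiv_X_self, mul_one, h]
      · rw [pderiv_X_of_ne hij, mul_zero, zero]
  induction p using MvPolynomial.induction_on with
  | C a => exact ⟨1, le_rfl, pderiv_C⟩
  | add p q hp hq =>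
    obtain ⟨k, hk, h1⟩ := hp
    obtain ⟨l, -, h2⟩ := hq
    refine ⟨l + k, by omega, ?_⟩
    rw [lin, Function.iterate_add_apply, h1, zero, add_comm l k, Function.iterate_add_apply, h2,
      zero, add_zero]
  | mul_X p j hp =>
    obtain ⟨k, -, h1⟩ := hp
    exact ⟨k + 1, by omega, step j k p h1⟩

/-- algebraic overshear vector fields on `ℂ²` -/
def Over : Set (Derivation ℂ R R) :=
  {D | ∃ (Θ : Derivation ℂ R R) (f : R), (∀ g, ∃ k, 1 ≤ k ∧ Θ^[k] g = 0) ∧ Θ (Θ f) = 0 ∧
    D = f • Θ}

theorem mono_mem (i j : Fin 2) (hij : i ≠ j) (a b : ℕ) :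
    ((X i ^ a * X j ^ b : R) • (pderiv j : Derivation ℂ R R)) ∈
      LieSubalgebra.lieSpan ℂ (Derivation ℂ R R) Over := by
  have hji := hij.symm
  have base : ∀ (k : Fin 2) (f : R), pderiv k (pderiv k f) = 0 →
      (f • (pderiv k : Derivation ℂ R R)) ∈ LieSubalgebra.lieSpan ℂ (Derivation ℂ R R) Over :=
    fun k f h => LieSubalgebra.subset_lieSpan ⟨_, f, lnd k, h, rfl⟩
  cases b with
  | zero => exact base j _ (by simp [pderiv_X_of_ne hij])
  | succ b =>
    have h1 := LieSubalgebra.lie_mem _ (base j (X i ^ a) (by simp [pderiv_X_of_ne hij]))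
      (base i (X i * X j ^ (b + 1)) (by simp [pderiv_X_of_ne hji]))
    have h2 := LieSubalgebra.lie_mem _ (base j (X i ^ (a + 1)) (by simp [pderiv_X_of_ne hij]))
      (base i (X j ^ (b + 1)) (by simp [pderiv_X_of_ne hji]))
    have h3 := LieSubalgebra.sub_mem _ h1 h2
    convert h3 using 1
    refine derivation_ext fun k => ?_
    have hk : k = i ∨ k = j := by omega
    rcases hk with rfl | rfl
    · simp [Derivation.commutator_apply, pderiv_X_of_ne hij, pderiv_X_of_ne hji]
      ring
    · cases a with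
      | zero => simp [Derivation.commutator_apply, pderiv_X_of_ne hij, pderiv_X_of_ne hji]
      | succ a =>
        simp [Derivation.commutator_apply, pderiv_X_of_ne hij, pderiv_X_of_ne hji]
        ring

theorem poly_mem (j : Fin 2) (p : R) :
    (p • (pderiv j : Derivation ℂ R R)) ∈ LieSubalgebra.lieSpan ℂ (Derivation ℂ R R) Over := by
  induction p using MvPolynomial.induction_on' with
  | monomial u a =>
    have e : (monomial u a : R) = a • (X 0 ^ u 0 * X 1 ^ u 1) := by
      rw [monomial_eq, Finsupp.prod_fintype _ _ (by simp), Fin.prod_univ_two, smul_eq_C_mul]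
    rw [e, smul_assoc]
    refine LieSubalgebra.smul_mem _ _ ?_
    fin_cases j
    · rw [mul_comm]
      exact mono_mem 1 0 (by decide) _ _
    · exact mono_mem 0 1 (by decide) _ _
  | add p q hp hq =>
    rw [add_smul]
    exact LieSubalgebra.add_mem _ hp hq

theorem density : LieSubalgebra.lieSpan ℂ (Derivation ℂ R R) Over = ⊤ := by
  rw [eq_top_iff]
  intro D _
  have : D = D (X 0) • (pderiv 0 : Derivation ℂ R R) + D (X 1) • pderiv 1 := by
    refine derivation_ext fun k => ?_
    fin_cases k <;> simp [pderiv_X_of_ne]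
  rw [this]
  exact LieSubalgebra.add_mem _ (poly_mem 0 _) (poly_mem 1 _)

end Pool.Agent.Lib.H8.Wind
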