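import Pool.Agent.Lib.H8.Shc1

/-!
Periodic configurations of the two-neighbour XOR cellular automaton.
-/

set_option maxHeartbeats 400000

namespace Pool.Agent.Lib.H8.Xor

open MeasureTheory Finset

/-- The automaton. -/
def F (x : ℤ → Bool) (i : ℤ) : Bool := xor (x i) (x (i + 1))

/-- Shifts. -/
def sh (t : ℤ) (x : ℤ → Bool) (i : ℤ) : Bool := x (i + t)

/-- The word `110` repeated and dilated by `2 ^ a`. -/
def y (a : ℕ) (i : ℤ) : Bool := decide (2 ^ a ∣ i ∧ i / 2 ^ a % 3 ≠ 2)

lemma loc (s : ℕ) {x x' : ℤ → Bool} {i i' : ℤ} (h : ∀ k : ℕ, k ≤ s → x (i + k) = x' (i' + k)) :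
    F^[s] x i = F^[s] x' i' := by
  induction s generalizing x x' with
  | zero => simpa using h 0 le_rfl
  | succ s j =>
    refine j fun k l => ?_
    have := h (k + 1) (by omega)
    simp only [F, h k (by omega), add_assoc, Nat.cast_succ] at this ⊢
    rw [this]

lemma pw (a : ℕ) (x : ℤ → Bool) : F^[2 ^ a] x = fun i => xor (x i) (x (i + 2 ^ a)) := by
  induction a generalizing x with
  | zero => rfl
  | succ a j =>
    ext i
    rw [pow_succ, mul_two, Function.iterate_add_apply, j, j, pow_succ, mul_two, ← add_assoc]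
    simp

lemma y_add (a : ℕ) (i c : ℤ) :
    y a (i + c * 2 ^ a) = decide (2 ^ a ∣ i ∧ (i / 2 ^ a + c) % 3 ≠ 2) := by
  rw [y, Int.add_mul_ediv_right _ _ (by positivity)]
  simp [dvd_add_left]

lemma y_per (a : ℕ) (i : ℤ) : y a (i + 3 * 2 ^ a) = y a i := by rw [y_add, y]; simp

lemma y_fix (a : ℕ) : F^[3 * 2 ^ a] (y a) = y a := by
  have (t : ℤ) : F^[2 ^ a] (sh (t * 2 ^ a) (y a)) = sh ((t + 2) * 2 ^ a) (y a) := by
    ext i
    simp only [pw, sh]
    rw [show i + 2 ^ a + t * 2 ^ a = i + (t + 1) * 2 ^ a by ring, y_add, y_add, y_add]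
    by_cases d : 2 ^ a ∣ i
    · obtain h | h | h : (i / 2 ^ a + t) % 3 = 0 ∨ (i / 2 ^ a + t) % 3 = 1 ∨
        (i / 2 ^ a + t) % 3 = 2 := by omega
      all_goals simp [d, ← add_assoc, Int.add_emod _ 1, Int.add_emod _ 2, h]
    · simp [d]
  have e : y a = sh (0 * 2 ^ a) (y a) := by ext; simp [sh]
  rw [show 3 * 2 ^ a = 2 ^ a + 2 ^ a + 2 ^ a by ring, Function.iterate_add_apply,
    Function.iterate_add_apply, e, this, this, this]
  ext i
  simp only [sh, y_add]
  congr 3
  omega

lemma avoid {a b : ℕ} (h : b ≠ a) (n : ℕ) (p : ℤ)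
    (w : ∀ i : ℕ, i ≤ 3 * 2 ^ a → F^[n] (y b) (p + i) = y a i) : False := by
  have A : 0 < 2 ^ a := by positivity
  have u (c : ℕ) (l : c ≤ 3) : F^[n] (y b) (p + c * 2 ^ a) = decide (c % 3 ≠ 2) := by
    have := w (c * 2 ^ a) (by gcongr)
    have e := y_add a 0 c
    simp only [zero_add, Nat.cast_mul, Nat.cast_pow, Nat.cast_ofNat] at this e
    rw [this, e]
    simp; omega
  rcases h.lt_or_gt with h | h
  · obtain ⟨c, rfl⟩ := Nat.exists_eq_add_of_lt h
    have := w (2 ^ (b + c + 1) + 3 * 2 ^ b) (by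
      rw [pow_succ, pow_add]; nlinarith [c.two_pow_pos, b.two_pow_pos])
    rw [loc n (x' := y b) (i' := p + (1 : ℕ) * 2 ^ (b + c + 1)) fun k _ => by
      symm; rw [← y_per b (_ + _ + _)]; congr 1; push_cast; ring, u 1 (by omega), y] at this
    simp only [Nat.reduceMod, ne_eq, OfNat.one_ne_ofNat, not_false_eq_true, decide_true,
      Bool.true_eq, decide_eq_true_eq] at this
    have := this.1
    push_cast at this
    rw [dvd_add_self_left, add_assoc, pow_add, mul_comm,
      mul_dvd_mul_iff_right (by positivity)] at this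
    have := (dvd_pow_self 2 c.succ_ne_zero).trans this
    omega
  have s (q : ℕ) (i) : (F^[2 ^ (a + 1)])^[q] (y b) i = true → 2 * 2 ^ a ∣ i := by
    induction q generalizing i with
    | zero => exact fun k => (pow_succ' (2 : ℤ) a ▸ pow_dvd_pow 2 h).trans (of_decide_eq_true k).1
    | succ q j =>
      rw [Function.iterate_succ_apply', pw]
      intro k
      by_contra o
      simp [Bool.eq_false_iff.2 (mt (j i) o), Bool.eq_false_iff.2 (mt (j (i + 2 ^ (a + 1)))
        fun d => o (by rwa [pow_succ', dvd_add_self_right] at d))] at k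
  obtain ⟨v, m, l, e, v1, v2⟩ : ∃ v m, m < 2 ^ a ∧ F^[n] (y b) = F^[m] v ∧
      (∀ i, v i = true → 2 ^ a ∣ i) ∧ ∀ t, 2 ^ a ∣ t → v t = true → v (t + 2 ^ a) = true →
        v (t + 3 * 2 ^ a) = true → v (t + 2 * 2 ^ a) = true := by
    have k := Nat.mod_lt n (a + 1).two_pow_pos
    rw [← Nat.mod_add_div n (2 ^ (a + 1)), Function.iterate_add_apply, Function.iterate_mul]
    generalize n % 2 ^ (a + 1) = m at k
    replace s := s (n / 2 ^ (a + 1))
    generalize (F^[2 ^ (a + 1)])^[n / 2 ^ (a + 1)] (y b) = z at s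
    have nd (c : ℤ) (o : 2 * 2 ^ a ∣ (2 * c + 1) * 2 ^ a) : False := by
      rw [mul_dvd_mul_iff_right (by positivity)] at o; omega
    by_cases l : m < 2 ^ a
    · exact ⟨z, m, l, rfl, fun i o => (dvd_mul_left _ _).trans (s i o), fun t _ o o' _ =>
        (nd 0 (by simpa using (s _ o').sub (s _ o))).elim⟩
    refine ⟨F^[2 ^ a] z, m - 2 ^ a, by omega, by
      rw [← Function.iterate_add_apply, Nat.sub_add_cancel (by omega)], fun i o => ?_, ?_⟩
    · by_contra d
      simp [pw, Bool.eq_false_iff.2 (mt (s i) fun k => d ((dvd_mul_left _ _).trans k)),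
        Bool.eq_false_iff.2 (mt (s (i + 2 ^ a)) fun k => d (by
          simpa using (dvd_mul_left _ _).trans k))] at o
    · rintro _ ⟨t, rfl⟩ - o o'
      have z0 (c : ℤ) (i) (e : i = (2 * c + 1) * 2 ^ a) : z i = false :=
        Bool.eq_false_iff.2 fun k => nd c (e ▸ s i k)
      simp only [pw] at o o' ⊢
      obtain ⟨c, rfl | rfl⟩ := t.even_or_odd'
      · rw [z0 c _ (by ring)] at o
        rw [z0 (c + 1) (_ + _ + _) (by ring), Bool.xor_false, ← Bool.false_xor (z _), ← o]
        congr 2; ring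
      · rw [z0 (c + 2) (_ + _ + _) (by ring)] at o'
        rw [z0 (c + 1) (_ + _) (by ring), Bool.false_xor, ← Bool.xor_false (z _), ← o']
        congr 2; ring
  obtain ⟨j, jl, jd⟩ : ∃ j : ℕ, j < 2 ^ a ∧ 2 ^ a ∣ p + j := by
    have := Int.emod_nonneg (-p) (b := 2 ^ a) (by positivity)
    have := Int.emod_lt_of_pos (-p) (b := 2 ^ a) (by positivity)
    refine ⟨(-p % 2 ^ a).toNat, by zify; omega, ?_⟩
    rw [Int.toNat_of_nonneg ‹_›, Int.emod_def]
    exact ⟨-(-p / 2 ^ a), by ring⟩
  have z (c : ℤ) (k : ℕ) (o : k ≤ m) (d : k ≠ j) : v (p + c * 2 ^ a + k) = false := by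
    refine Bool.eq_false_iff.2 fun o => d ?_
    have := ((v1 _ o).sub jd).sub (dvd_mul_left _ c)
    rw [show p + c * 2 ^ a + k - (p + j) - c * 2 ^ a = k - j by ring] at this
    have := Int.eq_zero_of_abs_lt_dvd this (by zify at l jl; rw [abs_lt]; omega)
    omega
  have t (c : ℕ) (l : c ≤ 3) (o : c % 3 ≠ 2) : v (p + c * 2 ^ a + j) = true := by
    by_contra d
    have := u c l
    rw [e, loc m (x' := fun _ => false) (i' := 0) fun k o => by
      by_cases e : k = j
      · simpa [e] using d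
      · exact z _ k o e, Function.iterate_fixed (by ext; simp [F])] at this
    simp [o] at this
  have := v2 _ jd (by simpa using t 0 (by omega) (by omega))
    (by rw [add_right_comm]; simpa using t 1 (by omega) (by omega))
    (by rw [add_right_comm]; exact t 3 (by omega) (by omega))
  have k := u 2 (by omega)
  rw [e, loc m (x' := v) (i' := p + (1 : ℕ) * 2 ^ a) fun k o => by
    by_cases e : k = j
    · rw [e, t 1 (by omega) (by omega), add_right_comm]; exact this
    · rw [z _ k o e, z _ k o e], ← e, u 1 (by omega)] at k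
  simp at k

end Pool.Agent.Lib.H8.Xor
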